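import Mathlib

/-! Nonnegative real polynomials, positive semidefinite polynomial matrices, degree reduction. -/

namespace Pool.Agent.CA9.UB

open Finset Matrix Polynomial

/-- nonnegative at every real point -/
def NN (f : ℝ[X]) : Prop := ∀ t : ℝ, 0 ≤ f.eval t

lemma NN.lead {f : ℝ[X]} (h : NN f) : 0 ≤ f.leadingCoeff := by
  by_contra hl
  rw [not_le] at hl
  by_cases hd : 0 < f.degree
  · have := (f.tendsto_atBot_of_leadingCoeff_nonpos hd hl.le).eventually_lt_atBot 0
    obtain ⟨t, ht⟩ := this.exists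
    exact absurd (h t) (not_le.2 ht)
  · rw [not_lt] at hd
    have h0 := h 0
    rw [eq_C_of_degree_le_zero hd] at hl h0
    rw [leadingCoeff_C] at hl
    rw [eval_C] at h0
    exact absurd h0 (not_le.2 hl)

lemma NN.even {f : ℝ[X]} (h : NN f) : Even f.natDegree := by
  by_cases h0 : f = 0
  · simp [h0]
  by_contra ho
  rw [Nat.not_even_iff_odd] at ho
  have h1 : NN (f.comp (-X)) := fun t => by rw [eval_comp]; exact h _
  have h2 := h1.lead
  rw [comp_neg_X_leadingCoeff_eq, ho.neg_one_pow] at h2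
  have h3 := h.lead
  exact h0 (leadingCoeff_eq_zero.1 (by linarith))

lemma NN.coeff {f : ℝ[X]} (h : NN f) {n : ℕ} (hn : f.natDegree ≤ n) : 0 ≤ f.coeff n := by
  rcases hn.eq_or_lt with e | e
  · rw [← e]; exact h.lead
  · rw [coeff_eq_zero_of_natDegree_lt e]

lemma NN.of_mul {q f : ℝ[X]} (hq : q ≠ 0) (h : NN (q ^ 2 * f)) : NN f := by
  have hd : Dense ({t : ℝ | q.IsRoot t}ᶜ) := (q.finite_setOfPred_isRoot hq).countable.dense_compl ℝ
  have hc : IsClosed {t : ℝ | 0 ≤ f.eval t} := isClosed_le continuous_const f.continuous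
  intro t
  have : closure ({t : ℝ | q.IsRoot t}ᶜ) ⊆ {t : ℝ | 0 ≤ f.eval t} := by
    refine closure_minimal (fun u hu => ?_) hc
    have h1 := h u
    rw [eval_mul, eval_pow] at h1
    have h2 : q.eval u ≠ 0 := hu
    exact nonneg_of_mul_nonneg_right h1 (by positivity) |> fun x => x
  exact this (hd t)

lemma NN.sq_dvd {f : ℝ[X]} (h : NN f) {a : ℝ} (ha : (X - C a) ∣ f) : (X - C a) ^ 2 ∣ f := by
  obtain ⟨r, rfl⟩ := ha
  have hm : IsLocalMin (fun t => ((X - C a) * r).eval t) a :=
    Filter.Eventually.of_forall fun t => by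
      have := h t
      simpa using this
  have := hm.deriv_eq_zero
  rw [Polynomial.deriv] at this
  rw [pow_two]
  refine mul_dvd_mul_left _ (dvd_iff_isRoot.2 ?_)
  simpa using this

variable {ι κ : Type} [Fintype ι] [Fintype κ]

/-- symmetric and positive semidefinite at every real point -/
def Psd (G : Matrix ι ι ℝ[X]) : Prop := Gᵀ = G ∧ ∀ x : ι → ℝ[X], NN (x ⬝ᵥ G *ᵥ x)

lemma quad_conj {R : Type} [CommRing R] (G : Matrix ι ι R) (E : Matrix ι κ R) (x y : κ → R) :
    x ⬝ᵥ (Eᵀ * G * E) *ᵥ y = (E *ᵥ x) ⬝ᵥ G *ᵥ (E *ᵥ y) := by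
  rw [← mulVec_mulVec, ← mulVec_mulVec, dotProduct_mulVec, vecMul_transpose]

lemma Psd.conj {G : Matrix ι ι ℝ[X]} (h : Psd G) (E : Matrix ι κ ℝ[X]) : Psd (Eᵀ * G * E) :=
  ⟨by rw [transpose_mul, transpose_mul, transpose_transpose, h.1, Matrix.mul_assoc],
   fun x => by rw [quad_conj]; exact h.2 _⟩

lemma psd_gram (Y : Matrix κ ι ℝ[X]) : Psd (Yᵀ * Y) := by
  refine ⟨by rw [transpose_mul, transpose_transpose], fun x t => ?_⟩
  rw [← mulVec_mulVec, dotProduct_mulVec, vecMul_transpose, dotProduct, eval_finsetSum]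
  exact sum_nonneg fun i _ => by rw [eval_mul]; exact mul_self_nonneg _

lemma Psd.symm {G : Matrix ι ι ℝ[X]} (h : Psd G) (i j : ι) : G j i = G i j := by
  have := congrFun (congrFun h.1 i) j
  exact this

lemma Psd.real {G : Matrix ι ι ℝ[X]} (h : Psd G) (t : ℝ) :
    (G.map (eval t)).PosSemidef := by
  refine PosSemidef.of_dotProduct_mulVec_nonneg ?_ fun c => ?_
  · ext i j
    simp [h.symm i j]
  · have := h.2 (fun i => C (c i)) t
    simpa [dotProduct, mulVec, eval_finsetSum] using this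

variable [DecidableEq ι]

lemma Psd.det_nn {G : Matrix ι ι ℝ[X]} (h : Psd G) : NN G.det := fun t => by
  have := (h.real t).det_nonneg
  have e := (evalRingHom t).map_det G
  simp only [coe_evalRingHom, RingHom.mapMatrix_apply] at e
  rwa [e]

lemma quad_two {R : Type} [CommRing R] (G : Matrix ι ι R) (i j : ι) (a b : R) :
    (Pi.single i a + Pi.single j b) ⬝ᵥ G *ᵥ (Pi.single i a + Pi.single j b)
      = a * a * G i i + a * b * G i j + b * a * G j i + b * b * G j j := by
  simp only [mulVec_add, add_dotProduct, dotProduct_add, single_dotProduct, mulVec_single,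
    Pi.smul_apply, col_apply, MulOpposite.smul_eq_mul_unop, MulOpposite.unop_op]
  ring

lemma Psd.diag {G : Matrix ι ι ℝ[X]} (h : Psd G) (i : ι) : NN (G i i) := by
  have := h.2 (Pi.single i 1)
  simpa using this

lemma Psd.minor {G : Matrix ι ι ℝ[X]} (h : Psd G) (i j : ι) :
    NN (G i i * G j j - G i j * G i j) := fun t => by
  have h1 : ∀ a : ℝ, 0 ≤ (G i i).eval t * (a * a) + (2 * (G i j).eval t) * a + (G j j).eval t := by
    intro a
    have := h.2 (Pi.single i (C a) + Pi.single j 1) t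
    rw [quad_two, h.symm i j] at this
    simp only [eval_add, eval_mul, eval_C, eval_one] at this
    linarith
  have := discrim_le_zero h1
  rw [discrim] at this
  simp only [eval_sub, eval_mul]
  linarith

lemma lead_neg_of_lt {p g : ℝ[X]} (hg : g ≠ 0) (hd : p.degree < (g * g).degree) :
    ¬ NN (p - g * g) := fun h => by
  have h1 := h.lead
  rw [leadingCoeff_sub_of_degree_lt' hd, leadingCoeff_mul] at h1
  have h2 : g.leadingCoeff ≠ 0 := leadingCoeff_ne_zero.2 hg
  have := mul_self_pos.2 h2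
  linarith

lemma Psd.row_zero {G : Matrix ι ι ℝ[X]} (h : Psd G) {i : ι} (hi : G i i = 0) (j : ι) :
    G i j = 0 := by
  by_contra hg
  refine lead_neg_of_lt hg ?_ (h.minor i j)
  rw [hi, zero_mul, degree_zero]
  exact bot_lt_iff_ne_bot.2 (degree_ne_bot.2 (mul_ne_zero hg hg))

/-- half the degree of a diagonal entry -/
noncomputable def hd (G : Matrix ι ι ℝ[X]) (i : ι) : ℕ := (G i i).natDegree / 2

lemma Psd.two_hd {G : Matrix ι ι ℝ[X]} (h : Psd G) (i : ι) :
    (G i i).natDegree = hd G i + hd G i := by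
  obtain ⟨r, hr⟩ := (h.diag i).even
  rw [hd]; omega

lemma Psd.deg_le {G : Matrix ι ι ℝ[X]} (h : Psd G) (i j : ι) :
    (G i j).natDegree ≤ hd G i + hd G j := by
  by_contra hl
  rw [not_le] at hl
  have hg : G i j ≠ 0 := fun e => by rw [e] at hl; simp at hl
  refine lead_neg_of_lt hg (degree_lt_degree ?_) (h.minor i j)
  rw [natDegree_mul hg hg]
  have h1 := natDegree_mul_le (p := G i i) (q := G j j)
  rw [h.two_hd i, h.two_hd j] at h1
  omega

/-- the matrix of top coefficients -/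
noncomputable def top (G : Matrix ι ι ℝ[X]) : Matrix ι ι ℝ :=
  fun i j => (G i j).coeff (hd G i + hd G j)

/-- size of an entry -/
noncomputable def wt (f : ℝ[X]) : ℕ := by
  classical exact if f = 0 then 0 else f.natDegree + 1

/-- reduced: the top matrix is positive definite on the support -/
def Red (G : Matrix ι ι ℝ[X]) : Prop :=
  ∀ c : ι → ℝ, c ≠ 0 → (∀ i, G i i = 0 → c i = 0) → 0 < c ⬝ᵥ top G *ᵥ c

lemma det_updateCol_one {R : Type} [CommRing R] (i : ι) (x : ι → R) :
    ((1 : Matrix ι ι R).updateCol i x).det = x i := by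
  have : cramer (1 : Matrix ι ι R) x i = x i := by rw [cramer_one]; rfl
  rwa [cramer_apply] at this

lemma updateCol_one_single {R : Type} [CommRing R] (i j : ι) (x : ι → R) :
    ((1 : Matrix ι ι R).updateCol i x) *ᵥ Pi.single j 1 = if j = i then x else Pi.single j 1 := by
  ext k
  by_cases h : j = i
  · subst h; simp
  · simp [h, one_apply, Pi.single_apply]

lemma conj_apply {R : Type} [CommRing R] [DecidableEq κ] (G : Matrix ι ι R) (E : Matrix ι κ R)
    (a b : κ) :
    (Eᵀ * G * E) a b = (E *ᵥ Pi.single a 1) ⬝ᵥ G *ᵥ (E *ᵥ Pi.single b 1) := by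
  rw [← quad_conj]; simp

lemma red_step {G : Matrix ι ι ℝ[X]} (h : Psd G) (hr : ¬ Red G) :
    ∃ E : Matrix ι ι ℝ[X], IsUnit E.det ∧
      ∑ i, wt ((Eᵀ * G * E) i i) < ∑ i, wt (G i i) := by
  rw [Red] at hr
  push Not at hr
  obtain ⟨c, hc, hs, hq⟩ := hr
  have hne : (univ.filter fun i => c i ≠ 0).Nonempty := by
    obtain ⟨i, hi⟩ := Function.ne_iff.1 hc
    exact ⟨i, by simpa using hi⟩
  obtain ⟨i0, hi0, hmax⟩ := exists_max_image _ (hd G) hne
  have hc0 : c i0 ≠ 0 := by simpa using hi0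
  have hm : ∀ j, c j ≠ 0 → hd G j ≤ hd G i0 := fun j hj => hmax j (by simpa using hj)
  set x : ι → ℝ[X] := fun j => C (c j) * X ^ (hd G i0 - hd G j) with hx
  have hQ : x ⬝ᵥ G *ᵥ x = ∑ j, ∑ k, C (c j * c k) *
      (G j k * X ^ ((hd G i0 - hd G j) + (hd G i0 - hd G k))) := by
    simp only [dotProduct, mulVec, mul_sum, hx]
    refine sum_congr rfl fun j _ => sum_congr rfl fun k _ => ?_
    rw [pow_add, C_mul]; ring
  have hdeg : (x ⬝ᵥ G *ᵥ x).natDegree ≤ hd G i0 + hd G i0 := by
    rw [hQ]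
    refine natDegree_sum_le_of_forall_le _ _ fun j _ => natDegree_sum_le_of_forall_le _ _
      fun k _ => ?_
    by_cases hj : c j = 0
    · simp [hj]
    by_cases hk : c k = 0
    · simp [hk]
    refine (natDegree_C_mul_le _ _).trans (natDegree_mul_le.trans ?_)
    rw [natDegree_X_pow]
    have := h.deg_le j k
    have := hm j hj
    have := hm k hk
    omega
  have hco : (x ⬝ᵥ G *ᵥ x).coeff (hd G i0 + hd G i0) = c ⬝ᵥ top G *ᵥ c := by
    rw [hQ]
    simp only [finsetSum_coeff, coeff_C_mul, dotProduct, mulVec, mul_sum, top]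
    refine sum_congr rfl fun j _ => sum_congr rfl fun k _ => ?_
    by_cases hj : c j = 0
    · simp [hj]
    by_cases hk : c k = 0
    · simp [hk]
    have e : hd G i0 + hd G i0
        = (hd G j + hd G k) + ((hd G i0 - hd G j) + (hd G i0 - hd G k)) := by
      have := hm j hj
      have := hm k hk
      omega
    rw [e, coeff_mul_X_pow]; ring
  have hz : (x ⬝ᵥ G *ᵥ x).coeff (hd G i0 + hd G i0) = 0 :=
    le_antisymm (hco ▸ hq) ((h.2 x).coeff hdeg)
  have hG0 : G i0 i0 ≠ 0 := fun e => hc0 (hs i0 e)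
  have hlt : wt (x ⬝ᵥ G *ᵥ x) < wt (G i0 i0) := by
    simp only [wt, if_neg hG0]
    split_ifs with e
    · omega
    · rw [h.two_hd i0]
      rcases hdeg.eq_or_lt with e1 | e1
      · rw [← e1] at hz
        exact absurd (leadingCoeff_eq_zero.1 hz) e
      · omega
  refine ⟨(1 : Matrix ι ι ℝ[X]).updateCol i0 x, ?_, ?_⟩
  · rw [det_updateCol_one]
    simp only [hx, Nat.sub_self, pow_zero, mul_one]
    exact isUnit_C.2 (isUnit_iff_ne_zero.2 hc0)
  · refine sum_lt_sum (fun i _ => ?_) ⟨i0, mem_univ _, ?_⟩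
    · rw [conj_apply, updateCol_one_single]
      split_ifs with e
      · rw [e]; exact hlt.le
      · simp
    · rw [conj_apply, updateCol_one_single, if_pos rfl]
      exact hlt

/-- (H): reduction of the degrees by a unimodular change of basis -/
theorem exists_red {G : Matrix ι ι ℝ[X]} (h : Psd G) :
    ∃ E : Matrix ι ι ℝ[X], IsUnit E.det ∧ Red (Eᵀ * G * E) := by
  induction hn : ∑ i, wt (G i i) using Nat.strong_induction_on generalizing G with
  | _ n ih =>
    by_cases hr : Red G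
    · exact ⟨1, by simp, by simpa using hr⟩
    · obtain ⟨E, hE, hlt⟩ := red_step h hr
      obtain ⟨E', hE', hr'⟩ := ih _ (hn ▸ hlt) (h.conj E) rfl
      refine ⟨E * E', by rw [det_mul]; exact hE.mul hE', ?_⟩
      have e : (E * E')ᵀ * G * (E * E') = E'ᵀ * (Eᵀ * G * E) * E' := by
        rw [transpose_mul]; simp only [Matrix.mul_assoc]
      rwa [e]

end Pool.Agent.CA9.UB
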