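import Pool.Agent.Lib.MP_ca9be0_an.UB.AlgA

/-! Splitting off the radical, unimodular positive matrices over real polynomials. -/

namespace Pool.Agent.CA9.UB

open Finset Matrix Polynomial

variable {ι κ : Type} [Fintype ι] [Fintype κ]

lemma coeff_prod_le {α : Type} (s : Finset α) (f : α → ℝ[X]) (n : α → ℕ)
    (h : ∀ a ∈ s, (f a).natDegree ≤ n a) :
    (∏ a ∈ s, f a).coeff (∑ a ∈ s, n a) = ∏ a ∈ s, (f a).coeff (n a) := by
  classical
  induction s using Finset.induction_on with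
  | empty => simp
  | insert a s ha ih =>
    rw [prod_insert ha, sum_insert ha, prod_insert ha,
      coeff_mul_add_eq_of_natDegree_le (h a (mem_insert_self _ _)),
      ih fun b hb => h b (mem_insert_of_mem hb)]
    exact (natDegree_prod_le _ _).trans (sum_le_sum fun b hb => h b (mem_insert_of_mem hb))

lemma coeff_det [DecidableEq ι] (G : Matrix ι ι ℝ[X]) (d : ι → ℕ)
    (h : ∀ i j, (G i j).natDegree ≤ d i + d j) :
    G.det.coeff (∑ i, d i + ∑ i, d i)
      = (Matrix.of fun i j => (G i j).coeff (d i + d j)).det := by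
  rw [det_apply', det_apply', finsetSum_coeff]
  refine sum_congr rfl fun σ _ => ?_
  have e : ∑ i, d i + ∑ i, d i = ∑ i, (d (σ i) + d i) := by
    rw [sum_add_distrib, Equiv.sum_comp σ d]
  rw [e, ← C_eq_intCast, coeff_C_mul, coeff_prod_le _ _ _ fun i _ => h (σ i) i]
  rfl

omit [Fintype ι] in
/-- rows can be moved to any index type that is large enough -/
lemma pad {α μ R : Type} [Fintype α] [Fintype μ] [CommRing R]
    (h : Fintype.card α ≤ Fintype.card μ) (B : Matrix α ι R) :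
    ∃ B' : Matrix μ ι R, B'ᵀ * B' = Bᵀ * B := by
  classical
  obtain ⟨e⟩ := Function.Embedding.nonempty_of_card_le h
  refine ⟨fun a j => ∑ b, if e b = a then B b j else 0, ?_⟩
  have key : ∀ b j, (∑ b', if e b' = e b then B b' j else 0) = B b j := fun b j => by
    simp only [e.injective.eq_iff, sum_ite_eq', mem_univ, if_true]
  ext i j
  simp only [mul_apply, transpose_apply]
  calc ∑ a, (∑ b, if e b = a then B b i else 0) * ∑ b, (if e b = a then B b j else 0)
      = ∑ a, ∑ b, if e b = a then B b i * B b j else 0 := by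
        refine sum_congr rfl fun a _ => ?_
        rw [sum_mul]
        refine sum_congr rfl fun b _ => ?_
        split_ifs with hb
        · rw [← hb, key]
        · rw [zero_mul]
    _ = ∑ b, B b i * B b j := by
        rw [sum_comm]
        simp only [sum_ite_eq, mem_univ, if_true]

lemma card_le_of_det {R : Type} [CommRing R] [IsDomain R] [DecidableEq ι]
    (A : Matrix ι κ R) (B : Matrix κ ι R) (h : (A * B).det ≠ 0) :
    Fintype.card ι ≤ Fintype.card κ := by
  have hi : Function.Injective B.mulVecLin := by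
    rw [← LinearMap.ker_eq_bot, LinearMap.ker_eq_bot']
    intro x hx
    refine eq_zero_of_mulVec_eq_zero h ?_
    rw [← mulVec_mulVec]
    have : B *ᵥ x = 0 := hx
    rw [this, mulVec_zero]
  have := LinearMap.finrank_le_finrank_of_injective hi
  simpa using this

lemma det_dvd_conj {R : Type} [CommRing R] [DecidableEq ι] [DecidableEq κ]
    (G : Matrix ι ι R) (E : Matrix ι κ R) (h : Fintype.card κ = Fintype.card ι) :
    G.det ∣ (Eᵀ * G * E).det := by
  obtain ⟨e⟩ := Fintype.card_eq.1 h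
  have e1 : Eᵀ * G * E
      = (E.submatrix e id)ᵀ * G.submatrix e e * E.submatrix e id := by
    rw [transpose_submatrix, submatrix_mul_equiv, submatrix_mul_equiv]
    rfl
  rw [e1, det_mul, det_mul, det_submatrix_equiv_self]
  exact (dvd_mul_left _ _).mul_right _

lemma unit_back {R : Type} [CommRing R] [DecidableEq ι] (G E : Matrix ι ι R)
    (hE : IsUnit E.det) : G = E⁻¹ᵀ * (Eᵀ * G * E) * E⁻¹ := by
  have h1 : E⁻¹ᵀ * Eᵀ = 1 := by rw [← transpose_mul, mul_nonsing_inv _ hE, transpose_one]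
  calc G = (E⁻¹ᵀ * Eᵀ) * G * (E * E⁻¹) := by rw [h1, mul_nonsing_inv _ hE]; simp
    _ = _ := by simp only [Matrix.mul_assoc]

omit [Fintype κ] in
lemma gram_conj {R α : Type} [CommRing R] [Fintype α] (Q : Matrix α ι R) (E : Matrix ι κ R) :
    Eᵀ * (Qᵀ * Q) * E = (Q * E)ᵀ * (Q * E) := by
  rw [transpose_mul]; simp only [Matrix.mul_assoc]

lemma real_gram [DecidableEq ι] {L : Matrix ι ι ℝ} (h : L.PosSemidef) :
    ∃ S : Matrix ι ι ℝ, L = Sᵀ * S := by
  open MatrixOrder in
  obtain ⟨B, hB⟩ := CStarAlgebra.nonneg_iff_eq_star_mul_self.mp h.nonneg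
  exact ⟨B, by rw [hB, star_eq_conjTranspose, conjTranspose_eq_transpose_of_trivial]⟩

lemma top_posDef [DecidableEq ι] {G : Matrix ι ι ℝ[X]} (h : Psd G) (hr : Red G)
    (h0 : ∀ i, G i i ≠ 0) : (top G).PosDef := by
  refine PosDef.of_dotProduct_mulVec_pos ?_ fun c hc => ?_
  · ext i j
    simp [top, h.symm i j, add_comm]
  · simpa using hr c hc fun i hi => absurd hi (h0 i)

lemma red_full [DecidableEq ι] {G : Matrix ι ι ℝ[X]} (h : Psd G) (hr : Red G)
    (h0 : ∀ i, G i i ≠ 0) :
    G.det ≠ 0 ∧ (IsUnit G.det → ∃ Q : Matrix ι ι ℝ[X], G = Qᵀ * Q) := by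
  have hp := top_posDef h hr h0
  have hc : G.det.coeff (∑ i, hd G i + ∑ i, hd G i) ≠ 0 := by
    rw [coeff_det G (hd G) h.deg_le]
    exact hp.det_pos.ne'
  refine ⟨fun e => hc (by rw [e, coeff_zero]), fun hu => ?_⟩
  have h1 := le_natDegree_of_ne_zero hc
  rw [natDegree_eq_zero_of_isUnit hu] at h1
  have h2 : ∀ i, hd G i = 0 := fun i => by
    have := single_le_sum (f := hd G) (fun _ _ => Nat.zero_le _) (mem_univ i)
    omega
  obtain ⟨S, hS⟩ := real_gram hp.posSemidef
  refine ⟨S.map C, ?_⟩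
  have e : G = (top G).map C := by
    ext1 i j
    have := h.deg_le i j
    rw [h2, h2] at this
    rw [map_apply, top, h2, h2]
    exact eq_C_of_natDegree_le_zero this
  rw [e, hS, Matrix.map_mul, transpose_map]

/-- splitting off the radical -/
theorem exists_core [DecidableEq ι] {Γ : Matrix ι ι ℝ[X]} (h : Psd Γ) :
    ∃ (r : ℕ) (G : Matrix (Fin r) (Fin r) ℝ[X]) (A : Matrix (Fin r) ι ℝ[X])
      (E : Matrix ι (Fin r) ℝ[X]), r ≤ Fintype.card ι ∧ Psd G ∧ Γ = Aᵀ * G * A ∧
      G = Eᵀ * Γ * E ∧ G.det ≠ 0 ∧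
      (IsUnit G.det → ∃ Q : Matrix (Fin r) (Fin r) ℝ[X], G = Qᵀ * Q) := by
  classical
  obtain ⟨E, hE, hr⟩ := exists_red h
  have h' := h.conj E
  set Γ' := Eᵀ * Γ * E with hΓ'
  set s : Finset ι := univ.filter fun i => Γ' i i ≠ 0 with hs
  set e : Fin s.card → ι := fun a => (s.equivFin.symm a).1 with he
  have hinj : Function.Injective e := fun a b hab =>
    s.equivFin.symm.injective (Subtype.ext hab)
  have hmem : ∀ a, Γ' (e a) (e a) ≠ 0 := fun a =>
    (mem_filter.1 (s.equivFin.symm a).2).2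
  have hsur : ∀ i, Γ' i i ≠ 0 → ∃ a, e a = i := fun i hi =>
    ⟨s.equivFin ⟨i, by simpa [hs] using hi⟩, by simp [he]⟩
  set S : Matrix ι (Fin s.card) ℝ[X] := fun i a => if e a = i then 1 else 0 with hS
  have hG : Sᵀ * Γ' * S = Γ'.submatrix e e := by
    ext1 a b
    simp [mul_apply, hS, transpose_apply]
  have hsum : ∀ (f : ι → ℝ[X]) (i : ι), (Γ' i i = 0 → f i = 0) →
      ∑ a, (if e a = i then f (e a) else 0) = f i := fun f i hf => by
    by_cases hi : Γ' i i = 0
    · rw [hf hi]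
      refine sum_eq_zero fun a _ => ?_
      rw [if_neg]
      rintro rfl
      exact hmem a hi
    · obtain ⟨a, rfl⟩ := hsur i hi
      simp only [hinj.eq_iff, sum_ite_eq', mem_univ, if_true]
  have hback : Γ' = Sᵀᵀ * Γ'.submatrix e e * Sᵀ := by
    ext1 i j
    simp only [mul_apply, hS, transpose_apply, submatrix_apply, ite_mul, one_mul, zero_mul,
      mul_ite, mul_one, mul_zero]
    have a1 : ∀ b, ∑ a, (if e a = i then Γ' (e a) (e b) else 0) = Γ' i (e b) := fun b =>
      hsum (fun k => Γ' k (e b)) i fun hi => h'.row_zero hi _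
    simp only [a1]
    exact (hsum (fun k => Γ' i k) j fun hj => by rw [h'.symm j i]; exact h'.row_zero hj _).symm
  have hP : Psd (Γ'.submatrix e e) := hG ▸ h'.conj S
  have hR : Red (Γ'.submatrix e e) := by
    intro c hc _
    set S0 : Matrix ι (Fin s.card) ℝ := fun i a => if e a = i then 1 else 0 with hS0
    have t1 : top (Γ'.submatrix e e) = S0ᵀ * top Γ' * S0 := by
      ext1 a b
      simp [mul_apply, hS0, transpose_apply, top, hd]
    have t2 : ∀ a, (S0 *ᵥ c) (e a) = c a := fun a => by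
      simp [mulVec, dotProduct, hS0, hinj.eq_iff]
    rw [t1, quad_conj]
    refine hr _ (fun e0 => hc (funext fun a => ?_)) fun i hi => ?_
    · rw [← t2 a, e0]; rfl
    · simp only [mulVec, dotProduct, hS0]
      refine sum_eq_zero fun a _ => ?_
      rw [if_neg, zero_mul]
      rintro rfl
      exact hmem a hi
  obtain ⟨hdet, hQ⟩ := red_full hP hR hmem
  refine ⟨s.card, Γ'.submatrix e e, Sᵀ * E⁻¹, E * S, card_le_univ s, hP, ?_, ?_, hdet, hQ⟩
  · calc Γ = E⁻¹ᵀ * Γ' * E⁻¹ := unit_back Γ E hE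
      _ = E⁻¹ᵀ * (Sᵀᵀ * Γ'.submatrix e e * Sᵀ) * E⁻¹ := by rw [← hback]
      _ = _ := by rw [transpose_mul]; simp only [Matrix.mul_assoc]
  · rw [← hG, hΓ', transpose_mul]; simp only [Matrix.mul_assoc]

/-- (H1): a positive unimodular matrix is a Gram matrix of the same size -/
theorem gram_of_unit [DecidableEq ι] {Γ : Matrix ι ι ℝ[X]} (h : Psd Γ) (hu : IsUnit Γ.det) :
    ∃ Q : Matrix ι ι ℝ[X], Γ = Qᵀ * Q := by
  obtain ⟨r, G, A, E, hr, -, hA, -, -, hQ⟩ := exists_core h
  have h1 : Fintype.card ι ≤ Fintype.card (Fin r) := by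
    refine card_le_of_det (Aᵀ * G) A ?_
    rw [← hA]; exact hu.ne_zero
  have h2 : Fintype.card ι = Fintype.card (Fin r) :=
    le_antisymm h1 (by rwa [Fintype.card_fin])
  have h3 := det_dvd_conj G A h2
  rw [← hA] at h3
  obtain ⟨Q, hQ⟩ := hQ (isUnit_of_dvd_unit h3 hu)
  obtain ⟨B, hB⟩ := pad h2.ge (Q * A)
  exact ⟨B, by rw [hB, ← gram_conj, ← hQ, ← hA]⟩

end Pool.Agent.CA9.UB
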