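import Pool.Agent.Lib.MP_ca9be0_an.UB.AlgB

/-! Positive polynomial matrices with square determinant, Leep and Birkhoff factorisations. -/

namespace Pool.Agent.CA9.UB

open Finset Matrix Polynomial

variable {ι : Type} [Fintype ι] [DecidableEq ι]

omit [DecidableEq ι] in
lemma quad_symm {R : Type} [CommRing R] {Γ : Matrix ι ι R} (hs : Γᵀ = Γ) (x y : ι → R) :
    x ⬝ᵥ Γ *ᵥ y = y ⬝ᵥ Γ *ᵥ x := by
  rw [dotProduct_mulVec, ← mulVec_transpose, hs, dotProduct_comm]

omit [DecidableEq ι] in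
lemma dvd_dot {R : Type} [CommRing R] {p : R} (x y : ι → R) (h : ∀ j, p ∣ y j) :
    p ∣ x ⬝ᵥ y :=
  dvd_sum fun j _ => (h j).mul_left _

/-- a vector along which the lattice can be enlarged at `p` -/
def IsoV (Γ : Matrix ι ι ℝ[X]) (p : ℝ[X]) : Prop :=
  ∃ (x : ι → ℝ[X]) (i : ι), ¬ p ∣ x i ∧ (∀ j, p ∣ (Γ *ᵥ x) j) ∧ p ^ 2 ∣ x ⬝ᵥ Γ *ᵥ x

lemma iso_norm {Γ : Matrix ι ι ℝ[X]} (hs : Γᵀ = Γ) {p : ℝ[X]} (hp : Irreducible p)
    (h : IsoV Γ p) : ∃ (x : ι → ℝ[X]) (i : ι), x i = 1 ∧ (∀ j, p ∣ (Γ *ᵥ x) j) ∧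
      p ^ 2 ∣ x ⬝ᵥ Γ *ᵥ x := by
  obtain ⟨x, i, hi, h1, h2⟩ := h
  obtain ⟨w, u, hu⟩ := (hp.coprime_iff_not_dvd).2 hi
  refine ⟨u • x + (w * p) • Pi.single i 1, i, ?_, fun j => ?_, ?_⟩
  · simp only [Pi.add_apply, Pi.smul_apply, Pi.single_eq_same, smul_eq_mul, mul_one]
    rw [add_comm]; exact hu
  · rw [mulVec_add, mulVec_smul, mulVec_smul]
    simp only [Pi.add_apply, Pi.smul_apply, smul_eq_mul]
    exact dvd_add ((h1 j).mul_left _) (((dvd_refl p).mul_left _).mul_right _)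
  · obtain ⟨a, ha⟩ := h2
    obtain ⟨b, hb⟩ := h1 i
    have e1 : (Pi.single i 1 : ι → ℝ[X]) ⬝ᵥ Γ *ᵥ x = p * b := by rw [single_one_dotProduct, hb]
    have e2 : x ⬝ᵥ Γ *ᵥ (Pi.single i 1 : ι → ℝ[X]) = p * b := by rw [quad_symm hs, e1]
    rw [mulVec_add, mulVec_smul, mulVec_smul, add_dotProduct, dotProduct_add, dotProduct_add,
      smul_dotProduct, smul_dotProduct, smul_dotProduct, smul_dotProduct, dotProduct_smul,
      dotProduct_smul, dotProduct_smul, dotProduct_smul, ha, e1, e2]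
    simp only [smul_eq_mul]
    exact ⟨u * u * a + 2 * u * w * b + w * w * (Pi.single i 1 ⬝ᵥ Γ *ᵥ Pi.single i 1), by ring⟩

lemma enlarge {Γ : Matrix ι ι ℝ[X]} (h : Psd Γ) {p : ℝ[X]} (hp : p ≠ 0) {x : ι → ℝ[X]} {i : ι}
    (hi : x i = 1) (h1 : ∀ j, p ∣ (Γ *ᵥ x) j) (h2 : p ^ 2 ∣ x ⬝ᵥ Γ *ᵥ x) :
    ∃ Γ1 A : Matrix ι ι ℝ[X], Psd Γ1 ∧ Γ = Aᵀ * Γ1 * A ∧ Γ.det = p ^ 2 * Γ1.det := by
  set M : Matrix ι ι ℝ[X] := (1 : Matrix ι ι ℝ[X]).updateCol i x with hM
  have hdet : M.det = 1 := by rw [hM, det_updateCol_one, hi]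
  set g : ι → ℝ[X] := fun j => if j = i then p else 1 with hg
  have hdv : ∀ j k, g j * g k ∣ (Mᵀ * Γ * M) j k := fun j k => by
    rw [conj_apply, hM, updateCol_one_single, updateCol_one_single]
    by_cases hj : j = i <;> by_cases hk : k = i
    · simp only [hg, if_pos hj, if_pos hk]; rwa [← pow_two]
    · simp only [hg, if_pos hj, if_neg hk, mul_one]
      rw [quad_symm h.1]; exact dvd_dot _ _ h1
    · simp only [hg, if_neg hj, if_pos hk, one_mul]
      exact dvd_dot _ _ h1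
    · simp only [hg, if_neg hj, if_neg hk, mul_one]; exact one_dvd _
  choose Γ1 hΓ1 using hdv
  have hg0 : ∀ j, g j ≠ 0 := fun j => by
    simp only [hg]; split_ifs
    · exact hp
    · exact one_ne_zero
  have h' := h.conj M
  have hD : Mᵀ * Γ * M = (diagonal g)ᵀ * Matrix.of Γ1 * diagonal g := by
    ext1 j k
    rw [diagonal_transpose, mul_diagonal, diagonal_mul, hΓ1, of_apply]; ring
  have hP : Psd (Matrix.of Γ1) := by
    refine ⟨?_, fun y => NN.of_mul hp ?_⟩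
    · ext1 j k
      have := h'.symm j k
      rw [hΓ1, hΓ1, mul_comm (g k)] at this
      exact mul_left_cancel₀ (mul_ne_zero (hg0 j) (hg0 k)) this
    · have e : diagonal g *ᵥ (fun j => if j = i then y j else p * y j) = p • y := by
        ext1 j
        rw [mulVec_diagonal]
        simp only [hg, Pi.smul_apply, smul_eq_mul]
        split_ifs <;> ring
      have := h'.2 fun j => if j = i then y j else p * y j
      rw [hD, quad_conj, e, mulVec_smul, smul_dotProduct, dotProduct_smul] at this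
      simp only [smul_eq_mul] at this
      rwa [pow_two, mul_assoc]
  have hu : IsUnit M.det := by rw [hdet]; exact isUnit_one
  refine ⟨Matrix.of Γ1, diagonal g * M⁻¹, hP, ?_, ?_⟩
  · calc Γ = M⁻¹ᵀ * (Mᵀ * Γ * M) * M⁻¹ := unit_back Γ M hu
      _ = _ := by rw [hD, transpose_mul]; simp only [Matrix.mul_assoc]
  · have e := congrArg det hD
    rw [det_mul, det_mul, det_mul, det_mul, det_transpose, det_transpose, hdet, det_diagonal] at e
    have e2 : ∏ j, g j = p := by simp [hg]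
    rw [e2] at e
    linear_combination e

lemma iso_real {Γ : Matrix ι ι ℝ[X]} (h : Psd Γ) {a : ℝ} (ha : Γ.det.eval a = 0) :
    IsoV Γ (X - C a) := by
  have e := (evalRingHom a).map_det Γ
  simp only [coe_evalRingHom, RingHom.mapMatrix_apply] at e
  rw [e] at ha
  obtain ⟨v, hv, h0⟩ := exists_mulVec_eq_zero_iff.2 ha
  obtain ⟨i, hi⟩ := Function.ne_iff.1 hv
  have h1 : ∀ j, (X - C a) ∣ (Γ *ᵥ fun k => C (v k)) j := fun j => by
    rw [dvd_iff_isRoot]
    have := congrFun h0 j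
    simpa [mulVec, dotProduct, eval_finsetSum] using this
  refine ⟨fun k => C (v k), i, ?_, h1, (h.2 _).sq_dvd (dvd_dot _ _ h1)⟩
  rw [dvd_iff_isRoot]
  simpa using hi

lemma second_vec {K : Type} [Field K] {M : Matrix ι ι K} (hs : Mᵀ = M) {v : ι → K} {i : ι}
    (hi : v i ≠ 0) (hv : M *ᵥ v = 0) (ha : M.adjugate i i = 0) :
    ∃ y : ι → K, y ≠ 0 ∧ y i = 0 ∧ M *ᵥ y = 0 := by
  rw [adjugate_apply] at ha
  obtain ⟨y, hy, h0⟩ := exists_mulVec_eq_zero_iff.2 ha
  have hyi : y i = 0 := by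
    have := congrFun h0 i
    simpa [mulVec] using this
  have hj : ∀ j, j ≠ i → (M *ᵥ y) j = 0 := fun j hj => by
    have := congrFun h0 j
    simpa [mulVec, updateRow_ne hj] using this
  refine ⟨y, hy, hyi, funext fun j => ?_⟩
  by_cases e : j = i
  · have h1 : v ⬝ᵥ M *ᵥ y = 0 := by rw [quad_symm hs, hv, dotProduct_zero]
    rw [dotProduct, sum_eq_single i (fun k _ hk => by rw [hj k hk, mul_zero])
      (fun h => absurd (mem_univ i) h)] at h1
    rw [e]
    exact (mul_eq_zero.1 h1).resolve_left hi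
  · exact hj j e

lemma iso_cx {Γ : Matrix ι ι ℝ[X]} (hs : Γᵀ = Γ) {p : ℝ[X]} (φ : ℝ[X] →+* ℂ)
    (hφ : Function.Surjective φ) (hk : ∀ g, φ g = 0 ↔ p ∣ g) (hd : p ^ 2 ∣ Γ.det) :
    IsoV Γ p := by
  have hs' : (Γ.map φ)ᵀ = Γ.map φ := by rw [← transpose_map, hs]
  have hdet : (Γ.map φ).det = 0 := by
    have e := φ.map_det Γ
    rw [RingHom.mapMatrix_apply] at e
    rw [← e, hk]
    exact (dvd_pow_self p two_ne_zero).trans hd
  obtain ⟨v, hv, h0⟩ := exists_mulVec_eq_zero_iff.2 hdet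
  obtain ⟨i, hi⟩ := Function.ne_iff.1 hv
  have lift : ∀ u : ι → ℂ, Γ.map φ *ᵥ u = 0 →
      ∃ x : ι → ℝ[X], (∀ j, φ (x j) = u j) ∧ ∀ j, p ∣ (Γ *ᵥ x) j := fun u hu => by
    choose x hx using fun j => hφ (u j)
    refine ⟨x, hx, fun j => (hk _).1 ?_⟩
    have := congrFun hu j
    simpa [mulVec, dotProduct, hx] using this
  by_cases ha : (Γ.map φ).adjugate i i = 0
  · obtain ⟨u, hu, hui, hu0⟩ := second_vec hs' hi h0 ha
    obtain ⟨x, hx, hx1⟩ := lift v h0
    obtain ⟨y, hy, hy1⟩ := lift u hu0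
    obtain ⟨a, ha⟩ := dvd_dot x _ hx1
    obtain ⟨b, hb⟩ := dvd_dot x _ hy1
    obtain ⟨c, hc⟩ := dvd_dot y _ hy1
    by_cases hc0 : φ c = 0
    · obtain ⟨j, hj⟩ := Function.ne_iff.1 hu
      refine ⟨y, j, fun e => hj (by rw [← hy, (hk _).2 e]; rfl), hy1, ?_⟩
      rw [hc, pow_two]
      exact mul_dvd_mul_left _ ((hk _).1 hc0)
    · obtain ⟨s, hs2⟩ := IsAlgClosed.exists_eq_mul_self (discrim (φ c) (2 * φ b) (φ a))
      obtain ⟨z, hz⟩ := exists_quadratic_eq_zero hc0 ⟨s, hs2⟩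
      obtain ⟨β, rfl⟩ := hφ z
      refine ⟨x + β • y, i, fun e => hi ?_, fun j => ?_, ?_⟩
      · have := (hk _).2 e
        simpa [hx, hy, hui] using this
      · rw [mulVec_add, mulVec_smul]
        exact dvd_add (hx1 j) ((hy1 j).mul_left _)
      · rw [mulVec_add, mulVec_smul, add_dotProduct, dotProduct_add, dotProduct_add,
          smul_dotProduct, smul_dotProduct, dotProduct_smul, dotProduct_smul, quad_symm hs y x,
          ha, hb, hc]
        simp only [smul_eq_mul]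
        obtain ⟨r, hr⟩ := (hk (c * (β * β) + 2 * b * β + a)).1 (by
          simp only [map_add, map_mul, map_ofNat]; exact hz)
        exact ⟨r, by linear_combination p * hr⟩
  · have hy : Γ *ᵥ (fun j => Γ.adjugate j i) = Γ.det • Pi.single i 1 := by
      ext1 j
      have := congrFun (congrFun (mul_adjugate Γ) j) i
      simpa [mul_apply, mulVec, dotProduct, one_apply, Pi.single_apply] using this
    refine ⟨fun j => Γ.adjugate j i, i, fun e => ha ?_, fun j => ?_, ?_⟩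
    · have e1 := congrFun (congrFun (φ.map_adjugate Γ) i) i
      simp only [RingHom.mapMatrix_apply, map_apply] at e1
      rw [← e1]; exact (hk _).2 e
    · rw [hy]
      exact ((dvd_pow_self p two_ne_zero).trans hd).mul_right _
    · rw [hy, dotProduct_smul]
      exact hd.mul_right _

lemma exists_iso {Γ : Matrix ι ι ℝ[X]} (h : Psd Γ) {δ : ℝ[X]} (hδ : δ.natDegree ≠ 0)
    (hd : Γ.det = δ ^ 2) : ∃ p, Irreducible p ∧ p ∣ δ ∧ IsoV Γ p := by
  have hdeg : δ.degree ≠ 0 := fun e => hδ (natDegree_eq_zero_iff_degree_le_zero.2 e.le)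
  obtain ⟨z, hz⟩ := IsAlgClosed.exists_aeval_eq_zero ℂ δ hdeg
  by_cases hr : z.im = 0
  · have e : z = algebraMap ℝ ℂ z.re := Complex.ext (by simp) (by simp [hr])
    rw [e, aeval_algebraMap_apply, map_eq_zero, coe_aeval_eq_eval] at hz
    refine ⟨X - C z.re, irreducible_X_sub_C _, dvd_iff_isRoot.2 hz, iso_real h ?_⟩
    rw [hd, eval_pow, hz]; simp
  · have hp : minpoly ℝ z ∣ δ := minpoly.dvd ℝ z hz
    refine ⟨minpoly ℝ z, minpoly.irreducible (Algebra.IsIntegral.isIntegral z), hp,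
      iso_cx h.1 (aeval z : ℝ[X] →ₐ[ℝ] ℂ).toRingHom (fun w => ?_)
        (fun g => (minpoly.dvd_iff (A := ℝ) (x := z)).symm) (hd ▸ pow_dvd_pow_of_dvd hp 2)⟩
    refine ⟨C (w.re - w.im / z.im * z.re) + C (w.im / z.im) * X, ?_⟩
    have : (aeval z) (C (w.re - w.im / z.im * z.re) + C (w.im / z.im) * X : ℝ[X]) = w := by
      simp only [map_add, map_mul, aeval_C, aeval_X, Complex.coe_algebraMap]
      refine Complex.ext ?_ ?_
      · simp only [Complex.add_re, Complex.mul_re, Complex.ofReal_re, Complex.ofReal_im]; ring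
      · simp only [Complex.add_im, Complex.mul_im, Complex.ofReal_re, Complex.ofReal_im]
        field_simp; ring
    exact this

/-- (H2): a positive matrix with nonzero square determinant is a Gram matrix of the same size -/
theorem gram_of_sq {Γ : Matrix ι ι ℝ[X]} (h : Psd Γ) {δ : ℝ[X]} (h0 : δ ≠ 0)
    (hd : Γ.det = δ ^ 2) : ∃ Q : Matrix ι ι ℝ[X], Γ = Qᵀ * Q := by
  induction hn : δ.natDegree using Nat.strong_induction_on generalizing Γ δ with
  | _ n ih =>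
    by_cases hδ : δ.natDegree = 0
    · refine gram_of_unit h ?_
      rw [hd]
      refine IsUnit.pow _ ?_
      rw [eq_C_of_natDegree_eq_zero hδ] at h0 ⊢
      exact isUnit_C.2 (isUnit_iff_ne_zero.2 fun e => h0 (by rw [e, C_0]))
    · obtain ⟨p, hp, ⟨δ1, h1⟩, hi⟩ := exists_iso h hδ hd
      obtain ⟨x, i, hx, hx1, hx2⟩ := iso_norm h.1 hp hi
      obtain ⟨Γ1, A, hP, hA, hdet⟩ := enlarge h hp.ne_zero hx hx1 hx2
      have hδ1 : δ1 ≠ 0 := fun e => h0 (by rw [h1, e, mul_zero])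
      have hlt : δ1.natDegree < n := by
        rw [← hn, h1, natDegree_mul hp.ne_zero hδ1]
        have := hp.natDegree_pos
        omega
      have hd1 : Γ1.det = δ1 ^ 2 := by
        refine mul_left_cancel₀ (pow_ne_zero 2 hp.ne_zero) ?_
        rw [← hdet, hd, h1, mul_pow]
      obtain ⟨Q, hQ⟩ := ih _ hlt hP hδ1 hd1 rfl
      exact ⟨Q * A, by rw [← gram_conj, ← hQ, ← hA]⟩

end Pool.Agent.CA9.UB
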