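import Pool.Agent.Lib.MP_ca9be0_an.UB.AlgC

/-! The Leep bound and the Birkhoff factorisation over real polynomials. -/

namespace Pool.Agent.CA9.UB

open Finset Matrix Polynomial

variable {ι κ μ : Type} [Fintype ι] [Fintype κ] [Fintype μ]

lemma psd_blocks [DecidableEq ι] {G : Matrix ι ι ℝ[X]} (h : Psd G) {f : ℝ[X]} (hf : NN f) :
    Psd (fromBlocks G 0 0 (Matrix.of fun _ _ : Unit => f)) := by
  refine ⟨?_, fun x t => ?_⟩
  · rw [fromBlocks_transpose, h.1, transpose_zero, transpose_zero]; rfl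
  · have e : x = Sum.elim (x ∘ Sum.inl) (x ∘ Sum.inr) := (Sum.elim_comp_inl_inr x).symm
    rw [e, fromBlocks_mulVec, sumElim_dotProduct_sumElim]
    simp only [Sum.elim_comp_inl, Sum.elim_comp_inr, zero_mulVec, add_zero, zero_add, eval_add]
    refine add_nonneg (h.2 _ t) ?_
    have := mul_nonneg (mul_self_nonneg ((x (Sum.inr ())).eval t)) (hf t)
    simp only [dotProduct, mulVec, univ_unique, sum_singleton, of_apply, eval_mul,
      Function.comp_apply, PUnit.default_eq_unit]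
    linarith

/-- a positive matrix of size `l` is a Gram matrix with `l + 1` rows -/
theorem gram_of_psd {Γ : Matrix ι ι ℝ[X]} (h : Psd Γ)
    (hc : Fintype.card ι + 1 ≤ Fintype.card μ) : ∃ B : Matrix μ ι ℝ[X], Bᵀ * B = Γ := by
  classical
  obtain ⟨r, G, A, E, hr, hG, hA, -, hdet, -⟩ := exists_core h
  have hP := psd_blocks hG hG.det_nn
  obtain ⟨Q, hQ⟩ := gram_of_sq hP hdet (by
    rw [det_fromBlocks_zero₂₁, det_unique (n := Unit), of_apply, pow_two])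
  have h1 : G = (Q.submatrix id Sum.inl)ᵀ * Q.submatrix id Sum.inl := by
    ext1 a b
    have := congrFun (congrFun hQ (Sum.inl a)) (Sum.inl b)
    exact this
  obtain ⟨B, hB⟩ := pad (μ := μ) (α := Fin r ⊕ Unit) (by simp; omega)
    (Q.submatrix id Sum.inl * A)
  exact ⟨B, by rw [hB, ← gram_conj, ← h1, ← hA]⟩

/-- (Leep), general index types -/
theorem leep' (Y : Matrix κ ι ℝ[X]) (hc : Fintype.card ι + 1 ≤ Fintype.card μ) :
    ∃ B : Matrix μ ι ℝ[X], Bᵀ * B = Yᵀ * Y :=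
  gram_of_psd (psd_gram Y) hc

/-- (Leep) -/
theorem leep {M l : ℕ} (Y : Matrix (Fin M) (Fin l) ℝ[X]) :
    ∃ B : Matrix (Fin (l + 1)) (Fin l) ℝ[X], Bᵀ * B = Yᵀ * Y :=
  leep' Y (by simp)

lemma natDegree_le_of_sum_sq (f : ι → ℝ[X]) {g : ℝ[X]} {n : ℕ} (h : ∑ j, f j * f j = g)
    (hg : g.natDegree ≤ n + n) (j : ι) : (f j).natDegree ≤ n := by
  classical
  by_contra hl
  rw [not_le] at hl
  have h0 : f j ≠ 0 := fun e => by rw [e] at hl; simp at hl
  refine lead_neg_of_lt (p := g) h0 (degree_lt_degree ?_) fun t => ?_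
  · rw [natDegree_mul h0 h0]; omega
  · rw [← h, ← add_sum_erase _ _ (mem_univ j), add_sub_cancel_left, eval_finsetSum]
    exact sum_nonneg fun i _ => by rw [eval_mul]; exact mul_self_nonneg _

omit [Fintype ι] in
/-- entries of a Gram factor have at most half the degree of the diagonal -/
lemma natDegree_le_of_gram (B : Matrix κ ι ℝ[X]) (j : ι) {n : ℕ}
    (h : ((Bᵀ * B) j j).natDegree ≤ n + n) (i : κ) : (B i j).natDegree ≤ n :=
  natDegree_le_of_sum_sq (fun i => B i j) rfl h i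

variable [DecidableEq μ]

lemma gram_swap {R : Type} [CommRing R] [IsDomain R] {A B : Matrix μ μ R} {q : R} (hq : q ≠ 0)
    (h : A * B = q • (1 : Matrix μ μ R)) : B * A = q • (1 : Matrix μ μ R) := by
  have hd : A.det ≠ 0 := fun e => by
    have := congrArg det h
    rw [det_mul, e, zero_mul, det_smul, det_one, mul_one] at this
    exact pow_ne_zero _ hq this.symm
  have h1 : A * (B * A - q • (1 : Matrix μ μ R)) = 0 := by
    rw [Matrix.mul_sub, ← Matrix.mul_assoc, h]; simp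
  rw [← sub_eq_zero]
  ext i j
  have h2 : A *ᵥ (fun k => (B * A - q • (1 : Matrix μ μ R)) k j) = 0 := by
    ext k
    exact congrFun (congrFun h1 k) j
  exact congrFun (eq_zero_of_mulVec_eq_zero hd h2) i

lemma Psd.of_smul {G : Matrix ι ι ℝ[X]} (hs : Gᵀ = G) {q : ℝ[X]} (hq : q ≠ 0)
    (h : Psd (q ^ 2 • G)) : Psd G :=
  ⟨hs, fun x => NN.of_mul hq (by
    have := h.2 x
    rwa [smul_mulVec, dotProduct_smul, smul_eq_mul] at this)⟩

/-- (Birk), general index type -/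
theorem birk' (J : Matrix μ μ ℝ[X]) {a b : ℝ[X]} (ha : a ≠ 0) (hb : b ≠ 0) (hab : IsCoprime a b)
    (hJ : Jᵀ * J = (a * b) ^ 2 • (1 : Matrix μ μ ℝ[X])) :
    ∃ be rh : Matrix μ μ ℝ[X], be * beᵀ = a ^ 2 • (1 : Matrix μ μ ℝ[X]) ∧
      rh * rhᵀ = b ^ 2 • (1 : Matrix μ μ ℝ[X]) ∧ J = rh * beᵀ := by
  have hJ' := gram_swap (pow_ne_zero 2 (mul_ne_zero ha hb)) hJ
  set Γ : Matrix (μ ⊕ μ) (μ ⊕ μ) ℝ[X] := fromBlocks (b ^ 2 • 1) J Jᵀ (a ^ 2 • 1) with hΓ
  set Y : Matrix μ (μ ⊕ μ) ℝ[X] := fromCols Jᵀ (a ^ 2 • 1) with hY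
  have hYY : Yᵀ * Y = a ^ 2 • Γ := by
    rw [hY, transpose_fromCols, fromRows_mul_fromCols, hΓ, fromBlocks_smul, transpose_transpose,
      hJ', transpose_smul, transpose_one, smul_smul, ← mul_pow]
    simp
  have hP : Psd Γ := by
    refine Psd.of_smul ?_ ha (hYY ▸ psd_gram Y)
    rw [hΓ, fromBlocks_transpose]; simp
  obtain ⟨r, G, A, E, -, -, hA, hE, hdet, hQ⟩ := exists_core hP
  have b1 : (A.submatrix id Sum.inl)ᵀ * G * A.submatrix id Sum.inl
      = b ^ 2 • (1 : Matrix μ μ ℝ[X]) := by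
    ext1 i j
    exact (congrFun (congrFun hA (Sum.inl i)) (Sum.inl j)).symm
  have b2 : (A.submatrix id Sum.inr)ᵀ * G * A.submatrix id Sum.inr
      = a ^ 2 • (1 : Matrix μ μ ℝ[X]) := by
    ext1 i j
    exact (congrFun (congrFun hA (Sum.inr i)) (Sum.inr j)).symm
  have c1 : Fintype.card μ ≤ Fintype.card (Fin r) := by
    refine card_le_of_det ((A.submatrix id Sum.inl)ᵀ * G) (A.submatrix id Sum.inl) ?_
    rw [b1, det_smul, det_one, mul_one]
    exact pow_ne_zero _ (pow_ne_zero _ hb)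
  have c2 : Fintype.card (Fin r) ≤ Fintype.card μ := by
    refine card_le_of_det (Y * E)ᵀ (Y * E) ?_
    rw [← gram_conj, hYY, Matrix.mul_smul, Matrix.smul_mul, ← hE, det_smul]
    exact mul_ne_zero (pow_ne_zero _ (pow_ne_zero _ ha)) hdet
  have d1 := det_dvd_conj G (A.submatrix id Sum.inl) (le_antisymm c1 c2)
  have d2 := det_dvd_conj G (A.submatrix id Sum.inr) (le_antisymm c1 c2)
  rw [b1, det_smul, det_one, mul_one] at d1
  rw [b2, det_smul, det_one, mul_one] at d2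
  obtain ⟨Q, hQ⟩ := hQ (hab.pow.pow.isUnit_of_dvd' d2 d1)
  obtain ⟨B, hB⟩ := pad c2 (Q * A)
  rw [← gram_conj, ← hQ, ← hA] at hB
  refine ⟨(B.submatrix id Sum.inr)ᵀ, (B.submatrix id Sum.inl)ᵀ, ?_, ?_, ?_⟩
  · ext1 i j
    exact congrFun (congrFun hB (Sum.inr i)) (Sum.inr j)
  · ext1 i j
    exact congrFun (congrFun hB (Sum.inl i)) (Sum.inl j)
  · ext1 i j
    exact (congrFun (congrFun hB (Sum.inl i)) (Sum.inr j)).symm

lemma natDegree_le_of_orth {B : Matrix μ μ ℝ[X]} {a : ℝ[X]}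
    (h : B * Bᵀ = a ^ 2 • (1 : Matrix μ μ ℝ[X])) (i j : μ) :
    (B i j).natDegree ≤ a.natDegree := by
  refine natDegree_le_of_gram Bᵀ i ?_ j
  rw [transpose_transpose, h]
  simp only [Matrix.smul_apply, one_apply_eq, smul_eq_mul, mul_one, pow_two]
  exact natDegree_mul_le

/-- (Birk) with both products and the degree bounds -/
theorem birk (J : Matrix μ μ ℝ[X]) {qZ qo : ℝ[X]} (ha : qZ ≠ 0) (hb : qo ≠ 0)
    (hab : IsCoprime qZ qo) (hJ : Jᵀ * J = (qZ * qo) ^ 2 • (1 : Matrix μ μ ℝ[X])) :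
    ∃ be rh : Matrix μ μ ℝ[X], be * beᵀ = qZ ^ 2 • (1 : Matrix μ μ ℝ[X]) ∧
      beᵀ * be = qZ ^ 2 • (1 : Matrix μ μ ℝ[X]) ∧ rh * rhᵀ = qo ^ 2 • (1 : Matrix μ μ ℝ[X]) ∧
      rhᵀ * rh = qo ^ 2 • (1 : Matrix μ μ ℝ[X]) ∧ J = rh * beᵀ ∧ rhᵀ * J = qo ^ 2 • beᵀ ∧
      (∀ i j, (be i j).natDegree ≤ qZ.natDegree) ∧ ∀ i j, (rh i j).natDegree ≤ qo.natDegree := by
  obtain ⟨be, rh, h1, h2, h3⟩ := birk' J ha hb hab hJ
  have h4 := gram_swap (pow_ne_zero 2 hb) h2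
  refine ⟨be, rh, h1, gram_swap (pow_ne_zero 2 ha) h1, h2, h4, h3, ?_,
    natDegree_le_of_orth h1, natDegree_le_of_orth h2⟩
  rw [h3, ← Matrix.mul_assoc, h4]; simp

end Pool.Agent.CA9.UB
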