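import Pool.Agent.Lib.MP_ca9be0_an.JetA

/-! Sign lemma, Cayley transform and switch lemma: the matrix algebra. -/

namespace Pool.Agent.CA9.UB

open Finset Matrix

variable {ι κ : Type} [Fintype ι] [DecidableEq ι] [Fintype κ] [DecidableEq κ]

/-- a sign vector -/
def IsSign (σ : ι → ℝ) : Prop := ∀ i, σ i = 1 ∨ σ i = -1

omit [Fintype ι] [DecidableEq ι] in
lemma IsSign.sq {σ : ι → ℝ} (h : IsSign σ) (i : ι) : σ i * σ i = 1 := by
  rcases h i with e | e <;> rw [e] <;> norm_num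

lemma IsSign.diag_sq {σ : ι → ℝ} (h : IsSign σ) : diagonal σ * diagonal σ = 1 := by
  rw [diagonal_mul_diagonal, ← diagonal_one]
  exact congrArg diagonal (funext h.sq)

lemma sign_aux (V : Matrix ι ι ℝ) (s : Finset ι) :
    ∃ σ : ι → ℝ, (∀ i ∈ s, σ i = 1 ∨ σ i = -1) ∧ (∀ i ∉ s, σ i = 0) ∧
      1 ≤ |(1 + diagonal σ * V).det| := by
  induction s using Finset.induction_on with
  | empty => exact ⟨0, by simp, by simp, by simp⟩
  | insert a s ha ih =>
    obtain ⟨σ, h1, h2, h3⟩ := ih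
    have key : ∀ c : ℝ, (1 + diagonal (Function.update σ a c) * V).det
        = (1 + diagonal σ * V).det + c * ((1 + diagonal σ * V).updateRow a (V a)).det := by
      intro c
      have e : 1 + diagonal (Function.update σ a c) * V
          = (1 + diagonal σ * V).updateRow a ((1 + diagonal σ * V) a + c • V a) := by
        ext i j
        by_cases hi : i = a
        · subst hi; simp [h2 i ha]
        · simp [hi]
      rw [e, det_updateRow_add, det_updateRow_smul, updateRow_eq_self]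
    have hc : ∃ c : ℝ, (c = 1 ∨ c = -1) ∧
        1 ≤ |(1 + diagonal (Function.update σ a c) * V).det| := by
      by_contra hn
      push Not at hn
      have a1 := hn 1 (Or.inl rfl)
      have a2 := hn (-1) (Or.inr rfl)
      rw [key, abs_lt] at a1 a2
      rcases le_abs.1 h3 with h | h <;> linarith [a1.1, a1.2, a2.1, a2.2]
    obtain ⟨c, hc1, hc2⟩ := hc
    refine ⟨Function.update σ a c, fun i hi => ?_, fun i hi => ?_, hc2⟩
    · by_cases e : i = a
      · subst e; simpa using hc1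
      · rw [Function.update_of_ne e]
        exact h1 i ((mem_insert.1 hi).resolve_left e)
    · rw [mem_insert, not_or] at hi
      rw [Function.update_of_ne hi.1]
      exact h2 i hi.2

/-- Sign lemma -/
theorem exists_signE (V : Matrix ι ι ℝ) :
    ∃ σ : ι → ℝ, IsSign σ ∧ 1 ≤ |(1 + diagonal σ * V).det| := by
  obtain ⟨σ, h1, -, h3⟩ := sign_aux V univ
  exact ⟨σ, fun i => h1 i (mem_univ i), h3⟩

/-- Sign lemma with a scalar in place of the identity -/
theorem exists_sign_smul (V : Matrix ι ι ℝ) (c : ℝ) :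
    ∃ σ : ι → ℝ, IsSign σ ∧
      |c| ^ Fintype.card ι ≤ |(c • (1 : Matrix ι ι ℝ) + diagonal σ * V).det| := by
  by_cases hc : c = 0
  · by_cases h0 : Fintype.card ι = 0
    · have := Fintype.card_eq_zero_iff.1 h0
      exact ⟨fun _ => 1, fun _ => Or.inl rfl, by simp⟩
    · exact ⟨fun _ => 1, fun _ => Or.inl rfl, by simp [hc, h0]⟩
  obtain ⟨σ, h1, h2⟩ := exists_signE (c⁻¹ • V)
  refine ⟨σ, h1, ?_⟩
  have e : c • (1 : Matrix ι ι ℝ) + diagonal σ * V = c • (1 + diagonal σ * c⁻¹ • V) := by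
    rw [smul_add, Matrix.mul_smul, smul_smul, mul_inv_cancel₀ hc, one_smul]
  rw [e, det_smul, abs_mul, abs_pow]
  exact le_mul_of_one_le_right (by positivity) h2

omit [DecidableEq κ] in
lemma one_le_det_gram (Y : Matrix κ ι ℝ) : 1 ≤ (1 + Yᵀ * Y).det := by
  have hH : (1 + Yᵀ * Y).IsHermitian := by
    ext i j
    simp [one_apply, mul_apply, mul_comm, eq_comm]
  have := Pool.Agent.Lib.MP_ca9be0_an.PyF.det_ge hH zero_le_one fun u => by
    rw [add_mulVec, one_mulVec, dotProduct_add, one_mul, ← mulVec_mulVec, dotProduct_mulVec,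
      vecMul_transpose]
    exact le_add_of_nonneg_right (sum_nonneg fun i _ => mul_self_nonneg _)
  rwa [one_pow] at this

lemma skew_gram {R : Type} [CommRing R] {K : Matrix ι ι R} (hK : Kᵀ = -K) :
    (1 - K)ᵀ * (1 - K) = 1 + Kᵀ * K := by
  rw [transpose_sub, transpose_one, hK]; noncomm_ring

/-- the determinant of one minus a skew matrix -/
theorem one_le_det_skew {K : Matrix ι ι ℝ} (hK : Kᵀ = -K) : 1 ≤ |(1 - K).det| := by
  have h := one_le_det_gram K
  rw [← skew_gram hK, det_mul, det_transpose] at h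
  exact (one_le_sq_iff_one_le_abs _).1 (by rwa [pow_two])

theorem smul_le_det_skew {K : Matrix ι ι ℝ} (hK : Kᵀ = -K) (c : ℝ) :
    |c| ^ Fintype.card ι ≤ |(c • (1 : Matrix ι ι ℝ) - K).det| := by
  by_cases hc : c = 0
  · by_cases h0 : Fintype.card ι = 0
    · have := Fintype.card_eq_zero_iff.1 h0
      simp
    · simp [hc, h0]
  have h2 := one_le_det_skew (K := c⁻¹ • K) (by rw [transpose_smul, hK, smul_neg])
  have e : c • (1 : Matrix ι ι ℝ) - K = c • (1 - c⁻¹ • K) := by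
    rw [smul_sub, smul_smul, mul_inv_cancel₀ hc, one_smul]
  rw [e, det_smul, abs_mul, abs_pow]
  exact le_mul_of_one_le_right (by positivity) h2

lemma isUnit_det_skew {K : Matrix ι ι ℝ} (hK : Kᵀ = -K) : IsUnit (1 - K).det :=
  isUnit_iff_ne_zero.2 fun e => by
    have := one_le_det_skew hK
    rw [e, abs_zero] at this
    linarith

/-- the Cayley transform without denominators, over any commutative ring -/
theorem cayley_adj {R : Type} [CommRing R] {K : Matrix ι ι R} (hK : Kᵀ = -K) (c : R) :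
    (adjugate (c • 1 - K) * (c • 1 + K))ᵀ * (adjugate (c • 1 - K) * (c • 1 + K))
      = (c • 1 - K).det ^ 2 • (1 : Matrix ι ι R) := by
  have t1 : (c • (1 : Matrix ι ι R) + K)ᵀ = c • 1 - K := by
    rw [transpose_add, transpose_smul, transpose_one, hK, sub_eq_add_neg]
  have t2 : (c • (1 : Matrix ι ι R) - K)ᵀ = c • 1 + K := by rw [← t1, transpose_transpose]
  have cm : (c • (1 : Matrix ι ι R) - K) * (c • 1 + K) = (c • 1 + K) * (c • 1 - K) := by
    simp only [Matrix.sub_mul, Matrix.mul_add, Matrix.add_mul, Matrix.mul_sub, Matrix.smul_mul,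
      Matrix.mul_smul, Matrix.one_mul, Matrix.mul_one, smul_add, smul_sub]
    abel
  have hd : (c • (1 : Matrix ι ι R) + K).det = (c • 1 - K).det := by rw [← t2, det_transpose]
  rw [transpose_mul, t1, adjugate_transpose, t2, Matrix.mul_assoc,
    ← Matrix.mul_assoc (adjugate _), ← adjugate_mul_distrib, cm, adjugate_mul_distrib,
    Matrix.mul_assoc, adjugate_mul, ← Matrix.mul_assoc, mul_adjugate, hd]
  simp [smul_smul, pow_two]

/-- the Cayley transform -/
noncomputable def cayE (K : Matrix ι ι ℝ) : Matrix ι ι ℝ := (1 - K)⁻¹ * (1 + K)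

theorem cayE_orth {K : Matrix ι ι ℝ} (hK : Kᵀ = -K) : (cayE K)ᵀ * cayE K = 1 := by
  have h := cayley_adj hK (1 : ℝ)
  simp only [one_smul] at h
  have h0 := (isUnit_det_skew hK).ne_zero
  have e : cayE K = (1 - K).det⁻¹ • (adjugate (1 - K) * (1 + K)) := by
    rw [cayE, Matrix.inv_def, Ring.inverse_eq_inv', Matrix.smul_mul]
  rw [e, transpose_smul, Matrix.smul_mul, Matrix.mul_smul, h, smul_smul, smul_smul]
  rw [show (1 - K).det⁻¹ * (1 - K).det⁻¹ * (1 - K).det ^ 2 = 1 by field_simp, one_smul]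

theorem cayE_orth' {K : Matrix ι ι ℝ} (hK : Kᵀ = -K) : cayE K * (cayE K)ᵀ = 1 :=
  mul_eq_one_comm.1 (cayE_orth hK)

/-- the error of the Cayley transform -/
theorem cayE_sub {K : Matrix ι ι ℝ} (hK : Kᵀ = -K) (a b : ι → ℝ) :
    cayE K *ᵥ a - b = (1 - K)⁻¹ *ᵥ (K *ᵥ (a + b) - (b - a)) := by
  have h1 : b = (1 - K)⁻¹ *ᵥ ((1 - K) *ᵥ b) := by
    rw [mulVec_mulVec, nonsing_inv_mul _ (isUnit_det_skew hK), one_mulVec]
  rw [cayE, ← mulVec_mulVec]
  conv_lhs => rw [h1]
  rw [← mulVec_sub]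
  congr 1
  rw [add_mulVec, sub_mulVec, one_mulVec, one_mulVec, mulVec_add]
  abel

/-- the skew matrix of a relation -/
def skw (U : Matrix κ ι ℝ) : Matrix (ι ⊕ κ) (ι ⊕ κ) ℝ := fromBlocks 0 (-Uᵀ) U 0

omit [Fintype ι] [DecidableEq ι] [Fintype κ] [DecidableEq κ] in
lemma skw_skew (U : Matrix κ ι ℝ) : (skw U)ᵀ = -skw U := by
  simp [skw, fromBlocks_transpose, fromBlocks_neg]

omit [DecidableEq ι] [DecidableEq κ] in
lemma skw_mulVec (U : Matrix κ ι ℝ) (a : ι → ℝ) (b : κ → ℝ) :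
    skw U *ᵥ Sum.elim a b = Sum.elim (-(Uᵀ *ᵥ b)) (U *ᵥ a) := by
  simp [skw, fromBlocks_mulVec, neg_mulVec]

/-- Cayley lemma for block vectors -/
theorem cay_block {S : Matrix (ι ⊕ κ) (ι ⊕ κ) ℝ} (hS : Sᵀ = -S) (a : ι → ℝ) (b : κ → ℝ) :
    cayE S *ᵥ Sum.elim a (0 : κ → ℝ) - Sum.elim (0 : ι → ℝ) b
      = (1 - S)⁻¹ *ᵥ (S *ᵥ Sum.elim a b - Sum.elim (-a) b) := by
  rw [cayE_sub hS]
  congr 2
  · congr 1
    ext (i | i) <;> simp
  · ext (i | i) <;> simp

/-- the skew matrix of the switch lemma -/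
noncomputable def swK (Y : Matrix ι ι ℝ) : Matrix ι ι ℝ := Yᵀ⁻¹ - Y⁻¹

lemma swK_skew (Y : Matrix ι ι ℝ) : (swK Y)ᵀ = -swK Y := by
  rw [swK, transpose_sub, transpose_nonsing_inv, transpose_nonsing_inv, transpose_transpose,
    neg_sub]

/-- the key identity of the switch lemma, over any commutative ring -/
theorem switch_adj {R : Type} [CommRing R] (D V : Matrix ι ι R) (hD : Dᵀ = D) (hD2 : D * D = 1)
    (c : R) (a b : ι → R) :
    (c • (adjugate (c • 1 + D * V)ᵀ - adjugate (c • 1 + D * V))) *ᵥ (a + D *ᵥ b)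
        - (c • 1 + D * V).det • (D *ᵥ b - a)
      = adjugate (c • 1 + D * V) *ᵥ (D *ᵥ (V *ᵥ a - c • b))
        - adjugate (c • 1 + D * V)ᵀ *ᵥ (Vᵀ *ᵥ b - c • a) := by
  set Y := c • (1 : Matrix ι ι R) + D * V with hY
  have h1 : D *ᵥ (V *ᵥ a - c • b) = Y *ᵥ a - c • (a + D *ᵥ b) := by
    rw [hY, add_mulVec, smul_mulVec, one_mulVec, mulVec_sub, mulVec_smul, mulVec_mulVec, smul_add]
    abel
  have h2 : Vᵀ *ᵥ b - c • a = Yᵀ *ᵥ (D *ᵥ b) - c • (a + D *ᵥ b) := by
    rw [hY, transpose_add, transpose_smul, transpose_one, transpose_mul, hD, add_mulVec,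
      smul_mulVec, one_mulVec, mulVec_mulVec b, Matrix.mul_assoc, hD2, Matrix.mul_one, smul_add]
    abel
  rw [h1, h2, mulVec_sub, mulVec_sub, mulVec_mulVec a, adjugate_mul, mulVec_mulVec (D *ᵥ b),
    adjugate_mul, det_transpose, smul_mulVec, smul_mulVec, smul_mulVec, one_mulVec, one_mulVec,
    sub_mulVec, mulVec_smul, mulVec_smul, smul_sub, smul_sub]
  abel

/-- Switch lemma: the error in terms of the two given errors -/
theorem switch_sub (σ : ι → ℝ) (hσ : IsSign σ) (V : Matrix ι ι ℝ)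
    (hY : IsUnit (1 + diagonal σ * V).det) (a b : ι → ℝ) :
    (diagonal σ * cayE (swK (1 + diagonal σ * V))) *ᵥ a - b
      = diagonal σ *ᵥ ((1 - swK (1 + diagonal σ * V))⁻¹ *ᵥ
          ((1 + diagonal σ * V)⁻¹ *ᵥ (diagonal σ *ᵥ (V *ᵥ a - b))
            - (1 + diagonal σ * V)ᵀ⁻¹ *ᵥ (Vᵀ *ᵥ b - a))) := by
  set D : Matrix ι ι ℝ := diagonal σ with hD
  have hD2 : D * D = 1 := hσ.diag_sq
  have hDt : Dᵀ = D := diagonal_transpose σ
  set Y := 1 + D * V with hYd
  have h0 : b = D *ᵥ (D *ᵥ b) := by rw [mulVec_mulVec, hD2, one_mulVec]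
  have h1 : D *ᵥ (V *ᵥ a - b) = Y *ᵥ a - (a + D *ᵥ b) := by
    rw [hYd, add_mulVec, one_mulVec, mulVec_sub, mulVec_mulVec]
    abel
  have h2 : Vᵀ *ᵥ b - a = Yᵀ *ᵥ (D *ᵥ b) - (a + D *ᵥ b) := by
    rw [hYd, transpose_add, transpose_one, transpose_mul, hDt, add_mulVec, one_mulVec,
      mulVec_mulVec b, Matrix.mul_assoc, hD2, Matrix.mul_one]
    abel
  have hYt : IsUnit Yᵀ.det := by rwa [det_transpose]
  rw [← mulVec_mulVec]
  conv_lhs => rw [h0]
  rw [← mulVec_sub, cayE_sub (swK_skew Y), h1, h2, mulVec_sub Y⁻¹, mulVec_sub Yᵀ⁻¹,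
    mulVec_mulVec a, nonsing_inv_mul _ hY, mulVec_mulVec (D *ᵥ b), nonsing_inv_mul _ hYt,
    one_mulVec, one_mulVec]
  congr 2
  rw [swK, sub_mulVec]
  abel

theorem switch_orth (σ : ι → ℝ) (hσ : IsSign σ) (Y : Matrix ι ι ℝ) :
    (diagonal σ * cayE (swK Y))ᵀ * (diagonal σ * cayE (swK Y)) = 1 := by
  rw [transpose_mul, diagonal_transpose, Matrix.mul_assoc, ← Matrix.mul_assoc (diagonal σ),
    hσ.diag_sq, Matrix.one_mul, cayE_orth (swK_skew Y)]

end Pool.Agent.CA9.UB
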