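import Mathlib

/-! Gram determinants of sets of columns. -/

namespace Pool.Agent.CA9.UB

open Finset Matrix

variable {W B : Type} [Fintype W] [Fintype B] [DecidableEq W] [DecidableEq B]

/-- the diagonal matrix of a set -/
def msk (I : Finset B) : Matrix B B ℝ := diagonal fun b => if b ∈ I then 1 else 0

/-- the Gram matrix of the columns in `I`, completed by the identity -/
def gM (X : Matrix W B ℝ) (I : Finset B) : Matrix B B ℝ := (X * msk I)ᵀ * (X * msk I) + msk Iᶜ

/-- the Gram determinant of the columns in `I` -/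
def gI (X : Matrix W B ℝ) (I : Finset B) : ℝ := (gM X I).det

/-- the Gram determinant times the projection that kills the columns in `I` -/
def aI (X : Matrix W B ℝ) (I : Finset B) : Matrix W W ℝ :=
  gI X I • (1 : Matrix W W ℝ) - X * msk I * (gM X I).adjugate * (X * msk I)ᵀ

variable (X : Matrix W B ℝ) (I : Finset B)

lemma msk_mul : msk I * msk I = msk I := by
  rw [msk, diagonal_mul_diagonal]
  congr 1; ext b; split_ifs <;> simp

lemma msk_mul_compl : msk I * msk Iᶜ = 0 := by
  rw [msk, msk, diagonal_mul_diagonal, ← diagonal_zero]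
  congr 1; ext b; by_cases h : b ∈ I <;> simp [h]

lemma compl_mul_msk : msk Iᶜ * msk I = 0 := by simpa using msk_mul_compl Iᶜ

lemma msk_add : msk I + msk Iᶜ = 1 := by
  rw [msk, msk, diagonal_add, ← diagonal_one]
  congr 1; ext b; by_cases h : b ∈ I <;> simp [h]

omit [Fintype B] in
lemma msk_tr : (msk I)ᵀ = msk I := diagonal_transpose _

lemma msk_trace : (msk I).trace = I.card := by simp [msk]

omit [DecidableEq W] in
lemma gM_tr : (gM X I)ᵀ = gM X I := by
  rw [gM, transpose_add, transpose_mul, transpose_transpose, msk_tr]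

omit [DecidableEq W] in
lemma gM_compl : gM X I * msk Iᶜ = msk Iᶜ := by
  rw [gM, Matrix.add_mul, msk_mul, Matrix.mul_assoc, Matrix.mul_assoc, msk_mul_compl]; simp

omit [DecidableEq W] in
lemma compl_gM : msk Iᶜ * gM X I = msk Iᶜ := by
  have := congrArg transpose (gM_compl X I)
  rwa [transpose_mul, gM_tr, msk_tr] at this

omit [DecidableEq W] in
lemma adj_compl : (gM X I).adjugate * msk Iᶜ = gI X I • msk Iᶜ := by
  conv_lhs => rw [← gM_compl X I, ← Matrix.mul_assoc, adjugate_mul]
  simp [gI]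

omit [DecidableEq W] in
lemma compl_adj : msk Iᶜ * (gM X I).adjugate = gI X I • msk Iᶜ := by
  conv_lhs => rw [← compl_gM X I, Matrix.mul_assoc, mul_adjugate]
  simp [gI]

omit [DecidableEq W] in
lemma gI_nonneg : 0 ≤ gI X I := by
  have h1 : ((X * msk I)ᵀ * (X * msk I)).PosSemidef := by
    simpa using posSemidef_conjTranspose_mul_self (X * msk I)
  have h2 : (msk Iᶜ).PosSemidef := PosSemidef.diagonal fun b => by
    dsimp only; split_ifs <;> simp
  exact (h1.add h2).det_nonneg

lemma aI_tr : (aI X I)ᵀ = aI X I := by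
  rw [aI, transpose_sub, transpose_smul, transpose_one, transpose_mul, transpose_transpose,
    transpose_mul (X * msk I), adjugate_transpose, gM_tr, ← Matrix.mul_assoc]

omit [DecidableEq W] in
lemma adj_gram : (gM X I).adjugate * ((X * msk I)ᵀ * (X * msk I)) = gI X I • msk I := by
  have h : (X * msk I)ᵀ * (X * msk I) = gM X I - msk Iᶜ := by simp [gM]
  rw [h, Matrix.mul_sub, adjugate_mul, adj_compl, ← msk_add I, gI, smul_add]; simp

lemma aI_mul : aI X I * (X * msk I) = 0 := by
  rw [aI, Matrix.sub_mul, Matrix.mul_assoc, Matrix.mul_assoc (X * msk I), adj_gram,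
    Matrix.mul_smul, Matrix.mul_assoc, msk_mul]
  simp

lemma aI_sq : aI X I * aI X I = gI X I • aI X I := by
  nth_rw 2 [aI]
  rw [Matrix.mul_sub, ← Matrix.mul_assoc, ← Matrix.mul_assoc, aI_mul]
  simp

lemma aI_trace : (aI X I).trace = ((Fintype.card W : ℝ) - I.card) * gI X I := by
  rw [aI, trace_sub, trace_smul, trace_one, trace_mul_comm, ← Matrix.mul_assoc, trace_mul_comm,
    adj_gram, trace_smul, msk_trace]
  simp only [smul_eq_mul]; ring

/-- the rows in `I` of the Gram matrix, completed by the identity -/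
def rM : Matrix B B ℝ := msk I * (Xᵀ * X) + msk Iᶜ

omit [DecidableEq W] in
lemma rM_eq : rM X I = (1 + msk I * (Xᵀ * X) * msk Iᶜ) * gM X I := by
  rw [Matrix.add_mul, Matrix.mul_assoc _ (msk Iᶜ), compl_gM, Matrix.one_mul, gM, rM,
    transpose_mul, msk_tr, add_right_comm, Matrix.mul_assoc, ← Matrix.mul_assoc Xᵀ,
    ← Matrix.mul_assoc (msk I) (Xᵀ * X), ← Matrix.mul_add, msk_add, Matrix.mul_one]

omit [DecidableEq W] in
lemma det_nil : (1 + msk I * (Xᵀ * X) * msk Iᶜ).det = 1 := by
  rw [det_one_add_mul_comm, ← Matrix.mul_assoc, compl_mul_msk]; simp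

omit [DecidableEq W] in
lemma det_rM : (rM X I).det = gI X I := by rw [rM_eq, det_mul, det_nil, one_mul, gI]

omit [DecidableEq W] in
lemma rM_apply (a : B) : rM X I a = if a ∈ I then (Xᵀ * X) a else Pi.single a 1 := by
  ext b
  by_cases h : a ∈ I <;> simp [rM, msk, h, diagonal_apply, Pi.single_apply, eq_comm]

omit [DecidableEq W] in
lemma sum_gI : ∑ I, gI X I = (1 + Xᵀ * X).det := by
  have h := (detRowAlternating (n := B) (R := ℝ)).toMultilinearMap.map_add_univ (Xᵀ * X)
    (1 : Matrix B B ℝ)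
  rw [add_comm]
  refine Eq.trans (sum_congr rfl fun I _ => ?_) h.symm
  rw [← det_rM]
  change (rM X I).det = Matrix.det (I.piecewise (Xᵀ * X) (1 : Matrix B B ℝ))
  congr 1
  funext a
  rw [rM_apply, piecewise]
  split_ifs
  · rfl
  · ext b; simp [one_apply, Pi.single_apply, eq_comm]

omit [DecidableEq W] in
lemma gI_le : gI X I ≤ (1 + Xᵀ * X).det := by
  rw [← sum_gI]
  exact single_le_sum (fun I _ => gI_nonneg X I) (mem_univ I)

omit [DecidableEq W] in
lemma one_le_gram : 1 ≤ (1 + Xᵀ * X).det := by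
  have := gI_le X ∅
  rwa [gI, gM, compl_empty, show msk (∅ : Finset B) = 0 by simp [msk],
    show msk (univ : Finset B) = 1 by simp [msk], Matrix.mul_zero, Matrix.mul_zero, zero_add,
    det_one] at this

omit [DecidableEq W] in
lemma adj_rM : (rM X I).adjugate = (gM X I).adjugate * (1 - msk I * (Xᵀ * X) * msk Iᶜ) := by
  have h0 : msk I * (Xᵀ * X) * msk Iᶜ * (msk I * (Xᵀ * X) * msk Iᶜ) = 0 := by
    rw [Matrix.mul_assoc _ (msk Iᶜ), Matrix.mul_assoc (msk I) _ (msk Iᶜ),
      ← Matrix.mul_assoc (msk Iᶜ), compl_mul_msk]; simp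
  have h1 : (1 + msk I * (Xᵀ * X) * msk Iᶜ) * (1 - msk I * (Xᵀ * X) * msk Iᶜ) = 1 := by
    rw [Matrix.add_mul, Matrix.mul_sub, Matrix.mul_sub, h0]; simp
  have h2 := adjugate_mul (1 + msk I * (Xᵀ * X) * msk Iᶜ)
  rw [det_nil, one_smul] at h2
  rw [rM_eq, adjugate_mul_distrib]
  congr 1
  have h3 := congrArg (· * (1 - msk I * (Xᵀ * X) * msk Iᶜ)) h2
  simpa only [Matrix.mul_assoc (adjugate _), h1, Matrix.mul_one, Matrix.one_mul] using h3

lemma col_aI {c : B} (hc : c ∉ I) : (Xᵀ * aI X I * X) c c = gI X (insert c I) := by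
  have h1 : rM X (insert c I) = (rM X I).updateRow c ((Xᵀ * X) c) := by
    funext a
    by_cases h : a = c
    · subst h; rw [rM_apply, updateRow_self, if_pos (mem_insert_self _ _)]
    · rw [rM_apply, updateRow_ne h, rM_apply]; simp [h]
  have h2 : ∀ Y : Matrix B B ℝ, (Y * msk Iᶜ) c c = Y c c := fun Y => by simp [msk, hc]
  have h3 : (gM X I).adjugate * msk I = msk I * (gM X I).adjugate * msk I := by
    conv_lhs => rw [← Matrix.one_mul (gM X I).adjugate, ← msk_add I, Matrix.add_mul, compl_adj,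
      Matrix.add_mul, Matrix.smul_mul, compl_mul_msk]
    simp
  rw [← det_rM, h1, ← cramer_transpose_apply, cramer_eq_adjugate_mulVec, ← adjugate_transpose,
    mulVec_transpose]
  change _ = ((Xᵀ * X) * (rM X I).adjugate) c c
  rw [← h2 (Xᵀ * aI X I * X), ← h2 (Xᵀ * X * _), adj_rM]
  refine congrFun (congrFun ?_ c) c
  rw [Matrix.mul_sub, Matrix.mul_one, ← Matrix.mul_assoc (adjugate _), ← Matrix.mul_assoc
    (adjugate _), h3, aI, transpose_mul, msk_tr]
  simp only [Matrix.mul_sub, Matrix.sub_mul, Matrix.mul_assoc, adj_compl, msk_mul,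
    Matrix.mul_smul, Matrix.smul_mul, Matrix.one_mul]

omit [DecidableEq W] in
lemma entry_le {A : Matrix W W ℝ} {p : ℝ} (hp : 0 ≤ p) (ht : Aᵀ = A) (h : A * A = p • A)
    (a b : W) : |A a b| ≤ p := by
  have h1 : ∀ a b, A a b ^ 2 ≤ p * A a a := fun a b => by
    have h2 : ∑ c, A a c * A c a = p * A a a := congrFun (congrFun h a) a
    have h3 : ∀ c, A c a = A a c := fun c => congrFun (congrFun ht a) c
    simp only [h3] at h2
    rw [← h2, sq]
    exact single_le_sum (f := fun c => A a c * A a c) (fun _ _ => mul_self_nonneg _) (mem_univ b)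
  have h2 : A a a ≤ p := by
    by_contra h3
    nlinarith [h1 a a]
  exact abs_le_of_sq_le_sq' (by nlinarith [h1 a b]) hp |> abs_le.2

lemma aI_le (a b : W) : |aI X I a b| ≤ gI X I :=
  entry_le (gI_nonneg X I) (aI_tr X I) (aI_sq X I) a b

lemma aI_col_le (a : W) (c : B) : |(aI X I * X) a c| ≤ (1 + Xᵀ * X).det := by
  have h0 := one_le_gram X
  by_cases hc : c ∈ I
  · have h1 := congrFun (congrFun (aI_mul X I) a) c
    rw [← Matrix.mul_assoc] at h1
    simp only [msk, mul_diagonal, hc, if_true, mul_one, Matrix.zero_apply] at h1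
    rw [h1, abs_zero]; linarith
  · have h1 : ((aI X I * X)ᵀ * (aI X I * X)) c c = gI X I * gI X (insert c I) := by
      rw [transpose_mul, aI_tr, Matrix.mul_assoc, ← Matrix.mul_assoc (aI X I), aI_sq,
        ← col_aI X I hc, Matrix.smul_mul, Matrix.mul_smul, Matrix.mul_assoc]
      rfl
    have h2 : (aI X I * X) a c ^ 2 ≤ gI X I * gI X (insert c I) := by
      rw [← h1, mul_apply, sq]
      exact single_le_sum (f := fun a => (aI X I * X) a c * (aI X I * X) a c)
        (fun _ _ => mul_self_nonneg _) (mem_univ a)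
    refine abs_le.2 (abs_le_of_sq_le_sq' (h2.trans ?_) (by linarith))
    rw [sq]
    exact mul_le_mul (gI_le X I) (gI_le X _) (gI_nonneg X _) (by linarith)

end Pool.Agent.CA9.UB
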