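import Pool.Agent.Lib.MP_ca9be0_an.UB.Defs

/-! The rotation loop of the cleaning step, in abstract form. -/

namespace Pool.Agent.CA9.UB

open Finset Matrix Pool.Agent.Lib.MP_ca9be0_an.PyF

section LA
variable {V : Type} [Fintype V] [DecidableEq V]

omit [DecidableEq V] in
lemma dot_cs (u v : V → ℝ) : (u ⬝ᵥ v) ^ 2 ≤ (u ⬝ᵥ u) * (v ⬝ᵥ v) := by
  simpa only [dotProduct, sq] using sum_mul_sq_le_sq_mul_sq univ u v

/-- the unit vector in the direction of `o` -/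
noncomputable def nrm (o : V → ℝ) : V → ℝ := (o ⬝ᵥ o) ^ (-(1 / 2) : ℝ) • o

lemma om_low {q o : V → ℝ} {b : V} {p ε t : ℝ} (p0 : 0 ≤ p) (p1 : p ≤ 1) (hε : 0 < ε)
    (hq : (q - Pi.single b 1) ⬝ᵥ (q - Pi.single b 1) ≤ 1 / 4) (ho : o ⬝ᵥ q = (1 - p) * q b + t)
    (ht : p * ε ≤ t) : min (1 / 2) ε ^ 2 / 4 ≤ o ⬝ᵥ o ∧ nrm o ⬝ᵥ nrm o = 1 ∧
      1 / 2 ≤ 1 + nrm o b := by
  have h1 := (sq_le_dot (q - Pi.single b 1) b).trans hq
  simp only [Pi.sub_apply, Pi.single_eq_same] at h1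
  have h2 : 1 / 2 ≤ q b := by nlinarith
  have h3 : q ⬝ᵥ q ≤ 4 := by
    simp only [sub_dotProduct, dotProduct_sub, single_dotProduct, dotProduct_single,
      Pi.single_eq_same, Pi.sub_apply] at hq
    nlinarith
  have m0 : 0 < min (1 / 2) ε := lt_min (by norm_num) hε
  have h4 : min (1 / 2) ε ≤ o ⬝ᵥ q := by
    have a1 := mul_le_mul_of_nonneg_left ((min_le_left (1 / 2) ε).trans h2) (sub_nonneg.2 p1)
    have a2 := mul_le_mul_of_nonneg_left (min_le_right (1 / 2) ε) p0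
    linarith
  have h5 : min (1 / 2) ε ^ 2 / 4 ≤ o ⬝ᵥ o := by
    have a1 := (pow_le_pow_left₀ m0.le h4 2).trans (dot_cs o q)
    have a2 := mul_le_mul_of_nonneg_left h3 (dot_nn o)
    linarith
  have h6 : 0 < o ⬝ᵥ o := lt_of_lt_of_le (by positivity) h5
  have h7 : nrm o ⬝ᵥ nrm o = 1 := by
    rw [nrm, smul_dotProduct, dotProduct_smul, smul_eq_mul, smul_eq_mul, ← mul_assoc,
      ← Real.rpow_add h6]
    norm_num
    rw [Real.rpow_neg_one, inv_mul_cancel₀ h6.ne']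
  refine ⟨h5, h7, ?_⟩
  have h8 : 0 ≤ nrm o ⬝ᵥ q := by
    rw [nrm, smul_dotProduct, smul_eq_mul]
    exact mul_nonneg (Real.rpow_nonneg h6.le _) (m0.le.trans h4)
  have h9 := dot_cs (nrm o) (q - Pi.single b 1)
  rw [h7, one_mul, dotProduct_sub, dotProduct_single, mul_one] at h9
  nlinarith

lemma rotM_row {W : Type} (ν ν' : V → ℝ) (J : Matrix V W ℝ) (a : V) : (rotM ν ν' * J) a =
    J a - ((1 + ν ⬝ᵥ ν')⁻¹ * (ν a + ν' a)) • (ν ᵥ* J + ν' ᵥ* J) + (2 * ν a) • ν' ᵥ* J := by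
  ext w
  have h := congrFun (rotM_mulVec (ν := ν) (ν' := ν') fun v => J v w) a
  refine Eq.trans h ?_
  simp only [Pi.add_apply, Pi.sub_apply, Pi.smul_apply, smul_eq_mul, add_dotProduct, vecMul]
  ring

end LA

variable {N M m d : ℕ} {κ : Type}

/-- pairs of an index and a point of positive scale -/
abbrev PS (σ : κ → E N → ℝ) := {p : κ × E N // 0 < σ p.1 p.2}

/-- tame families at the points of positive scale -/
abbrev TQ (d : ℕ) (σ : κ → E N → ℝ) (u : PS σ → E N → ℝ) (ω : PS σ → ℝ) : Prop :=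
  TN d true (fun p : PS σ => p.1.2) (fun p => σ p.1.1 p.1.2) u ω

/-- global tame functions -/
abbrev GT (d : ℕ) (σ : κ → E N → ℝ) (u : κ → E N → ℝ) : Prop :=
  TQ d σ (fun p y => u p.1.1 y) fun _ => 1

/-- a module of vector fields that almost kill `T` -/
structure Md (d : ℕ) (σ : κ → E N → ℝ) (X : (κ → E N → Fin M → ℝ) → Prop)
    (T : PS σ → E N → Fin M → ℝ) (ω : PS σ → ℝ) : Prop where
  zero : X fun _ _ => 0
  add : ∀ {u v}, X u → X v → X fun k y => u k y + v k y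
  smul : ∀ {c u}, GT d σ c → X u → X fun k y => c k y • u k y
  small : ∀ {u}, X u → TQ d σ (fun p y => u p.1.1 y ⬝ᵥ T p y) ω

/-- the invariant of the loop -/
structure Inv (d : ℕ) (σ : κ → E N → ℝ) (X : (κ → E N → Fin M → ℝ) → Prop)
    (T : PS σ → E N → Fin M → ℝ) (ω : PS σ → ℝ) (J : E N → Matrix (Am m M) (Fin M) ℝ)
    (R : κ → E N → Matrix (Am m M) (Am m M) ℝ) (D : Fin M → κ → E N → Prop) : Prop where
  orth : ∀ k y, (R k y)ᵀ * R k y = 1
  one : ∀ k y, ¬ 0 < σ k y → R k y = 1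
  tR : ∀ a b, GT d σ fun k y => R k y a b
  df : ∀ v, TQ d σ (fun p y => (R p.1.1 y *ᵥ (J y *ᵥ T p y)) v - (J y *ᵥ T p y) v) ω
  md : ∃ w : Fin M → κ → E N → Fin M → ℝ, (∀ a, X (w a)) ∧
    ∀ a k y, 0 < σ k y → D a k y → (R k y * J y) (Sum.inr a) = w a k y

/-- what Lemma G gives for one colour and one axis -/
def Orc (d : ℕ) (σ : κ → E N → ℝ) (X : (κ → E N → Fin M → ℝ) → Prop)
    (J : κ → E N → Matrix (Am m M) (Fin M) ℝ) (b : Fin M) (ph : κ → E N → ℝ) : Prop :=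
  ∃ (z : κ → E N → Am m M → ℝ) (h : κ → E N → Fin M → ℝ) (ε : ℝ), 0 < ε ∧
    (∀ v, GT d σ fun k y => z k y v) ∧ X h ∧ ∀ k y, 0 < σ k y → z k y ᵥ* J k y = h k y ∧
      ∃ q : Am m M → ℝ, (∀ a, a ≠ b → q (Sum.inr a) = 0) ∧
        (q - Pi.single (Sum.inr b) 1) ⬝ᵥ (q - Pi.single (Sum.inr b) 1) ≤ 1 / 4 ∧
        ph k y * ε ≤ z k y ⬝ᵥ q

variable {σ : κ → E N → ℝ} {X : (κ → E N → Fin M → ℝ) → Prop} {T : PS σ → E N → Fin M → ℝ}
  {ω : PS σ → ℝ} {J : E N → Matrix (Am m M) (Fin M) ℝ}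
  {R : κ → E N → Matrix (Am m M) (Am m M) ℝ}

lemma PS.hr (p : PS σ) : 0 ≤ σ p.1.1 p.1.2 := p.2.le

lemma PS.near (hσ : ∀ k, Lip1 (σ k)) (p : PS σ) {y : E N}
    (hy : ‖y - p.1.2‖ ≤ 1 / 2 * σ p.1.1 p.1.2) : 0 < σ p.1.1 y := by
  linarith [(hσ p.1.1).le' p.1.2 y, p.2]

lemma Md.sum (h : Md d σ X T ω) {α : Type} (t : Finset α) {u : α → κ → E N → Fin M → ℝ}
    (hu : ∀ a ∈ t, X (u a)) : X fun k y => ∑ a ∈ t, u a k y := by
  classical
  induction t using Finset.induction_on with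
  | empty => simpa using h.zero
  | insert a t ha ih =>
    simp only [sum_insert ha]
    exact h.add (hu a (mem_insert_self _ _)) (ih fun j hj => hu j (mem_insert_of_mem hj))

lemma Md.sub (h : Md d σ X T ω) {u v : κ → E N → Fin M → ℝ} (hu : X u) (hv : X v) :
    X fun k y => u k y - v k y := by
  simpa [sub_eq_add_neg] using h.add hu (h.smul (c := fun _ _ => -1) (T1.c PS.hr _) hv)

lemma Inv.mono {D D' : Fin M → κ → E N → Prop} (h : Inv d σ X T ω J R D)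
    (hD : ∀ a k y, D' a k y → D a k y) : Inv d σ X T ω J R D' := by
  obtain ⟨w, w1, w2⟩ := h.md
  exact ⟨h.orth, h.one, h.tR, h.df, w, w1, fun a k y hy hd => w2 a k y hy (hD a k y hd)⟩

lemma Inv.step (hσ : ∀ k, Lip1 (σ k)) (hX : Md d σ X T ω)
    (hz : ∀ a, TQ d σ (fun p y => (J y *ᵥ T p y) (Sum.inr a)) ω) {D : κ → E N → Prop}
    {ph : κ → E N → ℝ} (hp : GT d σ ph) (p0 : ∀ k y, 0 ≤ ph k y) (p1 : ∀ k y, ph k y ≤ 1)
    {B : Finset (Fin M)} {b : Fin M} (hb : b ∉ B)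
    (h : Inv d σ X T ω J R fun a k y => D k y ∨ (a ∈ B ∧ ph k y = 1))
    (ho : Orc d σ X (fun k y => R k y * J y) b ph) :
    ∃ R', Inv d σ X T ω J R' fun a k y => D k y ∨ (a ∈ insert b B ∧ ph k y = 1) := by
  classical
  obtain ⟨z, g, ε, hε, tz, hg, ho⟩ := ho
  obtain ⟨w, w1, w2⟩ := h.md
  have hω : ∀ p, 0 ≤ ω p := (hz b).w_nonneg
  obtain ⟨ν, hν⟩ : ∃ ν : Am m M → ℝ, ν = Pi.single (Sum.inr b) 1 := ⟨_, rfl⟩
  obtain ⟨o, eo⟩ : ∃ o : κ → E N → Am m M → ℝ, ∀ k y, o k y = (1 - ph k y) • ν + z k y -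
    ∑ a ∈ B, z k y (Sum.inr a) • (Pi.single (Sum.inr a) 1 : Am m M → ℝ) := ⟨_, fun _ _ => rfl⟩
  have νν : ν ⬝ᵥ ν = 1 := by simp [hν]
  have νd : ∀ u : Am m M → ℝ, ν ⬝ᵥ u = u (Sum.inr b) := fun u => by simp [hν]
  have low : ∀ k y, 0 < σ k y → min (1 / 2) ε ^ 2 / 4 ≤ o k y ⬝ᵥ o k y ∧
      nrm (o k y) ⬝ᵥ nrm (o k y) = 1 ∧ 1 / 2 ≤ 1 + nrm (o k y) (Sum.inr b) := fun k y hy => by
    obtain ⟨-, q, q1, q2, q3⟩ := ho k y hy
    refine om_low (p0 k y) (p1 k y) hε q2 ?_ q3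
    rw [eo, sub_dotProduct, add_dotProduct, smul_dotProduct, νd, sum_dotProduct, sum_eq_zero,
      sub_zero, smul_eq_mul]
    intro a ha
    rw [smul_dotProduct, single_dotProduct, q1 a fun h => hb (h ▸ ha)]; simp
  have oB : ∀ k y, ∀ a ∈ B, nrm (o k y) (Sum.inr a) = 0 := fun k y a ha => by
    have : a ≠ b := fun h => hb (h ▸ ha)
    simp [nrm, eo, hν, this, Finset.sum_apply, Pi.single_apply, ha]
  have t1 : GT d σ fun k y => 1 - ph k y := (T1.c PS.hr 1).sub hp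
  have tO : ∀ v, GT d σ fun k y => o k y v := fun v => by
    simp only [eo, Pi.sub_apply, Pi.add_apply, Pi.smul_apply, Finset.sum_apply, smul_eq_mul]
    exact ((t1.mul1 (T1.c PS.hr _)).add (tz v)).sub
      (T1.sum B PS.hr fun a _ => (tz _).mul1 (T1.c PS.hr _))
  have tt : GT d σ fun k y => (o k y ⬝ᵥ o k y) ^ (-(1 / 2) : ℝ) :=
    (T1.dot PS.hr tO tO).rpow _ (c := min (1 / 2) ε ^ 2 / 4) (by positivity) one_half_pos
      fun p y hy => (low _ _ (p.near hσ hy)).1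
  have tn : ∀ v, GT d σ fun k y => nrm (o k y) v := fun v => tt.mul1 (tO v)
  have tc : GT d σ fun k y => (1 + ν ⬝ᵥ nrm (o k y))⁻¹ :=
    T1.inv ((T1.c PS.hr 1).add (T1.dot PS.hr (fun _ => T1.c PS.hr _) tn)) one_half_pos
      one_half_pos fun p y hy => by rw [νd]; exact (low _ _ (p.near hσ hy)).2.2
  have ts : ∀ v, GT d σ fun k y => (ν + nrm (o k y)) v := fun v => (T1.c PS.hr _).add (tn v)
  have trot : TM d (fun p : PS σ => p.1.2) (fun p => σ p.1.1 p.1.2)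
      fun p y => rotM ν (nrm (o p.1.1 y)) :=
    ((TM.const PS.hr 1 fun _ a b => by rw [one_apply]; split_ifs <;> simp).sub
      (TM.smul tc (TM.vmv ts ts))).add
      (TM.smul (T1.c PS.hr 2) (TM.vmv (fun _ => T1.c PS.hr _) tn))
  have row : ∀ k y, 0 < σ k y → nrm (o k y) ᵥ* (R k y * J y) =
      (o k y ⬝ᵥ o k y) ^ (-(1 / 2) : ℝ) • ((1 - ph k y) • (R k y * J y) (Sum.inr b) + g k y -
        ∑ a ∈ B, z k y (Sum.inr a) • (R k y * J y) (Sum.inr a)) := fun k y hy => by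
    rw [nrm, smul_vecMul, ← (ho k y hy).1]
    congr 1
    rw [eo, sub_vecMul, add_vecMul, smul_vecMul, hν, single_one_vecMul, sum_vecMul]
    simp only [smul_vecMul, single_one_vecMul]
    rfl
  have jr : ∀ a, TQ d σ (fun p y => (R p.1.1 y *ᵥ (J y *ᵥ T p y)) (Sum.inr a)) ω := fun a =>
    ((h.df _).add (hz a)).congr' fun p y => by ring
  have jn : TQ d σ (fun p y => nrm (o p.1.1 y) ⬝ᵥ R p.1.1 y *ᵥ (J y *ᵥ T p y)) ω := by
    refine (tt.mul1 (((t1.mul1 (jr b)).add (hX.small hg)).sub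
      (TN.sum B PS.hr hω fun a _ => (tz (Sum.inr a)).mul1 (jr a)))).congr one_half_pos
        fun p y hy => ?_
    rw [mulVec_mulVec, dotProduct_mulVec, row _ _ (p.near hσ hy), smul_dotProduct,
      sub_dotProduct, add_dotProduct, smul_dotProduct, sum_dotProduct]
    simp only [smul_dotProduct, smul_eq_mul]
    rfl
  refine ⟨fun k y => if 0 < σ k y then rotM ν (nrm (o k y)) * R k y else R k y, fun k y => ?_,
    fun k y hy => by rw [if_neg hy, h.one k y hy], fun a c => ?_, fun v => ?_, ?_⟩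
  · split_ifs with hy
    · have := (low k y hy).2.2
      rw [transpose_mul, Matrix.mul_assoc, ← Matrix.mul_assoc _ _ (R k y),
        rotM_orth νν (low k y hy).2.1 (by rw [νd]; linarith), Matrix.one_mul, h.orth]
    · exact h.orth k y
  · exact (TM.mul PS.hr trot h.tR a c).congr one_half_pos fun p y hy => by
      simp only [if_pos (p.near hσ hy)]
  · refine (((h.df v).sub ((tc.mul1 ((jr b).add jn)).mul1' (ts v))).add
      (((T1.c PS.hr 2).mul1 jn).mul1' (T1.c PS.hr (ν v)))).congr one_half_pos fun p y hy => ?_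
    simp only [if_pos (p.near hσ hy), ← mulVec_mulVec, rotM_mulVec, add_dotProduct, νd,
      Pi.add_apply, Pi.sub_apply, Pi.smul_apply, smul_eq_mul]
    ring
  · obtain ⟨u, eu⟩ : ∃ u : κ → E N → Fin M → ℝ, u = fun k y =>
      (o k y ⬝ᵥ o k y) ^ (-(1 / 2) : ℝ) • ((1 - ph k y) • w b k y + g k y -
        ∑ a ∈ B, z k y (Sum.inr a) • w a k y) := ⟨_, rfl⟩
    have hu : X u := eu ▸ hX.smul tt (hX.sub (hX.add (hX.smul t1 (w1 b)) hg)
      (hX.sum B fun a _ => hX.smul (tz _) (w1 a)))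
    refine ⟨fun a k y => w a k y - ((1 + ν ⬝ᵥ nrm (o k y))⁻¹ * (ν + nrm (o k y)) (Sum.inr a)) •
      (w b k y + u k y) + (2 * ν (Sum.inr a)) • u k y, fun a => hX.add (hX.sub (w1 a)
        (hX.smul (tc.mul1 (ts _)) (hX.add (w1 b) hu))) (hX.smul (T1.c PS.hr _) hu),
      fun a k y hy hd => ?_⟩
    have e1 : ν ᵥ* (R k y * J y) = (R k y * J y) (Sum.inr b) := by
      rw [hν, single_one_vecMul]; rfl
    have e2 : nrm (o k y) ᵥ* (R k y * J y) = u k y := by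
      rw [row k y hy, eu]
      dsimp only
      rw [sum_congr rfl fun a ha => congrArg (z k y (Sum.inr a) • ·)
        (w2 a k y hy (hd.imp_right fun h => ⟨ha, h.2⟩))]
      rcases hd with hd | hd
      · rw [w2 b k y hy (Or.inl hd)]
      · simp [hd.2]
    simp only [if_pos hy]
    rw [Matrix.mul_assoc, rotM_row, e1, e2, Pi.add_apply ν]
    rcases hd with hd | ⟨hd, h1⟩
    · rw [w2 b k y hy (Or.inl hd), w2 a k y hy (Or.inl hd)]
    · rcases mem_insert.1 hd with rfl | ha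
      · have := (low k y hy).2.2
        rw [νd, show ν (Sum.inr a) = 1 by simp [hν], inv_mul_cancel₀ (by linarith), one_smul,
          one_smul]
        abel
      · have : a ≠ b := fun h => hb (h ▸ ha)
        rw [oB k y a ha, show ν (Sum.inr a) = 0 by simp [hν, this], w2 a k y hy (Or.inr ⟨ha, h1⟩)]
        simp

theorem loop (hσ : ∀ k, Lip1 (σ k)) (hX : Md d σ X T ω) (hω : ∀ p, 0 ≤ ω p)
    (hz : ∀ a, TQ d σ (fun p y => (J y *ᵥ T p y) (Sum.inr a)) ω) {C : Type} [Fintype C]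
    {ph : C → κ → E N → ℝ} (hp : ∀ c, GT d σ (ph c)) (p0 : ∀ c k y, 0 ≤ ph c k y)
    (p1 : ∀ c k y, ph c k y ≤ 1)
    (ho : ∀ R : κ → E N → Matrix (Am m M) (Am m M) ℝ, (∀ k y, (R k y)ᵀ * R k y = 1) →
      (∀ a b, GT d σ fun k y => R k y a b) → ∀ c b, Orc d σ X (fun k y => R k y * J y) b (ph c)) :
    ∃ R, Inv d σ X T ω J R fun _ k y => ∃ c, ph c k y = 1 := by
  classical
  have key : ∀ t : Finset C, ∃ R, Inv d σ X T ω J R fun _ k y => ∃ c ∈ t, ph c k y = 1 := by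
    intro t
    induction t using Finset.induction_on with
    | empty =>
      exact ⟨fun _ _ => 1, fun _ _ => by simp, fun _ _ _ => rfl, fun a b => T1.c PS.hr _,
        fun v => (TN.zero PS.hr hω).congr' fun p y => by simp, fun _ _ _ => 0, fun _ => hX.zero,
        fun a k y _ h => by simp at h⟩
    | insert c t _ ih =>
      have key2 : ∀ B : Finset (Fin M), ∃ R, Inv d σ X T ω J R
          fun a k y => (∃ c ∈ t, ph c k y = 1) ∨ (a ∈ B ∧ ph c k y = 1) := by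
        intro B
        induction B using Finset.induction_on with
        | empty =>
          obtain ⟨R, h⟩ := ih
          exact ⟨R, h.mono fun a k y h => by simpa using h⟩
        | insert b B hb ih =>
          obtain ⟨R, h⟩ := ih
          exact h.step hσ hX hz (hp c) (p0 c) (p1 c) hb (ho R h.orth h.tR c b)
      obtain ⟨R, h⟩ := key2 univ
      exact ⟨R, h.mono fun a k y h => by simpa [or_comm] using h⟩
  obtain ⟨R, h⟩ := key univ
  exact ⟨R, h.mono fun a k y h => by simpa using h⟩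

end Pool.Agent.CA9.UB
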