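import Pool.Agent.Lib.MP_ca9be0_an.UB.Cl2

/-! Cutoff functions and the state after a tame rotation. -/

namespace Pool.Agent.CA9.UB

open Finset Matrix Pool.Agent.Lib.MP_ca9be0_an.PyF

variable {N M m d : ℕ} {s : ℝ} {κ : Type}

lemma T1.ctr {ι : Type} {x : ι → E N} {r : ι → ℝ} {u : ι → E N → ℝ} (h : T1 d x r u) :
    ∃ C, 0 < C ∧ ∀ i, |u i (x i)| ≤ C := by
  obtain ⟨C, η, hC, hη, h1⟩ := h.bound
  exact ⟨C, hC, fun i => by
    simpa using h1 i (x i) (by simpa using mul_nonneg hη.le (h.r_nonneg i))⟩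

/-- the cutoff of a colour -/
noncomputable def cuf (d : ℕ) (σ : E N → ℝ) (c : Col N) (y : E N) : ℝ :=
  1 - max (1 - ((3 / 4 : ℝ) ^ (d + 1))⁻¹ * bump d (fun y => 1 / 100 * σ y) c y) 0 ^ (d + 1)

/-- the centre of the cell of a colour -/
noncomputable def cec (σ : E N → ℝ) (c : Col N) (y : E N) : E N :=
  zeta (fun y => 1 / 100 * σ y) c y

section cut
variable {σ : E N → ℝ} {c : Col N} {x y : E N}

lemma cuf_mem (σ : E N → ℝ) (c : Col N) (y : E N) : 0 ≤ cuf d σ c y ∧ cuf d σ c y ≤ 1 := by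
  have h1 : 0 ≤ bump d (fun y => 1 / 100 * σ y) c y := by
    unfold bump; split_ifs <;> positivity
  have h2 : 0 ≤ ((3 / 4 : ℝ) ^ (d + 1))⁻¹ * bump d (fun y => 1 / 100 * σ y) c y := by positivity
  refine ⟨sub_nonneg.2 (pow_le_one₀ (le_max_right _ _) (max_le (by linarith) zero_le_one)), ?_⟩
  exact sub_le_self _ (by positivity)

lemma cuf_one (hσ : Lip1 σ) (hy : 0 < σ y) : ∃ c, cuf d σ c y = 1 := by
  obtain ⟨c, hc⟩ := bump_lower (d := d) (hσ.adm (γ := 1 / 100) (by norm_num) le_rfl)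
    (x := y) (by positivity)
  refine ⟨c, ?_⟩
  rw [cuf, max_eq_right (sub_nonpos.2 ((one_le_inv_mul₀ (by positivity)).2 hc))]
  simp

lemma cuf_loc (hσ : Lip1 σ) (hy : ‖y - x‖ ≤ 1 / 1000 * σ x) :
    cuf d σ c y = 0 ∨ cec σ c y = cec σ c x := by
  have ha := hσ.adm (γ := 1 / 100) (by norm_num) le_rfl
  by_cases h : bump d (fun y => 1 / 100 * σ y) c y = 0
  · left; rw [cuf, h]; simp
  · obtain ⟨q, h1, h2⟩ := bump_ne ha (x := x) (by linarith) h
    right; rw [cec, cec, h1.zeta_eq ha, h2.zeta_eq ha]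

lemma cec_near (hσ : Lip1 σ) (c : Col N) (x : E N) : ‖cec σ c x - x‖ ≤ σ x / 20 := by
  have := zeta_near (hσ.adm (γ := 1 / 100) (by norm_num) le_rfl) c x
  rw [cec]; linarith

end cut

lemma cuf_GT {σ : κ → E N → ℝ} (hσ : ∀ k, Lip1 (σ k)) (c : Col N) :
    GT d σ fun k => cuf d (σ k) c := by
  have h := (bump_TN (d := d) (σ := fun (p : PS σ) y => 1 / 100 * σ p.1.1 y)
    (fun p => (hσ _).adm (by norm_num) le_rfl) (fun p => p.1.2) c).mono_r 100 PS.hr
      fun p => le_of_eq (by ring)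
  exact (T1.c PS.hr 1).sub ((T1.c PS.hr 1).sub ((T1.c PS.hr _).mul1 h)).posPow

/-- the sum of two functions with jets -/
def CF.plus (u v : CF N d s) : CF N d s where
  f y := u.f y + v.f y
  P x y := u.P x y + v.P x y
  mem x := Pd_add (u.mem x) (v.mem x)
  bd := by
    obtain ⟨C, h0, h⟩ := u.bd
    obtain ⟨C', h0', h'⟩ := v.bd
    refine ⟨C + C', by positivity, fun x y => ?_⟩
    have := abs_add_le (u.f y - u.P x y) (v.f y - v.P x y)
    rw [add_sub_add_comm]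
    linarith [h x y, h' x y]

theorem St.turn (H : Hs d s) {g : Fin M → CF N d s} {σ₂ σ : E N → ℝ} {G : Am m M → CF N d s}
    {J : E N → Matrix (Am m M) (Fin M) ℝ} (h : St g σ₂ G J) (hσ : Lip1 σ) (hle : ∀ x, σ x ≤ σ₂ x)
    {A : ℝ} (hA : ∀ x, σ₂ x ≤ A * σ x) {R : E N → Matrix (Am m M) (Am m M) ℝ}
    (ho : ∀ y, (R y)ᵀ * R y = 1) (h1 : ∀ y, ¬ 0 < σ y → R y = 1)
    (tR : TM d (fun x : Pos σ => x.1) (fun x => σ x.1) fun _ => R)
    (df : ∀ v, TN d true (fun x : Pos σ => x.1) (fun x => σ x.1)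
      (fun x y => (R y *ᵥ (J y *ᵥ fun w => (g w).P x.1 y)) v - (J y *ᵥ fun w => (g w).P x.1 y) v)
      fun x => σ₂ x.1 ^ s) : ∃ G', St g σ G' fun y => R y * J y := by
  classical
  have hr : ∀ x : Pos σ, 0 ≤ σ x.1 := fun x => x.2.le
  have hw : ∀ x, 0 ≤ σ x ^ s := fun x => Real.rpow_nonneg (hσ.1 x) _
  have hs : ∀ x, σ₂ x ^ s ≤ |A| ^ s * σ x ^ s := fun x => by
    rw [← Real.mul_rpow (abs_nonneg _) (hσ.1 x)]
    exact Real.rpow_le_rpow (h.lip.1 x) ((hA x).trans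
      (mul_le_mul_of_nonneg_right (le_abs_self _) (hσ.1 x))) H.pos.le
  let f : Pos σ → Pos σ₂ := fun x => ⟨x.1, x.2.trans_le (hle _)⟩
  have hl : ∀ x : Pos σ, σ x.1 ≤ 1 * σ₂ x.1 := fun x => by rw [one_mul]; exact hle _
  have b1 : TM d (fun x : Pos σ => x.1) (fun x => σ x.1) fun _ => J := fun v w =>
    ((h.tJ v w).comp f).mono_r 1 hr hl
  have b2 := fun v => ((h.rel v).comp f).resc H.pos H.2 1 one_pos hr hl
  have b3 : TM d (fun x : Pos σ => x.1) (fun x => σ x.1) fun _ y => R y - 1 :=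
    tR.sub (TM.const hr 1 fun _ a b => by rw [one_apply]; split_ifs <;> simp)
  have e1 : ∀ (y : E N) (Z : Am m M → ℝ) v, ∑ v', (R y - 1) v v' * Z v' = (R y *ᵥ Z) v - Z v :=
    fun y Z v => by
      have := congrFun (sub_mulVec (R y) 1 Z) v
      rwa [one_mulVec] at this
  have key : ∀ v, TN d true (fun x => x) σ (fun x y => ∑ v', (R y - 1) v v' * (G v').P x y)
      fun x => σ x ^ s := fun v => by
    refine TN.split (fun x => 0 < σ x) ?_ fun x hx =>
      ⟨le_antisymm (not_lt.1 hx) (hσ.1 x), hw x, by simp [h1 x hx]⟩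
    refine ((TN.sum univ hr (fun x => hw _) fun v' _ => (b3 v v').mul1 (b2 v').weaken).add
      ((df v).mono_w _ (fun x => hs x.1) fun x => hw _)).congr' fun x y => ?_
    rw [← e1, ← sum_add_distrib]
    exact sum_congr rfl fun v' _ => by simp only [mulVec, dotProduct]; ring
  choose u u1 u2 u3 using fun v => mkCF H G hσ (coef := fun v' y => (R y - 1) v v') (B := 2)
    (fun v' y => by
      have a1 := col_le (U := R y) (fun z => by
        rw [← dot_gram, ho, one_mulVec]) v v'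
      have a2 : |(1 : Matrix (Am m M) (Am m M) ℝ) v v'| ≤ 1 := by
        rw [one_apply]; split_ifs <;> simp
      exact (abs_sub _ _).trans (by linarith)) (key v)
  refine ⟨fun v => CF.plus (G v) (u v), hσ, fun y => ?_, fun w => ?_, fun y hy => ?_,
    TM.mul hr tR b1, fun v => ?_⟩
  · rw [← h.sq, ← orth_sq (ho y) fun v => (G v).f y]
    refine sum_congr rfl fun v _ => ?_
    simp only [CF.plus, u1, e1, add_sub_cancel]
  · exact (((h.tz w).mono_r 1 hσ.1 fun x => by rw [one_mul]; exact hle _).mono_w _ hs hw).add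
      (u2 _)
  · rw [transpose_mul, Matrix.mul_assoc, ← Matrix.mul_assoc _ (R y), ho, Matrix.one_mul,
      h.orth y (hy.trans_le (hle y))]
  · refine ((TN.sum univ hr (fun x => hw _) fun v' _ => (tR v v').mul1 (b2 v')).sub
      ((u3 v).comp Subtype.val)).congr' fun x y => ?_
    rw [e1]
    simp only [CF.plus, mul_sub, sum_sub_distrib, Matrix.mul_apply, sum_mul, mul_sum, mul_assoc,
      mulVec, dotProduct]
    rw [sum_comm (s := (univ : Finset (Fin M)))]
    ring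

end Pool.Agent.CA9.UB
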