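import Pool.Agent.Lib.MP_ca9be0_an.JetC

/-! Common definitions for the upper bound: frames, gauges, states. -/

namespace Pool.Agent.CA9.UB

open Finset Matrix Pool.Agent.Lib.MP_ca9be0_an.PyF

/-- index type of a fixed homogeneous basis of the polynomials of degree at most `D` on `E k` -/
def BA (k D : ℕ) : Type := (exists_Bs k D).choose

noncomputable instance (k D : ℕ) : Fintype (BA k D) := (exists_Bs k D).choose_spec.choose

noncomputable instance (k D : ℕ) : DecidableEq (BA k D) :=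
  (exists_Bs k D).choose_spec.choose_spec.choose

theorem card_BA (k D : ℕ) : Fintype.card (BA k D) ≤ (k + D).choose D :=
  (exists_Bs k D).choose_spec.choose_spec.choose_spec.1

/-- the fixed homogeneous basis -/
noncomputable def bs (k D : ℕ) : Bs k D (BA k D) :=
  (exists_Bs k D).choose_spec.choose_spec.choose_spec.2.some

variable {N n k j M m d : ℕ} {s : ℝ}

/-- the point of the frame `(ξ; v)` with coordinates `z` -/
noncomputable def fr (ξ : E N) (v : Fin k → E N) (z : E k) : E N := ξ + ∑ i, z i • v i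

/-- coefficients of the restriction of `F` to the frame `(ξ; v)` -/
noncomputable def res (D : ℕ) (ξ : E N) (v : Fin k → E N) (F : E N → ℝ) (a : BA k D) : ℝ :=
  co ((bs k D).γ a) fun z => F (fr ξ v z)

/-- tuples of polynomials of degree at most `d` -/
def PV (d : ℕ) {W : Type} (T : W → E N → ℝ) : Prop := ∀ w, T w ∈ Pd N d

/-- the matrix of the restriction of a tuple to a frame -/
noncomputable def fX (d : ℕ) (T : Fin M → E N → ℝ) (u : E N) (v : Fin j → E N) :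
    Matrix (Fin M) (BA j d) ℝ := of fun w a => res d u v (T w) a

/-- functions of a tuple and a frame -/
abbrev Gg (M N j : ℕ) := (Fin M → E N → ℝ) → E N → (Fin j → E N) → ℝ

/-- the frame gauge -/
noncomputable def fG (d j : ℕ) : Gg M N j := fun T u v => (1 + (fX d T u v)ᵀ * fX d T u v).det

/-- gauges -/
structure IsGauge (d e : ℕ) (G : Gg M N j) : Prop where
  nn : ∀ T u v, 0 ≤ G T u v
  poly : ∀ (p a : ℕ) (T : E p → Fin M → E N → ℝ) (u : E p → E N) (v : E p → Fin j → E N),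
    (∀ θ, PV d (T θ)) → (∀ w y, (fun θ => T θ w y) ∈ Pd p a) → (∀ i, (fun θ => u θ i) ∈ Pd p a) →
    (∀ l i, (fun θ => v θ l i) ∈ Pd p a) → (fun θ => G (T θ) (u θ) (v θ)) ∈ Pd p (e * a)
  cmp : ∀ R : ℝ, 1 ≤ R → ∃ C, 0 < C ∧ ∀ (T T' : Fin M → E N → ℝ) (κ t : ℝ) (c u : E N)
    (v : Fin j → E N), PV d T → PV d T' → |κ| ≤ R → ‖c‖ ≤ R → ‖u‖ ≤ R → ‖v‖ ≤ R → R⁻¹ ≤ t →
    t ≤ R → (∀ w, PB (fun y => T' w y - κ * T w (c + t • y)) 0 1 R) →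
    G T' u v ≤ C * G T (c + t • u) v
  trans : ∀ R : ℝ, ∃ C, 0 < C ∧ ∀ (T : Fin M → E N → ℝ) (u : E N) (v : Fin j → E N) (c : E j),
    PV d T → ‖c‖ ≤ R → G T (fr u v c) v ≤ C * G T u v
  pos : ∃ v : Fin j → E N, ‖v‖ ≤ 1 ∧ 0 < G (fun _ _ => 0) 0 v

/-- supremum over the unit ball of frames -/
noncomputable def gb (G : Gg M N j) (T : Fin M → E N → ℝ) : ℝ :=
  sSup {r | ∃ u v, ‖u‖ ≤ 1 ∧ ‖v‖ ≤ 1 ∧ r = G T u v}

/-- supremum over the directions at the base point `u` -/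
noncomputable def gaAt (G : Gg M N j) (T : Fin M → E N → ℝ) (u : E N) : ℝ :=
  sSup {r | ∃ v, ‖v‖ ≤ 1 ∧ r = G T u v}

/-- the normalised jet of `g` at `x` and scale `ρ` -/
noncomputable def nj (g : Fin M → CF N d s) (x : E N) (ρ : ℝ) : Fin M → E N → ℝ :=
  fun w => scl s ρ x ((g w).P x)

/-- the function `a (x, ρ)` of a gauge -/
noncomputable def fa (G : Gg M N j) (g : Fin M → CF N d s) (x : E N) (ρ : ℝ) : ℝ :=
  gaAt G (nj g x ρ) 0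

/-- the function `b (x, ρ)` of a gauge -/
noncomputable def fb (G : Gg M N j) (g : Fin M → CF N d s) (x : E N) (ρ : ℝ) : ℝ :=
  gb G (nj g x ρ)

/-- comparability under bounded change of centre and scale -/
def Cb (b : E N → ℝ → ℝ) : Prop := ∀ R : ℝ, 1 ≤ R → ∃ C, 0 < C ∧ ∀ x x' ρ ρ', 0 < ρ →
  ‖x - x'‖ ≤ R * ρ → ρ ≤ R * ρ' → ρ' ≤ R * ρ → b x' ρ' ≤ C * b x ρ

/-- the properties of the pair `a`, `b` that the trees use -/
structure AB (a b : E N → ℝ → ℝ) : Prop where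
  pos : ∃ c, 0 < c ∧ ∀ x ρ, 0 < ρ → c ≤ a x ρ
  le : ∀ x ρ, 0 < ρ → a x ρ ≤ b x ρ
  cb : Cb b
  ca : ∀ R : ℝ, 1 ≤ R → ∃ C, 0 < C ∧ ∀ x ρ ρ', 0 < ρ → ρ ≤ R * ρ' → ρ' ≤ R * ρ →
    a x ρ' ≤ C * a x ρ
  lip : ∃ C, 0 < C ∧ ∀ x x' ρ γ, 0 < ρ → γ ≤ 1 → ‖x - x'‖ ≤ γ * ρ →
    a x ρ ≤ C * (a x' ρ + γ * b x ρ)
  fin : ∃ e : ℕ, ∀ R : ℝ, 1 ≤ R → ∃ ε, 0 < ε ∧ ∀ x ρ (y : Fin (e + 1) → E N), 0 < ρ →
    (∀ i, ‖y i - x‖ ≤ R * ρ) → (∀ i l, i ≠ l → ρ ≤ R * ‖y i - y l‖) →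
    ∃ i, ε * b (y i) ρ < a (y i) ρ
  ic : ∀ R : ℝ, 1 ≤ R → ∃ (ε B : ℝ) (Q : ℕ), 0 < ε ∧ 1 ≤ B ∧ ∀ p, ∃ Cr : Finset ℝ, Cr.card ≤ Q ∧
    ∀ ρ y, 0 < ρ → (∀ r ∈ Cr, B * r < ρ ∨ B * ρ < r) → ‖y - p‖ ≤ R * ρ → a y ρ ≤ ε * b y ρ →
    ‖y - p‖ < ρ / 4

/-- uniformly comparable to a maximum of monomials with exponents in `X` -/
def MM (X : Finset ℝ) {ι : Type} (β : ι → ℝ → ℝ) : Prop := ∃ C, 1 ≤ C ∧ ∀ i, ∃ c : ℝ → ℝ,
  (∀ e, 0 ≤ c e) ∧ ∀ ρ, 0 < ρ → 0 < β i ρ ∧ (∀ e ∈ X, c e * ρ ^ e ≤ C * β i ρ) ∧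
    ∃ e ∈ X, β i ρ ≤ C * (c e * ρ ^ e)

/-- comparable to one monomial on the interval `(lo, hi]` -/
def Mono (X : Finset ℝ) (K : ℝ) (β : ℝ → ℝ) (lo hi : ℝ) : Prop := ∃ e ∈ X, ∃ c : ℝ,
  ∀ ρ, lo < ρ → ρ ≤ hi → c * ρ ^ e ≤ K * β ρ ∧ β ρ ≤ K * (c * ρ ^ e)

/-- lower growth bound with exponent `e` below the scale `σ` -/
def Rk (F : E N → ℝ → ℝ) (σ : E N → ℝ) (e : ℝ) : Prop := ∃ c, 0 < c ∧ ∀ x ρ, 0 < ρ → ρ ≤ σ x →
  c * (F x (σ x) * (ρ / σ x) ^ e) ≤ F x ρ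

/-- margin on the scales between `lo` and `hi` -/
def Mar (a b : E N → ℝ → ℝ) (ε : ℝ) (lo hi : E N → ℝ) : Prop :=
  ∀ x ρ, 0 < ρ → lo x ≤ ρ → ρ ≤ hi x → ε * b x ρ ≤ a x ρ

/-- points of positive scale -/
abbrev Pos (σ : E N → ℝ) := {x : E N // 0 < σ x}

/-- index set of the big space: main axes and junk axes -/
abbrev Am (m M : ℕ) := Fin m ⊕ Fin M

/-- the state at the scale `σ` -/
structure St (g : Fin M → CF N d s) (σ : E N → ℝ) (G : Am m M → CF N d s)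
    (J : E N → Matrix (Am m M) (Fin M) ℝ) : Prop where
  lip : Lip1 σ
  sq : ∀ y, ∑ v, (G v).f y ^ 2 = ∑ w, (g w).f y ^ 2
  tz : ∀ w, Tame (G (Sum.inr w)) σ
  orth : ∀ y, 0 < σ y → (J y)ᵀ * J y = 1
  tJ : TM d (fun x : Pos σ => x.1) (fun x => σ x.1) fun _ => J
  rel : ∀ v, TN d false (fun x : Pos σ => x.1) (fun x => σ x.1)
    (fun x y => (G v).P x.1 y - ∑ w, J y v w * (g w).P x.1 y) fun x => σ x.1 ^ s

/-- the relation `a ~ b` through the tame matrix `U` -/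
structure RelU (d : ℕ) (s : ℝ) {ι A B : Type} [Fintype A] [Fintype B] (x : ι → E N) (r : ι → ℝ)
    (a : ι → A → E N → ℝ) (b : ι → B → E N → ℝ) (U : ι → E N → Matrix B A ℝ) : Prop where
  tU : TM d x r U
  l : ∀ v, TN d true x r (fun i y => ∑ w, U i y v w * a i w y - b i v y) fun i => r i ^ s
  r : ∀ w, TN d true x r (fun i y => ∑ v, U i y v w * b i v y - a i w y) fun i => r i ^ s

/-- pairs of an index and a point of the ball of radius `η * r i` around `x i` -/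
abbrev Nb {ι : Type} (x : ι → E N) (r : ι → ℝ) (η : ℝ) :=
  {q : ι × E N // ‖q.2 - x q.1‖ ≤ η * r q.1}

/-- the relation at all points of comparable balls -/
def RelB (d : ℕ) (s : ℝ) {ι A B : Type} [Fintype A] [Fintype B] (x : ι → E N) (r : ι → ℝ)
    (a : ι → A → E N → ℝ) (b : ι → B → E N → ℝ) (U : ι → E N → Matrix B A ℝ) : Prop :=
  ∃ η, 0 < η ∧ RelU d s (fun q : Nb x r η => q.1.2) (fun q => r q.1.1) (fun q => a q.1.1)
    (fun q => b q.1.1) fun q => U q.1.1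

/-- the conclusion of Lemma S for the margin functions `a`, `b` -/
def LS (g : Fin M → CF N d s) (a b : E N → ℝ → ℝ) (m : ℕ) : Prop := ∀ Q : ℕ,
  ∃ (S : Finset (E N) → E N → Fin m → E N → ℝ) (C : ℝ), 0 ≤ C ∧ (∀ P p, PV d (S P p)) ∧
    (∀ P : Finset (E N), P.card ≤ Q → ∀ p ∈ P, ∀ p' ∈ P, ∀ i,
      PB (fun y => S P p i y - S P p' i y) p ‖p - p'‖ (C * ‖p - p'‖ ^ s)) ∧
    (∀ P : Finset (E N), P.card ≤ Q → ∀ p ∈ P, ∑ i, S P p i p ^ 2 = ∑ w, (g w).f p ^ 2) ∧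
    ∀ (ε : ℝ) (ι : Type) (P : ι → Finset (E N)) (p x : ι → E N) (ρ : ι → ℝ), 0 < ε →
      (∀ i, (P i).card ≤ Q ∧ p i ∈ P i ∧ 0 < ρ i ∧ ‖x i - p i‖ ≤ ρ i ∧
        ε * b (x i) (ρ i) ≤ a (x i) (ρ i)) →
      ∃ U, RelB d s x ρ (fun i w => (g w).P (p i)) (fun i => S (P i) (p i)) U

/-- the frame matrix of the jet at `x`, scale `ρ`, directions `v`, as a function of the point -/
noncomputable def pX (g : Fin M → CF N d s) (x : E N) (ρ : ℝ) (v : Fin j → E N) (y : E N) :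
    Matrix (Fin M) (BA j d) ℝ := fX d (nj g x ρ) (ρ⁻¹ • (y - x)) v

/-- the normalised frame gauge of fixed directions -/
noncomputable def hP (g : Fin M → CF N d s) (v : Fin j → E N) (x : E N) (ρ : ℝ) : ℝ :=
  fG d j (nj g x ρ) 0 v / fb (fG d j) g x ρ

/-- the output of the cleaning step for a family of scales -/
structure Cl (g : Fin M → CF N d s) (m n : ℕ) {κ L : Type} [Fintype L] (σ : κ → E N → ℝ)
    (j : L → ℕ) (v : ∀ Φ, Fin (j Φ) → E N) (J : κ → E N → Matrix (Am m M) (Fin M) ℝ)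
    (w : κ → Fin M → L → E N → Fin M → ℝ) : Prop where
  lab : ∀ Φ, j Φ ≤ n ∧ ‖v Φ‖ ≤ 1
  st : ∀ k, ∃ G, St g (σ k) G (J k)
  sum : ∀ k y, 0 < σ k y → ∀ a b, J k y (Sum.inr a) b = ∑ Φ, w k a Φ y b
  tw : ∀ a Φ b, T1 d (fun p : {p : κ × E N // 0 < σ p.1 p.2} => p.1.2) (fun p => σ p.1.1 p.1.2)
    fun p y => w p.1.1 a Φ y b
  tX : ∀ a Φ c, T1 d (fun p : {p : κ × E N // 0 < σ p.1 p.2} => p.1.2) (fun p => σ p.1.1 p.1.2)
    fun p y => ∑ b, pX g p.1.2 (σ p.1.1 p.1.2) (v Φ) y b c * w p.1.1 a Φ y b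
  sm : ∃ C, ∀ k a Φ y b, 0 < σ k y → |w k a Φ y b| ≤ C * hP g (v Φ) y (σ k y)

end Pool.Agent.CA9.UB
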