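import Pool.Agent.Lib.MP_ca9be0_an.UB.Defs

/-! Functions of max-monomial type. -/

namespace Pool.Agent.CA9.UB

open Finset Pool.Agent.Lib.MP_ca9be0_an.PyF

variable {ι κ A : Type} {X X' Y : Finset ℝ} {β β' α : ι → ℝ → ℝ}

lemma exists_gap (Z : Finset ℝ) : ∃ g : ℝ, 0 < g ∧ ∀ z ∈ Z, 0 < z → g ≤ z := by
  classical
  rcases (Z.filter fun z => 0 < z).eq_empty_or_nonempty with h | h
  · exact ⟨1, one_pos, fun z hz h0 => absurd (mem_filter.2 ⟨hz, h0⟩) (h ▸ notMem_empty z)⟩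
  · exact ⟨min' _ h, (mem_filter.1 (min'_mem _ h)).2, fun z hz h0 =>
      min'_le _ z (mem_filter.2 ⟨hz, h0⟩)⟩

/-- positive exponents from a finite set beat a given constant -/
lemma big_pow (Z : Finset ℝ) (L : ℝ) : ∃ B : ℝ, 1 ≤ B ∧ ∀ z ∈ Z, 0 < z → ∀ t, B ≤ t → L < t ^ z := by
  obtain ⟨g, g0, hg⟩ := exists_gap Z
  have h1 : (1 : ℝ) ≤ |L| + 1 := by linarith [abs_nonneg L]
  have h2 : 1 ≤ (|L| + 1) ^ g⁻¹ := Real.one_le_rpow h1 (inv_pos.2 g0).le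
  refine ⟨_, h2, fun z hz z0 t ht => ?_⟩
  calc L < |L| + 1 := by linarith [le_abs_self L]
    _ = ((|L| + 1) ^ g⁻¹) ^ g := (Real.rpow_inv_rpow (by linarith) g0.ne').symm
    _ ≤ t ^ g := Real.rpow_le_rpow (by linarith) ht g0.le
    _ ≤ t ^ z := Real.rpow_le_rpow_of_exponent_le (h2.trans ht) (hg z hz z0)

/-- powers with exponents from a finite set are bounded on `[1 / R, R]` -/
lemma pow_bdd (Z : Finset ℝ) (R : ℝ) : ∃ L : ℝ, 1 ≤ L ∧ ∀ z ∈ Z, ∀ t, 0 < t → 1 ≤ R * t → t ≤ R →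
    t ^ z ≤ L := by
  have h0 : ∀ z ∈ Z, 0 ≤ |R| ^ |z| := fun z _ => by positivity
  refine ⟨1 + ∑ z ∈ Z, |R| ^ |z|, by linarith [sum_nonneg h0], fun z hz t t0 h1 h2 => ?_⟩
  have R0 : 0 < R := t0.trans_le h2
  have h3 : t ^ z ≤ |R| ^ |z| := by
    rw [abs_of_pos R0]
    rcases le_total 0 z with h | h
    · rw [abs_of_nonneg h]; exact Real.rpow_le_rpow t0.le h2 h
    · rw [abs_of_nonpos h, Real.rpow_neg R0.le, ← Real.inv_rpow R0.le]
      exact Real.rpow_le_rpow_of_nonpos (inv_pos.2 R0) (by rw [inv_le_iff_one_le_mul₀' R0]; exact h1) h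
  linarith [single_le_sum h0 hz]

theorem MM.pos (h : MM X β) (i : ι) {ρ : ℝ} (hρ : 0 < ρ) : 0 < β i ρ := by
  obtain ⟨C, -, H⟩ := h
  obtain ⟨c, -, H⟩ := H i
  exact (H ρ hρ).1

theorem MM.comp (h : MM X β) (f : κ → ι) : MM X fun k => β (f k) := by
  obtain ⟨C, hC, H⟩ := h
  exact ⟨C, hC, fun k => H (f k)⟩

theorem MM.mono' (h : MM X β) (hX : X ⊆ X') : MM X' β := by
  classical
  obtain ⟨C, hC, H⟩ := h
  refine ⟨C, hC, fun i => ?_⟩
  obtain ⟨c, c0, H⟩ := H i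
  refine ⟨fun e => if e ∈ X then c e else 0, fun e => by dsimp only; split_ifs <;> simp [c0], fun ρ hρ => ?_⟩
  obtain ⟨h1, h2, e, he, h3⟩ := H ρ hρ
  refine ⟨h1, fun f _ => ?_, e, hX he, by simpa [he] using h3⟩
  by_cases hf : f ∈ X
  · simpa [hf] using h2 f hf
  · simp only [hf, if_false, zero_mul]; positivity

theorem MM.congr (h : MM X β) (he : ∀ i ρ, 0 < ρ → β i ρ = β' i ρ) : MM X β' := by
  obtain ⟨C, hC, H⟩ := h
  refine ⟨C, hC, fun i => ?_⟩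
  obtain ⟨c, c0, H⟩ := H i
  exact ⟨c, c0, fun ρ hρ => he i ρ hρ ▸ H ρ hρ⟩

/-- finitely many families -/
theorem MM.fin [Finite A] {γ : ι → A → ℝ → ℝ} (h : ∀ a, ∃ X, MM X fun i => γ i a) :
    ∃ X, MM X fun p : ι × A => γ p.1 p.2 := by
  classical
  have := Fintype.ofFinite A
  choose X hX using h
  have h2 := fun a => (hX a).mono' (subset_biUnion_of_mem X (mem_univ a))
  choose C hC H using h2
  have h0 : ∀ a ∈ (univ : Finset A), 0 ≤ C a := fun a _ => by linarith [hC a]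
  refine ⟨univ.biUnion X, 1 + ∑ a, C a, by linarith [sum_nonneg h0], fun p => ?_⟩
  obtain ⟨c, c0, H⟩ := H p.2 p.1
  have h3 : C p.2 ≤ 1 + ∑ a, C a := by linarith [single_le_sum h0 (mem_univ p.2)]
  refine ⟨c, c0, fun ρ hρ => ?_⟩
  obtain ⟨h1, h2, e, he, h4⟩ := H ρ hρ
  exact ⟨h1, fun f hf => (h2 f hf).trans (mul_le_mul_of_nonneg_right h3 h1.le), e, he,
    h4.trans (mul_le_mul_of_nonneg_right h3 (mul_nonneg (c0 e) (by positivity)))⟩

theorem MM.mul (h : MM X β) (h' : MM X' β') : ∃ Z, MM Z fun i ρ => β i ρ * β' i ρ := by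
  classical
  obtain ⟨C, hC, H⟩ := h
  obtain ⟨C', hC', H'⟩ := h'
  have hN : (0 : ℝ) ≤ (X ×ˢ X').card := Nat.cast_nonneg _
  have hCC : 1 ≤ C * C' := one_le_mul_of_one_le_of_one_le hC hC'
  refine ⟨(X ×ˢ X').image fun p => p.1 + p.2, ((X ×ˢ X').card + 1) * (C * C'), by nlinarith,
    fun i => ?_⟩
  obtain ⟨c, c0, H⟩ := H i
  obtain ⟨c', c0', H'⟩ := H' i
  have h0 : ∀ p : ℝ × ℝ, 0 ≤ c p.1 * c' p.2 := fun p => mul_nonneg (c0 _) (c0' _)
  refine ⟨fun f => ∑ p ∈ X ×ˢ X' with p.1 + p.2 = f, c p.1 * c' p.2,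
    fun f => sum_nonneg fun p _ => h0 p, fun ρ hρ => ?_⟩
  obtain ⟨h1, h2, e, he, h3⟩ := H ρ hρ
  obtain ⟨h1', h2', e', he', h3'⟩ := H' ρ hρ
  have hp := mul_pos h1 h1'
  refine ⟨hp, fun f _ => ?_, e + e', mem_image.2 ⟨(e, e'), mem_product.2 ⟨he, he'⟩, rfl⟩, ?_⟩
  · rw [sum_mul]
    refine (sum_le_card_nsmul _ _ (C * C' * (β i ρ * β' i ρ)) fun p hp => ?_).trans ?_
    · obtain ⟨hq, rfl⟩ := mem_filter.1 hp
      obtain ⟨a1, a2⟩ := mem_product.1 hq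
      have := mul_le_mul (h2 _ a1) (h2' _ a2) (mul_nonneg (c0' _) (by positivity)) (by positivity)
      rw [Real.rpow_add hρ]
      linarith
    · rw [nsmul_eq_mul, mul_assoc (_ + 1)]
      refine mul_le_mul_of_nonneg_right ?_ (by positivity)
      have : ((X ×ˢ X').filter fun p => p.1 + p.2 = f).card ≤ (X ×ˢ X').card := card_filter_le _ _
      have : (((X ×ˢ X').filter fun p => p.1 + p.2 = f).card : ℝ) ≤ (X ×ˢ X').card := by
        exact_mod_cast this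
      linarith
  · have h4 := mul_le_mul h3 h3' h1'.le (h1.le.trans h3)
    have h5 : c e * c' e' ≤ ∑ p ∈ X ×ˢ X' with p.1 + p.2 = e + e', c p.1 * c' p.2 :=
      single_le_sum (f := fun p : ℝ × ℝ => c p.1 * c' p.2) (a := (e, e')) (fun p _ => h0 p)
        (mem_filter.2 ⟨mem_product.2 ⟨he, he'⟩, rfl⟩)
    have h6 : 0 < ρ ^ (e + e') := by positivity
    have h7 := mul_le_mul_of_nonneg_right h5 h6.le
    have h8 : 0 ≤ c e * c' e' * ρ ^ (e + e') := mul_nonneg (h0 (e, e')) h6.le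
    calc β i ρ * β' i ρ ≤ C * C' * (c e * c' e' * ρ ^ (e + e')) := by
          rw [Real.rpow_add hρ]; linarith
      _ ≤ _ := mul_le_mul (by nlinarith) h7 h8 (by positivity)

theorem MM.one : MM {0} fun (_ : ι) (_ : ℝ) => (1 : ℝ) :=
  ⟨1, le_rfl, fun _ => ⟨fun _ => 1, fun _ => zero_le_one, fun ρ _ => by simp⟩⟩

/-- (M1) -/
theorem MM.prod (t : Finset A) {γ : ι → A → ℝ → ℝ} (h : ∀ a ∈ t, ∃ X, MM X fun i => γ i a) :
    ∃ Z, MM Z fun i ρ => ∏ a ∈ t, γ i a ρ := by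
  classical
  induction t using Finset.induction_on with
  | empty => exact ⟨{0}, by simpa using MM.one⟩
  | insert a t ha ih =>
    obtain ⟨Z, hZ⟩ := ih fun b hb => h b (mem_insert_of_mem hb)
    obtain ⟨X, hX⟩ := h a (mem_insert_self _ _)
    simpa only [prod_insert ha] using hX.mul hZ

lemma mul_div_rpow {ρ r : ℝ} (hρ : 0 < ρ) (hr : 0 < r) (e : ℝ) : r ^ e * (ρ / r) ^ e = ρ ^ e := by
  rw [Real.div_rpow hρ.le hr.le]; field_simp

/-- supporting exponents -/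
theorem MM.sup (h : MM X β) : ∃ C, 1 ≤ C ∧ ∀ i r, 0 < r → ∃ e ∈ X, ∀ ρ, 0 < ρ →
    β i r * (ρ / r) ^ e ≤ C * β i ρ := by
  obtain ⟨C, hC, H⟩ := h
  refine ⟨C * C, one_le_mul_of_one_le_of_one_le hC hC, fun i r hr => ?_⟩
  obtain ⟨c, c0, H⟩ := H i
  obtain ⟨-, -, e, he, h3⟩ := H r hr
  refine ⟨e, he, fun ρ hρ => ?_⟩
  have h4 := (H ρ hρ).2.1 e he
  calc β i r * (ρ / r) ^ e ≤ C * (c e * r ^ e) * (ρ / r) ^ e :=
        mul_le_mul_of_nonneg_right h3 (by positivity)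
    _ = C * (c e * ρ ^ e) := by rw [← mul_div_rpow hρ hr e]; ring
    _ ≤ C * C * β i ρ := by rw [mul_assoc]; exact mul_le_mul_of_nonneg_left h4 (by linarith)

theorem MM.cmp (h : MM X β) (R : ℝ) : ∃ C, 1 ≤ C ∧ ∀ i ρ ρ', 0 < ρ → 0 < ρ' → ρ ≤ R * ρ' →
    ρ' ≤ R * ρ → β i ρ' ≤ C * β i ρ := by
  obtain ⟨C, hC, H⟩ := h.sup
  obtain ⟨L, hL, H'⟩ := pow_bdd X R
  refine ⟨C * L, one_le_mul_of_one_le_of_one_le hC hL, fun i ρ ρ' h0 h0' h1 h2 => ?_⟩
  obtain ⟨e, he, h3⟩ := H i ρ' h0'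
  have h4 := H' e he (ρ' / ρ) (by positivity) (by rw [← mul_div_assoc, le_div_iff₀ h0]; linarith)
    (by rwa [div_le_iff₀ h0])
  have h5 : (ρ / ρ') ^ e * (ρ' / ρ) ^ e = 1 := by
    rw [← Real.mul_rpow (by positivity) (by positivity), div_mul_div_cancel₀ h0'.ne', div_self h0.ne',
      Real.one_rpow]
  calc β i ρ' = β i ρ' * (ρ / ρ') ^ e * (ρ' / ρ) ^ e := by rw [mul_assoc, h5, mul_one]
    _ ≤ C * β i ρ * L := mul_le_mul (h3 ρ h0) h4 (by positivity)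
        (mul_nonneg (by linarith) (h.pos i h0).le)
    _ = _ := by ring

/-- lower growth with any exponent above all of `X` -/
theorem MM.top (h : MM X β) : ∃ C, 1 ≤ C ∧ ∀ e, (∀ f ∈ X, f ≤ e) → ∀ i r ρ, 0 < ρ → ρ ≤ r →
    β i r * (ρ / r) ^ e ≤ C * β i ρ := by
  obtain ⟨C, hC, H⟩ := h.sup
  refine ⟨C, hC, fun e he i r ρ h0 h1 => ?_⟩
  have hr := h0.trans_le h1
  obtain ⟨f, hf, h2⟩ := H i r hr
  refine le_trans (mul_le_mul_of_nonneg_left ?_ (h.pos i hr).le) (h2 ρ h0)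
  exact Real.rpow_le_rpow_of_exponent_ge (by positivity) (div_le_one_of_le₀ h1 hr.le) (he f hf)

/-- (M2) -/
theorem MM.drop (h : MM X β) (R : ℝ) : ∃ K C, 1 ≤ K ∧ 1 ≤ C ∧ ∀ i e σ τ, 0 < τ → τ ≤ σ →
    K * (β i σ * (τ / σ) ^ e) ≤ β i τ → (∃ f ∈ X, f < e) ∧ ∀ e', (∀ f ∈ X, f < e → f ≤ e') →
      ∀ r ρ, 0 < ρ → ρ ≤ r → r ≤ R * τ → β i r * (ρ / r) ^ e' ≤ C * β i ρ := by
  obtain ⟨C, hC, H⟩ := h.sup
  obtain ⟨C', hC', H'⟩ := h.cmp (max R 1)
  obtain ⟨L, hL, HL⟩ := pow_bdd X (max R 1)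
  have C0 : 0 < C := by linarith
  refine ⟨2 * C, C * C * C' * L, by linarith, ?_, fun i e σ τ h0 h1 h2 => ?_⟩
  · exact one_le_mul_of_one_le_of_one_le (one_le_mul_of_one_le_of_one_le
      (one_le_mul_of_one_le_of_one_le hC hC) hC') hL
  have σ0 := h0.trans_le h1
  obtain ⟨f, hf, h3⟩ := H i τ h0
  have hfe : f < e := by
    by_contra hn
    have h4 := h3 σ σ0
    have h5 : (σ / τ) ^ e ≤ (σ / τ) ^ f :=
      Real.rpow_le_rpow_of_exponent_le ((one_le_div h0).2 h1) (not_lt.1 hn)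
    have h6 : (τ / σ) ^ e * (σ / τ) ^ e = 1 := by
      rw [← Real.mul_rpow (by positivity) (by positivity), div_mul_div_cancel₀ σ0.ne',
        div_self h0.ne', Real.one_rpow]
    have h7 := mul_le_mul h2 h5 (by positivity) (h.pos i h0).le
    have h8 : 2 * C * (β i σ * (τ / σ) ^ e) * (σ / τ) ^ e = 2 * C * β i σ := by
      rw [mul_assoc, mul_assoc (β i σ), h6, mul_one]
    have := mul_pos C0 (h.pos i σ0)
    linarith
  refine ⟨⟨f, hf, hfe⟩, fun e' he' r ρ ρ0 h4 h5 => ?_⟩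
  have r0 := ρ0.trans_le h4
  have hb : ∀ {t : ℝ}, 0 < t → 0 < β i t := fun ht => h.pos i ht
  have q1 : ρ / r ≤ 1 := div_le_one_of_le₀ h4 r0.le
  have h6 : (ρ / r) ^ e' ≤ (ρ / r) ^ f :=
    Real.rpow_le_rpow_of_exponent_ge (by positivity) q1 (he' f hf hfe)
  have hCL : 1 ≤ C' * L := one_le_mul_of_one_le_of_one_le hC' hL
  rcases le_total τ r with h7 | h7
  · have m1 : 1 ≤ max R 1 := le_max_right _ _
    have h8 : r ≤ max R 1 * τ := h5.trans (mul_le_mul_of_nonneg_right (le_max_left _ _) h0.le)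
    have h9 := H' i τ r h0 r0 (by nlinarith) h8
    have h10 := HL f hf (τ / r) (by positivity) (by rw [← mul_div_assoc, le_div_iff₀ r0]; linarith)
      ((div_le_one_of_le₀ h7 r0.le).trans m1)
    have h11 : (ρ / r) ^ f = (ρ / τ) ^ f * (τ / r) ^ f := by
      rw [← Real.mul_rpow (by positivity) (by positivity), div_mul_div_cancel₀ h0.ne']
    calc β i r * (ρ / r) ^ e' ≤ C' * β i τ * ((ρ / τ) ^ f * L) := by
          refine mul_le_mul h9 (h6.trans ?_) (by positivity) (mul_pos (by linarith) (hb h0)).le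
          rw [h11]; exact mul_le_mul_of_nonneg_left h10 (by positivity)
      _ = C' * L * (β i τ * (ρ / τ) ^ f) := by ring
      _ ≤ C' * L * (C * β i ρ) := mul_le_mul_of_nonneg_left (h3 ρ ρ0) (by linarith)
      _ ≤ _ := by
          have := mul_pos (mul_pos C0 (by linarith : 0 < C' * L)) (hb ρ0)
          nlinarith
  · obtain ⟨g, hg, h8⟩ := H i r r0
    have key : β i r * (ρ / r) ^ e' ≤ C * C * β i ρ := by
      rcases lt_or_ge g e with h9 | h9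
      · have h10 : (ρ / r) ^ e' ≤ (ρ / r) ^ g :=
          Real.rpow_le_rpow_of_exponent_ge (by positivity) q1 (he' g hg h9)
        have h11 := (mul_le_mul_of_nonneg_left h10 (hb r0).le).trans (h8 ρ ρ0)
        have := mul_pos C0 (hb ρ0)
        nlinarith
      · have h10 : (τ / r) ^ f ≤ (τ / r) ^ g :=
          Real.rpow_le_rpow_of_exponent_le ((one_le_div r0).2 h7) (by linarith)
        have h11 : (ρ / r) ^ f = (τ / r) ^ f * (ρ / τ) ^ f := by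
          rw [← Real.mul_rpow (by positivity) (by positivity), mul_comm,
            div_mul_div_cancel₀ h0.ne']
        calc β i r * (ρ / r) ^ e' ≤ β i r * ((τ / r) ^ g * (ρ / τ) ^ f) := by
              refine mul_le_mul_of_nonneg_left (h6.trans ?_) (hb r0).le
              rw [h11]; exact mul_le_mul_of_nonneg_right h10 (by positivity)
          _ ≤ C * β i τ * (ρ / τ) ^ f := by
              rw [← mul_assoc]; exact mul_le_mul_of_nonneg_right (h8 τ h0) (by positivity)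
          _ ≤ C * C * β i ρ := by
              rw [mul_assoc, mul_assoc]; exact mul_le_mul_of_nonneg_left (h3 ρ ρ0) C0.le
    have := mul_pos (mul_pos C0 C0) (hb ρ0)
    nlinarith

end Pool.Agent.CA9.UB
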