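import Pool.Agent.Lib.MP_ca9be0_an.UB.La0

/-! Interpolation on a grid, stability of roots, dominant terms. -/

namespace Pool.Agent.CA9.UB

open Finset Polynomial

theorem gv_nonneg (G : ℕ) (b : Fin (G + 1)) : 0 ≤ gv G b := by
  unfold gv
  positivity

theorem gv_le (G : ℕ) (b : Fin (G + 1)) : gv G b ≤ 1 :=
  div_le_one_of_le₀ (by exact_mod_cast Nat.lt_succ_iff.1 b.2) (Nat.cast_nonneg _)

theorem gv_sep {G : ℕ} {b b' : Fin (G + 1)} (h : b ≠ b') : 1 ≤ G * |gv G b - gv G b'| := by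
  have hG : (G : ℝ) ≠ 0 := by
    rintro h0
    obtain rfl : G = 0 := by exact_mod_cast h0
    exact h (Subsingleton.elim (α := Fin 1) _ _)
  have h1 : (G : ℝ) * |gv G b - gv G b'| = |(((b : ℕ) : ℤ) - ((b' : ℕ) : ℤ) : ℤ)| := by
    rw [gv, gv, ← sub_div, abs_div, Nat.abs_cast, mul_div_cancel₀ _ hG]
    push_cast
    rfl
  rw [h1]
  have h2 : (((b : ℕ) : ℤ) - ((b' : ℕ) : ℤ) : ℤ) ≠ 0 :=
    sub_ne_zero.2 fun e => h (Fin.ext (Nat.cast_injective e))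
  exact Int.cast_one.symm.trans_le (Int.cast_le.2 (Int.one_le_abs h2))

theorem gv_inj (G : ℕ) : Function.Injective (gv G) := fun b b' h => by
  by_contra k
  have := gv_sep k
  rw [h, sub_self, abs_zero, mul_zero] at this
  linarith

theorem grid_vec (𝕜 : Type) [RCLike 𝕜] (n G : ℕ) : ∃ K : ℝ, 0 < K ∧
    ∀ S : Finset (Fin (G + 1)), n ≤ S.card → ∀ (w : Fin n → 𝕜) (m : ℝ), 0 ≤ m →
      (∀ b ∈ S, ‖∑ i : Fin n, (gv G b : 𝕜) ^ (i : ℕ) * w i‖ ≤ m) → ‖w‖ ≤ K * m := by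
  have h : ∀ φ : Fin n ↪ Fin (G + 1), ∃ K : ℝ, 0 ≤ K ∧ ∀ w : Fin n → 𝕜,
      ‖w‖ ≤ K * ‖fun j => ∑ i : Fin n, (gv G (φ j) : 𝕜) ^ (i : ℕ) * w i‖ := fun φ => by
    obtain ⟨K, -, hK⟩ := (Matrix.vandermonde fun j => (gv G (φ j) : 𝕜)).mulVecLin
      |>.exists_antilipschitzWith (LinearMap.ker_eq_bot'.2 fun w hw =>
        Matrix.eq_zero_of_forall_index_sum_pow_mul_eq_zero
          (RCLike.ofReal_injective.comp ((gv_inj G).comp φ.injective)) fun j => congrFun hw j)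
    exact ⟨K, K.2, fun w => ZeroHomClass.bound_of_antilipschitz _ hK w⟩
  choose K K0 hK using h
  have s0 : 0 ≤ ∑ φ, K φ := sum_nonneg fun φ _ => K0 φ
  refine ⟨∑ φ, K φ + 1, by linarith, fun S hS w m hm hw => ?_⟩
  let φ := (S.orderEmbOfCardLe hS).toEmbedding
  refine (hK φ w).trans (mul_le_mul ?_ ?_ (norm_nonneg _) (by linarith))
  · linarith [single_le_sum (fun φ _ => K0 φ) (mem_univ φ)]
  · exact (pi_norm_le_iff_of_nonneg hm).2 fun j => hw _ (S.orderEmbOfCardLe_mem hS j)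

theorem grid_coef (𝕜 : Type) [RCLike 𝕜] (e G : ℕ) : ∃ K : ℝ, 0 < K ∧
    ∀ S : Finset (Fin (G + 1)), e < S.card → ∀ (p : 𝕜[X]) (m : ℝ), p.natDegree ≤ e → 0 ≤ m →
      (∀ b ∈ S, ‖p.eval (gv G b : 𝕜)‖ ≤ m) → ∀ i, ‖p.coeff i‖ ≤ K * m := by
  obtain ⟨K, K0, hK⟩ := grid_vec 𝕜 (e + 1) G
  refine ⟨K, K0, fun S hS p m hp hm h i => ?_⟩
  rcases le_or_gt i e with hi | hi
  · refine (norm_le_pi_norm (fun j : Fin (e + 1) => p.coeff j) ⟨i, Nat.lt_succ_of_le hi⟩).trans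
      (hK S hS _ m hm fun b hb => ?_)
    have := h b hb
    rw [eval_eq_sum_range' (Nat.lt_succ_of_le hp), Finset.sum_range] at this
    simpa only [mul_comm] using this
  · rw [coeff_eq_zero_of_natDegree_lt (hp.trans_lt hi), norm_zero]
    positivity

theorem exists_dir (n Q : ℕ) : ∃ η : ℝ, 0 < η ∧ ∀ Gs : Finset (Fin n → ℂ), Gs.card ≤ Q →
    ∃ a : ℝ, 0 ≤ a ∧ a ≤ 1 ∧ ∀ w ∈ Gs, η * ‖w‖ ≤ ‖∑ i : Fin n, (a : ℂ) ^ (i : ℕ) * w i‖ := by
  classical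
  obtain ⟨K, K0, hK⟩ := grid_vec ℂ n (Q * n)
  refine ⟨1 / (2 * K), by positivity, fun Gs hG => ?_⟩
  let bad : (Fin n → ℂ) → Finset (Fin (Q * n + 1)) := fun w => univ.filter fun b =>
    ‖∑ i : Fin n, (gv (Q * n) b : ℂ) ^ (i : ℕ) * w i‖ < 1 / (2 * K) * ‖w‖
  have h1 : ∀ w, (bad w).card ≤ n := fun w => by
    by_contra k
    push Not at k
    have h2 := hK (bad w) k.le w (1 / (2 * K) * ‖w‖) (by positivity)
      fun b hb => (mem_filter.1 hb).2.le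
    obtain ⟨b, hb⟩ := card_pos.1 (Nat.zero_lt_of_lt k)
    have h3 := (norm_nonneg _).trans_lt (mem_filter.1 hb).2
    have h4 : K * (1 / (2 * K) * ‖w‖) = ‖w‖ / 2 := by field_simp
    have h5 : 0 < ‖w‖ := (mul_pos_iff_of_pos_left (by positivity)).1 h3
    linarith
  have h2 : (Gs.biUnion bad).card < (univ : Finset (Fin (Q * n + 1))).card := by
    rw [card_univ, Fintype.card_fin]
    exact Nat.lt_succ_of_le ((card_biUnion_le_card_mul _ _ _ fun w _ => h1 w).trans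
      (Nat.mul_le_mul_right _ hG))
  obtain ⟨b, -, hb⟩ := exists_mem_notMem_of_card_lt_card h2
  refine ⟨_, gv_nonneg _ b, gv_le _ b, fun w hw => not_lt.1 fun k => hb ?_⟩
  exact mem_biUnion.2 ⟨w, hw, mem_filter.2 ⟨mem_univ _, k⟩⟩

/-- the vector of coefficients -/
noncomputable def nv (e : ℕ) : ℝ[X] →ₗ[ℝ] Fin (e + 1) → ℝ := LinearMap.pi fun i => lcoeff ℝ i

theorem nv_apply (e : ℕ) (p : ℝ[X]) (i : Fin (e + 1)) : nv e p i = p.coeff i := rfl

theorem root_near (e : ℕ) {c : ℝ} (hc : 0 < c) : ∃ R : ℝ, 1 ≤ R ∧ ∀ η : ℝ, 0 < η → ∃ δ : ℝ, 0 < δ ∧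
    ∀ P q : ℝ[X], Top c e P → q.natDegree ≤ e → ‖nv e (P - q)‖ ≤ δ * ‖nv e q‖ →
      ∀ β : ℂ, aeval β P = 0 → ‖β‖ ≤ R ∧ ∃ β' ∈ q.aroots ℂ, ‖β - β'‖ ≤ η := by
  obtain ⟨K, K0, hK⟩ := grid_coef ℝ e e
  set K1 := K / c with hK1
  have K10 : 0 < K1 := by positivity
  refine ⟨K1 + 1, by linarith, fun η hη => ?_⟩
  set A := 4 * K1 * ((e + 1) * (K1 + 1) ^ e) with hA
  have A0 : 0 < A := by positivity
  refine ⟨min (min (1 / 2) (1 / (4 * K1))) (η ^ e / (2 * A)), by positivity,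
    fun P q ⟨h1, h2, h3⟩ hq hd β hβ => ?_⟩
  set δ := min (min (1 / 2) (1 / (4 * K1))) (η ^ e / (2 * A)) with hδ
  have δ0 : 0 < δ := by positivity
  have δ1 : δ ≤ 1 / 2 := (min_le_left _ _).trans (min_le_left _ _)
  have δ2 : δ * (4 * K1) ≤ 1 :=
    (le_div_iff₀ (by positivity)).1 ((min_le_left _ _).trans (min_le_right _ _))
  have δ3 : δ * (2 * A) ≤ η ^ e := (le_div_iff₀ (by positivity)).1 (min_le_right _ _)
  set T := P.coeff e
  have c1 : ∀ i, ‖P.coeff i‖ ≤ K1 * T := fun i => by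
    have := hK univ (by simp) P (T / c) h1 (by positivity) (fun b _ => by
      rw [le_div_iff₀' hc]
      exact h3 _ (gv_nonneg _ b) (gv_le _ b)) i
    rwa [← mul_div_assoc, mul_div_right_comm] at this
  have c2 : ‖nv e P‖ ≤ K1 * T := (pi_norm_le_iff_of_nonneg (by positivity)).2 fun i => c1 i
  have c3 : ‖nv e q‖ ≤ 2 * (K1 * T) := by
    have := norm_sub_le (nv e P) (nv e (P - q))
    rw [← map_sub, sub_sub_cancel] at this
    nlinarith [norm_nonneg (nv e q)]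
  have c4 : ∀ i : Fin (e + 1), ‖(P - q).coeff i‖ ≤ δ * (2 * (K1 * T)) := fun i =>
    (norm_le_pi_norm (nv e (P - q)) i).trans (hd.trans (by gcongr))
  have c5 : T / 2 ≤ q.coeff e := by
    have := (abs_le.1 (c4 (Fin.last e))).2
    rw [coeff_sub, Fin.val_last] at this
    nlinarith
  have dP : P.natDegree = e := le_antisymm h1 (le_natDegree_of_ne_zero h2.ne')
  have dq : q.natDegree = e := le_antisymm hq (le_natDegree_of_ne_zero (by linarith))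
  have hR : ‖β‖ ≤ K1 + 1 := by
    have p0 : P.map (algebraMap ℝ ℂ) ≠ 0 := map_ne_zero fun k => h2.ne' (by simp [T, k])
    have := IsRoot.norm_lt_cauchyBound p0 (a := β) (by simpa using hβ)
    rw [cauchyBound, leadingCoeff_map, leadingCoeff, dP] at this
    refine le_trans (NNReal.coe_le_coe.2 this.le) ?_
    push_cast
    rw [norm_algebraMap', Real.norm_of_nonneg h2.le, add_le_add_iff_right, div_le_iff₀ h2]
    have : (range (P.map (algebraMap ℝ ℂ)).natDegree).sup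
        (fun i => ‖(P.map (algebraMap ℝ ℂ)).coeff i‖₊) ≤ NNReal.mk (K1 * T) (by positivity) :=
      Finset.sup_le fun i _ => by
        rw [← NNReal.coe_le_coe, coe_nnnorm, coeff_map, norm_algebraMap']
        exact c1 i
    exact_mod_cast this
  refine ⟨hR, ?_⟩
  by_contra k
  push Not at k
  have u1 : ‖aeval β (P - q)‖ ≤ (e + 1) * (δ * (2 * (K1 * T)) * (K1 + 1) ^ e) := by
    rw [aeval_eq_sum_range' (n := e + 1)
      (Nat.lt_succ_of_le ((natDegree_sub_le _ _).trans (max_le h1 hq))), Finset.sum_range]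
    refine (norm_sum_le _ _).trans ((sum_le_card_nsmul _ _ _ fun i _ => ?_).trans
      (by rw [card_univ, Fintype.card_fin, nsmul_eq_mul, Nat.cast_succ]))
    rw [norm_smul, norm_pow]
    exact mul_le_mul (c4 i) ((pow_le_pow_left₀ (norm_nonneg _) hR _).trans
      (pow_le_pow_right₀ (by linarith) (Nat.lt_succ_iff.1 i.2))) (by positivity) (by positivity)
  have u2 : T / 2 * η ^ e ≤ ‖aeval β (P - q)‖ := by
    rw [map_sub, hβ, zero_sub, norm_neg, ← eval_map_algebraMap,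
      (IsAlgClosed.splits _).eval_eq_prod_roots, norm_mul, leadingCoeff_map, leadingCoeff, dq,
      norm_algebraMap']
    refine mul_le_mul (c5.trans (le_abs_self _)) ?_ (by positivity) (norm_nonneg _)
    have := Multiset.prod_map_le_prod_map₀ (s := q.aroots ℂ) (fun _ => η) (fun b => ‖β - b‖)
      (fun _ _ => hη.le) fun b hb => (k b hb).le
    rw [Multiset.map_const', Multiset.prod_replicate, IsAlgClosed.card_aroots_eq_natDegree,
      dq] at this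
    refine this.trans_eq ?_
    exact ((q.aroots ℂ).prod_hom' (NormedField.toMulRingNorm ℂ) fun x => β - x)
  have u3 : (e + 1) * (δ * (2 * (K1 * T)) * (K1 + 1) ^ e) = T / 4 * (δ * (2 * A)) := by
    rw [hA]
    ring
  have u4 : T / 4 * (δ * (2 * A)) ≤ T / 4 * η ^ e := by gcongr
  have u5 : 0 < T * η ^ e := by positivity
  linarith

theorem dom_term (Ex : Finset ℝ) {δ : ℝ} (hδ : 0 < δ) : ∃ b : ℝ, 0 < b ∧ ∀ N : ℝ → ℝ, (∀ x, 0 ≤ N x) →
    ∃ Cr : Finset ℝ, Cr.card ≤ Ex.card ^ 2 ∧ ∀ ρ : ℝ, 0 < ρ → (∀ c ∈ Cr, b ≤ |Real.log ρ - c|) →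
      Ex.Nonempty → ∃ x ∈ Ex, ∀ y ∈ Ex, y ≠ x → ρ ^ y * N y ≤ δ * (ρ ^ x * N x) := by
  classical
  have t0 : ∀ z : ℝ × ℝ, 0 ≤ |Real.log δ| / |z.1 - z.2| := fun z => by positivity
  have s0 : 0 ≤ ∑ z ∈ Ex ×ˢ Ex, |Real.log δ| / |z.1 - z.2| := sum_nonneg fun z _ => t0 z
  refine ⟨∑ z ∈ Ex ×ˢ Ex, |Real.log δ| / |z.1 - z.2| + 1, by linarith, fun N hN =>
    ⟨(Ex ×ˢ Ex).image fun z => (Real.log (N z.2) - Real.log (N z.1)) / (z.1 - z.2),
      card_image_le.trans (by rw [card_product, sq]), fun ρ hρ h hne => ?_⟩⟩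
  obtain ⟨x, hx, hm⟩ := exists_max_image Ex (fun x => ρ ^ x * N x) hne
  refine ⟨x, hx, fun y hy hyx => ?_⟩
  have r0 : ∀ x : ℝ, 0 < ρ ^ x := Real.rpow_pos_of_pos hρ
  rcases (hN y).eq_or_lt with h0 | h0
  · rw [← h0, mul_zero]
    exact mul_nonneg hδ.le (mul_nonneg (r0 x).le (hN x))
  have py : 0 < ρ ^ y * N y := mul_pos (r0 y) h0
  have px : 0 < ρ ^ x * N x := py.trans_le (hm y hy)
  have nx : 0 < N x := (mul_pos_iff_of_pos_left (r0 x)).1 px
  have xy : x - y ≠ 0 := sub_ne_zero.2 hyx.symm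
  have mem : (x, y) ∈ Ex ×ˢ Ex := mem_product.2 ⟨hx, hy⟩
  have h1 := h _ (mem_image_of_mem _ mem)
  have h2 := single_le_sum (fun z _ => t0 z) mem
  have h3 : |Real.log δ| ≤ |Real.log (ρ ^ x * N x) - Real.log (ρ ^ y * N y)| := by
    have e : Real.log (ρ ^ x * N x) - Real.log (ρ ^ y * N y) =
        (Real.log ρ - (Real.log (N y) - Real.log (N x)) / (x - y)) * (x - y) := by
      rw [Real.log_mul (r0 x).ne' nx.ne', Real.log_mul (r0 y).ne' h0.ne', Real.log_rpow hρ,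
        Real.log_rpow hρ]
      field_simp
      ring
    rw [e, abs_mul, ← div_le_iff₀ (abs_pos.2 xy)]
    dsimp only at h1 h2
    linarith
  rw [abs_of_nonneg (sub_nonneg.2 (Real.log_le_log py (hm y hy)))] at h3
  rw [← Real.log_le_log_iff py (mul_pos hδ px), Real.log_mul hδ.ne' px.ne']
  linarith [neg_abs_le (Real.log δ)]

theorem off_cross (q : ℕ) {b : ℝ} (hb : 0 < b) : ∃ B : ℝ, 1 ≤ B ∧ ∀ Cr : Finset ℝ, Cr.card ≤ q →
    ∀ ρ : ℝ, 0 < ρ → ∃ ρ' : ℝ, ρ ≤ ρ' ∧ ρ' ≤ B * ρ ∧ ∀ c ∈ Cr, b ≤ |Real.log ρ' - c| := by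
  refine ⟨Real.exp (2 * b * q), Real.one_le_exp (by positivity), fun Cr hC ρ hρ => ?_⟩
  obtain ⟨j, hj, h⟩ : ∃ j ∈ range (q + 1), ∀ c ∈ Cr, b ≤ |2 * b * j + Real.log ρ - c| := by
    by_contra k
    push Not at k
    choose! f f1 f2 using k
    obtain ⟨i, hi, j, hj, hne, he⟩ := exists_ne_map_eq_of_card_lt_of_maps_to
      (by rw [card_range]; omega) f1
    have h1 := abs_lt.1 (f2 i hi)
    have h2 := abs_lt.1 (f2 j hj)
    rw [he] at h1
    rcases lt_or_gt_of_ne hne with l | l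
    · have : (i : ℝ) + 1 ≤ j := by exact_mod_cast l
      nlinarith
    · have : (j : ℝ) + 1 ≤ i := by exact_mod_cast l
      nlinarith
  refine ⟨Real.exp (2 * b * j) * ρ, le_mul_of_one_le_left hρ.le (Real.one_le_exp (by positivity)),
    ?_, fun c hc => ?_⟩
  · have : (j : ℝ) ≤ q := by exact_mod_cast Nat.lt_succ_iff.1 (mem_range.1 hj)
    gcongr
  · rw [Real.log_mul (Real.exp_pos _).ne' hρ.ne', Real.log_exp]
    exact h c hc

end Pool.Agent.CA9.UB
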