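import Pool.Agent.Lib.MP_ca9be0_an.UB.M2

/-! Gauges along the jets: comparability and the max-monomial type. -/

namespace Pool.Agent.CA9.UB

open Finset Matrix Pool.Agent.Lib.MP_ca9be0_an.PyF

variable {N n k j M m d e e' : ℕ} {s : ℝ} {G : Gg M N j}

theorem IsGauge.lipv' (H : Hs d s) (h : IsGauge d e G) (g : Fin M → CF N d s) : ∃ C, 0 < C ∧
    ∀ x x' ρ γ v, 0 < ρ → γ ≤ 1 → ‖x - x'‖ ≤ γ * ρ → ‖v‖ ≤ 1 →
      G (nj g x ρ) 0 v ≤ C * (G (nj g x' ρ) 0 v + γ * fb G g x ρ) := by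
  obtain ⟨C, C0, hC⟩ := h.move' H g 1 le_rfl
  have hK := KL_pos e
  refine ⟨C + KL e, by positivity, fun x x' ρ γ v h0 h1 h2 hv => ?_⟩
  have γ0 : 0 ≤ γ := by by_contra hn; nlinarith [norm_nonneg (x - x')]
  have h3 := hC x' x ρ ρ x' v h0 (by rw [norm_sub_rev]; nlinarith) (by linarith) (by linarith)
    (by simp [h0.le]) hv
  rw [sub_self, smul_zero] at h3
  have h4 : ‖ρ⁻¹ • (x' - x)‖ ≤ γ := by
    rwa [norm_smul, norm_inv, Real.norm_of_nonneg h0.le, inv_mul_le_iff₀ h0, norm_sub_rev, mul_comm]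
  have h5 := (h.lp (nj_PV' g x ρ)).lip (h.abs_le_gb (nj_PV' g x ρ)) (x := (0, v))
    (y := (ρ⁻¹ • (x' - x), v)) (by simp [Prod.norm_def, hv])
    (by rw [Prod.norm_def]; exact max_le (h4.trans h1) hv)
  have h6 : ‖((0 : E N), v) - (ρ⁻¹ • (x' - x), v)‖ ≤ γ := by
    rw [Prod.mk_sub_mk, Prod.norm_def, sub_self, zero_sub]
    exact max_le (by rwa [norm_neg]) (by simpa using γ0)
  have b0 : 0 ≤ fb G g x ρ := h.gb_nn (nj_PV' g x ρ)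
  have h7 := (le_abs_self _).trans (h5.trans (mul_le_mul_of_nonneg_left h6 (mul_nonneg hK.le b0)))
  have h8 := mul_nonneg hK.le (h.nn (nj g x' ρ) 0 v)
  have h9 := mul_nonneg C0.le (mul_nonneg γ0 b0)
  simp only [fb] at *
  nlinarith

theorem IsGauge.cb' (H : Hs d s) (h : IsGauge d e G) (g : Fin M → CF N d s) : Cb (fb G g) := by
  intro R hR
  obtain ⟨C, C0, hC⟩ := h.move' H g (2 * R) (by linarith)
  obtain ⟨K, K0, hK⟩ := h.grow' (2 * R)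
  refine ⟨C * K, mul_pos C0 K0, fun x x' ρ ρ' h0 h1 h2 h3 => gb_le' fun u v hu hv => ?_⟩
  have h0' : 0 < ρ' := by by_contra hn; nlinarith
  have h4 : ‖x' + ρ' • u - x‖ ≤ 2 * R * ρ := by
    have := norm_sub_le_norm_sub_add_norm_sub (x' + ρ' • u) x' x
    rw [norm_sub_rev x' x, add_sub_cancel_left, norm_smul, Real.norm_of_nonneg h0'.le] at this
    nlinarith
  have h5 := hC x x' ρ ρ' (x' + ρ' • u) v h0 (by nlinarith) (by nlinarith) (by nlinarith) h4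
    (by linarith)
  rw [add_sub_cancel_left, smul_smul, inv_mul_cancel₀ h0'.ne', one_smul] at h5
  rw [mul_assoc]
  refine h5.trans (mul_le_mul_of_nonneg_left ((hK _ (nj_PV' g x ρ) _ v (by linarith)).2 ?_) C0.le)
  rwa [norm_smul, norm_inv, Real.norm_of_nonneg h0.le, inv_mul_le_iff₀ h0, mul_comm]

/-- change of the scale at the centre, fixed directions -/
theorem IsGauge.cv (H : Hs d s) (h : IsGauge d e G) (g : Fin M → CF N d s) (R : ℝ) (hR : 1 ≤ R) :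
    ∃ C, 0 < C ∧ ∀ x ρ ρ' v, 0 < ρ → ρ ≤ R * ρ' → ρ' ≤ R * ρ → ‖v‖ ≤ R →
      G (nj g x ρ') 0 v ≤ C * G (nj g x ρ) 0 v := by
  obtain ⟨C, C0, hC⟩ := h.move' H g R hR
  refine ⟨C, C0, fun x ρ ρ' v h0 h2 h3 hv => ?_⟩
  have h1 : ‖x - x‖ ≤ R * ρ := by rw [sub_self, norm_zero]; positivity
  simpa using hC x x ρ ρ' x v h0 h1 h2 h3 h1 hv

theorem IsGauge.ca (H : Hs d s) (h : IsGauge d e G) (g : Fin M → CF N d s) (R : ℝ) (hR : 1 ≤ R) :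
    ∃ C, 0 < C ∧ ∀ x ρ ρ', 0 < ρ → ρ ≤ R * ρ' → ρ' ≤ R * ρ → fa G g x ρ' ≤ C * fa G g x ρ := by
  obtain ⟨C, C0, hC⟩ := h.cv H g R hR
  exact ⟨C, C0, fun x ρ ρ' h0 h2 h3 => gaAt_le' fun v hv => (hC x ρ ρ' v h0 h2 h3 (hv.trans hR)).trans
    (mul_le_mul_of_nonneg_left (h.le_gaAt' (nj_PV' g x ρ) 0 hv) C0.le)⟩

lemma Pd_two (s : ℝ) (D : ℕ) : ∃ X : Finset ℝ, ∀ p ∈ Pd 2 D, ∃ c : ℝ → ℝ, ∀ ρ : ℝ, 0 < ρ →
    p !₂[ρ ^ (-s), ρ] = ∑ f ∈ X, c f * ρ ^ f := by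
  classical
  refine ⟨(range (D + 1) ×ˢ range (D + 1)).image fun q : ℕ × ℕ => -s * q.1 + q.2, fun p hp => ?_⟩
  obtain ⟨q, hq, h⟩ := exists_mv hp
  refine ⟨fun f => ∑ μ ∈ q.support with -s * μ 0 + μ 1 = f, q.coeff μ, fun ρ h0 => ?_⟩
  have hm : ∀ μ ∈ q.support, -s * (μ 0 : ℝ) + μ 1 ∈
      (range (D + 1) ×ˢ range (D + 1)).image fun q : ℕ × ℕ => -s * q.1 + q.2 := fun μ hμ => by
    have h1 : ∀ i, μ i ∈ range (D + 1) := fun i => mem_range.2 (Nat.lt_succ_of_le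
      (((MvPolynomial.monomial_le_degreeOf i hμ).trans (MvPolynomial.degreeOf_le_totalDegree q i)).trans hq))
    exact mem_image.2 ⟨(μ 0, μ 1), mem_product.2 ⟨h1 0, h1 1⟩, rfl⟩
  rw [← h, MvPolynomial.eval_eq', ← sum_fiberwise_of_maps_to hm]
  refine sum_congr rfl fun f _ => ?_
  rw [sum_mul]
  refine sum_congr rfl fun μ hμ => ?_
  rw [← (mem_filter.1 hμ).2, Real.rpow_add h0, Real.rpow_mul h0.le, Real.rpow_natCast,
    Real.rpow_natCast]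
  simp [Fin.prod_univ_two]

/-- the gauge along the jets is a generalised polynomial in the scale -/
theorem IsGauge.gp (h : IsGauge d e G) (g : Fin M → CF N d s) : ∃ X : Finset ℝ, ∀ x u v,
    ∃ c : ℝ → ℝ, ∀ ρ : ℝ, 0 < ρ → G (nj g x ρ) u v = ∑ f ∈ X, c f * ρ ^ f := by
  obtain ⟨X, hX⟩ := Pd_two s (e * (1 + d))
  refine ⟨X, fun x u v => ?_⟩
  obtain ⟨c, hc⟩ := hX _ (h.poly 2 (1 + d) (fun θ w y => θ 0 * (g w).P x (x + θ 1 • y))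
    (fun _ => u) (fun _ => v) (fun θ w => Pd_smul _ (Pd_affine ((g w).mem x) x _))
    (fun w y => Pd_mul (gen_mem (some 0)) (Pd_comp1 (S := fun θ : E 2 => x + θ 1 • y) ((g w).mem x)
      fun i => by simpa using line_mem (x i) (y i) 1))
    (fun i => const_mem _ _) fun l i => const_mem _ _)
  refine ⟨c, fun ρ h0 => ?_⟩
  rw [← hc ρ h0]
  congr 1
  funext w y
  simp [nj, scl, Real.rpow_neg h0.le, div_eq_inv_mul]

/-- bounds on the single terms -/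
lemma gp_core (X : Finset ℝ) : ∃ K : ℝ, 0 < K ∧ ∀ {I : Type} [Nonempty I] (Γ : ℝ → I → ℝ)
    (β : ℝ → ℝ), (∀ q, ∃ c : ℝ → ℝ, ∀ ρ : ℝ, 0 < ρ → Γ ρ q = ∑ f ∈ X, c f * ρ ^ f) →
    (∀ ρ t q, 0 < ρ → 1 / 2 ≤ t → t ≤ 1 → |Γ (t * ρ) q| ≤ β ρ) →
    ∃ (p : I → ℝ → ℝ) (c : ℝ → ℝ), (∀ f, 0 ≤ c f) ∧
      (∀ q ρ, 0 < ρ → Γ ρ q = ∑ f ∈ X, p q f * ρ ^ f) ∧ (∀ q, ∀ f ∈ X, |p q f| ≤ c f) ∧
      ∀ ρ, 0 < ρ → ∀ f ∈ X, c f * ρ ^ f ≤ K * β ρ := by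
  obtain ⟨K, K0, hK⟩ := pow_indep X (1 / 2) (by norm_num) (by norm_num)
  refine ⟨K, K0, fun Γ β hp hb => ?_⟩
  choose p hp using hp
  have key : ∀ q ρ, 0 < ρ → ∀ f ∈ X, |p q f| * ρ ^ f ≤ K * β ρ := fun q ρ h0 f hf => by
    have h1 := hK (fun f => p q f * ρ ^ f) (β ρ) (fun t h1 h2 => by
      have t0 : 0 < t := by linarith
      have h3 := hb ρ t q h0 h1 h2
      rw [hp q _ (mul_pos t0 h0)] at h3
      refine le_of_eq_of_le ?_ h3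
      congr 1
      exact sum_congr rfl fun f _ => by rw [Real.mul_rpow t0.le h0.le]; ring) f hf
    rwa [abs_mul, abs_of_pos (Real.rpow_pos_of_pos h0 f)] at h1
  refine ⟨p, fun f => ⨆ q, |p q f|, fun f => Real.iSup_nonneg fun q => abs_nonneg _, hp,
    fun q f hf => le_ciSup (f := fun q => |p q f|) ⟨K * β 1, ?_⟩ q, fun ρ h0 f hf => ?_⟩
  · rintro _ ⟨q, rfl⟩
    simpa using key q 1 one_pos f hf
  · rw [← le_div_iff₀ (Real.rpow_pos_of_pos h0 f)]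
    exact ciSup_le fun q => (le_div_iff₀ (Real.rpow_pos_of_pos h0 f)).2 (key q ρ h0 f hf)

lemma mm_of_gp {ι I : Type} [Nonempty I] (X : Finset ℝ) (Γ : ι → ℝ → I → ℝ) (β : ι → ℝ → ℝ)
    {C : ℝ} (hp : ∀ i q, ∃ c : ℝ → ℝ, ∀ ρ : ℝ, 0 < ρ → Γ i ρ q = ∑ f ∈ X, c f * ρ ^ f)
    (hb : ∀ i ρ t q, 0 < ρ → 1 / 2 ≤ t → t ≤ 1 → |Γ i (t * ρ) q| ≤ C * β i ρ)
    (hs : ∀ i ρ a, 0 < ρ → (∀ q, Γ i ρ q ≤ a) → β i ρ ≤ a) (h0 : ∀ i ρ, 0 < ρ → 0 < β i ρ) :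
    MM X β := by
  obtain ⟨K, K0, hK⟩ := gp_core X
  have n0 : (0 : ℝ) ≤ X.card := Nat.cast_nonneg _
  have k0 : 0 ≤ K * |C| := by positivity
  refine ⟨1 + K * |C| + X.card, by linarith, fun i => ?_⟩
  obtain ⟨p, c, c0, h1, h2, h3⟩ := hK (Γ i) (fun ρ => C * β i ρ) (hp i) (hb i)
  refine ⟨c, c0, fun ρ hρ => ⟨h0 i ρ hρ, fun f hf => (h3 ρ hρ f hf).trans ?_, ?_⟩⟩
  · rw [← mul_assoc]
    refine mul_le_mul_of_nonneg_right ?_ (h0 i ρ hρ).le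
    linarith [mul_le_mul_of_nonneg_left (le_abs_self C) K0.le]
  · have h4 : β i ρ ≤ ∑ f ∈ X, c f * ρ ^ f := hs i ρ _ hρ fun q => by
      rw [h1 q ρ hρ]
      exact sum_le_sum fun f hf => mul_le_mul_of_nonneg_right ((le_abs_self _).trans (h2 q f hf))
        (Real.rpow_pos_of_pos hρ f).le
    have h5 : X.Nonempty := by
      rw [nonempty_iff_ne_empty]
      rintro rfl
      exact absurd (h0 i ρ hρ) (not_lt.2 (by simpa using h4))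
    obtain ⟨f, hf, h6⟩ := exists_max_image X (fun f => c f * ρ ^ f) h5
    refine ⟨f, hf, h4.trans ((sum_le_card_nsmul _ _ _ h6).trans ?_)⟩
    rw [nsmul_eq_mul]
    exact mul_le_mul_of_nonneg_right (by linarith)
      (mul_nonneg (c0 f) (Real.rpow_pos_of_pos hρ f).le)

theorem IsGauge.mm' (H : Hs d s) (h : IsGauge d e G) (g : Fin M → CF N d s) :
    ∃ X : Finset ℝ, MM X (fa G g) ∧ MM X (fb G g) := by
  obtain ⟨X, hX⟩ := h.gp g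
  obtain ⟨c, c0, hc⟩ := h.low_ga
  obtain ⟨C, C0, hC⟩ := h.ca H g 2 one_le_two
  obtain ⟨C', C0', hC'⟩ := h.cb' H g 2 one_le_two
  have i1 : Nonempty {v : Fin j → E N // ‖v‖ ≤ 1} := ⟨⟨0, by simp⟩⟩
  have i2 : Nonempty {z : E N × (Fin j → E N) // ‖z.1‖ ≤ 1 ∧ ‖z.2‖ ≤ 1} := ⟨⟨0, by simp⟩⟩
  refine ⟨X, mm_of_gp (I := {v : Fin j → E N // ‖v‖ ≤ 1}) (C := C) X
      (fun x ρ v => G (nj g x ρ) 0 v.1) _ (fun x v => hX x 0 v.1) (fun x ρ t v h0 h1 h2 => ?_)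
      (fun x ρ a _ h1 => gaAt_le' fun v hv => h1 ⟨v, hv⟩)
      fun x ρ _ => c0.trans_le (hc _ (nj_PV' g x ρ)),
    mm_of_gp (I := {z : E N × (Fin j → E N) // ‖z.1‖ ≤ 1 ∧ ‖z.2‖ ≤ 1}) (C := C') X
      (fun x ρ z => G (nj g x ρ) z.1.1 z.1.2) _ (fun x z => hX x z.1.1 z.1.2)
      (fun x ρ t z h0 h1 h2 => ?_) (fun x ρ a _ h1 => gb_le' fun u v hu hv => h1 ⟨(u, v), hu, hv⟩)
      fun x ρ _ => h.gb_pos (nj_PV' g x ρ)⟩
  · rw [abs_of_nonneg (h.nn _ _ _)]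
    exact (h.le_gaAt' (nj_PV' g x _) 0 v.2).trans (hC x ρ (t * ρ) h0 (by nlinarith) (by nlinarith))
  · rw [abs_of_nonneg (h.nn _ _ _)]
    exact (h.le_gb' (nj_PV' g x _) z.2.1 z.2.2).trans
      (hC' x x ρ (t * ρ) h0 (by rw [sub_self, norm_zero]; positivity) (by nlinarith) (by nlinarith))

end Pool.Agent.CA9.UB
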