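import Pool.Agent.Lib.MP_ca9be0_an.UB.M1
import Pool.Agent.Lib.MP_ca9be0_an.UB.M3
import Pool.Agent.Lib.MP_ca9be0_an.UB.La1

/-! Finiteness of special points and the infinitesimal condition. -/

namespace Pool.Agent.CA9.UB

open Finset Matrix Pool.Agent.Lib.MP_ca9be0_an.PyF

variable {n M d e : ℕ} {s : ℝ}

/-- the matrix with rows `w`, `v` -/
def rowM (w : E (n + 1)) (v : Fin n → E (n + 1)) : Matrix (Fin (n + 1)) (Fin (n + 1)) ℝ :=
  of fun r c => (Fin.cons w v : Fin (n + 1) → E (n + 1)) r c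

lemma rowM_LP (w : E (n + 1)) : LP (n + 1) fun v : Fin n → E (n + 1) => (rowM w v).det := by
  have := LP.det (e := 1) (M := fun v : Fin n → E (n + 1) => rowM w v) fun a b => by
    refine Fin.cases ?_ (fun i => ?_) a
    · exact LP.const 1 (w b)
    · exact LP.linear ((EuclideanSpace.projₗ b : E (n + 1) →ₗ[ℝ] ℝ).comp
        (LinearMap.proj i : (Fin n → E (n + 1)) →ₗ[ℝ] E (n + 1)))
  simpa using this

lemma rowM_ex (w : E (n + 1)) : ∃ v : Fin n → E (n + 1), ‖v‖ ≤ 1 ∧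
    ‖w‖ / (n + 1) ≤ |(rowM w v).det| := by
  obtain ⟨i, -, hi⟩ := exists_max_image univ (fun i => |w i|) univ_nonempty
  refine ⟨fun r => EuclideanSpace.single (i.succAbove r) 1,
    (pi_norm_le_iff_of_nonneg zero_le_one).2 fun r => by simp, ?_⟩
  have h1 : ‖w‖ ≤ (n + 1) * |w i| := by
    rw [EuclideanSpace.norm_eq, Real.sqrt_le_left (by positivity)]
    refine (sum_le_card_nsmul _ _ (|w i| ^ 2) fun k _ =>
      pow_le_pow_left₀ (norm_nonneg _) (hi k (mem_univ k)) 2).trans ?_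
    rw [card_univ, Fintype.card_fin, nsmul_eq_mul, mul_pow]
    push_cast
    have : (0 : ℝ) ≤ n := Nat.cast_nonneg n
    exact mul_le_mul_of_nonneg_right (by nlinarith) (sq_nonneg _)
  rw [div_le_iff₀' (by positivity)]
  refine h1.trans (le_of_eq ?_)
  congr 1
  rw [det_succ_column _ i, Fin.sum_univ_succ]
  have h2 : (rowM w fun r => EuclideanSpace.single (i.succAbove r) 1).submatrix
      (Fin.succAbove 0) i.succAbove = 1 := by
    ext a b
    simp [rowM, Matrix.one_apply, eq_comm]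
  rw [h2]
  simp [rowM, abs_mul]

lemma rowM_bd {w u : E (n + 1)} {v : Fin n → E (n + 1)} {R : ℝ} (hR : 1 ≤ R) (hw : ‖w‖ ≤ R)
    (hv : ‖v‖ ≤ 1) (hu : ‖u‖ ≤ R) (r : Fin (n + 1)) :
    |((rowM w v).updateRow r u).det| ≤ (n + 1).factorial * R ^ (n + 1) := by
  have c : ∀ (z : E (n + 1)) (i : Fin (n + 1)), |z i| ≤ ‖z‖ := fun z i => PiLp.norm_apply_le z i
  have := Matrix.det_le (A := (rowM w v).updateRow r u) (abv := AbsoluteValue.abs) (x := R)
    fun a b => by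
      rw [AbsoluteValue.abs_apply, updateRow_apply]
      split_ifs
      · exact (c u b).trans hu
      · refine Fin.cases ?_ (fun i => ?_) a
        · exact (c w b).trans hw
        · exact (c (v i) b).trans ((norm_le_pi_norm v i).trans (hv.trans hR))
  simpa using this

lemma rowM_zero (w u : E (n + 1)) (v : Fin n → E (n + 1)) :
    (rowM w v).updateRow 0 u = rowM u v := by
  ext a b
  refine Fin.cases ?_ (fun i => ?_) a <;> simp [rowM, updateRow_apply]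

lemma rowM_sub (u u' : E (n + 1)) (v : Fin n → E (n + 1)) :
    (rowM (u - u') v).det = (rowM u v).det - (rowM u' v).det := by
  rw [← rowM_zero u u, ← rowM_zero u u', ← rowM_zero u (u - u'), ← cramer_transpose_apply,
    ← cramer_transpose_apply, ← cramer_transpose_apply, WithLp.ofLp_sub, map_sub, Pi.sub_apply]

lemma rowM_dec {w : E (n + 1)} {v : Fin n → E (n + 1)} (h : (rowM w v).det ≠ 0) (u : E (n + 1)) :
    u = fr (((rowM u v).det / (rowM w v).det) • w) v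
      (WithLp.toLp 2 fun i => ((rowM w v).updateRow i.succ u).det / (rowM w v).det) := by
  ext c
  have h1 := congrFun (mulVec_cramer (rowM w v)ᵀ u) c
  simp only [mulVec, dotProduct, Fin.sum_univ_succ, cramer_transpose_apply, rowM_zero,
    det_transpose, Pi.smul_apply, smul_eq_mul, transpose_apply] at h1
  simp only [fr, PiLp.add_apply, PiLp.smul_apply, smul_eq_mul, WithLp.ofLp_sum, Finset.sum_apply,
    WithLp.ofLp_smul, Pi.smul_apply]
  refine mul_left_cancel₀ h ?_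
  rw [← h1, mul_add, mul_sum]
  congr 1
  · have : rowM w v 0 c = w c := rfl
    rw [this]; field_simp
  · refine sum_congr rfl fun i _ => ?_
    have : rowM w v i.succ c = v i c := rfl
    rw [this]; field_simp

lemma fr_neg {N k : ℕ} (u : E N) (v : Fin k → E N) (c : E k) : fr (fr u v c) v (-c) = u := by
  simp [fr]

/-- polynomial form of the finiteness property -/
theorem IsGauge.f2 {G : Gg M (n + 1) n} (h : IsGauge d e G) (R : ℝ) (hR : 1 ≤ R) : ∃ K, 0 < K ∧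
    ∀ T, PV d T → ∀ (u : Fin (e + 1) → E (n + 1)) (a : ℝ), (∀ i, ‖u i‖ ≤ R) →
      (∀ i l, i ≠ l → 1 ≤ R * ‖u i - u l‖) → (∀ i v, ‖v‖ ≤ 1 → G T (u i) v ≤ a) →
      gb G T ≤ K * a := by
  obtain ⟨c, c0, c1, hc⟩ := good_point (e + (n + 1)) ((e + 1) * (e + 1) + 2)
  have n0 : (0 : ℝ) < n + 1 := by positivity
  set F : ℝ := (n + 1).factorial * R ^ (n + 1) with hF
  have F0 : 0 < F := by positivity
  set L : ℝ := F / (c / (n + 1)) with hL
  have L0 : 0 < L := by positivity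
  obtain ⟨C, C0, hC⟩ := h.trans ((n + 1) * L)
  obtain ⟨K, K0, hK⟩ := sep_nodes e L (δ := c * (1 / R / (n + 1)) / F) (by positivity)
  refine ⟨C * (K * C) / c, by positivity, fun T hT u a hu hs ha => gb_le' fun u₀ v₀ hu₀ hv₀ => ?_⟩
  set w : E (n + 1) := EuclideanSpace.single 0 1 with hw
  have w1 : ‖w‖ = 1 := by simp [hw]
  obtain ⟨v, hv, H⟩ := hc (Metric.closedBall (0 : Fin n → E (n + 1)) 1)
    (univ : Finset (Bool ⊕ Fin (e + 1) × Fin (e + 1)))
    (Sum.elim (fun b v => cond b (G T u₀ v) (rowM w v).det)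
      fun p v => (rowM (u p.1 - u p.2) v).det)
    (Sum.elim (fun b => cond b (G T u₀ v₀) (‖w‖ / (n + 1))) fun p => ‖u p.1 - u p.2‖ / (n + 1))
    (convex_closedBall _ _) ⟨0, by simp⟩ (by simp [add_comm])
    (by
      rintro ((_ | _) | p) -
      · exact (rowM_LP w).mono (Nat.le_add_left _ _)
      · exact ((h.lp hT).right u₀).mono (Nat.le_add_right _ _)
      · exact (rowM_LP _).mono (Nat.le_add_left _ _))
    (by
      rintro ((_ | _) | p) -
      · obtain ⟨v, h1, h2⟩ := rowM_ex w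
        exact ⟨v, by simpa using h1, h2⟩
      · exact ⟨v₀, by simpa using hv₀, le_abs_self _⟩
      · obtain ⟨v, h1, h2⟩ := rowM_ex (u p.1 - u p.2)
        exact ⟨v, by simpa using h1, h2⟩)
  rw [mem_closedBall_zero_iff] at hv
  have h1 : c * G T u₀ v₀ ≤ |G T u₀ v| := H (Sum.inl true) (mem_univ _)
  have h2 : c * (‖w‖ / (n + 1)) ≤ |(rowM w v).det| := H (Sum.inl false) (mem_univ _)
  have h3 : ∀ i l, c * (‖u i - u l‖ / (n + 1)) ≤ |(rowM (u i - u l) v).det| := fun i l =>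
    H (Sum.inr (i, l)) (mem_univ _)
  rw [w1, mul_one_div] at h2
  have D0 : 0 < |(rowM w v).det| := lt_of_lt_of_le (by positivity) h2
  have hq : ∀ z : E (n + 1), ‖z‖ ≤ R → ∀ r,
      |((rowM w v).updateRow r z).det / (rowM w v).det| ≤ L := fun z hz r => by
    rw [abs_div]
    exact div_le_div₀ F0.le (rowM_bd hR (w1.le.trans hR) hv hz r) (by positivity) h2
  have hn : ∀ z : E (n + 1), ‖z‖ ≤ R → ‖(WithLp.toLp 2 fun i : Fin n =>
      ((rowM w v).updateRow i.succ z).det / (rowM w v).det : E n)‖ ≤ (n + 1) * L := fun z hz => by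
    rw [EuclideanSpace.norm_eq, Real.sqrt_le_left (by positivity)]
    refine (sum_le_card_nsmul _ _ (L ^ 2) fun k _ =>
      pow_le_pow_left₀ (norm_nonneg _) (hq z hz k.succ) 2).trans ?_
    rw [card_univ, Fintype.card_fin, nsmul_eq_mul, mul_pow]
    have : (0 : ℝ) ≤ n := Nat.cast_nonneg n
    exact mul_le_mul_of_nonneg_right (by nlinarith) (sq_nonneg _)
  obtain ⟨q, q1, q2⟩ := (h.lp hT).left v 0 w
  simp only [zero_add] at q2
  have hdec := rowM_dec (abs_pos.1 D0)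
  have h4 := hK q (fun i => (rowM (u i) v).det / (rowM w v).det) (C * a)
    ((rowM u₀ v).det / (rowM w v).det) q1 (fun i => by simpa only [rowM_zero] using hq _ (hu i) 0)
    (fun i l hil => by
      rw [← sub_div, ← rowM_sub, abs_div]
      refine div_le_div₀ (abs_nonneg _) (le_trans ?_ (h3 i l)) D0 ?_
      · refine mul_le_mul_of_nonneg_left (div_le_div_of_nonneg_right ?_ n0.le) c0.le
        rw [div_le_iff₀' (by linarith)]; exact hs i l hil
      · simpa only [rowM_zero] using rowM_bd hR (w1.le.trans hR) hv (w1.le.trans hR) 0)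
    (fun i => by
      rw [← q2, abs_of_nonneg (h.nn _ _ _)]
      have h5 := hC T (u i) v _ hT ((norm_neg _).le.trans (hn _ (hu i)))
      have h6 := fr_neg (((rowM (u i) v).det / (rowM w v).det) • w) v (WithLp.toLp 2 fun r : Fin n =>
        ((rowM w v).updateRow r.succ (u i)).det / (rowM w v).det)
      rw [← hdec] at h6
      rw [h6] at h5
      exact h5.trans (mul_le_mul_of_nonneg_left (ha i v hv) C0.le))
    (by simpa only [rowM_zero] using hq _ (hu₀.trans hR) 0)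
  rw [← q2, abs_of_nonneg (h.nn _ _ _)] at h4
  have h5 := hC T (((rowM u₀ v).det / (rowM w v).det) • w) v _ hT (hn _ (hu₀.trans hR))
  rw [← hdec] at h5
  rw [abs_of_nonneg (h.nn _ _ _)] at h1
  rw [div_mul_eq_mul_div, le_div_iff₀ c0]
  nlinarith [mul_le_mul_of_nonneg_left h4 C0.le]

variable {G : Gg M (n + 1) n}

lemma norm_inv_smul_le {N : ℕ} {z : E N} {ρ R : ℝ} (h0 : 0 < ρ) (h : ‖z‖ ≤ R * ρ) :
    ‖ρ⁻¹ • z‖ ≤ R := by
  rwa [norm_smul, norm_inv, Real.norm_of_nonneg h0.le, inv_mul_le_iff₀ h0, mul_comm]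

/-- a special point gives small values of the gauge seen from a nearby centre -/
theorem IsGauge.spec {N j : ℕ} {G : Gg M N j} (H : Hs d s) (h : IsGauge d e G)
    (g : Fin M → CF N d s) (R : ℝ) (hR : 1 ≤ R) : ∃ C, 0 < C ∧ ∀ x y ρ ε v, 0 < ρ → 0 ≤ ε →
      ‖y - x‖ ≤ R * ρ → fa G g y ρ ≤ ε * fb G g y ρ → ‖v‖ ≤ 1 →
      G (nj g x ρ) (ρ⁻¹ • (y - x)) v ≤ C * (ε * fb G g x ρ) := by
  obtain ⟨C, C0, hC⟩ := h.move' H g R hR
  obtain ⟨C', C0', hC'⟩ := h.cb' H g R hR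
  refine ⟨C * C', mul_pos C0 C0', fun x y ρ ε v h0 e0 h1 h2 hv => ?_⟩
  have r1 : ρ ≤ R * ρ := by nlinarith
  have h3 := hC y x ρ ρ y v h0 h1 r1 r1 (by rw [sub_self, norm_zero]; linarith) (hv.trans hR)
  rw [sub_self, smul_zero] at h3
  have h4 := hC' x y ρ ρ h0 (by rwa [norm_sub_rev]) r1 r1
  have h5 := ((h.le_gaAt' (nj_PV' g y ρ) 0 hv).trans h2).trans (mul_le_mul_of_nonneg_left h4 e0)
  linarith [mul_le_mul_of_nonneg_left h5 C0.le]

theorem IsGauge.ab_fin' (H : Hs d s) (h : IsGauge d e G) (g : Fin M → CF (n + 1) d s) (R : ℝ)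
    (hR : 1 ≤ R) : ∃ ε, 0 < ε ∧ ∀ x ρ (y : Fin (e + 1) → E (n + 1)), 0 < ρ →
      (∀ i, ‖y i - x‖ ≤ R * ρ) → (∀ i l, i ≠ l → ρ ≤ R * ‖y i - y l‖) →
      ∃ i, ε * fb G g (y i) ρ < fa G g (y i) ρ := by
  obtain ⟨K, K0, hK⟩ := h.f2 R hR
  obtain ⟨C, C0, hC⟩ := h.spec H g R hR
  have e0 : 0 < 1 / (2 * (K * C)) := by positivity
  refine ⟨_, e0, fun x ρ y h0 h1 h2 => ?_⟩
  by_contra hn
  simp only [not_exists, not_lt] at hn
  have h3 := hK _ (nj_PV' g x ρ) (fun i => ρ⁻¹ • (y i - x)) _ (fun i => norm_inv_smul_le h0 (h1 i))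
    (fun i l hil => by
      rw [← smul_sub, sub_sub_sub_cancel_right, norm_smul, norm_inv, Real.norm_of_nonneg h0.le,
        mul_left_comm, le_inv_mul_iff₀ h0, mul_one]
      exact h2 i l hil)
    fun i v hv => hC x (y i) ρ _ v h0 e0.le (h1 i) (hn i) hv
  have h4 : K * (C * (1 / (2 * (K * C)) * fb G g x ρ)) = fb G g x ρ / 2 := by field_simp
  have h5 : 0 < fb G g x ρ := h.gb_pos (nj_PV' g x ρ)
  rw [h4] at h3
  have h6 : fb G g x ρ ≤ fb G g x ρ / 2 := h3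
  linarith

theorem IsGauge.ab_ic' (H : Hs d s) (h : IsGauge d e G) (g : Fin M → CF (n + 1) d s) (R : ℝ)
    (hR : 1 ≤ R) : ∃ (ε B : ℝ) (Q : ℕ), 0 < ε ∧ 1 ≤ B ∧ ∀ p, ∃ Cr : Finset ℝ, Cr.card ≤ Q ∧
      ∀ ρ y, 0 < ρ → (∀ r ∈ Cr, B * r < ρ ∨ B * ρ < r) → ‖y - p‖ ≤ R * ρ →
        fa G g y ρ ≤ ε * fb G g y ρ → ‖y - p‖ < ρ / 4 := by
  classical
  have E0 : (0 : ℝ) < e + 1 := by positivity
  obtain ⟨K, K0, hK⟩ := h.f2 (R + 8 * (e + 1)) (by linarith)
  obtain ⟨C, C0, hC⟩ := h.spec H g R hR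
  obtain ⟨X, hX⟩ := h.gp g
  obtain ⟨K₁, K1, hK₁⟩ := gp_core X
  obtain ⟨C₁, C1, hC₁⟩ := h.grow' R
  obtain ⟨C₂, C2, hC₂⟩ := h.cb' H g 2 one_le_two
  obtain ⟨C₃, C3, hC₃⟩ := h.move' H g (2 * R) (by linarith)
  obtain ⟨L, L1, hL⟩ := pow_bdd X 2
  have n0 : (0 : ℝ) ≤ X.card := Nat.cast_nonneg _
  set A : ℝ := K * (C₃ * (L * (C + 2 * (X.card * (K₁ * (C₁ * C₂)))))) with hA
  have A0 : 0 < A := by positivity
  have e0 : 0 < 1 / (2 * A) := by positivity
  obtain ⟨b, b0, hb⟩ := dom_term X e0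
  refine ⟨_, Real.exp b, X.card ^ 2, e0, Real.one_le_exp b0.le, fun p => ?_⟩
  have i1 : Nonempty {z : E (n + 1) × (Fin n → E (n + 1)) // ‖z.1‖ ≤ R ∧ ‖z.2‖ ≤ 1} :=
    ⟨⟨0, by simpa using zero_le_one.trans hR⟩⟩
  obtain ⟨P, c, c0, h1, h2, h3⟩ := hK₁
    (I := {z : E (n + 1) × (Fin n → E (n + 1)) // ‖z.1‖ ≤ R ∧ ‖z.2‖ ≤ 1})
    (fun ρ z => G (nj g p ρ) z.1.1 z.1.2) (fun ρ => C₁ * C₂ * fb G g p ρ)
    (fun z => hX p z.1.1 z.1.2) fun ρ t z h0 h1 h2 => by
      rw [abs_of_nonneg (h.nn _ _ _), mul_assoc]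
      exact ((hC₁ _ (nj_PV' g p _) _ _ (z.2.2.trans hR)).2 z.2.1).trans
        (mul_le_mul_of_nonneg_left (hC₂ p p ρ (t * ρ) h0 (by rw [sub_self, norm_zero]; positivity)
          (by nlinarith) (by nlinarith)) C1.le)
  obtain ⟨Cr, hCr, hd⟩ := hb c c0
  refine ⟨Cr.image Real.exp, card_image_le.trans hCr, fun ρ y h0 h4 h5 h6 => ?_⟩
  by_contra hn
  rw [not_lt] at hn
  have b1 : 0 < fb G g p ρ := h.gb_pos (nj_PV' g p ρ)
  have hX0 : X.Nonempty := by
    rw [nonempty_iff_ne_empty]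
    rintro rfl
    refine absurd b1 (not_lt.2 (gb_le' fun u v hu hv => ?_))
    simpa using (h1 ⟨(u, v), hu.trans hR, hv⟩ ρ h0).le
  obtain ⟨f, hf, h7⟩ := hd ρ h0 (fun r hr => by
    rcases h4 _ (mem_image_of_mem _ hr) with h8 | h8
    · rw [← Real.exp_add, ← Real.lt_log_iff_exp_lt h0] at h8
      exact le_abs.2 (Or.inl (by linarith))
    · rw [← Real.exp_log h0, ← Real.exp_add, Real.exp_lt_exp] at h8
      exact le_abs.2 (Or.inr (by linarith))) hX0
  set u := ρ⁻¹ • (y - p) with hu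
  have u1 : ‖u‖ ≤ R := norm_inv_smul_le h0 h5
  have u2 : 1 / 4 ≤ ‖u‖ := by
    rw [hu, norm_smul, norm_inv, Real.norm_of_nonneg h0.le, le_inv_mul_iff₀ h0]; linarith
  set D := 1 / (2 * A) * (K₁ * (C₁ * C₂ * fb G g p ρ)) with hD
  have D0 : 0 ≤ D := by positivity
  have key : ∀ t : ℝ, 1 / 2 ≤ t → t ≤ 1 → ∀ v, ‖v‖ ≤ 1 →
      G (nj g p ρ) (t • u) v ≤ C₃ * (L * (C * (1 / (2 * A) * fb G g p ρ) + 2 * (X.card * D))) := by
    intro t t1 t2 v hv
    have t0 : 0 < t := by linarith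
    have tρ := mul_pos t0 h0
    have a1 := hC₃ p p (t * ρ) ρ (p + (t * ρ) • u) v tρ (by rw [sub_self, norm_zero]; positivity)
      (by nlinarith) (by nlinarith)
      (by rw [add_sub_cancel_left, norm_smul, Real.norm_of_nonneg tρ.le]; nlinarith) (by linarith)
    rw [add_sub_cancel_left, smul_smul ρ⁻¹, smul_smul (t * ρ)⁻¹, inv_mul_cancel₀ tρ.ne', one_smul,
      show ρ⁻¹ * (t * ρ) = t by field_simp] at a1
    refine a1.trans (mul_le_mul_of_nonneg_left ?_ C3.le)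
    have a2 := h1 ⟨(u, v), u1, hv⟩ ρ h0
    have a3 := h1 ⟨(u, v), u1, hv⟩ _ tρ
    have a4 := hC p y ρ _ v h0 e0.le h5 h6 hv
    have a5 : ∀ z ∈ X, t ^ z ≤ L := fun z hz => hL z hz t t0 (by linarith) (by linarith)
    have a6 : ∀ z ∈ X, P ⟨(u, v), u1, hv⟩ z * (t * ρ) ^ z - t ^ f * (P ⟨(u, v), u1, hv⟩ z * ρ ^ z) ≤
        2 * (L * D) := fun z hz => by
      rw [Real.mul_rpow t0.le h0.le]
      by_cases hz' : z = f
      · rw [hz', mul_left_comm, sub_self]; positivity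
      have z0 := Real.rpow_pos_of_pos h0 z
      have a7 : |P ⟨(u, v), u1, hv⟩ z * ρ ^ z| ≤ D := by
        rw [abs_mul, abs_of_pos z0]
        refine (mul_le_mul_of_nonneg_right (h2 _ z hz) z0.le).trans ?_
        rw [mul_comm]
        refine (h7 z hz hz').trans (mul_le_mul_of_nonneg_left ?_ e0.le)
        rw [mul_comm]; exact h3 ρ h0 f hf
      have a8 : |t ^ z - t ^ f| ≤ L := abs_le.2 ⟨by linarith [a5 f hf, Real.rpow_pos_of_pos t0 z],
        by linarith [a5 z hz, Real.rpow_pos_of_pos t0 f]⟩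
      have a9 := mul_le_mul a8 a7 (abs_nonneg _) (by linarith)
      rw [← abs_mul] at a9
      have := mul_nonneg (by linarith : 0 ≤ L) D0
      linarith [le_abs_self ((t ^ z - t ^ f) * (P ⟨(u, v), u1, hv⟩ z * ρ ^ z))]
    have a10 := sum_le_card_nsmul _ _ _ a6
    rw [sum_sub_distrib, ← mul_sum, ← a2, ← a3, nsmul_eq_mul] at a10
    have a11 := mul_le_mul (a5 f hf) a4 (h.nn _ _ _) (by linarith)
    have a12 : G (nj g p (t * ρ)) u v - t ^ f * G (nj g p ρ) u v ≤ X.card * (2 * (L * D)) := a10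
    linarith
  have hin : ∀ i : Fin (e + 1), 1 / 2 ≤ 1 / 2 + (i : ℝ) / (2 * (e + 1)) ∧
      1 / 2 + (i : ℝ) / (2 * (e + 1)) ≤ 1 := fun i => by
    have a1 : (0 : ℝ) ≤ (i : ℝ) / (2 * (e + 1)) := by positivity
    have a2 : ((i : ℕ) : ℝ) ≤ e + 1 := by exact_mod_cast i.2.le
    have a3 : (i : ℝ) / (2 * (e + 1)) ≤ 1 / 2 := by rw [div_le_iff₀ (by positivity)]; linarith
    exact ⟨by linarith, by linarith⟩
  have h8 := hK _ (nj_PV' g p ρ) (fun i => (1 / 2 + (i : ℝ) / (2 * (e + 1))) • u) _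
    (fun i => by
      rw [norm_smul, Real.norm_of_nonneg (by linarith [(hin i).1])]
      nlinarith [(hin i).1, (hin i).2, norm_nonneg u])
    (fun i l hil => by
      rw [← sub_smul, add_sub_add_left_eq_sub, ← sub_div, norm_smul, Real.norm_eq_abs, abs_div,
        abs_of_pos (by positivity : (0 : ℝ) < 2 * (e + 1))]
      have a1 : (1 : ℝ) ≤ |((i : ℕ) : ℝ) - (l : ℕ)| := by
        have : ((i : ℕ) : ℤ) - (l : ℕ) ≠ 0 := sub_ne_zero.2 fun h => hil (Fin.ext (by exact_mod_cast h))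
        exact_mod_cast Int.one_le_abs this
      have a2 : 1 / (2 * ((e : ℝ) + 1)) * (1 / 4) ≤ |((i : ℕ) : ℝ) - (l : ℕ)| / (2 * (e + 1)) * ‖u‖ :=
        mul_le_mul (div_le_div_of_nonneg_right a1 (by positivity)) u2 (by norm_num) (by positivity)
      have a3 : 8 * ((e : ℝ) + 1) * (1 / (2 * ((e : ℝ) + 1)) * (1 / 4)) = 1 := by field_simp; norm_num
      exact a3.ge.trans (mul_le_mul (by linarith) a2 (by positivity) (by linarith)))
    fun i v hv => key _ (hin i).1 (hin i).2 v hv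
  have h9 : K * (C₃ * (L * (C * (1 / (2 * A) * fb G g p ρ) + 2 * (X.card * D)))) =
      A * (1 / (2 * A) * fb G g p ρ) := by rw [hD]; ring
  have h10 : A * (1 / (2 * A) * fb G g p ρ) = fb G g p ρ / 2 := by field_simp
  rw [h9, h10] at h8
  have h11 : fb G g p ρ ≤ fb G g p ρ / 2 := h8
  linarith

theorem IsGauge.ab' (H : Hs d s) (h : IsGauge d e G) (g : Fin M → CF (n + 1) d s) :
    AB (fa G g) (fb G g) where
  pos := by
    obtain ⟨c, c0, hc⟩ := h.low_ga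
    exact ⟨c, c0, fun x ρ _ => hc _ (nj_PV' g x ρ)⟩
  le x ρ _ := h.ga_le_gb (nj_PV' g x ρ) (by simp)
  cb := h.cb' H g
  ca := h.ca H g
  lip := by
    obtain ⟨C, C0, hC⟩ := h.lipv' H g
    refine ⟨C, C0, fun x x' ρ γ h0 h1 h2 => gaAt_le' fun v hv => (hC x x' ρ γ v h0 h1 h2 hv).trans ?_⟩
    exact mul_le_mul_of_nonneg_left (add_le_add_left (h.le_gaAt' (nj_PV' g x' ρ) 0 hv) _) C0.le
  fin := ⟨e, h.ab_fin' H g⟩
  ic := h.ab_ic' H g

end Pool.Agent.CA9.UB
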