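import Pool.Agent.Lib.MP_ca9be0_an.UB.Ms2
import Pool.Agent.Lib.MP_ca9be0_an.UB.Defs
import Pool.Agent.Lib.MP_ca9be0_an.UB.M1
import Pool.Agent.Lib.MP_ca9be0_an.UB.M4

/-! Interface: derived facts on gauges and on functions of max-monomial type. -/

namespace Pool.Agent.CA9.UB

open Finset Matrix Pool.Agent.Lib.MP_ca9be0_an.PyF

variable {N n k j M m d e e' : ℕ} {s : ℝ}

section gauge
variable {G G' : Gg M N j} {T : Fin M → E N → ℝ}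

theorem IsGauge.mul (h : IsGauge d e G) (h' : IsGauge d e' G') :
    IsGauge d (e + e') fun T u v => G T u v * G' T u v := by
  exact h.mul' h'

theorem IsGauge.le_gb (h : IsGauge d e G) (hT : PV d T) {u : E N} {v : Fin j → E N}
    (hu : ‖u‖ ≤ 1) (hv : ‖v‖ ≤ 1) : G T u v ≤ gb G T := by
  exact h.le_gb' hT hu hv

theorem IsGauge.le_gaAt (h : IsGauge d e G) (hT : PV d T) (u : E N) {v : Fin j → E N}
    (hv : ‖v‖ ≤ 1) : G T u v ≤ gaAt G T u := by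
  exact h.le_gaAt' hT u hv

theorem gb_le {c : ℝ} (h : ∀ u v, ‖u‖ ≤ 1 → ‖v‖ ≤ 1 → G T u v ≤ c) : gb G T ≤ c := by
  exact gb_le' h

theorem gaAt_le {c : ℝ} {u : E N} (h : ∀ v, ‖v‖ ≤ 1 → G T u v ≤ c) : gaAt G T u ≤ c := by
  exact gaAt_le' h

/-- growth off the unit ball -/
theorem IsGauge.grow (h : IsGauge d e G) (R : ℝ) : ∃ C, 0 < C ∧ ∀ T, PV d T → ∀ u v,
    ‖v‖ ≤ R → G T u v ≤ C * gaAt G T u ∧ (‖u‖ ≤ R → G T u v ≤ C * gb G T) := by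
  exact h.grow' R

theorem IsGauge.bdd (h : IsGauge d e G) (R : ℝ) : ∃ C, ∀ T, PV d T → (∀ w, PB (T w) 0 1 R) →
    gb G T ≤ C := by
  exact h.bdd' R

/-- a margin for a product gives a margin for each factor -/
theorem IsGauge.factor (h : IsGauge d e G) (h' : IsGauge d e' G') : ∃ c, 0 < c ∧ ∀ T, PV d T →
    ∀ ε, 0 ≤ ε → ε * gb (fun T u v => G T u v * G' T u v) T ≤
      gaAt (fun T u v => G T u v * G' T u v) T 0 →
      c * ε * gb G T ≤ gaAt G T 0 ∧ c * ε * gb G' T ≤ gaAt G' T 0 := by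
  exact h.factor' h'

theorem nj_PV (g : Fin M → CF N d s) (x : E N) (ρ : ℝ) : PV d (nj g x ρ) :=
  fun w => scl_mem ((g w).mem x) ρ x

/-- comparison of the gauge at two centres and scales, for fixed directions -/
theorem IsGauge.move (H : Hs d s) (h : IsGauge d e G) (g : Fin M → CF N d s) (R : ℝ)
    (hR : 1 ≤ R) : ∃ C, 0 < C ∧ ∀ x x' ρ ρ' y v, 0 < ρ → ‖x - x'‖ ≤ R * ρ → ρ ≤ R * ρ' →
      ρ' ≤ R * ρ → ‖y - x‖ ≤ R * ρ → ‖v‖ ≤ R →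
      G (nj g x' ρ') (ρ'⁻¹ • (y - x')) v ≤ C * G (nj g x ρ) (ρ⁻¹ • (y - x)) v := by
  exact h.move' H g R hR

/-- the gauge at fixed directions varies slowly with the centre -/
theorem IsGauge.lipv (H : Hs d s) (h : IsGauge d e G) (g : Fin M → CF N d s) : ∃ C, 0 < C ∧
    ∀ x x' ρ γ v, 0 < ρ → γ ≤ 1 → ‖x - x'‖ ≤ γ * ρ → ‖v‖ ≤ 1 →
      G (nj g x ρ) 0 v ≤ C * (G (nj g x' ρ) 0 v + γ * fb G g x ρ) := by
  exact h.lipv' H g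

theorem IsGauge.cb (H : Hs d s) (h : IsGauge d e G) (g : Fin M → CF N d s) : Cb (fb G g) := by
  exact h.cb' H g

theorem IsGauge.mm (H : Hs d s) (h : IsGauge d e G) (g : Fin M → CF N d s) :
    ∃ X : Finset ℝ, MM X (fa G g) ∧ MM X (fb G g) := by
  exact h.mm' H g

theorem IsGauge.ab (H : Hs d s) {G : Gg M (n + 1) n} (h : IsGauge d e G)
    (g : Fin M → CF (n + 1) d s) : AB (fa G g) (fb G g) := by
  exact h.ab' H g

end gauge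

theorem MM.mono {X Y : Finset ℝ} {ι : Type} {β : ι → ℝ → ℝ} (h : MM X β) (hXY : X ⊆ Y) :
    MM Y β := by
  exact h.mono' hXY

/-- the event scale, the drop of the rank and the dichotomy -/
theorem evscale (X : Finset ℝ) (β : Fin k → E N → ℝ → ℝ) (hm : ∀ i, MM X (β i))
    (hc : ∀ i, Cb (β i)) : ∃ Y : Finset ℝ, (∃ e, ∀ σ, Rk (fun x ρ => ∏ i, β i x ρ) σ e) ∧
      ∀ σ e, Lip1 σ → Rk (fun x ρ => ∏ i, β i x ρ) σ e → ∃ ρ', Sc σ ρ' ∧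
        ((∀ x, ρ' x = 0) ∨ ∃ e' ∈ Y, e' < e ∧
          ∀ σ', (∀ x, σ' x ≤ ρ' x) → Rk (fun x ρ => ∏ i, β i x ρ) σ' e') ∧
        ∃ A B K : ℝ, 1 ≤ A ∧ 1 ≤ B ∧ 1 ≤ K ∧ ∀ x r, 0 < r → A * r ≤ σ x →
          r ≤ B * ρ' x ∨ ∀ i, Mono X K (β i x) (ρ' x / 2) (σ x) := by
  exact evscale' X β hm hc

/-- the two-sided term lemma -/
theorem term_two (X Z : Finset ℝ) (K C : ℝ) (hK : 1 ≤ K) {ε : ℝ} (hε : 0 < ε) :
    ∃ A c : ℝ, 1 ≤ A ∧ 0 < c ∧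
    ∀ (β : ℝ → ℝ) (lo top r γ z : ℝ), z ∈ Z → 0 ≤ lo → 0 < r → A * lo ≤ r → A * r ≤ top →
      (∀ ρ, 0 < ρ → 0 < β ρ) → Mono X K β lo top →
      (∀ ρ, lo < ρ → ρ ≤ top → γ * ρ ^ z ≤ C * β ρ) → ε * β r ≤ γ * r ^ z →
      ∀ ρ, lo < ρ → ρ ≤ top → c * β ρ ≤ γ * ρ ^ z := by
  exact term_two' X Z K C hK hε

/-- the margin persists -/
theorem persist {a b : E N → ℝ → ℝ} {X : Finset ℝ} (hab : AB a b) (ha : MM X a) (B K : ℝ)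
    (hK : 1 ≤ K) {ε : ℝ} (hε : 0 < ε) : ∃ ε' A : ℝ, 0 < ε' ∧ 1 ≤ A ∧ ∀ x lo top r, 0 ≤ lo → 0 < r → A * r ≤ top →
      (r ≤ B * lo ∨ Mono X K (b x) (lo / 2) top) → ε * b x r ≤ a x r →
      ∀ ρ, 0 < ρ → lo ≤ ρ → ρ ≤ r → ε' * b x ρ ≤ a x ρ := by
  exact persist' hab ha B K hK hε

end Pool.Agent.CA9.UB
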