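import Pool.Agent.Lib.MP_ca9be0_an.UB.Cl1
import Pool.Agent.Lib.MP_ca9be0_an.UB.IM

/-! The cleaning step: tameness of the projections of a cell. -/

namespace Pool.Agent.CA9.UB

open Finset Matrix Pool.Agent.Lib.MP_ca9be0_an.PyF

variable {N j k M d e : ℕ} {s : ℝ}

section poly

lemma Pd_cmp {a : ℕ} {p : E N → ℝ} (hp : p ∈ Pd N e) {S : E k → E N}
    (hS : ∀ i, (fun y => S y i) ∈ Pd k a) : (fun y => p (S y)) ∈ Pd k (e * a) := by
  refine Pd_ind (C := fun e p => (fun y => p (S y)) ∈ Pd k (e * a)) (fun e c => const_mem _ c)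
    (fun e p q hp hq => Pd_add hp hq)
    (fun e c p hp => Pd_mono (Nat.mul_le_mul_right a (Nat.le_succ e)) (Pd_smul c hp))
    (fun e c i p hp => ?_) hp
  rw [add_mul, one_mul, add_comm]
  exact Pd_mul (Pd_smul c (hS i)) hp

/-- families of functions that are polynomial of uniformly bounded degree -/
def UP {ι : Type} (u : ι → E N → ℝ) : Prop := ∃ e, ∀ i, u i ∈ Pd N e

variable {ι : Type} {u u' : ι → E N → ℝ}

lemma UP.const (c : ι → ℝ) : UP fun i (_ : E N) => c i := ⟨0, fun i => const_mem 0 (c i)⟩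

lemma UP.add (h : UP u) (h' : UP u') : UP fun i y => u i y + u' i y := by
  obtain ⟨e, h⟩ := h
  obtain ⟨e', h'⟩ := h'
  exact ⟨e + e', fun i => Pd_add (Pd_mono (Nat.le_add_right _ _) (h i))
    (Pd_mono (Nat.le_add_left _ _) (h' i))⟩

lemma UP.mul (h : UP u) (h' : UP u') : UP fun i y => u i y * u' i y := by
  obtain ⟨e, h⟩ := h
  obtain ⟨e', h'⟩ := h'
  exact ⟨e + e', fun i => Pd_mul (h i) (h' i)⟩

lemma UP.congr (h : UP u) (he : ∀ i y, u i y = u' i y) : UP u' :=
  (funext fun i => funext (he i) : u = u') ▸ h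

lemma UP.sub (h : UP u) (h' : UP u') : UP fun i y => u i y - u' i y :=
  (h.add ((UP.const fun _ => -1).mul h')).congr fun i y => by ring

lemma UP.sum {α : Type} (t : Finset α) {U : α → ι → E N → ℝ} (h : ∀ a ∈ t, UP (U a)) :
    UP fun i y => ∑ a ∈ t, U a i y := by
  classical
  induction t using Finset.induction_on with
  | empty => exact (UP.const fun _ => 0).congr fun i y => by simp
  | insert a t ha ih =>
    exact ((h a (mem_insert_self _ _)).add (ih fun b hb => h b (mem_insert_of_mem hb))).congr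
      fun i y => by rw [sum_insert ha]

lemma UP.prod {α : Type} (t : Finset α) {U : α → ι → E N → ℝ} (h : ∀ a ∈ t, UP (U a)) :
    UP fun i y => ∏ a ∈ t, U a i y := by
  classical
  induction t using Finset.induction_on with
  | empty => exact (UP.const fun _ => 1).congr fun i y => by simp
  | insert a t ha ih =>
    exact ((h a (mem_insert_self _ _)).mul (ih fun b hb => h b (mem_insert_of_mem hb))).congr
      fun i y => by rw [prod_insert ha]

/-- matrix families with polynomial entries -/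
def UM {A B : Type} (X : ι → E N → Matrix A B ℝ) : Prop := ∀ a b, UP fun i y => X i y a b

variable {A B C : Type}

lemma UM.c (X : Matrix A B ℝ) : UM fun (_ : ι) (_ : E N) => X := fun a b => UP.const fun _ => X a b

lemma UM.mul [Fintype B] {X : ι → E N → Matrix A B ℝ} {Y : ι → E N → Matrix B C ℝ} (h : UM X)
    (h' : UM Y) : UM fun i y => X i y * Y i y :=
  fun a c => UP.sum univ fun b _ => (h a b).mul (h' b c)

lemma UM.add {X Y : ι → E N → Matrix A B ℝ} (h : UM X) (h' : UM Y) :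
    UM fun i y => X i y + Y i y := fun a b => (h a b).add (h' a b)

lemma UM.sub {X Y : ι → E N → Matrix A B ℝ} (h : UM X) (h' : UM Y) :
    UM fun i y => X i y - Y i y := fun a b => (h a b).sub (h' a b)

lemma UM.tr {X : ι → E N → Matrix A B ℝ} (h : UM X) : UM fun i y => (X i y)ᵀ := fun a b => h b a

lemma UM.smul {X : ι → E N → Matrix A B ℝ} (h : UP u) (h' : UM X) :
    UM fun i y => u i y • X i y := fun a b => h.mul (h' a b)

variable [Fintype A] [DecidableEq A]

lemma UM.det {X : ι → E N → Matrix A A ℝ} (h : UM X) : UP fun i y => (X i y).det :=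
  (UP.sum univ fun σ _ => (UP.const fun _ => ((Equiv.Perm.sign σ : ℤ) : ℝ)).mul
    (UP.prod univ fun a _ => h (σ a) a)).congr fun _ _ => (det_apply' _).symm

lemma UM.adj {X : ι → E N → Matrix A A ℝ} (h : UM X) : UM fun i y => (X i y).adjugate := by
  intro a b
  simp only [adjugate_apply]
  refine UM.det fun a' b' => ?_
  simp only [updateRow_apply]
  split_ifs
  · exact UP.const _
  · exact h _ _

variable [Fintype B] [DecidableEq B]

lemma UM.aI {X : ι → E N → Matrix A B ℝ} (h : UM X) (I : Finset B) :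
    UM fun i y => aI (X i y) I := by
  have h1 := h.mul (UM.c (msk I))
  have h2 : UM fun i y => gM (X i y) I := (h1.tr.mul h1).add (UM.c _)
  exact (UM.smul h2.det (UM.c 1)).sub ((h1.mul h2.adj).mul h1.tr)

lemma UP.tame {x : ι → E N} {r w : ι → ℝ} (h : UP u) (hr : ∀ i, 0 ≤ r i) (hw : ∀ i, 0 ≤ w i)
    {K : ℝ} (hb : ∀ i y, ‖y - x i‖ ≤ r i → |u i y| ≤ K * w i) : TN d true x r u w := by
  obtain ⟨e, h⟩ := h
  exact TN.poly h hr hw one_pos fun i y hy => hb i y (by simpa using hy)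

end poly

section frame

lemma fr_mem (ξ : E N) (v : Fin j → E N) (i : Fin N) : (fun z => fr ξ v z i) ∈ Pd j 1 := by
  have h : (fun z => fr ξ v z i) = fun z : E j => ξ i + ∑ l, v l i * (z l - 0) := by
    ext z
    simp [fr, mul_comm]
  rw [h]
  exact Pd_add (const_mem 1 _) (Pd_sum _ fun l _ => Pd_smul _ (coord_mem l 0))

lemma fr_comp {p : E N → ℝ} (hp : p ∈ Pd N d) (ξ : E N) (v : Fin j → E N) :
    (fun z => p (fr ξ v z)) ∈ Pd j d := by
  simpa using Pd_cmp hp (fr_mem ξ v)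

lemma pX_eq (g : Fin M → CF N d s) (x : E N) {ρ : ℝ} (hρ : 0 < ρ) (v : Fin j → E N) (y : E N)
    (w : Fin M) (c : BA j d) : pX g x ρ v y w c =
      co ((bs j d).γ c) (scl s ρ 0 fun z => (g w).P x (fr y v z)) := by
  simp only [pX, fX, of_apply, res]
  congr 1
  ext z
  simp only [nj, scl, fr, zero_add, PiLp.smul_apply, smul_eq_mul, smul_add, smul_sum, smul_smul,
    mul_inv_cancel₀ hρ.ne', one_smul]
  rw [← add_assoc, add_sub_cancel]

lemma pX_UM {ι : Type} (g : Fin M → CF N d s) (x : ι → E N) {ρ : ι → ℝ} (hρ : ∀ i, 0 < ρ i)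
    (v : Fin j → E N) : UM fun i y => pX g (x i) (ρ i) v y := by
  intro w c
  refine ⟨d, fun i => ?_⟩
  simp only [pX_eq g (x i) (hρ i), co, scl, div_eq_inv_mul]
  refine Pd_sum _ fun z _ => Pd_smul _ (Pd_smul _ ?_)
  have h := Pd_affine ((g w).mem (x i)) (∑ l, (0 + ρ i • z) l • v l) 1
  simpa only [fr, one_smul, add_comm] using h

lemma P_eq (g : Fin M → CF N d s) (x : E N) {ρ : ℝ} (hρ : 0 < ρ) (v : Fin j → E N) (y : E N)
    (w : Fin M) : (g w).P x y = ρ ^ s * ∑ c, pX g x ρ v y w c * (bs j d).m c 0 := by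
  have h := (bs j d).exp _ (scl_mem (s := s) (fr_comp ((g w).mem x) y v) ρ 0) 0
  simp only [pX_eq g x hρ]
  rw [← h]
  have := (Real.rpow_pos_of_pos hρ s).ne'
  simp only [scl, fr, smul_zero, add_zero, PiLp.zero_apply, zero_smul, sum_const_zero]
  field_simp

/-- a bound for the pairing with the frame matrix gives a bound for the pairing with the jet -/
theorem tX_P {ι : Type} (g : Fin M → CF N d s) {x : ι → E N} {r : ι → ℝ} (hr : ∀ i, 0 < r i)
    (v : Fin j → E N) {w : ι → E N → Fin M → ℝ}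
    (h : ∀ c, T1 d x r fun i y => ∑ b, pX g (x i) (r i) v y b c * w i y b) :
    TN d true x r (fun i y => ∑ b, w i y b * (g b).P (x i) y) fun i => r i ^ s := by
  have h0 := fun i => (hr i).le
  have h1 := (T1.sum univ h0 fun c _ => (T1.c h0 ((bs j d).m c 0)).mul1 (h c)).mul1
    (TN.const (c := fun i => r i ^ s) (w := fun i => r i ^ s) h0 fun i =>
      (abs_of_nonneg (Real.rpow_nonneg (h0 i) s)).le)
  refine h1.congr' fun i y => ?_
  simp only [P_eq g (x i) (hr i) v y, mul_sum, sum_mul]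
  rw [sum_comm]
  exact sum_congr rfl fun _ _ => sum_congr rfl fun _ _ => by ring

lemma fr_dist {v : Fin j → E N} (hv : ‖v‖ ≤ 1) (y : E N) {r : ℝ} (hr : 0 ≤ r) (z : E j) :
    ‖fr y v (0 + r • z) - y‖ ≤ (∑ l, |z l|) * r := by
  rw [fr, add_sub_cancel_left, sum_mul]
  refine norm_sum_le_of_le _ fun l _ => ?_
  rw [norm_smul, zero_add, PiLp.smul_apply, smul_eq_mul, Real.norm_eq_abs, abs_mul,
    abs_of_nonneg hr, mul_comm r]
  exact mul_le_of_le_one_right (by positivity) ((norm_le_pi_norm v l).trans hv)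

end frame

/-- the normalised projection of the cell with centre `z` and scale `ρ` -/
noncomputable def cA (g : Fin M → CF N d s) (v : Fin j → E N) (I : Finset (BA j d)) (z : E N)
    (ρ : ℝ) (y : E N) : Matrix (Fin M) (Fin M) ℝ :=
  (fb (fG d j) g z ρ)⁻¹ • aI (pX g z ρ v y) I

/-- cells `(z, ρ)` comparable to the balls `(x, r)` -/
structure Near {ι : Type} (R : ℝ) (x : ι → E N) (r : ι → ℝ) (z : ι → E N) (ρ : ι → ℝ) : Prop where
  one : 1 ≤ R
  pos : ∀ i, 0 < r i
  dist : ∀ i, ‖z i - x i‖ ≤ R * r i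
  le : ∀ i, ρ i ≤ R * r i
  ge : ∀ i, r i ≤ R * ρ i

lemma cA_tr (g : Fin M → CF N d s) (v : Fin j → E N) (I : Finset (BA j d)) (z : E N) (ρ : ℝ)
    (y : E N) : (cA g v I z ρ y)ᵀ = cA g v I z ρ y := by
  rw [cA, transpose_smul, aI_tr]

lemma one_le_fb (hG : IsGauge d e (fG d j : Gg M N j)) (g : Fin M → CF N d s) (z : E N) (ρ : ℝ) :
    1 ≤ fb (fG d j) g z ρ :=
  (one_le_gram _).trans (hG.le_gb (nj_PV g z ρ) (u := 0) (v := 0) (by simp) (by simp))

section cell

variable {ι : Type} {R : ℝ} {x z : ι → E N} {r ρ : ι → ℝ} {v : Fin j → E N}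

lemma Near.pos' (h : Near R x r z ρ) (i : ι) : 0 < ρ i :=
  (mul_pos_iff_of_pos_left (one_pos.trans_le h.one)).1 ((h.pos i).trans_le (h.ge i))

lemma Near.gram (h : Near R x r z ρ) (hG : IsGauge d e (fG d j : Gg M N j))
    (g : Fin M → CF N d s) (hv : ‖v‖ ≤ 1) : ∃ C, ∀ i y, ‖y - x i‖ ≤ r i →
      (1 + (pX g (z i) (ρ i) v y)ᵀ * pX g (z i) (ρ i) v y).det ≤
        C * fb (fG d j) g (z i) (ρ i) := by
  have h1 := h.one
  obtain ⟨C, -, hC⟩ := hG.grow ((1 + R) * R)
  refine ⟨C, fun i y hy => (hC _ (nj_PV g (z i) (ρ i)) _ v (by nlinarith)).2 ?_⟩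
  have h2 := h.pos' i
  have h3 := norm_sub_le_norm_sub_add_norm_sub y (x i) (z i)
  rw [norm_sub_rev (x i)] at h3
  rw [norm_smul, norm_inv, Real.norm_of_nonneg h2.le, inv_mul_le_iff₀ h2]
  have h4 := mul_le_mul_of_nonneg_left (h.ge i) (show 0 ≤ 1 + R by linarith)
  nlinarith [h.dist i]

theorem cA_TM (hG : IsGauge d e (fG d j : Gg M N j)) (g : Fin M → CF N d s) (h : Near R x r z ρ)
    (hv : ‖v‖ ≤ 1) (I : Finset (BA j d)) : TM d x r fun i y => cA g v I (z i) (ρ i) y := by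
  obtain ⟨C, hC⟩ := h.gram hG g hv
  intro a b
  refine (UM.smul (UP.const _) ((pX_UM g z h.pos' v).aI I) a b).tame (fun i => (h.pos i).le)
    (fun _ => zero_le_one) (K := C) fun i y hy => ?_
  have h1 := one_pos.trans_le (one_le_fb hG g (z i) (ρ i))
  beta_reduce
  rw [Matrix.smul_apply, smul_eq_mul, abs_mul, abs_of_pos (inv_pos.2 h1), inv_mul_le_iff₀ h1]
  linarith [aI_le (pX g (z i) (ρ i) v y) I a b, gI_le (pX g (z i) (ρ i) v y) I, hC i y hy]

theorem cA_pX (H : Hs d s) (hG : IsGauge d e (fG d j : Gg M N j)) (g : Fin M → CF N d s)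
    (h : Near R x r z ρ) (hv : ‖v‖ ≤ 1) (I : Finset (BA j d)) :
    TM d x r fun i y => (pX g (x i) (r i) v y)ᵀ * cA g v I (z i) (ρ i) y := by
  have h0 := fun i => (h.pos i).le
  have hR := h.one
  obtain ⟨C, hC⟩ := h.gram hG g hv
  have t1 : TM d x r fun i y => (pX g (z i) (ρ i) v y)ᵀ * cA g v I (z i) (ρ i) y := by
    intro c a
    have u1 := pX_UM g z h.pos' v
    refine (u1.tr.mul (UM.smul (UP.const _) (u1.aI I)) c a).tame h0 (fun _ => zero_le_one)
      (K := C) fun i y hy => ?_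
    have h1 := one_pos.trans_le (one_le_fb hG g (z i) (ρ i))
    beta_reduce
    rw [Matrix.mul_smul, Matrix.smul_apply, smul_eq_mul, abs_mul, abs_of_pos (inv_pos.2 h1),
      inv_mul_le_iff₀ h1, ← aI_tr, ← transpose_mul, transpose_apply]
    linarith [aI_col_le (pX g (z i) (ρ i) v y) I a c, hC i y hy]
  have t2 : ∀ c : BA j d, T1 d x r fun i _ => (ρ i / r i) ^ (s - (bs j d).deg c) := fun c =>
    TN.const1 h0 (R ^ (s - (bs j d).deg c)) fun i => by
      have h1 := div_pos (h.pos' i) (h.pos i)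
      have h2 : ((bs j d).deg c : ℝ) ≤ d := Nat.cast_le.2 ((bs j d).le c)
      rw [abs_of_pos (Real.rpow_pos_of_pos h1 _)]
      exact Real.rpow_le_rpow h1.le ((div_le_iff₀ (h.pos i)).2 (h.le i)) (by linarith [H.1])
  obtain ⟨K, hK, hw⟩ := CF.whitney g
  have t3 : ∀ w c, T1 d x r fun i y => co ((bs j d).γ c) (scl s (r i) 0 fun ζ =>
      (g w).P (x i) (fr y v ζ) - (g w).P (z i) (fr y v ζ)) := fun w c => by
    refine T1.sum _ h0 fun ζ _ => (T1.c h0 _).mul1 (UP.tame ⟨d, fun i => ?_⟩ h0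
      (fun _ => zero_le_one) (K := K * ((1 + ∑ l, |ζ l|) ^ s + (1 + ∑ l, |ζ l| + R) ^ s))
      fun i y hy => ?_)
    · simp only [scl, div_eq_inv_mul]
      have h1 := Pd_affine (Pd_sub ((g w).mem (x i)) ((g w).mem (z i)))
        (∑ l, (0 + r i • ζ) l • v l) 1
      refine Pd_smul _ ?_
      simpa only [fr, one_smul, add_comm] using h1
    · have h1 := Real.rpow_pos_of_pos (h.pos i) s
      have h2 := fr_dist hv y (h0 i) ζ
      have h3 := norm_sub_le_norm_sub_add_norm_sub (fr y v (0 + r i • ζ)) y (x i)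
      have h4 := norm_sub_le_norm_sub_add_norm_sub (fr y v (0 + r i • ζ)) (x i) (z i)
      rw [norm_sub_rev (x i)] at h4
      have h5 : 0 ≤ ∑ l, |ζ l| := by positivity
      rw [scl, abs_div, abs_of_pos h1, div_le_iff₀ h1, mul_one, mul_assoc, add_mul,
        ← Real.mul_rpow (by positivity) (h0 i), ← Real.mul_rpow (by positivity) (h0 i)]
      refine (hw w _ _ _).trans (mul_le_mul_of_nonneg_left (add_le_add
        (Real.rpow_le_rpow (norm_nonneg _) ?_ H.pos.le)
        (Real.rpow_le_rpow (norm_nonneg _) ?_ H.pos.le)) hK)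
      · linarith
      · linarith [h.dist i]
  intro c a
  refine (((t2 c).mul1 (t1 c a)).add (T1.sum univ h0 fun w _ =>
    (t3 w c).mul1 (cA_TM hG g h hv I w a))).congr' fun i y => ?_
  simp only [Matrix.mul_apply, transpose_apply, mul_sum, ← sum_add_distrib]
  refine sum_congr rfl fun w _ => ?_
  have h1 := (bs j d).rescale (s := s) (fr_comp ((g w).mem (z i)) y v) (h.pos i)
    (div_pos (h.pos' i) (h.pos i)) 0 c
  rw [div_mul_cancel₀ _ (h.pos i).ne'] at h1
  rw [co_scl_sub, pX_eq g _ (h.pos i), pX_eq g _ (h.pos' i), h1]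
  ring

theorem cA_hP (H : Hs d s) (hG : IsGauge d e (fG d j : Gg M N j)) (g : Fin M → CF N d s)
    (h : Near R x r z ρ) (hv : ‖v‖ ≤ 1) (I : Finset (BA j d)) : ∃ C, 0 < C ∧ ∀ i a b,
      |cA g v I (z i) (ρ i) (x i) a b| ≤ C * hP g v (x i) (r i) := by
  have hR := h.one
  obtain ⟨C, hC, h1⟩ := hG.move H g R hR
  obtain ⟨C', hC', h2⟩ := hG.cb H g (R * R) (by nlinarith)
  refine ⟨C * C', by positivity, fun i a b => ?_⟩
  have p1 := h.pos i
  have p2 := h.pos' i
  have h3 := h1 (x i) (z i) (r i) (ρ i) (x i) v p1 (by rw [norm_sub_rev]; exact h.dist i) (h.ge i)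
    (h.le i) (by simp; positivity) (hv.trans hR)
  have h4 := h2 (z i) (x i) (ρ i) (r i) p2
    ((h.dist i).trans (by rw [mul_assoc]; exact mul_le_mul_of_nonneg_left (h.ge i) (by linarith)))
    ((h.le i).trans (by nlinarith [mul_pos (one_pos.trans_le hR) p1]))
    ((h.ge i).trans (by nlinarith [mul_pos (one_pos.trans_le hR) p2]))
  have h5 := one_pos.trans_le (one_le_fb hG g (z i) (ρ i))
  have h6 := one_pos.trans_le (one_le_fb hG g (x i) (r i))
  rw [sub_self, smul_zero] at h3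
  have h7 := (aI_le (pX g (z i) (ρ i) v (x i)) I a b).trans ((gI_le _ I).trans h3)
  have h8 := hG.nn (nj g (x i) (r i)) 0 v
  rw [cA, Matrix.smul_apply, smul_eq_mul, abs_mul, abs_of_pos (inv_pos.2 h5), inv_mul_le_iff₀ h5,
    hP, ← mul_div_assoc, ← mul_div_assoc, le_div_iff₀ h6]
  calc _ ≤ (C * fG d j (nj g (x i) (r i)) 0 v) * (C' * fb (fG d j) g (z i) (ρ i)) := by gcongr
    _ = _ := by ring

theorem cA_P (H : Hs d s) (hG : IsGauge d e (fG d j : Gg M N j)) (g : Fin M → CF N d s)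
    (h : Near R x r z ρ) (hv : ‖v‖ ≤ 1) (I : Finset (BA j d)) (a : Fin M) :
    TN d true x r (fun i y => ∑ b, cA g v I (z i) (ρ i) y a b * (g b).P (x i) y)
      fun i => r i ^ s := by
  refine tX_P g h.pos v fun c => (cA_pX H hG g h hv I c a).congr' fun i y => ?_
  beta_reduce
  rw [Matrix.mul_apply]
  refine sum_congr rfl fun b _ => ?_
  rw [transpose_apply, ← cA_tr g v I, transpose_apply, cA_tr]

end cell

/-- a margin at a point of a cell gives a margin for the jet of the cell -/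
theorem cell_margin (H : Hs d s) {G : Gg M N j} (hG : IsGauge d e G) (g : Fin M → CF N d s)
    {R ε : ℝ} (hR : 1 ≤ R) (hε : 0 < ε) : ∃ ε', 0 < ε' ∧ ∀ (z u : E N) (ρ r : ℝ), 0 < ρ →
      ‖u‖ ≤ R → ρ ≤ R * r → r ≤ R * ρ → ε * fb G g (z + ρ • u) r ≤ fa G g (z + ρ • u) r →
      ε' * gb G (nj g z ρ) ≤ gaAt G (nj g z ρ) u := by
  obtain ⟨C, hC, h1⟩ := hG.move H g R hR
  obtain ⟨C', hC', h2⟩ := hG.cb H g (R * R) (by nlinarith)
  refine ⟨ε / (C' * C), by positivity, fun z u ρ r p2 hu a1 a2 hm => ?_⟩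
  have hR0 := one_pos.trans_le hR
  have p1 : 0 < r := (mul_pos_iff_of_pos_left hR0).1 (p2.trans_le a1)
  have a3 : ‖z + ρ • u - z‖ ≤ R * ρ := by
    rw [add_sub_cancel_left, norm_smul, Real.norm_of_nonneg p2.le, mul_comm]
    exact mul_le_mul_of_nonneg_right hu p2.le
  have h3 : fa G g (z + ρ • u) r ≤ C * gaAt G (nj g z ρ) u := gaAt_le fun v hv => by
    have h4 := h1 z (z + ρ • u) ρ r (z + ρ • u) v p2 (by rw [norm_sub_rev]; exact a3) a1 a2 a3
      (hv.trans hR)
    rw [sub_self, smul_zero, add_sub_cancel_left, inv_smul_smul₀ p2.ne'] at h4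
    exact h4.trans (mul_le_mul_of_nonneg_left (hG.le_gaAt (nj_PV g z ρ) u hv) hC.le)
  have h4 : gb G (nj g z ρ) ≤ C' * fb G g (z + ρ • u) r := h2 (z + ρ • u) z r ρ p1
    (a3.trans (by rw [mul_assoc]; exact mul_le_mul_of_nonneg_left a1 hR0.le))
    (a2.trans (by nlinarith [mul_pos hR0 p2])) (a1.trans (by nlinarith [mul_pos hR0 p1]))
  rw [div_mul_eq_mul_div, div_le_iff₀ (by positivity)]
  calc _ ≤ ε * (C' * fb G g (z + ρ • u) r) := by gcongr
    _ = C' * (ε * fb G g (z + ρ • u) r) := by ring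
    _ ≤ C' * (C * gaAt G (nj g z ρ) u) := mul_le_mul_of_nonneg_left (hm.trans h3) hC'.le
    _ = _ := by ring

lemma cell_pt {σ : E N → ℝ} (hσ : Lip1 σ) {z u : E N} (hz : 0 < σ z) (hu : ‖u‖ ≤ 1) :
    9 * (σ z / 10) ≤ σ (z + (σ z / 10) • u) ∧ σ (z + (σ z / 10) • u) ≤ 11 * (σ z / 10) := by
  have h1 : ‖z + (σ z / 10) • u - z‖ ≤ σ z / 10 := by
    rw [add_sub_cancel_left, norm_smul, Real.norm_of_nonneg (by positivity)]
    exact mul_le_of_le_one_right (by positivity) hu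
  exact ⟨by linarith [hσ.le' z (z + (σ z / 10) • u)], by linarith [hσ.2 (z + (σ z / 10) • u) z]⟩

/-- the same for cells of radius `σ z / 10` -/
theorem cell_margin' (H : Hs d s) {G : Gg M N j} (hG : IsGauge d e G) (g : Fin M → CF N d s)
    {κ : Type} {σ : κ → E N → ℝ} (hσ : ∀ k, Lip1 (σ k)) {ε : ℝ} (hε : 0 < ε)
    (hmar : ∀ k x, 0 < σ k x → ε * fb G g x (σ k x) ≤ fa G g x (σ k x)) :
    ∃ ε', 0 < ε' ∧ ∀ k z u, 0 < σ k z → ‖u‖ ≤ 1 →
      ε' * gb G (nj g z (σ k z / 10)) ≤ gaAt G (nj g z (σ k z / 10)) u := by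
  obtain ⟨ε', h0, h⟩ := cell_margin H hG g (R := 11) (by norm_num) hε
  refine ⟨ε', h0, fun k z u hz hu => ?_⟩
  obtain ⟨h1, h2⟩ := cell_pt (hσ k) hz hu
  exact h z u _ _ (by positivity) (by linarith) (by linarith) h2 (hmar k _ (by linarith))

/-- a tame matrix field is bounded and Lipschitz on the cells, in normalised coordinates -/
theorem cell_J {κ A B : Type} [Finite A] [Finite B] {σ : κ → E N → ℝ} (hσ : ∀ k, Lip1 (σ k))
    {J : κ → E N → Matrix A B ℝ}
    (hJ : TM d (fun p : {p : κ × E N // 0 < σ p.1 p.2} => p.1.2) (fun p => σ p.1.1 p.1.2)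
      fun p => J p.1.1) :
    ∃ C L η : ℝ, 0 < η ∧ ∀ k z, 0 < σ k z →
      (∀ u a b, ‖u‖ ≤ 1 → |J k (z + (σ k z / 10) • u) a b| ≤ C) ∧
      ∀ u u' a b, ‖u‖ ≤ 1 → ‖u'‖ ≤ 1 → ‖u - u'‖ ≤ η →
        |J k (z + (σ k z / 10) • u) a b - J k (z + (σ k z / 10) • u') a b| ≤ L * ‖u - u'‖ := by
  obtain ⟨C, η, hC, hη, h⟩ := TN.fin (fun p : {p : κ × E N // 0 < σ p.1 p.2} => p.2.le)
    (fun _ => zero_le_one) fun q : A × B => hJ q.1 q.2
  have hK := Kg_pos N d
  refine ⟨2 * C, (Kg N d + 1) * C / η, η, hη, fun k z hz => ⟨fun u a b hu => ?_,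
    fun u u' a b hu hu' h0 => ?_⟩⟩
  · have h1 : 0 < σ k (z + (σ k z / 10) • u) := by linarith [(cell_pt (hσ k) hz hu).1]
    simpa using (h ((a, b), ⟨(k, _), h1⟩)).2.abs_le (y := z + (σ k z / 10) • u)
      (by simp; positivity)
  · have h2 := (cell_pt (hσ k) hz hu').1
    have h1 : 0 < σ k (z + (σ k z / 10) • u') := by linarith
    have h3 : ‖z + (σ k z / 10) • u - (z + (σ k z / 10) • u')‖ = σ k z / 10 * ‖u - u'‖ := by
      rw [add_sub_add_left_eq_sub, ← smul_sub, norm_smul, Real.norm_of_nonneg (by positivity)]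
    have h4 : σ k z / 10 * ‖u - u'‖ ≤ σ k (z + (σ k z / 10) • u') * ‖u - u'‖ :=
      mul_le_mul_of_nonneg_right (by linarith) (norm_nonneg _)
    refine ((h ((a, b), ⟨(k, _), h1⟩)).2.lip (y := z + (σ k z / 10) • u) ?_).trans ?_
    · dsimp only
      rw [h3]
      nlinarith
    · dsimp only
      rw [h3, mul_one, div_mul_eq_mul_div (_ * C), mul_div_assoc (_ * C)]
      refine mul_le_mul_of_nonneg_left ?_ (by positivity)
      rw [div_le_div_iff₀ (mul_pos hη h1) hη]
      nlinarith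

end Pool.Agent.CA9.UB
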