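import Pool.Agent.Lib.MP_ca9be0_an.UB.LG3
import Pool.Agent.Lib.MP_ca9be0_an.UB.Cl1
import Pool.Agent.Lib.MP_ca9be0_an.UB.Defs

/-! Lemma G for the frame gauges. -/

namespace Pool.Agent.CA9.UB

open Finset Matrix Pool.Agent.Lib.MP_ca9be0_an.PyF

lemma LP.of_Pd {N e : ℕ} {p : E N → ℝ} (hp : p ∈ Pd N e) : LP e p :=
  Pd_ind (C := fun e p => LP e p) (fun e c => LP.const e c) (fun _ _ _ h h' => h.add h')
    (fun e c _ h => (h.smul c).mono (Nat.le_succ e))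
    (fun e c i _ h => by
      have := ((LP.linear (EuclideanSpace.projₗ (𝕜 := ℝ) i)).smul c).mul h
      rwa [add_comm] at this) hp

section LM

variable {X : Type} [AddCommGroup X] [Module ℝ X] {A B C : Type} {e e' : ℕ}

/-- matrices whose entries are polynomial on lines -/
def LM (e : ℕ) (F : X → Matrix A B ℝ) : Prop := ∀ a b, LP e fun x => F x a b

lemma LM.const (e : ℕ) (F : Matrix A B ℝ) : LM e fun _ : X => F := fun _ _ => LP.const _ _

lemma LM.mono {F : X → Matrix A B ℝ} (h : LM e F) (he : e ≤ e') : LM e' F :=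
  fun a b => (h a b).mono he

lemma LM.add {F G : X → Matrix A B ℝ} (h : LM e F) (h' : LM e G) : LM e fun x => F x + G x :=
  fun a b => (h a b).add (h' a b)

lemma LM.sub {F G : X → Matrix A B ℝ} (h : LM e F) (h' : LM e G) : LM e fun x => F x - G x :=
  fun a b => (h a b).sub (h' a b)

lemma LM.tr {F : X → Matrix A B ℝ} (h : LM e F) : LM e fun x => (F x)ᵀ := fun a b => h b a

lemma LM.smul {f : X → ℝ} {F : X → Matrix A B ℝ} (h : LP e f) (h' : LM e' F) :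
    LM (e + e') fun x => f x • F x := fun a b => h.mul (h' a b)

lemma LM.mul [Fintype B] {F : X → Matrix A B ℝ} {G : X → Matrix B C ℝ} (h : LM e F)
    (h' : LM e' G) : LM (e + e') fun x => F x * G x :=
  fun a c => LP.sum univ fun b _ => (h a b).mul (h' b c)

variable [Fintype A] [Fintype B] [DecidableEq A] [DecidableEq B] {F : X → Matrix A B ℝ}

omit [DecidableEq A] in
lemma LM.gM (h : LM e F) (I : Finset B) : LM (e + e) fun x => gM (F x) I :=
  ((h.mul (LM.const 0 (msk I))).tr.mul (h.mul (LM.const 0 (msk I)))).add (LM.const _ _)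

omit [DecidableEq A] in
lemma LM.gI (h : LM e F) (I : Finset B) : LP (Fintype.card B * (e + e)) fun x => gI (F x) I :=
  LP.det (h.gM I)

omit [DecidableEq A] in
lemma LM.gram (h : LM e F) : LP (Fintype.card B * (e + e)) fun x => (1 + (F x)ᵀ * F x).det :=
  LP.det ((LM.const _ 1).add (h.tr.mul h))

lemma LM.aI (h : LM e F) (I : Finset B) :
    LM (Fintype.card B * (e + e) + (e + e)) fun x => aI (F x) I := by
  have h1 := h.mul (LM.const 0 (msk I))
  have h2 : LM (Fintype.card B * (e + e)) fun x => (UB.gM (F x) I).adjugate :=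
    LP.adjugate (h.gM I)
  exact ((LM.smul (h.gI I) (LM.const 0 1)).mono (by omega)).sub
    (((h1.mul h2).mul h1.tr).mono (by omega))

end LM

variable {N n j M m d : ℕ} {T : Fin M → E N → ℝ}

lemma fX_LM (hT : PV d T) : LM d fun z : E N × (Fin j → E N) => fX d T z.1 z.2 := fun w a => by
  simp only [fX, of_apply, res, co]
  refine LP.sum _ fun y _ => LP.smul _ ((LP.of_Pd (hT w)).aff fun x x' =>
    ⟨fr x'.1 x'.2 y, fun t => ?_⟩)
  simp only [fr, Prod.fst_add, Prod.smul_fst, Prod.snd_add, Prod.smul_snd, Pi.add_apply,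
    Pi.smul_apply, smul_add, sum_add_distrib, smul_sum, smul_comm t]
  abel

lemma fG_LP (hT : PV d T) : LP (Fintype.card (BA j d) * (d + d))
    fun z : E N × (Fin j → E N) => fG d j T z.1 z.2 := (fX_LM hT).gram

lemma fG_one_le (T : Fin M → E N → ℝ) (u : E N) (v : Fin j → E N) : 1 ≤ fG d j T u v :=
  one_le_gram _

/-- the supremum `gb` of the frame gauge is attained -/
lemma gb_fG (hT : PV d T) : ∃ u v, ‖u‖ ≤ 1 ∧ ‖v‖ ≤ 1 ∧ gb (fG d j) T = fG d j T u v ∧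
    ∀ u' v', ‖u'‖ ≤ 1 → ‖v'‖ ≤ 1 → fG d j T u' v' ≤ gb (fG d j) T := by
  obtain ⟨z, h1, h2⟩ := (fG_LP (j := j) hT).bdd
  have h3 : IsGreatest {r | ∃ u v, ‖u‖ ≤ 1 ∧ ‖v‖ ≤ 1 ∧ r = fG d j T u v} (fG d j T z.1 z.2) := by
    refine ⟨⟨_, _, (norm_fst_le z).trans h1, (norm_snd_le z).trans h1, rfl⟩, ?_⟩
    rintro _ ⟨u, v, hu, hv, rfl⟩
    have := h2 (u, v) (max_le hu hv)
    rwa [abs_of_nonneg (zero_le_one.trans (fG_one_le _ _ _)),
      abs_of_nonneg (zero_le_one.trans (fG_one_le _ _ _))] at this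
  have h4 : gb (fG d j) T = fG d j T z.1 z.2 := h3.csSup_eq
  exact ⟨_, _, (norm_fst_le z).trans h1, (norm_snd_le z).trans h1, h4,
    fun u v hu hv => h4 ▸ h3.2 ⟨u, v, hu, hv, rfl⟩⟩

lemma one_le_gb (hT : PV d T) : 1 ≤ gb (fG d j) T := by
  obtain ⟨u, v, -, -, h, -⟩ := gb_fG (j := j) hT
  exact h ▸ fG_one_le _ _ _

lemma gaAt_fG (hT : PV d T) (u : E N) : ∃ v, ‖v‖ ≤ 1 ∧ gaAt (fG d j) T u = fG d j T u v := by
  obtain ⟨z, h1, h2⟩ := (LP.right (F := fG d j T) (fG_LP hT) u).bdd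
  have h3 : IsGreatest {r | ∃ v, ‖v‖ ≤ 1 ∧ r = fG d j T u v} (fG d j T u z) := by
    refine ⟨⟨_, h1, rfl⟩, ?_⟩
    rintro _ ⟨v, hv, rfl⟩
    have := h2 v hv
    rwa [abs_of_nonneg (zero_le_one.trans (fG_one_le _ _ _)),
      abs_of_nonneg (zero_le_one.trans (fG_one_le _ _ _))] at this
  exact ⟨z, h1, h3.csSup_eq⟩

lemma choose_step (hd : 1 ≤ d) (j k : ℕ) : (j + d).choose d + k ≤ (j + k + d).choose d := by
  induction k with
  | zero => simp
  | succ k ih =>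
    obtain ⟨d, rfl⟩ := Nat.exists_eq_add_of_le' hd
    have h1 : (j + (k + 1) + (d + 1)).choose (d + 1) =
        (j + k + (d + 1)).choose d + (j + k + (d + 1)).choose (d + 1) := by
      rw [← Nat.choose_succ_succ']; congr 1; omega
    have h2 : 0 < (j + k + (d + 1)).choose d := Nat.choose_pos (by omega)
    omega

theorem lemmaG_fG (n d M : ℕ) (hd : 1 ≤ d)
    (hG : ∀ j, j ≤ n → ∃ e, IsGauge d e (fG d j : Gg M (n + 1) j)) :
    ∃ (L : Type) (_ : Fintype L) (j : L → ℕ) (v : ∀ Φ, Fin (j Φ) → E (n + 1)),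
      (∀ Φ, j Φ ≤ n ∧ ‖v Φ‖ ≤ 1) ∧ ∀ m : ℕ, (n + d).choose d < m →
      ∀ (ι : Type) (T : ι → Fin M → E (n + 1) → ℝ)
        (J : ι → E (n + 1) → Matrix (Am m M) (Fin M) ℝ) (C K η ε δ : ℝ), 0 < η → 0 < ε → 0 < δ →
      (∀ i, PV d (T i)) →
      (∀ i u, ‖u‖ ≤ 1 → ε * gb (fG d n) (T i) ≤ gaAt (fG d n) (T i) u) →
      (∀ i u y w, ‖u‖ ≤ 1 → |J i u y w| ≤ C) →
      (∀ i u u' y w, ‖u‖ ≤ 1 → ‖u'‖ ≤ 1 → ‖u - u'‖ ≤ η →
        |J i u y w - J i u' y w| ≤ K * ‖u - u'‖) →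
      ∃ ε₁ : ℝ, 0 < ε₁ ∧ ∀ i b, ∃ q : Am m M → ℝ, (∀ a, a ≠ b → q (Sum.inr a) = 0) ∧
        (∀ y, |q y - (Pi.single (Sum.inr b) 1 : Am m M → ℝ) y| ≤ δ) ∧ ∀ u, ‖u‖ ≤ 1 → ε₁ ≤
        ∑ Φ, ∑ I, (((gb (fG d (j Φ)) (T i))⁻¹ • aI (fX d (T i) u (v Φ)) I) *ᵥ ((J i u)ᵀ *ᵥ q)) ⬝ᵥ
            (((gb (fG d (j Φ)) (T i))⁻¹ • aI (fX d (T i) u (v Φ)) I) *ᵥ ((J i u)ᵀ *ᵥ q)) +
          (q - J i u *ᵥ ((J i u)ᵀ *ᵥ q)) ⬝ᵥ (q - J i u *ᵥ ((J i u)ᵀ *ᵥ q)) := by
  classical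
  choose net n1 n2 using fun j => exists_net (Fin j → E (n + 1)) (Fintype.card (BA j d) * (d + d))
  refine ⟨Σ j : Fin (n + 1), net j, inferInstance, fun Φ => Φ.1, fun Φ => Φ.2,
    fun Φ => ⟨Nat.lt_succ_iff.1 Φ.1.2, n1 _ _ Φ.2.2⟩,
    fun m hm ι T J C K η ε δ hη hε hδ hT hmar hJ hJl => ?_⟩
  let Al := Σ Φ : Σ j : Fin (n + 1), net j, Finset (BA Φ.1 d)
  let p : ι → Al → E (n + 1) → ℝ := fun i α u =>
    (gb (fG d α.1.1) (T i))⁻¹ * gI (fX d (T i) u α.1.2.1) α.2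
  have gp : ∀ i j, 0 < gb (fG d j) (T i) := fun i j => one_pos.trans_le (one_le_gb (hT i))
  have p0 : ∀ i α u, 0 ≤ p i α u := fun i α u =>
    mul_nonneg (inv_nonneg.2 (gp _ _).le) (gI_nonneg _ _)
  have p1 : ∀ i α u, ‖u‖ ≤ 1 → p i α u ≤ 1 := fun i α u hu => by
    obtain ⟨-, -, -, -, -, h⟩ := gb_fG (j := α.1.1) (hT i)
    exact (inv_mul_le_one₀ (gp _ _)).2 ((gI_le _ _).trans (h u _ hu (n1 _ _ α.1.2.2)))
  have cB : ∀ j ≤ n, Fintype.card (BA j d) + (n - j) ≤ (n + d).choose d := fun j hj => by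
    have := choose_step hd j (n - j)
    rw [Nat.add_sub_cancel' hj] at this
    linarith [card_BA j d]
  have cB' : ∀ j ≤ n, Fintype.card (BA j d) * (d + d) ≤ (n + d).choose d * (d + d) := fun j hj =>
    Nat.mul_le_mul_right _ (le_trans (Nat.le_add_right _ _) (cB j hj))
  have net' : ∀ i, ∀ j ≤ n, ∀ u v, ‖v‖ ≤ 1 → (gb (fG d j) (T i))⁻¹ * fG d j (T i) u v ≤
      2 * ∑ α : Al with (α.1.1 : ℕ) = j, p i α u := fun i j hj u v hv => by
    obtain ⟨z, h1, h2⟩ := n2 j _ (LP.right (F := fG d j (T i)) (fG_LP (hT i)) u) v hv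
    rw [abs_of_nonneg (zero_le_one.trans (fG_one_le _ _ _)),
      abs_of_nonneg (zero_le_one.trans (fG_one_le _ _ _))] at h2
    let f : Finset (BA j d) ↪ Al := ⟨fun I => ⟨⟨⟨j, Nat.lt_succ_of_le hj⟩, ⟨z, h1⟩⟩, I⟩,
      fun I I' h => eq_of_heq (Sigma.mk.inj h).2⟩
    have h3 : ∑ α ∈ univ.map f, p i α u ≤ ∑ α : Al with (α.1.1 : ℕ) = j, p i α u :=
      sum_le_sum_of_subset_of_nonneg (fun α hα => by
        obtain ⟨I, -, rfl⟩ := mem_map.1 hα
        exact mem_filter.2 ⟨mem_univ _, rfl⟩) fun α _ _ => p0 i α u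
    rw [sum_map] at h3
    have h4 : ∑ I, p i (f I) u = (gb (fG d j) (T i))⁻¹ * fG d j (T i) u z := by
      rw [fG, ← sum_gI, mul_sum]; rfl
    rw [h4] at h3
    have h5 := mul_le_mul_of_nonneg_left h2 (inv_nonneg.2 (gp i j).le)
    linarith
  have key := fun b : Fin M => lemmaG (X := E (n + 1))
    (insert (Sum.inr b) (univ.map Function.Embedding.inl) : Finset (Am m M))
    (Pi.single (Sum.inr b) 1) (fun y hy => Pi.single_eq_of_ne (by rintro rfl; simp at hy) _)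
    ((n + d).choose d * (d + d) + (d + d)) n (fun α : Al => α.1.1) (fun α => α.2.card)
    (fun α => by
      have h1 := cB α.1.1 (Nat.lt_succ_iff.1 α.1.1.2)
      have h2 := card_le_univ α.2
      have h3 := α.1.1.2
      rw [card_insert_of_notMem (by simp), card_map, finrank_euclideanSpace_fin, card_univ,
        Fintype.card_fin]
      omega)
    (fun i j u v => (gb (fG d j) (T i))⁻¹ * fG d j (T i) u v) p
    (fun i α u => (gb (fG d α.1.1) (T i))⁻¹ • aI (fX d (T i) u α.1.2.1) α.2) J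
    (C := max C 2) (L := K) hη (ε := min (ε / 2) 1) (by positivity) hδ
    (fun i j hj => ((fG_LP (hT i)).smul _).mono (by have := cB' j hj.le; omega))
    (fun i j _ u v => mul_nonneg (inv_nonneg.2 (gp _ _).le) (zero_le_one.trans (fG_one_le _ _ _)))
    (fun i j _ => by
      obtain ⟨u, v, h1, h2, h3, -⟩ := gb_fG (j := j) (hT i)
      exact ⟨u, v, h1, h2, by rw [← h3, inv_mul_cancel₀ (gp i j).ne']; exact min_le_right _ _⟩)
    (fun j hj c => by
      obtain ⟨e, he⟩ := hG j hj.le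
      obtain ⟨K, -, hK⟩ := he.trans ‖(WithLp.toLp 2 c : E j)‖
      refine ⟨K, fun i u v => ?_⟩
      rw [mul_left_comm]
      exact mul_le_mul_of_nonneg_left (hK (T i) u v _ (hT i) le_rfl) (inv_nonneg.2 (gp _ _).le))
    (fun i j hj u v _ hv => (net' i j hj.le u v hv).trans
      (mul_le_mul_of_nonneg_right (le_max_right _ _) (sum_nonneg fun α _ => p0 i α u)))
    (fun i u hu => by
      obtain ⟨v, h1, h2⟩ := gaAt_fG (j := n) (hT i) u
      have h3 := net' i n le_rfl u v h1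
      have h4 := hmar i u hu
      rw [h2, ← le_div_iff₀ (gp i n), div_eq_inv_mul] at h4
      linarith [min_le_left (ε / 2) 1])
    (fun i α => (LP.left (F := fun u v => gI (fX d (T i) u v) α.2) ((fX_LM (hT i)).gI α.2)
      α.1.2.1 |>.smul _).mono (by have := cB' α.1.1 (Nat.lt_succ_iff.1 α.1.1.2); omega))
    (fun i α u hu => by
      rw [abs_of_nonneg (p0 i α u)]
      exact (p1 i α u hu).trans (le_max_of_le_right one_le_two))
    (fun i α a b => (LP.left (F := fun u v => aI (fX d (T i) u v) α.2 a b)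
      ((fX_LM (hT i)).aI α.2 a b) α.1.2.1 |>.smul _).mono
        (by have := cB' α.1.1 (Nat.lt_succ_iff.1 α.1.1.2); omega))
    (fun i α u a b hu => by
      rw [Matrix.smul_apply, smul_eq_mul, abs_mul, abs_of_nonneg (inv_nonneg.2 (gp _ _).le)]
      exact (mul_le_mul_of_nonneg_left (aI_le _ _ a b) (inv_nonneg.2 (gp _ _).le)).trans
        ((p1 i α u hu).trans (le_max_of_le_right one_le_two)))
    (fun i α u => by
      rw [Matrix.smul_mul, Matrix.mul_smul, aI_sq, smul_smul, smul_smul, smul_smul]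
      congr 1
      simp only [p]; ring)
    (fun i α u => by rw [trace_smul, aI_trace, smul_eq_mul]; simp only [p]; ring)
    (fun i u y w hu => (hJ i u y w hu).trans (le_max_left _ _)) hJl
  choose e' e1 e2 using key
  obtain ⟨c, c1, c2⟩ : ∃ c, 0 < c ∧ ∀ b, c ≤ e' b := by
    rcases isEmpty_or_nonempty (Fin M) with h | h
    · exact ⟨1, one_pos, fun b => h.elim b⟩
    · obtain ⟨b, hb⟩ := Finite.exists_min e'
      exact ⟨e' b, e1 b, hb⟩
  refine ⟨c, c1, fun i b => ?_⟩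
  obtain ⟨q, q1, q2, q3⟩ := e2 b i
  refine ⟨q, fun a ha => q1 _ (by simpa using ha), q2, fun u hu => (c2 b).trans ?_⟩
  have := q3 u hu
  rwa [Fintype.sum_sigma] at this

end Pool.Agent.CA9.UB
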