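import Pool.Agent.Lib.MP_ca9be0_an.UB.Cl3
import Pool.Agent.Lib.MP_ca9be0_an.UB.ClT
import Pool.Agent.Lib.MP_ca9be0_an.UB.LG5

/-! The module of the cleaning step and the vector fields that Lemma G gives. -/

namespace Pool.Agent.CA9.UB

open Finset Matrix Pool.Agent.Lib.MP_ca9be0_an.PyF

variable {N n j M m d e : ℕ} {s : ℝ} {κ : Type}

/-- vector fields attached to the directions `v` -/
structure MF (g : Fin M → CF N d s) (σ : κ → E N → ℝ) (v : Fin j → E N)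
    (w : κ → E N → Fin M → ℝ) : Prop where
  tw : ∀ b, GT d σ fun k y => w k y b
  tX : ∀ c, TQ d σ (fun p y => ∑ b, pX g p.1.2 (σ p.1.1 p.1.2) v y b c * w p.1.1 y b) fun _ => 1
  sm : ∃ C, 0 ≤ C ∧ ∀ k y b, 0 < σ k y → |w k y b| ≤ C * hP g v y (σ k y)

variable {g : Fin M → CF N d s} {σ : κ → E N → ℝ} {v : Fin j → E N}
  {u w : κ → E N → Fin M → ℝ}

lemma hP_nonneg (g : Fin M → CF N d s) (v : Fin j → E N) (y : E N) (ρ : ℝ) : 0 ≤ hP g v y ρ :=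
  div_nonneg (zero_le_one.trans (fG_one_le _ _ _))
    (zero_le_one.trans (one_le_gb (nj_PV g y ρ)))

lemma MF.zero : MF g σ v fun _ _ => 0 :=
  ⟨fun _ => T1.c PS.hr 0, fun c => (T1.c PS.hr 0).congr' fun p y => by simp, 0, le_rfl,
    fun k y b _ => by simp⟩

lemma MF.add (h : MF g σ v u) (h' : MF g σ v w) : MF g σ v fun k y => u k y + w k y := by
  obtain ⟨C, h0, h1⟩ := h.sm
  obtain ⟨C', h0', h1'⟩ := h'.sm
  refine ⟨fun b => (h.tw b).add (h'.tw b), fun c => ((h.tX c).add (h'.tX c)).congr' fun p y => ?_,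
    C + C', by positivity, fun k y b hy => (abs_add_le _ _).trans ?_⟩
  · simp only [Pi.add_apply, mul_add, sum_add_distrib]
  · linarith [h1 k y b hy, h1' k y b hy]

lemma MF.smul {c : κ → E N → ℝ} (hc : GT d σ c) (h : MF g σ v u) :
    MF g σ v fun k y => c k y • u k y := by
  obtain ⟨C, h0, h1⟩ := h.sm
  obtain ⟨C', h0', h1'⟩ := T1.ctr hc
  refine ⟨fun b => hc.mul1 (h.tw b), fun c => (hc.mul1 (h.tX c)).congr' fun p y => ?_,
    C' * C, by positivity, fun k y b hy => ?_⟩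
  · simp only [Pi.smul_apply, smul_eq_mul, mul_sum, mul_left_comm]
  · rw [Pi.smul_apply, smul_eq_mul, abs_mul, mul_assoc]
    exact mul_le_mul (h1' ⟨(k, y), hy⟩) (h1 k y b hy) (abs_nonneg _) h0'.le

lemma MF.sum {α : Type} (t : Finset α) {U : α → κ → E N → Fin M → ℝ}
    (h : ∀ a ∈ t, MF g σ v (U a)) : MF g σ v fun k y => ∑ a ∈ t, U a k y := by
  classical
  induction t using Finset.induction_on with
  | empty => simpa using MF.zero
  | insert a t ha ih =>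
    simp only [sum_insert ha]
    exact (h a (mem_insert_self _ _)).add (ih fun j hj => h j (mem_insert_of_mem hj))

/-- sums of vector fields over the labels -/
def MX (g : Fin M → CF N d s) (σ : κ → E N → ℝ) {L : Type} [Fintype L] {j : L → ℕ}
    (v : ∀ Φ, Fin (j Φ) → E N) (u : κ → E N → Fin M → ℝ) : Prop :=
  ∃ w : L → κ → E N → Fin M → ℝ, (∀ Φ, MF g σ (v Φ) (w Φ)) ∧ ∀ k y, u k y = ∑ Φ, w Φ k y

lemma MX.md {L : Type} [Fintype L] {j : L → ℕ} (v : ∀ Φ, Fin (j Φ) → E N) {ω : PS σ → ℝ}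
    (hω : ∀ p : PS σ, σ p.1.1 p.1.2 ^ s ≤ ω p) :
    Md d σ (MX g σ v) (fun p y w => (g w).P p.1.2 y) ω where
  zero := ⟨fun _ _ _ => 0, fun _ => MF.zero, fun _ _ => by simp⟩
  add := fun ⟨w, h1, h2⟩ ⟨w', h1', h2'⟩ => ⟨fun Φ k y => w Φ k y + w' Φ k y,
    fun Φ => (h1 Φ).add (h1' Φ), fun k y => by simp only [h2, h2', sum_add_distrib]⟩
  smul := fun {c _} hc ⟨w, h1, h2⟩ => ⟨fun Φ k y => c k y • w Φ k y,
    fun Φ => (h1 Φ).smul hc, fun k y => by simp only [h2, smul_sum]⟩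
  small := fun ⟨w, h1, h2⟩ => by
    have h0 : ∀ p : PS σ, 0 ≤ ω p := fun p => (Real.rpow_nonneg p.hr _).trans (hω p)
    refine (TN.sum univ PS.hr h0 fun Φ _ => (tX_P g (fun p : PS σ => p.2) (v Φ)
      (w := fun p y => w Φ p.1.1 y) (h1 Φ).tX).mono_w 1 (fun p => by simpa using hω p) h0).congr'
        fun p y => ?_
    rw [h2, sum_dotProduct]
    rfl

lemma TQ.loc (hσ : ∀ k, Lip1 (σ k)) (c : Col N) {F : PS σ → E N → E N → ℝ}
    (h : TQ d σ (fun p y => F p (cec (σ p.1.1) c p.1.2) y) fun _ => 1) :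
    TQ d σ (fun p y => cuf d (σ p.1.1) c y * F p (cec (σ p.1.1) c y) y) fun _ => 1 :=
  ((cuf_GT hσ c).mul1 h).congr (η₀ := 1 / 1000) (by norm_num) fun p y hy => by
    rcases cuf_loc (d := d) (c := c) (hσ p.1.1) hy with h1 | h1
    · simp only [h1, zero_mul]
    · rw [h1]

lemma cec_Near (hσ : ∀ k, Lip1 (σ k)) (c : Col N) : Near 20 (fun p : PS σ => p.1.2)
    (fun p => σ p.1.1 p.1.2) (fun p => cec (σ p.1.1) c p.1.2)
    fun p => σ p.1.1 (cec (σ p.1.1) c p.1.2) / 10 := by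
  refine ⟨by norm_num, fun p => p.2, fun p => ?_, fun p => ?_, fun p => ?_⟩
  · linarith [cec_near (hσ p.1.1) c p.1.2, p.2]
  · linarith [cec_near (hσ p.1.1) c p.1.2, p.2, (hσ p.1.1).2 (cec (σ p.1.1) c p.1.2) p.1.2]
  · linarith [cec_near (hσ p.1.1) c p.1.2, p.2, (hσ p.1.1).le' p.1.2 (cec (σ p.1.1) c p.1.2)]

lemma MF.cell (H : Hs d s) (hG : IsGauge d e (fG d j : Gg M N j)) (hσ : ∀ k, Lip1 (σ k))
    (hv : ‖v‖ ≤ 1) (I : Finset (BA j d)) (c : Col N) {U : κ → E N → E N → Fin M → ℝ}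
    (hU : ∀ a, TQ d σ (fun p y => U p.1.1 (cec (σ p.1.1) c p.1.2) y a) fun _ => 1) :
    MF g σ v fun k y => cuf d (σ k) c y •
      cA g v I (cec (σ k) c y) (σ k (cec (σ k) c y) / 10) y *ᵥ U k (cec (σ k) c y) y := by
  have hN := cec_Near hσ c
  refine ⟨fun b => TQ.loc hσ c (F := fun p z y =>
    (cA g v I z (σ p.1.1 z / 10) y *ᵥ U p.1.1 z y) b) (TM.mulVec PS.hr (cA_TM hG g hN hv I) hU b),
    fun a => (TQ.loc hσ c (F := fun p z y => (((pX g p.1.2 (σ p.1.1 p.1.2) v y)ᵀ *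
      cA g v I z (σ p.1.1 z / 10) y) *ᵥ U p.1.1 z y) a)
      (TM.mulVec PS.hr (cA_pX H hG g hN hv I) hU a)).congr' fun p y => ?_, ?_⟩
  · rw [← mulVec_mulVec]
    simp only [Pi.smul_apply, smul_eq_mul, mul_left_comm _ (cuf _ _ _ _), ← mul_sum]
    rfl
  · obtain ⟨C, h0, h1⟩ := cA_hP H hG g hN hv I
    obtain ⟨C', h0', h1'⟩ := T1.ctr (TN.fin PS.hr (fun _ => zero_le_one) hU)
    refine ⟨M * (C * C'), by positivity, fun k y b hy => ?_⟩
    have h2 := hP_nonneg g v y (σ k y)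
    rw [Pi.smul_apply, smul_eq_mul, abs_mul, abs_of_nonneg (cuf_mem _ _ _).1]
    refine (mul_le_of_le_one_left (abs_nonneg _) (cuf_mem _ _ _).2).trans ?_
    rw [mulVec, dotProduct]
    refine (abs_sum_le_sum_abs _ _).trans ((sum_le_card_nsmul univ _
      (C * hP g v y (σ k y) * C') fun a _ => ?_).trans (le_of_eq ?_))
    · rw [abs_mul]
      exact mul_le_mul (h1 ⟨(k, y), hy⟩ b a) (h1' (a, ⟨(k, y), hy⟩)) (abs_nonneg _)
        (by positivity)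
    · rw [card_univ, Fintype.card_fin, nsmul_eq_mul]; ring

lemma orc_alg {V W : Type} [Fintype V] [Fintype W] [DecidableEq W] {J : Matrix V W ℝ}
    (h : Jᵀ * J = 1) (q : V → ℝ) (z : W → ℝ) (p : ℝ) :
    (J *ᵥ z + p • (q - J *ᵥ (Jᵀ *ᵥ q))) ᵥ* J = z ∧ (J *ᵥ z + p • (q - J *ᵥ (Jᵀ *ᵥ q))) ⬝ᵥ q =
      z ⬝ᵥ (Jᵀ *ᵥ q) + p * ((q - J *ᵥ (Jᵀ *ᵥ q)) ⬝ᵥ (q - J *ᵥ (Jᵀ *ᵥ q))) := by
  have h1 : ∀ z, Jᵀ *ᵥ (J *ᵥ z) = z := fun z => by rw [mulVec_mulVec, h, one_mulVec]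
  have h2 : (q - J *ᵥ (Jᵀ *ᵥ q)) ᵥ* J = 0 := by
    rw [← mulVec_transpose, mulVec_sub, h1, sub_self]
  constructor
  · rw [add_vecMul, smul_vecMul, h2, ← mulVec_transpose, h1, smul_zero, add_zero]
  · rw [add_dotProduct, smul_dotProduct, dotProduct_sub (q - _), dotProduct_mulVec (q - _), h2,
      zero_dotProduct, sub_zero, smul_eq_mul, dotProduct_mulVec z, vecMul_transpose]

end Pool.Agent.CA9.UB
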