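import Pool.Agent.Lib.MP_ca9be0_an.UB.Defs
import Pool.Agent.Lib.MP_ca9be0_an.UB.AlgE

/-! Interface: the frame gauge. -/

namespace Pool.Agent.CA9.UB

open Finset Matrix Pool.Agent.Lib.MP_ca9be0_an.PyF

variable {N n k j M m d e e' : ℕ} {s : ℝ}

/-- substitution of polynomial coordinates into a polynomial -/
lemma gf_Pd_comp {p a : ℕ} {φ : E p → E N} (hφ : ∀ i, (fun θ => φ θ i) ∈ Pd p a)
    {q : E N → ℝ} (hq : q ∈ Pd N d) : (fun θ => q (φ θ)) ∈ Pd p (d * a) := by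
  refine Pd_ind (C := fun e q => (fun θ => q (φ θ)) ∈ Pd p (e * a)) (fun e c => const_mem _ c)
    (fun e p q hp hq => Pd_add hp hq)
    (fun e c q hq => Pd_mono (Nat.mul_le_mul_right a (Nat.le_succ e)) (Pd_smul c hq))
    (fun e c i q hq => ?_) hq
  rw [add_mul, one_mul, add_comm]
  exact Pd_mul (Pd_smul c (hφ i)) hq

lemma gf_Pd_prod {p a : ℕ} {α : Type*} (t : Finset α) {q : α → E p → ℝ}
    (h : ∀ i ∈ t, q i ∈ Pd p a) : (fun θ => ∏ i ∈ t, q i θ) ∈ Pd p (t.card * a) := by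
  classical
  induction t using Finset.induction_on with
  | empty => simpa using const_mem (n := p) 0 1
  | insert i t hi ih =>
    simp only [prod_insert hi, card_insert_of_notMem hi]
    rw [add_mul, one_mul, add_comm]
    exact Pd_mul (h i (mem_insert_self _ _)) (ih fun l hl => h l (mem_insert_of_mem hl))

lemma gf_Pd_det {p a : ℕ} {A : Type} [Fintype A] [DecidableEq A] {X : E p → Matrix A A ℝ}
    (h : ∀ i l, (fun θ => X θ i l) ∈ Pd p a) :
    (fun θ => (X θ).det) ∈ Pd p (Fintype.card A * a) := by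
  simp only [det_apply']
  exact Pd_sum _ fun σ _ => Pd_smul _ (gf_Pd_prod univ fun i _ => h (σ i) i)

lemma gf_Pd_co {p a : ℕ} (γ : E k →₀ ℝ) {F : E p → E k → ℝ}
    (h : ∀ z, (fun θ => F θ z) ∈ Pd p a) : (fun θ => co γ (F θ)) ∈ Pd p a :=
  Pd_sum _ fun z _ => Pd_smul _ (h z)

lemma gf_fr_apply (u : E N) (v : Fin j → E N) (z : E j) (i : Fin N) :
    fr u v z i = u i + ∑ l, z l * v l i := by
  simp [fr]

lemma gf_fr_mem (u : E N) (v : Fin j → E N) {q : E N → ℝ} (hq : q ∈ Pd N d) :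
    (fun z => q (fr u v z)) ∈ Pd j d := by
  have := gf_Pd_comp (φ := fr u v) (a := 1) (fun i => ?_) hq
  · rwa [mul_one] at this
  simp only [gf_fr_apply]
  refine Pd_add (const_mem _ _) (Pd_sum _ fun l _ => ?_)
  simp only [mul_comm _ (v l i)]
  exact Pd_smul _ (gen_mem (some l))

/-- evaluation of a polynomial family at a polynomial point -/
lemma gf_Pd_eval {p a : ℕ} {F : E p → E N → ℝ} {φ : E p → E N} (hF : ∀ θ, F θ ∈ Pd N d)
    (h : ∀ y, (fun θ => F θ y) ∈ Pd p a) (hφ : ∀ i, (fun θ => φ θ i) ∈ Pd p a) :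
    (fun θ => F θ (φ θ)) ∈ Pd p ((d + 1) * a) := by
  have e1 : (fun θ => F θ (φ θ)) =
      fun θ => ∑ b, co ((bs N d).γ b) (F θ) * (bs N d).m b (φ θ) :=
    funext fun θ => (bs N d).exp _ (hF θ) _
  rw [e1, add_mul, one_mul, add_comm]
  exact Pd_sum _ fun b _ => Pd_mul (gf_Pd_co _ h) (gf_Pd_comp hφ ((bs N d).mem b))

lemma gf_mul_bd {A B C : Type} [Fintype B] {X : Matrix A B ℝ} {Y : Matrix B C ℝ} {x y : ℝ}
    (hX : ∀ a b, |X a b| ≤ x) (hY : ∀ b c, |Y b c| ≤ y) (a : A) (c : C) :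
    |(X * Y) a c| ≤ Fintype.card B * (x * y) := by
  rw [mul_apply]
  refine (abs_sum_le_sum_abs _ _).trans ?_
  rw [← nsmul_eq_mul, ← card_univ]
  refine sum_le_card_nsmul _ _ _ fun b _ => ?_
  rw [abs_mul]
  exact mul_le_mul (hX a b) (hY b c) (abs_nonneg _) ((abs_nonneg _).trans (hX a b))

lemma gf_entry_le {A B : Type} [Fintype B] (X : Matrix A B ℝ) (a : A) (h : (X * Xᵀ) a a ≤ 1)
    (b : B) : |X a b| ≤ 1 := by
  rw [mul_apply] at h
  have h1 : X a b * Xᵀ b a ≤ 1 :=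
    (single_le_sum (f := fun b => X a b * Xᵀ b a) (fun b _ => mul_self_nonneg (X a b))
      (mem_univ b)).trans h
  rw [transpose_apply] at h1
  exact abs_le_one_iff_mul_self_le_one.2 h1

open scoped MatrixOrder in
/-- comparison of Gram determinants -/
lemma gf_gram_cmp (W A A' : Type) [Fintype W] [DecidableEq W] [Fintype A] [DecidableEq A]
    [Fintype A'] [DecidableEq A'] (R : ℝ) : ∃ C, 0 < C ∧ ∀ (X : Matrix W A ℝ) (S : Matrix A A' ℝ)
    (Z : Matrix W A' ℝ), (∀ a b, |S a b| ≤ R) → (∀ a b, |Z a b| ≤ R) →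
      (1 + (X * S + Z)ᵀ * (X * S + Z)).det ≤ C * (1 + Xᵀ * X).det := by
  set y : ℝ := Fintype.card A * (1 * R) + Fintype.card W * (1 * R)
  set x : ℝ := Fintype.card W * (1 * 1) + Fintype.card A' * (y * y)
  refine ⟨|(Fintype.card W).factorial • x ^ Fintype.card W| + 1, by positivity,
    fun X S Z hS hZ => ?_⟩
  have h1 := one_le_det_gram X
  rw [det_one_add_mul_comm] at h1 ⊢
  rw [det_one_add_mul_comm Xᵀ]
  have hp : (1 + X * Xᵀ).PosSemidef := by
    simpa using PosSemidef.one.add (posSemidef_self_mul_conjTranspose X)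
  obtain ⟨L, hL⟩ := CStarAlgebra.nonneg_iff_eq_star_mul_self.mp hp.nonneg
  have hL' : 1 + X * Xᵀ = Lᵀ * L := by simpa [star_eq_conjTranspose] using hL
  have hd : (1 + X * Xᵀ).det = L.det * L.det := by rw [hL', det_mul, det_transpose]
  have hu : IsUnit L.det := isUnit_iff_ne_zero.2 fun e0 => by
    rw [hd, e0] at h1; norm_num at h1
  set K := (L⁻¹)ᵀ with hK
  have hK1 : K * Lᵀ = 1 := by rw [hK, ← transpose_mul, mul_nonsing_inv _ hu, transpose_one]
  have hK2 : L * Kᵀ = 1 := by rw [hK, transpose_transpose, mul_nonsing_inv _ hu]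
  have conj : ∀ {B : Type} [Fintype B] (Y : Matrix W B ℝ),
      K * (1 + Y * Yᵀ) * Kᵀ = K * Kᵀ + (K * Y) * (K * Y)ᵀ := fun Y => by
    rw [Matrix.mul_add, Matrix.add_mul, Matrix.mul_one, transpose_mul]
    simp only [Matrix.mul_assoc]
  have e1 : K * Kᵀ + (K * X) * (K * X)ᵀ = 1 := by
    rw [← conj, hL', ← Matrix.mul_assoc, hK1, Matrix.one_mul, hK2]
  have nn : ∀ {B : Type} [Fintype B] (Y : Matrix W B ℝ) (a : W), 0 ≤ (Y * Yᵀ) a a :=
    fun Y a => by rw [mul_apply]; exact sum_nonneg fun b _ => mul_self_nonneg (Y a b)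
  have e2 : ∀ a, (K * Kᵀ) a a + ((K * X) * (K * X)ᵀ) a a = 1 := fun a => by
    rw [← Matrix.add_apply, e1, one_apply_eq]
  have b1 : ∀ a b, |K a b| ≤ 1 := fun a =>
    gf_entry_le K a (by linarith [e2 a, nn (K * X) a])
  have b2 : ∀ a b, |(K * X) a b| ≤ 1 := fun a =>
    gf_entry_le (K * X) a (by linarith [e2 a, nn K a])
  have b3 : ∀ a b, |(K * (X * S + Z)) a b| ≤ y := fun a b => by
    rw [Matrix.mul_add, ← Matrix.mul_assoc, Matrix.add_apply]
    exact (abs_add_le _ _).trans (add_le_add (gf_mul_bd b2 hS a b) (gf_mul_bd b1 hZ a b))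
  have b4 : ∀ a b, |(K * (1 + (X * S + Z) * (X * S + Z)ᵀ) * Kᵀ : Matrix W W ℝ) a b| ≤ x := by
    intro a b
    rw [conj, Matrix.add_apply]
    exact (abs_add_le _ _).trans (add_le_add (gf_mul_bd b1 (fun c f => b1 f c) a b)
      (gf_mul_bd b3 (fun c f => b3 f c) a b))
  have b5 := det_le (abv := AbsoluteValue.abs) b4
  rw [AbsoluteValue.abs_apply] at b5
  have b6 := (le_abs_self _).trans (b5.trans (le_abs_self _))
  have e3 : (1 + (X * S + Z) * (X * S + Z)ᵀ).det =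
      (K * (1 + (X * S + Z) * (X * S + Z)ᵀ) * Kᵀ).det * (L.det * L.det) := by
    have a1 : K.det * L.det = 1 := by rw [← det_transpose L, ← det_mul, hK1, det_one]
    rw [det_mul, det_mul, det_transpose K]
    linear_combination (-(1 + (X * S + Z) * (X * S + Z)ᵀ).det * (K.det * L.det + 1)) * a1
  rw [e3, hd]
  exact mul_le_mul_of_nonneg_right (by linarith) (mul_self_nonneg _)

/-- the coefficient functionals are bounded by the supremum on a fixed ball -/
lemma gf_co_bd (k D : ℕ) : ∃ ρ K : ℝ, 0 ≤ ρ ∧ 0 ≤ K ∧ ∀ (a : BA k D) (q : E k → ℝ) (c : ℝ),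
    (∀ z, ‖z‖ ≤ ρ → |q z| ≤ c) → |co ((bs k D).γ a) q| ≤ K * c := by
  refine ⟨∑ a, ∑ z ∈ ((bs k D).γ a).support, ‖z‖,
    ∑ a, ∑ z ∈ ((bs k D).γ a).support, |(bs k D).γ a z|, by positivity, by positivity,
    fun a q c h => ?_⟩
  have hc : 0 ≤ c := (abs_nonneg _).trans (h 0 (by rw [norm_zero]; positivity))
  refine (abs_sum_le_sum_abs _ _).trans ?_
  refine le_trans ?_ (mul_le_mul_of_nonneg_right (single_le_sum
    (f := fun a => ∑ z ∈ ((bs k D).γ a).support, |(bs k D).γ a z|)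
    (fun a _ => by positivity) (mem_univ a)) hc)
  rw [sum_mul]
  refine sum_le_sum fun z hz => ?_
  rw [abs_mul]
  refine mul_le_mul_of_nonneg_left (h z ?_) (abs_nonneg _)
  exact (single_le_sum (f := fun z : E k => ‖z‖) (fun z _ => norm_nonneg z) hz).trans
    (single_le_sum (f := fun a => ∑ z ∈ ((bs k D).γ a).support, ‖z‖)
      (fun a _ => by positivity) (mem_univ a))

/-- the basis polynomials are bounded on balls -/
lemma gf_m_bd (k D : ℕ) (R : ℝ) : ∃ c : ℝ, 0 ≤ c ∧ ∀ (a : BA k D) z, ‖z‖ ≤ R →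
    |(bs k D).m a z| ≤ c := by
  have h : ∀ a : BA k D, ∃ c : ℝ, ∀ z ∈ Metric.closedBall (0 : E k) R, ‖(bs k D).m a z‖ ≤ c :=
    fun a => (isCompact_closedBall 0 R).exists_bound_of_continuousOn
      (Pd_diff ((bs k D).mem a)).continuous.continuousOn
  choose c hc using h
  refine ⟨∑ a, |c a|, by positivity, fun a z hz => ?_⟩
  exact (hc a z (by simpa using hz)).trans ((le_abs_self _).trans
    (single_le_sum (f := fun a => |c a|) (fun a _ => abs_nonneg _) (mem_univ a)))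

/-- the matrix of the substitution `z ↦ c + t • z`, times `κ` -/
noncomputable def gfS (k D : ℕ) (κ t : ℝ) (c : E k) : Matrix (BA k D) (BA k D) ℝ :=
  of fun a b => κ * co ((bs k D).γ b) fun z => (bs k D).m a (c + t • z)

lemma gfS_bd (k D : ℕ) (R : ℝ) : ∃ C : ℝ, ∀ (κ t : ℝ) (c : E k), |κ| ≤ R → |t| ≤ R → ‖c‖ ≤ R →
    ∀ a b, |gfS k D κ t c a b| ≤ C := by
  obtain ⟨ρ, K, hρ, hK, h⟩ := gf_co_bd k D
  obtain ⟨c0, -, h0⟩ := gf_m_bd k D (R + R * ρ)
  refine ⟨R * (K * c0), fun κ t c hκ ht hc a b => ?_⟩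
  rw [gfS, of_apply, abs_mul]
  refine mul_le_mul hκ (h b _ _ fun z hz => h0 a _ ?_) (abs_nonneg _) ((abs_nonneg _).trans hκ)
  refine (norm_add_le _ _).trans (add_le_add hc ?_)
  rw [norm_smul, Real.norm_eq_abs]
  exact mul_le_mul ht hz (norm_nonneg _) ((abs_nonneg _).trans ht)

lemma gf_co_sub {D : ℕ} {q : E k → ℝ} (hq : q ∈ Pd k D) (κ t : ℝ) (c : E k) (b : BA k D) :
    co ((bs k D).γ b) (fun z => κ * q (c + t • z)) =
      ∑ a, co ((bs k D).γ a) q * gfS k D κ t c a b := by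
  have e1 : (fun z => κ * q (c + t • z)) =
      fun z => ∑ a, (co ((bs k D).γ a) q * κ) * (bs k D).m a (c + t • z) := by
    funext z
    rw [(bs k D).exp q hq (c + t • z), mul_sum]
    exact sum_congr rfl fun a _ => by ring
  rw [e1, co_sum]
  exact sum_congr rfl fun a _ => by rw [gfS, of_apply, mul_assoc]

lemma gf_co_add (γ : E k →₀ ℝ) (p q : E k → ℝ) :
    co γ (fun z => p z + q z) = co γ p + co γ q := by
  simp only [co, mul_add, sum_add_distrib]

lemma gf_fr_norm (u : E N) (v : Fin j → E N) (z : E j) :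
    ‖fr u v z‖ ≤ ‖u‖ + j * (‖z‖ * ‖v‖) := by
  refine (norm_add_le _ _).trans (add_le_add le_rfl ((norm_sum_le _ _).trans ?_))
  have : ∀ i ∈ (univ : Finset (Fin j)), ‖z i • v i‖ ≤ ‖z‖ * ‖v‖ := fun i _ => by
    rw [norm_smul]
    exact mul_le_mul (PiLp.norm_apply_le z i) (norm_le_pi_norm v i) (norm_nonneg _)
      (norm_nonneg _)
  simpa using sum_le_card_nsmul _ _ _ this

lemma gf_fr_aff (u c : E N) (t : ℝ) (v : Fin j → E N) (z : E j) :
    c + t • fr u v z = fr (c + t • u) v (0 + t • z) := by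
  simp only [fr, smul_add, smul_sum, zero_add, PiLp.smul_apply, smul_eq_mul, mul_smul, add_assoc]

lemma gf_fr_fr (u : E N) (v : Fin j → E N) (c z : E j) :
    fr (fr u v c) v z = fr u v (c + (1 : ℝ) • z) := by
  simp only [fr, one_smul, PiLp.add_apply, add_smul, sum_add_distrib, add_assoc]

theorem one_le_fG (T : Fin M → E N → ℝ) (u : E N) (v : Fin j → E N) : 1 ≤ fG d j T u v := by
  exact one_le_det_gram _

theorem fG_gauge (d j M N : ℕ) : ∃ e, IsGauge d e (fG d j : Gg M N j) := by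
  refine ⟨Fintype.card (BA j d) * (2 * (d + 1)), fun T u v => zero_le_one.trans (one_le_fG T u v),
    fun p a T u v hT h hu hv => ?_, fun R hR => ?_, fun R => ?_,
    0, by simp, one_pos.trans_le (one_le_fG _ _ _)⟩
  · have hX : ∀ w b, (fun θ => fX d (T θ) (u θ) (v θ) w b) ∈ Pd p ((d + 1) * a) := fun w b =>
      gf_Pd_co _ fun z => gf_Pd_eval (fun θ => hT θ w) (h w) fun i => by
        simp only [gf_fr_apply]
        exact Pd_add (hu i) (Pd_sum _ fun l _ => Pd_smul _ (hv l i))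
    rw [mul_assoc]
    refine gf_Pd_det fun b b' => ?_
    simp only [Matrix.add_apply, mul_apply, transpose_apply]
    rw [mul_assoc, two_mul]
    exact Pd_add (const_mem _ _) (Pd_sum _ fun w _ => Pd_mul (hX w b) (hX w b'))
  · obtain ⟨C1, h1⟩ := gfS_bd j d R
    obtain ⟨ρ, K, hρ, hK, h2⟩ := gf_co_bd j d
    obtain ⟨C, hC, h3⟩ := gf_gram_cmp (Fin M) (BA j d) (BA j d)
      (max C1 (K * (Kg N d * R * (max 1 (R + j * (ρ * R))) ^ d)))
    refine ⟨C, hC, fun T T' κ t c u v hT hT' hκ hc hu hv ht1 ht2 hZ => ?_⟩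
    have ht0 : 0 ≤ t := (inv_nonneg.2 (zero_le_one.trans hR)).trans ht1
    have e1 : fX d T' u v = fX d T (c + t • u) v * gfS j d κ t 0 +
        fX d (fun w y => T' w y - κ * T w (c + t • y)) u v := by
      ext w b
      simp only [Matrix.add_apply, mul_apply, fX, of_apply, res]
      rw [← gf_co_sub (gf_fr_mem _ v (hT w)), ← gf_co_add]
      simp only [gf_fr_aff, add_sub_cancel]
    rw [fG, fG, e1]
    refine h3 _ _ _ (fun a b => (h1 κ t 0 hκ (by rwa [abs_of_nonneg ht0])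
      (by rw [norm_zero]; linarith) a b).trans (le_max_left _ _)) fun w b => ?_
    refine (h2 b _ _ fun z hz => ?_).trans (le_max_right _ _)
    refine ((hZ w).grow (Pd_sub (hT' w) (Pd_smul κ (Pd_affine (hT w) c t))) one_pos _).trans ?_
    have a1 : ‖fr u v z‖ ≤ R + j * (ρ * R) := (gf_fr_norm u v z).trans (by gcongr)
    have a2 := (Kg_pos N d).le
    rw [sub_zero, div_one]
    gcongr
  · obtain ⟨C1, h1⟩ := gfS_bd j d (max R 1)
    obtain ⟨C, hC, h3⟩ := gf_gram_cmp (Fin M) (BA j d) (BA j d) (max C1 0)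
    refine ⟨C, hC, fun T u v c hT hc => ?_⟩
    have e1 : fX d T (fr u v c) v = fX d T u v * gfS j d 1 1 c + 0 := by
      ext w b
      simp only [add_zero, mul_apply, fX, of_apply, res]
      rw [← gf_co_sub (gf_fr_mem _ v (hT w))]
      simp only [gf_fr_fr, one_mul]
    rw [fG, fG, e1]
    exact h3 _ _ _ (fun a b => (h1 1 1 c (by simp) (by simp) (hc.trans (le_max_left _ _)) a b).trans
      (le_max_left _ _)) fun w b => by simp

end Pool.Agent.CA9.UB
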