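import Pool.Agent.Lib.MP_ca9be0_an.UB.Defs
import Pool.Agent.Lib.MP_ca9be0_an.UB.Cl4
import Pool.Agent.Lib.MP_ca9be0_an.UB.IGf

/-! Interface: step 2. -/

namespace Pool.Agent.CA9.UB

open Finset Matrix Pool.Agent.Lib.MP_ca9be0_an.PyF

variable {N n k j M m d e e' : ℕ} {s : ℝ}

theorem clean (H : Hs d s) (hd : 1 ≤ d) (hm : (n + d).choose d < m) {g : Fin M → CF (n + 1) d s}
    {σ₂ : E (n + 1) → ℝ} {G : Am m M → CF (n + 1) d s}
    {J : E (n + 1) → Matrix (Am m M) (Fin M) ℝ} (h : St g σ₂ G J) {κ : Type}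
    (σ : κ → E (n + 1) → ℝ) (hσ : ∀ k, Lip1 (σ k)) (hle : ∀ k x, σ k x ≤ σ₂ x)
    (hge : ∀ k, ∃ A, ∀ x, σ₂ x ≤ A * σ k x) {ε : ℝ} (hε : 0 < ε)
    (hmar : ∀ k, Mar (fa (fG d n) g) (fb (fG d n) g) ε (σ k) (σ k)) :
    ∃ (L : Type) (_ : Fintype L) (j : L → ℕ) (v : ∀ Φ, Fin (j Φ) → E (n + 1))
      (J' : κ → E (n + 1) → Matrix (Am m M) (Fin M) ℝ)
      (w : κ → Fin M → L → E (n + 1) → Fin M → ℝ), Cl g m n σ j v J' w := by
  classical
  obtain ⟨L, hL, j, v, lab, LG⟩ := lemmaG_fG n d M hd fun j _ => fG_gauge d j M (n + 1)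
  choose eg hG using fun j => fG_gauge d j M (n + 1)
  obtain ⟨ε', hε', hmar'⟩ := cell_margin' H (hG n) g hσ hε
    fun k x hx => hmar k x _ hx le_rfl le_rfl
  let f : PS σ → Pos σ₂ := fun p => ⟨p.1.2, p.2.trans_le (hle _ _)⟩
  have hl : ∀ p : PS σ, σ p.1.1 p.1.2 ≤ 1 * σ₂ p.1.2 := fun p => by rw [one_mul]; exact hle _ _
  have tJ : TM d (fun p : PS σ => p.1.2) (fun p => σ p.1.1 p.1.2) fun _ => J := fun a b =>
    ((h.tJ a b).comp f).mono_r 1 PS.hr hl
  obtain ⟨R, hR⟩ := loop (J := J) (ω := fun p : PS σ => σ₂ p.1.2 ^ s) hσ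
    (MX.md (g := g) v fun p => Real.rpow_le_rpow p.hr (hle _ _) H.pos.le)
    (fun p => Real.rpow_nonneg (h.lip.1 _) _) (fun a =>
      ((((h.tz a).comp fun p : PS σ => p.1.2).sub ((h.rel (Sum.inr a)).comp f).weaken).mono_r 1
        PS.hr hl).congr' fun p y => by simp only [mulVec, dotProduct, f]; ring)
    (ph := fun c k => cuf d (σ k) c) (cuf_GT hσ) (fun c k y => (cuf_mem _ _ _).1)
    (fun c k y => (cuf_mem _ _ _).2) (by
      intro R ho tR c b
      have tJ' : TM d (fun p : PS σ => p.1.2) (fun p => σ p.1.1 p.1.2)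
        fun p y => R p.1.1 y * J y := TM.mul PS.hr tR tJ
      have ho' : ∀ k y, 0 < σ k y → (R k y * J y)ᵀ * (R k y * J y) = 1 := fun k y hy => by
        rw [transpose_mul, Matrix.mul_assoc, ← Matrix.mul_assoc _ (R k y), ho, Matrix.one_mul,
          h.orth y (hy.trans_le (hle k y))]
      generalize hJ' : (fun k y => R k y * J y) = J'
      replace tJ' : TM d (fun p : PS σ => p.1.2) (fun p => σ p.1.1 p.1.2) fun p => J' p.1.1 :=
        hJ' ▸ tJ'
      replace ho' : ∀ k y, 0 < σ k y → (J' k y)ᵀ * J' k y = 1 := hJ' ▸ ho'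
      obtain ⟨C, K, η, hη, hJ⟩ := cell_J hσ tJ'
      obtain ⟨δ, d0, d1, d2⟩ : ∃ δ : ℝ, 0 < δ ∧ δ ≤ 1 ∧ Fintype.card (Am m M) * δ ≤ 1 / 4 := by
        have : (0 : ℝ) ≤ Fintype.card (Am m M) := Nat.cast_nonneg _
        refine ⟨1 / (4 * (Fintype.card (Am m M) + 1)), by positivity, ?_, ?_⟩
        · rw [div_le_one (by positivity)]; linarith
        · rw [mul_one_div, div_le_div_iff₀ (by positivity) (by norm_num)]; linarith
      obtain ⟨ε₁, h1, hq⟩ := LG m hm (PS σ) (fun p => nj g p.1.2 (σ p.1.1 p.1.2 / 10))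
        (fun p u => J' p.1.1 (p.1.2 + (σ p.1.1 p.1.2 / 10) • u)) C K η ε' δ hη hε' d0
        (fun p => nj_PV _ _ _) (fun p u hu => hmar' _ _ u p.2 hu)
        (fun p u a b hu => (hJ _ _ p.2).1 u a b hu)
        fun p u u' a b hu hu' huu => (hJ _ _ p.2).2 u u' a b hu hu' huu
      choose q q1 q2 q3 using fun p => hq p b
      obtain ⟨Q, hQ⟩ : ∃ Q : κ → E (n + 1) → Am m M → ℝ, ∀ p : PS σ, Q p.1.1 p.1.2 = q p :=
        ⟨fun k z => if h : 0 < σ k z then q ⟨(k, z), h⟩ else 0, fun p => dif_pos p.2⟩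
      have hN := cec_Near hσ c
      let ce : PS σ → PS σ := fun p => ⟨(p.1.1, cec (σ p.1.1) c p.1.2), by
        have := hN.pos' p
        dsimp only at this ⊢
        linarith⟩
      have tQ : ∀ a, TQ d σ (fun p _ => Q p.1.1 (cec (σ p.1.1) c p.1.2) a) fun _ => 1 := fun a =>
        TN.const1 PS.hr 2 fun p => by
          have a1 := q2 (ce p) a
          rw [← hQ] at a1
          have a2 : |(Pi.single (Sum.inr b) 1 : Am m M → ℝ) a| ≤ 1 := by
            rw [Pi.single_apply]; split_ifs <;> simp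
          linarith [abs_sub_abs_le_abs_sub (Q p.1.1 (cec (σ p.1.1) c p.1.2) a)
            ((Pi.single (Sum.inr b) 1 : Am m M → ℝ) a)]
      have tU := TM.mulVec PS.hr tJ'.tr tQ
      have hw : ∀ Φ, MF g σ (v Φ) fun k y => ∑ I, cuf d (σ k) c y •
          cA g (v Φ) I (cec (σ k) c y) (σ k (cec (σ k) c y) / 10) y *ᵥ
            (cA g (v Φ) I (cec (σ k) c y) (σ k (cec (σ k) c y) / 10) y *ᵥ
              ((J' k y)ᵀ *ᵥ Q k (cec (σ k) c y))) := fun Φ => MF.sum univ fun I _ =>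
        MF.cell H (hG _) hσ (lab Φ).2 I c
          (U := fun k z y => cA g (v Φ) I z (σ k z / 10) y *ᵥ ((J' k y)ᵀ *ᵥ Q k z))
          (TM.mulVec PS.hr (cA_TM (hG _) g hN (lab Φ).2 I) tU)
      refine ⟨fun k y => J' k y *ᵥ (∑ Φ, _) + cuf d (σ k) c y • (Q k (cec (σ k) c y) -
        J' k y *ᵥ ((J' k y)ᵀ *ᵥ Q k (cec (σ k) c y))), _, ε₁, h1, fun a => ?_,
        ⟨_, hw, fun _ _ => rfl⟩, fun k y hy => ⟨(orc_alg (ho' k y hy) _ _ _).1,
          Q k (cec (σ k) c y), ?_, ?_, ?_⟩⟩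
      · refine (TM.mulVec PS.hr tJ' (fun b => ?_) a).add (TQ.loc hσ c
          (F := fun p z y => (Q p.1.1 z - J' p.1.1 y *ᵥ ((J' p.1.1 y)ᵀ *ᵥ Q p.1.1 z)) a)
          ((tQ a).sub (TM.mulVec PS.hr tJ' tU a)))
        exact (T1.sum univ PS.hr fun Φ _ => (hw Φ).tw b).congr' fun p y =>
          (Finset.sum_apply _ _ _).symm
      · exact (hQ (ce ⟨(k, y), hy⟩)).symm ▸ q1 (ce ⟨(k, y), hy⟩)
      · have a1 := q2 (ce ⟨(k, y), hy⟩)
        rw [← hQ] at a1
        refine (sum_le_card_nsmul univ _ δ fun a _ => ?_).trans (by simpa using d2)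
        have a2 := abs_le.1 (a1 a)
        simp only [Pi.sub_apply]
        nlinarith
      · have a0 := hN.pos' ⟨(k, y), hy⟩
        have a1 := q3 (ce ⟨(k, y), hy⟩) ((σ k (cec (σ k) c y) / 10)⁻¹ • (y - cec (σ k) c y)) (by
          dsimp only at a0
          rw [norm_smul, norm_inv, Real.norm_of_nonneg a0.le, inv_mul_le_iff₀ a0, norm_sub_rev]
          linarith [cec_near (hσ k) c y, (hσ k).le' y (cec (σ k) c y)])
        rw [← hQ] at a1
        simp only [ce, smul_inv_smul₀ a0.ne', add_sub_cancel] at a1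
        refine (mul_le_mul_of_nonneg_left a1 (cuf_mem _ _ _).1).trans (le_of_eq ?_)
        rw [(orc_alg (ho' k y hy) _ _ _).2, mul_add, sum_dotProduct, mul_sum]
        refine congrArg (· + _) (sum_congr rfl fun Φ _ => ?_)
        rw [sum_dotProduct, mul_sum]
        refine sum_congr rfl fun I _ => ?_
        rw [smul_dotProduct, smul_eq_mul, dotProduct_comm (cA _ _ _ _ _ _ *ᵥ _),
          dotProduct_mulVec _ (cA _ _ _ _ _ _), ← mulVec_transpose, cA_tr]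
        rfl)
  obtain ⟨w, w1, w2⟩ := hR.md
  choose w' w3 w4 using w1
  choose C c0 c1 using fun a Φ => (w3 a Φ).sm
  refine ⟨L, hL, j, v, fun k y => R k y * J y, fun k a Φ y => w' a Φ k y, lab, fun k => ?_,
    fun k y hy a b => ?_, fun a Φ => (w3 a Φ).tw, fun a Φ => (w3 a Φ).tX,
    ∑ a, ∑ Φ, C a Φ, fun k a Φ y b hy => (c1 a Φ k y b hy).trans ?_⟩
  · obtain ⟨A, hA⟩ := hge k
    let f' : Pos (σ k) → PS σ := fun x => ⟨(k, x.1), x.2⟩
    exact h.turn H (hσ k) (hle k) hA (hR.orth k) (hR.one k) (fun a b => (hR.tR a b).comp f')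
      fun a => (hR.df a).comp f'
  · rw [w2 a k y hy (cuf_one (hσ k) hy), w4, Finset.sum_apply]
  · refine mul_le_mul_of_nonneg_right ?_ (hP_nonneg _ _ _ _)
    exact (single_le_sum (fun Φ _ => c0 a Φ) (mem_univ Φ)).trans (single_le_sum
      (f := fun a => ∑ Φ, C a Φ) (fun a _ => sum_nonneg fun Φ _ => c0 a Φ) (mem_univ a))

end Pool.Agent.CA9.UB
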