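import Pool.Agent.Lib.MP_ca9be0_an.UB.RJ

/-! Representations with look-ahead at finitely many points. -/

namespace Pool.Agent.CA9.UB

open Finset Matrix Polynomial Pool.Agent.Lib.MP_ca9be0_an.PyF

variable {N d : ℕ} {s : ℝ} {κ V W : Type} [Fintype V] [Fintype W]

lemma scl_wh {f g : E N → ℝ} {a b x : E N} {r C : ℝ} (hr : 0 < r)
    (h : ∀ y, |f y - g y| ≤ C * (‖a - b‖ + ‖y - a‖) ^ s) (y : E N) :
    |scl s r x f y - scl s r x g y| ≤
      C * (‖r⁻¹ • (a - x) - r⁻¹ • (b - x)‖ + ‖y - r⁻¹ • (a - x)‖) ^ s := by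
  have h1 := h (x + r • y)
  have e1 : a - b = r • (r⁻¹ • (a - x) - r⁻¹ • (b - x)) := by
    rw [smul_sub, smul_inv_smul₀ hr.ne', smul_inv_smul₀ hr.ne', sub_sub_sub_cancel_right]
  have e2 : x + r • y - a = r • (y - r⁻¹ • (a - x)) := by
    rw [smul_sub, smul_inv_smul₀ hr.ne']; abel
  rw [e1, e2, norm_smul, norm_smul, Real.norm_of_nonneg hr.le, ← mul_add,
    Real.mul_rpow hr.le (by positivity)] at h1
  have h2 := Real.rpow_pos_of_pos hr s
  rw [scl, scl, ← sub_div, abs_div, abs_of_pos h2, div_le_iff₀ h2]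
  linarith

lemma scl_inv {r : ℝ} (hr : 0 < r) (x : E N) (f : E N → ℝ) :
    scl s r⁻¹ (-(r⁻¹ • x)) (scl s r x f) = f := by
  ext y
  have h2 := Real.rpow_pos_of_pos hr s
  rw [scl, scl, smul_add, smul_neg, smul_inv_smul₀ hr.ne', smul_inv_smul₀ hr.ne',
    add_neg_cancel_left, Real.inv_rpow hr.le]
  field_simp

omit [Fintype W] in
lemma Cfg.scale {η B r : ℝ} {t : E N →ₗ[ℝ] ℝ} {I : Finset κ} {p : κ → E N} {T : κ → W → E N → ℝ}
    (h : Cfg d s η B t I p T) (hr : 0 < r) (x : E N) :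
    Cfg d s η B t I (fun i => r⁻¹ • (p i - x)) fun i w => scl s r x (T i w) := by
  refine ⟨fun i w => scl_mem (h.mem i w) r x, fun i hi j hj e => h.inj i hi j hj ?_,
    fun i hi j hj => ?_, fun i hi j hj w => scl_wh hr (h.wh i hi j hj w)⟩
  · exact sub_left_injective (smul_right_injective _ (inv_ne_zero hr.ne') e)
  · rw [← smul_sub, sub_sub_sub_cancel_right, norm_smul, map_smul, smul_eq_mul, abs_mul,
      Real.norm_eq_abs, mul_left_comm]
    exact mul_le_mul_of_nonneg_left (h.sep i hi j hj) (abs_nonneg _)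

omit [Fintype W] in
lemma Cfg.mono {η B : ℝ} {t : E N →ₗ[ℝ] ℝ} {I I' : Finset κ} {p : κ → E N} {T : κ → W → E N → ℝ}
    (h : Cfg d s η B t I p T) (hI : I' ⊆ I) : Cfg d s η B t I' p T :=
  ⟨h.mem, fun i hi j hj => h.inj i (hI hi) j (hI hj), fun i hi j hj => h.sep i (hI hi) j (hI hj),
    fun i hi j hj => h.wh i (hI hi) j (hI hj)⟩

lemma RepAt.scale {K : ℕ} {C r : ℝ} {t : E N →ₗ[ℝ] ℝ} {I : Finset κ} {p : κ → E N}
    {T : κ → W → E N → ℝ} {S : κ → V → E N → ℝ} (h : RepAt d s K C t I p T S) (hr : 0 < r)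
    (x : E N) : RepAt d s K C t I (fun i => r⁻¹ • (p i - x)) (fun i w => scl s r x (T i w))
      fun i v => scl s r x (S i v) := by
  refine ⟨fun i w => scl_mem (h.mem i w) r x, fun i hi j hj w => scl_wh hr (h.wh i hi j hj w),
    fun i hi => ?_, fun i hi ρ hρ => ?_⟩
  · simp only [scl, smul_inv_smul₀ hr.ne', add_sub_cancel, div_pow, ← sum_div, h.val i hi]
  · simpa only [mul_div_cancel_right₀ ρ hr.ne'] using
      (h.rel i hi _ (mul_pos hρ hr)).scale (mul_pos hρ hr) hr x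

lemma RepAt.mono {K : ℕ} {C C' : ℝ} {t : E N →ₗ[ℝ] ℝ} {I : Finset κ} {p : κ → E N}
    {T : κ → W → E N → ℝ} {S : κ → V → E N → ℝ} (h : RepAt d s K C t I p T S) (hC : C ≤ C') :
    RepAt d s K C' t I p T S :=
  ⟨h.mem, fun i hi j hj v y => (h.wh i hi j hj v y).trans
    (mul_le_mul_of_nonneg_right hC (by positivity)), h.val,
    fun i hi ρ hρ => (h.rel i hi ρ hρ).mono hρ le_rfl hC⟩

theorem rep0 (H : Hs d s) (n : ℕ) (V W : Type) [Fintype V] [Fintype W]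
    (hm : (n + d).choose d + 1 ≤ Fintype.card V) {L η : ℝ} (B : ℝ) (hη : 0 < η) (hL : 0 ≤ L)
    (l : ℕ) : ∀ K : ℕ, ∃ C : ℝ, 0 ≤ C ∧ ∀ (t : E (n + 1) →ₗ[ℝ] ℝ) (e : E (n + 1)) (κ : Type)
      (I : Finset κ) (p : κ → E (n + 1)) (T : κ → W → E (n + 1) → ℝ), Pen L t e → I.card ≤ l →
      Cfg d s η B t I p T → ∃ S : κ → V → E (n + 1) → ℝ, RepAt d s K C t I p T S := by
  classical
  obtain ⟨K₀, hK⟩ := add_leaf H n V W hm
  induction l with
  | zero =>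
    refine fun K => ⟨0, le_rfl, fun t e κ I p T _ hI _ => ⟨fun _ _ _ => 0, ?_⟩⟩
    obtain rfl := card_eq_zero.1 (Nat.le_zero.1 hI)
    exact ⟨fun _ _ => const_mem d 0, by simp, by simp, by simp⟩
  | succ l ih =>
    intro K
    obtain ⟨C, hC, h1⟩ := ih (K + K₀)
    obtain ⟨C', hC', h2⟩ := hK C L η B K hη hC hL
    refine ⟨C' + (K + 1), by positivity, fun t e κ I p T hP hI hT => ?_⟩
    rcases I.eq_empty_or_nonempty with rfl | ⟨i₀, hi₀⟩
    · exact ⟨fun _ _ _ => 0, fun _ _ => const_mem d 0, by simp, by simp, by simp⟩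
    rcases (I.erase i₀).eq_empty_or_nonempty with h0 | h0
    · obtain ⟨S, a1, a2, a3⟩ := one_leaf hm t e hP.one (T i₀) (hT.mem i₀)
      have e0 : ∀ i ∈ I, i = i₀ := fun i hi => by
        by_contra h
        exact notMem_empty i (h0 ▸ mem_erase.2 ⟨h, hi⟩)
      refine ⟨fun _ => S, fun _ => a1, fun i _ j _ v y => ?_, fun i hi => ?_, fun i hi ρ hρ => ?_⟩
      · rw [sub_self, abs_zero]; positivity
      · rw [e0 i hi]; exact a2 _
      · rw [e0 i hi]; exact (rel_one s K a3 _ hρ).mono hρ le_rfl (le_add_of_nonneg_left hC')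
    obtain ⟨i₁, hi₁, hmin⟩ := exists_min_image _ (fun i => ‖p i - p i₀‖) h0
    have hr : 0 < ‖p i₁ - p i₀‖ := norm_pos_iff.2 (sub_ne_zero.2 fun h =>
      (mem_erase.1 hi₁).1 (hT.inj _ (mem_erase.1 hi₁).2 _ hi₀ h))
    set r := ‖p i₁ - p i₀‖ with hr'
    have hT' := hT.scale hr (p i₀)
    have nm : ∀ i, ‖r⁻¹ • (p i - p i₀)‖ = r⁻¹ * ‖p i - p i₀‖ := fun i => by
      rw [norm_smul, Real.norm_of_nonneg (inv_nonneg.2 hr.le)]
    obtain ⟨S, hS⟩ := h1 t e κ (I.erase i₀) _ _ hP (by rw [card_erase_of_mem hi₀]; omega)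
      (hT'.mono (erase_subset _ _))
    obtain ⟨S', hS'⟩ := h2 t e κ (I.erase i₀) i₀ i₁ _ _ S hP (notMem_erase _ _) hi₁
      (by rwa [insert_erase hi₀]) (by simp) (by rw [nm, inv_mul_cancel₀ hr.ne'])
      (fun i hi => by rw [nm, le_inv_mul_iff₀ hr, mul_one]; exact hmin i hi) hS
    have h3 := hS'.scale (inv_pos.2 hr) (-(r⁻¹ • p i₀))
    simp only [scl_inv hr, insert_erase hi₀, inv_inv, sub_neg_eq_add, ← smul_add, sub_add_cancel,
      smul_inv_smul₀ hr.ne'] at h3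
    exact ⟨_, h3.mono (le_add_of_nonneg_right (by positivity))⟩

lemma PRel.mono {D : ℕ} {C C' : ℝ} {t : E N →ₗ[ℝ] ℝ} {S : V → E N → ℝ} {T : W → E N → ℝ}
    (h : PRel D C t S T) (hC : C ≤ C') : PRel D C' t S T := by
  obtain ⟨δ, U, a1, a2, a3, a4, a5, a6, a7⟩ := h
  exact ⟨δ, U, a1, a2, a3, a4, fun τ hτ => ⟨(a5 τ hτ).1, fun v w => ((a5 τ hτ).2 v w).trans hC⟩,
    fun v => (a6 v).mono le_rfl hC, fun w => (a7 w).mono le_rfl hC⟩

theorem rep {d : ℕ} {s : ℝ} (H : Hs d s) (n M m : ℕ) (hm : (n + d).choose d + 1 ≤ m) :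
    ∃ D : ℕ, ∀ (l : ℕ) (η L Cg : ℝ), 0 < η → ∃ C : ℝ, 0 ≤ C ∧
      ∀ (t : E (n + 1) →ₗ[ℝ] ℝ) (e : E (n + 1)), Pen L t e →
      ∀ P : Finset (E (n + 1)), P.card ≤ l → (∀ p ∈ P, ∀ q ∈ P, η * ‖p - q‖ ≤ |t (p - q)|) →
      ∀ T : E (n + 1) → Fin M → E (n + 1) → ℝ, (∀ p, PV d (T p)) →
        (∀ p q w y, |T p w y - T q w y| ≤ Cg * (‖y - p‖ ^ s + ‖y - q‖ ^ s)) →
        ∃ S : E (n + 1) → Fin m → E (n + 1) → ℝ, (∀ p, PV d (S p)) ∧
          (∀ p ∈ P, ∀ q ∈ P, ∀ i,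
            PB (fun y => S p i y - S q i y) p ‖p - q‖ (C * ‖p - q‖ ^ s)) ∧
          (∀ p ∈ P, ∑ i, S p i p ^ 2 = ∑ w, T p w p ^ 2) ∧
          ∀ p ∈ P, ∀ ρ : ℝ, 0 < ρ →
            PRel D C t (fun i => scl s ρ p (S p i)) fun w => scl s ρ p (T p w) := by
  have hs := H.pos.le
  obtain ⟨D, hD⟩ := reset (n + 1) d (Fin m) (Fin M)
  refine ⟨D, fun l η L Cg hη => ?_⟩
  by_cases hL : 0 ≤ L
  swap
  · exact ⟨0, le_rfl, fun t e hP => absurd hP.nn hL⟩
  obtain ⟨C, hC, h1⟩ := rep0 H n (Fin m) (Fin M) (by rwa [Fintype.card_fin]) (2 * |Cg|) hη hL l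
    (D + d + 1)
  obtain ⟨C', hC', h2⟩ := hD s C L hs
  refine ⟨C * 2 ^ s + C', by positivity, fun t e hP P hl hsep T hT hw => ?_⟩
  obtain ⟨S, hS⟩ := h1 t e _ P (fun p => p) T hP hl ⟨hT, fun _ _ _ _ h => h, hsep,
    fun p _ q _ w y => (hw p q w y).trans (by
      have a1 := Real.rpow_le_rpow (norm_nonneg (y - p))
        (le_add_of_nonneg_left (norm_nonneg (p - q))) hs
      have a2 := Real.rpow_le_rpow (norm_nonneg (y - q))
        ((norm_sub_le_norm_sub_add_norm_sub y p q).trans (add_comm _ _).le) hs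
      refine (mul_le_mul (le_abs_self Cg) (add_le_add a1 a2) (by positivity)
        (abs_nonneg _)).trans (le_of_eq (by ring)))⟩
  refine ⟨S, hS.mem, fun p hp q hq i y hy => (hS.wh p hp q hq i y).trans ?_, hS.val,
    fun p hp ρ hρ => (h2 t e _ _ hP (fun v => scl_mem (hS.mem p v) ρ p)
      (fun w => scl_mem (hT p w) ρ p) ?_).mono (le_add_of_nonneg_left (by positivity))⟩
  · have a1 := mul_le_mul_of_nonneg_left (rp_le hs (a := ‖p - q‖ + ‖y - p‖) (by positivity)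
      zero_le_two (norm_nonneg (p - q)) (by linarith)) hC
    have a2 : 0 ≤ C' * ‖p - q‖ ^ s := by positivity
    linarith
  · simpa only [sub_self, smul_zero, div_self hρ.ne'] using (hS.rel p hp ρ hρ).scale hρ hρ p

end Pool.Agent.CA9.UB
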