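import Pool.Agent.Lib.MP_ca9be0_an.UB.LS2
import Pool.Agent.Lib.MP_ca9be0_an.UB.RRep

/-! Interface: Lemma S. -/

namespace Pool.Agent.CA9.UB

open Finset Matrix Pool.Agent.Lib.MP_ca9be0_an.PyF LSa

variable {N n k j M m d e e' : ℕ} {s : ℝ}

theorem lemmaS (H : Hs d s) (n M m : ℕ) (hm : (n + d).choose d < m) :
    ∃ (e : ℕ) (G : Gg M (n + 1) n), IsGauge d e G ∧ ∀ g : Fin M → CF (n + 1) d s,
      LS g (fa G g) (fb G g) m := by
  classical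
  obtain ⟨D, hrep⟩ := rep H n M m hm
  obtain ⟨GI, eI, DI, QI, hGI, hI⟩ := satF n d M (D + d) s (phI M)
  obtain ⟨GK, eK, DK, QK, hGK, hK⟩ := satF n d M (D + (m + 1) * DI + d) s (phK M)
  refine ⟨eI + eK, _, hGI.mul hGK, fun g Q => ?_⟩
  obtain ⟨η, hη, hpen⟩ := exists_pen n Q (QI + QK)
  obtain ⟨BI, GsI, rI, bI, cI, lI, hI⟩ := hI η hη
  obtain ⟨BK, GsK, rK, bK, cK, lK, hK⟩ := hK η hη
  obtain ⟨Cg, _, hCg⟩ := CF.whitney g
  obtain ⟨C, hC, hrep⟩ := hrep Q (η / (n + 1)) (n + 1) Cg (by positivity)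
  let T : E (n + 1) → Fin M → E (n + 1) → ℝ := fun p w => (g w).P p
  have hT : ∀ p, PV d (T p) := fun p w => (g w).mem p
  have key : ∀ P : Finset (E (n + 1)), ∃ (t : Fin (n + 1) → ℝ)
      (S : E (n + 1) → Fin m → E (n + 1) → ℝ), (∀ p, PV d (S p)) ∧ (P.card ≤ Q →
        (∀ l, |t l| ≤ 1) ∧
        (∀ p ∈ P, ∀ w ∈ GsI (T p) p ∪ GsK (T p) p, η * ‖w‖ ≤ ‖∑ l, (t l : ℂ) * w l‖) ∧
        (∀ p ∈ P, ∀ q ∈ P, ∀ i, PB (fun y => S p i y - S q i y) p ‖p - q‖ (C * ‖p - q‖ ^ s)) ∧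
        (∀ p ∈ P, ∑ i, S p i p ^ 2 = ∑ w, T p w p ^ 2) ∧ ∀ p ∈ P, ∀ ρ : ℝ, 0 < ρ →
          PRel D C (lin t) (fun i => scl s ρ p (S p i)) fun w => scl s ρ p (T p w)) := fun P => by
    by_cases hP : P.card ≤ Q
    · obtain ⟨t, t1, t2, t3, t4⟩ := hpen P (fun p => GsI (T p) p ∪ GsK (T p) p) hP fun p =>
        (card_union_le _ _).trans (add_le_add (cI _ _) (cK _ _))
      obtain ⟨S, s1, s2⟩ := hrep _ _ t2 P hP t3 T hT fun p q w y => hCg w p q y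
      exact ⟨t, S, s1, fun _ => ⟨t1, t4, s2⟩⟩
    · exact ⟨0, fun _ _ _ => 0, fun _ _ => const_mem d 0, fun h => absurd h hP⟩
  choose t S hS hk using key
  refine ⟨S, C, hC, hS, fun P hP => (hk P hP).2.2.1, fun P hP p hp => ?_,
    fun ε ι P p x ρ hε hi => ?_⟩
  · rw [(hk P hP).2.2.2.1 p hp]
    exact sum_congr rfl fun w _ => by rw [← (g w).center H.pos p]
  choose i1 i2 i3 i4 i5 using hi
  choose k1 k2 _ _ k5 using fun i => hk (P i) (i1 i)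
  obtain ⟨c, hc, hfac⟩ := hGI.factor hGK
  obtain ⟨c₁, hc₁, m1⟩ := margin_move H hGI g bI
  obtain ⟨c₂, hc₂, m2⟩ := margin_move H hGK g (one_le_mul_of_one_le_of_one_le bK bI)
  let r₁ : ι → ℝ := fun i => rI (T (p i)) (p i) (ρ i)
  have a1 : ∀ i, ρ i ≤ r₁ i ∧ r₁ i ≤ BI * ρ i := fun i => lI _ _ _ (i3 i)
  have p1 : ∀ i, 0 < r₁ i := fun i => (i3 i).trans_le (a1 i).1
  let r₂ : ι → ℝ := fun i => rK (T (p i)) (p i) (r₁ i)
  have a2 : ∀ i, r₁ i ≤ r₂ i ∧ r₂ i ≤ BK * r₁ i := fun i => lK _ _ _ (p1 i)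
  have p2 : ∀ i, 0 < r₂ i := fun i => (p1 i).trans_le (a2 i).1
  have a3 : ∀ i, ρ i ≤ r₂ i := fun i => (a1 i).1.trans (a2 i).1
  have a4 : ∀ i, r₂ i ≤ BK * BI * ρ i := fun i => (a2 i).2.trans (by
    rw [mul_assoc]; exact mul_le_mul_of_nonneg_left (a1 i).2 (by linarith))
  have f1 := fun i => hfac _ (nj_PV g (x i) (ρ i)) ε hε.le (i5 i)
  have hcε := mul_pos hc hε
  obtain ⟨δ₁, U₁, d1, d2, d3, d4, d5, _⟩ := prel_fam k1 fun i => k5 i _ (i2 i) _ (p1 i)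
  obtain ⟨δ₂, U₂, e1, e2, e3, e4, e5, e6⟩ := prel_fam k1 fun i => k5 i _ (i2 i) _ (p2 i)
  obtain ⟨μ₀, w₀, c₀, u1, u2, u3, u4, u5⟩ := hI (c₁ * (c * ε)) (ι × Fin m) (fun k => T (p k.1))
    (fun k => nj g (p k.1) (r₁ k.1)) (fun k => p k.1) (fun k => (r₁ k.1)⁻¹ • (x k.1 - p k.1))
    (fun k => ρ k.1) (fun k => t (P k.1)) (fun k => δ₁ k.1)
    (fun _ k => scl s (r₁ k.1) (p k.1) (S (P k.1) (p k.1) k.2)) (fun w k => U₁ k.2 w k.1)
    (mul_pos hc₁ hcε) (fun k => hT _) (fun k => i3 _)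
    (fun k => ⟨k1 _, fun w hw => k2 _ _ (i2 _) w (mem_union_left _ hw),
      nrm_le (p1 _) (by linarith [i4 k.1, (a1 k.1).1]), rfl,
      m1 _ _ _ _ _ hcε.le (i3 _) (i4 _) (a1 _).1 (a1 _).2 (f1 k.1).1,
      (d1 _).trans (Nat.le_add_right _ _), d2 _, d3 _⟩)
    (fun _ k => Pd_mono (Nat.le_add_left _ _) (scl_mem (hS _ _ _) _ _))
    (fun w => ⟨fun k => Pd_mono (Nat.le_add_right _ _) ((d4 k.2 w).1 k.1), by
      obtain ⟨B, _, hB⟩ := BB.fin fun v => (d4 v w).2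
      exact BB.of fun k => hB k.2 k.1⟩)
    (fun _ => by
      obtain ⟨B, _, hB⟩ := BB.fin d5
      exact (BB.of fun k : ι × Fin m => hB k.2 k.1).congr fun k y => by
        simp only [modL_I, mul_comm]; rfl)
  obtain ⟨μ₁, W₁, v1, v2, v3, v4⟩ := common (S := fun i v => scl s (r₁ i) (p i) (S (P i) (p i) v))
    (T := fun i => nj g (p i) (r₁ i)) (q := fun i => (r₁ i)⁻¹ • (x i - p i)) u1 u2 u3 u4
    ((u5 ()).congr fun k y => by simp only [modL_I])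
  have hl : ∀ i, |r₂ i / r₁ i| ≤ BK := fun i => by
    rw [abs_of_pos (div_pos (p2 i) (p1 i)), div_le_iff₀ (p1 i)]; exact (a2 i).2
  have w1 := v1.dil BK hl
  have w3 := fun v a => (v3 v a).dil BK hl
  have mS : ∀ (r : ι → ℝ) i v, scl s (r i) (p i) (S (P i) (p i) v) ∈ Pd (n + 1) d :=
    fun r i v => scl_mem (hS _ _ _) _ _
  have w4 : ∀ v, BP ((m + 1) * DI + d) fun i y => μ₁ i ((r₂ i / r₁ i) • y) *
      scl s (r₂ i) (p i) (S (P i) (p i) v) y -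
        ∑ a, W₁ v a i ((r₂ i / r₁ i) • y) * scl s (r₂ i) (p i) (T (p i) a) y := fun v => by
    have h1 : BP ((m + 1) * DI + d) _ := ⟨fun i => Pd_sub (Pd_mul (v1.1 i) (mS r₁ i v))
      (Pd_sum univ fun a _ => Pd_mul ((v3 v a).1 i) (nj_PV g (p i) (r₁ i) a)), v4 v⟩
    have h2 := (BP.const 0 (N := n + 1) (c := fun i => r₁ i ^ s / r₂ i ^ s) 1 fun i => by
      have b1 := Real.rpow_pos_of_pos (p1 i) s
      have b2 := Real.rpow_pos_of_pos (p2 i) s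
      rw [abs_of_pos (div_pos b1 b2), div_le_one b2]
      exact Real.rpow_le_rpow (p1 i).le (a2 i).1 H.pos.le).mul (h1.dil BK hl)
    rw [zero_add] at h2
    refine h2.congr fun i y => ?_
    simp only [scl_dil (s := s) (p1 i) (p2 i) (p i) y, mul_sub, mul_sum]
    exact congrArg₂ _ (by ring) (sum_congr rfl fun _ _ => by simp only [nj, T]; ring)
  have mψ : ∀ a i, (fun y => μ₁ i ((r₂ i / r₁ i) • y) * scl s (r₂ i) (p i) (T (p i) a) y -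
      ∑ v, W₁ v a i ((r₂ i / r₁ i) • y) * scl s (r₂ i) (p i) (S (P i) (p i) v) y) ∈
        Pd (n + 1) ((m + 1) * DI + d) := fun a i =>
    Pd_sub (Pd_mul (w1.1 i) (nj_PV g (p i) (r₂ i) a))
      (Pd_sum univ fun v _ => Pd_mul ((w3 v a).1 i) (mS r₂ i v))
  obtain ⟨ν, X, c₃, x1, x2, x3, x4, x5⟩ := hK (c₂ * (c * ε)) ι (fun i => T (p i))
    (fun i => nj g (p i) (r₂ i)) p (fun i => (r₂ i)⁻¹ • (x i - p i)) r₁ (fun i => t (P i)) δ₂ _
    (fun k i y => ∑ v, U₂ v k.1 i y * W₁ v k.2 i ((r₂ i / r₁ i) • y))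
    (mul_pos hc₂ hcε) (fun i => hT _) p1
    (fun i => ⟨k1 _, fun w hw => k2 _ _ (i2 _) w (mem_union_right _ hw),
      nrm_le (p2 _) (by linarith [i4 i, a3 i]), rfl,
      m2 _ _ _ _ _ hcε.le (i3 _) (i4 _) (a3 _) (a4 _) (f1 i).2,
      (e1 _).trans (by omega), e2 _, e3 _⟩)
    (fun a i => Pd_mono (by omega) (mψ a i))
    (fun k => BP.sum univ fun v _ => ((e4 v k.1).mul (w3 v k.2)).mono (by omega))
    (fun a => (((w1.2.mul (e6 a)).add (BB.sum univ fun v _ => (e4 v a).2.mul (w4 v).2)).sub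
      (BB.sum univ fun v _ => (w3 v a).2.mul (e5 v))).congr fun i y => by
        rw [modL_K]
        exact alg3 _ _ (fun b => scl s (r₂ i) (p i) (T (p i) b) y)
          (fun v => scl s (r₂ i) (p i) (S (P i) (p i) v) y) (fun v a => U₂ v a i y)
          (fun v a => W₁ v a i ((r₂ i / r₁ i) • y)) a)
  refine relB_poly (D := DK + ((m + 1) * DI + d)) H.pos.le i3 a3 a4 i4 (w1.mono (by omega))
    (x1.mono (by omega)) (fun v a => (w3 v a).mono (by omega))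
    (fun a b => (x4 (a, b)).mono (by omega)) (lt_min (pow_pos u2 m) x2) (fun i => ?_)
    (fun i => (min_le_right _ _).trans (x3 i)) (fun v => (w4 v).mono (by omega))
    fun a => ⟨fun i => Pd_sub (Pd_mul (x1.1 i) (mψ a i)) (Pd_sum univ fun b _ => Pd_mono (by omega)
      (Pd_mul (Pd_sub ((x4 (a, b)).1 i) ((x4 (b, a)).1 i)) (nj_PV g (p i) (r₂ i) b))),
      (x5 a).congr fun i y => by rw [modL_K]; rfl⟩
  have := (p2 i).ne'
  rw [smul_smul, show r₂ i / r₁ i * (r₂ i)⁻¹ = (r₁ i)⁻¹ by field_simp]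
  exact (min_le_left _ _).trans (v2 i)

end Pool.Agent.CA9.UB
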