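import Pool.Agent.Lib.MP_ca9be0_an.UB.Q4

/-! Interface: step 3. -/

namespace Pool.Agent.CA9.UB

open Finset Matrix Pool.Agent.Lib.MP_ca9be0_an.PyF

variable {N n k j M m d e e' : ℕ} {s : ℝ}

theorem St.rot (H : Hs d s) {g : Fin M → CF N d s} {σ σ' : E N → ℝ} {G : Am m M → CF N d s}
    {J : E N → Matrix (Am m M) (Fin M) ℝ} (h : St g σ G J) (hs : Sc σ σ') {θ : ℝ} (h0 : 0 ≤ θ)
    (h1 : θ < 1) (hm : ∀ a, MD θ σ σ' (G (Sum.inr a)) fun i => G (Sum.inl i)) :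
    ∃ (G' : Am m M → CF N d s) (J' : E N → Matrix (Am m M) (Fin M) ℝ), St g σ' G' J' := by
  obtain ⟨g', h', a1, a2, a3⟩ := rotallO H h0 h1 hs M (fun i => G (Sum.inl i))
    (fun a => G (Sum.inr a)) h.tz hm
  have e : Sum.elim (fun i => G (Sum.inl i)) (fun a => G (Sum.inr a)) = G := by
    ext1 v; cases v <;> rfl
  rw [e] at a3
  exact ⟨_, h.of_OX H hs a3 (fun y => by simpa [Fintype.sum_sum_type] using a2 y) a1⟩

theorem descent (H : Hs d s) {g : Fin M → CF N d s} {σ₂ σb : E N → ℝ} (hs : Sc σ₂ σb) {L : Type}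
    [Fintype L] {j : L → ℕ} {v : ∀ Φ, Fin (j Φ) → E N}
    {J : {A : ℝ // 1 ≤ A} → E N → Matrix (Am m M) (Fin M) ℝ}
    {w : {A : ℝ // 1 ≤ A} → Fin M → L → E N → Fin M → ℝ}
    (h : Cl g m n (fun (A : {A : ℝ // 1 ≤ A}) x => max (σ₂ x / A.1) (σb x)) j v J w)
    (X : Finset ℝ) (B K : ℝ) (hK : 1 ≤ K) (hd : ∀ x, σ₂ x ≤ B * σb x ∨
      ∀ l ≤ n, Mono X K (fb (fG d l) g x) (σb x / 2) (σ₂ x)) :
    ∃ (G : Am m M → CF N d s) (J' : E N → Matrix (Am m M) (Fin M) ℝ), St g σb G J' := by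
  obtain ⟨Cs, sm⟩ := h.sm
  obtain ⟨δ, hδ⟩ : ∃ δ : ℝ, δ = 1 / (2 * (M + 1) * (Fintype.card L + 1)) := ⟨_, rfl⟩
  have δ0 : 0 < δ := by rw [hδ]; positivity
  choose A₀ hA using fun Φ => one_label H hs (fun _ _ => rfl) (h.lab Φ).2
    (fun A y => of fun a b => w A a Φ y b) (fun a b => h.tw a Φ b) (fun a c => h.tX a Φ c)
    (fun A y a b hy => sm A a Φ y b hy) X B K hK
    (fun x => (hd x).imp_right fun h1 => h1 _ (h.lab Φ).1) δ0
  let A : {A : ℝ // 1 ≤ A} := ⟨1 + ∑ Φ, |A₀ Φ|, le_add_of_nonneg_right (by positivity)⟩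
  choose W W1 W2 using fun Φ => hA Φ A ((le_abs_self _).trans ((single_le_sum
    (f := fun Φ => |A₀ Φ|) (fun _ _ => abs_nonneg _) (mem_univ Φ)).trans
      (le_add_of_nonneg_left zero_le_one)))
  have sc := q_sc hs A.2
  have W3 := WS.sum sc W1
  obtain ⟨G, hG⟩ := h.st A
  refine hG.descend H (by positivity) (Real.rpow_lt_one (by norm_num) (by norm_num)
    (by linarith [H.1])) sc _ W3.w1 W3.w2 W3.w3 (fun k y hy => ?_) W3.w5
  have a1 : ∀ a b, ((∑ Φ, W Φ k y) a b - J A y (Sum.inr a) b) ^ 2 ≤ (1 / (2 * (M + 1))) ^ 2 := by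
    intro a b
    rw [← sq_abs]
    refine pow_le_pow_left₀ (abs_nonneg _) ?_ 2
    rw [h.sum A y hy, Matrix.sum_apply, ← sum_sub_distrib]
    refine (abs_sum_le_sum_abs _ _).trans ((sum_le_card_nsmul _ _ δ fun Φ _ =>
      W2 Φ k y a b hy).trans ?_)
    rw [card_univ, nsmul_eq_mul, hδ, mul_one_div, div_le_div_iff₀ (by positivity) (by positivity)]
    nlinarith [Nat.cast_nonneg (α := ℝ) M]
  refine (sum_le_card_nsmul _ _ _ fun a _ => sum_le_card_nsmul _ _ _ fun b _ => a1 a b).trans ?_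
  simp only [card_univ, Fintype.card_fin, nsmul_eq_mul]
  rw [div_pow, ← mul_assoc, one_pow, mul_one_div, div_le_div_iff₀ (by positivity) (by positivity)]
  nlinarith [Nat.cast_nonneg (α := ℝ) M]

end Pool.Agent.CA9.UB
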