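import Pool.Agent.Lib.MP_ca9be0_an.UB.G1

/-! Interface: the gluing lemma. -/

namespace Pool.Agent.CA9.UB

open Finset Matrix Pool.Agent.Lib.MP_ca9be0_an.PyF

variable {N n k j M m d e e' : ℕ} {s : ℝ}

theorem glue (H : Hs d s) {g : Fin M → CF N d s} {σ : E N → ℝ} (hσ : Lip1 σ)
    (Q : E N → Fin m → E N → ℝ) (U : Pos σ → E N → Matrix (Fin m) (Fin M) ℝ)
    (hQ : ∀ x, PV d (Q x)) {C : ℝ}
    (hW : ∀ x x' y i, |Q x i y - Q x' i y| ≤ C * (σ x + σ x' + ‖x - x'‖ + ‖y - x‖) ^ s)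
    (hU : RelB d s (fun x : Pos σ => x.1) (fun x => σ x.1) (fun x w => (g w).P x.1)
      (fun x => Q x.1) U)
    (h0 : ∀ x, σ x = 0 → ∑ i, Q x i x ^ 2 = ∑ w, (g w).f x ^ 2) :
    ∃ (G : Am m M → CF N d s) (J : E N → Matrix (Am m M) (Fin M) ℝ), St g σ G J := by
  classical
  obtain ⟨U', hU⟩ := glueU H hσ Q U hQ hW hU
  have hs := H.pos
  have hr : ∀ x : Pos σ, 0 ≤ σ x.1 := fun x => x.2.le
  have hw : ∀ x : Pos σ, 0 ≤ σ x.1 ^ s := fun x => Real.rpow_nonneg x.2.le s
  obtain ⟨t1, -, t3⟩ := cay_blocks (b := true) hr hw hU.tU (tm_c hr 0) (fun _ _ => by simp)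
    (a := fun x y w => (g w).P x.1 y) (a' := fun x y v => Q x.1 v y) hU.l
    fun w => (hU.r w).neg.congr' fun x y => by simp [mulVec, dotProduct]
  obtain ⟨J, hJ⟩ : ∃ J : E N → Matrix (Am m M) (Fin M) ℝ, J = fun y =>
    (cay (fromBlocks 0 (U' y) (-(U' y)ᵀ) (-0))).submatrix id Sum.inr := ⟨_, rfl⟩
  have t2 : ∀ y, (J y)ᵀ * J y = 1 := fun y => by
    rw [hJ, transpose_submatrix, ← submatrix_mul _ _ _ id _ Function.bijective_id,
      cay_orth (by simp [fromBlocks_transpose, fromBlocks_neg]), submatrix_one _ Sum.inr_injective]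
  replace t1 : TM d (fun x : Pos σ => x.1) (fun x => σ x.1) fun _ => J := hJ ▸ t1
  obtain ⟨Q', hQ'⟩ : ∃ Q' : E N → Am m M → E N → ℝ,
    Q' = fun x v y => Sum.elim (fun i => Q x i y) 0 v := ⟨_, rfl⟩
  replace t3 : ∀ v, TN d true (fun x : Pos σ => x.1) (fun x => σ x.1)
      (fun x y => ∑ w, J y v w * (g w).P x.1 y - Q' x.1 v y) fun x => σ x.1 ^ s := by
    rw [hJ, hQ']; exact t3
  obtain ⟨Cg, hCg, hg⟩ := CF.fin g
  have z0 : ∀ x, ¬ 0 < σ x → σ x = 0 := fun x h => le_antisymm (not_lt.1 h) (hσ.1 x)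
  have key : ∀ v, ∃ u : CF N d s,
      (u.f = fun y => if 0 < σ y then ∑ w, J y v w * (g w).f y else Q' y v y) ∧
      TN d false (fun x => x) σ (fun x y => u.P x y -
        if 0 < σ x then ∑ w, J y v w * (g w).P x y else Q' x v y) (fun x => σ x ^ s) ∧
      TN d true (fun x => x) σ (fun x y => u.P x y - Q' x v y) fun x => σ x ^ s := fun v => by
    obtain ⟨C₁, η₁, hC₁, hη₁, hb⟩ := (t3 v).bound
    refine whit H hσ (fun x => ?_) (TN.split (fun x => 0 < σ x) ((t3 v).congr' fun x y => by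
      rw [if_pos x.2]) fun x hx => ⟨z0 x hx, Real.rpow_nonneg (hσ.1 x) s, by
      rw [if_neg hx, sub_self]⟩) (C₀ := M * Cg + (C₁ + |C|) * 2 ^ s) (η₀ := 1 / 2) (by norm_num)
      (by positivity) (fun x y hy => ?_) fun x y => ?_
    · rw [hQ']
      rcases v with v | v
      exacts [hQ x v, const_mem d 0]
    · by_cases hx : 0 < σ x
      · rw [if_pos hx, if_pos (by linarith [hσ.le' x y]), ← sum_sub_distrib]
        refine (abs_sum_le_sum_abs _ _).trans ((sum_le_card_nsmul _ _ (Cg * ‖y - x‖ ^ s)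
          fun w _ => ?_).trans ?_)
        · rw [← mul_sub, abs_mul]
          exact (mul_le_of_le_one_left (abs_nonneg _) (orth_abs_le (t2 y) v w)).trans (hg w x y)
        · rw [card_univ, Fintype.card_fin, nsmul_eq_mul, add_mul, mul_assoc]
          exact le_add_of_nonneg_right (by positivity)
      · rw [z0 x hx, mul_zero] at hy
        rw [eq_of_norm_le_zero hy, if_neg hx, if_neg hx, sub_self, abs_zero]
        positivity
    · have hn := norm_nonneg (y - x)
      have a0 : 0 ≤ σ x + ‖y - x‖ := add_nonneg (hσ.1 x) hn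
      have a1 : |(if 0 < σ y then ∑ w, J y v w * (g w).f y else Q' y v y) - Q' y v y| ≤
          C₁ * σ y ^ s := by
        split_ifs with hy
        · simpa only [CF.center _ hs] using hb ⟨y, hy⟩ y (by simpa using mul_nonneg hη₁.le hy.le)
        · rw [sub_self, abs_zero]
          exact mul_nonneg hC₁.le (Real.rpow_nonneg (hσ.1 y) s)
      have a2 : |Q' y v y - Q' x v y| ≤ |C| * (σ y + σ x + ‖y - x‖ + ‖y - y‖) ^ s := by
        have : 0 ≤ (σ y + σ x + ‖y - x‖ + ‖y - y‖) ^ s :=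
          Real.rpow_nonneg (by positivity [hσ.1 x, hσ.1 y]) s
        rw [hQ']
        rcases v with v | v
        · exact (hW y x y v).trans (mul_le_mul_of_nonneg_right (le_abs_self C) this)
        · simp only [Sum.elim_inr, Pi.zero_apply, sub_self y, sub_self (0 : ℝ), abs_zero]
          exact mul_nonneg (abs_nonneg C) (by simpa using this)
      have a3 : ∀ t, 0 ≤ t → t ≤ 2 * (σ x + ‖y - x‖) → t ^ s ≤ 2 ^ s * (σ x + ‖y - x‖) ^ s :=
        fun t h0 h => by
          rw [← Real.mul_rpow zero_le_two a0]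
          exact Real.rpow_le_rpow h0 h hs.le
      have a4 := mul_le_mul_of_nonneg_left (a3 (σ y) (hσ.1 y) (by linarith [hσ.2 y x])) hC₁.le
      have a5 := mul_le_mul_of_nonneg_left (a3 (σ y + σ x + ‖y - x‖ + ‖y - y‖)
        (by positivity [hσ.1 x, hσ.1 y]) (by
          rw [sub_self, norm_zero]; linarith [hσ.2 y x])) (abs_nonneg C)
      have a6 : 0 ≤ M * Cg * (σ x + ‖y - x‖) ^ s := by positivity
      have a7 := abs_sub_le (if 0 < σ y then ∑ w, J y v w * (g w).f y else Q' y v y) (Q' y v y)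
        (Q' x v y)
      nlinarith
  choose G k1 k2 k3 using key
  refine ⟨G, J, hσ, fun y => ?_, fun w => (k3 (Sum.inr w)).congr' fun x y => by simp [hQ'],
    fun y _ => t2 y, t1, fun v => ((k2 v).comp fun x : Pos σ => x.1).congr' fun x y => by
      rw [if_pos x.2]⟩
  simp only [k1]
  by_cases hy : 0 < σ y
  · have := dot_gram (J y) fun w => (g w).f y
    rw [t2, one_mulVec] at this
    simpa only [if_pos hy, sq, dotProduct, mulVec] using this.symm
  · simp [hy, hQ', h0 y (z0 y hy)]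

end Pool.Agent.CA9.UB
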