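import Pool.Agent.Lib.MP_ca9be0_an.UB.TrB

/-! Trees of special points: leaves and margin. -/

set_option autoImplicit false

namespace Pool.Agent.CA9.UB.Tr.Cx

open Finset

variable {X : Type} [NormedAddCommGroup X] {mg : X → ℝ → ℝ} {r : X → ℝ} {ε ε' W B : ℝ} {q : ℕ}
  {Cr : X → Finset ℝ} (h : Cx mg r ε ε' W) (hB : 1 ≤ B)
  (hI : ∀ p ρ, 0 < ρ → (∀ c ∈ Cr p, B * c < ρ ∨ B * ρ < c) → ∀ y, ‖y - p‖ ≤ 10 * ρ →
    mg y ρ ≤ ε' → ‖y - p‖ < ρ / 4)

include h hB hI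

/-- the distances between independent nodes -/
theorem dist_cls {z y y' : X} {k k' : ℕ} (hz : Sp mg r ε z) (hy : y ∈ T mg r ε z k)
    (hy' : y' ∈ T mg r ε z k') (hd : 8 * (r z / 2 ^ k') < ‖y - y'‖) :
    ∃ c ∈ insert (r z) (Cr y), ‖y - y'‖ ≤ (8 * B + 2 * W + 4) * c ∧
      c ≤ (8 * B + 2 * W + 4) * ‖y - y'‖ := by
  have z0 := hz.1
  have W0 := h.W0
  have d0 : 0 < ‖y - y'‖ := lt_of_le_of_lt (by positivity) hd
  by_cases h1 : r z ≤ ‖y - y'‖
  · refine ⟨r z, mem_insert_self _ _, ?_, by nlinarith⟩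
    have h2 := norm_sub_le_norm_sub_add_norm_sub y z y'
    rw [norm_sub_rev z y'] at h2
    nlinarith [h.node hz hy, h.node hz hy']
  · obtain ⟨j, j1, j2⟩ := tr_dy (a := r z) (b := ‖y - y'‖ / 4) (by positivity) (by linarith)
    have j3 : j ≤ k' := by
      by_contra k
      linarith [lv_anti z0.le (not_le.1 k).le]
    obtain ⟨w, w1, w2⟩ := anc z0.le j3 hy'
    have ρ0 : 0 < r z / 2 ^ j := by positivity
    have a1 := norm_sub_le_norm_sub_add_norm_sub w y' y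
    have a2 := norm_sub_le_norm_sub_add_norm_sub y w y'
    rw [norm_sub_rev w y', norm_sub_rev y' y] at a1
    rw [norm_sub_rev y w, norm_sub_rev w y'] at a2
    obtain ⟨c, c1, c2, c3⟩ : ∃ c ∈ Cr y, r z / 2 ^ j ≤ B * c ∧ c ≤ B * (r z / 2 ^ j) := by
      by_contra k
      push Not at k
      have := hI y _ ρ0 (fun c hc => (lt_or_ge (B * c) _).imp_right (k c hc)) w (by linarith)
        (h.spec hz w1)
      linarith
    have c0 : 0 < c := (pos_iff_pos_of_mul_pos (ρ0.trans_le c2)).1 (by linarith)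
    have c4 : B * (r z / 2 ^ j) ≤ B * (‖y - y'‖ / 4) := mul_le_mul_of_nonneg_left j1 (by linarith)
    exact ⟨c, mem_insert_of_mem c1, by nlinarith, by nlinarith⟩

theorem leaves [ProperSpace X] {Q : ℕ} (hq : ∀ p, (Cr p).card ≤ q)
    (hQ : ∀ (F : Finset X) (Cr : X → Finset ℝ), (∀ y ∈ F, (Cr y).card ≤ q + 1) →
      (∀ y ∈ F, ∀ y' ∈ F, y ≠ y' → ∃ c ∈ Cr y, ‖y - y'‖ ≤ (8 * B + 2 * W + 4) * c ∧
        c ≤ (8 * B + 2 * W + 4) * ‖y - y'‖) → F.card ≤ Q) {z : X} (hz : Sp mg r ε z) :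
    ∃ P : Finset X, P.card ≤ Q ∧ (∀ p ∈ P, ‖p - z‖ ≤ W * r z + 2 * r z) ∧
      ∀ k, ∀ y ∈ T mg r ε z k, ∃ p ∈ P, ‖y - p‖ ≤ 8 * (r z / 2 ^ k) := by
  classical
  have z0 := hz.1
  have W0 := h.W0
  obtain ⟨P, p1, p2, p3⟩ := tr_hit (ι := {p : X × ℕ // p.1 ∈ T mg r ε z p.2}) (fun i => i.1.1)
    (fun i => r z / 2 ^ i.1.2) (fun _ => by positivity) z (R := W * r z + 2 * r z) (by positivity)
    (fun i => h.node hz i.2) (Q := Q) fun G hG => by
      rw [← card_image_of_injOn (f := fun i => i.1.1) fun i hi j hj e => by_contra fun k => by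
        have := hG i hi j hj k
        rw [show i.1.1 = j.1.1 from e, sub_self, norm_zero] at this
        exact this.not_ge (by positivity)]
      refine hQ _ (fun y => insert (r z) (Cr y))
        (fun y _ => (card_insert_le _ _).trans (Nat.succ_le_succ (hq y))) fun y hy y' hy' e => ?_
      obtain ⟨i, hi, rfl⟩ := mem_image.1 hy
      obtain ⟨j, hj, rfl⟩ := mem_image.1 hy'
      exact h.dist_cls hB hI hz i.2 j.2
        ((hG j hj i hi fun k => e (k ▸ rfl)).trans_eq (norm_sub_rev _ _))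
  exact ⟨P, p1, p2, fun k y hy => p3 ⟨(y, k), hy⟩⟩

/-- a scale comparable to the new scale at which the point is not special -/
theorem margin {L : ℕ} (hL : B ^ 2 < 2 ^ L) (hq : ∀ p, (Cr p).card ≤ q) {x : X}
    (h0 : 0 < sg mg r ε x) : ∃ ρ, ρ ≤ 32 * 2 ^ (L * q) * sg mg r ε x ∧ sg mg r ε x ≤ 4 * ρ ∧
      ε < mg x ρ := by
  have K1 : (1 : ℝ) ≤ 2 ^ (L * q) := one_le_pow₀ one_le_two
  have h1 : sg mg r ε x ≤ r x := h.sg_le (.inl rfl)
  have h2 : sg mg r ε x ≤ 2 ^ (L * q) * sg mg r ε x := le_mul_of_one_le_left h0.le K1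
  rw [mul_assoc]
  by_cases hA : r x ≤ 16 * (2 ^ (L * q) * sg mg r ε x)
  · by_cases hx : Sp mg r ε x
    · have hz := hx.ce
      have a1 := h.slow' hz.1.1.le (b := 0) (by norm_num) (by linarith [h.cls hz.1 (rep_st x)])
      obtain ⟨ρ, b1, b2, b3⟩ := h.desc (j := 0) hz h0 ⟨x, rep_st x, by simpa using hz.1.1.le⟩
        (by rw [pow_zero, div_one]; linarith [a1.1, hz.1.1])
      rw [pow_zero, div_one] at b1
      exact ⟨ρ, by linarith [a1.2], b2, b3⟩
    · exact ⟨r x, by linarith, by linarith, lt_of_not_ge fun k => hx ⟨by linarith, k⟩⟩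
  · obtain ⟨t, t1, t2⟩ := exists_lt_of_csInf_lt (s := S mg r ε x) ⟨r x, .inl rfl⟩
      (show sg mg r ε x < 2 * sg mg r ε x by linarith)
    rcases t1 with rfl | ⟨z, k, y, hz, hy, rfl⟩
    · linarith
    have z0 := hz.1.1
    have a0 : 0 < r z / 2 ^ k := by positivity
    have a1 := (h.close hz.1 hy (x := x) (by linarith)).2
    obtain ⟨j, j1, j2⟩ := tr_dy (a := r z) (b := 8 * sg mg r ε x) (by linarith) (by linarith)
    have j0 : 0 < r z / 2 ^ j := by positivity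
    have j3 : L * q ≤ j := by
      by_contra k
      have b1 := (lv_anti z0.le (not_le.1 k).le).trans j1
      rw [div_le_iff₀ (by positivity)] at b1
      linarith
    obtain ⟨i, i1, i2⟩ := tr_off hB hL j0 (hq y)
    have i3 : L * i ≤ L * q := Nat.mul_le_mul_left L i1
    have e : r z / 2 ^ j * (2 ^ L) ^ i = r z / 2 ^ (j - L * i) := by
      rw [← pow_mul, pow_sub₀ _ two_ne_zero (i3.trans j3)]
      field_simp
    have b1 : r z / 2 ^ j ≤ r z / 2 ^ (j - L * i) := lv_anti z0.le (Nat.sub_le _ _)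
    have b2 : r z / 2 ^ (j - L * i) ≤ 8 * (2 ^ (L * q) * sg mg r ε x) := by
      rw [← e, ← pow_mul]
      have := mul_le_mul j1 (pow_le_pow_right₀ (one_le_two (α := ℝ)) i3) (by positivity)
        (by linarith)
      linarith
    rw [e] at i2
    have b3 : j - L * i ≤ k := by
      by_contra k
      linarith [lv_anti z0.le (not_le.1 k).le, norm_nonneg (x - y)]
    obtain ⟨w, w1, w2⟩ := anc z0.le b3 hy
    rw [norm_sub_rev] at w2
    have b4 := hI y _ (j0.trans_le b1) i2 w (by linarith) (h.spec hz.1 w1)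
    rw [norm_sub_rev] at b4
    obtain ⟨ρ, c1, c2, c3⟩ := h.desc hz h0
      ⟨w, w1, by linarith [norm_sub_le_norm_sub_add_norm_sub x y w]⟩ (by linarith)
    exact ⟨ρ, by linarith, c2, c3⟩

end Pool.Agent.CA9.UB.Tr.Cx
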