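import Pool.Agent.Lib.MP_ca9be0_an.UB.TrD
import Pool.Agent.Lib.MP_ca9be0_an.UB.TrC

/-! Trees of special points. -/

set_option autoImplicit false

namespace Pool.Agent.CA9.UB

open Tr

theorem trees {X : Type} [NormedAddCommGroup X] [NormedSpace ℝ X] [ProperSpace X]
    {mg : X → ℝ → ℝ} (h : Mg mg) : ∃ (Q : ℕ) (C ε lam : ℝ), 1 ≤ C ∧ 0 < ε ∧ 0 < lam ∧
      ∀ r : X → ℝ, (∀ x, 0 ≤ r x) → (∀ x y, r x ≤ r y + lam * ‖x - y‖) →
        Nonempty (Trees mg Q C ε r) := by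
  classical
  obtain ⟨e, hF⟩ := h.f2
  obtain ⟨ε₁, e1, hF⟩ := hF (22 * e + 22)
  obtain ⟨ε₂, B, q, e2, hB, hI⟩ := h.ic 10
  choose Cr hq hI using hI
  obtain ⟨C₂, c2, hm⟩ := h.m2 2
  obtain ⟨L, hL⟩ := pow_unbounded_of_one_lt (B ^ 2) (one_lt_two (α := ℝ))
  obtain ⟨C₄, c4, hm'⟩ := h.m2 (32 * 2 ^ (L * q))
  obtain ⟨W, hW⟩ : ∃ W : ℝ, W = 22 * e + 22 := ⟨_, rfl⟩
  have W0 : 0 ≤ W := by rw [hW]; positivity
  obtain ⟨Q, hQ⟩ := tr_pack (X := X) (B := 8 * B + 2 * W + 4) (by linarith) (q + 1)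
  obtain ⟨ε, hε⟩ : ∃ ε : ℝ, ε = min ε₁ ε₂ / C₂ := ⟨_, rfl⟩
  have m0 : 0 < min ε₁ ε₂ := lt_min e1 e2
  have ε0 : 0 < ε := by rw [hε]; positivity
  have ε1 : C₂ * ε = min ε₁ ε₂ := by rw [hε]; field_simp
  refine ⟨Q, W + 20, ε / C₄, 1 / (100 * (W + 20)), by linarith, by positivity, by positivity,
    fun r r0 r1 => ?_⟩
  have slow : ∀ x y a, ‖x - y‖ ≤ (W + 20) * a → r x ≤ r y + a / 100 := fun x y a k => by
    have a1 : 1 / (100 * (W + 20)) * ‖x - y‖ ≤ 1 / (100 * (W + 20)) * ((W + 20) * a) :=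
      mul_le_mul_of_nonneg_left k (by positivity)
    have a2 : 1 / (100 * (W + 20)) * ((W + 20) * a) = a / 100 := by field_simp
    linarith [r1 x y]
  have top : ∀ x ρ, Sp mg r ε x → 0 < ρ → r x ≤ 2 * ρ → ρ ≤ 2 * r x → mg x ρ ≤ min ε₁ ε₂ :=
    fun x ρ hx a1 a2 a3 => (hm x _ _ hx.1 a1 a2 a3).trans
      ((mul_le_mul_of_nonneg_left hx.2 (by linarith)).trans ε1.le)
  have H : Cx mg r ε ε₂ W := ⟨r0, W0, slow, by nlinarith [min_le_right ε₁ ε₂],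
    fun x ρ hx a1 a2 a3 => (top x ρ hx a1 a2 a3).trans (min_le_right _ _), fun z hz => by
      rw [hW]
      refine Tr.gap hz (fun y hy k => ?_) (hF z _ hz.1)
      rw [← hW] at k
      have a1 : ‖y - z‖ ≤ (W + 20) * r z := by nlinarith [hz.1]
      have a2 := slow _ _ _ a1
      have a3 := slow _ _ _ ((norm_sub_rev z y).trans_le a1)
      exact (top y _ hy hz.1 (by linarith [hz.1]) (by linarith [hz.1])).trans (min_le_left _ _)⟩
  have hP : ∀ z, ∃ P : Finset X, P.card ≤ Q ∧ (Sp mg r ε z →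
      (∀ p ∈ P, ‖p - z‖ ≤ W * r z + 2 * r z) ∧
        ∀ k, ∀ y ∈ T mg r ε z k, ∃ p ∈ P, ‖y - p‖ ≤ 8 * (r z / 2 ^ k)) := fun z => by
    by_cases hz : Sp mg r ε z
    · obtain ⟨P, p1, p2⟩ := H.leaves hB hI hq hQ hz
      exact ⟨P, p1, fun _ => p2⟩
    · exact ⟨∅, Nat.zero_le _, fun k => absurd k hz⟩
  choose P p1 p2 using hP
  let Nr : Set X := {x | ∃ y, Sp mg r ε y ∧ ‖x - y‖ ≤ 8 * r x}
  have hn : ∀ x, ∃ y, x ∈ Nr → Sp mg r ε y ∧ ‖x - y‖ ≤ 8 * r x := fun x => by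
    by_cases hx : x ∈ Nr
    · exact hx.imp fun y hy _ => hy
    · exact ⟨x, fun k => absurd k hx⟩
  choose nb hn using hn
  have hc : ∀ x ∈ Nr, Ce mg r ε (rep mg r ε (nb x)) := fun x hx => (hn x hx).1.ce
  have hd : ∀ x ∈ Nr, ‖nb x - rep mg r ε (nb x)‖ ≤ W * r (rep mg r ε (nb x)) := fun x hx =>
    H.cls (hc x hx).1 (rep_st _)
  have he : ∀ x ∈ Nr, 10 * r x ≤ 11 * r (rep mg r ε (nb x)) ∧
      10 * r (rep mg r ε (nb x)) ≤ 11 * r x := fun x hx => by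
    have a1 := H.slow'' (r0 x) (by norm_num) (hn x hx).2
    have a2 := H.slow' (r0 (rep mg r ε (nb x))) (b := 0) (by norm_num) ((hd x hx).trans (by simp))
    have a3 := r0 x
    have a4 := r0 (rep mg r ε (nb x))
    exact ⟨by linarith [a1.1, a2.1], by linarith [a1.2, a2.2]⟩
  have hl : ∀ x, ∃ p, x ∈ Nr → p ∈ P (rep mg r ε (nb x)) ∧
      ∀ p' ∈ P (rep mg r ε (nb x)), ‖x - p‖ ≤ ‖x - p'‖ := fun x => by
    by_cases hx : x ∈ Nr
    · obtain ⟨p, hp, -⟩ := (p2 _ (hc x hx).1).2 0 _ (rep_st (nb x))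
      exact (Finset.exists_min_image _ (fun p => ‖x - p‖) ⟨p, hp⟩).imp fun _ k _ => k
    · exact ⟨x, fun k => absurd k hx⟩
  choose lf hl using hl
  refine ⟨⟨sg mg r ε, Nr, fun x => rep mg r ε (nb x), P, lf, fun x => Cx.le_sg (H.bdd x),
    H.sg_lip fun x y => ?_, fun x => H.sg_le (.inl rfl), fun x hx => ?_, fun x hx => ?_, p1,
    fun x hx => (hc x hx).1.1, fun x hx => ?_, fun x hx => ?_, fun x hx p hp => ?_,
    fun x hx => (hl x hx).1, fun x hx => ?_, fun x hx x' hx' k => ?_⟩⟩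
  · have a1 : 1 / (100 * (W + 20)) ≤ 1 := (div_le_one (by positivity)).2 (by linarith)
    linarith [r1 x y, mul_le_of_le_one_left (norm_nonneg (x - y)) a1]
  · obtain ⟨ρ, a1, a2, a3⟩ := H.margin hB hI hL hq hx
    have K1 : (1 : ℝ) ≤ 2 ^ (L * q) := one_le_pow₀ one_le_two
    have a4 : 0 < ρ := by linarith
    have a5 := hm' x _ _ hx a4 (by nlinarith) a1
    rw [div_le_iff₀ (by linarith)]
    linarith
  · refine le_antisymm (H.sg_le (.inl rfl)) (Cx.le_sg ?_)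
    rintro _ (rfl | ⟨z, k, y, hz, hy, rfl⟩)
    · exact le_rfl
    · have a1 : 0 ≤ r z / 2 ^ k := by
        have := r0 z
        positivity
      refine le_of_not_gt fun a2 => hx ?_
      obtain ⟨y₀, b1, b2⟩ := (H.close hz.1 hy (x := x) (by linarith)).1
      exact ⟨y₀, hz.1.of_st b1, b2⟩
  · exact ⟨by linarith [(he x hx).1, r0 x], by linarith [(he x hx).2, r0 x]⟩
  · have a1 := norm_sub_le_norm_sub_add_norm_sub x (nb x) (rep mg r ε (nb x))
    rw [add_mul]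
    linarith [hd x hx, (hn x hx).2, (he x hx).1, r0 x]
  · rw [add_mul]
    linarith [(p2 _ (hc x hx).1).1 p hp, r0 (rep mg r ε (nb x))]
  · have a0 : ‖x - lf x‖ / 20 ≤ sg mg r ε x := by
      have a1 : ‖x - lf x‖ / 20 ≤ r x := by
        obtain ⟨p, hp, a2⟩ := (p2 _ (hc x hx).1).2 0 _ (rep_st (nb x))
        rw [pow_zero, div_one] at a2
        linarith [(hl x hx).2 p hp, norm_sub_le_norm_sub_add_norm_sub x (nb x) p, (hn x hx).2,
          (he x hx).2, r0 x]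
      refine Cx.le_sg ?_
      rintro _ (rfl | ⟨z, k, y, hz, hy, rfl⟩)
      · exact a1
      · have a2 : 0 ≤ r z / 2 ^ k := by
          have := r0 z
          positivity
        by_cases a3 : ‖x - y‖ ≤ r x
        · obtain ⟨y₀, b1, b2⟩ := (H.close hz.1 hy a3).1
          have b3 : z = rep mg r ε (nb x) := hz.2.symm.trans ((rep_eq b1).trans
            (H.uniq (hz.1.of_st b1) (hn x hx).1 b2 (by linarith [(hn x hx).2, r0 x])))
          obtain ⟨p, hp, b4⟩ := (p2 z hz.1).2 k y hy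
          linarith [(hl x hx).2 p (b3 ▸ hp), norm_sub_le_norm_sub_add_norm_sub x y p,
            norm_nonneg (x - y)]
        · linarith
    have a4 : 0 ≤ sg mg r ε x := Cx.le_sg (H.bdd x)
    nlinarith
  · refine le_of_not_gt fun a1 => k (H.uniq (hn x hx).1 (hn x' hx').1 (hn x hx).2 ?_)
    have a2 := (H.slow'' (r0 x) (b := 1) (by norm_num) (by linarith : ‖x - x'‖ ≤ 1 * r x)).2
    linarith [norm_sub_le_norm_sub_add_norm_sub x x' (nb x'), (hn x' hx').2, r0 x]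

end Pool.Agent.CA9.UB
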