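import Pool.Agent.Lib.MP_ca9be0_an.UB.S1c
import Pool.Agent.Lib.MP_ca9be0_an.UB.Tr
import Pool.Agent.Lib.MP_ca9be0_an.UB.IGl

/-! Interface: step 1. -/

namespace Pool.Agent.CA9.UB

open Finset Matrix Pool.Agent.Lib.MP_ca9be0_an.PyF

variable {N n k j M m d e e' : ℕ} {s : ℝ}

lemma AB.b_pos {a b : E N → ℝ → ℝ} (h : AB a b) (x : E N) {ρ : ℝ} (hρ : 0 < ρ) : 0 < b x ρ := by
  obtain ⟨c, hc, h1⟩ := h.pos
  exact hc.trans_le ((h1 x ρ hρ).trans (h.le x ρ hρ))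

lemma AB.mg {a b : E N → ℝ → ℝ} (h : AB a b) : Mg fun x ρ => a x ρ / b x ρ := by
  have up : ∀ {R u v : ℝ}, 0 ≤ v → u ≤ R * v → u ≤ max R 1 * v := fun hv hu =>
    hu.trans (mul_le_mul_of_nonneg_right (le_max_left _ _) hv)
  refine ⟨fun R => ?_, ?_, fun R => ?_⟩
  · obtain ⟨C₁, h1, k1⟩ := h.ca (max R 1) (le_max_right _ _)
    obtain ⟨C₂, h2, k2⟩ := h.cb (max R 1) (le_max_right _ _)
    refine ⟨max (C₁ * C₂) 1, le_max_right _ _, fun x ρ ρ' r0 r1 r2 r3 => ?_⟩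
    have a1 := k1 x ρ ρ' r0 (up r1.le r2) (up r0.le r3)
    have a2 := k2 x x ρ' ρ r1 (by rw [sub_self, norm_zero]; positivity) (up r0.le r3)
      (up r1.le r2)
    have b0 := h.b_pos x r0
    have b1 := h.b_pos x r1
    obtain ⟨c, hc, k3⟩ := h.pos
    have a0 : 0 < a x ρ := hc.trans_le (k3 x ρ r0)
    refine le_trans ?_ (mul_le_mul_of_nonneg_right (le_max_left _ _) (by positivity))
    rw [← mul_div_assoc, div_le_div_iff₀ b1 b0]
    calc a x ρ' * b x ρ ≤ (C₁ * a x ρ) * (C₂ * b x ρ') := by gcongr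
      _ = _ := by ring
  · obtain ⟨e, he⟩ := h.fin
    refine ⟨e, fun R => ?_⟩
    obtain ⟨ε, h0, k⟩ := he (max R 1) (le_max_right _ _)
    refine ⟨ε, h0, fun x ρ r0 y y1 y2 => ?_⟩
    obtain ⟨i, hi⟩ := k x ρ y r0 (fun i => up r0.le (y1 i)) fun i l hl =>
      (y2 i l hl).trans (le_mul_of_one_le_left (norm_nonneg _) (le_max_right _ _))
    exact ⟨i, (lt_div_iff₀ (h.b_pos _ r0)).2 hi⟩
  · obtain ⟨ε, B, q, h0, h1, k⟩ := h.ic (max R 1) (le_max_right _ _)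
    refine ⟨ε, B, q, h0, h1, fun p => ?_⟩
    obtain ⟨Cr, c1, c2⟩ := k p
    exact ⟨Cr, c1, fun ρ r0 hr y y1 y2 => c2 ρ y r0 hr (up r0.le y1)
      ((div_le_iff₀ (h.b_pos _ r0)).1 y2)⟩

theorem step1 (H : Hs d s) {g : Fin M → CF N d s} {a b : E N → ℝ → ℝ} (hab : AB a b)
    (hS : LS g a b m) : ∃ ε₁, 0 < ε₁ ∧ ∀ (σ : E N → ℝ) (G : Am m M → CF N d s)
      (J : E N → Matrix (Am m M) (Fin M) ℝ) (ε : ℝ), St g σ G J → 0 < ε → Mar a b ε σ σ →
      ∀ A : ℝ, ∃ (σ₂ : E N → ℝ) (G' : Am m M → CF N d s) (J' : E N → Matrix (Am m M) (Fin M) ℝ),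
        St g σ₂ G' J' ∧ (∀ x, A * σ₂ x ≤ σ x) ∧ Mar a b ε₁ σ₂ σ₂ := by
  classical
  have hmg := hab.mg
  obtain ⟨Q, C, ε₁, lam, hC, hε₁, hlam, hT⟩ := trees hmg
  refine ⟨ε₁, hε₁, fun σ G J ε hst hε hmar A => ?_⟩
  obtain ⟨S, c', hc', hpv, hw, hval, hrel⟩ := hS Q
  have hK := Kg_pos N d
  have hC0 : 0 < C := lt_of_lt_of_le one_pos hC
  have hW : ∀ P : Finset (E N), P.card ≤ Q → ∀ p ∈ P, ∀ p' ∈ P, ∀ i y,
      |S P p i y - S P p' i y| ≤ Kg N d * c' * (‖p - p'‖ + ‖y - p‖) ^ s := by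
    intro P hP p hp p' hp' i y
    by_cases e : p = p'
    · subst e
      rw [sub_self, abs_zero]
      positivity
    · exact pb_all H (Pd_sub (hpv _ _ i) (hpv _ _ i)) (norm_pos_iff.2 (sub_ne_zero.2 e)) hc'
        (hw P hP p hp p' hp' i) y
  obtain ⟨U₀, hU₀⟩ := hrel ε (Tri1 σ Q) (fun t => t.1.1) (fun t => t.1.2.1) (fun t => t.1.2.2)
    (fun t => σ t.1.2.2) hε fun t => ⟨t.2.1, t.2.2.1, t.2.2.2.1, t.2.2.2.2,
      hmar _ _ t.2.2.2.1 le_rfl le_rfl⟩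
  obtain ⟨R, F, η, c, k⟩ := exists_cls H hst hpv (by positivity) hW hU₀
  obtain ⟨A₁, b1, b2, b3, b4⟩ : ∃ A₁ : ℝ, 1 ≤ A₁ ∧ A ≤ A₁ ∧ 1 / lam ≤ A₁ ∧
      (4 * C + 8) / η ≤ A₁ :=
    ⟨max (max 1 A) (max (1 / lam) ((4 * C + 8) / η)), by simp, by simp, by simp, by simp⟩
  have hA : 0 < A₁ := lt_of_lt_of_le one_pos b1
  rw [div_le_iff₀' k.η0] at b4
  obtain ⟨T⟩ := hT (fun x => σ x / A₁) (fun x => div_nonneg (hst.lip.1 x) hA.le) fun x y => by
    have h1 := div_le_div_of_nonneg_right (hst.lip.2 x y) hA.le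
    rw [add_div] at h1
    have h2 : ‖x - y‖ / A₁ ≤ lam * ‖x - y‖ := by
      rw [div_le_iff₀ hlam] at b3
      rw [div_le_iff₀ hA]
      nlinarith [norm_nonneg (x - y)]
    linarith
  have sig : ∀ x, σ x = A₁ * (σ x / A₁) := fun x => by field_simp
  let p₀ : E N → E N := fun z => if h : (T.P z).Nonempty then h.choose else z
  have hp₀ : ∀ x ∈ T.Nr, p₀ (T.ct x) ∈ T.P (T.ct x) := fun x hx => by
    have h : (T.P (T.ct x)).Nonempty := ⟨_, T.lf_mem x hx⟩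
    simp only [p₀, dif_pos h]
    exact h.choose_spec
  let tri : T.Nr → Tri1 σ Q := fun x => ⟨(T.P (T.ct x.1), p₀ (T.ct x.1), T.ct x.1), T.card _,
    hp₀ _ x.2, by rw [sig]; exact mul_pos hA (T.pos _ x.2), by
      have a0 := T.pos _ x.2
      have a1 := T.leaf _ x.2 _ (hp₀ _ x.2)
      have a2 : C ≤ A₁ := by nlinarith [k.η1]
      rw [norm_sub_rev, sig (T.ct x.1)]
      exact a1.trans (mul_le_mul_of_nonneg_right a2 a0.le)⟩
  have geo : Geo σ T η tri := ⟨hst.lip, hC, b1, b4, fun _ => rfl, fun _ => rfl,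
    fun x x' e => Subtype.ext (by simp only [tri, e])⟩
  obtain ⟨C₃, hC₃⟩ := fld_whit H geo k (by positivity) hW
  obtain ⟨C₄, h4, k4⟩ := hmg.m2 C
  obtain ⟨U₁, η₁, h1, hU₁⟩ := hrel (ε₁ / C₄) {x : Pos T.sg // x.1 ∈ T.Nr}
    (fun x => T.P (T.ct x.1.1)) (fun x => T.lf x.1.1) (fun x => x.1.1) (fun x => C * T.sg x.1.1)
    (by positivity) fun x => ⟨T.card _, T.lf_mem _ x.2, mul_pos hC0 x.1.2, T.lf_le _ x.2, by
      have a0 := x.1.2
      have a1 := k4 x.1.1 (C * T.sg x.1.1) (T.sg x.1.1) (mul_pos hC0 a0) a0 le_rfl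
        (by nlinarith [mul_pos hC0 a0])
      have a2 := (T.margin _ a0).trans a1
      rw [← le_div_iff₀ (hab.b_pos _ (mul_pos hC0 a0)), div_le_iff₀' (by positivity)]
      exact a2⟩
  let U : Pos T.sg → E N → Matrix (Fin m) (Fin M) ℝ := fun x =>
    if h : x.1 ∈ T.Nr then fun y => R (tri ⟨x.1, h⟩) y * U₁ ⟨x, h⟩ y else blk J
  have hη : 0 < min η₁ (1 / 2) := lt_min h1 one_half_pos
  have hn : ∀ q : Nb (fun x : Pos T.sg => x.1) (fun x => T.sg x.1) (min η₁ (1 / 2)),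
      ‖q.1.2 - q.1.1.1‖ ≤ 1 / 2 * T.sg q.1.1.1 := fun q =>
    q.2.trans (mul_le_mul_of_nonneg_right (min_le_right _ _) q.1.1.2.le)
  obtain ⟨G', J', hst'⟩ := glue H (g := g) (σ := T.sg) ⟨T.nonneg, T.lip⟩
    (fld T tri (fun v => G (Sum.inl v)) F) U (fld_pv k) hC₃
    ⟨_, hη, relU_cases (fun q => q.1.1.1 ∈ T.Nr) (by
      have hr : ∀ q : {q : Nb (fun x : Pos T.sg => x.1) (fun x => T.sg x.1) (min η₁ (1 / 2)) //
        q.1.1.1 ∈ T.Nr}, 0 ≤ T.sg q.1.1.1.1 := fun q => T.nonneg _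
      have r1 := relU_mono H.pos (relU_comp hU₁
        fun q : {q : Nb (fun x : Pos T.sg => x.1) (fun x => T.sg x.1) (min η₁ (1 / 2)) //
          q.1.1.1 ∈ T.Nr} => ⟨(⟨q.1.1.1, q.2⟩, q.1.1.2), q.1.2.trans
            (mul_le_mul (min_le_left _ _) (le_mul_of_one_le_left (hr q) hC) (hr q) h1.le)⟩)
        hC0.le hr (fun q => by nlinarith [mul_nonneg hC0.le (hr q), hr q]) fun q => le_rfl
      obtain ⟨t1, t2⟩ := fld_rot H geo k
        (fun q : {q : Nb (fun x : Pos T.sg => x.1) (fun x => T.sg x.1) (min η₁ (1 / 2)) //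
          q.1.1.1 ∈ T.Nr} => ⟨q.1.1.1.1, q.2⟩) (fun q => q.1.1.2) (fun q => q.1.1.1.2)
        fun q => by linarith [hn q.1, hr q]
      have r2 := relU_change hr (relU_rot hr r1 t1 (fun q y => k.orth _ y) t2)
        (jet_diff H g hr (p := fun q => q.1.1.1.1) (L := C + 1)
          (fun q => by nlinarith [hn q.1, hr q]) fun q => by
            linarith [norm_sub_le_norm_sub_add_norm_sub q.1.1.2 q.1.1.1.1 (T.lf q.1.1.1.1),
              hn q.1, hr q, T.lf_le _ q.2])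
        (b' := fun q => fld T tri (fun v => G (Sum.inl v)) F q.1.1.1.1) fun a =>
          (TN.zero hr fun q => Real.rpow_nonneg (hr q) s).congr' fun q y => by simp
      have e : (fun q : {q : Nb (fun x : Pos T.sg => x.1) (fun x => T.sg x.1) (min η₁ (1 / 2)) //
          q.1.1.1 ∈ T.Nr} => U q.1.1.1) = fun q y =>
            R (tri ⟨q.1.1.1.1, q.2⟩) y * U₁ ⟨q.1.1.1, q.2⟩ y := funext fun q => dif_pos q.2
      rw [e]
      exact r2) (by
      have e : (fun q : {q : Nb (fun x : Pos T.sg => x.1) (fun x => T.sg x.1) (min η₁ (1 / 2)) //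
          ¬ q.1.1.1 ∈ T.Nr} => U q.1.1.1) = fun _ => blk J := funext fun q => dif_neg q.2
      have e' : (fun q : {q : Nb (fun x : Pos T.sg => x.1) (fun x => T.sg x.1) (min η₁ (1 / 2)) //
          ¬ q.1.1.1 ∈ T.Nr} => fld T tri (fun v => G (Sum.inl v)) F q.1.1.1.1)
          = fun q v => (G (Sum.inl v)).P q.1.1.1.1 := funext fun q => fld_neg q.2
      rw [e, e']
      refine hst.relU H (fun q => q.1.1.1.2) (L := 2 * A₁) (by positivity) (fun q => ?_)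
        (fun q => ?_) (fun q => ?_) fun q => ?_
      · have a1 := hst.lip.le' q.1.1.1.1 q.1.1.2
        have a2 := (T.le q.1.1.1.1).trans (geo.r_le q.1.1.1.1)
        have a3 := mul_le_mul_of_nonneg_right b1 (hst.lip.1 q.1.1.2)
        linarith [hn q.1]
      · have a1 := hst.lip.2 q.1.1.2 q.1.1.1.1
        have a2 := sig q.1.1.1.1
        rw [← T.far _ q.2] at a2
        have a3 := mul_le_mul_of_nonneg_right b1 (T.nonneg q.1.1.1.1)
        linarith [hn q.1, T.nonneg q.1.1.1.1]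
      · linarith [hn q.1, T.nonneg q.1.1.1.1, mul_le_mul_of_nonneg_right b1 (T.nonneg q.1.1.1.1)]
      · linarith [hn q.1, T.nonneg q.1.1.1.1,
          mul_le_mul_of_nonneg_right b1 (T.nonneg q.1.1.1.1)])⟩
    fun x h0 => by
      by_cases hx : x ∈ T.Nr
      · obtain ⟨a1, a2⟩ := fld_val H geo k hx h0
        rw [a1, hval _ (T.card _) x a2]
      · have a1 : σ x = 0 := by rw [sig, ← T.far x hx, h0, mul_zero]
        rw [fld_neg hx, ← hst.sq x, Fintype.sum_sum_type]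
        have a2 : ∀ w, (G (Sum.inr w)).f x = 0 := fun w => by
          obtain ⟨C', η', -, -, a3⟩ := hst.tz w
          have := (a3 x).2.abs_le (y := x) (by simp [a1])
          beta_reduce at this
          rw [a1, Real.zero_rpow H.pos.ne', mul_zero, mul_zero, abs_nonpos_iff,
            CF.center _ H.pos] at this
          exact this
        simp [a2, CF.center _ H.pos]
  refine ⟨T.sg, G', J', hst', fun x => ?_, fun x ρ r0 r1 r2 => ?_⟩
  · rw [sig x]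
    exact (mul_le_mul_of_nonneg_right b2 (T.nonneg x)).trans
      (mul_le_mul_of_nonneg_left (T.le x) hA.le)
  · have e : ρ = T.sg x := le_antisymm r2 r1
    subst e
    exact (le_div_iff₀ (hab.b_pos x r0)).1 (T.margin x r0)

end Pool.Agent.CA9.UB
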