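import Pool.Agent.Lib.MP_ca9be0_an.UB.IGf
import Pool.Agent.Lib.MP_ca9be0_an.UB.IM
import Pool.Agent.Lib.MP_ca9be0_an.UB.ILS
import Pool.Agent.Lib.MP_ca9be0_an.UB.IS1
import Pool.Agent.Lib.MP_ca9be0_an.UB.ICl
import Pool.Agent.Lib.MP_ca9be0_an.UB.IQ

/-! The loop over the generations and the sharp upper bound. -/

namespace Pool.Agent.CA9.UB

open Finset Matrix Pool.Agent.Lib.MP_ca9be0_an Pool.Agent.Lib.MP_ca9be0_an.PyF

variable {N n k j M m d e e' : ℕ} {s : ℝ}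

theorem LS.weaken {g : Fin M → CF N d s} {a b a' b' : E N → ℝ → ℝ} (h : LS g a b m) {c : ℝ}
    (hc : 0 < c) (hh : ∀ ε x ρ, 0 ≤ ε → ε * b' x ρ ≤ a' x ρ → c * ε * b x ρ ≤ a x ρ) :
    LS g a' b' m := by
  intro Q
  obtain ⟨S, C, h1, h2, h3, h4, h5⟩ := h Q
  refine ⟨S, C, h1, h2, h3, h4, fun ε ι P p x ρ hε hi => h5 (c * ε) ι P p x ρ (mul_pos hc hε) ?_⟩
  intro i
  obtain ⟨a1, a2, a3, a4, a5⟩ := hi i
  exact ⟨a1, a2, a3, a4, hh _ _ _ hε.le a5⟩

/-- the zero function -/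
def zCF (N d : ℕ) (s : ℝ) : CF N d s :=
  ⟨fun _ => 0, fun _ _ => 0, fun _ => const_mem d 0, 0, le_rfl, fun _ _ => by simp⟩

theorem lip_init : Lip1 fun x : E N => 1 + ‖x‖ :=
  ⟨fun x => by positivity, fun x y => by linarith [norm_sub_norm_le x y]⟩

theorem St.init (H : Hs d s) (g : Fin M → CF N d s) : St g (fun x => 1 + ‖x‖)
    (Sum.elim (fun _ : Fin m => zCF N d s) g) fun _ => fromRows 0 1 := by
  have hr : ∀ x : Pos fun x : E N => 1 + ‖x‖, 0 ≤ 1 + ‖x.1‖ := fun x => x.2.le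
  refine ⟨lip_init, fun y => by simp [zCF], fun w => (g w).tame_init H, fun y _ => ?_,
    TM.const hr 1 ?_, fun v => (TN.zero hr fun x => by positivity).congr' fun x y => ?_⟩
  · rw [transpose_fromRows, fromCols_mul_fromRows]; simp
  · rintro _ (a | a) b
    · simp
    · simp only [fromRows_apply_inr, one_apply]; split_ifs <;> simp
  · rcases v with a | a
    · simp [zCF]
    · simp [one_apply]

theorem St.final (H : Hs d s) {g : Fin M → CF N d s} {σ : E N → ℝ} {G : Am m M → CF N d s}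
    {J : E N → Matrix (Am m M) (Fin M) ℝ} (h : St g σ G J) (h0 : ∀ x, σ x = 0) (y : E N) :
    ∑ i, (G (Sum.inl i)).f y ^ 2 = ∑ w, (g w).f y ^ 2 := by
  rw [← h.sq y, Fintype.sum_sum_type]
  simp [fun w => (h.tz w).eq_zero H (h0 y)]

theorem Lip1.inf {σ σ' : E N → ℝ} (h : Lip1 σ) (h' : Lip1 σ') : Lip1 fun x => min (σ x) (σ' x) :=
  ⟨fun x => le_min (h.1 x) (h'.1 x), fun x y => by
    rw [← min_add_add_right]; exact min_le_min (h.2 x y) (h'.2 x y)⟩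

theorem Sc.lip_div {σ σ' : E N → ℝ} (h : Sc σ σ') {A : ℝ} (hA : 1 ≤ A) :
    Lip1 fun x => max (σ x / A) (σ' x) := by
  refine ⟨fun x => le_max_of_le_right (h.l'.1 x), fun x y => ?_⟩
  rw [← max_add_add_right]
  refine max_le_max ?_ (h.l'.2 x y)
  have h1 : σ x / A ≤ (σ y + ‖x - y‖) / A := div_le_div_of_nonneg_right (h.l.2 x y) (by linarith)
  have h2 : ‖x - y‖ / A ≤ ‖x - y‖ := div_le_self (norm_nonneg _) hA
  rw [add_div] at h1
  linarith

/-- steps 2 and 3 together -/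
theorem step23 (H : Hs d s) (hd : 1 ≤ d) (hm : (n + d).choose d < m) {g : Fin M → CF (n + 1) d s}
    {σ₂ σb : E (n + 1) → ℝ} {G : Am m M → CF (n + 1) d s}
    {J : E (n + 1) → Matrix (Am m M) (Fin M) ℝ} (h : St g σ₂ G J) (hs : Sc σ₂ σb) {ε : ℝ}
    (hε : 0 < ε) (hmar : Mar (fa (fG d n) g) (fb (fG d n) g) ε σb σ₂) (X : Finset ℝ) (B K : ℝ)
    (hK : 1 ≤ K) (hdi : ∀ x, σ₂ x ≤ B * σb x ∨
      ∀ l ≤ n, Mono X K (fb (fG d l) g x) (σb x / 2) (σ₂ x)) :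
    ∃ (G : Am m M → CF (n + 1) d s) (J' : E (n + 1) → Matrix (Am m M) (Fin M) ℝ),
      St g σb G J' := by
  have hle : ∀ (A : {A : ℝ // 1 ≤ A}) x, max (σ₂ x / A.1) (σb x) ≤ σ₂ x := fun A x =>
    max_le (div_le_self (hs.l.1 x) A.2) (hs.le x)
  obtain ⟨L, _, j, v, J', w, hc⟩ := clean H hd hm h
    (fun (A : {A : ℝ // 1 ≤ A}) x => max (σ₂ x / A.1) (σb x)) (fun A => Sc.lip_div hs A.2) hle
    (fun A => ⟨A.1, fun x => by
      have hA : 0 < A.1 := by linarith [A.2]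
      calc σ₂ x = A.1 * (σ₂ x / A.1) := by field_simp
        _ ≤ _ := mul_le_mul_of_nonneg_left (le_max_left _ _) hA.le⟩) hε
    fun A x ρ h1 h2 h3 => hmar x ρ h1 ((le_max_right _ _).trans h2) (h3.trans (hle A x))
  exact descent H hs hc X B K hK hdi

theorem sharp (H : Hs d s) (hd : 1 ≤ d) (hm : (n + d).choose d < m) (g : Fin M → CF (n + 1) d s) :
    ∃ h : Fin m → CF (n + 1) d s, ∀ y, ∑ i, (h i).f y ^ 2 = ∑ w, (g w).f y ^ 2 := by
  obtain ⟨e₁, G₁, hG₁, hLS⟩ := lemmaS H n M m hm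
  choose ef hf using fun l => fG_gauge d l M (n + 1)
  have hP := (hf n).mul hG₁
  obtain ⟨c, hc, hfac⟩ := (hf n).factor hG₁
  set Pc : Gg M (n + 1) n := fun T u v => fG d n T u v * G₁ T u v
  have hab := hP.ab H g
  have hS : LS g (fa Pc g) (fb Pc g) m := (hLS g).weaken hc fun ε x ρ h1 h2 =>
    (hfac _ (nj_PV g x ρ) ε h1 h2).2
  obtain ⟨X₀, ma, mb⟩ := hP.mm H g
  choose Xf _ mf using fun l => (hf l).mm H g
  let X : Finset ℝ := X₀ ∪ (range (n + 1)).biUnion Xf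
  let β : Fin (n + 2) → E (n + 1) → ℝ → ℝ := Fin.cons (fb Pc g) fun l => fb (fG d l) g
  obtain ⟨Y, ⟨e₀, he₀⟩, hev⟩ := evscale X β
    (Fin.cases (mb.mono subset_union_left) fun l => (mf l).mono
      ((subset_biUnion_of_mem Xf (mem_range.2 l.2)).trans subset_union_right))
    (Fin.cases (hP.cb H g) fun l => (hf l).cb H g)
  obtain ⟨ε₁, hε₁, hs1⟩ := step1 H hab hS
  obtain ⟨c₀, hc₀, hpos⟩ := hab.pos
  have key : ∀ (q : ℕ) (e : ℝ) (σ : E (n + 1) → ℝ) (G : Am m M → CF (n + 1) d s)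
      (J : E (n + 1) → Matrix (Am m M) (Fin M) ℝ) (ε : ℝ), (Y.filter (· < e)).card < q →
      St g σ G J → 0 < ε → Mar (fa Pc g) (fb Pc g) ε σ σ → Rk (fun x ρ => ∏ i, β i x ρ) σ e →
      ∃ h : Fin m → CF (n + 1) d s, ∀ y, ∑ i, (h i).f y ^ 2 = ∑ w, (g w).f y ^ 2 := by
    intro q
    induction q with
    | zero => intro e σ G J ε h; omega
    | succ q ih =>
      intro e σ G J ε hq hSt hε hmar hrk
      obtain ⟨ρ', hsc, halt, A, B, K, hA, hB, hK, hdi⟩ := hev σ e hSt.lip hrk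
      obtain ⟨ε', A', hε', hA', hper⟩ := persist hab (ma.mono (Y := X) subset_union_left) B K hK hε₁
      obtain ⟨σ₂, G₂, J₂, hSt₂, hσ₂, hm₂⟩ := hs1 σ G J ε hSt hε hmar (max A A')
      have n2 := hSt₂.lip.1
      have l1 : ∀ x, A * σ₂ x ≤ σ x := fun x =>
        (mul_le_mul_of_nonneg_right (le_max_left _ _) (n2 x)).trans (hσ₂ x)
      have l2 : ∀ x, A' * σ₂ x ≤ σ x := fun x =>
        (mul_le_mul_of_nonneg_right (le_max_right _ _) (n2 x)).trans (hσ₂ x)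
      have l3 : ∀ x, σ₂ x ≤ σ x := fun x => (le_mul_of_one_le_left (n2 x) hA).trans (l1 x)
      have hsb : Sc σ₂ fun x => min (ρ' x) (σ₂ x) :=
        ⟨hSt₂.lip, Lip1.inf hsc.l' hSt₂.lip, fun x => min_le_right _ _⟩
      have hmb : Mar (fa Pc g) (fb Pc g) (min ε' ε₁) (fun x => min (ρ' x) (σ₂ x)) σ₂ := by
        intro x ρ h1 h2 h3
        have b0 : 0 ≤ fb Pc g x ρ := (hc₀.le.trans (hpos x ρ h1)).trans (hab.le x ρ h1)
        rcases min_le_iff.1 h2 with h4 | h4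
        · exact (mul_le_mul_of_nonneg_right (min_le_left _ _) b0).trans
            (hper x (ρ' x) (σ x) (σ₂ x) (hsc.l'.1 x) (h1.trans_le h3) (l2 x)
              ((hdi x _ (h1.trans_le h3) (l1 x)).imp id fun h => h 0)
              (hm₂ x _ (h1.trans_le h3) le_rfl le_rfl) ρ h1 h4 h3)
        · exact (mul_le_mul_of_nonneg_right (min_le_right _ _) b0).trans (hm₂ x ρ h1 h4 h3)
      obtain ⟨G₃, J₃, hSt₃⟩ := step23 H hd hm hSt₂ hsb (mul_pos hc (lt_min hε' hε₁))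
        (fun x ρ h1 h2 h3 => (hfac _ (nj_PV g x ρ) _ (lt_min hε' hε₁).le (hmb x ρ h1 h2 h3)).1)
        X B K hK fun x => by
          rcases le_total (σ₂ x) (ρ' x) with h | h
          · left; rw [min_eq_right h]; exact le_mul_of_one_le_left (n2 x) hB
          rcases (n2 x).eq_or_lt with h0 | h0
          · left; rw [← h0]; exact mul_nonneg (by linarith) (le_min (hsc.l'.1 x) le_rfl)
          rw [min_eq_left h]
          refine (hdi x _ h0 (l1 x)).imp id fun h' l hl => ?_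
          obtain ⟨z, hz, γ, hγ⟩ := h' (Fin.succ ⟨l, Nat.lt_succ_of_le hl⟩)
          exact ⟨z, hz, γ, fun ρ a1 a2 => hγ ρ a1 (a2.trans (l3 x))⟩
      rcases halt with h0 | ⟨e', he', hlt, hrk'⟩
      · exact ⟨_, hSt₃.final H fun x => by rw [h0 x]; exact min_eq_left (n2 x)⟩
      · refine ih e' _ G₃ J₃ _ ?_ hSt₃ (lt_min hε' hε₁)
          (fun x ρ h1 h2 h3 => hmb x ρ h1 h2 (h3.trans (min_le_right _ _)))
          (hrk' _ fun x => min_le_left _ _)
        refine lt_of_lt_of_le (card_lt_card ⟨fun z hz => ?_, fun hz => ?_⟩) (Nat.lt_succ_iff.1 hq)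
        · rw [mem_filter] at hz ⊢; exact ⟨hz.1, hz.2.trans hlt⟩
        · exact lt_irrefl _ (mem_filter.1 (hz (mem_filter.2 ⟨he', hlt⟩))).2
  obtain ⟨C, hC, hpb⟩ := Tame.pb H lip_init (fun w => (g w).tame_init H) 1
  obtain ⟨D, hD⟩ := hP.bdd C
  refine key _ e₀ _ _ _ (c₀ / max D 1) (Nat.lt_succ_self _) (St.init H g) (by positivity) ?_ (he₀ _)
  intro x ρ h1 h2 h3
  obtain rfl : ρ = 1 + ‖x‖ := le_antisymm h3 h2
  have b1 : fb Pc g x (1 + ‖x‖) ≤ max D 1 := (hD _ (nj_PV g x _) fun w y hy => by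
    have := hpb w x (x + (1 + ‖x‖) • y) (by
      rw [add_sub_cancel_left, norm_smul, Real.norm_of_nonneg h1.le, one_mul]
      exact mul_le_of_le_one_right h1.le (by simpa using hy))
    have hp := Real.rpow_pos_of_pos h1 s
    simp only [nj, scl]
    rw [abs_div, abs_of_pos hp, div_le_iff₀ hp]
    exact this).trans (le_max_left _ _)
  calc c₀ / max D 1 * fb Pc g x (1 + ‖x‖) ≤ c₀ / max D 1 * max D 1 :=
        mul_le_mul_of_nonneg_left b1 (by positivity)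
    _ = c₀ := by field_simp
    _ ≤ _ := hpos x _ h1

theorem sumsq_sharp {β : ℝ} (h0 : 0 < β) (h1 : β ≤ 1) (hd : 1 ≤ d) (g : Fin M → E (n + 1) → ℝ)
    (hg : ∀ i, InC d β (g i)) : ∃ g' : Fin ((n + d).choose d + 1) → E (n + 1) → ℝ,
      (∀ i, InC d β (g' i)) ∧ ∀ y, ∑ i, g i y ^ 2 = ∑ i, g' i y ^ 2 := by
  have H : Hs d (d + β) := ⟨by linarith, by linarith⟩
  choose u hu using fun i => exists_CF h0 d _ rfl _ (hg i)
  obtain ⟨h, hh⟩ := sharp H hd (Nat.lt_succ_self _) u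
  exact ⟨fun i => (h i).f, fun i => CF.inC h0 d _ rfl _, fun y => by rw [hh]; simp [hu]⟩

end Pool.Agent.CA9.UB
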