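import Pool.Agent.Lib.MP_ca9be0_an.UB.Defs

/-! The Cayley, sign and switch lemmas, pointwise and for tame families. -/

namespace Pool.Agent.CA9.UB

open Finset Matrix Pool.Agent.Lib.MP_ca9be0_an.PyF

section LA
variable {V : Type} [Fintype V] [DecidableEq V]

/-- the Cayley transform -/
noncomputable def cay (K : Matrix V V ℝ) : Matrix V V ℝ := (1 - K)⁻¹ * (1 + K)

lemma skew_det {K : Matrix V V ℝ} (h : Kᵀ = -K) : 1 ≤ |(1 - K).det| := by
  have h1 := det_ge (gram_herm (1 - K)) zero_le_one fun u => by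
    have e : u ⬝ᵥ K *ᵥ u = 0 := by
      have := dotProduct_mulVec u K u
      rw [← mulVec_transpose, h, neg_mulVec, neg_dotProduct, dotProduct_comm (K *ᵥ u)] at this
      linarith
    rw [dot_gram, sub_mulVec, one_mulVec, sub_dotProduct, dotProduct_sub, dotProduct_sub,
      dotProduct_comm (K *ᵥ u) u, e]
    linarith [dot_nn (K *ᵥ u)]
  rw [one_pow, det_mul, det_transpose, ← sq, ← sq_abs] at h1
  exact (one_le_sq_iff₀ (abs_nonneg _)).1 h1

lemma skew_unit {K : Matrix V V ℝ} (h : Kᵀ = -K) : IsUnit (1 - K).det :=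
  isUnit_iff_ne_zero.2 (abs_pos.1 (one_pos.trans_le (skew_det h)))

lemma cay_orth {K : Matrix V V ℝ} (h : Kᵀ = -K) : (cay K)ᵀ * cay K = 1 := by
  have u := skew_unit h
  have e1 : (1 - K)ᵀ = 1 + K := by rw [transpose_sub, transpose_one, h, sub_neg_eq_add]
  have e2 : (1 + K)ᵀ = 1 - K := by rw [← e1, transpose_transpose]
  have u' : IsUnit (1 + K).det := by rwa [← e1, det_transpose]
  have c : (1 - K) * (1 + K) = (1 + K) * (1 - K) := by noncomm_ring
  rw [cay, transpose_mul, transpose_nonsing_inv, e1, e2, Matrix.mul_assoc,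
    ← Matrix.mul_assoc (1 + K)⁻¹, ← Matrix.mul_inv_rev, c, Matrix.mul_inv_rev, Matrix.mul_assoc,
    nonsing_inv_mul _ u', Matrix.mul_one, mul_nonsing_inv _ u]

lemma cay_sub {K : Matrix V V ℝ} (h : Kᵀ = -K) (a b : V → ℝ) :
    cay K *ᵥ a - b = (1 - K)⁻¹ *ᵥ (K *ᵥ (a + b) + a - b) := by
  have e : K *ᵥ (a + b) + a - b = (1 + K) *ᵥ a - (1 - K) *ᵥ b := by
    simp only [mulVec_add, add_mulVec, sub_mulVec, one_mulVec]; abel
  rw [e, mulVec_sub, mulVec_mulVec, mulVec_mulVec, nonsing_inv_mul _ (skew_unit h), one_mulVec, cay]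

/-- the sign lemma -/
theorem exists_sign (Y : Matrix V V ℝ) : ∃ D : V → ℝ, (∀ a, D a = 1 ∨ D a = -1) ∧
    1 ≤ |(1 + diagonal D * Y).det| := by
  suffices h : ∀ S : Finset V, ∃ D : V → ℝ, (∀ a ∈ S, D a = 1 ∨ D a = -1) ∧ (∀ a ∉ S, D a = 0) ∧
      1 ≤ |(1 + diagonal D * Y).det| by
    obtain ⟨D, h1, -, h2⟩ := h univ
    exact ⟨D, fun a => h1 a (mem_univ a), h2⟩
  intro S
  induction S using Finset.induction_on with
  | empty => exact ⟨0, by simp, by simp, by simp⟩
  | insert a S ha ih =>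
    obtain ⟨D, h1, h2, h3⟩ := ih
    have e : ∀ t : ℝ, (1 + diagonal (Function.update D a t) * Y).det = (1 + diagonal D * Y).det +
        t * ((1 + diagonal D * Y).updateRow a (Y a)).det := fun t => by
      have : 1 + diagonal (Function.update D a t) * Y =
          (1 + diagonal D * Y).updateRow a ((1 + diagonal D * Y) a + t • Y a) := by
        ext i j
        by_cases hi : i = a
        · subst hi
          simp [h2 i ha]
        · simp [updateRow_ne hi, Function.update_of_ne hi]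
      rw [this, det_updateRow_add, det_updateRow_smul, updateRow_eq_self]
    have key : ∀ t : ℝ, t = 1 ∨ t = -1 → 1 ≤ |(1 + diagonal (Function.update D a t) * Y).det| →
        ∃ D : V → ℝ, (∀ b ∈ insert a S, D b = 1 ∨ D b = -1) ∧ (∀ b ∉ insert a S, D b = 0) ∧
          1 ≤ |(1 + diagonal D * Y).det| := fun t ht h => by
      refine ⟨_, fun b hb => ?_, fun b hb => ?_, h⟩
      · by_cases e : b = a
        · subst e; simpa using ht
        · rw [Function.update_of_ne e]; exact h1 b ((mem_insert.1 hb).resolve_left e)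
      · rw [mem_insert, not_or] at hb
        rw [Function.update_of_ne hb.1]; exact h2 b hb.2
    by_cases hp : 1 ≤ |(1 + diagonal (Function.update D a 1) * Y).det|
    · exact key 1 (Or.inl rfl) hp
    · refine key (-1) (Or.inr rfl) ?_
      rw [e] at hp ⊢
      generalize (1 + diagonal D * Y).det = p at *
      generalize ((1 + diagonal D * Y).updateRow a (Y a)).det = q at *
      have := abs_add_le (p + 1 * q) (p + -1 * q)
      rw [show p + 1 * q + (p + -1 * q) = 2 * p by ring, abs_mul, abs_two] at this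
      linarith [not_le.1 hp]

lemma sign_sq {D : V → ℝ} (h : ∀ a, D a = 1 ∨ D a = -1) : diagonal D * diagonal D = 1 := by
  rw [diagonal_mul_diagonal, ← diagonal_one]
  congr 1
  funext a
  rcases h a with e | e <;> simp [e]

/-- the orthogonal matrix of the switch lemma -/
noncomputable def swi (D : V → ℝ) (Y : Matrix V V ℝ) : Matrix V V ℝ :=
  diagonal D * cay ((1 + diagonal D * Y)⁻¹ᵀ - (1 + diagonal D * Y)⁻¹)

lemma swi_orth {D : V → ℝ} (h : ∀ a, D a = 1 ∨ D a = -1) (Y : Matrix V V ℝ) :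
    (swi D Y)ᵀ * swi D Y = 1 := by
  rw [swi, transpose_mul, diagonal_transpose, Matrix.mul_assoc, ← Matrix.mul_assoc (diagonal D),
    sign_sq h, Matrix.one_mul, cay_orth (by rw [transpose_sub, transpose_transpose, neg_sub])]

lemma orth_abs_le {A : Type} [Fintype A] [DecidableEq A] {J : Matrix V A ℝ} (h : Jᵀ * J = 1)
    (v : V) (a : A) : |J v a| ≤ 1 :=
  col_le (fun u => by rw [← dot_gram, h, one_mulVec]) v a

end LA

section tame
variable {N d : ℕ} {s : ℝ} {ι : Type} {x : ι → E N} {r w : ι → ℝ} {b : Bool} {A B V : Type}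

/-- tame vector fields of size `w` -/
def TV (d : ℕ) (b : Bool) (x : ι → E N) (r : ι → ℝ) (a : ι → E N → A → ℝ) (w : ι → ℝ) : Prop :=
  ∀ v, TN d b x r (fun i y => a i y v) w

lemma TV.add {a a' : ι → E N → A → ℝ} (h : TV d b x r a w) (h' : TV d b x r a' w) :
    TV d b x r (fun i y => a i y + a' i y) w := fun v => (h v).add (h' v)

lemma TV.sub {a a' : ι → E N → A → ℝ} (h : TV d b x r a w) (h' : TV d b x r a' w) :
    TV d b x r (fun i y => a i y - a' i y) w := fun v => (h v).sub (h' v)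

lemma TV.neg {a : ι → E N → A → ℝ} (h : TV d b x r a w) :
    TV d b x r (fun i y => -a i y) w := fun v => (h v).neg

lemma TV.congr {a a' : ι → E N → A → ℝ} (h : TV d b x r a w) {η : ℝ} (h0 : 0 < η)
    (he : ∀ i y, ‖y - x i‖ ≤ η * r i → a i y = a' i y) : TV d b x r a' w :=
  fun v => (h v).congr h0 fun i y hy => by rw [he i y hy]

lemma TV.congr' {a a' : ι → E N → A → ℝ} (h : TV d b x r a w) (he : ∀ i y, a i y = a' i y) :
    TV d b x r a' w := fun v => (h v).congr' fun i y => by rw [he i y]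

lemma TV.mulVec [Fintype A] {Y : ι → E N → Matrix B A ℝ} {a : ι → E N → A → ℝ}
    (hr : ∀ i, 0 ≤ r i) (hw : ∀ i, 0 ≤ w i) (hY : TM d x r Y) (h : TV d b x r a w) :
    TV d b x r (fun i y => Y i y *ᵥ a i y) w :=
  fun v => TN.sum univ hr hw fun v' _ => (hY v v').mul1 (h v')

lemma TV.elim {a : ι → E N → A → ℝ} {a' : ι → E N → B → ℝ} (h : TV d b x r a w)
    (h' : TV d b x r a' w) : TV d b x r (fun i y => Sum.elim (a i y) (a' i y)) w := by
  rintro (v | v)
  exacts [h v, h' v]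

lemma tm_neg {Y : ι → E N → Matrix A B ℝ} (h : TM d x r Y) : TM d x r fun i y => -Y i y :=
  fun a b => (h a b).neg

lemma tm_near {Y Y' : ι → E N → Matrix A B ℝ} (h : TM d x r Y) {η : ℝ} (h0 : 0 < η)
    (he : ∀ i y, ‖y - x i‖ ≤ η * r i → Y i y = Y' i y) : TM d x r Y' :=
  fun a b => TN.congr (h a b) h0 fun i y hy => by rw [he i y hy]

lemma tm_blocks {A' B' : Type} {Y₁ : ι → E N → Matrix A B ℝ} {Y₂ : ι → E N → Matrix A B' ℝ}
    {Y₃ : ι → E N → Matrix A' B ℝ} {Y₄ : ι → E N → Matrix A' B' ℝ} (h₁ : TM d x r Y₁)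
    (h₂ : TM d x r Y₂) (h₃ : TM d x r Y₃) (h₄ : TM d x r Y₄) :
    TM d x r fun i y => fromBlocks (Y₁ i y) (Y₂ i y) (Y₃ i y) (Y₄ i y) := by
  rintro (a | a) (b | b)
  exacts [h₁ a b, h₂ a b, h₃ a b, h₄ a b]

lemma tm_c (hr : ∀ i, 0 ≤ r i) (Y : Matrix A B ℝ) : TM d x r fun _ _ => Y :=
  fun a b => T1.c hr (Y a b)

variable [Fintype V] [DecidableEq V]

/-- the inverse is tame if the absolute value of the determinant is bounded below -/
lemma tm_inv {Y : ι → E N → Matrix V V ℝ} (hr : ∀ i, 0 ≤ r i) (h : TM d x r Y) {c η : ℝ}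
    (hc : 0 < c) (h0 : 0 < η) (hu : ∀ i y, ‖y - x i‖ ≤ η * r i → c ≤ |(Y i y).det|) :
    TM d x r fun i y => (Y i y)⁻¹ := by
  refine tm_near (TM.mul hr (TM.inv hr (TM.mul hr h.tr h) (c := c ^ 2) (by positivity) h0
    fun i y hy => ?_) h.tr) h0 fun i y hy => ?_
  · rw [det_mul, det_transpose, ← sq, ← sq_abs (det _)]
    exact pow_le_pow_left₀ hc.le (hu i y hy) 2
  · rw [Matrix.mul_inv_rev, Matrix.mul_assoc, nonsing_inv_mul, Matrix.mul_one]
    rw [det_transpose]
    exact isUnit_iff_ne_zero.2 (abs_pos.1 (hc.trans_le (hu i y hy)))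

variable {K : ι → E N → Matrix V V ℝ}

lemma tm_cay_inv (hr : ∀ i, 0 ≤ r i) (h : TM d x r K) (hs : ∀ i y, (K i y)ᵀ = -K i y) :
    TM d x r fun i y => (1 - K i y)⁻¹ :=
  tm_inv hr ((tm_c hr 1).sub h) one_pos one_pos fun i y _ => skew_det (hs i y)

lemma tm_cay (hr : ∀ i, 0 ≤ r i) (h : TM d x r K) (hs : ∀ i y, (K i y)ᵀ = -K i y) :
    TM d x r fun i y => cay (K i y) := TM.mul hr (tm_cay_inv hr h hs) ((tm_c hr 1).add h)

/-- the Cayley lemma -/
lemma tv_cay (hr : ∀ i, 0 ≤ r i) (hw : ∀ i, 0 ≤ w i) (h : TM d x r K)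
    (hs : ∀ i y, (K i y)ᵀ = -K i y) {a a' : ι → E N → V → ℝ}
    (ha : TV d b x r (fun i y => K i y *ᵥ (a i y + a' i y) + a i y - a' i y) w) :
    TV d b x r (fun i y => cay (K i y) *ᵥ a i y - a' i y) w :=
  (ha.mulVec hr hw (tm_cay_inv hr h hs)).congr' fun i y => (cay_sub (hs i y) _ _).symm

/-- an orthogonal tame field gives the relation in both directions -/
lemma tv_orth (hr : ∀ i, 0 ≤ r i) (hw : ∀ i, 0 ≤ w i) {W : Type} [Fintype W]
    {R : ι → E N → Matrix W V ℝ} (h : TM d x r R) (ho : ∀ i y, (R i y)ᵀ * R i y = 1)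
    {a : ι → E N → V → ℝ} {a' : ι → E N → W → ℝ}
    (ha : TV d b x r (fun i y => R i y *ᵥ a i y - a' i y) w) :
    TV d b x r (fun i y => (R i y)ᵀ *ᵥ a' i y - a i y) w :=
  (ha.mulVec hr hw h.tr).neg.congr' fun i y => by
    rw [mulVec_sub, mulVec_mulVec, ho, one_mulVec, neg_sub]

/-- the switch lemma -/
theorem switch (hr : ∀ i, 0 ≤ r i) (hw : ∀ i, 0 ≤ w i) {Y : ι → E N → Matrix V V ℝ}
    (hY : TM d x r Y) {D : ι → V → ℝ} (hD : ∀ i a, D i a = 1 ∨ D i a = -1) {c η : ℝ} (hc : 0 < c)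
    (h0 : 0 < η) (hu : ∀ i y, ‖y - x i‖ ≤ η * r i → c ≤ |(1 + diagonal (D i) * Y i y).det|) :
    TM d x r (fun i y => swi (D i) (Y i y)) ∧ ∀ {a a' : ι → E N → V → ℝ},
      TV d b x r (fun i y => Y i y *ᵥ a i y - a' i y) w →
      TV d b x r (fun i y => (Y i y)ᵀ *ᵥ a' i y - a i y) w →
      TV d b x r (fun i y => swi (D i) (Y i y) *ᵥ a i y - a' i y) w := by
  have tD : TM d x r fun i _ => diagonal (D i) := TM.const hr 1 fun i a a' => by
    rw [diagonal_apply]
    split_ifs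
    · rcases hD i a with e | e <;> simp [e]
    · simp
  have t1 := tm_inv hr ((tm_c hr 1).add (TM.mul hr tD hY)) hc h0 hu
  have tK := t1.tr.sub t1
  have sk : ∀ i y, ((1 + diagonal (D i) * Y i y)⁻¹ᵀ - (1 + diagonal (D i) * Y i y)⁻¹)ᵀ =
      -((1 + diagonal (D i) * Y i y)⁻¹ᵀ - (1 + diagonal (D i) * Y i y)⁻¹) := fun i y => by
    rw [transpose_sub, transpose_transpose, neg_sub]
  refine ⟨TM.mul hr tD (tm_cay hr tK sk), fun {a a'} h1 h2 => ?_⟩
  have h3 := tv_cay (b := b) hr hw tK sk (a := a) (a' := fun i y => diagonal (D i) *ᵥ a' i y)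
    ((((h1.mulVec hr hw tD).mulVec hr hw t1).sub (h2.mulVec hr hw t1.tr)).congr h0
      fun i y hy => ?_)
  · refine (h3.mulVec hr hw tD).congr' fun i y => ?_
    rw [mulVec_sub, mulVec_mulVec, mulVec_mulVec, sign_sq (hD i), one_mulVec, swi]
  have u : IsUnit (1 + diagonal (D i) * Y i y).det :=
    isUnit_iff_ne_zero.2 (abs_pos.1 (hc.trans_le (hu i y hy)))
  have e1 : diagonal (D i) *ᵥ (Y i y *ᵥ a i y - a' i y) =
      (1 + diagonal (D i) * Y i y) *ᵥ a i y - (a i y + diagonal (D i) *ᵥ a' i y) := by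
    rw [mulVec_sub, add_mulVec, one_mulVec, mulVec_mulVec]; abel
  have e2 : (Y i y)ᵀ *ᵥ a' i y - a i y = (1 + diagonal (D i) * Y i y)ᵀ *ᵥ
      (diagonal (D i) *ᵥ a' i y) - (a i y + diagonal (D i) *ᵥ a' i y) := by
    rw [transpose_add, transpose_one, transpose_mul, diagonal_transpose, add_mulVec, one_mulVec,
      mulVec_mulVec, Matrix.mul_assoc, sign_sq (hD i), Matrix.mul_one]; abel
  rw [e1, e2, mulVec_sub, mulVec_sub, mulVec_mulVec, nonsing_inv_mul _ u, one_mulVec,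
    mulVec_mulVec _ _ _ᵀ, ← transpose_mul, mul_nonsing_inv _ u, transpose_one, one_mulVec,
    sub_mulVec]
  abel

variable [Fintype A] [Fintype B] [DecidableEq A] [DecidableEq B]

/-- the block form of the Cayley lemma -/
theorem cay_blocks (hr : ∀ i, 0 ≤ r i) (hw : ∀ i, 0 ≤ w i) {U : ι → E N → Matrix B A ℝ}
    {Z : ι → E N → Matrix A A ℝ} (hU : TM d x r U) (hZ : TM d x r Z)
    (hs : ∀ i y, (Z i y)ᵀ = -Z i y) {a : ι → E N → A → ℝ} {a' : ι → E N → B → ℝ}
    (h1 : TV d b x r (fun i y => U i y *ᵥ a i y - a' i y) w)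
    (h2 : TV d b x r (fun i y => a i y - (U i y)ᵀ *ᵥ a' i y - Z i y *ᵥ a i y) w) :
    TM d x r (fun i y => (cay (fromBlocks 0 (U i y) (-(U i y)ᵀ) (-Z i y))).submatrix id Sum.inr) ∧
    (∀ i y, ((cay (fromBlocks 0 (U i y) (-(U i y)ᵀ) (-Z i y))).submatrix id Sum.inr)ᵀ *
      (cay (fromBlocks 0 (U i y) (-(U i y)ᵀ) (-Z i y))).submatrix id Sum.inr = 1) ∧
    TV d b x r (fun i y => (cay (fromBlocks 0 (U i y) (-(U i y)ᵀ) (-Z i y))).submatrix id Sum.inr *ᵥ
      a i y - Sum.elim (a' i y) 0) w := by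
  have sk : ∀ i y, (fromBlocks 0 (U i y) (-(U i y)ᵀ) (-Z i y))ᵀ =
      -fromBlocks (0 : Matrix B B ℝ) (U i y) (-(U i y)ᵀ) (-Z i y) := fun i y => by
    simp [fromBlocks_transpose, fromBlocks_neg, hs]
  have tK := tm_blocks (tm_c hr (0 : Matrix B B ℝ)) hU (tm_neg hU.tr) (tm_neg hZ)
  refine ⟨fun v a => tm_cay hr tK sk v (Sum.inr a), fun i y => ?_, ?_⟩
  · rw [transpose_submatrix, ← submatrix_mul _ _ _ id _ Function.bijective_id, cay_orth (sk i y),
      submatrix_one _ Sum.inr_injective]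
  · refine (tv_cay hr hw tK sk (a := fun i y => Sum.elim 0 (a i y))
      (a' := fun i y => Sum.elim (a' i y) 0) ((h1.elim h2).congr' fun i y => ?_)).congr'
      fun i y => ?_
    · ext (v | v)
      · simp [fromBlocks_mulVec, Function.comp_def]
      · simp only [fromBlocks_mulVec, Function.comp_def, Sum.elim_inr, Sum.elim_inl, Pi.sub_apply,
          Pi.add_apply, Pi.zero_apply, add_zero, zero_add, neg_mulVec, Pi.neg_apply]
        ring
    · congr 1
      ext v
      simp [mulVec, dotProduct]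

/-- the relation from a skew correction -/
theorem RelU.of_skew (hr : ∀ i, 0 ≤ r i) {U : ι → E N → Matrix B A ℝ}
    {Z : ι → E N → Matrix A A ℝ} (hU : TM d x r U) (hZ : TM d x r Z)
    (hs : ∀ i y, (Z i y)ᵀ = -Z i y) {a : ι → A → E N → ℝ} {a' : ι → B → E N → ℝ}
    (h1 : ∀ v, TN d true x r (fun i y => ∑ w, U i y v w * a i w y - a' i v y) fun i => r i ^ s)
    (h2 : ∀ w, TN d true x r (fun i y => a i w y - ∑ v, U i y v w * a' i v y -
      ∑ w', Z i y w w' * a i w' y) fun i => r i ^ s) :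
    RelU d s x r a a' fun i y => (cay (fromBlocks 0 (U i y) (-(U i y)ᵀ) (-Z i y))).toBlocks₁₂ := by
  have hw : ∀ i, 0 ≤ r i ^ s := fun i => Real.rpow_nonneg (hr i) s
  obtain ⟨t1, t2, t3⟩ := cay_blocks (b := true) hr hw hU hZ hs (a := fun i y w => a i w y)
    (a' := fun i y v => a' i v y) h1 h2
  refine ⟨fun v w => t1 (Sum.inl v) w, fun v => t3 (Sum.inl v), fun w =>
    (tv_orth hr hw t1 t2 t3 w).congr' fun i y => ?_⟩
  simp [mulVec, dotProduct, toBlocks₁₂]

end tame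

end Pool.Agent.CA9.UB
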