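import Pool.Agent.Lib.MP_ca9be0_an.UB.G0

/-! Whitney gluing around a field of polynomials, and gluing of the relation. -/

namespace Pool.Agent.CA9.UB

open Finset Matrix Pool.Agent.Lib.MP_ca9be0_an.PyF

variable {N M m d : ℕ} {s : ℝ} {σ : E N → ℝ}

/-- a function with local expressions that are close to a field of polynomials -/
theorem whit (H : Hs d s) (hσ : Lip1 σ) {f : E N → ℝ} {l Q : E N → E N → ℝ}
    (hQ : ∀ x, Q x ∈ Pd N d)
    (h1 : TN d true (fun x => x) σ (fun x y => l x y - Q x y) fun x => σ x ^ s) {C₀ η₀ : ℝ}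
    (hη₀ : 0 < η₀) (hC₀ : 0 ≤ C₀)
    (near : ∀ x y, ‖y - x‖ ≤ η₀ * σ x → |f y - l x y| ≤ C₀ * ‖y - x‖ ^ s)
    (far : ∀ x y, |f y - Q x y| ≤ C₀ * (σ x + ‖y - x‖) ^ s) : ∃ u : CF N d s, u.f = f ∧
      TN d false (fun x => x) σ (fun x y => u.P x y - l x y) (fun x => σ x ^ s) ∧
      TN d true (fun x => x) σ (fun x y => u.P x y - Q x y) fun x => σ x ^ s := by
  obtain ⟨C, η, hC, hη, hη1, h⟩ := h1.out (lt_min one_pos hη₀)
  have hs := H.pos
  have hK := Kg_pos N d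
  obtain ⟨e1, e2⟩ := le_min_iff.1 hη1
  choose q q1 q2 q3 using fun x => (h x).jet (mul_nonneg hη.le (hσ.1 x))
  have t : TN d false (fun x => x) σ (fun x y => Q x y + q x y - l x y) fun x => σ x ^ s :=
    (TN.neg ⟨C, η, hC, hη, fun x => ⟨hσ.1 x, q2 x⟩⟩).congr' fun x y => by ring
  refine ⟨⟨f, fun x y => Q x y + q x y, fun x => Pd_add (hQ x) (q1 x),
    C₀ + C / η ^ (d + 1) + (C₀ + Kg N d * C / η ^ d) * (1 / η + 1) ^ s, by positivity,
    fun x y => ?_⟩, rfl, t, (t.weaken.add h1).congr' fun x y => by ring⟩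
  have e3 : 0 ≤ C₀ * ‖y - x‖ ^ s := by positivity
  have e4 : 0 ≤ C / η ^ (d + 1) * ‖y - x‖ ^ s := by positivity
  have e5 : 0 ≤ (C₀ + Kg N d * C / η ^ d) * (1 / η + 1) ^ s * ‖y - x‖ ^ s := by positivity
  simp only [add_mul _ _ (‖y - x‖ ^ s)]
  rcases le_total ‖y - x‖ (η * σ x) with hy | hy
  · have b1 := J.false_le H hη e1 hC.le (q2 x) hy
    have b2 := near x y (hy.trans (mul_le_mul_of_nonneg_right e2 (hσ.1 x)))
    have b3 := abs_add_le (f y - l x y) (l x y - Q x y - q x y)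
    rw [show f y - l x y + (l x y - Q x y - q x y) = f y - (Q x y + q x y) by ring] at b3
    linarith
  · have b0 : σ x ≤ 1 / η * ‖y - x‖ := by
      rw [one_div, ← div_eq_inv_mul, le_div_iff₀ hη]; linarith
    have hn := norm_nonneg (y - x)
    have b1 : (σ x + ‖y - x‖) ^ s ≤ (1 / η + 1) ^ s * ‖y - x‖ ^ s := by
      rw [← Real.mul_rpow (by positivity) hn]
      exact Real.rpow_le_rpow (add_nonneg (hσ.1 x) hn) (by linarith) hs.le
    have b2 : |q x y| ≤ Kg N d * C / η ^ d * (σ x + ‖y - x‖) ^ s := by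
      refine (q3 x y).trans ?_
      rcases (hσ.1 x).eq_or_lt with h0 | h0
      · simp only [← h0, Real.zero_rpow hs.ne', mul_zero, zero_mul]; positivity
      have h2 : max 1 (‖y - x‖ / (η * σ x)) ≤ (σ x + ‖y - x‖) / σ x / η := by
        rw [div_div, mul_comm (σ x)]
        refine max_le ((one_le_div (by positivity)).2 (by linarith)) (by gcongr; linarith)
      calc _ ≤ Kg N d * (C * σ x ^ s) * ((σ x + ‖y - x‖) / σ x / η) ^ d := by gcongr
        _ = Kg N d * C / η ^ d * (σ x ^ s * ((σ x + ‖y - x‖) / σ x) ^ d) := by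
          rw [div_pow _ η]; ring
        _ ≤ _ := by gcongr; exact pow_ratio_le H h0 (by linarith)
    have b3 := abs_sub (f y - Q x y) (q x y)
    rw [sub_sub] at b3
    have b4 := mul_le_mul_of_nonneg_left b1 (show 0 ≤ C₀ + Kg N d * C / η ^ d by positivity)
    have b5 := far x y
    nlinarith

/-- jets at nearby centres differ by a tame error -/
lemma tn_jets (H : Hs d s) (u : CF N d s) {ι : Type} {x z z' : ι → E N} {r : ι → ℝ}
    (hr : ∀ i, 0 ≤ r i) {L : ℝ} (hz : ∀ i, ‖z i - x i‖ ≤ L * r i)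
    (hz' : ∀ i, ‖z' i - x i‖ ≤ L * r i) :
    TN d true x r (fun i y => u.P (z i) y - u.P (z' i) y) fun i => r i ^ s := by
  obtain ⟨C, hC, h⟩ := CF.whitney fun _ : Unit => u
  have b : ∀ i y (z : E N), ‖y - x i‖ ≤ 1 * r i → ‖z - x i‖ ≤ L * r i →
      ‖y - z‖ ^ s ≤ (1 + |L|) ^ s * r i ^ s := fun i y z hy hz => by
    rw [← Real.mul_rpow (by positivity) (hr i)]
    refine Real.rpow_le_rpow (norm_nonneg _) ?_ H.pos.le
    have := norm_sub_le_norm_sub_add_norm_sub y (x i) z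
    rw [norm_sub_rev (x i)] at this
    nlinarith [mul_le_mul_of_nonneg_right (le_abs_self L) (hr i)]
  refine TN.poly (fun i => Pd_sub (u.mem _) (u.mem _)) hr (fun i => Real.rpow_nonneg (hr i) s)
    one_pos (C := 2 * C * (1 + |L|) ^ s) fun i y hy => (h () _ _ y).trans ?_
  nlinarith [mul_le_mul_of_nonneg_left (add_le_add (b i y _ hy (hz i)) (b i y _ hy (hz' i))) hC]

/-- the relation is stable under tame changes of both sides -/
lemma RelU.change {ι A B : Type} [Fintype A] [Fintype B] {x : ι → E N} {r : ι → ℝ}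
    {a a' : ι → A → E N → ℝ} {b b' : ι → B → E N → ℝ} {U : ι → E N → Matrix B A ℝ}
    (h : RelU d s x r a b U) (hr : ∀ i, 0 ≤ r i)
    (ha : ∀ w, TN d true x r (fun i y => a' i w y - a i w y) fun i => r i ^ s)
    (hb : ∀ v, TN d true x r (fun i y => b' i v y - b i v y) fun i => r i ^ s) :
    RelU d s x r a' b' U := by
  have hw : ∀ i, 0 ≤ r i ^ s := fun i => Real.rpow_nonneg (hr i) s
  refine ⟨h.tU, fun v => (((h.l v).add (TN.sum univ hr hw fun w _ => (h.tU v w).mul1 (ha w))).sub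
    (hb v)).congr' fun i y => ?_, fun w => (((h.r w).add (TN.sum univ hr hw fun v _ =>
      (h.tU v w).mul1 (hb v))).sub (ha w)).congr' fun i y => ?_⟩ <;>
  · simp only [mul_sub, sum_sub_distrib]
    ring

/-- reindexing, with comparable radii -/
lemma RelU.comp {ι κ A B : Type} [Fintype A] [Fintype B] {x : ι → E N} {r : ι → ℝ}
    {a : ι → A → E N → ℝ} {b : ι → B → E N → ℝ} {U : ι → E N → Matrix B A ℝ} (hs : 0 ≤ s)
    (h : RelU d s x r a b U) (f : κ → ι) {r' : κ → ℝ} {L : ℝ} (hL : 0 < L) (h0 : ∀ k, 0 ≤ r' k)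
    (h0' : ∀ k, 0 ≤ r (f k)) (h1 : ∀ k, r' k ≤ L * r (f k)) (h2 : ∀ k, r (f k) ≤ L * r' k) :
    RelU d s (fun k => x (f k)) r' (fun k => a (f k)) (fun k => b (f k)) fun k => U (f k) := by
  have hw : ∀ k, r (f k) ^ s ≤ L ^ s * r' k ^ s := fun k => by
    rw [← Real.mul_rpow hL.le (h0 k)]
    exact Real.rpow_le_rpow (h0' k) (h2 k) hs
  have hw' : ∀ k, 0 ≤ r' k ^ s := fun k => Real.rpow_nonneg (h0 k) s
  exact ⟨fun v w => ((h.tU v w).comp f).mono_r L h0 h1,
    fun v => (((h.l v).comp f).mono_r L h0 h1).mono_w _ hw hw',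
    fun w => (((h.r w).comp f).mono_r L h0 h1).mono_w _ hw hw'⟩

/-- a local relation at every point gives a global tame matrix field -/
theorem glueU (H : Hs d s) {g : Fin M → CF N d s} (hσ : Lip1 σ)
    (Q : E N → Fin m → E N → ℝ) (U : Pos σ → E N → Matrix (Fin m) (Fin M) ℝ)
    (hQ : ∀ x, PV d (Q x)) {C : ℝ}
    (hW : ∀ x x' y i, |Q x i y - Q x' i y| ≤ C * (σ x + σ x' + ‖x - x'‖ + ‖y - x‖) ^ s)
    (hU : RelB d s (fun x : Pos σ => x.1) (fun x => σ x.1) (fun x w => (g w).P x.1)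
      (fun x => Q x.1) U) : ∃ U' : E N → Matrix (Fin m) (Fin M) ℝ,
      RelU d s (fun x : Pos σ => x.1) (fun x => σ x.1) (fun x w => (g w).P x.1)
        (fun x => Q x.1) fun _ => U' := by
  classical
  obtain ⟨η, hη, hU⟩ := hU
  have hs := H.pos
  obtain ⟨γ, g0, g1, g2⟩ : ∃ γ : ℝ, 0 < γ ∧ γ ≤ 1 / 100 ∧ γ ≤ η / 10 :=
    ⟨min (1 / 100) (η / 10), by positivity, min_le_left _ _, min_le_right _ _⟩
  have ad := hσ.adm g0 g1
  have hr : ∀ x : Pos σ, 0 ≤ σ x.1 := fun x => x.2.le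
  have hw : ∀ x : Pos σ, 0 ≤ σ x.1 ^ s := fun x => Real.rpow_nonneg x.2.le s
  let ζ := zeta fun y => γ * σ y
  have z1 : ∀ c x, ‖ζ c x - x‖ ≤ 5 * (γ * σ x) := zeta_near ad
  have z2 : ∀ c x, ‖ζ c x - x‖ ≤ 1 / 20 * σ x := fun c x =>
    (z1 c x).trans (by nlinarith [hσ.1 x])
  have z3 : ∀ c x, σ x ≤ 2 * σ (ζ c x) := fun c x => by
    linarith [hσ.le' x (ζ c x), z2 c x, hσ.1 (ζ c x)]
  have z4 : ∀ c x, σ (ζ c x) ≤ 2 * σ x := fun c x => by
    linarith [hσ.2 (ζ c x) x, z2 c x, hσ.1 x]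
  have z5 : ∀ c (x : Pos σ), 0 < σ (ζ c x.1) := fun c x => by linarith [z3 c x.1, x.2]
  let U₁ : E N → E N → Matrix (Fin m) (Fin M) ℝ := fun z => if h : 0 < σ z then U ⟨z, h⟩ else 0
  have loc : ∀ c, RelU d s (fun x : Pos σ => x.1) (fun x => σ x.1) (fun x w => (g w).P x.1)
      (fun x => Q x.1) fun x => U₁ (ζ c x.1) := fun c => by
    have z6 : ∀ x : Pos σ, ‖x.1 - ζ c x.1‖ ≤ η * σ (ζ c x.1) := fun x => by
      rw [norm_sub_rev]
      nlinarith [z1 c x.1, z3 c x.1, hr x, mul_le_mul_of_nonneg_right g2 (hr x)]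
    have h := hU.comp hs.le (fun x : Pos σ => ⟨(⟨ζ c x.1, z5 c x⟩, x.1), z6 x⟩) two_pos hr
      (fun x => (z5 c x).le) (fun x => z3 c x.1) fun x => z4 c x.1
    simp only [U₁, z5, dif_pos]
    refine h.change hr (fun w => tn_jets H (g w) hr (L := 1 / 20) (fun x => by
      simpa using hr x) fun x => z2 c x.1) fun v => TN.poly (fun x => Pd_sub (hQ _ v) (hQ _ v)) hr hw
      one_pos (C := |C| * 5 ^ s) fun x y hy => (hW x.1 (ζ c x.1) y v).trans ?_
    rw [mul_assoc, ← Real.mul_rpow (by norm_num) (hr x)]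
    refine mul_le_mul (le_abs_self C) (Real.rpow_le_rpow (by positivity [hr x, (z5 c x).le]) ?_ hs.le)
      (Real.rpow_nonneg (by positivity [hr x, (z5 c x).le]) s) (abs_nonneg C)
    rw [norm_sub_rev x.1]
    linarith [z2 c x.1, z4 c x.1, hr x]
  have tφ : ∀ c, T1 d (fun x : Pos σ => x.1) (fun x => σ x.1)
      fun _ y => phi d (fun y => γ * σ y) c y ^ 2 := fun c =>
    ((phi_TN (fun _ : Pos σ => ad) (fun x => x.1) c).mono_r γ⁻¹ hr fun x => by
      rw [inv_mul_cancel_left₀ g0.ne']).pow 2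
  have lc : ∀ (x : Pos σ) y, ‖y - x.1‖ ≤ γ / 10 * σ x.1 → ∀ v w,
      (∑ c, phi d (fun y => γ * σ y) c y ^ 2 • U₁ (ζ c y) y) v w =
      ∑ c, phi d (fun y => γ * σ y) c y ^ 2 * U₁ (ζ c x.1) y v w := fun x y hy v w => by
    rw [Matrix.sum_apply]
    exact sum_congr rfl fun c _ => phi_sq_loc ad (by linarith) fun z => U₁ z y v w
  have γ0 : 0 < γ / 10 := by positivity
  refine ⟨fun y => ∑ c, phi d (fun y => γ * σ y) c y ^ 2 • U₁ (ζ c y) y, fun v w =>
    (TN.sum univ hr (fun _ => zero_le_one) fun c _ => (tφ c).mul1 ((loc c).tU v w)).congr γ0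
      fun x y hy => (lc x y hy v w).symm,
    fun v => (TN.sum univ hr hw fun c _ => (tφ c).mul1 ((loc c).l v)).congr γ0 fun x y hy => ?_,
    fun w => (TN.sum univ hr hw fun c _ => (tφ c).mul1 ((loc c).r w)).congr γ0
      fun x y hy => ?_⟩ <;>
  · simp only [lc x y hy, mul_sub, sum_sub_distrib, ← sum_mul, phi_sq ad, one_mul]
    simp only [mul_sum, sum_mul, mul_assoc]
    rw [sum_comm]

end Pool.Agent.CA9.UB
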