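import Pool.Agent.Lib.MP_ca9be0_an.UB.Defs

/-! Determinants of Gram matrices, composition of polynomials, restriction to frames. -/

namespace Pool.Agent.CA9.UB

open Finset Matrix Pool.Agent.Lib.MP_ca9be0_an.PyF

section gram
variable {A B B' : Type} [Fintype A] [DecidableEq A] [Fintype B] [Fintype B']

theorem abs_mul_le {ι κ ν : Type} [Fintype κ] {P : Matrix ι κ ℝ} {Q : Matrix κ ν ℝ} {a b : ℝ}
    (hP : ∀ i j, |P i j| ≤ a) (hQ : ∀ i j, |Q i j| ≤ b) (i : ι) (j : ν) :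
    |(P * Q) i j| ≤ Fintype.card κ * (a * b) := by
  rw [mul_apply]
  refine (abs_sum_le_sum_abs _ _).trans ((sum_le_card_nsmul _ _ (a * b) fun l _ => ?_).trans ?_)
  · rw [abs_mul]
    exact mul_le_mul (hP _ _) (hQ _ _) (abs_nonneg _) ((abs_nonneg _).trans (hP i l))
  · rw [nsmul_eq_mul, card_univ]

open scoped MatrixOrder in
theorem gram_sq (Y : Matrix B A ℝ) : ∃ Q : Matrix A A ℝ, Yᵀ * Y = Qᵀ * Q := by
  obtain ⟨Q, h⟩ := CStarAlgebra.nonneg_iff_eq_star_mul_self.mp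
    (posSemidef_conjTranspose_mul_self Y).nonneg
  exact ⟨Q, h⟩

theorem gram_det_nonneg (Y : Matrix B A ℝ) : 0 ≤ (Yᵀ * Y).det := by
  obtain ⟨Q, h⟩ := gram_sq Y
  rw [h, det_mul, det_transpose]
  exact mul_self_nonneg _

/-- a bounded matrix on the left changes the Gram determinant by a bounded factor -/
theorem gram_mul_le (A B B' : Type) [Fintype A] [DecidableEq A] [Fintype B] [Fintype B'] (R : ℝ) :
    ∃ C : ℝ, 0 < C ∧ ∀ (K : Matrix B' B ℝ) (Y : Matrix B A ℝ), (∀ i j, |K i j| ≤ R) →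
      ((K * Y)ᵀ * (K * Y)).det ≤ C * (Yᵀ * Y).det := by
  let c : ℝ := Fintype.card B * (R * 1)
  let C : ℝ := (Fintype.card A).factorial • (Fintype.card B' * (c * c)) ^ Fintype.card A
  refine ⟨|C| + 1, by positivity, fun K Y hK => ?_⟩
  obtain ⟨Q, h⟩ := gram_sq Y
  by_cases h0 : Q.det = 0
  · obtain ⟨w, h1, h2⟩ := exists_mulVec_eq_zero_iff.2 h0
    have h3 : Y *ᵥ w = 0 := by
      have := conjTranspose_mul_self_mulVec_eq_zero Y w
      rw [conjTranspose_eq_transpose_of_trivial, h, ← mulVec_mulVec, h2, mulVec_zero] at this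
      exact this.1 rfl
    rw [exists_mulVec_eq_zero_iff.1 ⟨w, h1, by
      rw [← mulVec_mulVec, ← mulVec_mulVec, h3, mulVec_zero, mulVec_zero]⟩]
    exact mul_nonneg (by positivity) (gram_det_nonneg Y)
  have hu : IsUnit Q.det := isUnit_iff_ne_zero.2 h0
  have h1 : (Y * Q⁻¹)ᵀ * (Y * Q⁻¹) = 1 := by
    rw [transpose_mul, Matrix.mul_assoc, ← Matrix.mul_assoc Yᵀ, h, Matrix.mul_assoc,
      mul_nonsing_inv _ hu, Matrix.mul_one, ← transpose_mul, mul_nonsing_inv _ hu, transpose_one]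
  have h2 : ∀ i j, |(Y * Q⁻¹) i j| ≤ 1 := fun i j => by
    have e := congrFun (congrFun h1 j) j
    rw [mul_apply, one_apply_eq] at e
    have := single_le_sum (f := fun l => (Y * Q⁻¹)ᵀ j l * (Y * Q⁻¹) l j)
      (fun l _ => mul_self_nonneg _) (mem_univ i)
    exact abs_le_one_iff_mul_self_le_one.2 (e ▸ this)
  have h3 := abs_mul_le hK h2
  have h4 : |((K * (Y * Q⁻¹))ᵀ * (K * (Y * Q⁻¹))).det| ≤ C :=
    det_le (abv := AbsoluteValue.abs) (abs_mul_le (fun i j => h3 j i) h3)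
  have h5 : (K * Y)ᵀ * (K * Y) = Qᵀ * ((K * (Y * Q⁻¹))ᵀ * (K * (Y * Q⁻¹))) * Q := by
    have : K * Y = K * (Y * Q⁻¹) * Q := by
      rw [Matrix.mul_assoc, Matrix.mul_assoc, nonsing_inv_mul _ hu, Matrix.mul_one]
    conv_lhs => rw [this]
    simp only [transpose_mul, Matrix.mul_assoc]
  rw [h5, h, det_mul, det_mul, det_mul, det_transpose, mul_right_comm, mul_comm]
  exact mul_le_mul_of_nonneg_right ((le_abs_self _).trans (h4.trans (by linarith [le_abs_self C])))
    (mul_self_nonneg _)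

/-- comparison of `det (1 + Xᵀ X)` under bounded changes -/
theorem gram_cmp (W A A' : Type) [Fintype W] [DecidableEq W] [Fintype A] [DecidableEq A]
    [Fintype A'] [DecidableEq A'] (R : ℝ) : ∃ C : ℝ, 0 < C ∧
      ∀ (X : Matrix W A ℝ) (S : Matrix A A' ℝ) (Z : Matrix W A' ℝ), (∀ i j, |S i j| ≤ R) →
        (∀ i j, |Z i j| ≤ R) →
        (1 + (X * S + Z)ᵀ * (X * S + Z)).det ≤ C * (1 + Xᵀ * X).det := by
  obtain ⟨C, h0, hC⟩ := gram_mul_le W (A ⊕ W) (A' ⊕ W) (max R 1)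
  refine ⟨C, h0, fun X S Z hS hZ => ?_⟩
  have := hC (fromBlocks Sᵀ Zᵀ 0 1) (fromRows Xᵀ 1) (by
    rintro (i | i) (j | j)
    · exact (hS j i).trans (le_max_left _ _)
    · exact (hZ j i).trans (le_max_left _ _)
    · simp
    · refine le_trans ?_ (le_max_right _ _)
      rw [fromBlocks_apply₂₂, one_apply]
      split_ifs <;> simp)
  rw [fromBlocks_mul_fromRows, Matrix.zero_mul, zero_add, Matrix.mul_one, Matrix.mul_one,
    ← transpose_mul, ← transpose_add, transpose_fromRows, transpose_fromRows, fromCols_mul_fromRows,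
    fromCols_mul_fromRows, transpose_transpose, transpose_transpose, transpose_one,
    Matrix.mul_one, add_comm _ (1 : Matrix W W ℝ), add_comm _ (1 : Matrix W W ℝ)] at this
  rwa [det_one_add_mul_comm, det_one_add_mul_comm Xᵀ]

end gram

variable {N k k' D : ℕ}

theorem Pd_comp {p : E N → ℝ} {a : ℕ} {φ : E k → E N} (hp : p ∈ Pd N D)
    (hφ : ∀ i, (fun z => φ z i) ∈ Pd k a) : (fun z => p (φ z)) ∈ Pd k (D * a) := by
  refine Pd_ind (C := fun e p => (fun z => p (φ z)) ∈ Pd k (e * a)) (fun e c => const_mem _ c)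
    (fun e p q hp hq => Pd_add hp hq)
    (fun e c p hp => Pd_mono (Nat.mul_le_mul_right a e.le_succ) (Pd_smul c hp))
    (fun e c i p hp => ?_) hp
  rw [add_mul, one_mul, add_comm]
  exact Pd_mul (Pd_smul c (hφ i)) hp

theorem Pd_prod {ι : Type} (t : Finset ι) {p : ι → E N → ℝ} {a : ℕ} (hp : ∀ i ∈ t, p i ∈ Pd N a) :
    (fun y => ∏ i ∈ t, p i y) ∈ Pd N (t.card * a) := by
  classical
  induction t using Finset.induction_on with
  | empty => simpa using const_mem 0 1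
  | insert i t hi ih =>
    simp only [prod_insert hi, card_insert_of_notMem hi]
    rw [add_mul, one_mul, add_comm]
    exact Pd_mul (hp i (mem_insert_self _ _)) (ih fun l hl => hp l (mem_insert_of_mem hl))

theorem Pd_det {A : Type} [Fintype A] [DecidableEq A] {X : E N → Matrix A A ℝ} {a : ℕ}
    (h : ∀ i j, (fun y => X y i j) ∈ Pd N a) :
    (fun y => (X y).det) ∈ Pd N (Fintype.card A * a) := by
  simp only [det_apply']
  exact Pd_sum _ fun σ _ => Pd_smul _ (Pd_prod univ fun i _ => h (σ i) i)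

theorem Pd_co {γ : E k →₀ ℝ} {F : E N → E k → ℝ} {a : ℕ} (h : ∀ z, (fun θ => F θ z) ∈ Pd N a) :
    (fun θ => co γ (F θ)) ∈ Pd N a := Pd_sum _ fun z _ => Pd_smul _ (h z)

theorem fr_apply (ξ : E N) (v : Fin k → E N) (z : E k) (i : Fin N) :
    fr ξ v z i = ξ i + ∑ l, z l * v l i := by
  simp [fr]

theorem fr_coord (ξ : E N) (v : Fin k → E N) (i : Fin N) : (fun z => fr ξ v z i) ∈ Pd k 1 := by
  simp only [fr_apply, mul_comm _ (v _ i)]
  exact Pd_add (const_mem _ _) (Pd_sum _ fun l _ => Pd_smul _ (gen_mem (some l)))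

theorem fr_memP {F : E N → ℝ} (hF : F ∈ Pd N D) (ξ : E N) (v : Fin k → E N) :
    (fun z => F (fr ξ v z)) ∈ Pd k D := by
  simpa using Pd_comp hF (fr_coord ξ v)

theorem norm_fr (ξ : E N) (v : Fin k → E N) (z : E k) : ‖fr ξ v z‖ ≤ ‖ξ‖ + k * (‖z‖ * ‖v‖) := by
  refine (norm_add_le _ _).trans (add_le_add le_rfl ((norm_sum_le _ _).trans
    ((sum_le_card_nsmul _ _ (‖z‖ * ‖v‖) fun i _ => ?_).trans (by simp))))
  rw [norm_smul]
  exact mul_le_mul (PiLp.norm_apply_le z i) (norm_le_pi_norm v i) (norm_nonneg _) (norm_nonneg _)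

theorem fr_fr (ξ : E N) (v : Fin k → E N) (c z : E k) : fr (fr ξ v c) v z = fr ξ v (c + z) := by
  simp only [fr, PiLp.add_apply, add_smul, sum_add_distrib, add_assoc]

theorem fr_smul (c ξ : E N) (t : ℝ) (v : Fin k → E N) (z : E k) :
    c + t • fr ξ v z = fr (c + t • ξ) v (t • z) := by
  simp only [fr, smul_add, smul_sum, PiLp.smul_apply, smul_eq_mul, mul_smul, add_assoc]

theorem res_exp {F : E N → ℝ} (hF : F ∈ Pd N D) (ξ : E N) (v : Fin k → E N) (z : E k) :
    F (fr ξ v z) = ∑ a, res D ξ v F a * (bs k D).m a z := (bs k D).exp _ (fr_memP hF ξ v) z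

theorem co_add (γ : E k →₀ ℝ) (p q : E k → ℝ) : co γ (fun z => p z + q z) = co γ p + co γ q := by
  simp only [co, mul_add, sum_add_distrib]

theorem co_sub (γ : E k →₀ ℝ) (p q : E k → ℝ) : co γ (fun z => p z - q z) = co γ p - co γ q := by
  simp only [co, mul_sub, sum_sub_distrib]

theorem co_smul (γ : E k →₀ ℝ) (c : ℝ) (p : E k → ℝ) : co γ (fun z => c * p z) = c * co γ p := by
  simp only [co, mul_sum, mul_left_comm]

theorem res_add (ξ : E N) (v : Fin k → E N) (F G : E N → ℝ) (a : BA k D) :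
    res D ξ v (fun y => F y + G y) a = res D ξ v F a + res D ξ v G a := co_add _ _ _

theorem res_sub (ξ : E N) (v : Fin k → E N) (F G : E N → ℝ) (a : BA k D) :
    res D ξ v (fun y => F y - G y) a = res D ξ v F a - res D ξ v G a := co_sub _ _ _

theorem res_smul (ξ : E N) (v : Fin k → E N) (c : ℝ) (F : E N → ℝ) (a : BA k D) :
    res D ξ v (fun y => c * F y) a = c * res D ξ v F a := co_smul _ _ _

theorem res_sum {α : Type} (t : Finset α) (ξ : E N) (v : Fin k → E N) (c : α → ℝ)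
    (F : α → E N → ℝ) (a : BA k D) :
    res D ξ v (fun y => ∑ i ∈ t, c i * F i y) a = ∑ i ∈ t, c i * res D ξ v (F i) a :=
  co_sum _ _ _ _

/-- the coefficients are determined by an expansion -/
theorem res_of_exp {F : E N → ℝ} {ξ : E N} {v : Fin k → E N} {c : BA k D → ℝ}
    (h : ∀ z, F (fr ξ v z) = ∑ a, c a * (bs k D).m a z) (a : BA k D) : res D ξ v F a = c a := by
  rw [res, funext h, co_sum]
  simp [(bs k D).dl]

/-- change of frame -/
theorem res_comp {F : E N → ℝ} (hF : F ∈ Pd N D) {ξ ξ' : E N} {v : Fin k → E N}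
    {v' : Fin k' → E N} {φ : E k' → E k} (h : ∀ z, fr ξ' v' z = fr ξ v (φ z)) (b : BA k' D) :
    res D ξ' v' F b = ∑ a, res D ξ v F a * co ((bs k' D).γ b) fun z => (bs k D).m a (φ z) := by
  rw [← co_sum, res]
  simp only [h, res_exp hF]

/-- dilation -/
theorem res_dil {F : E N → ℝ} (hF : F ∈ Pd N D) (c u : E N) (t : ℝ) (v : Fin k → E N)
    (a : BA k D) :
    res D u v (fun y => F (c + t • y)) a = res D (c + t • u) v F a * t ^ (bs k D).deg a := by
  refine res_of_exp (c := fun a => res D (c + t • u) v F a * t ^ (bs k D).deg a) (fun z => ?_) a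
  simp only [fr_smul, res_exp hF, (bs k D).hom, mul_assoc]

theorem co_le (k D : ℕ) : ∃ K ρ : ℝ, 0 < K ∧ 0 < ρ ∧ ∀ (a : BA k D) (f : E k → ℝ) (m : ℝ), 0 ≤ m →
    (∀ z, ‖z‖ ≤ ρ → |f z| ≤ m) → |co ((bs k D).γ a) f| ≤ K * m := by
  refine ⟨1 + ∑ a, ∑ z ∈ ((bs k D).γ a).support, |(bs k D).γ a z|,
    1 + ∑ a, ∑ z ∈ ((bs k D).γ a).support, ‖z‖, by positivity, by positivity,
    fun a f m hm h => ?_⟩
  have h1 := single_le_sum (f := fun a => ∑ z ∈ ((bs k D).γ a).support, |(bs k D).γ a z|)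
    (fun _ _ => by positivity) (mem_univ a)
  have h2 := single_le_sum (f := fun a => ∑ z ∈ ((bs k D).γ a).support, ‖z‖)
    (fun _ _ => by positivity) (mem_univ a)
  refine (abs_sum_le_sum_abs _ _).trans ((sum_le_sum fun z hz => ?_).trans
    ((sum_mul _ (fun z => |(bs k D).γ a z|) m).ge.trans
      (mul_le_mul_of_nonneg_right (by linarith) hm)))
  rw [abs_mul]
  have h3 := single_le_sum (f := fun z : E k => ‖z‖) (fun _ _ => norm_nonneg _) hz
  exact mul_le_mul_of_nonneg_left (h z (by linarith)) (abs_nonneg _)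

/-- polynomials bounded on the unit ball are bounded on bounded sets -/
theorem PB.ball {F : E N → ℝ} {m R : ℝ} (h : PB F 0 1 m) (hF : F ∈ Pd N D) {y : E N}
    (hy : ‖y‖ ≤ R) : |F y| ≤ Kg N D * max 1 R ^ D * m := by
  refine (h.grow hF one_pos y).trans ?_
  rw [sub_zero, div_one, mul_right_comm]
  have := h.nonneg zero_le_one
  have := Kg_pos N D
  gcongr

theorem res_le (N k D : ℕ) (R : ℝ) : ∃ K : ℝ, 0 < K ∧ ∀ (F : E N → ℝ) (m : ℝ) (ξ : E N)
    (v : Fin k → E N) (a : BA k D), F ∈ Pd N D → PB F 0 1 m → ‖ξ‖ ≤ R → ‖v‖ ≤ R →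
    |res D ξ v F a| ≤ K * m := by
  obtain ⟨K, ρ, h1, h2, h⟩ := co_le k D
  have := Kg_pos N D
  refine ⟨K * (Kg N D * max 1 (R + k * (ρ * R)) ^ D), by positivity,
    fun F m ξ v a hF hm hξ hv => ?_⟩
  have h0 := hm.nonneg zero_le_one
  rw [mul_assoc]
  refine h a _ _ (by positivity) fun z hz => PB.ball hm hF ((norm_fr ξ v z).trans ?_)
  gcongr

theorem exists_PB {F : E N → ℝ} (hF : F ∈ Pd N D) : ∃ m, PB F 0 1 m := by
  obtain ⟨m, h⟩ := (isCompact_closedBall (0 : E N) 1).exists_bound_of_continuousOn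
    (Pd_diff hF).continuous.continuousOn
  exact ⟨m, fun y hy => h y (by simpa using hy)⟩

theorem res_poly {p a : ℕ} {F : E p → E N → ℝ} {u : E p → E N} {v : E p → Fin k → E N}
    (hF : ∀ θ, F θ ∈ Pd N D) (h1 : ∀ y, (fun θ => F θ y) ∈ Pd p a)
    (hu : ∀ i, (fun θ => u θ i) ∈ Pd p a) (hv : ∀ l i, (fun θ => v θ l i) ∈ Pd p a) (D' : ℕ)
    (b : BA k D') : (fun θ => res D' (u θ) (v θ) (F θ) b) ∈ Pd p ((D + 1) * a) := by
  refine Pd_co fun z => ?_
  simp only [fun θ => (bs N D).exp _ (hF θ) (fr (u θ) (v θ) z)]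
  rw [add_mul, one_mul, add_comm]
  refine Pd_sum _ fun c _ => Pd_mul (Pd_co h1) (Pd_comp ((bs N D).mem c) fun i => ?_)
  simp only [fr_apply]
  exact Pd_add (hu i) (Pd_sum _ fun l _ => Pd_smul _ (hv l i))

end Pool.Agent.CA9.UB
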