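import Mathlib

/-! Functions that are polynomial of bounded degree on every line. -/

namespace Pool.Agent.CA9.UB

open Finset Filter Topology Polynomial

/-- `f` is a polynomial of degree at most `e` on every line -/
def LP {X : Type} [AddCommGroup X] [Module ℝ X] (e : ℕ) (f : X → ℝ) : Prop :=
  ∀ x y : X, ∃ q : Polynomial ℝ, q.natDegree ≤ e ∧ ∀ t : ℝ, f (x + t • y) = q.eval t

section alg

variable {X : Type} [AddCommGroup X] [Module ℝ X] {e e' : ℕ} {f g : X → ℝ}

lemma LP.mono (h : LP e f) (he : e ≤ e') : LP e' f := fun x y => by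
  obtain ⟨q, h1, h2⟩ := h x y
  exact ⟨q, h1.trans he, h2⟩

lemma LP.const (e : ℕ) (c : ℝ) : LP e fun _ : X => c := fun _ _ =>
  ⟨C c, by simp, fun t => by simp⟩

lemma LP.add (h : LP e f) (h' : LP e g) : LP e fun x => f x + g x := fun x y => by
  obtain ⟨q, h1, h2⟩ := h x y
  obtain ⟨q', h3, h4⟩ := h' x y
  exact ⟨q + q', (natDegree_add_le _ _).trans (max_le h1 h3), fun t => by simp [h2, h4]⟩

lemma LP.mul (h : LP e f) (h' : LP e' g) : LP (e + e') fun x => f x * g x := fun x y => by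
  obtain ⟨q, h1, h2⟩ := h x y
  obtain ⟨q', h3, h4⟩ := h' x y
  exact ⟨q * q', natDegree_mul_le.trans (add_le_add h1 h3), fun t => by simp [h2, h4]⟩

lemma LP.smul (c : ℝ) (h : LP e f) : LP e fun x => c * f x := by
  simpa using (LP.const 0 c).mul h

lemma LP.neg (h : LP e f) : LP e fun x => -f x := by simpa using h.smul (-1)

lemma LP.sub (h : LP e f) (h' : LP e g) : LP e fun x => f x - g x := by
  simpa [sub_eq_add_neg] using h.add h'.neg

lemma LP.div (h : LP e f) (c : ℝ) : LP e fun x => f x / c := by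
  simpa [div_eq_inv_mul] using h.smul c⁻¹

lemma LP.congr (h : LP e f) (he : ∀ x, f x = g x) : LP e g := (funext he : f = g) ▸ h

lemma LP.sum {α : Type*} (s : Finset α) {F : α → X → ℝ} (h : ∀ a ∈ s, LP e (F a)) :
    LP e fun x => ∑ a ∈ s, F a x := by
  classical
  induction s using Finset.induction_on with
  | empty => simpa using LP.const e 0
  | insert a s ha ih =>
    simp only [sum_insert ha]
    exact (h a (mem_insert_self _ _)).add (ih fun b hb => h b (mem_insert_of_mem hb))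

lemma LP.prod' {α : Type*} (s : Finset α) {F : α → X → ℝ} {k : α → ℕ}
    (h : ∀ a ∈ s, LP (k a) (F a)) : LP (∑ a ∈ s, k a) fun x => ∏ a ∈ s, F a x := by
  classical
  induction s using Finset.induction_on with
  | empty => simpa using LP.const 0 1
  | insert a s ha ih =>
    simp only [sum_insert ha, prod_insert ha]
    exact (h a (mem_insert_self _ _)).mul (ih fun b hb => h b (mem_insert_of_mem hb))

lemma LP.prod {α : Type*} (s : Finset α) {F : α → X → ℝ} (h : ∀ a ∈ s, LP e (F a)) :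
    LP (s.card * e) fun x => ∏ a ∈ s, F a x := by
  simpa using LP.prod' s (k := fun _ => e) h

lemma LP.pow (h : LP e f) (k : ℕ) : LP (k * e) fun x => f x ^ k := by
  simpa using LP.prod (range k) (F := fun _ => f) fun _ _ => h

lemma LP.det {A : Type} [Fintype A] [DecidableEq A] {M : X → Matrix A A ℝ}
    (h : ∀ a b, LP e fun x => M x a b) : LP (Fintype.card A * e) fun x => (M x).det := by
  simp only [Matrix.det_apply']
  exact LP.sum _ fun σ _ => LP.smul _ (LP.prod univ fun a _ => h _ _)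

lemma LP.adjugate {A : Type} [Fintype A] [DecidableEq A] {M : X → Matrix A A ℝ}
    (h : ∀ a b, LP e fun x => M x a b) (a b : A) :
    LP (Fintype.card A * e) fun x => (M x).adjugate a b := by
  simp only [Matrix.adjugate_apply]
  refine LP.det fun c d => ?_
  by_cases hc : c = b
  · simp only [hc, Matrix.updateRow_self]; exact LP.const _ _
  · simp only [Matrix.updateRow_ne hc]; exact h c d

lemma LP.linear (l : X →ₗ[ℝ] ℝ) : LP 1 l := fun x y =>
  ⟨C (l x) + C (l y) * Polynomial.X, by compute_degree, fun t => by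
    rw [map_add, map_smul, eval_add, eval_mul, eval_C, eval_C, eval_X, smul_eq_mul, mul_comm]⟩

/-- substitution of an affine map -/
lemma LP.aff {Z : Type} [AddCommGroup Z] [Module ℝ Z] (h : LP e f) {T : Z → X}
    (hT : ∀ x y : Z, ∃ w : X, ∀ t : ℝ, T (x + t • y) = T x + t • w) : LP e fun z => f (T z) :=
  fun x y => by
    obtain ⟨w, hw⟩ := hT x y
    obtain ⟨q, h1, h2⟩ := h (T x) w
    exact ⟨q, h1, fun t => by simp only [hw, h2]⟩

lemma LP.lin {Z : Type} [AddCommGroup Z] [Module ℝ Z] (h : LP e f) (c : X) (T : Z →ₗ[ℝ] X) :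
    LP e fun z => f (c + T z) :=
  h.aff fun x y => ⟨T y, fun t => by simp [add_assoc]⟩

lemma LP.left {Z : Type} [AddCommGroup Z] [Module ℝ Z] {F : X → Z → ℝ}
    (h : LP e fun z : X × Z => F z.1 z.2) (v : Z) : LP e fun u => F u v :=
  h.aff (T := fun u => (u, v)) fun x y => ⟨(y, 0), fun t => by simp⟩

lemma LP.right {Z : Type} [AddCommGroup Z] [Module ℝ Z] {F : X → Z → ℝ}
    (h : LP e fun z : X × Z => F z.1 z.2) (u : X) : LP e fun v => F u v :=
  h.aff (T := fun v => (u, v)) fun x y => ⟨(0, y), fun t => by simp⟩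

/-- Lagrange basis for the nodes `k / (e + 1)`, `k ≤ e` -/
noncomputable def lg (e k : ℕ) : Polynomial ℝ :=
  Lagrange.basis (range (e + 1)) (fun k : ℕ => (k : ℝ) / (e + 1)) k

lemma node_inj (e : ℕ) : Set.InjOn (fun k : ℕ => (k : ℝ) / (e + 1)) (range (e + 1) : Finset ℕ) :=
  fun a _ b _ h => by
    have h1 : ((e : ℝ) + 1) ≠ 0 := by positivity
    exact_mod_cast (div_left_inj' h1).1 h

lemma lg_deg {e k : ℕ} (hk : k ∈ range (e + 1)) : (lg e k).natDegree ≤ e := by
  rw [lg, Lagrange.natDegree_basis (node_inj e) hk]; simp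

lemma eq_lg {q : Polynomial ℝ} (h : q.natDegree ≤ e) :
    q = ∑ k ∈ range (e + 1), C (q.eval ((k : ℝ) / (e + 1))) * lg e k := by
  have h1 : q.degree < (range (e + 1)).card := by
    rw [card_range]
    exact lt_of_le_of_lt (degree_le_of_natDegree_le h) (by exact_mod_cast Nat.lt_succ_self e)
  have := Lagrange.eq_interpolate (node_inj e) h1
  rwa [Lagrange.interpolate_apply] at this

lemma LP.interp (h : LP e f) (x y : X) (t : ℝ) : f (x + t • y) =
    ∑ k ∈ range (e + 1), f (x + ((k : ℝ) / (e + 1)) • y) * (lg e k).eval t := by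
  obtain ⟨q, h1, h2⟩ := h x y
  simp only [h2]
  conv_lhs => rw [eq_lg h1]
  simp [eval_finsetSum]

lemma LP.of_interp (h : ∀ x y (t : ℝ), f (x + t • y) =
    ∑ k ∈ range (e + 1), f (x + ((k : ℝ) / (e + 1)) • y) * (lg e k).eval t) : LP e f :=
  fun x y => ⟨∑ k ∈ range (e + 1), C (f (x + ((k : ℝ) / (e + 1)) • y)) * lg e k,
    natDegree_sum_le_of_forall_le _ _ fun k hk => (natDegree_C_mul_le _ _).trans (lg_deg hk),
    fun t => by rw [h]; simp [eval_finsetSum]⟩

/-- pointwise limits -/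
lemma LP.lim {κ : Type*} {U : Filter κ} [U.NeBot] {F : κ → X → ℝ} (h : ∀ l, LP e (F l))
    (hg : ∀ x, Tendsto (fun l => F l x) U (𝓝 (g x))) : LP e g :=
  LP.of_interp fun x y t => tendsto_nhds_unique (hg _) <| by
    simp only [fun l => (h l).interp x y t]
    exact tendsto_finsetSum _ fun k _ => (hg _).mul_const _

/-- finitely many functions, none identically zero, have a common point of non vanishing -/
lemma LP.common {α : Type*} (s : Finset α) {F : α → X → ℝ} (h : ∀ a ∈ s, LP e (F a))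
    (h0 : ∀ a ∈ s, ∃ x, F a x ≠ 0) : ∃ x, ∀ a ∈ s, F a x ≠ 0 := by
  classical
  induction s using Finset.induction_on with
  | empty => exact ⟨0, by simp⟩
  | insert a s ha ih =>
    obtain ⟨x, hx⟩ := ih (fun b hb => h b (mem_insert_of_mem hb))
      fun b hb => h0 b (mem_insert_of_mem hb)
    obtain ⟨y, hy⟩ := h0 a (mem_insert_self _ _)
    choose q h1 h2 using fun b : {b // b ∈ insert a s} => h b.1 b.2 x (y - x)
    have h3 : ∀ b, q b ≠ 0 := fun b hb => by
      rcases mem_insert.1 b.2 with h4 | h4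
      · have := h2 b 1
        rw [hb, h4] at this
        exact hy (by simpa using this)
      · have := h2 b 0
        rw [hb] at this
        exact hx _ h4 (by simpa using this)
    obtain ⟨t, ht⟩ : ∃ t, (∏ b, q b).eval t ≠ 0 := by
      by_contra h5
      push Not at h5
      exact prod_ne_zero_iff.2 (fun b _ => h3 b) (Polynomial.funext (by simpa using h5))
    refine ⟨x + t • (y - x), fun b hb => ?_⟩
    rw [h2 ⟨b, hb⟩]
    rw [eval_prod] at ht
    exact prod_ne_zero_iff.1 ht _ (mem_univ _)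

lemma coeff_bd (e : ℕ) : ∃ K : ℝ, 1 ≤ K ∧ ∀ q : Polynomial ℝ, q.natDegree ≤ e → ∀ B : ℝ,
    (∀ t, 0 ≤ t → t ≤ 1 → |q.eval t| ≤ B) → ∑ m ∈ range (e + 1), |q.coeff m| ≤ K * B := by
  refine ⟨1 + ∑ m ∈ range (e + 1), ∑ k ∈ range (e + 1), |(lg e k).coeff m|,
    le_add_of_nonneg_right (by positivity), fun q hq B hB => ?_⟩
  have hB0 : 0 ≤ B := (abs_nonneg _).trans (hB 0 le_rfl zero_le_one)
  rw [add_mul, sum_mul]
  refine le_trans (sum_le_sum fun m _ => ?_) (le_add_of_nonneg_left (by positivity))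
  conv_lhs => rw [eq_lg hq]
  rw [finsetSum_coeff, sum_mul]
  refine (abs_sum_le_sum_abs _ _).trans (sum_le_sum fun k hk => ?_)
  rw [coeff_C_mul, abs_mul, mul_comm]
  refine mul_le_mul_of_nonneg_left (hB _ (by positivity) ?_) (abs_nonneg _)
  rw [div_le_one (by positivity)]
  exact_mod_cast (mem_range.1 hk).le

lemma eval_bd {q : Polynomial ℝ} (hq : q.natDegree ≤ e) {t R : ℝ} (hR : 1 ≤ R) (ht : |t| ≤ R) :
    |q.eval t| ≤ (∑ m ∈ range (e + 1), |q.coeff m|) * R ^ e := by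
  rw [eval_eq_sum_range' (Nat.lt_succ_of_le hq), sum_mul]
  refine (abs_sum_le_sum_abs _ _).trans (sum_le_sum fun m hm => ?_)
  rw [abs_mul, abs_pow]
  refine mul_le_mul_of_nonneg_left ?_ (abs_nonneg _)
  exact (pow_le_pow_left₀ (abs_nonneg _) ht m).trans
    (pow_le_pow_right₀ hR (Nat.lt_succ_iff.1 (mem_range.1 hm)))

lemma eval_sub_bd {q : Polynomial ℝ} (hq : q.natDegree ≤ e) {t R : ℝ} (hR : 1 ≤ R) (ht : |t| ≤ R) :
    |q.eval t - q.eval 0| ≤ (∑ m ∈ range (e + 1), |q.coeff m|) * R ^ e * |t| := by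
  rw [eval_eq_sum_range' (Nat.lt_succ_of_le hq), eval_eq_sum_range' (Nat.lt_succ_of_le hq) 0,
    sum_mul, sum_mul, ← sum_sub_distrib]
  refine (abs_sum_le_sum_abs _ _).trans (sum_le_sum fun m hm => ?_)
  rw [← mul_sub, abs_mul, mul_assoc]
  refine mul_le_mul_of_nonneg_left ?_ (abs_nonneg _)
  rcases m with _ | m
  · simp; positivity
  · rw [zero_pow (Nat.succ_ne_zero m), sub_zero, pow_succ, abs_mul, abs_pow]
    refine mul_le_mul_of_nonneg_right ?_ (abs_nonneg _)
    exact (pow_le_pow_left₀ (abs_nonneg _) ht m).trans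
      (pow_le_pow_right₀ hR (by have := mem_range.1 hm; omega))

end alg

section ana

/-- growth and Lipschitz bounds from the bound on the unit ball -/
lemma exists_KL (e : ℕ) : ∃ K : ℝ, 1 ≤ K ∧ ∀ {X : Type} [NormedAddCommGroup X] [NormedSpace ℝ X]
    {f : X → ℝ}, LP e f → ∀ B : ℝ, (∀ x, ‖x‖ ≤ 1 → |f x| ≤ B) →
      (∀ x, |f x| ≤ K * B * (1 + ‖x‖) ^ e) ∧
      ∀ x y, ‖x‖ ≤ 1 → ‖y‖ ≤ 1 → |f x - f y| ≤ K * B * ‖x - y‖ := by
  obtain ⟨K, hK, h⟩ := coeff_bd e
  refine ⟨K * K * 3 ^ e * 2 ^ e, ?_, fun {X} _ _ {f} hf B hB => ?_⟩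
  · have h1 : (1 : ℝ) ≤ 3 ^ e := one_le_pow₀ (by norm_num)
    have h2 : (1 : ℝ) ≤ 2 ^ e := one_le_pow₀ (by norm_num)
    exact one_le_mul_of_one_le_of_one_le (one_le_mul_of_one_le_of_one_le
      (one_le_mul_of_one_le_of_one_le hK hK) h1) h2
  have hB0 : 0 ≤ B := (abs_nonneg _).trans (hB 0 (by simp))
  have key : ∀ w : X, ∃ z : X, ‖z‖ ≤ 1 ∧ w = ‖w‖ • z := fun w => by
    by_cases hw : w = 0
    · exact ⟨0, by simp, by simp [hw]⟩
    · have := norm_pos_iff.2 hw
      refine ⟨‖w‖⁻¹ • w, ?_, by rw [smul_smul, mul_inv_cancel₀ this.ne', one_smul]⟩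
      rw [norm_smul, norm_inv, norm_norm, inv_mul_cancel₀ this.ne']
  have g1 : ∀ x, |f x| ≤ K * B * (1 + ‖x‖) ^ e := fun x => by
    obtain ⟨z, hz, hx⟩ := key x
    obtain ⟨q, h1, h2⟩ := hf 0 z
    have h3 := h q h1 B fun t t0 t1 => by
      rw [← h2]
      refine hB _ ?_
      rw [zero_add, norm_smul, Real.norm_of_nonneg t0]
      exact mul_le_one₀ t1 (norm_nonneg _) hz
    have h4 : f x = q.eval ‖x‖ := by rw [← h2, zero_add, ← hx]
    rw [h4]
    refine (eval_bd h1 (R := 1 + ‖x‖) (by linarith [norm_nonneg x]) ?_).trans (by gcongr)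
    rw [abs_norm]; linarith
  have h1 : (1 : ℝ) ≤ 3 ^ e := one_le_pow₀ (by norm_num)
  have h2 : (1 : ℝ) ≤ 2 ^ e := one_le_pow₀ (by norm_num)
  have h3 : K ≤ K * K * 3 ^ e * 2 ^ e := by
    have : 1 ≤ K * 3 ^ e * 2 ^ e :=
      one_le_mul_of_one_le_of_one_le (one_le_mul_of_one_le_of_one_le hK h1) h2
    nlinarith
  refine ⟨fun x => (g1 x).trans (by gcongr), fun x y hx hy => ?_⟩
  obtain ⟨z, hz, hw⟩ := key (x - y)
  obtain ⟨q, q1, q2⟩ := hf y z
  have h4 := h q q1 (K * B * 3 ^ e) fun t t0 t1 => by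
    rw [← q2]
    refine (g1 _).trans ?_
    have : ‖y + t • z‖ ≤ 2 := (norm_add_le _ _).trans (by
      rw [norm_smul, Real.norm_of_nonneg t0]
      linarith [mul_le_one₀ t1 (norm_nonneg z) hz])
    gcongr
    linarith
  have h5 : f x = q.eval ‖x - y‖ := by rw [← q2, ← hw]; simp
  have h6 : f y = q.eval 0 := by rw [← q2]; simp
  have h7 : ‖x - y‖ ≤ 2 := (norm_sub_le _ _).trans (by linarith)
  rw [h5, h6]
  refine (eval_sub_bd q1 (R := 2) one_le_two (by rwa [abs_norm])).trans ?_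
  rw [abs_norm]
  calc _ ≤ K * (K * B * 3 ^ e) * 2 ^ e * ‖x - y‖ := by gcongr
    _ = _ := by ring

/-- the constant of the growth and Lipschitz bounds -/
noncomputable def KL (e : ℕ) : ℝ := (exists_KL e).choose

lemma one_le_KL (e : ℕ) : 1 ≤ KL e := (exists_KL e).choose_spec.1

lemma KL_pos (e : ℕ) : 0 < KL e := one_pos.trans_le (one_le_KL e)

variable {X : Type} [NormedAddCommGroup X] [NormedSpace ℝ X] {e : ℕ} {f : X → ℝ} {B : ℝ}

lemma LP.grow (h : LP e f) (hB : ∀ x, ‖x‖ ≤ 1 → |f x| ≤ B) (x : X) :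
    |f x| ≤ KL e * B * (1 + ‖x‖) ^ e := ((exists_KL e).choose_spec.2 h B hB).1 x

lemma LP.lip (h : LP e f) (hB : ∀ x, ‖x‖ ≤ 1 → |f x| ≤ B) {x y : X} (hx : ‖x‖ ≤ 1)
    (hy : ‖y‖ ≤ 1) : |f x - f y| ≤ KL e * B * ‖x - y‖ :=
  ((exists_KL e).choose_spec.2 h B hB).2 x y hx hy

lemma LP.eq_zero (h : LP e f) (h0 : ∀ x, ‖x‖ ≤ 1 → f x = 0) (x : X) : f x = 0 := by
  have := h.grow (B := 0) (fun x hx => by simp [h0 x hx]) x
  simpa using this

lemma LP.contDiff_fin {N : WithTop ℕ∞} (h : LP e f) (k : ℕ) : ∀ (w : Fin k → X) (x : X),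
    ContDiff ℝ N fun c : Fin k → ℝ => f (x + ∑ i, c i • w i) := by
  induction k with
  | zero => intro w x; simpa using contDiff_const
  | succ k ih =>
    intro w x
    have h1 : (fun c : Fin (k + 1) → ℝ => f (x + ∑ i, c i • w i)) = fun c =>
        ∑ m ∈ range (e + 1), f ((x + ((m : ℝ) / (e + 1)) • w 0) + ∑ i : Fin k, c i.succ • w i.succ) *
          (lg e m).eval (c 0) := by
      ext c
      have := h.interp (x + ∑ i : Fin k, c i.succ • w i.succ) (w 0) (c 0)
      rw [Fin.sum_univ_succ, show x + (c 0 • w 0 + ∑ i : Fin k, c i.succ • w i.succ) =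
        x + ∑ i : Fin k, c i.succ • w i.succ + c 0 • w 0 by abel, this]
      refine sum_congr rfl fun m _ => ?_
      rw [add_right_comm]
    rw [h1]
    refine ContDiff.sum fun m _ => ContDiff.mul ?_ ?_
    · exact (ih (fun i => w i.succ) _).comp
        (f := fun (c : Fin (k + 1) → ℝ) (i : Fin k) => c i.succ) (by fun_prop)
    · have := (Polynomial.contDiff_aeval (𝕜 := ℝ) (lg e m) N).comp
        (f := fun c : Fin (k + 1) → ℝ => c 0) (by fun_prop)
      simpa [Function.comp_def] using this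

variable [FiniteDimensional ℝ X]

lemma LP.contDiff {N : WithTop ℕ∞} (h : LP e f) : ContDiff ℝ N f := by
  let b := Module.finBasis ℝ X
  have h1 := (h.contDiff_fin (N := N) _ b 0).comp b.equivFunL.contDiff
  refine (funext fun x => ?_ : _ = f) ▸ h1
  simp [b.sum_repr]

lemma LP.continuous (h : LP e f) : Continuous f := (h.contDiff (N := 0)).continuous

lemma LP.bdd (h : LP e f) : ∃ x, ‖x‖ ≤ 1 ∧ ∀ y, ‖y‖ ≤ 1 → |f y| ≤ |f x| := by
  obtain ⟨x, hx, h1⟩ := (isCompact_closedBall (0 : X) 1).exists_isMaxOn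
    ⟨0, by simp⟩ h.continuous.abs.continuousOn
  exact ⟨x, by simpa using hx, fun y hy => h1 (by simpa using hy)⟩

variable (X) in
/-- a finite net of the unit ball that controls the supremum -/
lemma exists_net (e : ℕ) : ∃ N : Finset X, (∀ z ∈ N, ‖z‖ ≤ 1) ∧ ∀ f : X → ℝ, LP e f →
    ∀ x, ‖x‖ ≤ 1 → ∃ z ∈ N, |f x| ≤ 2 * |f z| := by
  have hK := KL_pos e
  obtain ⟨t, t1, t2, t3⟩ := (isCompact_closedBall (0 : X) 1).finite_cover_balls
    (e := (2 * KL e)⁻¹) (by positivity)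
  refine ⟨t2.toFinset, fun z hz => by simpa using t1 (t2.mem_toFinset.1 hz), fun f hf x hx => ?_⟩
  obtain ⟨y, hy, h1⟩ := hf.bdd
  obtain ⟨z, hz, h2⟩ := Set.mem_iUnion₂.1 (t3 (show y ∈ Metric.closedBall (0 : X) 1 by simpa))
  refine ⟨z, t2.mem_toFinset.2 hz, (h1 x hx).trans ?_⟩
  have h3 := hf.lip h1 hy (show ‖z‖ ≤ 1 by simpa using t1 hz)
  have h4 : ‖y - z‖ ≤ (2 * KL e)⁻¹ := by rw [← dist_eq_norm]; exact (Metric.mem_ball.1 h2).le
  have h5 : KL e * |f y| * ‖y - z‖ ≤ KL e * |f y| * (2 * KL e)⁻¹ := by gcongr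
  have h6 : KL e * |f y| * (2 * KL e)⁻¹ = |f y| / 2 := by field_simp
  have h7 := abs_sub_abs_le_abs_sub (f y) (f z)
  linarith

end ana

end Pool.Agent.CA9.UB
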