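import Pool.Agent.Lib.MP_ca9be0_an.UB.LG1

/-! Hausdorff dimension counts for Lemma G. -/

namespace Pool.Agent.CA9.UB

open Finset Filter Topology Polynomial Module Matrix

section zero

variable {E F : Type} [NormedAddCommGroup E] [NormedSpace ℝ E] [FiniteDimensional ℝ E]
  [NormedAddCommGroup F] [NormedSpace ℝ F]

/-- a subset of the zero set of a smooth map has dimension at most the corank -/
lemma dimH_zero_set {G : E → F} (hG : ContDiff ℝ 1 G) {S : Set E} {r : ℕ}
    (h : ∀ x ∈ S, G x = 0 ∧ finrank ℝ (LinearMap.ker (fderiv ℝ G x : E →ₗ[ℝ] F)) ≤ r) :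
    dimH S ≤ r := by
  have loc : ∀ x ∈ S, ∃ s ∈ 𝓝[S] x, dimH s ≤ r := fun x hx => by
    set G' := fderiv ℝ G x
    set K := LinearMap.ker (G' : E →ₗ[ℝ] F)
    obtain ⟨π, hπ⟩ := LinearMap.exists_leftInverse_of_injective K.subtype K.ker_subtype
    have hk : LinearMap.ker (LinearMap.prod (G' : E →ₗ[ℝ] F) π) = ⊥ := by
      rw [LinearMap.ker_eq_bot']
      intro z hz
      have h1 : z ∈ K := congrArg Prod.fst hz
      have h2 : π z = 0 := congrArg Prod.snd hz
      have h3 : π z = ⟨z, h1⟩ := LinearMap.congr_fun hπ ⟨z, h1⟩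
      rw [h3] at h2
      exact congrArg Subtype.val h2
    obtain ⟨c, hc, ha⟩ := LinearMap.exists_antilipschitzWith _ hk
    have hs : HasStrictFDerivAt G G' x := hG.contDiffAt.hasStrictFDerivAt one_ne_zero
    obtain ⟨s, hs1, hs2⟩ := hs.approximates_deriv_on_nhds (c := (2 * c)⁻¹)
      (Or.inr (by positivity))
    refine ⟨S ∩ s, inter_mem_nhdsWithin _ hs1, ?_⟩
    have hc' : (0 : ℝ) < c := hc
    have h1 : AntilipschitzWith c fun z : (S ∩ s : Set E) => π z.1 :=
      AntilipschitzWith.of_le_mul_dist fun y z => by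
        have h2 := ha.le_mul_dist y.1 z.1
        have h3 := hs2 y.1 y.2.2 z.1 z.2.2
        rw [(h _ y.2.1).1, (h _ z.2.1).1, sub_zero, zero_sub, norm_neg] at h3
        rw [Prod.dist_eq] at h2
        change dist y.1 z.1 ≤ c * max (dist (G' y.1) (G' z.1)) (dist (π y.1) (π z.1)) at h2
        change dist y.1 z.1 ≤ _
        rcases le_total (dist (G' y.1) (G' z.1)) (dist (π y.1) (π z.1)) with h4 | h4
        · rwa [max_eq_right h4] at h2
        · rw [max_eq_left h4, dist_eq_norm (G' _), ← map_sub, dist_eq_norm] at h2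
          have h5 : (c : ℝ) * ‖G' (y.1 - z.1)‖ ≤ c * ((2 * (c : ℝ))⁻¹ * ‖y.1 - z.1‖) :=
            mul_le_mul_of_nonneg_left (by simpa using h3) hc'.le
          have h6 : (c : ℝ) * ((2 * (c : ℝ))⁻¹ * ‖y.1 - z.1‖) = ‖y.1 - z.1‖ / 2 := by field_simp
          have h7 : dist y.1 z.1 ≤ 0 := by rw [dist_eq_norm]; linarith
          exact h7.trans (by positivity)
    have h2 := h1.dimH_preimage_le Set.univ
    rw [Set.preimage_univ, Real.dimH_univ_eq_finrank,
      ← (isometry_subtype_coe (s := S ∩ s)).dimH_image, Subtype.coe_image_univ] at h2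
    exact h2.trans (by exact_mod_cast (h x hx).2)
  choose! s hs1 hs2 using loc
  obtain ⟨t, t1, t2, t3⟩ := TopologicalSpace.countable_cover_nhdsWithin hs1
  refine (dimH_mono t3).trans ?_
  rw [dimH_bUnion t2]
  exact iSup₂_le fun x hx => hs2 x (t1 hx)

end zero

lemma finrank_ker_prod {X E F : Type} [AddCommGroup X] [Module ℝ X] [FiniteDimensional ℝ X]
    [AddCommGroup E] [Module ℝ E] [FiniteDimensional ℝ E] [AddCommGroup F] [Module ℝ F]
    (L : X × E →ₗ[ℝ] F) (U : Submodule ℝ X) (V : Submodule ℝ E)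
    (h1 : ∀ z, L z = 0 → z.1 ∈ U) (h2 : ∀ w, L (0, w) = 0 → w ∈ V) :
    finrank ℝ (LinearMap.ker L) ≤ finrank ℝ U + finrank ℝ V := by
  let φ := (LinearMap.fst ℝ X E).comp (LinearMap.ker L).subtype
  rw [← φ.finrank_range_add_finrank_ker]
  refine add_le_add (Submodule.finrank_mono ?_) ?_
  · rintro _ ⟨z, rfl⟩
    exact h1 z.1 z.2
  · have h3 : ∀ z : LinearMap.ker φ, z.1.1 = (0, z.1.1.2) := fun z => Prod.ext z.2 rfl
    let ψ := LinearMap.codRestrict V (((LinearMap.snd ℝ X E).comp (LinearMap.ker L).subtype).comp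
      (LinearMap.ker φ).subtype) fun z => h2 _ (by
        have := z.1.2
        rw [h3 z] at this
        exact this)
    refine LinearMap.finrank_le_finrank_of_injective (f := ψ) fun y z hyz => ?_
    refine Subtype.ext (Subtype.ext ?_)
    rw [h3 y, h3 z]
    exact Prod.ext rfl (congrArg Subtype.val hyz)

lemma finrank_ker_trace {W : Type} [Fintype W] [DecidableEq W] {A : Matrix W W ℝ} {p : ℝ} {k : ℕ}
    (hp : p ≠ 0) (h : A * A = p • A) (ht : A.trace = ((Fintype.card W : ℝ) - k) * p) :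
    finrank ℝ (LinearMap.ker (Matrix.toLin' A)) ≤ k := by
  have h1 : IsIdempotentElem (Matrix.toLin' (p⁻¹ • A)) := by
    change Matrix.toLin' (p⁻¹ • A) ∘ₗ Matrix.toLin' (p⁻¹ • A) = _
    rw [← Matrix.toLin'_mul, Matrix.smul_mul, Matrix.mul_smul, h, smul_smul, smul_smul,
      mul_assoc, inv_mul_cancel₀ hp, mul_one]
  have h2 := (LinearMap.IsIdempotentElem.isProj_range _ h1).trace
  rw [Matrix.trace_toLin'_eq, trace_smul, ht, smul_eq_mul, mul_comm, mul_assoc,
    mul_inv_cancel₀ hp, mul_one] at h2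
  have h3 := (Matrix.toLin' (p⁻¹ • A)).finrank_range_add_finrank_ker
  rw [finrank_fintype_fun_eq_card] at h3
  have h4 : LinearMap.ker (Matrix.toLin' (p⁻¹ • A)) = LinearMap.ker (Matrix.toLin' A) := by
    rw [map_smul, LinearMap.ker_smul _ _ (inv_ne_zero hp)]
  rw [h4] at h3
  have h5 : ((finrank ℝ (LinearMap.range (Matrix.toLin' (p⁻¹ • A))) : ℝ) +
    finrank ℝ (LinearMap.ker (Matrix.toLin' A))) = Fintype.card W := by exact_mod_cast h3
  have h6 : (finrank ℝ (LinearMap.ker (Matrix.toLin' A)) : ℝ) ≤ k := by linarith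
  exact_mod_cast h6

variable {X : Type} [NormedAddCommGroup X] [NormedSpace ℝ X] [FiniteDimensional ℝ X]

/-- `Z` is covered by countably many zero sets of corank at most `r` -/
def Cov (r : ℕ) (Z : Set X) : Prop :=
  ∃ (K : Type) (_ : Countable K) (m : ℕ) (g : K → X → Fin m → ℝ), (∀ κ, ContDiff ℝ 1 (g κ)) ∧
    ∀ u ∈ Z, ∃ κ, g κ u = 0 ∧
      finrank ℝ (LinearMap.ker (fderiv ℝ (g κ) u : X →ₗ[ℝ] (Fin m → ℝ))) ≤ r

lemma cov_univ : Cov (finrank ℝ X) (Set.univ : Set X) :=
  ⟨Unit, inferInstance, 0, fun _ _ => 0, fun _ => contDiff_const,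
    fun _ _ => ⟨(), rfl, Submodule.finrank_le _⟩⟩

lemma Cov.dimH_le {r k : ℕ} {Z : Set X} (h : Cov r Z) {W : Type} [Fintype W] [DecidableEq W]
    {A : X → Matrix W W ℝ} (hA : ∀ a b, ContDiff ℝ 1 fun u => A u a b) :
    dimH {z : X × (W → ℝ) | z.1 ∈ Z ∧ finrank ℝ (LinearMap.ker (Matrix.toLin' (A z.1))) ≤ k ∧
      A z.1 *ᵥ z.2 = 0} ≤ (r + k : ℕ) := by
  obtain ⟨K, _, m, g, hg, h⟩ := h
  refine (dimH_mono (t := ⋃ κ, {z : X × (W → ℝ) | (g κ z.1 = 0 ∧
    finrank ℝ (LinearMap.ker (fderiv ℝ (g κ) z.1 : X →ₗ[ℝ] (Fin m → ℝ))) ≤ r) ∧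
    finrank ℝ (LinearMap.ker (Matrix.toLin' (A z.1))) ≤ k ∧ A z.1 *ᵥ z.2 = 0}) fun z hz => ?_).trans ?_
  · obtain ⟨κ, hκ⟩ := h _ hz.1
    exact Set.mem_iUnion.2 ⟨κ, hκ, hz.2⟩
  rw [dimH_iUnion]
  refine iSup_le fun κ => ?_
  have h1 : ContDiff ℝ 1 fun z : X × (W → ℝ) => g κ z.1 := (hg κ).comp contDiff_fst
  have h2 : ContDiff ℝ 1 fun z : X × (W → ℝ) => A z.1 *ᵥ z.2 := by
    refine contDiff_pi.2 fun a => ?_
    simp only [Matrix.mulVec, dotProduct]
    exact ContDiff.sum fun b _ => ((hA a b).comp contDiff_fst).mul (by fun_prop)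
  refine dimH_zero_set (h1.prodMk h2) fun z hz => ⟨Prod.ext hz.1.1 hz.2.2, ?_⟩
  have d0 := ((h1.prodMk h2).differentiable one_ne_zero z).hasFDerivAt
  refine (finrank_ker_prod _ _ _ (fun w hw => ?_) fun w hw => ?_).trans
    (add_le_add hz.1.2 hz.2.1)
  · have d1 := (((hg κ).differentiable one_ne_zero z.1).hasFDerivAt.comp z
      (hasFDerivAt_fst (𝕜 := ℝ) (p := z))).unique d0.fst
    have := congrArg (fun T => T w) d1
    simp only [ContinuousLinearMap.comp_apply] at this
    rw [ContinuousLinearMap.coe_coe] at hw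
    rw [hw] at this
    exact this
  · have d1 : HasFDerivAt (fun v : W → ℝ => A z.1 *ᵥ v)
        (LinearMap.toContinuousLinearMap (Matrix.toLin' (A z.1))) z.2 :=
      (LinearMap.toContinuousLinearMap (Matrix.toLin' (A z.1))).hasFDerivAt
    have d3 := HasFDerivAt.comp z.2 (g := fun z : X × (W → ℝ) => A z.1 *ᵥ z.2)
      (f := fun v : W → ℝ => (z.1, v)) d0.snd (hasFDerivAt_prodMk_right (𝕜 := ℝ) z.1 z.2)
    have d2 := d1.unique d3
    have := congrArg (fun T => T w) d2
    simp only [ContinuousLinearMap.comp_apply, ContinuousLinearMap.inr_apply] at this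
    rw [ContinuousLinearMap.coe_coe] at hw
    rw [hw] at this
    exact this

/-- derivative in the direction `w` -/
noncomputable def Dw (w : X) (f : X → ℝ) (x : X) : ℝ := fderiv ℝ f x w

omit [FiniteDimensional ℝ X] in
lemma Dw_smooth (w : X) {f : X → ℝ} (hf : ContDiff ℝ ⊤ f) (k : ℕ) : ContDiff ℝ ⊤ ((Dw w)^[k] f) := by
  induction k with
  | zero => exact hf
  | succ k ih =>
    rw [Function.iterate_succ_apply']
    exact (ih.fderiv_right (m := ⊤) le_top).clm_apply contDiff_const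

omit [FiniteDimensional ℝ X] in
lemma Dw_deriv (w x : X) {f : X → ℝ} (hf : ContDiff ℝ ⊤ f) (t : ℝ) :
    HasDerivAt (fun t : ℝ => f (x + t • w)) (Dw w f (x + t • w)) t := by
  have h1 : HasDerivAt (fun t : ℝ => x + t • w) w t := by
    simpa using ((hasDerivAt_id t).smul_const w).const_add x
  exact ((hf.differentiable (by simp) _).hasFDerivAt).comp_hasDerivAt t h1

lemma Dw_taylor {e : ℕ} {f : X → ℝ} (hf : LP e f) (w x : X)
    (h : ∀ k, (Dw w)^[k] f x = 0) : f (x + w) = 0 := by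
  obtain ⟨q, -, hq⟩ := hf x w
  have h1 : ∀ k t, (Dw w)^[k] f (x + t • w) = (derivative^[k] q).eval t := fun k => by
    induction k with
    | zero => exact hq
    | succ k ih =>
      intro t
      rw [Function.iterate_succ_apply', Function.iterate_succ_apply']
      have h2 := Dw_deriv w x (Dw_smooth w hf.contDiff k) t
      simp only [ih] at h2
      exact h2.unique ((derivative^[k] q).hasDerivAt t)
  have h2 : q = 0 := Polynomial.ext fun k => by
    have := h1 k 0
    rw [zero_smul, add_zero, h, ← coeff_zero_eq_eval_zero, coeff_iterate_derivative] at this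
    simpa [Nat.descFactorial_self, Nat.factorial_ne_zero] using this
  simpa [h2] using hq 1

lemma cov_Z {e j : ℕ} {P : X → (Fin j → X) → ℝ}
    (hP : LP e fun z : X × (Fin j → X) => P z.1 z.2) (h0 : ∃ u v, P u v ≠ 0)
    (h3 : ∀ u v (c : Fin j → ℝ), P u v = 0 → P (u + ∑ l, c l • v l) v = 0) :
    Cov (finrank ℝ X - (j + 1)) {u | ∀ v, P u v = 0} := by
  let dv := TopologicalSpace.denseSeq (Fin (j + 1) → X)
  let dc := TopologicalSpace.denseSeq (Fin j → ℝ)
  have sm : ∀ (w : X) v k, ContDiff ℝ ⊤ ((Dw w)^[k] fun x => P x v) := fun w v k =>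
    Dw_smooth w (hP.left v).contDiff k
  refine ⟨ℕ × (Fin (j + 1) → ℕ × ℕ), inferInstance, j + 1, fun κ u i =>
    (Dw (dv κ.1 i))^[(κ.2 i).1] (fun x => P x (i.removeNth (dv κ.1)))
      (u + ∑ l, dc (κ.2 i).2 l • i.removeNth (dv κ.1) l), fun κ => contDiff_pi.2 fun i =>
      ((sm _ _ _).of_le le_top).comp (contDiff_id.add contDiff_const), fun u hu => ?_⟩
  obtain ⟨u0, v0, h0⟩ := h0
  have a1 : ∀ i : Fin (j + 1), LP e fun v : Fin (j + 1) → X => P (u + v i) (i.removeNth v) :=
    fun i => hP.aff (T := fun v : Fin (j + 1) → X => (u + v i, i.removeNth v)) fun x y =>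
      ⟨(y i, i.removeNth y), fun t => Prod.ext (by simp [add_assoc]) rfl⟩
  obtain ⟨v1, hv1⟩ := LP.common univ (fun i _ => a1 i) fun i _ =>
    ⟨i.insertNth (u0 - u) v0, by simpa using h0⟩
  have a2 : IsOpen {v : Fin (j + 1) → X | ∀ i : Fin (j + 1), P (u + v i) (i.removeNth v) ≠ 0} := by
    rw [Set.ofPred_forall]
    exact isOpen_iInter_of_finite fun i => isOpen_ne_fun (a1 i).continuous continuous_const
  obtain ⟨a, ha⟩ := (TopologicalSpace.denseRange_denseSeq _).exists_mem_open a2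
    ⟨v1, fun i => hv1 i (mem_univ _)⟩
  change ∀ i : Fin (j + 1), P (u + dv a i) (i.removeNth (dv a)) ≠ 0 at ha
  have a3 : ∀ i : Fin (j + 1), ∃ k b : ℕ, (∀ c : Fin j → ℝ,
      (Dw (dv a i))^[k] (fun x => P x (i.removeNth (dv a)))
        (u + ∑ l, c l • i.removeNth (dv a) l) = 0) ∧
      (Dw (dv a i))^[k + 1] (fun x => P x (i.removeNth (dv a)))
        (u + ∑ l, dc b l • i.removeNth (dv a) l) ≠ 0 := fun i => by
    classical
    have b1 : ∃ k, ∃ c : Fin j → ℝ, (Dw (dv a i))^[k] (fun x => P x (i.removeNth (dv a)))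
        (u + ∑ l, c l • i.removeNth (dv a) l) ≠ 0 := by
      by_contra hh
      push Not at hh
      exact ha i (Dw_taylor (hP.left _) _ _ fun k => by simpa using hh k 0)
    have b2 := Nat.find_spec b1
    have b3 := fun k => Nat.find_min b1 (m := k)
    rcases hk : Nat.find b1 with _ | k
    · rw [hk] at b2
      obtain ⟨c, hc⟩ := b2
      exact absurd (h3 _ _ c (hu _)) hc
    · rw [hk] at b2 b3
      have b4 := b3 k (Nat.lt_succ_self k)
      push Not at b4
      have b5 : Continuous fun c : Fin j → ℝ =>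
          (Dw (dv a i))^[k + 1] (fun x => P x (i.removeNth (dv a)))
            (u + ∑ l, c l • i.removeNth (dv a) l) :=
        (sm _ _ _).continuous.comp (by fun_prop)
      obtain ⟨b, hb⟩ := (TopologicalSpace.denseRange_denseSeq _).exists_mem_open
        (isOpen_ne_fun b5 (continuous_const (y := 0))) b2
      exact ⟨k, b, b4, hb⟩
  choose k b a4 a5 using a3
  refine ⟨(a, fun i => (k i, b i)), funext fun i => a4 i _, ?_⟩
  set g : X → Fin (j + 1) → ℝ := fun u i =>
    (Dw (dv a i))^[k i] (fun x => P x (i.removeNth (dv a)))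
      (u + ∑ l, dc (b i) l • i.removeNth (dv a) l) with hg
  have gs : ContDiff ℝ 1 g := contDiff_pi.2 fun i =>
    ((sm _ _ _).of_le le_top).comp (contDiff_id.add contDiff_const)
  change finrank ℝ (LinearMap.ker (fderiv ℝ g u : X →ₗ[ℝ] (Fin (j + 1) → ℝ))) ≤ _
  have d1 : ∀ (w : X) i, HasDerivAt (fun t : ℝ => g (u + t • w) i) (fderiv ℝ g u w i) 0 :=
    fun w i => by
      have h1 : HasDerivAt (fun t : ℝ => u + t • w) w 0 := by
        simpa using ((hasDerivAt_id (0 : ℝ)).smul_const w).const_add u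
      have h2 : HasFDerivAt g (fderiv ℝ g u) (u + (0 : ℝ) • w) := by
        simpa using (gs.differentiable one_ne_zero u).hasFDerivAt
      exact hasDerivAt_pi.1 (h2.comp_hasDerivAt 0 h1) i
  have d2 : ∀ i, fderiv ℝ g u (dv a i) i ≠ 0 := fun i => by
    have h1 := Dw_deriv (dv a i) (u + ∑ l, dc (b i) l • i.removeNth (dv a) l)
      (sm (dv a i) (i.removeNth (dv a)) (k i)) 0
    have h2 := d1 (dv a i) i
    have h4 : (fun t : ℝ => g (u + t • dv a i) i) = fun t : ℝ =>
        (Dw (dv a i))^[k i] (fun x => P x (i.removeNth (dv a)))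
          (u + ∑ l, dc (b i) l • i.removeNth (dv a) l + t • dv a i) := funext fun t => by
      simp only [hg]
      rw [add_right_comm]
    rw [h4] at h2
    rw [h2.unique h1]
    have := a5 i
    rw [Function.iterate_succ_apply'] at this
    simpa using this
  have d3 : ∀ l i, l ≠ i → fderiv ℝ g u (dv a l) i = 0 := fun l i hl => by
    obtain ⟨l', rfl⟩ := Fin.exists_succAbove_eq hl
    refine (d1 _ i).unique ?_
    have : (fun t : ℝ => g (u + t • dv a (i.succAbove l')) i) = fun _ => 0 := funext fun t => by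
      have := a4 i (dc (b i) + Pi.single l' t)
      simp only [Pi.add_apply, add_smul, sum_add_distrib, Pi.single_apply, ite_smul, zero_smul,
        sum_ite_eq', mem_univ, if_true] at this
      simp only [hg]
      rw [add_right_comm, add_assoc]
      exact this
    rw [this]
    exact hasDerivAt_const _ _
  have d4 : LinearMap.range (fderiv ℝ g u : X →ₗ[ℝ] (Fin (j + 1) → ℝ)) = ⊤ := by
    rw [LinearMap.range_eq_top]
    intro y
    refine ⟨∑ l, (y l / fderiv ℝ g u (dv a l) l) • dv a l, funext fun i => ?_⟩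
    simp only [ContinuousLinearMap.coe_coe, map_sum, map_smul, Finset.sum_apply, Pi.smul_apply,
      smul_eq_mul]
    rw [sum_eq_single i (fun l _ hl => by rw [d3 l i hl, mul_zero]) (by simp),
      div_mul_cancel₀ _ (d2 i)]
  have d5 := (fderiv ℝ g u : X →ₗ[ℝ] (Fin (j + 1) → ℝ)).finrank_range_add_finrank_ker
  rw [d4, finrank_top, finrank_fintype_fun_eq_card, Fintype.card_fin] at d5
  omega

end Pool.Agent.CA9.UB
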