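import Pool.Agent.Lib.MP_ca9be0_an.UB.LG2

/-! Lemma G: a direction that avoids all fibres. -/

namespace Pool.Agent.CA9.UB

open Finset Filter Topology Module Matrix

lemma ulim' (U : Ultrafilter ℕ) (a : ℕ → ℝ) (B : ℝ) (h : ∀ l, |a l| ≤ B) :
    ∃ b, Tendsto a U (𝓝 b) := by
  obtain ⟨b, -, hb⟩ := (isCompact_Icc (a := -B) (b := B)).ultrafilter_le_nhds' (U.map a) (by
    rw [Ultrafilter.mem_map]
    exact Eventually.of_forall fun l => abs_le.1 (h l))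
  exact ⟨b, hb⟩

variable {X : Type} [NormedAddCommGroup X] [NormedSpace ℝ X]

lemma ulim_LP (U : Ultrafilter ℕ) {e : ℕ} {F : ℕ → X → ℝ} (h : ∀ l, LP e (F l)) {B : ℝ}
    (hB : ∀ l x, ‖x‖ ≤ 1 → |F l x| ≤ B) :
    ∃ g, LP e g ∧ ∀ x, Tendsto (fun l => F l x) U (𝓝 (g x)) := by
  choose g hg using fun x => ulim' U (fun l => F l x) _ fun l => (h l).grow (hB l) x
  exact ⟨g, LP.lim h hg, hg⟩

omit [NormedSpace ℝ X] in
lemma tend_mov {U : Filter ℕ} {F : ℕ → X → ℝ} {x : ℕ → X} {x0 : X} {b L η : ℝ} (hη : 0 < η)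
    (hx : Tendsto x U (𝓝 x0)) (hg : Tendsto (fun l => F l x0) U (𝓝 b))
    (hL : ∀ l, ‖x l - x0‖ ≤ η → |F l (x l) - F l x0| ≤ L * ‖x l - x0‖) :
    Tendsto (fun l => F l (x l)) U (𝓝 b) := by
  have h1 : Tendsto (fun l => ‖x l - x0‖) U (𝓝 0) := tendsto_iff_norm_sub_tendsto_zero.1 hx
  have h2 : Tendsto (fun l => F l (x l) - F l x0) U (𝓝 0) := by
    refine squeeze_zero_norm' (a := fun l => L * ‖x l - x0‖) ?_ (by simpa using h1.const_mul L)
    filter_upwards [h1.eventually (ge_mem_nhds hη)] with l hl using hL l hl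
  simpa using h2.add hg

variable [FiniteDimensional ℝ X]

lemma ulim_ball (U : Ultrafilter ℕ) {x : ℕ → X} (h : ∀ l, ‖x l‖ ≤ 1) :
    ∃ x0, ‖x0‖ ≤ 1 ∧ Tendsto x U (𝓝 x0) := by
  obtain ⟨b, h1, hb⟩ := (isCompact_closedBall (0 : X) 1).ultrafilter_le_nhds' (U.map x) (by
    rw [Ultrafilter.mem_map]
    exact Eventually.of_forall fun l => by simpa using h l)
  exact ⟨b, by simpa using h1, hb⟩

variable {W Y Al : Type} [Fintype W] [Fintype Y] [Fintype Al] [DecidableEq W] [DecidableEq Y]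

lemma lemmaG_lim (S : Finset Y) (ν : Y → ℝ) (hν : ∀ y ∉ S, ν y = 0) (e top : ℕ)
    (lev k : Al → ℕ) (hdim : ∀ α, finrank ℝ X - lev α + k α < S.card)
    (P : (j : ℕ) → X → (Fin j → X) → ℝ) (p : Al → X → ℝ)
    (A : Al → X → Matrix W W ℝ) (J : X → Matrix Y W ℝ) {C L η δ : ℝ}
    (hη : 0 < η) (hδ : 0 < δ)
    (hP : ∀ j < top, LP e fun z : X × (Fin j → X) => P j z.1 z.2)
    (hPne : ∀ j < top, ∃ u v, P j u v ≠ 0)
    (hG3 : ∀ j < top, ∀ u v (c : Fin j → ℝ), P j u v = 0 → P j (u + ∑ l, c l • v l) v = 0)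
    (hnet : ∀ j < top, ∀ u, ‖u‖ ≤ 1 → (∀ α, lev α = j → p α u = 0) → ∀ v, P j u v = 0)
    (htop : ∀ u, ‖u‖ ≤ 1 → ∃ α, lev α = top ∧ p α u ≠ 0)
    (hA : ∀ α a b, LP e fun u => A α u a b)
    (hA2 : ∀ α u, A α u * A α u = p α u • A α u)
    (htr : ∀ α u, (A α u).trace = ((Fintype.card W : ℝ) - k α) * p α u)
    (hJ : ∀ u y w, ‖u‖ ≤ 1 → |J u y w| ≤ C)
    (hJl : ∀ u u' y w, ‖u‖ ≤ 1 → ‖u'‖ ≤ 1 → ‖u - u'‖ ≤ η → |J u y w - J u' y w| ≤ L * ‖u - u'‖) :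
    ∃ q : Y → ℝ, (∀ y ∉ S, q y = 0) ∧ (∀ y, |q y - ν y| ≤ δ) ∧
      ∀ u, ‖u‖ ≤ 1 → ∀ w, (∀ α, A α u *ᵥ w = 0) → q ≠ J u *ᵥ w := by
  classical
  let Z : ℕ → Set X := fun j => Nat.casesOn j Set.univ fun j => {u | ∀ v, P j u v = 0}
  have hZ : ∀ j ≤ top, Cov (finrank ℝ X - j) (Z j) := fun j hj => by
    rcases j with _ | j
    · exact cov_univ
    · exact cov_Z (hP j hj) (hPne j hj) (hG3 j hj)
  let Γ : Set (X × (W → ℝ)) := {z | ‖z.1‖ ≤ 1 ∧ ∀ α, A α z.1 *ᵥ z.2 = 0}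
  obtain ⟨α0, -⟩ := htop 0 (by simp)
  have hS : 0 < S.card := lt_of_le_of_lt (Nat.zero_le _) (hdim α0)
  have h1 : dimH Γ ≤ (S.card - 1 : ℕ) := by
    refine (dimH_mono (t := ⋃ α : {α // lev α ≤ top}, {z : X × (W → ℝ) | z.1 ∈ Z (lev α) ∧
      finrank ℝ (LinearMap.ker (Matrix.toLin' (A α z.1))) ≤ k α ∧ A α z.1 *ᵥ z.2 = 0})
      fun z hz => ?_).trans ?_
    · have h2 : ∃ j, ∃ α, lev α = j ∧ p α z.1 ≠ 0 := ⟨top, htop _ hz.1⟩
      obtain ⟨α, h3, h4⟩ := Nat.find_spec h2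
      have h5 : lev α ≤ top := h3 ▸ Nat.find_min' h2 (htop _ hz.1)
      refine Set.mem_iUnion.2 ⟨⟨α, h5⟩, ?_, finrank_ker_trace h4 (hA2 _ _) (htr _ _), hz.2 α⟩
      change z.1 ∈ Z (lev α)
      rcases hj : lev α with _ | j
      · trivial
      · have h6 := Nat.find_min h2 (m := j) (by omega)
        push Not at h6
        exact hnet j (by omega) _ hz.1 h6
    · rw [dimH_iUnion]
      refine iSup_le fun α => ((hZ _ α.2).dimH_le fun a b => (hA α a b).contDiff).trans ?_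
      have := hdim α
      exact_mod_cast (by omega : finrank ℝ X - lev α + k α ≤ S.card - 1)
  let Fm : X × (W → ℝ) → S → ℝ := fun z y => (J z.1 *ᵥ z.2) y
  have h2 : dimH (Fm '' Γ) ≤ dimH Γ := by
    refine dimH_image_le_of_locally_lipschitzOn fun z0 hz0 => ?_
    refine ⟨(Fintype.card W * (|L| * (‖z0.2‖ + 1) + |C|)).toNNReal,
      Γ ∩ Metric.ball z0 (min (η / 2) 1),
      inter_mem_nhdsWithin _ (Metric.ball_mem_nhds _ (by positivity)), ?_⟩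
    refine LipschitzOnWith.of_dist_le_mul fun z hz z' hz' => ?_
    rw [Real.coe_toNNReal _ (by positivity), dist_pi_le_iff (by positivity)]
    intro y
    have b1 : dist z z0 < min (η / 2) 1 := hz.2
    have b2 : dist z' z0 < min (η / 2) 1 := hz'.2
    have b3 : ‖z.1 - z'.1‖ ≤ dist z z' := by rw [← dist_eq_norm]; exact le_max_left _ _
    have b4 : dist z z' ≤ η := by
      linarith [dist_triangle_right z z' z0, min_le_left (η / 2) 1]
    have b5 : ‖z.2‖ ≤ ‖z0.2‖ + 1 := by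
      have : ‖z.2 - z0.2‖ ≤ dist z z0 := by rw [← dist_eq_norm]; exact le_max_right _ _
      linarith [norm_sub_norm_le z.2 z0.2, min_le_right (η / 2) 1]
    have b6 : ‖z.2 - z'.2‖ ≤ dist z z' := by rw [← dist_eq_norm]; exact le_max_right _ _
    simp only [Fm, Matrix.mulVec, dotProduct, Real.dist_eq, ← sum_sub_distrib]
    refine (abs_sum_le_sum_abs _ _).trans ?_
    rw [mul_assoc, ← nsmul_eq_mul, ← card_univ]
    refine sum_le_card_nsmul _ _ _ fun w _ => ?_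
    have c1 := hJl _ _ y w hz.1.1 hz'.1.1 (b3.trans b4)
    have c2 := hJ _ y w hz'.1.1
    have c3 : |z.2 w| ≤ ‖z0.2‖ + 1 := (norm_le_pi_norm z.2 w).trans b5
    have c4 : |z.2 w - z'.2 w| ≤ dist z z' := (norm_le_pi_norm (z.2 - z'.2) w).trans b6
    have c5 : |J z.1 y w - J z'.1 y w| ≤ |L| * dist z z' :=
      c1.trans (mul_le_mul (le_abs_self L) b3 (norm_nonneg _) (abs_nonneg _))
    calc _ = |(J z.1 y w - J z'.1 y w) * z.2 w + J z'.1 y w * (z.2 w - z'.2 w)| := by ring_nf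
      _ ≤ |J z.1 y w - J z'.1 y w| * |z.2 w| + |J z'.1 y w| * |z.2 w - z'.2 w| := by
        rw [← abs_mul, ← abs_mul]; exact abs_add_le _ _
      _ ≤ |L| * dist z z' * (‖z0.2‖ + 1) + |C| * dist z z' := by
        have := c2.trans (le_abs_self C)
        gcongr
      _ = _ := by ring
  have h3 : Dense (Fm '' Γ)ᶜ := by
    refine dense_compl_of_dimH_lt_finrank ((h2.trans h1).trans_lt ?_)
    rw [finrank_fintype_fun_eq_card, Fintype.card_coe]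
    exact_mod_cast (by omega : S.card - 1 < S.card)
  obtain ⟨q', q1, q2⟩ := h3.exists_dist_lt (fun y : S => ν y) hδ
  refine ⟨fun y => if h : y ∈ S then q' ⟨y, h⟩ else 0, fun y hy => dif_neg hy, fun y => ?_,
    fun u hu w hw hq => q1 ⟨(u, w), ⟨hu, hw⟩, funext fun y => ?_⟩⟩
  · by_cases hy : y ∈ S
    · simp only [dif_pos hy]
      rw [abs_sub_comm]
      exact (dist_le_pi_dist (fun y : S => ν y) q' ⟨y, hy⟩).trans q2.le
    · simp only [dif_neg hy, hν y hy]; simpa using hδ.le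
  · have := congrFun hq y
    simp only [dif_pos y.2] at this
    exact this.symm

theorem lemmaG {X : Type} [NormedAddCommGroup X] [NormedSpace ℝ X] [FiniteDimensional ℝ X]
    {ι W Y Al : Type} [Fintype W] [Fintype Y] [Fintype Al] [DecidableEq W] [DecidableEq Y]
    (S : Finset Y) (ν : Y → ℝ) (hν : ∀ y ∉ S, ν y = 0) (e top : ℕ) (lev k : Al → ℕ)
    (hdim : ∀ α, Module.finrank ℝ X - lev α + k α < S.card)
    (P : ι → (j : ℕ) → X → (Fin j → X) → ℝ) (p : ι → Al → X → ℝ)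
    (A : ι → Al → X → Matrix W W ℝ) (J : ι → X → Matrix Y W ℝ) {C L η ε δ : ℝ}
    (hη : 0 < η) (hε : 0 < ε) (hδ : 0 < δ)
    (hP : ∀ i, ∀ j < top, LP e fun z : X × (Fin j → X) => P i j z.1 z.2)
    (hP0 : ∀ i, ∀ j < top, ∀ u v, 0 ≤ P i j u v)
    (hPne : ∀ i, ∀ j < top, ∃ u v, ‖u‖ ≤ 1 ∧ ‖v‖ ≤ 1 ∧ ε ≤ P i j u v)
    (hG3 : ∀ j < top, ∀ c : Fin j → ℝ, ∃ K, ∀ i u v,
      P i j (u + ∑ l, c l • v l) v ≤ K * P i j u v)
    (hnet : ∀ i, ∀ j < top, ∀ u v, ‖u‖ ≤ 1 → ‖v‖ ≤ 1 →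
      P i j u v ≤ C * ∑ α with lev α = j, p i α u)
    (htop : ∀ i u, ‖u‖ ≤ 1 → ε ≤ ∑ α with lev α = top, p i α u)
    (hp : ∀ i α, LP e (p i α)) (hpb : ∀ i α u, ‖u‖ ≤ 1 → |p i α u| ≤ C)
    (hA : ∀ i α a b, LP e fun u => A i α u a b)
    (hAb : ∀ i α u a b, ‖u‖ ≤ 1 → |A i α u a b| ≤ C)
    (hA2 : ∀ i α u, A i α u * A i α u = p i α u • A i α u)
    (htr : ∀ i α u, (A i α u).trace = ((Fintype.card W : ℝ) - k α) * p i α u)
    (hJ : ∀ i u y w, ‖u‖ ≤ 1 → |J i u y w| ≤ C)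
    (hJl : ∀ i u u' y w, ‖u‖ ≤ 1 → ‖u'‖ ≤ 1 → ‖u - u'‖ ≤ η →
      |J i u y w - J i u' y w| ≤ L * ‖u - u'‖) :
    ∃ ε' : ℝ, 0 < ε' ∧ ∀ i, ∃ q : Y → ℝ, (∀ y ∉ S, q y = 0) ∧ (∀ y, |q y - ν y| ≤ δ) ∧
      ∀ u, ‖u‖ ≤ 1 → ε' ≤
        ∑ α, (A i α u *ᵥ ((J i u)ᵀ *ᵥ q)) ⬝ᵥ (A i α u *ᵥ ((J i u)ᵀ *ᵥ q)) +
          (q - J i u *ᵥ ((J i u)ᵀ *ᵥ q)) ⬝ᵥ (q - J i u *ᵥ ((J i u)ᵀ *ᵥ q)) := by
  classical
  by_contra hc
  push Not at hc
  choose i hi using fun l : ℕ => hc (1 / ((l : ℝ) + 1)) Nat.one_div_pos_of_nat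
  let U := hyperfilter ℕ
  choose p' p1 p2 using fun α => ulim_LP U (fun l => hp (i l) α) fun l => hpb (i l) α
  choose A' A1 A2 using fun α a b => ulim_LP U (fun l => hA (i l) α a b)
    fun l u hu => hAb (i l) α u a b hu
  have Pb : ∀ j < top, ∀ l (z : X × (Fin j → X)), ‖z‖ ≤ 1 →
      |P (i l) j z.1 z.2| ≤ |C| * (Fintype.card Al * |C|) := fun j hj l z hz => by
    have h1 : ‖z.1‖ ≤ 1 := (norm_fst_le z).trans hz
    rw [abs_of_nonneg (hP0 _ j hj _ _)]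
    refine (hnet _ j hj _ _ h1 ((norm_snd_le z).trans hz)).trans ((le_abs_self _).trans ?_)
    rw [abs_mul]
    refine mul_le_mul_of_nonneg_left ((abs_sum_le_sum_abs _ _).trans ?_) (abs_nonneg _)
    refine (sum_le_card_nsmul _ _ _ fun α _ => (hpb _ α _ h1).trans (le_abs_self C)).trans ?_
    rw [nsmul_eq_mul]
    gcongr
    exact_mod_cast card_le_univ _
  have eP : ∀ j, ∃ g : X × (Fin j → X) → ℝ, j < top →
      LP e g ∧ ∀ z, Tendsto (fun l => P (i l) j z.1 z.2) U (𝓝 (g z)) := fun j => by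
    by_cases hj : j < top
    · obtain ⟨g, hg⟩ := ulim_LP U (fun l => hP (i l) j hj) (Pb j hj)
      exact ⟨g, fun _ => hg⟩
    · exact ⟨0, fun h => absurd h hj⟩
  choose P' P1 using eP
  have eJ : ∀ u y w, ∃ b, ‖u‖ ≤ 1 → Tendsto (fun l => J (i l) u y w) U (𝓝 b) := fun u y w => by
    by_cases hu : ‖u‖ ≤ 1
    · obtain ⟨b, hb⟩ := ulim' U (fun l => J (i l) u y w) C fun l => hJ _ _ _ _ hu
      exact ⟨b, fun _ => hb⟩
    · exact ⟨0, fun h => absurd h hu⟩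
  choose J' J1 using eJ
  have P0 : ∀ j < top, ∀ z, 0 ≤ P' j z := fun j hj z =>
    ge_of_tendsto' ((P1 j hj).2 z) fun l => hP0 _ j hj _ _
  have ps : ∀ j u, Tendsto (fun l => ∑ α with lev α = j, p (i l) α u) U
      (𝓝 (∑ α with lev α = j, p' α u)) := fun j u => tendsto_finsetSum _ fun α _ => p2 α u
  refine Exists.elim (lemmaG_lim S ν hν e top lev k hdim (fun j u v => P' j (u, v)) p'
    (fun α u => of fun a b => A' α a b u) (fun u => of (J' u)) (C := C) (L := L) hη hδ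
    (fun j hj => (P1 j hj).1) (fun j hj => ?_) (fun j hj u v c h0 => ?_)
    (fun j hj u hu h0 => ?_) (fun u hu => ?_) A1 (fun α u => ?_) (fun α u => ?_)
    (fun u y w hu => ?_) (fun u u' y w hu hu' h0 => ?_))
    fun q ⟨q1, q2, q3⟩ => ?_
  rotate_right
  · choose u u1 u2 using fun l => hi l q q1 q2
    obtain ⟨u0, h0, hu⟩ := ulim_ball U u1
    have tA : ∀ α, Tendsto (fun l => A (i l) α (u l)) U (𝓝 (of fun a b => A' α a b u0)) :=
      fun α => tendsto_pi_nhds.2 fun a => tendsto_pi_nhds.2 fun b =>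
        tend_mov (F := fun l u => A (i l) α u a b) one_pos hu (A2 α a b u0) fun l _ =>
          (hA _ α a b).lip (fun u hu => hAb _ α u a b hu) (u1 l) h0
    have tJ : Tendsto (fun l => J (i l) (u l)) U (𝓝 (of (J' u0))) :=
      tendsto_pi_nhds.2 fun y => tendsto_pi_nhds.2 fun w =>
        tend_mov (F := fun l u => J (i l) u y w) hη hu (J1 u0 y w h0) fun l hl =>
          hJl _ _ _ y w (u1 l) h0 hl
    have cV : Continuous fun z : (Al → Matrix W W ℝ) × Matrix Y W ℝ =>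
        ∑ α, (z.1 α *ᵥ (z.2ᵀ *ᵥ q)) ⬝ᵥ (z.1 α *ᵥ (z.2ᵀ *ᵥ q)) +
          (q - z.2 *ᵥ (z.2ᵀ *ᵥ q)) ⬝ᵥ (q - z.2 *ᵥ (z.2ᵀ *ᵥ q)) := by fun_prop
    have tV := (cV.tendsto _).comp ((tendsto_pi_nhds.2 tA).prodMk_nhds tJ)
    have t0 : Tendsto (fun l : ℕ => 1 / ((l : ℝ) + 1)) U (𝓝 0) :=
      tendsto_one_div_add_atTop_nhds_zero_nat.mono_left Nat.hyperfilter_le_atTop
    have h1 := le_of_tendsto_of_tendsto' tV t0 fun l => (u2 l).le
    have n1 : ∀ {V : Type} [Fintype V] (x : V → ℝ), 0 ≤ x ⬝ᵥ x := fun x =>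
      sum_nonneg fun _ _ => mul_self_nonneg _
    have n2 := sum_nonneg (s := univ) fun α _ =>
      n1 ((of fun a b => A' α a b u0) *ᵥ ((of (J' u0))ᵀ *ᵥ q))
    have n3 := n1 (q - of (J' u0) *ᵥ ((of (J' u0))ᵀ *ᵥ q))
    simp only at h1
    refine q3 u0 h0 ((of (J' u0))ᵀ *ᵥ q) (fun α => ?_) ?_
    · exact dotProduct_self_eq_zero.1
        ((sum_eq_zero_iff_of_nonneg fun α _ => n1 _).1 (le_antisymm (by linarith) n2) α (mem_univ _))
    · exact sub_eq_zero.1 (dotProduct_self_eq_zero.1 (le_antisymm (by linarith) n3))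
  · choose u v h1 h2 h3 using fun l => hPne (i l) j hj
    have h4 : ∀ l, ‖(u l, v l)‖ ≤ 1 := fun l => max_le (h1 l) (h2 l)
    obtain ⟨z, h5, hz⟩ := ulim_ball U h4
    have h6 := tend_mov (F := fun l (z : X × (Fin j → X)) => P (i l) j z.1 z.2) one_pos hz
      ((P1 j hj).2 z) fun l _ => (hP _ j hj).lip (Pb j hj l) (h4 l) h5
    exact ⟨z.1, z.2, (hε.trans_le (ge_of_tendsto' h6 h3)).ne'⟩
  · obtain ⟨K, hK⟩ := hG3 j hj c
    have := le_of_tendsto_of_tendsto' ((P1 j hj).2 (u + ∑ l, c l • v l, v))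
      (((P1 j hj).2 (u, v)).const_mul K) fun l => hK _ u v
    rw [h0, mul_zero] at this
    exact le_antisymm this (P0 j hj _)
  · refine (LP.right (F := fun u v => P' j (u, v)) (P1 j hj).1 u).eq_zero fun v hv => ?_
    have := le_of_tendsto_of_tendsto' ((P1 j hj).2 (u, v)) ((ps j u).const_mul C)
      fun l => hnet _ j hj u v hu hv
    rw [sum_eq_zero fun α hα => h0 α (mem_filter.1 hα).2, mul_zero] at this
    exact le_antisymm this (P0 j hj _)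
  · have := hε.trans_le (ge_of_tendsto' (ps top u) fun l => htop _ u hu)
    obtain ⟨α, h1, h2⟩ := exists_ne_zero_of_sum_ne_zero this.ne'
    exact ⟨α, (mem_filter.1 h1).2, h2⟩
  · ext a b
    have h1 : Tendsto (fun l => ∑ c, A (i l) α u a c * A (i l) α u c b) U
        (𝓝 (∑ c, A' α a c u * A' α c b u)) :=
      tendsto_finsetSum _ fun c _ => (A2 α a c u).mul (A2 α c b u)
    refine tendsto_nhds_unique h1 (((p2 α u).mul (A2 α a b u)).congr fun l => ?_)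
    exact (congrFun (congrFun (hA2 (i l) α u) a) b).symm
  · have h1 : Tendsto (fun l => ∑ c, A (i l) α u c c) U (𝓝 (∑ c, A' α c c u)) :=
      tendsto_finsetSum _ fun c _ => A2 α c c u
    exact tendsto_nhds_unique h1 (((p2 α u).const_mul _).congr fun l => (htr (i l) α u).symm)
  · exact le_of_tendsto' (J1 u y w hu).abs fun l => hJ _ _ _ _ hu
  · exact le_of_tendsto' ((J1 u y w hu).sub (J1 u' y w hu')).abs fun l => hJl _ _ _ _ _ hu hu' h0

end Pool.Agent.CA9.UB
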