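import Pool.Agent.Lib.MP_ca9be0_an.UB.R0

/-! Linear forms, and modules attached to a tuple of polynomials. -/

namespace Pool.Agent.CA9.UB

open Finset Matrix Polynomial Pool.Agent.Lib.MP_ca9be0_an.PyF

variable {N M : ℕ}

/-- the linear form with coefficients `t` -/
def lin (t : Fin N → ℝ) : E N →ₗ[ℝ] ℝ where
  toFun y := ∑ i, t i * y i
  map_add' y z := by simp [mul_add, sum_add_distrib]
  map_smul' c y := by simp [mul_sum, mul_left_comm]

theorem lin_apply (t : Fin N → ℝ) (y : E N) : lin t y = ∑ i, t i * y i := rfl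

/-- the generators of the module attached to the tuple `T` by the tensor `L` -/
def modL {ι κ : Type} (L : ι → κ → Fin M → ℝ) (T : Fin M → E N → ℝ) : ι → κ → E N → ℝ :=
  fun i k y => ∑ w, L i k w * T w y

end Pool.Agent.CA9.UB
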