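import Pool.Agent.Lib.MP_ca9be0_an.UB.LS0
import Pool.Agent.Lib.MP_ca9be0_an.UB.LG1
import Pool.Agent.Lib.MP_ca9be0_an.UB.AlgE

/-! Bounded families of polynomials, and the tame relation that a polynomial relation gives. -/

namespace Pool.Agent.CA9.UB.LSa

open Finset Matrix Polynomial Pool.Agent.Lib.MP_ca9be0_an.PyF

variable {N D D' d : ℕ} {ι : Type} {f g : ι → E N → ℝ} {s : ℝ}

/-- families that are bounded on the unit ball -/
def BB (f : ι → E N → ℝ) : Prop := ∃ C, 0 ≤ C ∧ ∀ i, PB (f i) 0 1 C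

/-- bounded families of polynomials -/
def BP (D : ℕ) (f : ι → E N → ℝ) : Prop := (∀ i, f i ∈ Pd N D) ∧ BB f

theorem BB.of {C : ℝ} (h : ∀ i, PB (f i) 0 1 C) : BB f :=
  ⟨max C 0, le_max_right _ _, fun i => (h i).mono le_rfl (le_max_left _ _)⟩

theorem BB.congr (h : BB f) (he : ∀ i y, f i y = g i y) : BB g := by
  obtain rfl : f = g := by ext i y; exact he i y
  exact h

theorem BB.comp (h : BB f) {κ : Type} (j : κ → ι) : BB fun k => f (j k) :=
  let ⟨C, h0, h1⟩ := h; ⟨C, h0, fun k => h1 (j k)⟩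

theorem BB.add (h : BB f) (h' : BB g) : BB fun i y => f i y + g i y := by
  obtain ⟨C, _, h1⟩ := h
  obtain ⟨C', _, h2⟩ := h'
  exact BB.of (C := C + C') fun i y hy =>
    (abs_add_le _ _).trans (add_le_add (h1 i y hy) (h2 i y hy))

theorem BB.sub (h : BB f) (h' : BB g) : BB fun i y => f i y - g i y := by
  obtain ⟨C, _, h1⟩ := h
  obtain ⟨C', _, h2⟩ := h'
  exact BB.of (C := C + C') fun i y hy =>
    (abs_sub _ _).trans (add_le_add (h1 i y hy) (h2 i y hy))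

theorem BB.mul (h : BB f) (h' : BB g) : BB fun i y => f i y * g i y := by
  obtain ⟨C, h0, h1⟩ := h
  obtain ⟨C', _, h2⟩ := h'
  refine BB.of (C := C * C') fun i y hy => ?_
  rw [abs_mul]
  exact mul_le_mul (h1 i y hy) (h2 i y hy) (abs_nonneg _) h0

theorem BB.const {c : ι → ℝ} (L : ℝ) (h : ∀ i, |c i| ≤ L) : BB fun i (_ : E N) => c i :=
  BB.of (C := L) fun i _ _ => h i

theorem BB.sum {α : Type} (t : Finset α) {F : α → ι → E N → ℝ} (h : ∀ a ∈ t, BB (F a)) :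
    BB fun i y => ∑ a ∈ t, F a i y := by
  classical
  induction t using Finset.induction_on with
  | empty => exact (BB.const (c := fun _ => 0) 0 fun _ => by simp).congr fun _ _ => by simp
  | insert a t ha ih =>
    exact ((h a (mem_insert_self _ _)).add (ih fun b hb => h b (mem_insert_of_mem hb))).congr
      fun i y => by rw [sum_insert ha]

theorem BB.fin {α : Type} [Fintype α] {F : α → ι → E N → ℝ} (h : ∀ a, BB (F a)) :
    ∃ C, 0 ≤ C ∧ ∀ a i, PB (F a i) 0 1 C := by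
  choose C h0 h1 using h
  exact ⟨∑ a, C a, sum_nonneg fun a _ => h0 a, fun a i =>
    (h1 a i).mono le_rfl (single_le_sum (fun a _ => h0 a) (mem_univ a))⟩

theorem BP.mono (h : BP D f) (hD : D ≤ D') : BP D' f := ⟨fun i => Pd_mono hD (h.1 i), h.2⟩

theorem BP.congr (h : BP D f) (he : ∀ i y, f i y = g i y) : BP D g := by
  obtain rfl : f = g := by ext i y; exact he i y
  exact h

theorem BP.comp (h : BP D f) {κ : Type} (j : κ → ι) : BP D fun k => f (j k) :=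
  ⟨fun k => h.1 (j k), h.2.comp j⟩

theorem BP.mul (h : BP D f) (h' : BP D' g) : BP (D + D') fun i y => f i y * g i y :=
  ⟨fun i => Pd_mul (h.1 i) (h'.1 i), h.2.mul h'.2⟩

theorem BP.const (D : ℕ) {c : ι → ℝ} (L : ℝ) (h : ∀ i, |c i| ≤ L) :
    BP D fun i (_ : E N) => c i := ⟨fun _ => const_mem _ _, BB.const L h⟩

theorem BP.sum {α : Type} (t : Finset α) {F : α → ι → E N → ℝ} (h : ∀ a ∈ t, BP D (F a)) :
    BP D fun i y => ∑ a ∈ t, F a i y :=
  ⟨fun i => Pd_sum t fun a ha => (h a ha).1 i, BB.sum t fun a ha => (h a ha).2⟩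

theorem BP.prod {α : Type} (t : Finset α) {F : α → ι → E N → ℝ} (h : ∀ a ∈ t, BP D (F a)) :
    BP (t.card * D) fun i y => ∏ a ∈ t, F a i y := by
  classical
  induction t using Finset.induction_on with
  | empty => exact (BP.const _ (c := fun _ => 1) 1 fun _ => by simp).congr fun _ _ => by simp
  | insert a t ha ih =>
    refine (((h a (mem_insert_self _ _)).mul (ih fun b hb => h b (mem_insert_of_mem hb))).congr
      fun i y => by rw [prod_insert ha]).mono ?_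
    rw [card_insert_of_notMem ha]; nlinarith

theorem BP.ball (h : BP D f) (R : ℝ) : ∃ C, 0 ≤ C ∧ ∀ i y, ‖y‖ ≤ R → |f i y| ≤ C := by
  obtain ⟨hm, C, h0, h1⟩ := h
  have hK := (Kg_pos N D).le
  refine ⟨Kg N D * C * max 1 R ^ D, by positivity, fun i y hy => ((h1 i).grow (hm i) one_pos y).trans ?_⟩
  have : max 1 (‖y - 0‖ / 1) ≤ max 1 R := max_le_max le_rfl (by simpa using hy)
  gcongr

theorem BP.dil (h : BP D f) {l : ι → ℝ} (B : ℝ) (hl : ∀ i, |l i| ≤ B) :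
    BP D fun i y => f i (l i • y) := by
  refine ⟨fun i => by simpa using Pd_affine (h.1 i) 0 (l i), ?_⟩
  obtain ⟨C, _, h1⟩ := h.ball B
  refine BB.of (C := C) fun i y hy => h1 i _ ?_
  rw [norm_smul, Real.norm_eq_abs]
  exact (mul_le_of_le_one_right (abs_nonneg _) (by simpa using hy)).trans (hl i)

theorem lin_mem (t : Fin N → ℝ) : (fun y => lin t y) ∈ Pd N 1 :=
  Pd_sum univ fun i _ => Pd_smul (t i) (gen_mem (some i))

theorem lin_le {t : Fin N → ℝ} (ht : ∀ l, |t l| ≤ 1) (y : E N) : |lin t y| ≤ N * ‖y‖ := by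
  rw [lin_apply]
  refine (abs_sum_le_sum_abs _ _).trans ((sum_le_card_nsmul _ _ ‖y‖ fun i _ => ?_).trans (by simp))
  rw [abs_mul]
  exact (mul_le_of_le_one_left (abs_nonneg _) (ht i)).trans (PiLp.norm_apply_le y i)

theorem pow_mem {u : E N → ℝ} (hu : u ∈ Pd N 1) (k : ℕ) : (fun y => u y ^ k) ∈ Pd N k := by
  induction k with
  | zero => simpa using const_mem 0 1
  | succ k ih => simpa only [pow_succ] using Pd_mul ih hu

theorem eval_lin_mem {q : ℝ[X]} (hq : q.natDegree ≤ D) (t : Fin N → ℝ) :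
    (fun y => q.eval (lin t y)) ∈ Pd N D := by
  have := Pd_sum (range (D + 1)) (p := fun k y => q.coeff k * lin t y ^ k) fun k hk =>
    Pd_smul _ (Pd_mono (Nat.lt_succ_iff.1 (mem_range.1 hk)) (pow_mem (lin_mem t) k))
  simpa only [eval_eq_sum_range' (Nat.lt_succ_of_le hq)] using this

theorem BP.eval {q : ι → ℝ[X]} {t : ι → Fin N → ℝ} {C : ℝ} (hq : ∀ i, (q i).natDegree ≤ D)
    (hb : ∀ i τ, |τ| ≤ 1 → |(q i).eval τ| ≤ C) (ht : ∀ i l, |t i l| ≤ 1) :
    BP D fun i y => (q i).eval (lin (t i) y) := by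
  refine ⟨fun i => eval_lin_mem (hq i) _, ?_⟩
  obtain ⟨K, _, hK⟩ := coeff_bd D
  refine BB.of (C := K * C * (N + 1) ^ D) fun i y hy => ?_
  have h1 : |lin (t i) y| ≤ N + 1 := by
    have := lin_le (ht i) y
    have h2 : ‖y‖ ≤ 1 := by simpa using hy
    nlinarith [Nat.cast_nonneg (α := ℝ) N]
  refine (eval_bd (hq i) (by simp) h1).trans (mul_le_mul_of_nonneg_right ?_ (by positivity))
  exact hK _ (hq i) C fun τ h0 h1 => hb i τ (by rwa [abs_of_nonneg h0])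

theorem nrm_le {R : ℝ} (hR : 0 < R) {y : E N} {c : ℝ} (h : ‖y‖ ≤ c * R) : ‖R⁻¹ • y‖ ≤ c := by
  rw [norm_smul, Real.norm_of_nonneg (inv_pos.2 hR).le, inv_mul_le_iff₀ hR]
  linarith

theorem BP.tame (h : BP D f) {z p : ι → E N} {r R : ι → ℝ} (hR : ∀ i, 0 < R i)
    (h0 : ∀ i, 0 ≤ r i) (hr : ∀ i, r i ≤ R i) (hz : ∀ i, ‖z i - p i‖ ≤ 2 * R i) :
    T1 d z r fun i y => f i ((R i)⁻¹ • (y - p i)) := by
  obtain ⟨C, _, h1⟩ := h.ball 3
  refine TN.poly (e := D) (fun i => ?_) h0 (fun _ => zero_le_one) (C := C) one_pos fun i y hy => ?_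
  · have := Pd_affine (h.1 i) (-((R i)⁻¹ • p i)) (R i)⁻¹
    simpa only [smul_sub, sub_eq_neg_add, smul_add, smul_neg] using this
  · rw [mul_one]
    refine h1 i _ (nrm_le (hR i) ?_)
    have := norm_sub_le_norm_sub_add_norm_sub y (z i) (p i)
    linarith [hr i, hz i]

theorem BP.low (h : BP D f) {q : ι → E N} (hq : ∀ i, ‖q i‖ ≤ 1) {c : ℝ} (hc : 0 < c)
    (hl : ∀ i, c ≤ |f i (q i)|) : ∃ η, 0 < η ∧ η ≤ 1 ∧ ∀ i u, ‖u - q i‖ ≤ η → c / 2 ≤ |f i u| := by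
  obtain ⟨C, h0, h1⟩ := h.ball 2
  have hK := Kg_pos N D
  refine ⟨min 1 (c / 2 / (Kg N D * (C + 1))), by positivity, min_le_left _ _, fun i u hu => ?_⟩
  have h2 : PB (f i) (q i) 1 C := fun y hy => h1 i y (by
    have := norm_sub_norm_le y (q i)
    linarith [hq i])
  have h3 := h2.lip (h.1 i) one_pos u (hu.trans (min_le_left _ _))
  have h4 := (le_div_iff₀ (by positivity)).1 (hu.trans (min_le_right _ _))
  have h5 := abs_sub_abs_le_abs_sub (f i (q i)) (f i u)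
  rw [abs_sub_comm] at h5
  have h6 := mul_nonneg hK.le (norm_nonneg (u - q i))
  rw [div_one] at h3
  nlinarith [hl i]

theorem inv_abs {x : ι → E N} {r : ι → ℝ} (h : T1 d x r f) {c η : ℝ} (hc : 0 < c) (h0 : 0 < η)
    (hu : ∀ i y, ‖y - x i‖ ≤ η * r i → c ≤ |f i y|) : T1 d x r fun i y => (f i y)⁻¹ := by
  have h1 : T1 d x r fun i y => (f i y * f i y)⁻¹ :=
    T1.inv (h.mul1 h) (mul_pos hc hc) h0 fun i y hy => by
      rw [← abs_mul_abs_self (f i y)]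
      exact mul_le_mul (hu i y hy) (hu i y hy) hc.le (abs_nonneg _)
  refine (h.mul1 h1).congr' fun i y => ?_
  by_cases h2 : f i y = 0
  · simp [h2]
  · field_simp

variable {A V : Type} [Fintype A] [Fintype V] [DecidableEq A] [DecidableEq V]

theorem inv_skew {K : Matrix A A ℝ} (hK : Kᵀ = -K) : (1 - K)⁻¹ = (1 + Kᵀ * K)⁻¹ * (1 - K)ᵀ := by
  refine inv_eq_left_inv ?_
  rw [Matrix.mul_assoc, skew_gram hK]
  exact nonsing_inv_mul _ (isUnit_iff_ne_zero.2 (by linarith [one_le_det_gram K]))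

omit [Fintype A] in
theorem tm_one {x : ι → E N} {r : ι → ℝ} (hr : ∀ i, 0 ≤ r i) :
    TM d x r fun _ _ => (1 : Matrix A A ℝ) :=
  TM.const hr 1 fun _ a b => by rw [one_apply]; split_ifs <;> simp

omit [Fintype V] [DecidableEq A] [DecidableEq V] in
theorem tn_mulVec {x : ι → E N} {r w : ι → ℝ} (hr : ∀ i, 0 ≤ r i) (hw : ∀ i, 0 ≤ w i)
    {K : ι → E N → Matrix V A ℝ} {u : ι → E N → A → ℝ} (h : TM d x r K)
    (h' : ∀ a, TN d true x r (fun i y => u i y a) w) (v : V) :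
    TN d true x r (fun i y => (K i y *ᵥ u i y) v) w :=
  TN.sum univ hr hw fun a _ => (h v a).mul1 (h' a)

theorem relU_skew {x : ι → E N} {r : ι → ℝ} (hr : ∀ i, 0 ≤ r i) {a : ι → A → E N → ℝ}
    {b : ι → V → E N → ℝ} {K : ι → E N → Matrix (A ⊕ V) (A ⊕ V) ℝ}
    (hK : ∀ i y, (K i y)ᵀ = -K i y) (tK : TM d x r K)
    (he : ∀ z, TN d true x r (fun i y => (K i y *ᵥ Sum.elim (fun w => a i w y) (fun v => b i v y) -
      Sum.elim (-fun w => a i w y) fun v => b i v y) z) fun i => r i ^ s) :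
    RelU d s x r a b fun i y => (cayE (K i y)).toBlocks₂₁ := by
  have hw : ∀ i, 0 ≤ r i ^ s := fun i => Real.rpow_nonneg (hr i) s
  have t1 : TM d x r fun i y => (1 - K i y)⁻¹ :=
    (TM.mul hr (TM.inv hr ((tm_one hr).add (TM.mul hr tK.tr tK)) one_pos one_pos
      fun i y _ => one_le_det_gram _) ((tm_one hr).sub tK).tr).congr fun i y => (inv_skew (hK i y)).symm
  have t2 : TM d x r fun i y => cayE (K i y) := TM.mul hr t1 ((tm_one hr).add tK)
  have t3 : ∀ z, TN d true x r (fun i y => (cayE (K i y) *ᵥ Sum.elim (fun w => a i w y) (0 : V → ℝ) -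
      Sum.elim (0 : A → ℝ) fun v => b i v y) z) fun i => r i ^ s := fun z =>
    (tn_mulVec hr hw t1 he z).congr' fun i y => by rw [cay_block (hK i y)]
  refine ⟨fun v w => t2 _ _, fun v => (t3 (Sum.inr v)).congr' fun i y => ?_,
    fun w => (tn_mulVec hr hw t2.tr t3 (Sum.inl w)).neg.congr' fun i y => ?_⟩
  · simp [mulVec, dotProduct, toBlocks₂₁]
  · rw [mulVec_sub, mulVec_mulVec, cayE_orth (hK i y), one_mulVec]
    simp [mulVec, dotProduct, toBlocks₂₁]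

omit [DecidableEq A] [DecidableEq V] in
theorem alg1 {μ ν : ℝ} (hμ : μ ≠ 0) (hν : ν ≠ 0) (c t : ℝ) (T Y : A → ℝ) (S W : V → ℝ) :
    μ⁻¹ * (ν⁻¹ * ((ν * (μ * t - ∑ v, W v * S v) - ∑ b, Y b * T b) * c)) =
      ∑ b, -(μ⁻¹ * (ν⁻¹ * Y b)) * (c * T b) + ∑ v, -(μ⁻¹ * W v) * (c * S v) - -(c * t) := by
  have h1 : ∑ b, -(μ⁻¹ * (ν⁻¹ * Y b)) * (c * T b) = -(μ⁻¹ * ν⁻¹ * c) * ∑ b, Y b * T b := by
    rw [mul_sum]; exact sum_congr rfl fun _ _ => by ring
  have h2 : ∑ v, -(μ⁻¹ * W v) * (c * S v) = -(μ⁻¹ * c) * ∑ v, W v * S v := by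
    rw [mul_sum]; exact sum_congr rfl fun _ _ => by ring
  rw [h1, h2]
  field_simp
  ring

omit [DecidableEq A] in
theorem alg2 {μ : ℝ} (hμ : μ ≠ 0) (c t : ℝ) (T W : A → ℝ) :
    -(μ⁻¹ * ((μ * t - ∑ a, W a * T a) * c)) = ∑ a, μ⁻¹ * W a * (c * T a) - c * t := by
  have h1 : ∑ a, μ⁻¹ * W a * (c * T a) = μ⁻¹ * c * ∑ a, W a * T a := by
    rw [mul_sum]; exact sum_congr rfl fun _ _ => by ring
  rw [h1]
  field_simp
  ring

theorem scl_back {R : ℝ} (hR : 0 < R) (p y : E N) (F : E N → ℝ) :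
    F y = R ^ s * scl s R p F (R⁻¹ • (y - p)) := by
  have := (Real.rpow_pos_of_pos hR s).ne'
  rw [scl, smul_smul, mul_inv_cancel₀ hR.ne', one_smul, add_sub_cancel]
  field_simp

theorem relB_poly (hs : 0 ≤ s) {x p : ι → E N} {ρ R : ι → ℝ} {B : ℝ} (hρ : ∀ i, 0 < ρ i)
    (h1 : ∀ i, ρ i ≤ R i) (h2 : ∀ i, R i ≤ B * ρ i) (hx : ∀ i, ‖x i - p i‖ ≤ ρ i)
    {T : ι → A → E N → ℝ} {S : ι → V → E N → ℝ} {μ ν : ι → E N → ℝ} {W : V → A → ι → E N → ℝ}
    {X : A → A → ι → E N → ℝ} (hμ : BP D μ) (hν : BP D ν) (hW : ∀ v a, BP D (W v a))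
    (hX : ∀ a b, BP D (X a b)) {c : ℝ} (hc : 0 < c)
    (lμ : ∀ i, c ≤ |μ i ((R i)⁻¹ • (x i - p i))|) (lν : ∀ i, c ≤ |ν i ((R i)⁻¹ • (x i - p i))|)
    (e1 : ∀ v, BP D fun i y => μ i y * scl s (R i) (p i) (S i v) y -
      ∑ a, W v a i y * scl s (R i) (p i) (T i a) y)
    (e2 : ∀ a, BP D fun i y => ν i y * (μ i y * scl s (R i) (p i) (T i a) y -
      ∑ v, W v a i y * scl s (R i) (p i) (S i v) y) -
        ∑ b, (X a b i y - X b a i y) * scl s (R i) (p i) (T i b) y) :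
    ∃ U, RelB d s x ρ T S U := by
  have hR : ∀ i, 0 < R i := fun i => (hρ i).trans_le (h1 i)
  have hq : ∀ i, ‖(R i)⁻¹ • (x i - p i)‖ ≤ 1 := fun i => nrm_le (hR i) (by linarith [hx i, h1 i])
  obtain ⟨η₁, p1, l1, m1⟩ := hμ.low hq hc lμ
  obtain ⟨η₂, p2, _, m2⟩ := hν.low hq hc lν
  set η := min η₁ η₂ / 2 with hη
  have p0 : 0 < η := by positivity
  have a1 : 2 * η ≤ η₁ := by rw [hη]; linarith [min_le_left η₁ η₂]
  have a2 : 2 * η ≤ η₂ := by rw [hη]; linarith [min_le_right η₁ η₂]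
  let u : ι → E N → E N := fun i y => (R i)⁻¹ • (y - p i)
  have hr : ∀ k : Nb x ρ η, 0 ≤ ρ k.1.1 := fun k => (hρ _).le
  have tm : ∀ {F : ι → E N → ℝ}, BP D F → T1 d (fun k : Nb x ρ η => k.1.2) (fun k => ρ k.1.1)
      fun k y => F k.1.1 (u k.1.1 y) := fun {F} hF =>
    (hF.comp fun k : Nb x ρ η => k.1.1).tame (fun k => hR _) hr (fun k => h1 _) fun k => by
      have := norm_sub_le_norm_sub_add_norm_sub k.1.2 (x k.1.1) (p k.1.1)
      have h3 := k.2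
      have h4 : η * ρ k.1.1 ≤ 1 * ρ k.1.1 := mul_le_mul_of_nonneg_right (by linarith) (hr k)
      linarith [hx k.1.1, h1 k.1.1]
  have nr : ∀ (k : Nb x ρ η) y, ‖y - k.1.2‖ ≤ η * ρ k.1.1 →
      ‖u k.1.1 y - (R k.1.1)⁻¹ • (x k.1.1 - p k.1.1)‖ ≤ 2 * η := fun k y hy => by
    rw [← smul_sub, sub_sub_sub_cancel_right]
    refine nrm_le (hR _) ?_
    have := norm_sub_le_norm_sub_add_norm_sub y k.1.2 (x k.1.1)
    have h3 := k.2
    have h4 := mul_le_mul_of_nonneg_left (h1 k.1.1) p0.le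
    linarith
  have n1 := fun (k : Nb x ρ η) y hy => m1 k.1.1 _ ((nr k y hy).trans a1)
  have n2 := fun (k : Nb x ρ η) y hy => m2 k.1.1 _ ((nr k y hy).trans a2)
  have i1 := inv_abs (tm hμ) (half_pos hc) p0 n1
  have i2 := inv_abs (tm hν) (half_pos hc) p0 n2
  have ts : TN d true (fun k : Nb x ρ η => k.1.2) (fun k => ρ k.1.1) (fun k _ => R k.1.1 ^ s)
      fun k => ρ k.1.1 ^ s := by
    refine (TN.const hr (w := fun k => R k.1.1 ^ s) fun k =>
      (abs_of_pos (Real.rpow_pos_of_pos (hR _) s)).le).mono_w (max B 0 ^ s) (fun k => ?_)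
      fun k => Real.rpow_nonneg (hr k) s
    rw [← Real.mul_rpow (le_max_right _ _) (hr k)]
    exact Real.rpow_le_rpow (hR _).le
      ((h2 _).trans (mul_le_mul_of_nonneg_right (le_max_left _ _) (hr k))) hs
  let K : ι → E N → Matrix (A ⊕ V) (A ⊕ V) ℝ := fun i y => fromBlocks
    (of fun a b => -((μ i (u i y))⁻¹ * ((ν i (u i y))⁻¹ * (X a b i (u i y) - X b a i (u i y)))))
    (of fun a v => -((μ i (u i y))⁻¹ * W v a i (u i y)))
    (of fun v a => (μ i (u i y))⁻¹ * W v a i (u i y)) 0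
  refine ⟨fun i y => (cayE (K i y)).toBlocks₂₁, η, p0, relU_skew hr (fun k y => ?_) ?_ ?_⟩
  · ext (a | a) (b | b) <;> simp [K]
    ring
  · rintro (a | a) (b | b)
    · exact (i1.mul1 (i2.mul1 ((tm (hX a b)).sub (tm (hX b a))))).neg
    · exact (i1.mul1 (tm (hW b a))).neg
    · exact i1.mul1 (tm (hW a b))
    · exact T1.c hr 0
  · rintro (a | v)
    · refine (i1.mul1 (i2.mul1 ((tm (e2 a)).mul1 ts))).congr p0 fun k y hy => ?_
      have b1 : μ k.1.1 (u k.1.1 y) ≠ 0 := abs_pos.1 ((half_pos hc).trans_le (n1 k y hy))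
      have b2 : ν k.1.1 (u k.1.1 y) ≠ 0 := abs_pos.1 ((half_pos hc).trans_le (n2 k y hy))
      simp only [K, Pi.sub_apply, mulVec, dotProduct, Fintype.sum_sum_type, fromBlocks_apply₁₁,
        fromBlocks_apply₁₂, of_apply, Sum.elim_inl, Sum.elim_inr, Pi.neg_apply,
        fun a => scl_back (s := s) (hR k.1.1) (p k.1.1) y (T k.1.1 a),
        fun a => scl_back (s := s) (hR k.1.1) (p k.1.1) y (S k.1.1 a)]
      exact alg1 b1 b2 _ _ _ _ _ _
    · refine (i1.mul1 ((tm (e1 v)).mul1 ts)).neg.congr p0 fun k y hy => ?_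
      have b1 : μ k.1.1 (u k.1.1 y) ≠ 0 := abs_pos.1 ((half_pos hc).trans_le (n1 k y hy))
      simp only [K, Pi.sub_apply, mulVec, dotProduct, Fintype.sum_sum_type, fromBlocks_apply₂₁,
        fromBlocks_apply₂₂, of_apply, Sum.elim_inl, Sum.elim_inr, Matrix.zero_apply, zero_mul,
        sum_const_zero, add_zero,
        fun a => scl_back (s := s) (hR k.1.1) (p k.1.1) y (T k.1.1 a),
        fun a => scl_back (s := s) (hR k.1.1) (p k.1.1) y (S k.1.1 a)]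
      exact alg2 b1 _ _ _ _

end Pool.Agent.CA9.UB.LSa
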