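import Pool.Agent.Lib.MP_ca9be0_an.UB.LSat
import Pool.Agent.Lib.MP_ca9be0_an.UB.La1

/-! The two saturation steps of Lemma S. -/

namespace Pool.Agent.CA9.UB.LSa

open Finset Matrix Polynomial Pool.Agent.Lib.MP_ca9be0_an.PyF

variable {N n M m d e j : ℕ} {s : ℝ}

theorem margin_move {G : Gg M N j} (H : Hs d s) (hG : IsGauge d e G) (g : Fin M → CF N d s)
    {R : ℝ} (hR : 1 ≤ R) : ∃ c, 0 < c ∧ ∀ ε x p ρ ρ', 0 ≤ ε → 0 < ρ → ‖x - p‖ ≤ ρ → ρ ≤ ρ' →
      ρ' ≤ R * ρ → ε * fb G g x ρ ≤ fa G g x ρ →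
      c * ε * gb G (nj g p ρ') ≤ gaAt G (nj g p ρ') (ρ'⁻¹ • (x - p)) := by
  obtain ⟨C₁, c1, h1⟩ := hG.cb H g R hR
  obtain ⟨C₂, c2, h2⟩ := hG.move H g R hR
  refine ⟨(C₁ * C₂)⁻¹, by positivity, fun ε x p ρ ρ' hε hρ hx l1 l2 hm => ?_⟩
  have a1 : ρ ≤ R * ρ' := by nlinarith
  have a2 : ‖x - p‖ ≤ R * ρ' := hx.trans a1
  have b1 : gb G (nj g p ρ') ≤ C₁ * fb G g x ρ := h1 x p ρ ρ' hρ (by nlinarith) a1 l2
  have b2 : fa G g x ρ ≤ C₂ * gaAt G (nj g p ρ') (ρ'⁻¹ • (x - p)) := gaAt_le fun v hv => by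
    have := h2 p x ρ' ρ x v (hρ.trans_le l1) (by rwa [norm_sub_rev]) l2 a1 a2 (hv.trans hR)
    rw [sub_self, smul_zero] at this
    exact this.trans (mul_le_mul_of_nonneg_left (hG.le_gaAt (nj_PV g p ρ') _ hv) c2.le)
  rw [mul_assoc, inv_mul_le_iff₀ (by positivity), mul_assoc]
  calc _ ≤ ε * (C₁ * fb G g x ρ) := mul_le_mul_of_nonneg_left b1 hε
    _ = C₁ * (ε * fb G g x ρ) := by ring
    _ ≤ _ := mul_le_mul_of_nonneg_left (hm.trans b2) c1.le

/-- the tensor of the ideal -/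
def phI (M : ℕ) : Unit → Fin M → Fin M → ℝ := fun _ k w => if k = w then 1 else 0

/-- the tensor of the module of trivial relations -/
def phK (M : ℕ) : Fin M → Fin M × Fin M → Fin M → ℝ := fun a k w =>
  (if a = k.1 then (if k.2 = w then 1 else 0) else 0) -
    if a = k.2 then (if k.1 = w then 1 else 0) else 0

theorem modL_I (T : Fin M → E N → ℝ) (u : Unit) (k : Fin M) (y : E N) :
    modL (phI M) T u k y = T k y := by
  simp [modL, phI]

theorem modL_K (T : Fin M → E N → ℝ) (a : Fin M) (y : E N) (X : Fin M × Fin M → ℝ) :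
    ∑ k, modL (phK M) T a k y * X k = ∑ b, (X (a, b) - X (b, a)) * T b y := by
  have h : ∀ k, modL (phK M) T a k y =
      (if a = k.1 then T k.2 y else 0) - if a = k.2 then T k.1 y else 0 := fun k => by
    simp only [modL, phK, sub_mul, sum_sub_distrib]
    split_ifs <;> simp
  simp only [h, sub_mul, sum_sub_distrib, Fintype.sum_prod_type, ite_mul, zero_mul]
  rw [sum_comm]
  simp [mul_comm]

theorem scl_dil {ρ ρ' : ℝ} (hρ : 0 < ρ) (hρ' : 0 < ρ') (p y : E N) (F : E N → ℝ) :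
    scl s ρ' p F y = ρ ^ s / ρ' ^ s * scl s ρ p F ((ρ' / ρ) • y) := by
  have h1 := (Real.rpow_pos_of_pos hρ s).ne'
  have h2 := (Real.rpow_pos_of_pos hρ' s).ne'
  rw [scl, scl, smul_smul, mul_div_cancel₀ _ hρ.ne']
  field_simp

theorem alg3 {A V : Type} [Fintype A] [Fintype V] (δ μ : ℝ) (T : A → ℝ) (S : V → ℝ)
    (U W : V → A → ℝ) (a : A) :
    μ * (δ * T a - ∑ v, U v a * S v) + ∑ v, U v a * (μ * S v - ∑ b, W v b * T b) -
      ∑ v, W v a * (δ * S v - ∑ b, U v b * T b) = δ * (μ * T a - ∑ v, W v a * S v) -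
        ∑ b, (∑ v, U v a * W v b - ∑ v, U v b * W v a) * T b := by
  have h1 : ∑ b, (∑ v, U v a * W v b) * T b = ∑ v, U v a * ∑ b, W v b * T b := by
    simp only [sum_mul, mul_sum]; rw [sum_comm]
    exact sum_congr rfl fun _ _ => sum_congr rfl fun _ _ => by ring
  have h2 : ∑ b, (∑ v, U v b * W v a) * T b = ∑ v, W v a * ∑ b, U v b * T b := by
    simp only [sum_mul, mul_sum]; rw [sum_comm]
    exact sum_congr rfl fun _ _ => sum_congr rfl fun _ _ => by ring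
  have h3 : ∑ v, U v a * (μ * S v) = μ * ∑ v, U v a * S v := by
    rw [mul_sum]; exact sum_congr rfl fun _ _ => by ring
  have h4 : ∑ v, W v a * (δ * S v) = δ * ∑ v, W v a * S v := by
    rw [mul_sum]; exact sum_congr rfl fun _ _ => by ring
  simp only [sub_mul, mul_sub, sum_sub_distrib, h1, h2, h3, h4]
  ring

/-- the data of a family of polynomial relations -/
theorem prel_fam {ι : Type} {D : ℕ} {C : ℝ} {t : ι → Fin N → ℝ} (ht : ∀ i l, |t i l| ≤ 1)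
    {S : ι → Fin m → E N → ℝ} {T : ι → Fin M → E N → ℝ}
    (h : ∀ i, PRel D C (lin (t i)) (S i) (T i)) :
    ∃ (δ : ι → ℝ[X]) (U : Fin m → Fin M → ι → E N → ℝ), (∀ i, (δ i).natDegree ≤ D) ∧
      (∀ i τ, |τ| ≤ 1 → |(δ i).eval τ| ≤ 1) ∧ (∀ i, ∃ τ : ℝ, |τ| ≤ 1 ∧ (δ i).eval τ = 1) ∧
      (∀ v w, BP D (U v w)) ∧
      (∀ v, BB fun i y => (δ i).eval (lin (t i) y) * S i v y - ∑ w, U v w i y * T i w y) ∧
      ∀ w, BB fun i y => (δ i).eval (lin (t i) y) * T i w y - ∑ v, U v w i y * S i v y := by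
  choose δ U h1 h2 h3 h4 h5 h6 h7 using h
  exact ⟨δ, fun v w i y => (U i v w).eval (lin (t i) y), h1,
    fun i τ hτ => by rw [abs_of_pos (h4 i τ)]; exact (h5 i τ hτ).1, h3,
    fun v w => BP.eval (fun i => h2 i v w) (fun i τ hτ => (h5 i τ hτ).2 v w) ht,
    fun v => BB.of fun i => h6 i v, fun w => BB.of fun i => h7 i w⟩

/-- a common multiplier -/
theorem common {ι : Type} {D : ℕ} {S : ι → Fin m → E N → ℝ} {T : ι → Fin M → E N → ℝ}
    {q : ι → E N} {μ : ι × Fin m → E N → ℝ} {w : Fin M → ι × Fin m → E N → ℝ} {c : ℝ}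
    (hμ : BP D μ) (hc : 0 < c) (hl : ∀ k, c ≤ |μ k (q k.1)|) (hw : ∀ a, BP D (w a))
    (he : BB fun (k : ι × Fin m) y => μ k y * S k.1 k.2 y - ∑ a, T k.1 a y * w a k y) :
    ∃ (μ' : ι → E N → ℝ) (W : Fin m → Fin M → ι → E N → ℝ), BP ((m + 1) * D) μ' ∧
      (∀ i, c ^ m ≤ |μ' i (q i)|) ∧ (∀ v a, BP ((m + 1) * D) (W v a)) ∧
      ∀ v, BB fun i y => μ' i y * S i v y - ∑ a, W v a i y * T i a y := by
  have hp : ∀ t : Finset (Fin m), BP (m * D) fun i y => ∏ v ∈ t, μ (i, v) y := fun t =>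
    (BP.prod t fun v _ => hμ.comp fun i => (i, v)).mono
      (Nat.mul_le_mul_right _ (by simpa using card_le_univ t))
  refine ⟨fun i y => ∏ v, μ (i, v) y, fun v a i y => (∏ v' ∈ univ.erase v, μ (i, v') y) * w a (i, v) y,
    (hp _).mono (by nlinarith), fun i => ?_,
    fun v a => ((hp _).mul ((hw a).comp fun i => (i, v))).mono (by nlinarith),
    fun v => ((hp (univ.erase v)).2.mul (he.comp fun i => (i, v))).congr fun i y => ?_⟩
  · rw [abs_prod]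
    simpa using prod_le_prod (s := univ) (f := fun _ : Fin m => c) (fun _ _ => hc.le)
      fun v _ => hl (i, v)
  · beta_reduce
    rw [← prod_erase_mul univ _ (mem_univ v), mul_sub, mul_sum]
    exact congrArg₂ _ (by ring) (sum_congr rfl fun _ _ => by ring)

/-- the choice of the direction -/
theorem exists_pen (n Q Q' : ℕ) : ∃ η : ℝ, 0 < η ∧ ∀ (P : Finset (E (n + 1)))
    (Gs : E (n + 1) → Finset (Fin (n + 1) → ℂ)), P.card ≤ Q → (∀ p, (Gs p).card ≤ Q') →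
    ∃ t : Fin (n + 1) → ℝ, (∀ l, |t l| ≤ 1) ∧ Pen (n + 1) (lin t) (EuclideanSpace.single 0 1) ∧
      (∀ p ∈ P, ∀ q ∈ P, η / (n + 1) * ‖p - q‖ ≤ |lin t (p - q)|) ∧
      ∀ p ∈ P, ∀ w ∈ Gs p, η * ‖w‖ ≤ ‖∑ l, (t l : ℂ) * w l‖ := by
  classical
  obtain ⟨η, hη, h⟩ := exists_dir (n + 1) (Q * Q + Q * Q')
  refine ⟨η, hη, fun P Gs hP hG => ?_⟩
  obtain ⟨a, a0, a1, ha⟩ := h (((P ×ˢ P).image fun z l => (((z.1 - z.2) l : ℝ) : ℂ)) ∪ P.biUnion Gs)
    ((card_union_le _ _).trans (add_le_add (card_image_le.trans (by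
      rw [card_product]; exact Nat.mul_le_mul hP hP))
      ((card_biUnion_le_card_mul _ _ _ fun p _ => hG p).trans (Nat.mul_le_mul_right _ hP))))
  have ht : ∀ l : Fin (n + 1), |a ^ (l : ℕ)| ≤ 1 := fun l => by
    rw [abs_of_nonneg (pow_nonneg a0 _)]; exact pow_le_one₀ a0 a1
  refine ⟨fun l => a ^ (l : ℕ), ht, ⟨?_, ?_, fun y => ?_⟩, fun p hp q hq => ?_, fun p hp w hw => ?_⟩
  · simp [lin_apply, Fin.sum_univ_succ]
  · simp
  · simpa using lin_le ht y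
  · have h1 := ha _ (mem_union_left _ (mem_image_of_mem _ (mk_mem_product hp hq)))
    have h2 : ‖p - q‖ ≤ (n + 1) * ‖fun l => (((p - q) l : ℝ) : ℂ)‖ := by
      have h3 : ∀ l, |(p - q) l| ≤ ‖fun l => (((p - q) l : ℝ) : ℂ)‖ := fun l => by
        simpa only [Complex.norm_real, Real.norm_eq_abs] using
          norm_le_pi_norm (fun l => (((p - q) l : ℝ) : ℂ)) l
      refine abs_le_of_sq_le_sq' ?_ (by positivity) |>.2
      rw [EuclideanSpace.norm_sq_eq]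
      refine (sum_le_card_nsmul _ _ (‖fun l => (((p - q) l : ℝ) : ℂ)‖ ^ 2) fun l _ =>
        pow_le_pow_left₀ (norm_nonneg _) (h3 l) 2).trans ?_
      simp only [card_univ, Fintype.card_fin, nsmul_eq_mul, mul_pow]
      push_cast
      exact mul_le_mul_of_nonneg_right (by nlinarith [Nat.cast_nonneg (α := ℝ) n]) (sq_nonneg _)
    have h4 : ((lin (fun l : Fin (n + 1) => a ^ (l : ℕ)) (p - q) : ℝ) : ℂ) =
        ∑ l : Fin (n + 1), (a : ℂ) ^ (l : ℕ) * (((p - q) l : ℝ) : ℂ) := by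
      rw [lin_apply]; push_cast; rfl
    rw [← h4, Complex.norm_real, Real.norm_eq_abs] at h1
    refine le_trans ?_ h1
    rw [div_mul_eq_mul_div, div_le_iff₀ (by positivity), mul_assoc]
    exact mul_le_mul_of_nonneg_left (by linarith) hη.le
  · simpa only [Complex.ofReal_pow] using ha w (mem_union_right _ (mem_biUnion.2 ⟨p, hp, hw⟩))

end Pool.Agent.CA9.UB.LSa
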