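import Pool.Agent.Lib.MP_ca9be0_an.UB.La2

/-! One direction is good at a cofinal set of scales. -/

namespace Pool.Agent.CA9.UB

open Finset Polynomial

variable {σ : Type} [Fintype σ]

/-- candidates for the roots of the node polynomials -/
abbrev RT (σ : Type) := ∀ k : ℕ, (σ → ℝ) → (Fin (k + 1) → σ → ℝ) → Fin (k + 1) → Finset ℂ

/-- tuples of candidates -/
noncomputable def cdB (T : RT σ) : ∀ k : ℕ, (σ → ℝ) → (Fin k → σ → ℝ) → Finset (Fin k → ℂ)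
  | 0, _, _ => {0}
  | k + 1, ξ, v => Fintype.piFinset (T k ξ v)

open Classical in
/-- the candidate points of all children -/
noncomputable def cdC (T : RT σ) (G k : ℕ) (ξ : σ → ℝ) (v : Fin (k + 1) → σ → ℝ) : Finset (σ → ℂ) :=
  univ.biUnion fun z : Fin (k + 1) × Fin (G + 1) =>
    (cdB T k (ξ + gv G z.2 • v z.1) (z.1.removeNth v)).image
      (cpt (ξ + gv G z.2 • v z.1) (z.1.removeNth v))

open Classical in
/-- the vectors to be avoided -/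
noncomputable def cdG (o : σ) (T : RT σ) (G k : ℕ) (ξ : σ → ℝ) (v : Fin (k + 1) → σ → ℝ) :
    Finset (σ → ℂ) :=
  (cdC T G k ξ v).image (fun x => Function.update x o 0) ∪
    (cdC T G k ξ v ×ˢ cdC T G k ξ v).image fun y => y.2 o • y.1 - y.1 o • y.2

theorem cdG_card (o : σ) (G : ℕ) (q : ℕ → ℕ) : ∃ Q : ℕ → ℕ, ∀ T : RT σ,
    (∀ k ξ v i, (T k ξ v i).card ≤ q k) → ∀ k ξ v, (cdG o T G k ξ v).card ≤ Q k := by
  classical
  let q' : ℕ → ℕ := fun k => (k + 1) * (G + 1) * q (k - 1) ^ k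
  refine ⟨fun k => q' k + q' k * q' k, fun T hT k ξ v => ?_⟩
  have h1 : ∀ ξ v, (cdB T k ξ v).card ≤ q (k - 1) ^ k := fun ξ v => by
    cases k with
    | zero => simp [cdB]
    | succ k =>
      rw [cdB, Fintype.card_piFinset]
      exact (prod_le_pow_card _ _ _ fun i _ => hT k ξ v i).trans (by simp)
  have h2 : (cdC T G k ξ v).card ≤ q' k :=
    (card_biUnion_le_card_mul _ _ _ fun z _ => card_image_le.trans (h1 _ _)).trans (by simp [q'])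
  refine (card_union_le _ _).trans (add_le_add (card_image_le.trans h2) (card_image_le.trans ?_))
  rw [card_product]
  exact Nat.mul_le_mul h2 h2

theorem cdG_zero {o : σ} {T : RT σ} {G k : ℕ} {ξ : σ → ℝ} {v : Fin (k + 1) → σ → ℝ} {w : σ → ℂ}
    (h : w ∈ cdG o T G k ξ v) : w o = 0 := by
  classical
  rcases mem_union.1 h with h | h <;> obtain ⟨x, -, rfl⟩ := mem_image.1 h
  · simp
  · simp [mul_comm]

/-- the form is small at a bounded candidate point -/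
def Hit (o : σ) (T : RT σ) (t : σ → ℝ) (A η : ℝ) (k : ℕ) (ξ : σ → ℝ) (v : Fin k → σ → ℝ) (z : ℂ) :
    Prop := ∃ β ∈ cdB T k ξ v, ‖β‖ ≤ A ∧ ‖lf o t z (cpt ξ v β)‖ < η

open Classical in
theorem many_unhit (o : σ) (G : ℕ) {R R₀ A η₁ : ℝ} (hR : 0 < R) (hR₀ : 0 < R₀) (hA : 1 ≤ A)
    (h₁ : 0 < η₁) : ∃ η : ℝ, 0 < η ∧ ∀ (T : RT σ) (t : σ → ℝ) (Z : Finset ℂ) (k : ℕ) (ξ : σ → ℝ)
      (v : Fin (k + 1) → σ → ℝ) (i : Fin (k + 1)) (p : Fin (G + 1) → Prop), t o = 0 →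
      (∀ z ∈ Z, ‖z‖ ≤ R₀) → Fr R ξ v → (∀ w ∈ cdG o T G k ξ v, η₁ * ‖w‖ ≤ ‖ap t w‖) →
      (∀ b, (∀ z ∈ Z, ¬ Hit o T t A η k (ξ + gv G b • v i) (i.removeNth v) z) → p b) →
      G + 1 ≤ (univ.filter p).card + Z.card := by
  obtain ⟨η, η0, hη⟩ := sib o G hR hR₀ (by positivity : 0 < A * R) h₁
  refine ⟨η, η0, fun T t Z k ξ v i p ht hZ hF hG hp => ?_⟩
  have h1 : ∀ b ∈ univ.filter fun b => ¬ p b, ∃ z ∈ Z,
      Hit o T t A η k (ξ + gv G b • v i) (i.removeNth v) z := fun b hb => by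
    by_contra c
    push Not at c
    exact (mem_filter.1 hb).2 (hp b c)
  choose! f f1 f2 using h1
  have h2 := card_le_card_of_injOn f f1 fun b hb b' hb' e => by
    by_contra c
    obtain ⟨β, b1, b2, b3⟩ := f2 b hb
    obtain ⟨β', c1, c2, c3⟩ := f2 b' hb'
    have m : ∀ {b : Fin (G + 1)} {β}, β ∈ cdB T k (ξ + gv G b • v i) (i.removeNth v) →
        cpt (ξ + gv G b • v i) (i.removeNth v) β ∈ cdC T G k ξ v := fun {b β} h =>
      mem_biUnion.2 ⟨(i, b), mem_univ _, mem_image_of_mem _ h⟩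
    have n := fun b => hF.child i (gv_nonneg G b) (gv_le G b)
    obtain ⟨-, l₀, l, a1, a2, a3, a4, a5, a6⟩ := hF
    refine hη t l₀ (l i) (f b) _ _ (gv G b) (gv G b') ht (hZ _ (f1 b hb)) (cpt_le (n b) b2 hA)
      (cpt_le (n b') c2 hA) a1 (a2 i) ?_ ?_ ?_ ?_ (by rw [abs_of_nonneg (gv_nonneg G b)]; exact gv_le G b)
      (gv_sep c) (hG _ (mem_union_left _ (mem_image_of_mem _ (m b1))))
      (hG _ (mem_union_right _ (mem_image.2 ⟨(_, _), mem_product.2 ⟨m b1, m c1⟩, rfl⟩))) b3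
      (e ▸ c3) <;> simp [ap_cpt, Fin.removeNth, a3, a4, a5, a6, (Fin.succAbove_ne i _).symm]
  have h3 := card_filter_add_card_filter_not (s := univ) p
  rw [card_univ, Fintype.card_fin] at h3
  omega

open Classical in
theorem lambda_lemma (o : σ) (Ex : Finset ℝ) (e e' : ℕ → ℕ) (G a k : ℕ)
    (hG : ∀ j ≤ k, e' j + a ≤ G) (Un : Finset ((σ → ℝ) × (Fin (k + 1) → σ → ℝ))) {R c R₀ : ℝ}
    (hc : 0 < c) (hR : 0 < R) (hR₀ : 0 < R₀) (hUn : ∀ Ξ ∈ Un, Fr R Ξ.1 Ξ.2) :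
    ∃ Q : ℕ, ∀ η₁ : ℝ, 0 < η₁ → ∃ B η : ℝ, 1 ≤ B ∧ 0 < η ∧ ∀ p : ℝ → NP σ,
      (∀ x, ∀ j ≤ k, ∀ ξ v i, (p x j ξ v i).natDegree ≤ e j) →
      ∃ Gs : Finset (σ → ℂ), Gs.card ≤ Q ∧ (∀ w ∈ Gs, w o = 0) ∧ ∀ ρ : ℝ, 0 < ρ →
        ∃ ρ' : ℝ, ρ ≤ ρ' ∧ ρ' ≤ B * ρ ∧ ∀ P : NP σ,
          (∀ j ≤ k, ∀ ξ v i, P j ξ v i = ∑ x ∈ Ex, ρ' ^ x • p x j ξ v i) →
          ∀ t : σ → ℝ, t o = 0 → ∑ s, |t s| ≤ R₀ →
          (∀ w ∈ Gs, η₁ * ‖w‖ ≤ ‖∑ s, (t s : ℂ) * w s‖) →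
          ∀ Z : Finset ℂ, Z.card ≤ a → (∀ z ∈ Z, ‖z‖ ≤ R₀) → ∀ Ξ ∈ Un, ∀ i,
            (∀ b, AllN G (fun j ξ v => ∀ i, Top c (e j) (P j ξ v i)) k (Ξ.1 + gv G b • Ξ.2 i)
              (i.removeNth Ξ.2)) →
            e' k < (univ.filter fun b : Fin (G + 1) => Good P (lf o t) Z η c G e e' k
              (Ξ.1 + gv G b • Ξ.2 i) (i.removeNth Ξ.2)).card := by
  obtain ⟨q, hq⟩ := cdG_card o G fun j => Ex.card * e j
  obtain ⟨Q, hQ⟩ := collect (σ := σ) (α := σ → ℂ) G q (k + 1)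
  obtain ⟨Q', hQ'⟩ := collect (σ := σ) (α := ℝ) G (fun j => (j + 1) * Ex.card ^ 2) (k + 1)
  choose R1 R11 hR1 using fun j => root_near (e j) hc
  have s0 : 0 ≤ ∑ j ∈ range (k + 1), R1 j := sum_nonneg fun j _ => zero_le_one.trans (R11 j)
  set A := ∑ j ∈ range (k + 1), R1 j + 1 with hA
  refine ⟨Un.card * Q, fun η₁ h₁ => ?_⟩
  obtain ⟨η, η0, hη⟩ := many_unhit o G hR hR₀ (by linarith : 1 ≤ A) h₁
  set η₀ := min 1 (η / (4 * R₀ * R)) with hη₀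
  have η₀0 : 0 < η₀ := by positivity
  have η₀1 : η₀ * (4 * R₀ * R) ≤ η := (le_div_iff₀ (by positivity)).1 (min_le_right _ _)
  choose δ δ0 hδ using fun j => hR1 j η₀ η₀0
  obtain ⟨j₀, -, hj₀⟩ := exists_min_image (range (k + 1)) δ nonempty_range_add_one
  obtain ⟨b₀, b0, hb⟩ := dom_term Ex (δ := δ j₀ / (Ex.card + 1)) (by have := δ0 j₀; positivity)
  obtain ⟨B, B1, hB⟩ := off_cross (Un.card * Q') b0
  refine ⟨B, η / 2, B1, by positivity, fun p hp => ?_⟩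
  let T : RT σ := fun j ξ v i =>
    if j ≤ k then Ex.biUnion fun x => ((p x j ξ v i).aroots ℂ).toFinset else ∅
  have hT : ∀ j ξ v i, (T j ξ v i).card ≤ Ex.card * e j := fun j ξ v i => by
    by_cases h : j ≤ k
    · simp only [T, if_pos h]
      refine card_biUnion_le_card_mul _ _ _ fun x _ => (Multiset.toFinset_card_le _).trans ?_
      rw [IsAlgClosed.card_aroots_eq_natDegree]
      exact hp x j h ξ v i
    · simp [T, h]
  choose S S1 S2 S3 using hQ (cdG o T G) (hq T hT)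
  choose Cr C1 C2 using fun j ξ v i =>
    hb (fun x => ‖nv (e j) (p x j ξ v i)‖) fun x => norm_nonneg _
  choose S' S1' _ S3' using hQ' (fun j ξ v => univ.biUnion (Cr j ξ v)) fun j ξ v =>
    (card_biUnion_le_card_mul _ _ _ fun i _ => C1 j ξ v i).trans (by simp)
  refine ⟨Un.biUnion fun Ξ => S Ξ.1 Ξ.2, card_biUnion_le_card_mul _ _ _ fun Ξ _ => S1 _ _,
    fun w hw => ?_, fun ρ hρ => ?_⟩
  · obtain ⟨Ξ, -, h⟩ := mem_biUnion.1 hw
    obtain ⟨j, ξ, v, h⟩ := S2 _ _ w h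
    exact cdG_zero h
  obtain ⟨ρ', r1, r2, r3⟩ := hB (Un.biUnion fun Ξ => S' Ξ.1 Ξ.2)
    (card_biUnion_le_card_mul _ _ _ fun Ξ _ => S1' _ _) ρ hρ
  have r0 : 0 < ρ' := hρ.trans_le r1
  refine ⟨ρ', r1, r2, fun P hP t t0 t1 t2 Z Z1 Z2 Ξ hΞ i hA => ?_⟩
  have near : ∀ j ≤ k, ∀ ξ v i, Cr j ξ v i ⊆ S' Ξ.1 Ξ.2 → Top c (e j) (P j ξ v i) → ∀ β : ℂ,
      aeval β (P j ξ v i) = 0 → ∃ β' ∈ T j ξ v i, ‖β'‖ ≤ A ∧ ‖β' - β‖ ≤ η₀ := by
    intro j hj ξ v i hs ht β hβ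
    have mj := mem_range.2 (Nat.lt_succ_of_le hj)
    obtain ⟨x, hx, h⟩ := C2 j ξ v i ρ' r0 (fun c hc => r3 c (mem_biUnion.2 ⟨Ξ, hΞ, hs hc⟩))
      (nonempty_iff_ne_empty.2 fun h => ht.2.1.ne' (by rw [hP j hj, h, sum_empty, coeff_zero]))
    have n : ∀ y, ‖nv (e j) (ρ' ^ y • p y j ξ v i)‖ = ρ' ^ y * ‖nv (e j) (p y j ξ v i)‖ :=
      fun y => by rw [map_smul, norm_smul, Real.norm_of_nonneg (Real.rpow_nonneg r0.le _)]
    obtain ⟨h1, β', h2, h3⟩ := hδ j _ (ρ' ^ x • p x j ξ v i) ht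
      ((natDegree_smul_le _ _).trans (hp x j hj ξ v i)) (by
        rw [hP j hj, ← add_sum_erase _ _ hx, add_sub_cancel_left, map_sum, n]
        refine (norm_sum_le _ _).trans ((sum_le_card_nsmul _ _ _ fun y hy => (n y).trans_le
          (h y (mem_of_mem_erase hy) (ne_of_mem_erase hy))).trans ?_)
        rw [nsmul_eq_mul, ← mul_assoc]
        refine mul_le_mul_of_nonneg_right (le_trans ?_ (hj₀ j mj)) (by positivity)
        rw [← mul_div_assoc, div_le_iff₀' (by positivity)]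
        have : ((Ex.erase x).card : ℝ) ≤ Ex.card := by exact_mod_cast card_erase_le
        exact mul_le_mul_of_nonneg_right (by linarith) (δ0 _).le) β hβ
    rw [aroots_smul_nonzero _ (Real.rpow_pos_of_pos r0 x).ne'] at h2
    rw [norm_sub_rev] at h3
    refine ⟨β', ?_, ?_, h3⟩
    · simp only [T, if_pos hj]
      exact mem_biUnion.2 ⟨x, hx, Multiset.mem_toFinset.2 h2⟩
    · have h4 := single_le_sum (fun j _ => zero_le_one.trans (R11 j)) mj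
      linarith [norm_sub_norm_le β' β, min_le_left 1 (η / (4 * R₀ * R))]
  have gs : ∀ {j ξ v}, cdG o T G j ξ v ⊆ S Ξ.1 Ξ.2 → ∀ w ∈ cdG o T G j ξ v,
      η₁ * ‖w‖ ≤ ‖ap t w‖ := fun h w hw => t2 w (mem_biUnion.2 ⟨Ξ, hΞ, h hw⟩)
  have key : ∀ j ≤ k, ∀ (ξ : σ → ℝ) (v : Fin j → σ → ℝ), Fr R ξ v →
      AllN G (fun j ξ v => ∀ i, Top c (e j) (P j ξ v i)) j ξ v →
      AllN G (fun j ξ v => cdG o T G j ξ v ⊆ S Ξ.1 Ξ.2) j ξ v →
      AllN G (fun j ξ v => univ.biUnion (Cr j ξ v) ⊆ S' Ξ.1 Ξ.2) j ξ v →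
      (∀ z ∈ Z, ¬ Hit o T t A η j ξ v z) → Good P (lf o t) Z (η / 2) c G e e' j ξ v := by
    intro j
    induction j with
    | zero =>
      intro _ ξ v _ _ _ _ h z hz
      have h1 : cpt ξ v 0 = fun s => (ξ s : ℂ) := funext fun s => by simp [cpt]
      have h2 : η ≤ ‖lf o t z (cpt ξ v 0)‖ :=
        not_lt.1 fun k => h z hz ⟨0, mem_singleton_self _, by rw [norm_zero]; linarith, k⟩
      rw [← h1]
      linarith
    | succ j ih =>
      intro hj ξ v hF a1 a2 a3 h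
      have hj' := Nat.le_of_succ_le hj
      refine ⟨a1.1, fun β hβ z hz => ?_, fun i => ?_⟩
      · choose β' b1 b2 b3 using fun i => near j hj' ξ v i
          ((subset_biUnion_of_mem _ (mem_univ i)).trans a3.1) (a1.1 i) _ (hβ i)
        have h2 : η ≤ ‖lf o t z (cpt ξ v β')‖ := not_lt.1 fun k => h z hz
          ⟨β', Fintype.mem_piFinset.2 b1, (pi_norm_le_iff_of_nonneg (by linarith)).2 b2, k⟩
        have h3 := lf_sub o t1 (Z2 z hz) (cpt ξ v β') (cpt ξ v β)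
        have h4 : ‖cpt ξ v β' - cpt ξ v β‖ ≤ η₀ * R := (cpt_sub ξ v β' β).trans (mul_le_mul
          ((pi_norm_le_iff_of_nonneg η₀0.le).2 b3) (by linarith [hF.1, norm_nonneg ξ])
          (by positivity) η₀0.le)
        nlinarith
      · have := hη T t Z j ξ v i _ t0 Z2 hF (gs a2.1) fun b hb => ih hj' _ _
          (hF.child i (gv_nonneg G b) (gv_le G b)) (a1.2 i b) (a2.2 i b) (a3.2 i b) hb
        have := hG j hj'
        omega
  have := hη T t Z k Ξ.1 Ξ.2 i _ t0 Z2 (hUn Ξ hΞ) (gs (S3 _ _).1) fun b hb => key k le_rfl _ _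
    ((hUn Ξ hΞ).child i (gv_nonneg G b) (gv_le G b)) (hA b) ((S3 _ _).2 i b) ((S3' _ _).2 i b) hb
  have := hG k le_rfl
  omega

end Pool.Agent.CA9.UB
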