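import Pool.Agent.Lib.MP_ca9be0_an.UB.S8b
import Pool.Agent.Lib.MP_ca9be0_an.UB.La3

/-! Saturation: the final form. -/

namespace Pool.Agent.CA9.UB

open Finset Matrix Pool.Agent.Lib.MP_ca9be0_an.PyF

theorem sat_main (n d M Din : ℕ) (s : ℝ) {r r' : Type} [Fintype r] [Fintype r'] [DecidableEq r]
    (φ : r → r' → Fin M → ℝ) :
    ∃ (G : Gg M (n + 1) n) (e Dout Q : ℕ), IsGauge d e G ∧ ∀ η₁ : ℝ, 0 < η₁ →
      ∃ (B : ℝ) (Gs : (Fin M → E (n + 1) → ℝ) → E (n + 1) → Finset (Fin (n + 1) → ℂ))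
        (ρ' : (Fin M → E (n + 1) → ℝ) → E (n + 1) → ℝ → ℝ), 1 ≤ B ∧ (∀ T p, (Gs T p).card ≤ Q) ∧
        (∀ T p ρ, 0 < ρ → ρ ≤ ρ' T p ρ ∧ ρ' T p ρ ≤ B * ρ) ∧
        ∀ ε C : ℝ, 0 < ε → ∃ C' c : ℝ, 0 < c ∧
          ∀ (T : Fin M → E (n + 1) → ℝ) (p q : E (n + 1)) (ρ : ℝ) (t : Fin (n + 1) → ℝ)
            (Δ : Polynomial ℝ) (ψ e₀ : r → E (n + 1) → ℝ) (w : r' → E (n + 1) → ℝ),
            PV d T → 0 < ρ → (∀ l, |t l| ≤ 1) →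
            (∀ g ∈ Gs T p, η₁ * ‖g‖ ≤ ‖∑ l, (t l : ℂ) * g l‖) → ‖q‖ ≤ 1 →
            ε * gb G (fun m => scl s (ρ' T p ρ) p (T m)) ≤
              gaAt G (fun m => scl s (ρ' T p ρ) p (T m)) q →
            Δ.natDegree ≤ Din → (∀ τ, |τ| ≤ 1 → |Δ.eval τ| ≤ C) →
            (∃ τ, |τ| ≤ 1 ∧ ε ≤ |Δ.eval τ|) → PV Din ψ → PV Din w → PV Din e₀ →
            (∀ j, PB (w j) 0 1 C) → (∀ i, PB (e₀ i) 0 1 C) →
            (∀ y i, Δ.eval (∑ l, t l * y l) * ψ i y =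
              ∑ j, (∑ m, φ i j m * scl s (ρ' T p ρ) p (T m) y) * w j y + e₀ i y) →
            ∃ (μ : E (n + 1) → ℝ) (e' : r → E (n + 1) → ℝ) (w' : r' → E (n + 1) → ℝ),
              μ ∈ Pd (n + 1) Dout ∧ PV Dout w' ∧ PV Dout e' ∧ PB μ 0 1 C' ∧
              (∀ j, PB (w' j) 0 1 C') ∧ (∀ i, PB (e' i) 0 1 C') ∧ c ≤ |μ q| ∧
              ∀ y i, μ y * ψ i y =
                ∑ j, (∑ m, φ i j m * scl s (ρ' T p ρ) p (T m) y) * w' j y + e' i y := by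
  classical
  set D := DD r d Din (Din + Din) with hD
  set G := ∑ j ∈ range (n + 1), eO r j (D j + d) + Din with hG
  obtain ⟨Un, R, c, K, hc, hK, hUn, hsel⟩ := select r r' n d G D
  obtain ⟨Ex, hEx⟩ := exp_nP (N := n + 1) φ d n D s
  obtain ⟨Q, hQ⟩ := lambda_lemma (0 : Fin (n + 2)) Ex (fun j => ex r j (D j + d))
    (fun j => eO r j (D j + d)) G Din n (fun j hj => Nat.add_le_add_right (single_le_sum
      (f := fun j => eO r j (D j + d)) (fun _ _ => Nat.zero_le _)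
      (mem_range.2 (Nat.lt_succ_of_le hj))) _) Un (R := max R 1) (R₀ := 2 * (n + 1)) hc
    (by positivity) (by positivity) fun Ξ h => (hUn Ξ h).mono (le_max_left _ _)
  have hg := mG_gauge (N := n + 1) φ d (D n) (Nat.le_succ n)
  refine ⟨mG φ d (D n) n, _, eP r n (D n + d) + (D n + eO r n (D n + d) + d) + Din, Q, hg,
    fun η₁ h₁ => ?_⟩
  obtain ⟨B, η, hB, hη, hL⟩ := hQ η₁ h₁
  have key : ∀ (T : Fin M → E (n + 1) → ℝ) (p : E (n + 1)), ∃ (Gs : Finset (Fin (n + 1) → ℂ))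
      (ρ' : ℝ → ℝ), Gs.card ≤ Q ∧ (∀ ρ, 0 < ρ → ρ ≤ ρ' ρ ∧ ρ' ρ ≤ B * ρ) ∧ (PV d T → ∀ ρ, 0 < ρ →
        ∀ t : Fin (n + 1) → ℝ, (∀ l, |t l| ≤ 1) →
        (∀ g ∈ Gs, η₁ * ‖g‖ ≤ ‖∑ l, (t l : ℂ) * g l‖) → ∀ Z : Finset ℂ, Z.card ≤ Din →
        (∀ z ∈ Z, ‖z‖ ≤ 2 * (n + 1)) → ∀ Ξ ∈ Un,
        (∀ b, AllN G (fun j ξ v => ∀ i, Top c (ex r j (D j + d))
          (nP d D (hF φ d fun m => scl s (ρ' ρ) p (T m)) j ξ v i)) n (Ξ.1 + gv G b • Ξ.2 0)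
          (Fin.removeNth 0 Ξ.2)) →
        eO r n (D n + d) < (univ.filter fun b : Fin (G + 1) =>
          Good (nP d D (hF φ d fun m => scl s (ρ' ρ) p (T m))) (lf 0 (Fin.cons 0 t)) Z η c G
            (fun j => ex r j (D j + d)) (fun j => eO r j (D j + d)) n (Ξ.1 + gv G b • Ξ.2 0)
            (Fin.removeNth 0 Ξ.2)).card) := fun T p => by
    by_cases hT : PV d T
    · obtain ⟨pp, p1, p2⟩ := hEx T p hT
      obtain ⟨Gs, g1, g2, g3⟩ := hL pp fun x j _ => p1 x j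
      choose! ρ' g4 g5 g6 using g3
      refine ⟨Gs.image fun w l => w l.succ, ρ', card_image_le.trans g1,
        fun ρ h => ⟨g4 ρ h, g5 ρ h⟩, fun _ ρ h t ht hg Z z1 z2 Ξ hΞ hA => g6 ρ h _
          (p2 _ (h.trans_le (g4 ρ h))) _ rfl ?_ (fun w hw => ?_) Z z1 z2 Ξ hΞ 0 hA⟩
      · have := sum_le_card_nsmul univ _ 1 fun l _ => ht l
        simp only [Fin.sum_univ_succ (n := n + 1), Fin.cons_zero, Fin.cons_succ, abs_zero, zero_add]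
        simp only [card_univ, Fintype.card_fin, nsmul_eq_mul, mul_one] at this
        push_cast at this
        linarith [(Nat.cast_nonneg n : (0 : ℝ) ≤ n)]
      · have h2 := hg _ (mem_image_of_mem _ hw)
        simp only [Fin.sum_univ_succ (n := n + 1), Fin.cons_zero, Fin.cons_succ,
          Complex.ofReal_zero, zero_mul, zero_add]
        refine le_trans (mul_le_mul_of_nonneg_left ((pi_norm_le_iff_of_nonneg
          (norm_nonneg _)).2 fun l => ?_) h₁.le) h2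
        refine Fin.cases ?_ (fun l => norm_le_pi_norm (fun l : Fin (n + 1) => w l.succ) l) l
        rw [g2 w hw, norm_zero]
        exact norm_nonneg _
    · exact ⟨∅, id, Nat.zero_le _, fun ρ h => ⟨le_rfl, le_mul_of_one_le_left h.le hB⟩,
        fun h => (hT h).elim⟩
  choose Gs ρ' k1 k2 k3 using key
  refine ⟨B, Gs, ρ', hB, k1, k2, fun ε C hε => ?_⟩
  let P : (Fin M → E (n + 1) → ℝ) × E (n + 1) × E (n + 1) × ℝ × (Fin (n + 1) → ℝ) × Polynomial ℝ ×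
      (r → E (n + 1) → ℝ) × (r → E (n + 1) → ℝ) × (r' → E (n + 1) → ℝ) → Prop :=
    fun (T, p, q, ρ, t, Δ, ψ, e₀, w) => PV d T ∧ 0 < ρ ∧ (∀ l, |t l| ≤ 1) ∧
      (∀ g ∈ Gs T p, η₁ * ‖g‖ ≤ ‖∑ l, (t l : ℂ) * g l‖) ∧ ‖q‖ ≤ 1 ∧
      ε * gb (mG φ d (D n) n) (fun m => scl s (ρ' T p ρ) p (T m)) ≤
        gaAt (mG φ d (D n) n) (fun m => scl s (ρ' T p ρ) p (T m)) q ∧ Δ.natDegree ≤ Din ∧
      (∀ τ, |τ| ≤ 1 → |Δ.eval τ| ≤ C) ∧ (∃ τ, |τ| ≤ 1 ∧ ε ≤ |Δ.eval τ|) ∧ PV Din ψ ∧ PV Din w ∧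
      PV Din e₀ ∧ (∀ j, PB (w j) 0 1 C) ∧ (∀ i, PB (e₀ i) 0 1 C) ∧
      ∀ y i, Δ.eval (∑ l, t l * y l) * ψ i y =
        ∑ j, (∑ m, φ i j m * scl s (ρ' T p ρ) p (T m) y) * w j y + e₀ i y
  let T' : Subtype P → Fin M → E (n + 1) → ℝ := fun i m =>
    scl s (ρ' i.1.1 i.1.2.1 i.1.2.2.2.1) i.1.2.1 (i.1.1 m)
  have hT' : ∀ i, PV d (T' i) := fun i m => scl_mem (i.2.1 m) _ _
  choose Ξ x1 x2 x3 x4 using fun i : Subtype P => hsel (hF φ d (T' i)) (hF_hd φ d _)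
    (hv 1 i.1.2.2.1) rfl ((norm_hv _ _).trans (max_le (by simp) i.2.2.2.2.2.1))
  obtain ⟨C', c', hc', h⟩ := sat_aff n d M Din G φ (C := C) hc hη hK hε hT' (fun i => i.2.2.2.1)
    (fun i => i.2.2.2.2.2.1) (fun i => hUn _ (x1 i))
    (fun i => i.2.2.2.2.2.2.1.trans (gaAt_le fun v hv => x3 i _ ((pi_norm_le_iff_of_nonneg
      zero_le_one).2 fun l => (norm_hv _ _).trans (max_le (by simp)
        ((norm_le_pi_norm v l).trans hv))))) x4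
    (fun i Z z1 z2 => k3 _ _ i.2.1 _ i.2.2.1 _ i.2.2.2.1 i.2.2.2.2.1 Z z1 z2 _ (x1 i) (x2 i))
    (fun i => i.2.2.2.2.2.2.2.1) (fun i => i.2.2.2.2.2.2.2.2.1) (fun i => i.2.2.2.2.2.2.2.2.2.1)
    (fun i => i.2.2.2.2.2.2.2.2.2.2.1) (fun i => i.2.2.2.2.2.2.2.2.2.2.2.1)
    (fun i => i.2.2.2.2.2.2.2.2.2.2.2.2.1) (fun i => i.2.2.2.2.2.2.2.2.2.2.2.2.2.1)
    (fun i => i.2.2.2.2.2.2.2.2.2.2.2.2.2.2.1) (fun i => i.2.2.2.2.2.2.2.2.2.2.2.2.2.2.2) _ le_rfl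
  exact ⟨C', c', hc', fun T p q ρ t Δ ψ e₀ w a1 a2 a3 a4 a5 a6 a7 a8 a9 a10 a11 a12 a13 a14 a15 =>
    h ⟨(T, p, q, ρ, t, Δ, ψ, e₀, w), a1, a2, a3, a4, a5, a6, a7, a8, a9, a10, a11, a12, a13, a14,
      a15⟩⟩

end Pool.Agent.CA9.UB
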