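import Pool.Agent.Lib.MP_ca9be0_an.UB.LS1
import Pool.Agent.Lib.MP_ca9be0_an.UB.S9
import Pool.Agent.Lib.MP_ca9be0_an.UB.IM

/-! Saturation for families. -/

namespace Pool.Agent.CA9.UB.LSa

open Finset Matrix Polynomial Pool.Agent.Lib.MP_ca9be0_an.PyF

variable {n M : ℕ}

/-- the hypotheses on one instance of the saturation -/
structure Inst (Din : ℕ) (s η ε : ℝ) (G : Gg M (n + 1) n) (Gs : Finset (Fin (n + 1) → ℂ)) (ρ' : ℝ)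
    (T T' : Fin M → E (n + 1) → ℝ) (p q : E (n + 1)) (t : Fin (n + 1) → ℝ) (δ : ℝ[X]) : Prop where
  bt : ∀ l, |t l| ≤ 1
  dir : ∀ g ∈ Gs, η * ‖g‖ ≤ ‖∑ l, (t l : ℂ) * g l‖
  bq : ‖q‖ ≤ 1
  eq : T' = fun m => scl s ρ' p (T m)
  mar : ε * gb G T' ≤ gaAt G T' q
  deg : δ.natDegree ≤ Din
  le : ∀ τ : ℝ, |τ| ≤ 1 → |δ.eval τ| ≤ 1
  one : ∃ τ : ℝ, |τ| ≤ 1 ∧ δ.eval τ = 1

/-- saturation for families -/
def SatF (d Din D Q : ℕ) (s : ℝ) {r r' : Type} [Fintype r'] (φ : r → r' → Fin M → ℝ)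
    (G : Gg M (n + 1) n) : Prop := ∀ η : ℝ, 0 < η → ∃ (B : ℝ)
  (Gs : (Fin M → E (n + 1) → ℝ) → E (n + 1) → Finset (Fin (n + 1) → ℂ))
  (rr : (Fin M → E (n + 1) → ℝ) → E (n + 1) → ℝ → ℝ), 1 ≤ B ∧ (∀ T p, (Gs T p).card ≤ Q) ∧
  (∀ T p ρ, 0 < ρ → ρ ≤ rr T p ρ ∧ rr T p ρ ≤ B * ρ) ∧
  ∀ (ε : ℝ) (ι : Type) (T T' : ι → Fin M → E (n + 1) → ℝ) (p q : ι → E (n + 1)) (ρ : ι → ℝ)
    (t : ι → Fin (n + 1) → ℝ) (δ : ι → ℝ[X]) (ψ : r → ι → E (n + 1) → ℝ)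
    (w : r' → ι → E (n + 1) → ℝ), 0 < ε → (∀ i, PV d (T i)) → (∀ i, 0 < ρ i) →
    (∀ i, Inst Din s η ε G (Gs (T i) (p i)) (rr (T i) (p i) (ρ i)) (T i) (T' i) (p i) (q i) (t i)
      (δ i)) → (∀ a i, ψ a i ∈ Pd (n + 1) Din) → (∀ k, BP Din (w k)) →
    (∀ a, BB fun i y => (δ i).eval (lin (t i) y) * ψ a i y - ∑ k, modL φ (T' i) a k y * w k i y) →
    ∃ (μ : ι → E (n + 1) → ℝ) (w' : r' → ι → E (n + 1) → ℝ) (c : ℝ), BP D μ ∧ 0 < c ∧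
      (∀ i, c ≤ |μ i (q i)|) ∧ (∀ k, BP D (w' k)) ∧
      ∀ a, BB fun i y => μ i y * ψ a i y - ∑ k, modL φ (T' i) a k y * w' k i y

theorem modL_mem {d : ℕ} {r r' : Type} (φ : r → r' → Fin M → ℝ) {T : Fin M → E n → ℝ}
    (hT : PV d T) (a : r) (k : r') : modL φ T a k ∈ Pd n d :=
  Pd_sum univ fun w _ => Pd_smul _ (hT w)

theorem satF (n d M Din : ℕ) (s : ℝ) {r r' : Type} [Fintype r] [Fintype r'] [DecidableEq r]
    (φ : r → r' → Fin M → ℝ) :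
    ∃ (G : Gg M (n + 1) n) (e D Q : ℕ), IsGauge d e G ∧ SatF d Din D Q s φ G := by
  obtain ⟨G, e, D, Q, hG, h⟩ := sat_main n d M (Din + Din + d) s φ
  refine ⟨G, e, D, Q, hG, fun η hη => ?_⟩
  obtain ⟨B, Gs, rr, h1, h2, h3, h4⟩ := h η hη
  refine ⟨B, Gs, rr, h1, h2, h3, fun ε ι T T' p q ρ t δ ψ w hε hT hρ hi hψ hw he => ?_⟩
  obtain ⟨C₁, _, b1⟩ := BB.fin fun k => (hw k).2
  obtain ⟨C₂, _, b2⟩ := BB.fin he
  obtain ⟨C', c, hc, h5⟩ := h4 (min ε 1) (max 1 (max C₁ C₂)) (lt_min hε one_pos)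
  have hT' : ∀ i, PV d (T' i) := fun i => by
    rw [(hi i).eq]; exact fun m => scl_mem (hT i m) _ _
  have key := fun i => h5 (T i) (p i) (q i) (ρ i) (t i) (δ i) (fun a => ψ a i)
    (fun a y => (δ i).eval (lin (t i) y) * ψ a i y - ∑ k, modL φ (T' i) a k y * w k i y)
    (fun k => w k i) (hT i) (hρ i) (hi i).bt (hi i).dir (hi i).bq
    (by
      rw [← (hi i).eq]
      refine (mul_le_mul_of_nonneg_right (min_le_left _ _) ?_).trans (hi i).mar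
      exact (hG.nn _ 0 0).trans (hG.le_gb (hT' i) (by simp) (by simp)))
    ((hi i).deg.trans (by omega)) (fun τ hτ => ((hi i).le τ hτ).trans (le_max_left _ _))
    (by
      obtain ⟨τ, a1, a2⟩ := (hi i).one
      exact ⟨τ, a1, by rw [a2, abs_one]; exact min_le_right _ _⟩)
    (fun a => Pd_mono (by omega) (hψ a i)) (fun k => Pd_mono (by omega) ((hw k).1 i))
    (fun a => Pd_sub (Pd_mono (by omega) (Pd_mul (eval_lin_mem (hi i).deg _) (hψ a i)))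
      (Pd_sum univ fun k _ => Pd_mono (by omega) (Pd_mul (modL_mem φ (hT' i) a k) ((hw k).1 i))))
    (fun k => (b1 k i).mono le_rfl ((le_max_left _ _).trans (le_max_right _ _)))
    (fun a => (b2 a i).mono le_rfl ((le_max_right _ _).trans (le_max_right _ _)))
    (fun y a => by rw [(hi i).eq]; simp only [lin_apply, modL]; ring)
  choose μ e' w' k1 k2 _ k4 k5 k6 k7 k8 using key
  refine ⟨μ, fun k i => w' i k, c, ⟨k1, BB.of k4⟩, hc, k7,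
    fun k => ⟨fun i => k2 i k, BB.of fun i => k5 i k⟩,
    fun a => (BB.of fun i => k6 i a).congr fun i y => ?_⟩
  rw [k8 i y a, (hi i).eq]
  simp only [modL]
  ring

end Pool.Agent.CA9.UB.LSa
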