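import Mathlib

/-! Trees of frames: good nodes. -/

namespace Pool.Agent.CA9.UB

open Finset Polynomial

variable {σ : Type} [Fintype σ]

/-- the grid value -/
noncomputable def gv (G : ℕ) (b : Fin (G + 1)) : ℝ := (b : ℝ) / G

/-- a family of node polynomials, one for each frame and each direction of the frame -/
abbrev NP (σ : Type) := ∀ k : ℕ, (σ → ℝ) → (Fin (k + 1) → σ → ℝ) → Fin (k + 1) → ℝ[X]

/-- the top coefficient controls the polynomial on the unit interval -/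
def Top (c : ℝ) (e : ℕ) (P : ℝ[X]) : Prop :=
  P.natDegree ≤ e ∧ 0 < P.coeff e ∧ ∀ b : ℝ, 0 ≤ b → b ≤ 1 → c * |P.eval b| ≤ P.coeff e

/-- a complex point of the affine span of a frame -/
noncomputable def cpt {k : ℕ} (ξ : σ → ℝ) (v : Fin k → σ → ℝ) (β : Fin k → ℂ) : σ → ℂ :=
  fun s => (ξ s : ℂ) + ∑ i, β i * (v i s : ℂ)

/-- the linear form `t - z x_o` -/
noncomputable def lf (o : σ) (t : σ → ℝ) (z : ℂ) (x : σ → ℂ) : ℂ := ∑ s, (t s : ℂ) * x s - z * x o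

/-- a property of all nodes of the tree below a frame -/
def AllN (G : ℕ) (Q : ∀ k : ℕ, (σ → ℝ) → (Fin (k + 1) → σ → ℝ) → Prop) :
    ∀ k : ℕ, (σ → ℝ) → (Fin k → σ → ℝ) → Prop
  | 0, _, _ => True
  | k + 1, ξ, v => Q k ξ v ∧ ∀ i b, AllN G Q k (ξ + gv G b • v i) (i.removeNth v)

open Classical in
/-- good nodes for the linear forms `L z`, `z` in `Z` -/
def Good (P : NP σ) (L : ℂ → (σ → ℂ) → ℂ) (Z : Finset ℂ) (η c : ℝ) (G : ℕ) (e e' : ℕ → ℕ) :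
    ∀ k : ℕ, (σ → ℝ) → (Fin k → σ → ℝ) → Prop
  | 0, ξ, _ => ∀ z ∈ Z, η ≤ ‖L z fun s => ξ s‖
  | k + 1, ξ, v => (∀ i, Top c (e k) (P k ξ v i)) ∧
      (∀ β : Fin (k + 1) → ℂ, (∀ i, aeval (β i) (P k ξ v i) = 0) → ∀ z ∈ Z, η ≤ ‖L z (cpt ξ v β)‖) ∧
      ∀ i, e' k < (univ.filter fun b : Fin (G + 1) =>
        Good P L Z η c G e e' k (ξ + gv G b • v i) (i.removeNth v)).card

/-- a bounded frame with bounded dual forms -/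
def Fr (R : ℝ) {k : ℕ} (ξ : σ → ℝ) (v : Fin k → σ → ℝ) : Prop :=
  ‖ξ‖ + ∑ i, ‖v i‖ ≤ R ∧ ∃ (l₀ : σ → ℝ) (l : Fin k → σ → ℝ), ∑ s, |l₀ s| ≤ R ∧
    (∀ i, ∑ s, |l i s| ≤ R) ∧ l₀ ⬝ᵥ ξ = 1 ∧ (∀ j, l₀ ⬝ᵥ v j = 0) ∧ (∀ i, l i ⬝ᵥ ξ = 0) ∧
      ∀ i j, l i ⬝ᵥ v j = if i = j then 1 else 0

end Pool.Agent.CA9.UB
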