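import Pool.Agent.Lib.MP_ca9be0_an.UB.La1

/-! Children of frames, and the sibling estimate. -/

namespace Pool.Agent.CA9.UB

open Finset Polynomial

variable {σ : Type} [Fintype σ]

theorem Fr.child {R : ℝ} {k : ℕ} {ξ : σ → ℝ} {v : Fin (k + 1) → σ → ℝ} (h : Fr R ξ v)
    (i : Fin (k + 1)) {b : ℝ} (h0 : 0 ≤ b) (h1 : b ≤ 1) :
    Fr R (ξ + b • v i) (i.removeNth v) := by
  obtain ⟨hn, l₀, l, a1, a2, a3, a4, a5, a6⟩ := h
  refine ⟨?_, l₀, fun j => l (i.succAbove j), a1, fun j => a2 _, ?_, fun j => a4 _, fun j => ?_,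
    fun j j' => ?_⟩
  · rw [Fin.sum_univ_succAbove _ i] at hn
    have := norm_add_le ξ (b • v i)
    rw [norm_smul, Real.norm_of_nonneg h0] at this
    have h2 := mul_le_of_le_one_left (norm_nonneg (v i)) h1
    simp only [Fin.removeNth]
    linarith
  · simp [a3, a4]
  · simp [a5, a6]
  · simp [Fin.removeNth, a6]

omit [Fintype σ] in
theorem AllN.mono {G : ℕ} {Q Q' : ∀ k : ℕ, (σ → ℝ) → (Fin (k + 1) → σ → ℝ) → Prop} :
    ∀ {k : ℕ} {ξ : σ → ℝ} {v : Fin k → σ → ℝ}, (∀ j < k, ∀ ξ v, Q j ξ v → Q' j ξ v) →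
      AllN G Q k ξ v → AllN G Q' k ξ v
  | 0, _, _, _, _ => trivial
  | k + 1, _, _, h, h' => ⟨h k (Nat.lt_succ_self k) _ _ h'.1, fun i b =>
      AllN.mono (fun j hj => h j (Nat.lt_succ_of_lt hj)) (h'.2 i b)⟩

omit [Fintype σ] in
theorem collect {α : Type} (G : ℕ) (q : ℕ → ℕ) (k : ℕ) : ∃ Q : ℕ,
    ∀ F : ∀ j : ℕ, (σ → ℝ) → (Fin (j + 1) → σ → ℝ) → Finset α, (∀ j ξ v, (F j ξ v).card ≤ q j) →
      ∀ ξ v, ∃ S : Finset α, S.card ≤ Q ∧ (∀ w ∈ S, ∃ j ξ v, w ∈ F j ξ v) ∧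
        AllN G (fun j ξ v => F j ξ v ⊆ S) k ξ v := by
  classical
  induction k with
  | zero => exact ⟨0, fun F _ ξ v => ⟨∅, le_rfl, by simp, trivial⟩⟩
  | succ k ih =>
    obtain ⟨Q, hQ⟩ := ih
    refine ⟨q k + (k + 1) * (G + 1) * Q, fun F hF ξ v => ?_⟩
    choose S S1 S2 S3 using hQ F hF
    refine ⟨F k ξ v ∪ univ.biUnion fun z : Fin (k + 1) × Fin (G + 1) =>
      S (ξ + gv G z.2 • v z.1) (z.1.removeNth v), (card_union_le _ _).trans (add_le_add (hF _ _ _)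
        ((card_biUnion_le_card_mul _ _ _ fun z _ => S1 _ _).trans (by simp))), fun w hw => ?_,
      subset_union_left, fun i b => (S3 _ _).mono fun j _ ξ' v' h => h.trans ?_⟩
    · rcases mem_union.1 hw with h | h
      · exact ⟨_, _, _, h⟩
      · obtain ⟨z, -, hz⟩ := mem_biUnion.1 h
        exact S2 _ _ w hz
    · exact (subset_biUnion_of_mem (fun z : Fin (k + 1) × Fin (G + 1) =>
        S (ξ + gv G z.2 • v z.1) (z.1.removeNth v)) (mem_univ (i, b))).trans subset_union_right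

/-- a real linear form on complex vectors -/
noncomputable def ap (l : σ → ℝ) : (σ → ℂ) →ₗ[ℂ] ℂ where
  toFun x := ∑ s, (l s : ℂ) * x s
  map_add' x y := by simp [mul_add, sum_add_distrib]
  map_smul' c x := by simp [mul_sum, mul_left_comm]

theorem ap_apply (l : σ → ℝ) (x : σ → ℂ) : ap l x = ∑ s, (l s : ℂ) * x s := rfl

theorem ap_le {l : σ → ℝ} {R : ℝ} (h : ∑ s, |l s| ≤ R) (x : σ → ℂ) : ‖ap l x‖ ≤ R * ‖x‖ := by
  refine (norm_sum_le _ _).trans (le_trans ?_ (mul_le_mul_of_nonneg_right h (norm_nonneg _)))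
  rw [sum_mul]
  refine sum_le_sum fun s _ => ?_
  rw [norm_mul, Complex.norm_real, Real.norm_eq_abs]
  exact mul_le_mul_of_nonneg_left (norm_le_pi_norm x s) (abs_nonneg _)

theorem ap_cpt {k : ℕ} (l ξ : σ → ℝ) (v : Fin k → σ → ℝ) (β : Fin k → ℂ) :
    ap l (cpt ξ v β) = (l ⬝ᵥ ξ : ℝ) + ∑ i, β i * (l ⬝ᵥ v i : ℝ) := by
  simp only [ap_apply, cpt, dotProduct, mul_add, sum_add_distrib, mul_sum, Complex.ofReal_sum,
    Complex.ofReal_mul]
  rw [sum_comm]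
  simp only [mul_left_comm]

theorem cpt_sub {k : ℕ} (ξ : σ → ℝ) (v : Fin k → σ → ℝ) (β β' : Fin k → ℂ) :
    ‖cpt ξ v β - cpt ξ v β'‖ ≤ ‖β - β'‖ * ∑ i, ‖v i‖ := by
  refine (pi_norm_le_iff_of_nonneg (by positivity)).2 fun s => ?_
  rw [Pi.sub_apply, cpt, cpt, add_sub_add_left_eq_sub, ← sum_sub_distrib, mul_sum]
  refine (norm_sum_le _ _).trans (sum_le_sum fun i _ => ?_)
  rw [← sub_mul, norm_mul, Complex.norm_real]
  exact mul_le_mul (norm_le_pi_norm (β - β') i) (norm_le_pi_norm (v i) s) (norm_nonneg _)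
    (norm_nonneg _)

theorem cpt_le {k : ℕ} {ξ : σ → ℝ} {v : Fin k → σ → ℝ} {R A : ℝ} (h : Fr R ξ v) {β : Fin k → ℂ}
    (hβ : ‖β‖ ≤ A) (hA : 1 ≤ A) : ‖cpt ξ v β‖ ≤ A * R := by
  have h1 := cpt_sub ξ v β 0
  have h2 : ‖cpt ξ v 0‖ ≤ ‖ξ‖ := (pi_norm_le_iff_of_nonneg (norm_nonneg _)).2 fun s => by
    simpa [cpt] using norm_le_pi_norm ξ s
  have h3 := norm_sub_norm_le (cpt ξ v β) (cpt ξ v 0)
  have h4 : 0 ≤ ∑ i, ‖v i‖ := by positivity
  rw [sub_zero] at h1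
  nlinarith [h.1, norm_nonneg ξ]

theorem lf_eq (o : σ) (t : σ → ℝ) (z : ℂ) (x : σ → ℂ) : lf o t z x = ap t x - z * x o := rfl

theorem lf_sub (o : σ) {t : σ → ℝ} {z : ℂ} {R : ℝ} (ht : ∑ s, |t s| ≤ R) (hz : ‖z‖ ≤ R)
    (x y : σ → ℂ) : ‖lf o t z x‖ ≤ ‖lf o t z y‖ + 2 * R * ‖x - y‖ := by
  have e : lf o t z x = lf o t z y + (ap t (x - y) - z * (x - y) o) := by
    simp only [lf_eq, map_sub, Pi.sub_apply]
    ring
  have h1 := ap_le ht (x - y)
  have h2 := mul_le_mul hz (norm_le_pi_norm (x - y) o) (norm_nonneg _) ((norm_nonneg _).trans hz)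
  have h3 := norm_sub_le (ap t (x - y)) (z * (x - y) o)
  rw [norm_mul] at h3
  rw [e]
  exact (norm_add_le _ _).trans (by linarith)

theorem sib [DecidableEq σ] (o : σ) (G : ℕ) {R R₀ A η₁ : ℝ} (hR : 0 < R) (hR₀ : 0 < R₀) (hA : 0 < A)
    (h₁ : 0 < η₁) : ∃ η : ℝ, 0 < η ∧ ∀ (t l₀ l : σ → ℝ) (z : ℂ) (x x' : σ → ℂ) (b b' : ℝ), t o = 0 →
      ‖z‖ ≤ R₀ → ‖x‖ ≤ A → ‖x'‖ ≤ A → ∑ s, |l₀ s| ≤ R → ∑ s, |l s| ≤ R → ap l₀ x = 1 →
      ap l₀ x' = 1 → ap l x = b → ap l x' = b' → |b| ≤ 1 → 1 ≤ G * |b - b'| →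
      η₁ * ‖Function.update x o 0‖ ≤ ‖ap t (Function.update x o 0)‖ →
      η₁ * ‖x' o • x - x o • x'‖ ≤ ‖ap t (x' o • x - x o • x')‖ →
      ‖lf o t z x‖ < η → ‖lf o t z x'‖ < η → False := by
  set D := R * η₁ + R * (η₁ + R₀) * (G * (2 * R)) * (2 * A) with hD
  have D0 : 0 < D := by positivity
  refine ⟨η₁ ^ 2 / (2 * D), by positivity,
    fun t l₀ l z x x' b b' a1 a2 a3 a4 a5 a6 a7 a8 a9 a10 a11 a12 a13 a14 a15 a16 => ?_⟩
  set η := η₁ ^ 2 / (2 * D) with hη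
  have η0 : 0 < η := by positivity
  have e0 : η * D = η₁ ^ 2 / 2 := by rw [hη]; field_simp
  set w := x' o • x - x o • x' with hw
  have b1 : η₁ * ‖w‖ ≤ 2 * A * η := by
    have e : ap t w = x' o * lf o t z x - x o * lf o t z x' := by
      simp only [hw, lf_eq, map_sub, map_smul, smul_eq_mul]
      ring
    have := norm_sub_le (x' o * lf o t z x) (x o * lf o t z x')
    rw [← e, norm_mul, norm_mul] at this
    have h1 := mul_le_mul ((norm_le_pi_norm x' o).trans a4) a15.le (norm_nonneg _) hA.le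
    have h2 := mul_le_mul ((norm_le_pi_norm x o).trans a3) a16.le (norm_nonneg _) hA.le
    linarith
  have b2 : ‖x o‖ ≤ G * (2 * R) * ‖w‖ := by
    have e : x o * ((b - b' : ℝ) : ℂ) = ap l w - b * ap l₀ w := by
      simp only [hw, map_sub, map_smul, smul_eq_mul, a7, a8, a9, a10]
      push_cast
      ring
    have := norm_sub_le (ap l w) (b * ap l₀ w)
    rw [← e, norm_mul, norm_mul, Complex.norm_real, Complex.norm_real, Real.norm_eq_abs,
      Real.norm_eq_abs] at this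
    have h1 := ap_le a6 w
    have h2 := mul_le_mul a11 (ap_le a5 w) (norm_nonneg _) zero_le_one
    calc ‖x o‖ ≤ ‖x o‖ * (G * |b - b'|) := le_mul_of_one_le_right (norm_nonneg _) a12
      _ = G * (‖x o‖ * |b - b'|) := by ring
      _ ≤ G * (2 * R * ‖w‖) := mul_le_mul_of_nonneg_left (by linarith) (Nat.cast_nonneg _)
      _ = _ := by ring
  have e1 : x = Function.update x o 0 + Pi.single o (x o) := by
    funext s
    by_cases h : s = o
    · subst h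
      simp
    · simp [h]
  have b3 : 1 ≤ R * (‖x o‖ + ‖Function.update x o 0‖) := by
    have h1 := ap_le a5 x
    have h2 := norm_add_le (Function.update x o 0) (Pi.single o (x o))
    rw [← e1, Pi.norm_single] at h2
    rw [a7, norm_one] at h1
    nlinarith
  have b4 : η₁ * ‖Function.update x o 0‖ ≤ η + R₀ * ‖x o‖ := by
    have e : ap t (Function.update x o 0) = lf o t z x + z * x o := by
      rw [lf_eq, sub_add_cancel]
      refine sum_congr rfl fun s _ => ?_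
      by_cases h : s = o
      · subst h
        simp [a1]
      · simp [h]
    have := norm_add_le (lf o t z x) (z * x o)
    rw [← e, norm_mul] at this
    have h2 := mul_le_mul_of_nonneg_right a2 (norm_nonneg (x o))
    linarith
  have b5 : η₁ * ‖x o‖ ≤ G * (2 * R) * (2 * A * η) :=
    calc η₁ * ‖x o‖ ≤ η₁ * (G * (2 * R) * ‖w‖) := by gcongr
      _ = G * (2 * R) * (η₁ * ‖w‖) := by ring
      _ ≤ _ := by gcongr
  have b6 : η₁ ^ 2 ≤ η * D :=
    calc η₁ ^ 2 = η₁ ^ 2 * 1 := (mul_one _).symm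
      _ ≤ η₁ ^ 2 * (R * (‖x o‖ + ‖Function.update x o 0‖)) := by gcongr
      _ = R * η₁ * (η₁ * ‖x o‖ + η₁ * ‖Function.update x o 0‖) := by ring
      _ ≤ R * η₁ * (η₁ * ‖x o‖ + (η + R₀ * ‖x o‖)) := by gcongr
      _ = R * η₁ * η + R * (η₁ + R₀) * (η₁ * ‖x o‖) := by ring
      _ ≤ R * η₁ * η + R * (η₁ + R₀) * (G * (2 * R) * (2 * A * η)) := by gcongr
      _ = _ := by rw [hD]; ring
  have : 0 < η₁ ^ 2 := by positivity
  linarith

end Pool.Agent.CA9.UB
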