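import Pool.Agent.Lib.MP_ca9be0_an.UB.S0
import Pool.Agent.Lib.MP_ca9be0_an.UB.La2

/-! A bounded Bezout identity. -/

namespace Pool.Agent.CA9.UB

open Finset Polynomial Pool.Agent.Lib.MP_ca9be0_an.PyF

/-- filtrations of a ring -/
structure Fil {S : Type} [CommRing S] (Q : ℕ → S → Prop) : Prop where
  one : Q 0 1
  zero : Q 0 0
  add : ∀ {e f g}, Q e f → Q e g → Q e (f + g)
  mul : ∀ {e e' f g}, Q e f → Q e' g → Q (e + e') (f * g)
  mono : ∀ {e e' f}, Q e f → e ≤ e' → Q e' f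

section fil

variable {S : Type} [CommRing S] {Q : ℕ → S → Prop}

theorem Fil.sum (h : Fil Q) {α : Type} (s : Finset α) {e : ℕ} {f : α → S} (hf : ∀ a ∈ s, Q e (f a)) :
    Q e (∑ a ∈ s, f a) :=
  sum_induction _ _ (fun _ _ => h.add) (h.mono h.zero (Nat.zero_le _)) hf

theorem Fil.prod (h : Fil Q) {α : Type} (s : Finset α) {e : ℕ} {f : α → S} (hf : ∀ a, Q e (f a)) :
    Q (s.card * e) (∏ a ∈ s, f a) := by
  classical
  induction s using Finset.induction_on with
  | empty => simpa using h.one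
  | insert a s ha ih =>
    rw [prod_insert ha, card_insert_of_notMem ha, Nat.succ_mul, add_comm]
    exact h.mul (hf a) ih

theorem Fil.bez (h : Fil Q) {I : Type} [Fintype I] [DecidableEq I] {n : I → ℕ}
    (y : ∀ i, Fin (n i) → S) (c : (∀ i, Fin (n i)) → I → S) (hy : ∀ i α, Q 1 (y i α))
    (hc : ∀ τ i, Q 0 (c τ i)) (h1 : ∀ τ, ∑ i, c τ i * y i (τ i) = 1) :
    ∃ H : I → S, (∀ i, Q (∏ i, n i) (H i)) ∧ ∑ i, H i * ∏ α, y i α = 1 := by
  have key : ∀ f : (∀ i, Fin (n i)) → I, ∃ i r, Q (∏ i, n i) r ∧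
      ∏ τ, c τ (f τ) * y (f τ) (τ (f τ)) = r * ∏ α, y i α := fun f => by
    obtain ⟨i, hi⟩ : ∃ i, ∀ α, ∃ τ, f τ = i ∧ τ i = α := by
      by_contra k
      push Not at k
      choose α hα using k
      exact hα _ α rfl rfl
    choose g g1 g2 using hi
    have e : ∀ τ i, f τ = i → y (f τ) (τ (f τ)) = y i (τ i) := by
      rintro τ _ rfl
      rfl
    refine ⟨i, (∏ τ, c τ (f τ)) * ∏ τ ∈ (univ.image g)ᶜ, y (f τ) (τ (f τ)), h.mono
      (h.mul (h.prod _ fun τ => hc _ _) (h.prod _ fun τ => hy _ _)) ?_, ?_⟩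
    · rw [mul_zero, zero_add, mul_one]
      exact (card_le_univ _).trans (by simp)
    · rw [prod_mul_distrib, mul_assoc, ← prod_compl_mul_prod (univ.image g)
        fun τ => y (f τ) (τ (f τ)), prod_image fun α _ β _ k => by rw [← g2 α, k, g2]]
      congr 2
      exact prod_congr rfl fun α _ => by rw [e _ _ (g1 α), g2]
  choose i r r1 r2 using key
  refine ⟨fun j => ∑ f with i f = j, r f, fun j => h.sum _ fun f _ => r1 f, ?_⟩
  have e : ∏ τ : ∀ i, Fin (n i), ∑ i, c τ i * y i (τ i) = 1 := prod_eq_one fun τ _ => h1 τ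
  rw [← e, Fintype.prod_sum, ← sum_fiberwise univ i]
  refine sum_congr rfl fun j _ => ?_
  rw [sum_mul]
  exact sum_congr rfl fun f hf => by rw [r2, (mem_filter.1 hf).2]

end fil

variable {σ ι : Type} [Fintype σ]

section hk

variable {K : Type} [RCLike K] {D D' : ℕ} {F F' : ι → (σ → ℝ) → K}

theorem la_const {c : ι → K} {C : ℝ} (h : ∀ t, ‖c t‖ ≤ C) : HK 0 fun t (_ : σ → ℝ) => c t :=
  ⟨fun t _ => c t, C, fun t _ => h t, fun t x => by simp [mo]⟩

theorem la_lin {c : ι → σ → K} {C : ℝ} (h : ∀ t s, ‖c t s‖ ≤ C) :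
    HK 1 fun t x => ∑ s, c t s * (x s : K) :=
  ⟨fun t f => c t (f 0), C, fun t f => h t _, fun t x =>
    (Fintype.sum_equiv (Equiv.funUnique (Fin 1) σ) _ _ fun f => by simp [mo]).symm⟩

theorem la_add (h : HK D F) (h' : HK D F') : HK D fun t x => F t x + F' t x := by
  obtain ⟨c, C, h1, h2⟩ := h
  obtain ⟨c', C', h3, h4⟩ := h'
  exact ⟨fun t f => c t f + c' t f, C + C', fun t f => norm_add_le_of_le (h1 t f) (h3 t f),
    fun t x => by simp only [h2, h4, add_mul, sum_add_distrib]⟩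

theorem la_mul (h : HK D F) (h' : HK D' F') : HK (D + D') fun t x => F t x * F' t x := by
  obtain ⟨c, C, h1, h2⟩ := h
  obtain ⟨c', C', h3, h4⟩ := h'
  refine ⟨fun t f => c t (fun j => f (Fin.castAdd D' j)) * c' t fun j => f (Fin.natAdd D j), C * C',
    fun t f => ?_, fun t x => ?_⟩
  · rw [norm_mul]
    exact mul_le_mul (h1 _ _) (h3 _ _) (norm_nonneg _) ((norm_nonneg _).trans (h1 t fun j =>
      f (Fin.castAdd D' j)))
  · beta_reduce
    rw [h2, h4, sum_mul_sum, ← Fintype.sum_prod_type']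
    refine Fintype.sum_equiv (Fin.appendEquiv D D') _ _ fun p => ?_
    simp only [Fin.appendEquiv_apply, Fin.append_left, Fin.append_right, mo, Fin.prod_univ_add]
    push_cast
    ring

theorem la_re {F : ι → (σ → ℝ) → ℂ} (h : HK D F) : HK D fun t x => (F t x).re := by
  obtain ⟨c, C, h1, h2⟩ := h
  refine ⟨fun t f => (c t f).re, C, fun t f => (Complex.abs_re_le_norm _).trans (h1 t f),
    fun t x => ?_⟩
  beta_reduce
  rw [h2, Complex.re_sum]
  exact sum_congr rfl fun f _ => Complex.re_mul_ofReal _ _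

end hk

theorem la_enum (a : ℕ) : ∀ s : Multiset ℂ, s.card ≤ a → ∃ u : Fin a → Option ℂ,
    (∀ j z, u j = some z → z ∈ s) ∧ ∀ F : ℂ → ℂ, ∏ j, (u j).elim 1 F = (s.map F).prod := by
  induction a with
  | zero =>
    intro s hs
    obtain rfl := Multiset.card_eq_zero.1 (Nat.le_zero.1 hs)
    exact ⟨Fin.elim0, fun j => j.elim0, fun F => by simp⟩
  | succ a ih =>
    intro s hs
    rcases s.empty_or_exists_mem with rfl | ⟨z, hz⟩
    · exact ⟨fun _ => none, by simp, by simp⟩
    obtain ⟨s, rfl⟩ := Multiset.exists_cons_of_mem hz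
    obtain ⟨u, h1, h2⟩ := ih s (by simpa using hs)
    refine ⟨Fin.cons (some z) u, fun j => Fin.cases (fun z' h => ?_) (fun j z' h => ?_) j,
      fun F => by simp [Fin.prod_univ_succ, h2]⟩
    · obtain rfl : z = z' := by simpa using h
      exact hz
    · exact Multiset.mem_cons_of_mem (h1 j z' h)

theorem lf_cpt {k : ℕ} (o : σ) (t ξ : σ → ℝ) (ζ : ℂ) (v : Fin k → σ → ℝ) (β : Fin k → ℂ) :
    lf o t ζ (cpt ξ v β) = lf o t ζ (fun s => ξ s) + ∑ i, β i * lf o t ζ fun s => v i s := by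
  simp only [lf, cpt, mul_add, sum_add_distrib, mul_sum, mul_sub, sum_sub_distrib]
  rw [sum_comm]
  simp only [mul_left_comm]
  ring

omit [Fintype σ] in
theorem frm_cpt {k : ℕ} (ξ : σ → ℝ) (v : Fin k → σ → ℝ) (z : E k) :
    (fun s => (frm ξ v z s : ℂ)) = cpt ξ v fun i => z i := by
  funext s
  simp [frm, cpt]

theorem bezoutR (o : σ) {k e a : ℕ} {R c η : ℝ} (hc : 0 < c) (hη : 0 < η) {ξ : ι → σ → ℝ}
    {v : ι → Fin (k + 1) → σ → ℝ} {P : ι → Fin (k + 1) → ℝ[X]} {tt : ι → σ → ℝ}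
    {zs : ι → Fin a → Option ℂ} {W : ι → (σ → ℝ) → ℝ} (hF : ∀ t, Fr R (ξ t) (v t))
    (hP : ∀ t i, Top c e (P t i)) (htt : ∀ t s, |tt t s| ≤ R)
    (hz : ∀ t j z, zs t j = some z → ‖z‖ ≤ R)
    (hU : ∀ t (β : Fin (k + 1) → ℂ), (∀ i, aeval (β i) (P t i) = 0) → ∀ j z, zs t j = some z →
      η ≤ ‖lf o (tt t) z (cpt (ξ t) (v t) β)‖)
    (hW : ∀ t x, (W t x : ℂ) = ∏ j, (zs t j).elim 1 fun z => lf o (tt t) z fun s => x s) :
    ∃ H : Option (Fin (k + 1)) → ι → (σ → ℝ) → ℝ, (∀ i, HK (a * e ^ (k + 1)) (H i)) ∧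
      ∀ t (z : E (k + 1)), 1 = H none t (frm (ξ t) (v t) z) * W t (frm (ξ t) (v t) z) +
        ∑ i, H (some i) t (frm (ξ t) (v t) z) * ((P t i).eval (z i) / (P t i).coeff e) := by
  classical
  obtain ⟨R₀, ht, hZ'⟩ : ∃ R₀ : ℝ, (∀ t, ∑ s, |tt t s| ≤ R₀) ∧
      ∀ t j z, zs t j = some z → ‖z‖ ≤ R₀ :=
    ⟨max (Fintype.card σ • R) R, fun t => le_max_of_le_left
      (sum_le_card_nsmul _ _ _ fun s _ => htt t s), fun t j z h => le_max_of_le_right (hz t j z h)⟩
  choose hn l₀ l a1 a2 a3 a4 a5 a6 using hF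
  obtain ⟨R1, R11, hR1⟩ := root_near e hc
  obtain ⟨δ, δ0, hδ⟩ := hR1 1 one_pos
  have p0 : ∀ t i, P t i ≠ 0 := fun t i k => (hP t i).2.1.ne' (by simp [k])
  have dP : ∀ t i, (P t i).natDegree = e := fun t i =>
    le_antisymm (hP t i).1 (le_natDegree_of_ne_zero (hP t i).2.1.ne')
  have rb : ∀ t i, ∀ β ∈ (P t i).aroots ℂ, ‖β‖ ≤ R1 := fun t i β h =>
    (hδ _ _ (hP t i) (hP t i).1 (by rw [sub_self, map_zero, norm_zero]; positivity) β
      (mem_aroots.1 h).2).1
  have s1 : ∀ {l : σ → ℝ} {A : ℝ}, ∑ s, |l s| ≤ A → ∀ s, ‖(l s : ℂ)‖ ≤ |A| := fun h s => by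
    rw [Complex.norm_real]
    exact (single_le_sum (fun s _ => abs_nonneg _) (mem_univ s)).trans (h.trans (le_abs_self _))
  have e0 : ∀ t z, ∑ s, (l₀ t s : ℂ) * frm (ξ t) (v t) z s = 1 := fun t z => by
    have := ap_cpt (l₀ t) (ξ t) (v t) fun i => z i
    rw [← frm_cpt] at this
    simpa [a3, a4, ap_apply] using this
  have e1 : ∀ t i z, ∑ s, (l t i s : ℂ) * frm (ξ t) (v t) z s = z i := fun t i z => by
    have := ap_cpt (l t i) (ξ t) (v t) fun i => z i
    rw [← frm_cpt] at this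
    simpa [a5, a6, apply_ite, ap_apply] using this
  let Q : ℕ → (ι × E (k + 1) → ℂ) → Prop := fun D f => ∃ F : ι → (σ → ℝ) → ℂ, HK D F ∧
    ∀ p, f p = F p.1 (frm (ξ p.1) (v p.1) p.2)
  have qm : ∀ {D D' f g}, Q D f → Q D' g → Q (D + D') (f * g) :=
    fun ⟨_, h1, h2⟩ ⟨_, h3, h4⟩ => ⟨_, la_mul h1 h3, fun p => by rw [Pi.mul_apply, h2, h4]⟩
  have q1 : Q 1 1 := ⟨_, la_lin fun t => s1 (a1 t), fun p => (e0 _ _).symm⟩
  have hQ : Fil Q := ⟨⟨_, la_const (C := 1) fun _ => norm_one.le, fun _ => rfl⟩,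
    ⟨_, la_const (C := 0) fun _ => norm_zero.le, fun _ => rfl⟩,
    fun ⟨_, h1, h2⟩ ⟨_, h3, h4⟩ => ⟨_, la_add h1 h3, fun p => by rw [Pi.add_apply, h2, h4]⟩, qm,
    fun h k => Nat.le_induction h (fun _ _ h => by simpa using qm h q1) _ k⟩
  let n : Option (Fin (k + 1)) → ℕ := fun i => i.elim a fun _ => e
  choose u' u1 u2 using fun t i => la_enum e ((P t i).aroots ℂ)
    (IsAlgClosed.card_aroots_eq_natDegree.trans (dP _ _)).le
  let u : ι → ∀ i, Fin (n i) → Option ℂ := fun t i => Option.rec (zs t) (u' t) i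
  let F : ι × E (k + 1) → Option (Fin (k + 1)) → ℂ → ℂ := fun p i ζ =>
    i.elim (lf o (tt p.1) ζ fun s => frm (ξ p.1) (v p.1) p.2 s) fun i => p.2 i - ζ
  have hcc : ∀ t (τ : ∀ i, Fin (n i)), ∃ cc : Option (Fin (k + 1)) → ℂ,
      (∀ i, ‖cc i‖ ≤ 1 + (1 + 2 * |R₀| * |R|) / η) ∧
        ∀ z, ∑ i, cc i * (u t i (τ i)).elim 1 (F (t, z) i) = 1 := fun t τ => by
    have n0 : 0 ≤ 2 * |R₀| * |R| := by positivity
    by_cases h : ∃ i, u t i (τ i) = none
    · obtain ⟨i, hi⟩ := h
      refine ⟨Pi.single i 1, fun j => (norm_le_pi_norm _ j).trans ?_, fun z => ?_⟩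
      · rw [Pi.norm_single, norm_one]
        exact le_add_of_nonneg_right (by positivity)
      · simp [Pi.single_apply, hi]
    · push Not at h
      choose b hb using fun i => Option.ne_none_iff_exists'.1 (h i)
      have h1 := hU t (fun i => b (some i)) (fun i => (mem_aroots.1 (u1 t _ _ _ (hb (some i)))).2)
        _ _ (hb none)
      have h2 := norm_pos_iff.1 (hη.trans_le h1)
      refine ⟨fun i => i.elim 1 (fun i => -lf o (tt t) (b none) fun s => v t i s) /
        lf o (tt t) (b none) (cpt (ξ t) (v t) fun i => b (some i)), fun i => ?_, fun z => ?_⟩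
      · rw [norm_div]
        refine le_add_of_nonneg_of_le zero_le_one (div_le_div₀ (by positivity) ?_ hη h1)
        cases i with
        | none => simpa using n0
        | some i =>
          have h3 := lf_sub o ((ht t).trans (le_abs_self _))
            ((hZ' t _ _ (hb none)).trans (le_abs_self _)) (fun s => v t i s) 0
          have h4 : ‖fun s => (v t i s : ℂ)‖ ≤ |R| :=
            (pi_norm_le_iff_of_nonneg (abs_nonneg _)).2 fun s => by
              rw [Complex.norm_real]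
              have := single_le_sum (fun j _ => norm_nonneg (v t j)) (mem_univ i)
              linarith [norm_le_pi_norm (v t i) s, hn t, norm_nonneg (ξ t), le_abs_self R]
          have h5 : lf o (tt t) (b none) 0 = 0 := by simp [lf]
          rw [h5, norm_zero, sub_zero] at h3
          have h6 := mul_le_mul_of_nonneg_left h4 (by positivity : 0 ≤ 2 * |R₀|)
          simp only [Option.elim, norm_neg]
          linarith
      · simp only [hb, Option.elim, div_mul_eq_mul_div, ← sum_div]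
        rw [div_eq_one_iff_eq h2, Fintype.sum_option]
        simp only [F, Option.elim, frm_cpt, lf_cpt, one_mul, add_assoc, ← sum_add_distrib]
        congr 1
        exact sum_congr rfl fun i _ => by ring
  choose cc c1 c2 using hcc
  have hy : ∀ i α, Q 1 fun p => (u p.1 i α).elim 1 (F p i) := fun i α => by
    cases i with
    | none =>
      refine ⟨_, la_lin (c := fun t s => (u t none α).elim (l₀ t s : ℂ) fun ζ =>
        tt t s - ζ * if s = o then 1 else 0) (C := |R| + (|R₀| + |R₀|)) fun t s => ?_, fun p => ?_⟩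
      · cases h : u t none α with
        | none => exact le_add_of_le_of_nonneg (s1 (a1 t) s) (by positivity)
        | some ζ =>
          refine le_add_of_nonneg_of_le (abs_nonneg _) (norm_sub_le_of_le (s1 (ht t) s) ?_)
          split_ifs
          · simpa using (hZ' t _ _ h).trans (le_abs_self _)
          · simp
      · beta_reduce
        cases h : u p.1 none α with
        | none => exact (e0 _ _).symm
        | some ζ => simp [F, lf, sub_mul]
    | some i =>
      refine ⟨_, la_lin (c := fun t s => (u t (some i) α).elim (l₀ t s : ℂ) fun ζ =>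
        l t i s - ζ * l₀ t s) (C := |R| + R1 * |R|) fun t s => ?_, fun p => ?_⟩
      · cases h : u t (some i) α with
        | none => exact le_add_of_le_of_nonneg (s1 (a1 t) s) (by positivity)
        | some ζ =>
          refine norm_sub_le_of_le (s1 (a2 t i) s) ?_
          rw [norm_mul]
          exact mul_le_mul (rb t i _ (u1 t _ _ _ h)) (s1 (a1 t) s) (norm_nonneg _) (by linarith)
      · beta_reduce
        cases h : u p.1 (some i) α with
        | none => exact (e0 _ _).symm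
        | some ζ => simp [F, sub_mul, mul_assoc, ← mul_sum, e0, e1]
  obtain ⟨H, h1, h2⟩ := hQ.bez (fun i α p => (u p.1 i α).elim 1 (F p i)) (fun τ i p => cc p.1 τ i)
    hy (fun τ i => ⟨_, la_const fun t => c1 t τ i, fun _ => rfl⟩)
    fun τ => funext fun p => by simpa using c2 p.1 τ p.2
  · choose H' h3 h4 using h1
    have en : ∏ i, n i = a * e ^ (k + 1) := by simp [n, Fintype.prod_option]
    refine ⟨fun i t x => (H' i t x).re, fun i => en ▸ la_re (h3 i), fun t z => ?_⟩
    have h5 := congrArg Complex.re (congrFun h2 (t, z))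
    simp only [Finset.sum_apply, Pi.mul_apply, Finset.prod_apply, h4, Fintype.sum_option] at h5
    have h6 : ∀ i, ∏ α, (u t (some i) α).elim 1 (F (t, z) (some i)) =
        (((P t i).eval (z i) / (P t i).coeff e : ℝ) : ℂ) := fun i => by
      have := (IsAlgClosed.splits ((P t i).map (algebraMap ℝ ℂ))).eval_eq_prod_roots
        (algebraMap ℝ ℂ (z i))
      rw [eval_map_algebraMap, aeval_algebraMap_apply, leadingCoeff_map, leadingCoeff, dP] at this
      rw [Complex.ofReal_div, eq_div_iff (Complex.ofReal_ne_zero.2 (hP t i).2.1.ne'), mul_comm]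
      exact (congrArg _ (u2 t i _)).trans this.symm
    have h7 : ∏ α, (u t none α).elim 1 (F (t, z) none) = W t (frm (ξ t) (v t) z) := (hW _ _).symm
    simp only [h6, h7, Complex.add_re, Complex.re_sum, Complex.re_mul_ofReal] at h5
    exact h5.symm

end Pool.Agent.CA9.UB
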