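import Pool.Agent.Lib.MP_ca9be0_an.UB.M0

/-! A finite set with a common good point for boundedly many polynomials. -/

namespace Pool.Agent.CA9.UB

open Finset

theorem la_net (X : Type) [NormedAddCommGroup X] [NormedSpace ℝ X] [FiniteDimensional ℝ X]
    (I : Type) [Fintype I] (e : ℕ) : ∃ U : Finset X, ∀ R : ℝ, ∃ K : ℝ, 0 < K ∧ ∀ f : I → X → ℝ,
      (∀ i, LP e (f i)) → ∃ x ∈ U, ∀ i y, ‖y‖ ≤ R → |f i y| ≤ K * |f i x| := by
  obtain ⟨c, c0, -, hc⟩ := good_point e (Fintype.card I)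
  have hK := KL_pos e
  obtain ⟨t, t1, t2, t3⟩ := (isCompact_closedBall (0 : X) 1).finite_cover_balls
    (e := c / (2 * KL e)) (by positivity)
  refine ⟨t2.toFinset, fun R => ⟨KL e * (1 + |R|) ^ e * (2 / c), by positivity, fun f hf => ?_⟩⟩
  choose m m1 m2 using fun i => (hf i).bdd
  obtain ⟨x, hx, h⟩ := hc (Metric.closedBall (0 : X) 1) univ f (fun i => |f i (m i)|)
    (convex_closedBall _ _) ⟨0, by simp⟩ le_rfl (fun i _ => hf i)
    fun i _ => ⟨m i, by simpa using m1 i, le_rfl⟩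
  obtain ⟨z, hz, h2⟩ := Set.mem_iUnion₂.1 (t3 hx)
  refine ⟨z, t2.mem_toFinset.2 hz, fun i y hy => ((hf i).grow (m2 i) y).trans ?_⟩
  have h3 := (hf i).lip (m2 i) (show ‖x‖ ≤ 1 by simpa using hx) (show ‖z‖ ≤ 1 by simpa using t1 hz)
  have h4 : ‖x - z‖ ≤ c / (2 * KL e) := by rw [← dist_eq_norm]; exact (Metric.mem_ball.1 h2).le
  have h5 : KL e * |f i (m i)| * ‖x - z‖ ≤ KL e * |f i (m i)| * (c / (2 * KL e)) := by gcongr
  have h6 : KL e * |f i (m i)| * (c / (2 * KL e)) = c * |f i (m i)| / 2 := by field_simp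
  have h7 : |f i (m i)| ≤ 2 / c * |f i z| := by
    rw [div_mul_eq_mul_div, le_div_iff₀' c0]
    linarith [abs_sub_abs_le_abs_sub (f i x) (f i z), h i (mem_univ i)]
  have h8 := hy.trans (le_abs_self R)
  calc _ ≤ KL e * (2 / c * |f i z|) * (1 + |R|) ^ e := by gcongr
    _ = _ := by ring

end Pool.Agent.CA9.UB
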