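import Pool.Agent.Lib.MP_ca9be0_an.FinN

/-! One more variable costs at least `d` more squares (anisotropic blow-up along a hyperplane). -/

namespace Pool.Agent.Lib.MP_ca9be0_an.PyF

open Finset Filter Topology

variable {n d : ℕ} {s C : ℝ}

def proj (w : E (n + 1)) : E n := WithLp.toLp 2 fun i => w i.succ

def emb (η : ℝ) (x : E n) : E (n + 1) := WithLp.toLp 2 (Fin.cons η fun i => x i)

def sc (a : ℝ) (w : E (n + 1)) : E (n + 1) := emb (a * w 0) (proj w)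

@[simp] lemma emb_zero (η : ℝ) (x : E n) : emb η x 0 = η := rfl
@[simp] lemma emb_succ (η : ℝ) (x : E n) (i : Fin n) : emb η x i.succ = x i := rfl
@[simp] lemma proj_apply (w : E (n + 1)) (i : Fin n) : proj w i = w i.succ := rfl
@[simp] lemma proj_emb (η : ℝ) (x : E n) : proj (emb η x) = x := rfl
@[simp] lemma sc_emb (a : ℝ) (x : E n) : sc a (emb 0 x) = emb 0 x := by simp [sc]
lemma sc_zero (w : E (n + 1)) : sc 0 w = emb 0 (proj w) := by simp [sc]

lemma normsq (w : E (n + 1)) : ‖w‖ ^ 2 = w 0 ^ 2 + ‖proj w‖ ^ 2 := by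
  simp [EuclideanSpace.real_norm_sq_eq, Fin.sum_univ_succ]

lemma proj_le (w : E (n + 1)) : ‖proj w‖ ≤ ‖w‖ :=
  abs_le_of_sq_le_sq' (by rw [normsq w]; nlinarith [sq_nonneg (w 0)]) (norm_nonneg _) |>.2

lemma Cf.proj (hs : 0 < s) (hC : 0 ≤ C) {f : E n → ℝ} (h : Cf d s C f) :
    Cf d s C fun w => f (proj w) :=
  h.comp hs hC (T := PyF.proj) (fun i => gen_mem (some i.succ)) fun x y => by
    rw [show PyF.proj y - PyF.proj x = PyF.proj (y - x) by ext i; simp]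
    exact proj_le _

lemma Cf.emb (hs : 0 < s) (hC : 0 ≤ C) {f : E (n + 1) → ℝ} (h : Cf d s C f) :
    Cf d s C fun x => f (emb 0 x) := by
  refine h.comp hs hC (Fin.cases (const_mem 1 0) fun i => gen_mem (some i)) fun x y => ?_
  refine (abs_le_of_sq_le_sq' (le_of_eq ?_) (norm_nonneg _)).2
  rw [normsq]
  have : PyF.proj (PyF.emb 0 y - PyF.emb 0 x) = y - x := rfl
  simp [this]

lemma sc_mem (a : ℝ) (i : Fin (n + 1)) : (fun w : E (n + 1) => sc a w i) ∈ Pd (n + 1) 1 :=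
  Fin.cases (Pd_smul a (gen_mem (some 0))) (fun i => gen_mem (some i.succ)) i

lemma sc_cont (w : E (n + 1)) : Continuous fun a => sc a w := by
  refine (PiLp.continuous_toLp 2 _).comp (continuous_pi fun i => ?_)
  exact Fin.cases (continuous_id.mul continuous_const) (fun i => continuous_const) i

lemma sc_le {a : ℝ} (ha : |a| ≤ 1) (w : E (n + 1)) : ‖sc a w‖ ≤ ‖w‖ := by
  refine (abs_le_of_sq_le_sq' ?_ (norm_nonneg _)).2
  rw [normsq, normsq w, sc, proj_emb, emb_zero, mul_pow]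
  nlinarith [sq_nonneg (w 0), (sq_le_one_iff_abs_le_one a).2 ha]

lemma Cf.cont (H : Hs d s) (hC : 0 ≤ C) {f : E n → ℝ} (h : Cf d s C f) : Continuous f :=
  (Cf.inC (d := d) (β := s - d) (by linarith [H.1]) (by simpa using h) hC).1.continuous

lemma stepO (H : Hs d s) (hC : 0 ≤ C) (i₀ : Fin n) {m : ℕ} {g : ℕ → Fin m → E (n + 1) → ℝ}
    (hg : ∀ l q, Cf d s C (g l q)) {ε : ℕ → ℝ} (hε : Tendsto ε atTop (𝓝 0)) {F : E n → ℝ} {T : ℝ}
    (hF : ∀ x, T ≤ x i₀ → F x = 0) (hl : ∀ w, Tendsto (fun l => ∑ q, g l q (sc (ε l) w) ^ 2) atTop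
      (𝓝 (F (proj w) + SS d (w i₀.succ) (w 0)))) :
    d ≤ m ∧ ∃ u : Fin (m - d) → E n → ℝ, (∀ r, Cf d s (m * C) (u r)) ∧
      ∀ x, ∑ r, u r x ^ 2 = F x := by
  have hs := H.pos
  let U : Ultrafilter ℕ := hyperfilter ℕ
  have hU : (U : Filter ℕ) ≤ atTop := Nat.hyperfilter_le_atTop
  choose G hG using fun w => ulim_sq U _ ((hl w).mono_left hU)
  have h1 : ∀ w, ∑ q, G w q ^ 2 = F (proj w) + SS d (w i₀.succ) (w 0) := fun w =>
    tendsto_nhds_unique (tendsto_finsetSum _ fun q _ => (hG w q).pow 2) ((hl w).mono_left hU)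
  have h2 : ∀ x, ∑ q, G (emb 0 x) q ^ 2 = F x := fun x => by simp [h1, SS_zero]
  have h3 : ∀ x q, Tendsto (fun l => g l q (emb 0 x)) U (𝓝 (G (emb 0 x) q)) := fun x q => by
    simpa using hG (emb 0 x) q
  have h4 : ∀ q, Cf d s C fun x => G (emb 0 x) q := fun q =>
    Cf.lim U (fun l => (hg l q).emb hs hC) fun x => h3 x q
  have h5 : ∀ q, (fun w => G w q - G (emb 0 (proj w)) q) ∈ Pd (n + 1) d := fun q => by
    choose P P1 P2 using fun l => hg l q 0
    refine Pd_lim U (P := fun l w => P l (sc (ε l) w) - P l (sc 0 w))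
      (fun l => Pd_sub (Pd_lin (sc_mem _) (P1 l)) (Pd_lin (sc_mem _) (P1 l))) fun w => ?_
    have t0 : Tendsto (fun l => ‖sc (ε l) w - sc 0 w‖) atTop (𝓝 0) :=
      tendsto_iff_norm_sub_tendsto_zero.1 (((sc_cont w).tendsto 0).comp hε)
    have t1 := ((t0.rpow_const (p := s) (Or.inr hs.le)).const_mul C).add
      ((t0.div_const 1).const_mul (Kg (n + 1) d * (C * (1 + (‖sc 0 w‖ + 1) ^ s))))
    rw [Real.zero_rpow hs.ne', zero_div, mul_zero, mul_zero, add_zero] at t1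
    refine ((hG w q).sub (h3 (proj w) q)).congr_dist (Tendsto.mono_left ?_ hU)
    refine squeeze_zero' (Eventually.of_forall fun _ => dist_nonneg) ?_ t1
    filter_upwards [t0.eventually (ge_mem_nhds one_pos)] with l hl
    rw [Real.dist_eq, ← sc_zero]
    exact (hg l q).incr hs hC (P1 l) (P2 l) _ _ hl
  have h6 : ∀ w : E (n + 1), SS d (w i₀.succ) (w 0) - ∑ q, (G w q - G (emb 0 (proj w)) q) ^ 2 =
      2 * ∑ q, (G w q - G (emb 0 (proj w)) q) * G (emb 0 (proj w)) q := fun w => by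
    have e : ∑ q, G w q ^ 2 = ∑ q, (G w q - G (emb 0 (proj w)) q) ^ 2 +
        2 * ∑ q, (G w q - G (emb 0 (proj w)) q) * G (emb 0 (proj w)) q +
        ∑ q, G (emb 0 (proj w)) q ^ 2 := by
      rw [mul_sum, ← sum_add_distrib, ← sum_add_distrib]
      exact sum_congr rfl fun q _ => by ring
    linarith [h1 w, h2 (proj w)]
  have h7 : ∀ w : E (n + 1),
      SS d (w i₀.succ) (w 0) - ∑ q, (G w q - G (emb 0 (proj w)) q) ^ 2 = 0 := by
    refine Pd_half (d := d + d) (Pd_sub (Pd_sum univ fun a _ => ?_) (Pd_sum univ fun q _ => ?_))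
      i₀.succ T fun w hw => ?_
    · have := pp_mem (d := d) (gen_mem (some i₀.succ)) (gen_mem (some 0)) a.succ
      simpa only [sq, gen] using Pd_mul this this
    · simpa only [sq] using Pd_mul (h5 q) (h5 q)
    · have e := (h2 (proj w)).trans (hF _ hw)
      rw [sum_eq_zero_iff_of_nonneg fun _ _ => sq_nonneg _] at e
      rw [h6, sum_eq_zero fun q hq => by rw [pow_eq_zero_iff two_ne_zero |>.1 (e q hq), mul_zero],
        mul_zero]
  obtain ⟨c, c1, c2⟩ := rigid (Fin.succ_ne_zero i₀) h5 fun w => (sub_eq_zero.1 (h7 w)).symm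
  obtain ⟨hd, b, b1, b2⟩ := complement (fun a => c a.succ) fun a b => by simp [c1]
  refine ⟨hd, fun r x => ∑ q, b r q * G (emb 0 x) q, fun r => ?_, fun x => ?_⟩
  · simpa using Cf.sum univ fun q => (h4 q).smul (b1 r q)
  rw [← h2]
  refine b2 _ fun a => ?_
  have h8 : ∀ x : E n, (∀ e : ℕ, x i₀ + e = 0 → e = 0) →
      ∑ q, c a.succ q * G (emb 0 x) q = 0 := fun x hx => by
    have e := (h6 (emb (-((a.succ : ℕ) * x i₀) - (a.succ : ℕ) ^ 2) x)).symm.trans (h7 _)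
    have e2 : ∀ q, ∑ b, c b q * pp d b (x i₀) (-((a.succ : ℕ) * x i₀) - (a.succ : ℕ) ^ 2) =
        c a.succ q * pp d a.succ (x i₀) (-((a.succ : ℕ) * x i₀) - (a.succ : ℕ) ^ 2) := fun q =>
      sum_eq_single _ (fun b _ hb => mul_eq_zero_of_right _
        (pp_zero hb.symm (by rw [ln_on]; simp))) (by simp)
    simp only [c2] at e
    simp only [emb_succ, emb_zero, proj_emb, e2, mul_right_comm (c _ _), ← sum_mul] at e
    exact (mul_eq_zero.1 ((mul_eq_zero.1 e).resolve_left two_ne_zero)).resolve_right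
      (pp_on_ne _ hx)
  have h9 : (fun t : ℝ => ∑ q, c a.succ q * G (emb 0 (x + t • EuclideanSpace.single i₀ 1)) q) =
      fun _ => 0 := by
    refine Continuous.ext_on ((Set.countable_range fun e : ℕ => -(x i₀ + e)).dense_compl ℝ)
      (continuous_finsetSum _ fun q _ => continuous_const.mul (((h4 q).cont H hC).comp
        (by fun_prop))) continuous_const fun t ht => h8 _ fun e he => absurd ⟨e, ?_⟩ ht
    simp at he ⊢
    linarith
  simpa using congrFun h9 0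

lemma tsum_sq {V : Type} [Fintype V] {u : V → ℕ → E n → ℝ} {Z : ℕ → Set (E n)}
    (hZ : ∀ l l' y, y ∈ Z l → y ∈ Z l' → l = l') (hz : ∀ v l y, y ∉ Z l → u v l y = 0) (y : E n) :
    ∑ v, (∑' l, u v l y) ^ 2 = ∑' l, ∑ v, u v l y ^ 2 := by
  obtain ⟨l₀, h⟩ := exists_idx hZ y
  rw [tsum_eq_single l₀ fun l hl => by simp [hz _ l y (h l hl)]]
  exact sum_congr rfl fun v _ => by rw [tsum_eq_single l₀ fun l hl => hz v l y (h l hl)]

lemma pp_bound (a : Fin (d + 1)) {x η r : ℝ} (hr : 1 ≤ r) (hx : |x| ≤ 4 * r) (hη : |η| ≤ 4 * r) :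
    |pp d a x η| ≤ (4 + 4 * d + d ^ 2) ^ d * r ^ d := by
  rw [pp, abs_prod, ← mul_pow]
  refine (prod_le_prod (g := fun _ => (4 + 4 * d + d ^ 2) * r) (fun _ _ => abs_nonneg _)
    fun b _ => ?_).trans (by simp)
  have hb : ((b : ℕ) : ℝ) ≤ d := by exact_mod_cast Nat.lt_succ_iff.1 b.2
  have b0 : (0 : ℝ) ≤ (b : ℕ) := Nat.cast_nonneg _
  have h1 : |(b : ℕ) * x| ≤ d * (4 * r) := by
    rw [abs_mul, abs_of_nonneg b0]; gcongr
  have h2 : ((b : ℕ) : ℝ) ^ 2 ≤ d ^ 2 * r :=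
    (pow_le_pow_left₀ b0 hb 2).trans (le_mul_of_one_le_right (by positivity) hr)
  have h3 := abs_le.1 h1
  have h4 := abs_le.1 hη
  rw [ln, abs_le]
  constructor <;> nlinarith [sq_nonneg ((b : ℕ) : ℝ)]

lemma rec_core {k m M : ℕ} {α β : ℝ} (i₀ : Fin n) (h0 : 0 < α) (h1 : α ≤ 1) (b0 : 0 < β)
    (b1 : β ≤ 1) (hs : k + α = 2 * (d + β)) (hk : d + d ≤ k)
    (h : ∀ G : Fin M ⊕ Fin d → E (n + 1) → ℝ, (∀ v, InC d β (G v)) →
      InC k α (fun y => ∑ v, G v y ^ 2) → ∃ g : Fin m → E (n + 1) → ℝ, (∀ j, InC d β (g j)) ∧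
        ∀ y, ∑ v, G v y ^ 2 = ∑ j, g j y ^ 2)
    (G : Fin M → E n → ℝ) (hG : ∀ i, InC d β (G i)) (hf : InC k α fun x => ∑ i, G i x ^ 2) :
    d ≤ m ∧ ∃ g : Fin (m - d) → E n → ℝ, (∀ j, InC d β (g j)) ∧
      ∀ x, ∑ i, G i x ^ 2 = ∑ j, g j x ^ 2 := by
  have H : Hs d (d + β) := ⟨by linarith, by linarith⟩
  have H' : Hs k (k + α) := ⟨by linarith, by linarith⟩
  obtain ⟨ρ, hρ⟩ : ∃ ρ : ℕ → ℝ, ρ = fun l => 4 ^ l := ⟨_, rfl⟩
  obtain ⟨R, hR⟩ : ∃ R : ℕ → ℝ, R = fun l => ((Nat.unpair l).1 : ℝ) + 1 := ⟨_, rfl⟩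
  obtain ⟨lam, hlam⟩ : ∃ lam : ℕ → ℝ, lam = fun l => ρ l ^ (β / (d + 1)) := ⟨_, rfl⟩
  obtain ⟨z, hz⟩ : ∃ z : ℕ → E (n + 1), z = fun l => emb (5 * ρ l) 0 := ⟨_, rfl⟩
  have ρ1 : ∀ l : ℕ, (l : ℝ) + 1 ≤ ρ l := fun l => by
    rw [hρ]; dsimp only
    exact_mod_cast Nat.succ_le_of_lt (Nat.lt_pow_self (n := l) (a := 4) (by norm_num))
  have R1 : ∀ l, 1 ≤ R l := fun l => by rw [hR]; simp
  have R0 : ∀ l, 0 < R l := fun l => one_pos.trans_le (R1 l)
  have Rρ : ∀ l, R l ≤ ρ l := fun l => le_trans (by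
    rw [hR]; simpa using Nat.unpair_left_le l) (ρ1 l)
  have ρ2 : ∀ l, 1 ≤ ρ l := fun l => (R1 l).trans (Rρ l)
  have ρ0 : ∀ l, 0 < ρ l := fun l => one_pos.trans_le (ρ2 l)
  have l1 : ∀ l, 1 ≤ lam l := fun l => by rw [hlam]; exact Real.one_le_rpow (ρ2 l) (by positivity)
  have pz : ∀ l w, proj (w - z l) = proj w := fun l w => by ext i; simp [hz]
  have z0 : ∀ l (w : E (n + 1)), (w - z l) 0 = w 0 - 5 * ρ l := fun l w => by simp [hz]
  let Z : ℕ → Set (E (n + 1)) := fun l => {w | |w 0 - 5 * ρ l| < 3 * ρ l}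
  have hZ : ∀ l l' y, y ∈ Z l → y ∈ Z l' → l = l' := by
    have key : ∀ l l' y, y ∈ Z l → y ∈ Z l' → ¬ l < l' := fun l l' y a b hl => by
      have : 4 * ρ l ≤ ρ l' := by
        rw [hρ]; dsimp only; rw [← pow_succ']; exact pow_le_pow_right₀ (by norm_num) hl
      have a' : |y 0 - 5 * ρ l| < 3 * ρ l := a
      have b' : |y 0 - 5 * ρ l'| < 3 * ρ l' := b
      linarith [(abs_lt.1 a').2, (abs_lt.1 b').1]
    exact fun l l' y a b => le_antisymm (not_lt.1 (key _ _ y b a)) (not_lt.1 (key _ _ y a b))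
  have off : ∀ l x, x ∉ Z l → ∀ y, ‖y - x‖ ≤ 1 → chi (z l) (R l) y = 0 ∧ chi (z l) (ρ l) y = 0 := by
    intro l x hx y hy
    have a1 : |(y - x) 0| ≤ 1 := (PiLp.norm_apply_le (y - x) 0).trans hy
    have a2 : |(y - z l) 0| ≤ ‖y - z l‖ := PiLp.norm_apply_le (y - z l) 0
    have a3 : 3 * ρ l ≤ |x 0 - 5 * ρ l| := not_lt.1 hx
    have a4 := abs_sub ((y - z l) 0) ((y - x) 0)
    rw [z0, PiLp.sub_apply, sub_sub_sub_cancel_left] at a4
    rw [z0] at a2
    rw [PiLp.sub_apply] at a1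
    exact ⟨chi_zero (R0 l) (by linarith [ρ2 l, Rρ l]), chi_zero (ρ0 l) (by linarith [ρ2 l])⟩
  obtain ⟨q, hq⟩ : ∃ q : Fin d → ℕ → E (n + 1) → ℝ,
    q = fun a l w => pp d a.succ (w i₀.succ) (lam l * (w 0 - 5 * ρ l)) := ⟨_, rfl⟩
  have q1 : ∀ a l, q a l ∈ Pd (n + 1) d := fun a l => by
    rw [hq]; exact pp_mem (gen_mem (some i₀.succ)) (Pd_smul _ (coord_mem 0 _)) _
  have q2 : ∀ a l y, ‖y - z l‖ ≤ 4 * ρ l →
      |q a l y| ≤ (4 + 4 * d + d ^ 2) ^ d * ρ l ^ (d + β) := fun a l y hy => by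
    have a1 : |y i₀.succ| ≤ 4 * ρ l := by
      simpa [hz] using (PiLp.norm_apply_le (y - z l) i₀.succ).trans hy
    have a2 : |y 0 - 5 * ρ l| ≤ 4 * ρ l := z0 l y ▸ (PiLp.norm_apply_le (y - z l) 0).trans hy
    have a3 := l1 l
    have a4 := ρ2 l
    rw [hq]
    refine (pp_bound (r := ρ l * lam l) _ (by nlinarith) (by nlinarith) ?_).trans ?_
    · rw [abs_mul, abs_of_pos (a := lam l) (by linarith)]; nlinarith
    · rw [mul_pow, Real.rpow_add (ρ0 l), Real.rpow_natCast, hlam]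
      dsimp only
      rw [← Real.rpow_mul_natCast (ρ0 l).le]
      gcongr
      rw [div_mul_eq_mul_div, div_le_iff₀ (by positivity)]
      nlinarith
  -- the pieces
  obtain ⟨u, hu⟩ : ∃ u : Fin M ⊕ Fin d → ℕ → E (n + 1) → ℝ, u = Sum.elim
    (fun i l w => chi (z l) (R l) w * G i (proj w)) fun a l w => chi (z l) (ρ l) w * q a l w :=
    ⟨_, rfl⟩
  have u0 : ∀ v l x, x ∉ Z l → ∀ y, ‖y - x‖ ≤ 1 → u v l y = 0 := fun v l x hx y hy => by
    rcases v with i | a <;> simp [hu, off l x hx y hy]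
  have u1 : ∀ v, InC d β fun y => ∑' l, u v l y := fun v => by
    have : ∃ C, 0 ≤ C ∧ ∀ l, Cf d (d + β) C (u v l) := by
      rcases v with i | a
      · obtain ⟨C, c0, c1⟩ := Cf.of_inC b0 hG
        obtain ⟨B, c2, c3⟩ := (c1 i).growth H c0
        obtain ⟨C', c4, c5⟩ := Cf.cut H z R0 (c0.trans c2) (u := fun _ w => G i (proj w))
          (fun _ => ((c1 i).proj H.pos c0).mono c2) fun l y hy =>
            c3 _ (R1 l) _ (pz l y ▸ (proj_le _).trans hy)
        exact ⟨C', by linarith, by simpa [hu] using c5⟩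
      · obtain ⟨C', c4, c5⟩ := Cf.cut H z ρ0 (by positivity)
          (fun l => Cf.poly (q1 a l) (by positivity)) (q2 a)
        exact ⟨C', le_trans (by positivity) c4, by simpa [hu] using c5⟩
    obtain ⟨C, c0, c1⟩ := this
    exact (Cf.glue H c1 c0 hZ (u0 v)).inC b0 (by positivity)
  have u2 : ∀ l y, ∑ v, u v l y ^ 2 = chi (z l) (R l) y ^ 2 * ∑ i, G i (proj y) ^ 2 +
      ∑ a, chi (z l) (ρ l) y ^ 2 * q a l y ^ 2 := fun l y => by
    simp [hu, mul_pow, mul_sum]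
  have u3 := tsum_sq hZ fun v l y hy => u0 v l y hy y (by simp)
  have u4 : InC k α fun y => ∑ v, (∑' l, u v l y) ^ 2 := by
    obtain ⟨C, c0, c1⟩ := Cf.of_inC h0 fun _ : Unit => hf
    obtain ⟨B, c2, c3⟩ := (c1 ()).growth H' c0
    obtain ⟨C1, c4, c5⟩ := Cf.cut2 H' z R0 (c0.trans c2)
      (u := fun _ w => ∑ i, G i (proj w) ^ 2) (fun _ => ((c1 ()).proj H'.pos c0).mono c2)
      fun l y hy => c3 _ (R1 l) _ (pz l y ▸ (proj_le _).trans hy)
    obtain ⟨C2, c6, c7⟩ := Cf.cut2 H' (κ := Fin d × ℕ) (fun p => z p.2) (fun p => ρ0 p.2)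
      (C := ((4 + 4 * d + d ^ 2) ^ d) ^ 2) (by positivity) (u := fun p w => q p.1 p.2 w ^ 2)
      (fun p => Cf.poly (by simpa only [sq] using Pd_mono hk (Pd_mul (q1 _ _) (q1 _ _)))
        (by positivity)) fun p y hy => by
        rw [hs, mul_comm 2, Real.rpow_mul (ρ0 _).le, Real.rpow_two, ← mul_pow, abs_pow]
        exact pow_le_pow_left₀ (abs_nonneg _) (q2 _ _ y hy) 2
    simp only [u3, u2]
    refine (Cf.glue H' (fun l => (c5 l).add (Cf.sum univ fun a => c7 (a, l))) (by positivity) hZ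
      fun l x hx y hy => ?_).inC h0 (by positivity)
    simp [off l x hx y hy]
  obtain ⟨g, g1, g2⟩ := h _ u1 u4
  obtain ⟨C, c0, c1⟩ := Cf.of_inC b0 g1
  have key : ∀ a : ℕ, d ≤ m ∧ ∃ u : Fin (m - d) → E n → ℝ, (∀ r, Cf d (d + β) (m * C) (u r)) ∧
      ∀ x, ∑ r, u r x ^ 2 = chi 0 (a + 1) (emb 0 x) ^ 2 * ∑ i, G i x ^ 2 := fun a => by
    have t0 : Tendsto (fun j => ρ (Nat.pair a j)) atTop atTop :=
      tendsto_atTop_mono (fun j => le_trans (by
        have : (j : ℝ) ≤ Nat.pair a j := by exact_mod_cast Nat.right_le_pair a j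
        linarith) (ρ1 _)) tendsto_natCast_atTop_atTop
    have t1 : Tendsto (fun j => (lam (Nat.pair a j))⁻¹) atTop (𝓝 0) := by
      rw [hlam]
      exact tendsto_inv_atTop_zero.comp ((tendsto_rpow_atTop (by positivity)).comp t0)
    refine stepO H c0 i₀ (g := fun j r w => g r (w + z (Nat.pair a j))) (fun j r => (c1 r).comp
      H.pos c0 (fun i => Pd_add (gen_mem (some i)) (const_mem 1 _)) fun x y => by simp) t1
      (T := 2 * (a + 1)) (fun x hx => ?_) fun w => ?_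
    · rw [chi_zero (by positivity), zero_pow two_ne_zero, zero_mul]
      rw [sub_zero]
      exact hx.trans ((le_abs_self _).trans (PiLp.norm_apply_le (emb 0 x) i₀.succ))
    have t2 : Tendsto (fun j => chi 0 (a + 1) (sc (lam (Nat.pair a j))⁻¹ w)) atTop
        (𝓝 (chi 0 (a + 1) (emb 0 (proj w)))) := by
      rw [← sc_zero]
      have : Continuous (chi (0 : E (n + 1)) (a + 1)) :=
        Real.smoothTransition.continuous.comp (by fun_prop)
      exact (this.tendsto _).comp (((sc_cont w).tendsto 0).comp t1)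
    refine (((t2.pow 2).mul_const _).add_const _).congr' ?_
    filter_upwards [t0.eventually_ge_atTop ‖w‖] with j hj
    generalize hl : Nat.pair a j = l at hj
    have e1 : R l = a + 1 := by rw [← hl, hR]; simp
    have e2 : ‖sc (lam l)⁻¹ w‖ ≤ ρ l := (sc_le (by
      rw [abs_of_nonneg (inv_nonneg.2 (by linarith [l1 l]))]
      exact inv_le_one_of_one_le₀ (l1 l)) w).trans hj
    have e3 : (sc (lam l)⁻¹ w + z l) 0 - 5 * ρ l = (lam l)⁻¹ * w 0 := by simp [hz, sc]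
    have e4 : sc (lam l)⁻¹ w + z l ∈ Z l := by
      have := (PiLp.norm_apply_le (sc (lam l)⁻¹ w) 0).trans e2
      change |(sc (lam l)⁻¹ w + z l) 0 - 5 * ρ l| < 3 * ρ l
      rw [e3]
      exact lt_of_le_of_lt this (by linarith [ρ0 l])
    have e5 : proj (sc (lam l)⁻¹ w + z l) = proj w := by ext i; simp [hz, sc]
    rw [← g2, u3, tsum_eq_single l fun l' hl' => sum_eq_zero fun v _ => by
      rw [u0 v l' _ (fun h => hl' (hZ _ _ _ h e4)) _ (by simp), zero_pow two_ne_zero], u2, e5,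
      chi_one (ρ0 l) (by simpa using e2), e1]
    have e6 : lam l * ((lam l)⁻¹ * w 0) = w 0 := mul_inv_cancel_left₀ (by linarith [l1 l]) _
    have e7 : (sc (lam l)⁻¹ w + z l) i₀.succ = w i₀.succ := by simp [hz, sc]
    simp only [hq, e3, e6, e7, chi, add_sub_cancel_right, sub_zero, one_pow, one_mul, SS]
  choose v v1 v2 using fun a => (key a).2
  let U : Ultrafilter ℕ := hyperfilter ℕ
  have t : ∀ x, Tendsto (fun a => ∑ r, v a r x ^ 2) U (𝓝 (∑ i, G i x ^ 2)) := fun x => by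
    refine (tendsto_const_nhds.congr' ?_).mono_left Nat.hyperfilter_le_atTop
    filter_upwards [tendsto_natCast_atTop_atTop.eventually_ge_atTop ‖emb 0 x‖] with a ha
    rw [v2, chi_one (by positivity) (by rw [sub_zero]; linarith), one_pow, one_mul]
  choose w hw using fun x => ulim_sq U _ (t x)
  exact ⟨(key 0).1, fun r x => w x r, fun r => (Cf.lim U (fun a => v1 a r) fun x => hw x r).inC b0
    (by positivity), fun x => tendsto_nhds_unique (t x)
      (tendsto_finsetSum _ fun r _ => (hw x r).pow 2)⟩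

end Pool.Agent.Lib.MP_ca9be0_an.PyF
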