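import Pool.Agent.Lib.MP_ca9be0_an.UB.Lo1

/-! Transversal jets along a line: size, modulus of continuity, second differences. -/

namespace Pool.Agent.Lib.MP_ca9be0_an.PyF.Lp

open Finset Filter Topology

variable {b d m : ℕ} {s C : ℝ}

/-- the point with first coordinate `a` and other coordinates `y` -/
def pt (a : ℝ) (y : Fin b → ℝ) : E (b + 1) := WithLp.toLp 2 (Fin.cons a y)

@[simp] lemma pt_zero (a : ℝ) (y : Fin b → ℝ) : pt a y 0 = a := rfl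

@[simp] lemma pt_succ (a : ℝ) (y : Fin b → ℝ) (i : Fin b) : pt a y i.succ = y i := rfl

lemma pt_sub (a a' : ℝ) (y y' : Fin b → ℝ) : pt a y - pt a' y' = pt (a - a') (y - y') := by
  ext i
  refine Fin.cases ?_ (fun i => ?_) i <;> simp

lemma norm_pt (a : ℝ) (y : Fin b → ℝ) : ‖pt a y‖ ^ 2 = a ^ 2 + ∑ i, y i ^ 2 := by
  simp [EuclideanSpace.real_norm_sq_eq, Fin.sum_univ_succ]

lemma norm_pt0 (a : ℝ) : ‖pt a (0 : Fin b → ℝ)‖ = |a| :=
  (sq_eq_sq₀ (norm_nonneg _) (abs_nonneg _)).1 (by simp [norm_pt])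

lemma norm_pt_mul {ρ : Fin b → ℝ} {r : ℝ} (hr : 0 ≤ r) (h : ∀ i, |ρ i| ≤ r) (η : Fin b → ℝ) :
    ‖pt 0 (ρ * η)‖ ≤ r * ‖pt 0 η‖ := by
  refine abs_le_of_sq_le_sq' ?_ (by positivity) |>.2
  rw [mul_pow, norm_pt, norm_pt]
  simp only [ne_eq, OfNat.ofNat_ne_zero, not_false_eq_true, zero_pow, zero_add, mul_sum,
    Pi.mul_apply, mul_pow]
  exact sum_le_sum fun i _ => mul_le_mul_of_nonneg_right
    (sq_le_sq' (abs_le.1 (h i)).1 (abs_le.1 (h i)).2) (sq_nonneg _)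

lemma pt_diff (a : ℝ) (y : Fin b → ℝ) : pt a y - pt a 0 = pt 0 y := by
  rw [pt_sub, sub_self, sub_zero]

lemma pt_diff0 (a t : ℝ) (y : Fin b → ℝ) : pt (a + t) y - pt a 0 = pt t y := by
  rw [pt_sub, add_sub_cancel_left, sub_zero]

lemma abs_le_pt (a : ℝ) (y : Fin b → ℝ) : |a| ≤ ‖pt a y‖ := PiLp.norm_apply_le (pt a y) 0

/-- the coefficient functional -/
noncomputable def La (d : ℕ) (γ : Ix b) (F : (Fin b → ℝ) → ℝ) : ℝ :=
  ∑ η ∈ ((exists_dual (Id b d)).choose γ).support, (exists_dual (Id b d)).choose γ η * F η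

lemma La_spec {γ : Ix b} (h : γ ∈ Id b d) (q : Ix b → ℝ) :
    La d γ (fun η => ∑ δ ∈ Id b d, q δ * mon δ η) = q γ :=
  (exists_dual (Id b d)).choose_spec γ h q

lemma La_sub (γ : Ix b) (F G : (Fin b → ℝ) → ℝ) :
    La d γ F - La d γ G = La d γ fun η => F η - G η := by
  simp only [La, mul_sub, sum_sub_distrib]

lemma La_le (γ : Ix b) (B : (Fin b → ℝ) → ℝ) (hB : ∀ η, 0 ≤ B η) : ∃ K, 0 ≤ K ∧
    ∀ (F : (Fin b → ℝ) → ℝ) (t : ℝ), (∀ η, |F η| ≤ B η * t) → |La d γ F| ≤ K * t := by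
  refine ⟨∑ η ∈ ((exists_dual (Id b d)).choose γ).support,
    |(exists_dual (Id b d)).choose γ η| * B η, sum_nonneg fun η _ => mul_nonneg (abs_nonneg _)
      (hB η), fun F t h => (abs_sum_le_sum_abs _ _).trans ?_⟩
  rw [sum_mul]
  exact sum_le_sum fun η _ => by
    rw [abs_mul, mul_assoc]; exact mul_le_mul_of_nonneg_left (h η) (abs_nonneg _)

lemma expand {Q : E (b + 1) → ℝ} (hQ : Q ∈ Pd (b + 1) d) (a : ℝ) :
    ∃ q : Ix b → ℝ, ∀ y, Q (pt a y) = ∑ δ ∈ Id b d, q δ * mon δ y := by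
  obtain ⟨q, h1, h2⟩ := exists_mv (Pd_lin (T := fun y : E b => pt a fun i => y i)
    (fun i => Fin.cases (const_mem 1 a) (fun i => gen_mem (some i)) i) hQ)
  refine ⟨fun δ => q.coeff δ, fun y => ?_⟩
  rw [← show _ = Q (pt a y) from h2 (WithLp.toLp 2 y), MvPolynomial.eval_eq']
  refine sum_subset (fun δ hδ => mem_Id.2 ?_) fun δ _ hδ => by
    rw [MvPolynomial.notMem_support_iff.1 hδ, zero_mul]
  have := (MvPolynomial.le_totalDegree hδ).trans h1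
  rwa [Finsupp.sum_fintype _ _ fun _ => rfl] at this

lemma expand' {Q : E (b + 1) → ℝ} (hQ : Q ∈ Pd (b + 1) d) (a : ℝ) : ∃ q : Ix b → ℝ,
    (∀ ρ, ∀ γ ∈ Id b d, La d γ (fun η => Q (pt a (ρ * η))) = q γ * mon γ ρ) ∧
    ∀ ρ y, Q (pt a (ρ * y)) = ∑ δ ∈ Id b d, La d δ (fun η => Q (pt a (ρ * η))) * mon δ y := by
  obtain ⟨q, h⟩ := expand hQ a
  have h1 : ∀ ρ, ∀ γ ∈ Id b d, La d γ (fun η => Q (pt a (ρ * η))) = q γ * mon γ ρ :=
    fun ρ γ hγ => by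
      simp only [h, mon_mul, ← mul_assoc]
      exact La_spec hγ fun δ => q δ * mon δ ρ
  exact ⟨q, h1, fun ρ y => by
    rw [h]; exact sum_congr rfl fun δ hδ => by rw [h1 ρ δ hδ, mon_mul, mul_assoc]⟩

lemma La_bound {γ : Ix b} (hγ : γ ∈ Id b d) : ∃ K, 0 ≤ K ∧ ∀ Q ∈ Pd (b + 1) d, ∀ a r t, 0 < r →
    PB Q (pt a 0) r t → ∀ ρ, |La d γ fun η => Q (pt a (ρ * η))| ≤
      K * t * (|mon γ ρ| / r ^ dg γ) := by
  have := Kg_pos (b + 1) d
  obtain ⟨K, h1, h2⟩ := La_le (d := d) γ (fun η => Kg (b + 1) d * max 1 ‖pt 0 η‖ ^ d)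
    fun η => by positivity
  refine ⟨K, h1, fun Q hQ a r t hr h ρ => ?_⟩
  obtain ⟨q, h3, -⟩ := expand' hQ a
  have h4 := h2 (fun η => Q (pt a ((fun _ => r) * η))) t fun η => by
    refine (h.grow hQ hr _).trans ?_
    rw [pt_diff, mul_right_comm]
    have t0 := h.nonneg hr.le
    gcongr
    rw [div_le_iff₀' hr]
    exact norm_pt_mul hr.le (fun _ => (abs_of_pos hr).le) η
  rw [h3 _ γ hγ, mon_const, abs_mul, abs_of_pos (pow_pos hr _), ← le_div_iff₀ (pow_pos hr _)] at h4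
  rw [h3 _ γ hγ, abs_mul]
  exact (mul_le_mul_of_nonneg_right h4 (abs_nonneg _)).trans (le_of_eq (by ring))

/-- the scaled transversal jet at a point of the line -/
noncomputable def ju (d : ℕ) (P : E (b + 1) → E (b + 1) → ℝ) (ρ : Fin b → ℝ) (γ : Ix b) (a : ℝ) :
    ℝ := La d γ fun η => P (pt a 0) (pt a (ρ * η))

lemma ju_mod (H : Hs d s) (hC : 0 ≤ C) {γ : Ix b} (hγ : γ ∈ Id b d) : ∃ K, 0 ≤ K ∧
    ∀ (g : E (b + 1) → ℝ) (P : E (b + 1) → E (b + 1) → ℝ), (∀ x, P x ∈ Pd (b + 1) d) →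
      (∀ x y, |g y - P x y| ≤ C * ‖y - x‖ ^ s) → ∀ ρ R a B t, 0 < R →
      |mon γ ρ| * R ^ (s - dg γ) ≤ 1 → (∀ τ, |τ| ≤ R → |ju d P ρ γ (a + τ)| ≤ B) → |t| ≤ R →
      |ju d P ρ γ (a + t) - ju d P ρ γ a| ≤
        K * (|t| / R) ^ (s - dg γ) + Kg 1 d * (B + K) * (|t| / R) := by
  obtain ⟨K, h1, h2⟩ := La_bound hγ
  have s0 := sub_dg_pos H.1 hγ
  refine ⟨K * (C * (2 ^ s + 1)), by positivity, fun g P hP hg ρ R a B t hR hρ hB ht => ?_⟩
  obtain ⟨h, hh⟩ : ∃ h : ℝ → ℝ, h = fun τ => La d γ fun η => P (pt a 0) (pt (a + τ) (ρ * η)) :=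
    ⟨_, rfl⟩
  have h3 : ∀ τ, |ju d P ρ γ (a + τ) - h τ| ≤ K * (C * (2 ^ s + 1)) * (|τ| / R) ^ (s - dg γ) := by
    intro τ
    rcases eq_or_ne τ 0 with rfl | t0
    · simp only [hh, ju, add_zero, sub_self, abs_zero]
      positivity
    have t1 := abs_pos.2 t0
    have h4 := h2 _ (Pd_sub (hP (pt (a + τ) 0)) (hP (pt a 0))) (a + τ) |τ|
      (C * (2 ^ s + 1) * |τ| ^ s) t1 (fun y hy => by
        have a1 : ‖y - pt a 0‖ ≤ 2 * |τ| := by
          have := tri (pt (a + τ) 0) y (pt a 0)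
          rw [pt_diff0, norm_pt0] at this
          linarith
        have a2 := mul_le_mul_of_nonneg_left (Real.rpow_le_rpow (norm_nonneg _) a1 H.pos.le) hC
        have a3 := mul_le_mul_of_nonneg_left (Real.rpow_le_rpow (norm_nonneg _) hy H.pos.le) hC
        have a4 := abs_sub_le (P (pt (a + τ) 0) y) (g y) (P (pt a 0) y)
        rw [abs_sub_comm _ (g y)] at a4
        rw [Real.mul_rpow zero_le_two t1.le] at a2
        linarith [hg (pt (a + τ) 0) y, hg (pt a 0) y]) ρ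
    rw [hh, ju, La_sub]
    refine h4.trans ?_
    have a5 : |mon γ ρ| ≤ (R ^ (s - dg γ))⁻¹ := by
      rwa [← one_div, le_div_iff₀ (by positivity)]
    rw [Real.div_rpow t1.le hR.le, Real.rpow_sub t1, Real.rpow_natCast]
    calc _ = K * (C * (2 ^ s + 1)) * (|τ| ^ s / |τ| ^ dg γ * |mon γ ρ|) := by ring
      _ ≤ _ := by rw [div_eq_mul_inv _ (R ^ _)]; gcongr
  have h5 : (fun w : E 1 => h (w 0)) ∈ Pd 1 d := by
    rw [hh]
    exact Pd_sum _ fun η _ => Pd_smul _ (Pd_lin (T := fun w : E 1 => pt (a + w 0) (ρ * η))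
      (fun i => Fin.cases (Pd_add (const_mem 1 a) (gen_mem (some 0)))
        (fun i => const_mem 1 _) i) (hP _))
  have h6 : PB (fun w : E 1 => h (w 0)) (pt 0 0) R (B + K * (C * (2 ^ s + 1))) := fun w hw => by
    have a1 : |w 0| ≤ R := by simpa using (PiLp.norm_apply_le (w - pt 0 0) 0).trans hw
    have a2 := mul_le_mul_of_nonneg_left (Real.rpow_le_one (by positivity)
      ((div_le_one hR).2 a1) s0.le) (show 0 ≤ K * (C * (2 ^ s + 1)) by positivity)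
    have a3 := abs_sub (ju d P ρ γ (a + w 0)) (ju d P ρ γ (a + w 0) - h (w 0))
    rw [sub_sub_cancel] at a3
    linarith [hB _ a1, h3 (w 0)]
  have e : ‖pt t (0 : Fin 0 → ℝ) - pt 0 0‖ = |t| := by rw [pt_sub, sub_zero, sub_zero, norm_pt0]
  have h7 := h6.lip h5 hR (pt t 0) (e.trans_le ht)
  rw [e, pt_zero, pt_zero, show h 0 = ju d P ρ γ a by simp only [hh, ju, add_zero]] at h7
  linarith [abs_sub_le (ju d P ρ γ (a + t)) (h t) (ju d P ρ γ a), h3 t]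

lemma second (H : Hs d s) (hC : 0 ≤ C) {g : E (b + 1) → ℝ} (hg : Cf d s C g) (a : ℝ) {h : ℝ}
    (h0 : 0 < h) (h1 : h ≤ 1) (hb : ∀ τ, |τ| ≤ 1 → |g (pt (a + τ) 0)| ≤ 6) :
    |g (pt (a + h) 0) + g (pt (a + -h) 0) - 2 * g (pt (a + 0) 0)| ≤
      2 * C * h ^ s + 2 * (Kg 1 d * (6 + C)) * h ^ 2 := by
  obtain ⟨P, p1, p2⟩ := hg.comp H.pos hC (T := fun w : E 1 => pt (a + w 0) 0)
    (fun i => Fin.cases (Pd_add (const_mem 1 a) (gen_mem (some 0))) (fun i => const_mem 1 _) i)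
    (fun x y => by
      rw [pt_sub, sub_zero, norm_pt0, add_sub_add_left_eq_sub]
      exact PiLp.norm_apply_le (y - x) 0) (pt 0 0)
  have p3 : PB P (pt 0 0) 1 (6 + C) := fun w hw => by
    have a1 : |w 0| ≤ 1 := by simpa using (PiLp.norm_apply_le (w - pt 0 0) 0).trans hw
    have a2 := mul_le_mul_of_nonneg_left (Real.rpow_le_one (norm_nonneg _) hw H.pos.le) hC
    have a3 := abs_sub (g (pt (a + w 0) 0)) (g (pt (a + w 0) 0) - P w)
    rw [sub_sub_cancel] at a3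
    linarith [hb _ a1, p2 w]
  obtain ⟨p, p4, p5⟩ := p3.trunc p1 one_pos 1
  have e : ∀ t : ℝ, ‖pt t (0 : Fin 0 → ℝ) - pt 0 0‖ = |t| := fun t => by
    rw [pt_sub, sub_zero, sub_zero, norm_pt0]
  have k : ∀ t : ℝ, |t| ≤ 1 → |g (pt (a + t) 0) - p (pt t 0)| ≤
      C * |t| ^ s + Kg 1 d * (6 + C) * |t| ^ 2 := fun t ht => by
    have a1 : |g (pt (a + t) 0) - P (pt t 0)| ≤ _ := p2 (pt t 0)
    have a2 := (p5 (pt t 0) ((e t).trans_le ht)).2
    rw [e, div_one] at a2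
    rw [e] at a1
    exact (abs_sub_le _ (P (pt t 0)) _).trans (add_le_add a1 a2)
  have k1 := k h (by rwa [abs_of_pos h0])
  have k2 := k (-h) (by rwa [abs_neg, abs_of_pos h0])
  have k3 := k 0 (by simp)
  have k4 := aff_dec (by simpa only [Pd, pow_one] using p4) (pt 0 0) (-1) (pt h 0)
  rw [show pt 0 0 + (-1 : ℝ) • pt h (0 : Fin 0 → ℝ) = pt (-h) 0 by ext i; fin_cases i; simp,
    show pt 0 0 + pt h (0 : Fin 0 → ℝ) = pt h 0 by ext i; fin_cases i; simp] at k4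
  rw [abs_neg] at k2
  rw [abs_of_pos h0] at k1 k2
  rw [abs_zero, Real.zero_rpow H.pos.ne', zero_pow two_ne_zero, mul_zero, mul_zero, zero_add,
    abs_nonpos_iff] at k3
  rw [abs_le] at k1 k2 ⊢
  constructor <;> linarith [k1.1, k1.2, k2.1, k2.2]

lemma chi_tend {n : ℕ} {F : Filter ℕ} {z y y' : ℕ → E n} {R : ℕ → ℝ} (hR : ∀ l, 0 < R l)
    (h : Tendsto (fun l => ‖y l - y' l‖ / R l) F (𝓝 0)) :
    Tendsto (fun l => |chi (z l) (R l) (y l) ^ 2 - chi (z l) (R l) (y' l) ^ 2|) F (𝓝 0) := by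
  obtain ⟨C, η, c0, c1, h1⟩ := chi_TN (d := 0) z hR
  refine squeeze_zero' (g := fun l => 2 * ((Kg n 0 + 1) * (C * 1) / η) * (‖y l - y' l‖ / R l))
    (Eventually.of_forall fun _ => abs_nonneg _) ?_ (by simpa using h.const_mul _)
  filter_upwards [h.eventually (ge_mem_nhds c1)] with l hl
  have h2 := (h1 (l, y' l)).2.lip (y := y l) ((div_le_iff₀ (hR l)).1 hl)
  have h3 := abs_add_le (chi (z l) (R l) (y l)) (chi (z l) (R l) (y' l))
  rw [sq_sub_sq, abs_mul]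
  refine (mul_le_mul (b := 2) (by linarith [chi_abs (z l) (R l) (y l), chi_abs (z l) (R l) (y' l)])
    h2 (abs_nonneg _) zero_le_two).trans (le_of_eq ?_)
  have := hR l
  field_simp

end Pool.Agent.Lib.MP_ca9be0_an.PyF.Lp
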