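import Pool.Agent.Lib.MP_ca9be0_an.UB.Lo2

/-! The limit along separated scales. -/

namespace Pool.Agent.Lib.MP_ca9be0_an.PyF.Lp

open Finset Filter Topology

variable {b d m : ℕ} {s C : ℝ}

/-- the coefficient of the square of a monomial in the example -/
noncomputable def co (κ Y R : ℝ) (γ : Ix b) (x : ℝ) (y : Fin b → ℝ) : ℝ :=
  (if γ = 0 then κ ^ 2 + x ^ 2 else 1) * chi (pt Y 0) R (pt (Y + x) y) ^ 2

lemma last_step {I : Finset (Ix b)} {v : Ix b → Fin m → ℝ} {w : ℝ → Fin m → ℝ}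
    {δ B : ℝ} (hδ : 0 < δ) (h1 : δ ≤ 1) (e : v 0 = w 0)
    (hv : ∀ γ ∈ I, ∀ γ' ∈ I, γ ≠ γ' → v γ ⬝ᵥ v γ' = 0) (hv' : ∀ γ ∈ I, γ ≠ 0 → v γ ⬝ᵥ v γ = 1)
    (hw : ∀ t, |t| ≤ 1 → w t ⬝ᵥ w t = δ ^ 2 + t ^ 2)
    (hw' : ∀ t, |t| ≤ 1 → ∀ γ ∈ I, γ ≠ 0 → w t ⬝ᵥ v γ = 0)
    (hB : ∀ j, |w δ j + w (-δ) j - 2 * w 0 j| ≤ B) : I.card + 1 ≤ m ∨ 4 / 5 * δ ≤ m * B := by
  have w0 : w 0 ⬝ᵥ w 0 = δ ^ 2 := by simpa using hw 0 (by simp)
  have key : ∀ t, |t| ≤ 1 → I.card + 1 ≤ m ∨ (w t ⬝ᵥ w 0) ^ 2 = δ ^ 2 * (δ ^ 2 + t ^ 2) := by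
    intro t ht
    by_cases c : δ ^ 2 • w t - (w t ⬝ᵥ w 0) • w 0 = 0
    · have := congrArg (· ⬝ᵥ w t) c
      simp only [sub_dotProduct, smul_dotProduct, zero_dotProduct, smul_eq_mul, hw t ht,
        dotProduct_comm (w 0) (w t)] at this
      exact Or.inr (by linear_combination -this)
    have k : ∀ γ ∈ I, (δ ^ 2 • w t - (w t ⬝ᵥ w 0) • w 0) ⬝ᵥ v γ = 0 := fun γ hγ => by
      simp only [sub_dotProduct, smul_dotProduct, smul_eq_mul]
      by_cases c' : γ = 0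
      · rw [c', e, w0]; ring
      · rw [hw' t ht γ hγ c', hw' 0 (by simp) γ hγ c']; ring
    left
    have := card_le_of_orth (ι := Option I)
      (fun o => o.elim (δ ^ 2 • w t - (w t ⬝ᵥ w 0) • w 0) fun γ => v γ.1) ?_ ?_
    · simpa using this
    · rintro (_ | ⟨γ, hγ⟩)
      · exact c
      · intro (c' : v γ = 0)
        by_cases c2 : γ = 0
        · rw [← e, ← c2, c', zero_dotProduct] at w0
          exact (pow_pos hδ 2).ne w0
        · simpa [c'] using hv' γ hγ c2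
    · rintro (_ | ⟨γ, hγ⟩) (_ | ⟨γ', hγ'⟩) c'
      · exact absurd rfl c'
      · exact k γ' hγ'
      · exact (dotProduct_comm _ _).trans (k γ hγ)
      · exact hv γ hγ γ' hγ' fun c2 => c' (by simp only [c2])
  have a1 : |δ| ≤ 1 := by rwa [abs_of_pos hδ]
  rcases key δ a1 with k1 | k1
  · exact Or.inl k1
  rcases key (-δ) (by rwa [abs_neg]) with k2 | k2
  · exact Or.inl k2
  right
  have a2 : ∀ j, |w 0 j| ≤ δ := fun j => abs_le_of_sq_le_sq' (by
    rw [← w0, sq]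
    exact single_le_sum (f := fun j => w 0 j * w 0 j) (fun _ _ => mul_self_nonneg _)
      (mem_univ j)) hδ.le |> abs_le.2
  have a3 : |w δ ⬝ᵥ w 0 + w (-δ) ⬝ᵥ w 0 - 2 * δ ^ 2| ≤ m * B * δ := by
    rw [← w0, dotProduct, dotProduct, dotProduct, mul_sum, ← sum_add_distrib, ← sum_sub_distrib]
    refine (abs_sum_le_sum_abs _ _).trans ((sum_le_sum (g := fun _ => B * δ) fun j _ => ?_).trans
      (by simp [mul_assoc]))
    rw [show w δ j * w 0 j + w (-δ) j * w 0 j - 2 * (w 0 j * w 0 j) =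
      (w δ j + w (-δ) j - 2 * w 0 j) * w 0 j by ring, abs_mul]
    exact mul_le_mul (hB j) (a2 j) (abs_nonneg _) ((abs_nonneg _).trans (hB j))
  have a4 : ∀ a : ℝ, a ^ 2 = 2 * (δ ^ 2) ^ 2 →
      a = √2 * δ ^ 2 ∨ a = -(√2 * δ ^ 2) := fun a ha => sq_eq_sq_iff_eq_or_eq_neg.1 (by
    rw [mul_pow, Real.sq_sqrt zero_le_two, ha])
  have a5 : (1.4 : ℝ) ≤ √2 := Real.le_sqrt_of_sq_le (by norm_num)
  have a6 := mul_le_mul_of_nonneg_right a5 (sq_nonneg δ)
  refine le_of_mul_le_mul_right (le_trans ?_ a3) hδ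
  rcases a4 _ (k1.trans (by ring)) with c | c <;> rcases a4 _ (k2.trans (by ring)) with c' | c' <;>
    rw [c, c', le_abs] <;> [left; right; right; right] <;> nlinarith [sq_nonneg δ]

lemma core (H : Hs d s) (hC : 0 ≤ C) {g : Fin m → E (b + 1) → ℝ} (hg : ∀ j, Cf d s C (g j))
    (U : Ultrafilter ℕ) {r : Ix b → ℝ} {R : Ix b → ℕ → ℝ} {ρ : ℕ → Fin b → ℝ}
    {Y T κ ε : ℕ → ℝ} {δ : ℝ} (hi : Set.InjOn r (Id b d))
    (hm : ∀ γ ∈ Id b d, ∀ δ ∈ Id b d, ∀ δ' ∈ Id b d, δ + δ' = γ + γ → r γ < r δ → r δ' < r γ)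
    (h0 : ∀ γ ∈ Id b d, r 0 ≤ r γ) (R0 : ∀ l, R 0 l = 1) (R1 : ∀ γ ∈ Id b d, ∀ l, 1 ≤ R γ l)
    (RT : ∀ γ ∈ Id b d, ∀ l, R γ l ≤ T l)
    (hs : ∀ γ ∈ Id b d, ∀ δ ∈ Id b d, r γ < r δ → Tendsto (fun l => R γ l / R δ l) U (𝓝 0))
    (hρ : ∀ γ ∈ Id b d, ∀ l, |mon γ (ρ l)| * R γ l ^ (s - dg γ) ≤ 1) (hε : ∀ l i, |ρ l i| ≤ ε l)
    (ε0 : ∀ l, 0 ≤ ε l) (ε1 : ∀ l, ε l ≤ 1) (εt : Tendsto ε U (𝓝 0)) (κ1 : ∀ l, |κ l| ≤ 1)
    (κδ : ∀ᶠ l in U, κ l = δ) (δ0 : 0 < δ) (δ1 : δ ≤ 1)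
    (hf : ∀ l x η, |x| ≤ 3 * T l → ∑ j, g j (pt (Y l + x) (ρ l * η)) ^ 2 =
      ∑ γ ∈ Id b d, co (κ l) (Y l) (R γ l) γ x (ρ l * η) * mon γ η ^ 2) :
    (Id b d).card + 1 ≤ m ∨
      4 / 5 * δ ≤ m * (2 * C * δ ^ s + 2 * (Kg 1 d * (6 + C)) * δ ^ 2) := by
  choose P P1 P2 using id hg
  have T1 : ∀ l, 1 ≤ T l := fun l => (R1 0 zero_mem l).trans (RT 0 zero_mem l)
  have Rp : ∀ γ ∈ Id b d, ∀ l, 0 < R γ l := fun γ hγ l => one_pos.trans_le (R1 γ hγ l)
  have fac : ∀ (γ : Ix b) l x, |if γ = 0 then κ l ^ 2 + x ^ 2 else 1| ≤ 5 ∨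
      ∀ y : Fin b → ℝ, chi (pt (Y l) 0) (R γ l) (pt (Y l + x) y) = 0 := fun γ l x => by
    split_ifs with c
    swap
    · exact Or.inl (by norm_num)
    rcases le_total |x| 2 with c' | c'
    · left
      rw [abs_of_nonneg (by positivity), ← sq_abs x, ← sq_abs (κ l)]
      nlinarith [κ1 l, abs_nonneg x, abs_nonneg (κ l)]
    · refine Or.inr fun y => chi_zero (by rw [c, R0]; exact one_pos) ?_
      rw [c, R0, pt_diff0, mul_one]
      exact c'.trans (abs_le_pt x y)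
  have co5 : ∀ (γ : Ix b) l x y, |co (κ l) (Y l) (R γ l) γ x y| ≤ 5 := fun γ l x y => by
    rw [co, abs_mul, abs_pow]
    rcases fac γ l x with c | c
    · exact (mul_le_of_le_one_right (abs_nonneg _)
        (pow_le_one₀ (abs_nonneg _) (chi_abs _ _ _))).trans c
    · simp [c]
  have gb : ∀ l x η j, |x| ≤ 3 * T l → |g j (pt (Y l + x) (ρ l * η))| ≤
      1 + ∑ γ ∈ Id b d, 5 * mon γ η ^ 2 := fun l x η j hx => by
    have a1 := single_le_sum (f := fun j => g j (pt (Y l + x) (ρ l * η)) ^ 2)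
      (fun _ _ => sq_nonneg _) (mem_univ j)
    have a2 := sum_le_sum (s := Id b d) fun γ _ => mul_le_mul_of_nonneg_right
      ((le_abs_self _).trans (co5 γ l x (ρ l * η))) (sq_nonneg (mon γ η))
    rw [hf l x η hx, ← sq_abs] at a1
    nlinarith [sq_nonneg (|g j (pt (Y l + x) (ρ l * η))| - 1)]
  have nb : ∀ l η, ‖pt 0 (ρ l * η)‖ ≤ ε l * ‖pt 0 η‖ := fun l => norm_pt_mul (ε0 l) (hε l)
  have jb : ∀ γ : Ix b, ∃ B, ∀ l x j, |x| ≤ 3 * T l → |ju d (P j) (ρ l) γ (Y l + x)| ≤ B :=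
    fun γ => by
    obtain ⟨K, -, h⟩ := La_le (d := d) γ (fun η => 1 + ∑ γ ∈ Id b d, 5 * mon γ η ^ 2 +
      C * ‖pt 0 η‖ ^ s) fun η => by positivity
    refine ⟨K * 1, fun l x j hx => h _ 1 fun η => ?_⟩
    have a1 := P2 j (pt (Y l + x) 0) (pt (Y l + x) (ρ l * η))
    have a2 := mul_le_mul_of_nonneg_left (Real.rpow_le_rpow (norm_nonneg _) ((nb l η).trans
      (mul_le_of_le_one_left (norm_nonneg _) (ε1 l))) H.pos.le) hC
    have a3 := abs_sub (g j (pt (Y l + x) (ρ l * η))) (g j (pt (Y l + x) (ρ l * η)) -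
      P j (pt (Y l + x) 0) (pt (Y l + x) (ρ l * η)))
    rw [pt_diff] at a1
    rw [sub_sub_cancel] at a3
    linarith [gb l x η j hx]
  choose B hB using jb
  let X := {x : ℕ → ℝ // ∀ l, |x l| ≤ 2 * T l}
  have x3 : ∀ (x : X) l, |x.1 l| ≤ 3 * T l := fun x l => by linarith [x.2 l, T1 l]
  choose V hV using fun (x : X) γ j => ulim U (fun l => ju d (P j) (ρ l) γ (Y l + x.1 l)) (B γ)
    (Eventually.of_forall fun l => hB γ l _ j (x3 x l))
  choose Ψ hΨ using fun (x : X) γ => ulim U (fun l => co (κ l) (Y l) (R γ l) γ (x.1 l) 0) 5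
    (Eventually.of_forall fun l => co5 γ l _ _)
  have gl : ∀ (x : X) η j, Tendsto (fun l => g j (pt (Y l + x.1 l) (ρ l * η))) U
      (𝓝 (∑ γ ∈ Id b d, V x γ j * mon γ η)) := fun x η j => by
    refine (tendsto_finsetSum _ fun γ _ => (hV x γ j).mul_const _).congr_dist
      (squeeze_zero (g := fun l => C * (ε l * ‖pt 0 η‖) ^ s) (fun _ => dist_nonneg) (fun l => ?_) ?_)
    · obtain ⟨q, -, h⟩ := expand' (P1 j (pt (Y l + x.1 l) 0)) (Y l + x.1 l)
      have a1 := P2 j (pt (Y l + x.1 l) 0) (pt (Y l + x.1 l) (ρ l * η))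
      rw [pt_diff, h] at a1
      rw [dist_comm]
      exact a1.trans (mul_le_mul_of_nonneg_left
        (Real.rpow_le_rpow (norm_nonneg _) (nb l η) H.pos.le) hC)
    · have := ((εt.mul_const ‖pt 0 η‖).rpow_const (p := s) (Or.inr H.pos.le)).const_mul C
      rwa [zero_mul, Real.zero_rpow H.pos.ne', mul_zero] at this
  have cl : ∀ (x : X) η, ∀ γ ∈ Id b d, Tendsto (fun l => co (κ l) (Y l) (R γ l) γ (x.1 l)
      (ρ l * η)) U (𝓝 (Ψ x γ)) := fun x η γ hγ => by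
    have a1 := (chi_tend (F := U) (z := fun l => pt (Y l) 0)
      (y := fun l => pt (Y l + x.1 l) (ρ l * η)) (y' := fun l => pt (Y l + x.1 l) 0) (Rp γ hγ)
      (squeeze_zero (g := fun l => ε l * ‖pt 0 η‖)
        (fun l => div_nonneg (norm_nonneg _) (Rp γ hγ l).le) (fun l => by
          rw [pt_diff]
          exact (div_le_self (norm_nonneg _) (R1 γ hγ l)).trans (nb l η))
        (by simpa using εt.mul_const _))).const_mul 5
    rw [mul_zero] at a1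
    refine (hΨ x γ).congr_dist (squeeze_zero (fun _ => dist_nonneg) (fun l => ?_) a1)
    rw [dist_comm, Real.dist_eq, co, co, ← mul_sub, abs_mul]
    rcases fac γ l (x.1 l) with c | c
    · exact mul_le_mul_of_nonneg_right c (abs_nonneg _)
    · simp [c]
  have close : ∀ x x' : X, ∀ γ ∈ Id b d, γ ≠ 0 →
      Tendsto (fun l => |x'.1 l - x.1 l| / R γ l) U (𝓝 0) → V x' γ = V x γ ∧ Ψ x' γ = Ψ x γ := by
    intro x x' γ hγ c t
    refine ⟨funext fun j => tendsto_nhds_unique (hV x' γ j) ((hV x γ j).congr_dist ?_),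
      tendsto_nhds_unique (hΨ x' γ) ((hΨ x γ).congr_dist ?_)⟩
    · obtain ⟨K, -, h⟩ := ju_mod H hC hγ
      have s0 := sub_dg_pos H.1 hγ
      have a1 := ((t.rpow_const (p := s - dg γ) (Or.inr s0.le)).const_mul K).add
        (t.const_mul (Kg 1 d * (B γ + K)))
      rw [Real.zero_rpow s0.ne', mul_zero, mul_zero, add_zero] at a1
      refine squeeze_zero' (Eventually.of_forall fun _ => dist_nonneg) ?_ a1
      filter_upwards [t.eventually (ge_mem_nhds one_pos)] with l hl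
      have := h _ _ (P1 j) (P2 j) (ρ l) _ (Y l + x.1 l) (B γ) (x'.1 l - x.1 l) (Rp γ hγ l)
        (hρ γ hγ l) (fun τ hτ => by
          rw [add_assoc]
          exact hB γ l _ j (by linarith [abs_add_le (x.1 l) τ, x.2 l, RT γ hγ l]))
        ((div_le_one (Rp γ hγ l)).1 hl)
      rwa [add_assoc, add_sub_cancel, ← Real.dist_eq, dist_comm] at this
    · refine (chi_tend (n := b + 1) (F := U) (z := fun l => pt (Y l) 0)
        (y := fun l => pt (Y l + x.1 l) 0) (y' := fun l => pt (Y l + x'.1 l) 0) (Rp γ hγ)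
        (t.congr fun l => ?_)).congr fun l => ?_
      · rw [pt_sub, sub_zero, norm_pt0, add_sub_add_left_eq_sub, abs_sub_comm]
      · rw [co, co, if_neg c, if_neg c, one_mul, one_mul, Real.dist_eq]
  have orth := forced (U := V) (Ψ := Ψ) hi hm (fun x η => tendsto_nhds_unique
    (tendsto_finsetSum _ fun j _ => (gl x η j).pow 2) ((tendsto_finsetSum _ fun γ hγ =>
      (cl x η γ hγ).mul_const _).congr fun l => (hf l _ η (x3 x l)).symm)) fun x γ hγ => by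
    have a1 : ∀ l, |2 * R γ l| = 2 * R γ l := fun l => abs_of_pos (by linarith [Rp γ hγ l])
    refine ⟨⟨fun l => if 2 * R γ l ≤ |x.1 l| then x.1 l else 2 * R γ l, fun l => ?_⟩,
      tendsto_nhds_unique (hΨ _ γ) (tendsto_const_nhds.congr fun l => ?_), fun γ' hγ' c =>
      close _ _ γ' hγ' (fun e => (h0 γ hγ).not_gt (e ▸ c)) (squeeze_zero
        (fun l => div_nonneg (abs_nonneg _) (Rp γ' hγ' l).le) (fun l => ?_)
        (by simpa using (hs γ hγ γ' hγ' c).const_mul 4))⟩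
    · dsimp only
      split_ifs
      · exact x.2 l
      · linarith [a1 l, RT γ hγ l]
    · rw [co, chi_zero (Rp γ hγ l), zero_pow two_ne_zero, mul_zero]
      rw [pt_diff0, norm_pt0]
      dsimp only
      split_ifs with c
      · exact c
      · exact (a1 l).ge
    · rw [← mul_div_assoc]
      refine div_le_div_of_nonneg_right ?_ (Rp γ' hγ' l).le
      dsimp only
      split_ifs with c
      · simpa using (Rp γ hγ l).le
      · linarith [abs_sub (2 * R γ l) (x.1 l), a1 l, not_le.1 c]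
  let cs : ℝ → X := fun t => ⟨fun _ => if |t| ≤ 1 then t else 0, fun l => by
    split_ifs with c
    · linarith [T1 l]
    · simpa using zero_le_one.trans (T1 l)⟩
  have cv : ∀ t, |t| ≤ 1 → ∀ l, (cs t).1 l = t := fun t ht l => if_pos ht
  have c1 : ∀ t, |t| ≤ 1 → ∀ γ ∈ Id b d, ∀ l,
      chi (pt (Y l) (0 : Fin b → ℝ)) (R γ l) (pt (Y l + t) 0) = 1 := fun t ht γ hγ l =>
    chi_one (Rp γ hγ l) (by rw [pt_diff0, norm_pt0]; exact ht.trans (R1 γ hγ l))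
  have a0 : |(0 : ℝ)| ≤ 1 := by simp
  have gw : ∀ t, |t| ≤ 1 → ∀ j, Tendsto (fun l => g j (pt (Y l + t) 0)) U (𝓝 (V (cs t) 0 j)) :=
    fun t ht j => by
    have := gl (cs t) 0 j
    rw [sum_eq_single_of_mem 0 zero_mem fun γ _ c => by rw [mon_origin c, mul_zero], mon_zero,
      mul_one] at this
    simpa only [cv t ht, mul_zero] using this
  have a1 : |δ| ≤ 1 := by rwa [abs_of_pos δ0]
  refine last_step (v := V (cs 0)) (w := fun t => V (cs t) 0) δ0 δ1 rfl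
    (fun γ hγ γ' hγ' c => (orth γ hγ _ γ' hγ').trans (if_neg c))
    (fun γ hγ c => (orth γ hγ _ γ hγ).trans ((if_pos rfl).trans (tendsto_nhds_unique (hΨ _ γ)
      (tendsto_const_nhds.congr fun l => ?_))))
    (fun t ht => (orth 0 zero_mem _ 0 zero_mem).trans ((if_pos rfl).trans
      (tendsto_nhds_unique (hΨ _ 0) (tendsto_const_nhds.congr' ?_))))
    (fun t ht γ hγ c => ?_) fun j => le_of_tendsto' (((gw δ a1 j).add (gw (-δ) (by rwa [abs_neg])
      j)).sub ((gw 0 a0 j).const_mul 2)).abs fun l => second H hC (hg j) _ δ0 δ1 fun τ hτ => ?_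
  · rw [co, if_neg c, cv 0 a0, c1 0 a0 γ hγ, one_pow, one_mul]
  · filter_upwards [κδ] with l hl
    rw [co, if_pos rfl, cv t ht, c1 t ht 0 zero_mem, one_pow, mul_one, hl]
  · rw [← (close (cs 0) (cs t) γ hγ c (squeeze_zero
      (fun l => div_nonneg (abs_nonneg _) (Rp γ hγ l).le) (fun l => ?_) (hs 0 zero_mem γ hγ
        ((h0 γ hγ).lt_of_ne fun e => c (hi hγ zero_mem e.symm))))).1]
    · exact (orth 0 zero_mem _ γ hγ).trans (if_neg c.symm)
    · rw [cv t ht, cv 0 a0, sub_zero, R0]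
      exact div_le_div_of_nonneg_right ht (Rp γ hγ l).le
  · have := gb l τ 0 j (by linarith [T1 l])
    rw [sum_eq_single_of_mem 0 zero_mem fun γ _ c => by
      rw [mon_origin c, zero_pow two_ne_zero, mul_zero], mon_zero, mul_zero] at this
    linarith

end Pool.Agent.Lib.MP_ca9be0_an.PyF.Lp
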