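import Pool.Agent.Lib.MP_ca9be0_an.UB.LG1

/-! Independence of real powers, interpolation at separated nodes, common good points. -/

namespace Pool.Agent.CA9.UB

open Finset

lemma pow_indep (S : Finset ℝ) : ∀ a : ℝ, 0 < a → a < 1 → ∃ K : ℝ, 0 < K ∧
    ∀ (c : ℝ → ℝ) (m : ℝ), (∀ t, a ≤ t → t ≤ 1 → |∑ e ∈ S, c e * t ^ e| ≤ m) →
      ∀ e ∈ S, |c e| ≤ K * m := by
  classical
  induction S using Finset.induction_on with
  | empty => exact fun a _ _ => ⟨1, one_pos, fun c m _ e he => absurd he (notMem_empty e)⟩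
  | insert f S hf ih =>
    intro a h0 h1
    set l := Real.sqrt a with hl
    have l0 : 0 < l := Real.sqrt_pos.2 h0
    have ll : l * l = a := Real.mul_self_sqrt h0.le
    have l1 : l < 1 := by nlinarith
    have al : a ≤ l := by nlinarith
    obtain ⟨K, hK, H⟩ := ih l l0 l1
    have hD : ∀ e ∈ S, 0 < |l ^ e - l ^ f| := fun e he => by
      refine abs_pos.2 (sub_ne_zero.2 fun h => hf ?_)
      have := (Real.rpow_right_inj l0 l1.ne).1 h
      exact this ▸ he
    have hf0 : 0 < l ^ f := Real.rpow_pos_of_pos l0 f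
    have hL : ∀ e ∈ S, 0 ≤ K * (1 + l ^ f) / |l ^ e - l ^ f| := fun e he => by positivity
    have hL' := sum_nonneg hL
    refine ⟨1 + ∑ e ∈ S, K * (1 + l ^ f) / |l ^ e - l ^ f|, by linarith, fun c m hm => ?_⟩
    have m0 : 0 ≤ m := (abs_nonneg _).trans (hm 1 h1.le le_rfl)
    have key : ∀ e ∈ S, |c e| ≤ K * (1 + l ^ f) / |l ^ e - l ^ f| * m := fun e he => by
      have h2 := H (fun e => c e * (l ^ e - l ^ f)) ((1 + l ^ f) * m) (fun t ht ht1 => by
        have t0 : 0 < t := l0.trans_le ht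
        have h3 := hm (l * t) (by nlinarith) (by nlinarith)
        have h4 := hm t (al.trans ht) ht1
        have h5 : ∑ e ∈ S, c e * (l ^ e - l ^ f) * t ^ e =
            ∑ e ∈ insert f S, c e * (l * t) ^ e - l ^ f * ∑ e ∈ insert f S, c e * t ^ e := by
          rw [mul_sum, ← sum_sub_distrib, sum_insert hf, Real.mul_rpow l0.le t0.le]
          have : c f * (l ^ f * t ^ f) - l ^ f * (c f * t ^ f) = 0 := by ring
          rw [this, zero_add]
          exact sum_congr rfl fun e _ => by rw [Real.mul_rpow l0.le t0.le]; ring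
        rw [h5]
        refine (abs_sub _ _).trans ?_
        rw [abs_mul, abs_of_pos hf0]
        nlinarith) e he
      rw [abs_mul] at h2
      rw [div_mul_eq_mul_div, le_div_iff₀ (hD e he)]
      linarith
    intro e he
    rcases mem_insert.1 he with rfl | he
    · have h2 := hm 1 h1.le le_rfl
      simp only [Real.one_rpow, mul_one, sum_insert hf] at h2
      have h3 : |∑ g ∈ S, c g| ≤ (∑ g ∈ S, K * (1 + l ^ e) / |l ^ g - l ^ e|) * m := by
        rw [sum_mul]
        exact (abs_sum_le_sum_abs _ _).trans (sum_le_sum key)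
      have h4 : |c e| ≤ |c e + ∑ g ∈ S, c g| + |∑ g ∈ S, c g| := by
        have := abs_sub (c e + ∑ g ∈ S, c g) (∑ g ∈ S, c g)
        rwa [add_sub_cancel_right] at this
      linarith
    · have h2 := single_le_sum hL he
      have h3 := key e he
      nlinarith

lemma sep_nodes (e : ℕ) (R : ℝ) {δ : ℝ} (hδ : 0 < δ) : ∃ K : ℝ, 0 < K ∧
    ∀ (q : Polynomial ℝ) (c : Fin (e + 1) → ℝ) (m t : ℝ), q.natDegree ≤ e → (∀ i, |c i| ≤ R) →
      (∀ i k, i ≠ k → δ ≤ |c i - c k|) → (∀ i, |q.eval (c i)| ≤ m) → |t| ≤ R →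
      |q.eval t| ≤ K * m := by
  refine ⟨(e + 1) * (2 * |R| / δ + 1) ^ e, by positivity, fun q c m t hq hc hs hm ht => ?_⟩
  have R0 : 0 ≤ R := (abs_nonneg _).trans ht
  have m0 : 0 ≤ m := (abs_nonneg _).trans (hm 0)
  have inj : Set.InjOn c (univ : Finset (Fin (e + 1))) := fun i _ k _ h => by
    by_contra hn
    have := hs i k hn
    rw [h, sub_self, abs_zero] at this
    linarith
  have h1 : q.degree < (univ : Finset (Fin (e + 1))).card := by
    rw [card_univ, Fintype.card_fin]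
    exact lt_of_le_of_lt (Polynomial.degree_le_of_natDegree_le hq)
      (by exact_mod_cast Nat.lt_succ_self e)
  have h2 := Lagrange.eq_interpolate inj h1
  rw [Lagrange.interpolate_apply] at h2
  have h3 : q.eval t = ∑ i, q.eval (c i) * ∏ k ∈ univ.erase i, (c i - c k)⁻¹ * (t - c k) := by
    conv_lhs => rw [h2]
    simp [Polynomial.eval_finsetSum, Lagrange.basis, Polynomial.eval_prod, Lagrange.basisDivisor]
  rw [h3]
  refine (abs_sum_le_sum_abs _ _).trans ?_
  have h4 : ∀ i ∈ (univ : Finset (Fin (e + 1))),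
      |q.eval (c i) * ∏ k ∈ univ.erase i, (c i - c k)⁻¹ * (t - c k)| ≤
        (2 * |R| / δ + 1) ^ e * m := fun i _ => by
    rw [abs_mul, mul_comm, abs_prod]
    refine mul_le_mul ?_ (hm i) (abs_nonneg _) (by positivity)
    refine (prod_le_prod (g := fun _ => 2 * |R| / δ + 1) (fun _ _ => abs_nonneg _)
      fun k hk => ?_).trans (by simp)
    have h5 := hs i k (ne_of_mem_erase hk).symm
    have h6 : |t - c k| ≤ 2 * |R| := by
      rw [abs_of_nonneg R0]; have := abs_sub t (c k); linarith [hc k]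
    rw [abs_mul, abs_inv, mul_comm, ← div_eq_mul_inv]
    exact (div_le_div₀ (by positivity) h6 hδ h5).trans (by linarith)
  refine (sum_le_sum h4).trans (le_of_eq ?_)
  simp only [sum_const, card_univ, Fintype.card_fin, nsmul_eq_mul]
  push_cast; ring

/-- at most `N` polynomials have a common good point in `[0,1]` -/
lemma good1 (e N : ℕ) : ∃ c : ℝ, 0 < c ∧ c ≤ 1 ∧ ∀ {α : Type} (s : Finset α) (q : α → Polynomial ℝ)
    (m : α → ℝ), s.card ≤ N → (∀ a ∈ s, (q a).natDegree ≤ e) →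
    (∀ a ∈ s, ∃ t, 0 ≤ t ∧ t ≤ 1 ∧ m a ≤ |(q a).eval t|) →
    ∃ t, 0 ≤ t ∧ t ≤ 1 ∧ ∀ a ∈ s, c * m a ≤ |(q a).eval t| := by
  classical
  have hG : (0 : ℝ) < N * e + 1 := by positivity
  obtain ⟨K, hK, H⟩ := sep_nodes e 1 (δ := 1 / (N * e + 1)) (by positivity)
  refine ⟨1 / (2 * K + 1), by positivity, by rw [div_le_one (by positivity)]; linarith,
    fun s q m hs hq hm => ?_⟩
  have hin : ∀ k ∈ range (N * e + 1), (0 : ℝ) ≤ k / (N * e + 1) ∧ (k : ℝ) / (N * e + 1) ≤ 1 :=
    fun k hk => ⟨by positivity, by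
      rw [div_le_one hG]; exact_mod_cast (mem_range.1 hk).le⟩
  set B := fun a => (range (N * e + 1)).filter fun k : ℕ =>
    |(q a).eval ((k : ℝ) / (N * e + 1))| < 1 / (2 * K + 1) * m a with hB
  have hc : ∀ a ∈ s, (B a).card ≤ e := fun a ha => by
    by_contra hn
    obtain ⟨T, hT, hT'⟩ := exists_subset_card_eq (Nat.succ_le_of_lt (not_le.1 hn))
    obtain ⟨t, t0, t1, ht⟩ := hm a ha
    set φ := T.orderEmbOfFin hT'
    have hφ : ∀ i, φ i ∈ B a := fun i => hT (orderEmbOfFin_mem _ _ _)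
    have h1 := H (q a) (fun i => (φ i : ℝ) / (N * e + 1)) (1 / (2 * K + 1) * m a) t (hq a ha)
      (fun i => by
        obtain ⟨h0, h1⟩ := hin _ (mem_filter.1 (hφ i)).1
        rwa [abs_of_nonneg h0])
      (fun i k hik => by
        rw [← sub_div, abs_div, abs_of_pos hG]
        refine div_le_div_of_nonneg_right ?_ hG.le
        have h2 : ((φ i : ℤ) - φ k) ≠ 0 := sub_ne_zero.2 fun h => hik (φ.injective (by exact_mod_cast h))
        exact_mod_cast Int.one_le_abs h2)
      (fun i => (mem_filter.1 (hφ i)).2.le) (by rwa [abs_of_nonneg t0])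
    have h2 := (abs_nonneg _).trans_lt (mem_filter.1 (hφ 0)).2
    have h3 : m a = (2 * K + 1) * (1 / (2 * K + 1) * m a) := by field_simp
    nlinarith
  have h1 : (s.biUnion B).card < (range (N * e + 1)).card := by
    rw [card_range]
    refine Nat.lt_succ_of_le (card_biUnion_le.trans ((sum_le_card_nsmul _ _ _ hc).trans ?_))
    rw [smul_eq_mul]; exact Nat.mul_le_mul_right _ hs
  obtain ⟨k, hk, hk'⟩ := exists_mem_notMem_of_card_lt_card h1
  refine ⟨_, (hin k hk).1, (hin k hk).2, fun a ha => not_lt.1 fun h => hk' ?_⟩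
  exact mem_biUnion.2 ⟨a, ha, mem_filter.2 ⟨hk, h⟩⟩

/-- at most `N` functions of class `LP e` have a common good point in a convex set -/
lemma good_point (e N : ℕ) : ∃ c : ℝ, 0 < c ∧ c ≤ 1 ∧ ∀ {X α : Type} [AddCommGroup X] [Module ℝ X]
    (B : Set X) (s : Finset α) (F : α → X → ℝ) (m : α → ℝ), Convex ℝ B → B.Nonempty → s.card ≤ N →
    (∀ a ∈ s, LP e (F a)) → (∀ a ∈ s, ∃ x ∈ B, m a ≤ |F a x|) →
    ∃ x ∈ B, ∀ a ∈ s, c * m a ≤ |F a x| := by
  classical
  induction N with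
  | zero =>
    refine ⟨1, one_pos, le_rfl, fun B s F m _ hB hs _ _ => ?_⟩
    obtain ⟨x, hx⟩ := hB
    rw [Nat.le_zero, card_eq_zero] at hs
    exact ⟨x, hx, fun a ha => absurd (hs ▸ ha) (notMem_empty a)⟩
  | succ N ih =>
    obtain ⟨c, c0, c1, H⟩ := ih
    obtain ⟨c', c0', c1', H'⟩ := good1 e (N + 1)
    refine ⟨c' * c, by positivity, mul_le_one₀ c1' c0.le c1, fun B s F m hB hB' hs hF hm => ?_⟩
    rcases s.eq_empty_or_nonempty with rfl | ⟨a₀, ha₀⟩
    · obtain ⟨x, hx⟩ := hB'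
      exact ⟨x, hx, fun a ha => absurd ha (notMem_empty a)⟩
    obtain ⟨x, hx, h1⟩ := H B (s.erase a₀) F m hB hB' (by rw [card_erase_of_mem ha₀]; omega)
      (fun a ha => hF a (mem_of_mem_erase ha)) (fun a ha => hm a (mem_of_mem_erase ha))
    obtain ⟨y, hy, h2⟩ := hm a₀ ha₀
    choose! q hq hq' using fun a ha => hF a ha x (y - x)
    obtain ⟨t, t0, t1, ht⟩ := H' s q (fun a => c * m a) hs hq fun a ha => by
      by_cases h : a = a₀
      · refine ⟨1, zero_le_one, le_rfl, ?_⟩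
        rw [← hq' a ha, one_smul, add_sub_cancel, h]
        nlinarith [abs_nonneg (F a₀ y)]
      · refine ⟨0, le_rfl, zero_le_one, ?_⟩
        rw [← hq' a ha, zero_smul, add_zero]
        exact h1 a (mem_erase.2 ⟨h, ha⟩)
    refine ⟨x + t • (y - x), hB.add_smul_sub_mem hx hy ⟨t0, t1⟩, fun a ha => ?_⟩
    rw [hq' a ha, mul_assoc]
    exact ht a ha

end Pool.Agent.CA9.UB
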