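import Pool.Agent.Lib.MP_ca9be0_an.UB.Defs
import Pool.Agent.Lib.MP_ca9be0_an.UB.M0

/-! Basic facts on gauges. -/

namespace Pool.Agent.CA9.UB

open Finset Matrix Pool.Agent.Lib.MP_ca9be0_an.PyF

variable {N n k j M m d e e' : ℕ} {s : ℝ}

lemma Pd_LP {p : E N → ℝ} (hp : p ∈ Pd N e) : LP e p :=
  Pd_ind (C := fun e p => LP e p) (fun e c => LP.const e c) (fun _ _ _ hp hq => hp.add hq)
    (fun e c _ hp => (hp.smul c).mono (Nat.le_succ e))
    (fun e c i _ hp => by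
      rw [add_comm]
      exact ((LP.linear (EuclideanSpace.projₗ i : E N →ₗ[ℝ] ℝ)).smul c).mul hp) hp

/-- substitution of a map with affine coordinates -/
lemma Pd_comp1 {p : E N → ℝ} (hp : p ∈ Pd N e) {S : E k → E N}
    (hS : ∀ i, (fun θ => S θ i) ∈ Pd k 1) : (fun θ => p (S θ)) ∈ Pd k e :=
  Pd_ind (C := fun e p => (fun θ => p (S θ)) ∈ Pd k e) (fun e c => const_mem e c)
    (fun _ _ _ hp hq => Pd_add hp hq) (fun e c _ hp => Pd_mono (Nat.le_succ e) (Pd_smul c hp))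
    (fun e c i _ hp => by rw [add_comm]; exact Pd_mul (Pd_smul c (hS i)) hp) hp

lemma line_mem (a b : ℝ) (i : Fin k) : (fun θ : E k => a + θ i * b) ∈ Pd k 1 := by
  simpa [gen, mul_comm] using Pd_add (const_mem 1 a) (Pd_smul b (gen_mem (some i)))

variable {G G' : Gg M N j} {T : Fin M → E N → ℝ}

theorem IsGauge.lp (h : IsGauge d e G) (hT : PV d T) :
    LP e fun z : E N × (Fin j → E N) => G T z.1 z.2 := fun x y => by
  have h1 := h.poly 1 1 (fun _ => T) (fun θ => x.1 + θ 0 • y.1) (fun θ => x.2 + θ 0 • y.2)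
    (fun _ => hT) (fun w z => const_mem 1 _) (fun i => by simpa using line_mem (x.1 i) (y.1 i) 0)
    (fun l i => by simpa using line_mem (x.2 l i) (y.2 l i) 0)
  rw [mul_one] at h1
  obtain ⟨q, h2, h3⟩ := Pd_LP h1 0 (EuclideanSpace.single 0 1)
  exact ⟨q, h2, fun t => by simpa using h3 t⟩

theorem IsGauge.mul' (h : IsGauge d e G) (h' : IsGauge d e' G') :
    IsGauge d (e + e') fun T u v => G T u v * G' T u v where
  nn T u v := mul_nonneg (h.nn T u v) (h'.nn T u v)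
  poly p a T u v h1 h2 h3 h4 := by
    rw [add_mul]; exact Pd_mul (h.poly p a T u v h1 h2 h3 h4) (h'.poly p a T u v h1 h2 h3 h4)
  cmp R hR := by
    obtain ⟨C, C0, H⟩ := h.cmp R hR
    obtain ⟨C', C0', H'⟩ := h'.cmp R hR
    refine ⟨C * C', mul_pos C0 C0', fun T T' κ t c u v a1 a2 a3 a4 a5 a6 a7 a8 a9 => ?_⟩
    have := mul_le_mul (H T T' κ t c u v a1 a2 a3 a4 a5 a6 a7 a8 a9)
      (H' T T' κ t c u v a1 a2 a3 a4 a5 a6 a7 a8 a9) (h'.nn _ _ _) (mul_nonneg C0.le (h.nn _ _ _))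
    linarith
  trans R := by
    obtain ⟨C, C0, H⟩ := h.trans R
    obtain ⟨C', C0', H'⟩ := h'.trans R
    refine ⟨C * C', mul_pos C0 C0', fun T u v c a1 a2 => ?_⟩
    have := mul_le_mul (H T u v c a1 a2) (H' T u v c a1 a2) (h'.nn _ _ _)
      (mul_nonneg C0.le (h.nn _ _ _))
    linarith
  pos := by
    obtain ⟨c, c0, -, H⟩ := good_point (e + e') 2
    obtain ⟨v, hv, h1⟩ := h.pos
    obtain ⟨v', hv', h1'⟩ := h'.pos
    have h0 : PV d (fun (_ : Fin M) (_ : E N) => (0 : ℝ)) := fun _ => const_mem d 0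
    obtain ⟨x, hx, h2⟩ := H (Metric.closedBall (0 : Fin j → E N) 1) (univ : Finset Bool)
      (fun b v => cond b (G (fun _ _ => 0) 0 v) (G' (fun _ _ => 0) 0 v))
      (fun b => cond b (G (fun _ _ => 0) 0 v) (G' (fun _ _ => 0) 0 v')) (convex_closedBall _ _)
      ⟨0, by simp⟩ (by simp)
      (by
        rintro (_ | _) -
        · exact ((h'.lp h0).right 0).mono (Nat.le_add_left _ _)
        · exact ((h.lp h0).right 0).mono (Nat.le_add_right _ _))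
      (by
        rintro (_ | _) -
        · exact ⟨v', by simpa using hv', le_abs_self _⟩
        · exact ⟨v, by simpa using hv, le_abs_self _⟩)
    have h3 := h2 true (mem_univ _)
    have h4 := h2 false (mem_univ _)
    simp only [cond_true, cond_false, abs_of_nonneg (h.nn _ _ _), abs_of_nonneg (h'.nn _ _ _)]
      at h3 h4
    exact ⟨x, by simpa using hx, mul_pos ((mul_pos c0 h1).trans_le h3)
      ((mul_pos c0 h1').trans_le h4)⟩

theorem gb_le' {c : ℝ} (h : ∀ u v, ‖u‖ ≤ 1 → ‖v‖ ≤ 1 → G T u v ≤ c) : gb G T ≤ c :=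
  csSup_le ⟨_, 0, 0, by simp, by simp, rfl⟩ fun _ ⟨u, v, hu, hv, hr⟩ => hr ▸ h u v hu hv

theorem gaAt_le' {c : ℝ} {u : E N} (h : ∀ v, ‖v‖ ≤ 1 → G T u v ≤ c) : gaAt G T u ≤ c :=
  csSup_le ⟨_, 0, by simp, rfl⟩ fun _ ⟨v, hv, hr⟩ => hr ▸ h v hv

theorem IsGauge.gb_att (h : IsGauge d e G) (hT : PV d T) : ∃ u v, ‖u‖ ≤ 1 ∧ ‖v‖ ≤ 1 ∧
    ∀ u' v', ‖u'‖ ≤ 1 → ‖v'‖ ≤ 1 → G T u' v' ≤ G T u v := by
  obtain ⟨x, hx, H⟩ := (h.lp hT).bdd
  refine ⟨x.1, x.2, (norm_fst_le x).trans hx, (norm_snd_le x).trans hx, fun u v hu hv => ?_⟩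
  simpa only [abs_of_nonneg (h.nn _ _ _)] using H (u, v) (by simp [Prod.norm_def, hu, hv])

theorem IsGauge.ga_att (h : IsGauge d e G) (hT : PV d T) (u : E N) : ∃ v, ‖v‖ ≤ 1 ∧
    ∀ v', ‖v'‖ ≤ 1 → G T u v' ≤ G T u v := by
  obtain ⟨x, hx, H⟩ := ((h.lp hT).right u).bdd
  exact ⟨x, hx, fun v hv => by simpa only [abs_of_nonneg (h.nn _ _ _)] using H v hv⟩

theorem IsGauge.le_gb' (h : IsGauge d e G) (hT : PV d T) {u : E N} {v : Fin j → E N}
    (hu : ‖u‖ ≤ 1) (hv : ‖v‖ ≤ 1) : G T u v ≤ gb G T := by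
  obtain ⟨a, b, -, -, H⟩ := h.gb_att hT
  exact le_csSup ⟨G T a b, fun _ ⟨u, v, hu, hv, hr⟩ => hr ▸ H u v hu hv⟩ ⟨u, v, hu, hv, rfl⟩

theorem IsGauge.le_gaAt' (h : IsGauge d e G) (hT : PV d T) (u : E N) {v : Fin j → E N}
    (hv : ‖v‖ ≤ 1) : G T u v ≤ gaAt G T u := by
  obtain ⟨b, -, H⟩ := h.ga_att hT u
  exact le_csSup ⟨G T u b, fun _ ⟨v, hv, hr⟩ => hr ▸ H v hv⟩ ⟨v, hv, rfl⟩

theorem IsGauge.ga_nn (h : IsGauge d e G) (hT : PV d T) (u : E N) : 0 ≤ gaAt G T u :=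
  (h.nn T u 0).trans (h.le_gaAt' hT u (by simp))

theorem IsGauge.ga_le_gb (h : IsGauge d e G) (hT : PV d T) {u : E N} (hu : ‖u‖ ≤ 1) :
    gaAt G T u ≤ gb G T := gaAt_le' fun _ hv => h.le_gb' hT hu hv

theorem IsGauge.gb_nn (h : IsGauge d e G) (hT : PV d T) : 0 ≤ gb G T :=
  (h.ga_nn hT 0).trans (h.ga_le_gb hT (by simp))

theorem IsGauge.abs_le_gb (h : IsGauge d e G) (hT : PV d T) (z : E N × (Fin j → E N))
    (hz : ‖z‖ ≤ 1) : |G T z.1 z.2| ≤ gb G T := by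
  rw [abs_of_nonneg (h.nn _ _ _)]
  exact h.le_gb' hT ((norm_fst_le z).trans hz) ((norm_snd_le z).trans hz)

theorem IsGauge.grow' (h : IsGauge d e G) (R : ℝ) : ∃ C, 0 < C ∧ ∀ T, PV d T → ∀ u v,
    ‖v‖ ≤ R → G T u v ≤ C * gaAt G T u ∧ (‖u‖ ≤ R → G T u v ≤ C * gb G T) := by
  have hK := KL_pos e
  refine ⟨KL e * (1 + |R|) ^ e, by positivity, fun T hT u v hv => ⟨?_, fun hu => ?_⟩⟩
  · have h1 := ((h.lp hT).right u).grow (B := gaAt G T u)
      (fun v hv => by rw [abs_of_nonneg (h.nn _ _ _)]; exact h.le_gaAt' hT u hv) v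
    have h2 : (1 + ‖v‖) ^ e ≤ (1 + |R|) ^ e :=
      pow_le_pow_left₀ (by positivity) (by linarith [le_abs_self R]) e
    have h3 := mul_le_mul_of_nonneg_left h2 (mul_nonneg hK.le (h.ga_nn hT u))
    linarith [le_abs_self (G T u v)]
  · have h1 := (h.lp hT).grow (h.abs_le_gb hT) (u, v)
    have h2 : (1 + ‖(u, v)‖) ^ e ≤ (1 + |R|) ^ e := pow_le_pow_left₀ (by positivity)
      (by rw [Prod.norm_def]; linarith [le_abs_self R, max_le hu hv]) e
    have h3 := mul_le_mul_of_nonneg_left h2 (mul_nonneg hK.le (h.gb_nn hT))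
    linarith [le_abs_self (G T u v)]

theorem IsGauge.bdd' (h : IsGauge d e G) (R : ℝ) : ∃ C, ∀ T, PV d T → (∀ w, PB (T w) 0 1 R) →
    gb G T ≤ C := by
  obtain ⟨C, C0, H⟩ := h.cmp (max R 1) (le_max_right _ _)
  have h0 : PV d (fun (_ : Fin M) (_ : E N) => (0 : ℝ)) := fun _ => const_mem d 0
  have m1 : 1 ≤ max R 1 := le_max_right _ _
  refine ⟨C * gb G fun _ _ => 0, fun T hT hb => gb_le' fun u v hu hv => ?_⟩
  have h1 := H _ T 0 1 0 u v h0 hT (by simp) (by simp) (hu.trans m1) (hv.trans m1)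
    (inv_le_one_of_one_le₀ m1) m1 fun w => by
      simpa using (hb w).mono le_rfl (le_max_left R 1)
  rw [zero_add, one_smul] at h1
  exact h1.trans (mul_le_mul_of_nonneg_left (h.le_gb' h0 hu hv) C0.le)

/-- uniform lower bound -/
theorem IsGauge.low (h : IsGauge d e G) : ∃ c v, 0 < c ∧ ‖v‖ ≤ 1 ∧ ∀ T, PV d T → c ≤ G T 0 v := by
  obtain ⟨C, C0, H⟩ := h.cmp 1 le_rfl
  obtain ⟨v, hv, h1⟩ := h.pos
  refine ⟨G (fun _ _ => 0) 0 v / C, v, div_pos h1 C0, hv, fun T hT => ?_⟩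
  have h2 := H T _ 0 1 0 0 v hT (fun _ => const_mem d 0) (by simp) (by simp) (by simp) hv (by simp)
    le_rfl fun w y _ => by simp
  rw [zero_add, one_smul] at h2
  rwa [div_le_iff₀' C0]

theorem IsGauge.low_ga (h : IsGauge d e G) : ∃ c, 0 < c ∧ ∀ T, PV d T → c ≤ gaAt G T 0 := by
  obtain ⟨c, v, c0, hv, H⟩ := h.low
  exact ⟨c, c0, fun T hT => (H T hT).trans (h.le_gaAt' hT 0 hv)⟩

theorem IsGauge.gb_pos (h : IsGauge d e G) (hT : PV d T) : 0 < gb G T := by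
  obtain ⟨c, c0, H⟩ := h.low_ga
  exact c0.trans_le ((H T hT).trans (h.ga_le_gb hT (by simp)))

/-- (m4) -/
theorem IsGauge.gb_mul (h : IsGauge d e G) (h' : IsGauge d e' G') : ∃ c, 0 < c ∧ ∀ T, PV d T →
    c * (gb G T * gb G' T) ≤ gb (fun T u v => G T u v * G' T u v) T := by
  obtain ⟨c, c0, -, H⟩ := good_point (e + e') 2
  refine ⟨c * c, mul_pos c0 c0, fun T hT => ?_⟩
  obtain ⟨u, v, hu, hv, h1⟩ := h.gb_att hT
  obtain ⟨u', v', hu', hv', h1'⟩ := h'.gb_att hT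
  obtain ⟨x, hx, h2⟩ := H (Metric.closedBall (0 : E N × (Fin j → E N)) 1) (univ : Finset Bool)
    (fun b z => cond b (G T z.1 z.2) (G' T z.1 z.2)) (fun b => cond b (gb G T) (gb G' T))
    (convex_closedBall _ _) ⟨0, by simp⟩ (by simp)
    (by
      rintro (_ | _) -
      · exact (h'.lp hT).mono (Nat.le_add_left _ _)
      · exact (h.lp hT).mono (Nat.le_add_right _ _))
    (by
      rintro (_ | _) -
      · exact ⟨(u', v'), by simp [Prod.norm_def, hu', hv'], (gb_le' h1').trans (le_abs_self _)⟩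
      · exact ⟨(u, v), by simp [Prod.norm_def, hu, hv], (gb_le' h1).trans (le_abs_self _)⟩)
  have h3 := h2 true (mem_univ _)
  have h4 := h2 false (mem_univ _)
  simp only [cond_true, cond_false, abs_of_nonneg (h.nn _ _ _), abs_of_nonneg (h'.nn _ _ _)]
    at h3 h4
  rw [mem_closedBall_zero_iff] at hx
  have h5 := (h.mul' h').le_gb' hT ((norm_fst_le x).trans hx) ((norm_snd_le x).trans hx)
  have h6 := mul_le_mul h3 h4 (mul_nonneg c0.le (h'.gb_nn hT)) (h.nn _ _ _)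
  linarith

theorem IsGauge.factor' (h : IsGauge d e G) (h' : IsGauge d e' G') : ∃ c, 0 < c ∧ ∀ T, PV d T →
    ∀ ε, 0 ≤ ε → ε * gb (fun T u v => G T u v * G' T u v) T ≤
      gaAt (fun T u v => G T u v * G' T u v) T 0 →
      c * ε * gb G T ≤ gaAt G T 0 ∧ c * ε * gb G' T ≤ gaAt G' T 0 := by
  obtain ⟨c, c0, H⟩ := h.gb_mul h'
  refine ⟨c, c0, fun T hT ε hε h1 => ?_⟩
  have h2 : gaAt (fun T u v => G T u v * G' T u v) T 0 ≤ gaAt G T 0 * gaAt G' T 0 :=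
    gaAt_le' fun v hv => mul_le_mul (h.le_gaAt' hT 0 hv) (h'.le_gaAt' hT 0 hv) (h'.nn _ _ _)
      (h.ga_nn hT 0)
  have h3 := (mul_le_mul_of_nonneg_left (H T hT) hε).trans (h1.trans h2)
  have h4 := mul_le_mul_of_nonneg_left (h'.ga_le_gb hT (u := 0) (by simp)) (h.ga_nn hT 0)
  have h5 := mul_le_mul_of_nonneg_right (h.ga_le_gb hT (u := 0) (by simp)) (h'.ga_nn hT 0)
  exact ⟨le_of_mul_le_mul_right (by linarith) (h'.gb_pos hT),
    le_of_mul_le_mul_left (by linarith) (h.gb_pos hT)⟩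

lemma nj_PV' (g : Fin M → CF N d s) (x : E N) (ρ : ℝ) : PV d (nj g x ρ) :=
  fun w => scl_mem ((g w).mem x) ρ x

theorem IsGauge.move' (H : Hs d s) (h : IsGauge d e G) (g : Fin M → CF N d s) (R : ℝ)
    (hR : 1 ≤ R) : ∃ C, 0 < C ∧ ∀ x x' ρ ρ' y v, 0 < ρ → ‖x - x'‖ ≤ R * ρ → ρ ≤ R * ρ' →
      ρ' ≤ R * ρ → ‖y - x‖ ≤ R * ρ → ‖v‖ ≤ R →
      G (nj g x' ρ') (ρ'⁻¹ • (y - x')) v ≤ C * G (nj g x ρ) (ρ⁻¹ • (y - x)) v := by
  obtain ⟨W, W0, hW⟩ := CF.whitney g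
  have s0 := H.pos
  have p1 : 0 ≤ R ^ s := by positivity
  have p2 : 0 ≤ W * (1 + (1 + R * R) ^ s) := by positivity
  have p3 : R ≤ R * R := by nlinarith
  set L := 2 * (R * R) + R ^ s + W * (1 + (1 + R * R) ^ s) with hL
  have RL : R ≤ L := by linarith
  obtain ⟨C, C0, hC⟩ := h.cmp L (hR.trans RL)
  refine ⟨C, C0, fun x x' ρ ρ' y v h0 h1 h2 h3 h4 h5 => ?_⟩
  have h0' : 0 < ρ' := by by_contra hn; nlinarith
  have h6 : R * ρ ≤ R * R * ρ' := by nlinarith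
  have h7 := hC (nj g x ρ) (nj g x' ρ') ((ρ / ρ') ^ s) (ρ' / ρ) (ρ⁻¹ • (x' - x))
    (ρ'⁻¹ • (y - x')) v (nj_PV' g x ρ) (nj_PV' g x' ρ') ?_ ?_ ?_ (h5.trans RL) ?_ ?_ ?_
  · have : ρ⁻¹ • (x' - x) + (ρ' / ρ) • ρ'⁻¹ • (y - x') = ρ⁻¹ • (y - x) := by
      rw [smul_smul, show ρ' / ρ * ρ'⁻¹ = ρ⁻¹ by field_simp, ← smul_add]; congr 1; abel
    rwa [this] at h7
  · rw [abs_of_nonneg (by positivity)]
    have : (ρ / ρ') ^ s ≤ R ^ s :=
      Real.rpow_le_rpow (by positivity) (by rwa [div_le_iff₀ h0']) s0.le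
    linarith
  · rw [norm_smul, norm_inv, Real.norm_of_nonneg h0.le, inv_mul_le_iff₀ h0, norm_sub_rev]
    nlinarith
  · rw [norm_smul, norm_inv, Real.norm_of_nonneg h0'.le, inv_mul_le_iff₀ h0']
    have := norm_sub_le_norm_sub_add_norm_sub y x x'
    nlinarith
  · rw [le_div_iff₀ h0, inv_mul_le_iff₀ (by linarith)]; nlinarith
  · rw [div_le_iff₀ h0]; nlinarith
  · intro w z hz
    rw [sub_zero] at hz
    have e1 : x + ρ • (ρ⁻¹ • (x' - x) + (ρ' / ρ) • z) = x' + ρ' • z := by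
      rw [smul_add, smul_smul, smul_smul, mul_inv_cancel₀ h0.ne', one_smul,
        mul_div_cancel₀ _ h0.ne']
      abel
    have q0 : 0 < ρ ^ s := by positivity
    have q1 : 0 < ρ' ^ s := by positivity
    have e2 : nj g x' ρ' w z - (ρ / ρ') ^ s * nj g x ρ w (ρ⁻¹ • (x' - x) + (ρ' / ρ) • z) =
        ((g w).P x' (x' + ρ' • z) - (g w).P x (x' + ρ' • z)) / ρ' ^ s := by
      simp only [nj, scl, e1]
      rw [Real.div_rpow h0.le h0'.le]
      field_simp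
    have a1 : ‖x' + ρ' • z - x'‖ ≤ ρ' := by
      rw [add_sub_cancel_left, norm_smul, Real.norm_of_nonneg h0'.le]; nlinarith
    have a2 : ‖x' + ρ' • z - x‖ ≤ (1 + R * R) * ρ' := by
      have := norm_sub_le_norm_sub_add_norm_sub (x' + ρ' • z) x' x
      rw [norm_sub_rev x' x] at this
      linarith
    have a3 := Real.rpow_le_rpow (norm_nonneg _) a1 s0.le
    have a4 := Real.rpow_le_rpow (norm_nonneg _) a2 s0.le
    rw [Real.mul_rpow (by positivity) h0'.le] at a4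
    have a5 := (hW w x' x (x' + ρ' • z)).trans (mul_le_mul_of_nonneg_left (add_le_add a3 a4) W0)
    show |nj g x' ρ' w z - _| ≤ L
    rw [e2, abs_div, abs_of_pos q1, div_le_iff₀ q1]
    have a6 : W * (1 + (1 + R * R) ^ s) ≤ L := by linarith
    nlinarith

end Pool.Agent.CA9.UB
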