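import Pool.Agent.Lib.MP_ca9be0_an.UB.M1

/-! The term lemmas and the persistence of the margin. -/

namespace Pool.Agent.CA9.UB

open Finset Pool.Agent.Lib.MP_ca9be0_an.PyF

variable {N : ℕ}

/-- a bound at a large ratio decides the order of two exponents -/
lemma exists_ord (X Z : Finset ℝ) (L : ℝ) : ∃ B : ℝ, 1 ≤ B ∧ ∀ e ∈ X, ∀ z ∈ Z, ∀ t, B ≤ t →
    (t ^ (z - e) ≤ L → z ≤ e) ∧ (t⁻¹ ^ (z - e) ≤ L → e ≤ z) := by
  classical
  obtain ⟨B, hB, H⟩ := big_pow ((X ×ˢ Z).image fun p => |p.2 - p.1|) L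
  refine ⟨B, hB, fun e he z hz t ht => ?_⟩
  have m : |z - e| ∈ (X ×ˢ Z).image fun p => |p.2 - p.1| :=
    mem_image.2 ⟨(e, z), mem_product.2 ⟨he, hz⟩, rfl⟩
  refine ⟨fun h => not_lt.1 fun l => ?_, fun h => not_lt.1 fun l => ?_⟩
  · rw [abs_of_pos (sub_pos.2 l)] at m
    exact (H _ m (sub_pos.2 l) t ht).not_ge h
  · rw [abs_of_neg (sub_neg.2 l)] at m
    rw [Real.inv_rpow (by linarith), ← Real.rpow_neg (by linarith)] at h
    exact (H _ m (by linarith) t ht).not_ge h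

/-- both forms of the term lemma -/
lemma term_aux (X Z : Finset ℝ) (K C : ℝ) (hK : 1 ≤ K) {ε : ℝ} (hε : 0 < ε) :
    ∃ B : ℝ, 1 ≤ B ∧ ∀ (β : ℝ → ℝ) (lo top r γ z : ℝ), z ∈ Z → 0 < r → lo < r → B * r ≤ top →
      0 < β r → Mono X K β lo top → (∀ ρ, 0 < ρ → lo < ρ → ρ ≤ top → γ * ρ ^ z ≤ C * β ρ) →
      ε * β r ≤ γ * r ^ z → ∀ ρ, 0 < ρ → lo < ρ → ρ ≤ top → ρ ≤ r ∨ B * lo < r →
      ε / K ^ 2 * β ρ ≤ γ * ρ ^ z := by
  obtain ⟨B, hB, H⟩ := exists_ord X Z (C * K ^ 2 / ε)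
  refine ⟨B, hB, ?_⟩
  rintro β lo top r γ z hz r0 h1 h2 b0 ⟨e, he, c, hc⟩ h3 h4 ρ ρ0 h5 h6 h7
  have K0 : 0 < K := by linarith
  have B0 : 0 < B := by linarith
  have rB : r ≤ B * r := le_mul_of_one_le_left r0.le hB
  obtain ⟨a1, a2⟩ := hc r h1 (rB.trans h2)
  have m0 : 0 < c * r ^ e := (mul_pos_iff_of_pos_left K0).1 (b0.trans_le a2)
  have g1 : ε * (c * r ^ e) ≤ K * (γ * r ^ z) := by
    nlinarith [mul_le_mul_of_nonneg_left a1 hε.le, mul_le_mul_of_nonneg_left h4 K0.le]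
  have C0 : 0 < C := (mul_pos_iff_of_pos_right b0).1 ((mul_pos hε b0).trans_le
    (h4.trans (h3 r r0 h1 (rB.trans h2))))
  have key : ∀ t, 0 < t → lo < t * r → t * r ≤ top → t ^ (z - e) ≤ C * K ^ 2 / ε := by
    intro t t0 l1 l2
    have c1 := (h3 _ (mul_pos t0 r0) l1 l2).trans (mul_le_mul_of_nonneg_left (hc _ l1 l2).2 C0.le)
    rw [Real.mul_rpow t0.le r0.le, Real.mul_rpow t0.le r0.le] at c1
    have c2 := mul_le_mul_of_nonneg_left g1 (Real.rpow_pos_of_pos t0 z).le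
    rw [Real.rpow_sub t0, div_le_div_iff₀ (Real.rpow_pos_of_pos t0 e) hε]
    refine le_of_mul_le_mul_right ?_ m0
    linarith [mul_le_mul_of_nonneg_left c1 K0.le]
  have ze : z ≤ e := (H e he z hz B le_rfl).1 (key B B0 (h1.trans_le rB) h2)
  have q : (ρ / r) ^ e ≤ (ρ / r) ^ z := by
    rcases h7 with h7 | h7
    · exact Real.rpow_le_rpow_of_exponent_ge (by positivity) (div_le_one_of_le₀ h7 r0.le) ze
    · rw [ze.antisymm ((H e he z hz B le_rfl).2 (key _ (inv_pos.2 B0) ((lt_inv_mul_iff₀ B0).2 h7)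
        ((mul_le_of_le_one_left r0.le (inv_le_one_of_one_le₀ hB)).trans (rB.trans h2))))]
  have c3 := mul_le_mul g1 q (by positivity) ((mul_pos hε m0).le.trans g1)
  rw [mul_assoc, mul_assoc c, mul_div_rpow ρ0 r0, mul_assoc, mul_assoc γ, mul_div_rpow ρ0 r0] at c3
  rw [div_mul_eq_mul_div, div_le_iff₀ (by positivity)]
  linarith [mul_le_mul_of_nonneg_left (hc ρ h5 h6).2 hε.le, mul_le_mul_of_nonneg_left c3 K0.le]

theorem term_two' (X Z : Finset ℝ) (K C : ℝ) (hK : 1 ≤ K) {ε : ℝ} (hε : 0 < ε) :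
    ∃ A c : ℝ, 1 ≤ A ∧ 0 < c ∧
    ∀ (β : ℝ → ℝ) (lo top r γ z : ℝ), z ∈ Z → 0 ≤ lo → 0 < r → A * lo ≤ r → A * r ≤ top →
      (∀ ρ, 0 < ρ → 0 < β ρ) → Mono X K β lo top →
      (∀ ρ, lo < ρ → ρ ≤ top → γ * ρ ^ z ≤ C * β ρ) → ε * β r ≤ γ * r ^ z →
      ∀ ρ, lo < ρ → ρ ≤ top → c * β ρ ≤ γ * ρ ^ z := by
  obtain ⟨B, hB, H⟩ := term_aux X Z K C hK hε
  refine ⟨2 * B, ε / K ^ 2, by linarith, by positivity,
    fun β lo top r γ z hz l0 r0 h1 h2 b0 hm h3 h4 ρ h5 h6 => ?_⟩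
  have h7 : lo ≤ B * lo := le_mul_of_one_le_left l0 hB
  exact H β lo top r γ z hz r0 (by linarith) (by nlinarith) (b0 r r0) hm (fun ρ _ => h3 ρ) h4 ρ
    (l0.trans_lt h5) h5 h6 (.inr (by linarith))

theorem persist' {a b : E N → ℝ → ℝ} {X : Finset ℝ} (hab : AB a b) (ha : MM X a) (B K : ℝ)
    (hK : 1 ≤ K) {ε : ℝ} (hε : 0 < ε) : ∃ ε' A : ℝ, 0 < ε' ∧ 1 ≤ A ∧ ∀ x lo top r, 0 ≤ lo →
      0 < r → A * r ≤ top → (r ≤ B * lo ∨ Mono X K (b x) (lo / 2) top) → ε * b x r ≤ a x r →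
      ∀ ρ, 0 < ρ → lo ≤ ρ → ρ ≤ r → ε' * b x ρ ≤ a x ρ := by
  have m1 : 1 ≤ max B 1 := le_max_right _ _
  obtain ⟨C1, c1, H1⟩ := hab.cb _ m1
  obtain ⟨C2, c2, H2⟩ := hab.ca _ m1
  obtain ⟨C, hC, H3⟩ := ha.sup
  obtain ⟨A, hA, H⟩ := term_aux X X K C hK hε
  have C0 : 0 < C := by linarith
  refine ⟨min (ε / (C1 * C2)) (ε / K ^ 2 / C), A, by positivity, hA,
    fun x lo top r l0 r0 h1 h2 h3 ρ ρ0 h4 h5 => ?_⟩
  have b0 : ∀ t, 0 < t → 0 < b x t := fun t ht => (ha.pos x ht).trans_le (hab.le x t ht)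
  rcases h2 with h2 | h2
  · refine (mul_le_mul_of_nonneg_right (min_le_left _ _) (b0 ρ ρ0).le).trans ?_
    have h6 : r ≤ max B 1 * ρ := h2.trans (mul_le_mul (le_max_left _ _) h4 l0 (by linarith))
    have h7 : ρ ≤ max B 1 * r := h5.trans (le_mul_of_one_le_left r0.le m1)
    have h8 := H1 x x r ρ r0 (by rw [sub_self, norm_zero]; positivity) h6 h7
    rw [div_mul_eq_mul_div, div_le_iff₀ (by positivity)]
    linarith [mul_le_mul_of_nonneg_left h8 hε.le,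
      mul_le_mul_of_nonneg_left (h3.trans (H2 x ρ r ρ0 h7 h6)) c1.le]
  · refine (mul_le_mul_of_nonneg_right (min_le_right _ _) (b0 ρ ρ0).le).trans ?_
    obtain ⟨f, hf, h6⟩ := H3 x r r0
    have h7 : ∀ t, 0 < t → a x r / r ^ f * t ^ f ≤ C * a x t := fun t ht => by
      rw [div_mul_eq_mul_div, mul_div_assoc, ← Real.div_rpow ht.le r0.le]; exact h6 t ht
    have h8 := H (b x) (lo / 2) top r (a x r / r ^ f) f hf r0 (by linarith) h1 (b0 r r0) h2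
      (fun t ht _ _ => (h7 t ht).trans (mul_le_mul_of_nonneg_left (hab.le x t ht) C0.le))
      (by rwa [div_mul_cancel₀ _ (Real.rpow_pos_of_pos r0 f).ne']) ρ ρ0 (by linarith)
      (h5.trans ((le_mul_of_one_le_left r0.le hA).trans h1)) (.inl h5)
    rw [div_mul_eq_mul_div, div_le_iff₀ C0]
    linarith [h7 ρ ρ0]

end Pool.Agent.CA9.UB
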