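import Pool.Agent.Lib.MP_ca9be0_an.UB.Ms1

/-! The event scale. -/

namespace Pool.Agent.CA9.UB

open Finset Pool.Agent.Lib.MP_ca9be0_an.PyF

variable {N k : ℕ}

lemma div_rpow_mul {a b c : ℝ} (ha : 0 < a) (hb : 0 < b) (hc : 0 < c) (e : ℝ) :
    (a / c) ^ e = (b / c) ^ e * (a / b) ^ e := by
  rw [← Real.mul_rpow (by positivity) (by positivity), mul_comm, div_mul_div_cancel₀ hb.ne']

/-- the event scale of one function -/
lemma ms_ev_one {Y : Finset ℝ} {F : E N → ℝ → ℝ} (hm : MM Y F) (hc : Cb F) {σ : E N → ℝ}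
    (hσ : Lip1 σ) (e : ℝ) : ∃ ρ', Sc σ ρ' ∧
      ((∀ x, ρ' x = 0) ∨ ∃ e' ∈ Y, e' < e ∧ ∀ σ', (∀ x, σ' x ≤ ρ' x) → Rk F σ' e') ∧
      ∃ K, 1 ≤ K ∧ ∀ x ρ, ρ' x / 2 < ρ → ρ ≤ σ x → F x ρ ≤ K * (F x (σ x) * (ρ / σ x) ^ e) := by
  classical
  obtain ⟨K0, C0, k0, c0, H0⟩ := hm.drop 2
  obtain ⟨C1, c1, H1⟩ := hc 2 one_le_two
  obtain ⟨C2, c2, H2⟩ := hm.cmp 4
  obtain ⟨L, hL, HL⟩ := pow_bdd {e} 4
  replace HL := HL e (mem_singleton_self e)
  obtain ⟨ρ', s1, s2, s3⟩ := exists_scale hσ (T := E N × ℝ)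
    (fun t => 0 < t.2 ∧ t.2 ≤ σ t.1 / 2 ∧
      K0 * C1 * C1 * L * (F t.1 (σ t.1) * (t.2 / σ t.1) ^ e) ≤ F t.1 t.2) Prod.fst Prod.snd
    fun t h => by linarith [h.1, h.2.1]
  have key : ∀ x, 0 < ρ' x → (∃ f ∈ Y, f < e) ∧ ∀ e', (∀ f ∈ Y, f < e → f ≤ e') →
      ∀ r ρ, 0 < ρ → ρ ≤ r → r ≤ ρ' x → F x r * (ρ / r) ^ e' ≤ C0 * F x ρ := fun x hx => by
    obtain ⟨⟨y, τ⟩, ⟨t0, t1, t2⟩, t3⟩ := s3 x hx
    dsimp only at t0 t1 t2 t3
    have a0 := norm_nonneg (x - y)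
    have a1 := hσ.2 x y
    have a2 := hσ.le' y x
    have y0 : 0 < σ y := by linarith
    have x0 : 0 < σ x := by linarith
    have a3 := H1 x y τ τ t0 (by linarith) (by linarith) (by linarith)
    have a4 := H1 y x (σ y) (σ x) y0 (by rw [norm_sub_rev]; linarith) (by linarith) (by linarith)
    have a5 := HL (σ y / σ x) (by positivity)
      (by rw [← mul_div_assoc, le_div_iff₀ x0]; linarith) (by rw [div_le_iff₀ x0]; linarith)
    have a6 := mul_le_mul a4 (mul_le_mul_of_nonneg_right a5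
      (Real.rpow_pos_of_pos (div_pos t0 y0) e).le) (by positivity) (mul_pos c1 (hm.pos y y0)).le
    rw [← div_rpow_mul t0 y0 x0] at a6
    obtain ⟨b1, b2⟩ := H0 x e (σ x) τ t0 (by linarith) (le_of_mul_le_mul_left (by
      linarith [mul_le_mul_of_nonneg_left a6 (mul_pos (by linarith : 0 < K0) c1).le]) c1)
    exact ⟨b1, fun e' he' r ρ p0 p1 p2 => b2 e' he' r ρ p0 p1 (by linarith)⟩
  refine ⟨ρ', s1, ?_, (K0 * C1 * C1 * L + 1) * (C2 * L), ?_, fun x ρ h1 h2 => ?_⟩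
  · refine or_iff_not_imp_left.2 fun h => ?_
    obtain ⟨x, hx⟩ := not_forall.1 h
    obtain ⟨f, hf, hfe⟩ := (key x ((s1.l'.1 x).lt_of_ne' hx)).1
    have hn : (Y.filter (· < e)).Nonempty := ⟨f, mem_filter.2 ⟨hf, hfe⟩⟩
    obtain ⟨m1, m2⟩ := mem_filter.1 (max'_mem _ hn)
    refine ⟨_, m1, m2, fun σ' h' => ⟨C0⁻¹, by positivity, fun z ρ p0 p1 => ?_⟩⟩
    rw [inv_mul_le_iff₀ (by linarith)]
    exact (key z (p0.trans_le (p1.trans (h' z)))).2 _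
      (fun g hg hg' => le_max' _ g (mem_filter.2 ⟨hg, hg'⟩)) _ ρ p0 p1 (h' z)
  · exact one_le_mul_of_one_le_of_one_le (le_add_of_nonneg_left (by positivity))
      (one_le_mul_of_one_le_of_one_le c2 hL)
  have r0 := s1.l'.1 x
  have p0 : 0 < ρ := by linarith
  have x0 : 0 < σ x := by linarith
  have f0 := hm.pos x x0
  have q0 : 0 < F x (σ x) * (ρ / σ x) ^ e := by positivity
  have u : ∀ τ, 0 < τ → ρ ≤ τ → τ ≤ 4 * ρ → F x τ ≤ (K0 * C1 * C1 * L + 1) *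
      (F x (σ x) * (τ / σ x) ^ e) → F x ρ ≤ (K0 * C1 * C1 * L + 1) * (C2 * L) *
      (F x (σ x) * (ρ / σ x) ^ e) := fun τ t0 t1 t2 t3 => by
    have a1 := HL (τ / ρ) (by positivity) (by rw [← mul_div_assoc, le_div_iff₀ p0]; linarith)
      (by rwa [div_le_iff₀ p0])
    rw [div_rpow_mul t0 p0 x0, ← mul_assoc (F x _)] at t3
    have a2 := t3.trans (mul_le_mul_of_nonneg_left (mul_le_mul_of_nonneg_left a1 q0.le)
      (by positivity))
    linarith [H2 x τ ρ t0 p0 t2 (by linarith), mul_le_mul_of_nonneg_left a2 (by linarith : 0 ≤ C2)]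
  rcases le_total (4 * ρ) (σ x) with h3 | h3
  · refine u (2 * ρ) (by linarith) (by linarith) (by linarith) (not_lt.1 fun l => ?_)
    have q1 : 0 < F x (σ x) * (2 * ρ / σ x) ^ e := by positivity
    have := s2 (x, 2 * ρ) ⟨by linarith, by dsimp only; linarith, by dsimp only; linarith⟩
    dsimp only at this
    linarith
  · refine u (σ x) x0 h2 h3 ?_
    rw [div_self x0.ne', Real.one_rpow, mul_one]
    exact le_mul_of_one_le_left f0.le (le_add_of_nonneg_left (by positivity))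

theorem evscale' (X : Finset ℝ) (β : Fin k → E N → ℝ → ℝ) (hm : ∀ i, MM X (β i))
    (hc : ∀ i, Cb (β i)) : ∃ Y : Finset ℝ, (∃ e, ∀ σ, Rk (fun x ρ => ∏ i, β i x ρ) σ e) ∧
      ∀ σ e, Lip1 σ → Rk (fun x ρ => ∏ i, β i x ρ) σ e → ∃ ρ', Sc σ ρ' ∧
        ((∀ x, ρ' x = 0) ∨ ∃ e' ∈ Y, e' < e ∧
          ∀ σ', (∀ x, σ' x ≤ ρ' x) → Rk (fun x ρ => ∏ i, β i x ρ) σ' e') ∧
        ∃ A B K : ℝ, 1 ≤ A ∧ 1 ≤ B ∧ 1 ≤ K ∧ ∀ x r, 0 < r → A * r ≤ σ x →
          r ≤ B * ρ' x ∨ ∀ i, Mono X K (β i x) (ρ' x / 2) (σ x) := by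
  classical
  obtain ⟨Y, hY⟩ := MM.prod univ (γ := fun x i => β i x) fun i _ => ⟨X, hm i⟩
  have hF : Cb fun x ρ => ∏ i, β i x ρ := fun R hR => by
    choose C c0 H using fun i => hc i R hR
    refine ⟨∏ i, C i, prod_pos fun i _ => c0 i, fun x x' ρ ρ' p0 p1 p2 p3 => ?_⟩
    rw [← prod_mul_distrib]
    exact prod_le_prod (fun i _ => ((hm i).pos x' ((mul_pos_iff_of_pos_left
      (one_pos.trans_le hR)).1 (p0.trans_le p2))).le) fun i _ => H i x x' ρ ρ' p0 p1 p2 p3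
  refine ⟨Y, ?_, fun σ e hσ ⟨c, c0, hR⟩ => ?_⟩
  · obtain ⟨C, hC, H⟩ := hY.top
    obtain ⟨e, he⟩ := Y.exists_le
    refine ⟨e, fun σ => ⟨C⁻¹, by positivity, fun x ρ p0 p1 => ?_⟩⟩
    rw [inv_mul_le_iff₀ (by linarith)]
    exact H e he x _ ρ p0 p1
  obtain ⟨ρ', s1, s2, K, hK, s3⟩ := ms_ev_one hY hF hσ e
  choose C hC H using fun i => (hm i).sup
  have C0 : ∀ i, 0 < C i := fun i => one_pos.trans_le (hC i)
  have P0 : ∀ t : Finset (Fin k), 1 ≤ ∏ i ∈ t, C i := fun t => one_le_prod fun i _ => hC i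
  have P1 := P0 univ
  obtain ⟨B, hB, HB⟩ := exists_ord {e} ((Fintype.piFinset fun _ : Fin k => X).image
    fun f => ∑ i, f i) ((∏ i, C i) * (K / c))
  refine ⟨ρ', s1, s2, B, B, (∏ i, C i) * (K / c + 1), hB, hB, one_le_mul_of_one_le_of_one_le P1
    (le_add_of_nonneg_left (by positivity)), fun x r r0 h1 => or_iff_not_imp_left.2 fun h2 => ?_⟩
  choose f hf hf' using fun i => H i x r r0
  replace HB := HB e (mem_singleton_self e) _
    (mem_image.2 ⟨f, Fintype.mem_piFinset.2 hf, rfl⟩)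
  have l0 := s1.l'.1 x
  have B0 : 0 < B := by linarith
  have h3 : r ≤ σ x := (le_mul_of_one_le_left r0.le hB).trans h1
  have x0 := r0.trans_le h3
  have f0 := hY.pos x r0
  have u : ∀ ρ, ρ' x / 2 < ρ → ρ ≤ σ x →
      ∏ i, β i x ρ ≤ K / c * ((∏ i, β i x r) * (ρ / r) ^ e) := fun ρ a1 a2 => by
    have p0 : 0 < ρ := by linarith
    refine (s3 x ρ a1 a2).trans ?_
    rw [div_rpow_mul p0 r0 x0, div_mul_eq_mul_div, le_div_iff₀ c0]
    linarith [mul_le_mul_of_nonneg_left (hR x r r0 h3)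
      (by positivity : 0 ≤ K * (ρ / r) ^ e)]
  have pr : ∀ ρ, 0 < ρ → ∏ i, β i x r * (ρ / r) ^ f i = (∏ i, β i x r) * (ρ / r) ^ ∑ i, f i :=
    fun ρ p0 => by rw [prod_mul_distrib, Real.rpow_sum_of_pos (div_pos p0 r0)]
  have m0 : ∀ i ρ, 0 < ρ → 0 < β i x r * (ρ / r) ^ f i := fun i ρ p0 =>
    mul_pos ((hm i).pos x r0) (by positivity)
  have key : ∀ t, 0 < t → ρ' x / 2 < t * r → t * r ≤ σ x →
      t ^ (∑ i, f i - e) ≤ (∏ i, C i) * (K / c) := fun t t0 a1 a2 => by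
    have p0 := mul_pos t0 r0
    have a3 := prod_le_prod (s := univ) (fun i _ => (m0 i _ p0).le) fun i _ => hf' i _ p0
    rw [pr _ p0, prod_mul_distrib] at a3
    replace a3 := a3.trans (mul_le_mul_of_nonneg_left (u _ a1 a2) (by linarith))
    rw [mul_div_cancel_right₀ _ r0.ne'] at a3
    rw [Real.rpow_sub t0, div_le_iff₀ (by positivity)]
    exact le_of_mul_le_mul_left (by linarith) f0
  have rB : r ≤ B * r := le_mul_of_one_le_left r0.le hB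
  have rl : ρ' x < B⁻¹ * r := (lt_inv_mul_iff₀ B0).2 (not_le.1 h2)
  have rr : B⁻¹ * r ≤ r := mul_le_of_le_one_left r0.le (inv_le_one_of_one_le₀ hB)
  have he : ∑ i, f i = e := ((HB B le_rfl).1 (key B B0 (by linarith) h1)).antisymm
    ((HB B le_rfl).2 (key _ (inv_pos.2 B0) (by linarith) (rr.trans h3)))
  refine fun i => ⟨f i, hf i, β i x r / r ^ f i, fun ρ a1 a2 => ?_⟩
  have p0 : 0 < ρ := by linarith
  have b0 := (hm i).pos x p0
  have a3 : C i ≤ ∏ i, C i := by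
    rw [← mul_prod_erase _ _ (mem_univ i)]
    exact le_mul_of_one_le_right (C0 i).le (P0 _)
  have a4 : ∏ j ∈ univ.erase i, C j ≤ ∏ i, C i := by
    rw [← mul_prod_erase _ _ (mem_univ i)]
    exact le_mul_of_one_le_left (prod_pos fun j _ => C0 j).le (hC i)
  have q0 : 0 ≤ K / c := by positivity
  rw [div_mul_eq_mul_div, mul_div_assoc, ← Real.div_rpow p0.le r0.le]
  refine ⟨(hf' i ρ p0).trans (mul_le_mul_of_nonneg_right (by nlinarith) b0.le), ?_⟩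
  have a5 := prod_le_prod (s := univ.erase i) (fun j _ => (m0 j _ p0).le) fun j _ => hf' j _ p0
  have a6 := u ρ a1 a2
  rw [← he, ← pr ρ p0, ← mul_prod_erase _ _ (mem_univ i), ← mul_prod_erase _ _ (mem_univ i)] at a6
  rw [prod_mul_distrib (f := C)] at a5
  have a7 : 0 < ∏ j ∈ univ.erase i, β j x r * (ρ / r) ^ f j := prod_pos fun j _ => m0 j ρ p0
  have a8 : 0 < ∏ j ∈ univ.erase i, β j x ρ := prod_pos fun j _ => (hm j).pos x p0
  refine le_of_mul_le_mul_right ?_ a7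
  have a9 := mul_le_mul_of_nonneg_left (a5.trans (mul_le_mul_of_nonneg_right a4 a8.le)) b0.le
  nlinarith [mul_le_mul_of_nonneg_left a6 (by linarith : 0 ≤ ∏ i, C i),
    mul_pos (mul_pos (one_pos.trans_le P1) (m0 i ρ p0)) a7]

end Pool.Agent.CA9.UB
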