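import Pool.Agent.Lib.MP_ca9be0_an.JetC

/-! The multi-scale rotation with the orthogonal matrix field kept. -/

namespace Pool.Agent.CA9.UB

open Pool.Agent.Lib.MP_ca9be0_an.PyF Finset Filter Topology Matrix

variable {n d : ℕ} {s : ℝ}

/-- `G'` comes from `G` by an isometric matrix field that is tame at scale `ρ` -/
def OX (ρ : E n → ℝ) {V V' : Type} [Fintype V] [Fintype V'] [DecidableEq V]
    (G : V → CF n d s) (G' : V' → CF n d s) : Prop :=
  ∃ U : E n → Matrix V' V ℝ, (∀ y, (U y)ᵀ * U y = 1) ∧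
    TM d (fun x : {x // 0 < ρ x} => x.1) (fun x => ρ x.1) (fun _ => U) ∧
    ∀ v, TN d false (fun x : {x // 0 < ρ x} => x.1) (fun x => ρ x.1)
      (fun x y => (U y *ᵥ fun v' => (G v').P x.1 y) v - (G' v).P x.1 y) (fun x => ρ x.1 ^ s)

section OX
variable {ρ : E n → ℝ} {V V' V'' X : Type} [Fintype V] [Fintype V'] [Fintype V''] [Fintype X]
  [DecidableEq V] [DecidableEq V'] [DecidableEq X]

theorem OX.trans {G : V → CF n d s} {G' : V' → CF n d s} {G'' : V'' → CF n d s}
    (h : OX ρ G G') (h' : OX ρ G' G'') : OX ρ G G'' := by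
  obtain ⟨U, a1, a2, a3⟩ := h
  obtain ⟨U', b1, b2, b3⟩ := h'
  have hr : ∀ x : {x // 0 < ρ x}, 0 ≤ ρ x.1 := fun x => x.2.le
  have hw : ∀ x : {x // 0 < ρ x}, 0 ≤ ρ x.1 ^ s := fun x => Real.rpow_nonneg x.2.le _
  refine ⟨fun y => U' y * U y, fun y => ?_, TM.mul hr b2 a2, fun v => ?_⟩
  · rw [transpose_mul, Matrix.mul_assoc, ← Matrix.mul_assoc _ (U' y), b1, Matrix.one_mul, a1]
  · refine ((TN.sum univ hr hw fun v' _ => (b2 v v').mul1 (a3 v')).add (b3 v)).congr'
      fun x y => ?_
    rw [← mulVec_mulVec]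
    simp only [mul_sub, sum_sub_distrib]
    have e1 : ∀ Z : V' → ℝ, (U' y *ᵥ Z) v = ∑ v', U' y v v' * Z v' := fun _ => rfl
    rw [e1, e1]
    ring

theorem OX.reindex (G : V → CF n d s) (G' : V' → CF n d s) (e : V' ≃ V) (he : ∀ v, G' v = G (e v)) :
    OX ρ G G' := by
  have hr : ∀ x : {x // 0 < ρ x}, 0 ≤ ρ x.1 := fun x => x.2.le
  have hw : ∀ x : {x // 0 < ρ x}, 0 ≤ ρ x.1 ^ s := fun x => Real.rpow_nonneg x.2.le _
  refine ⟨fun _ => of fun v' v => if e v' = v then 1 else 0, fun y => ?_,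
    TM.const hr 1 fun _ a b => ?_, fun v => (TN.zero hr hw).congr' fun x y => ?_⟩
  · ext a b
    rw [Matrix.mul_apply, ← e.symm.sum_comp]
    simp only [transpose_apply, of_apply, Equiv.apply_symm_apply, ite_mul, one_mul, zero_mul,
      sum_ite_eq', mem_univ, if_true, Matrix.one_apply]
  · simp only [of_apply]; split_ifs <;> simp
  · simp [mulVec, dotProduct, he]

theorem OX.ext {G : V → CF n d s} {G' : V' → CF n d s} (h : OX ρ G G') (K : X → CF n d s) :
    OX ρ (Sum.elim G K) (Sum.elim G' K) := by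
  obtain ⟨U, a1, a2, a3⟩ := h
  have hr : ∀ x : {x // 0 < ρ x}, 0 ≤ ρ x.1 := fun x => x.2.le
  have hw : ∀ x : {x // 0 < ρ x}, 0 ≤ ρ x.1 ^ s := fun x => Real.rpow_nonneg x.2.le _
  refine ⟨fun y => fromBlocks (U y) 0 0 1, fun y => ?_, ?_, ?_⟩
  · rw [fromBlocks_transpose, fromBlocks_multiply]
    simp [a1]
  · rintro (a | a) (b | b)
    · exact a2 a b
    · exact T1.c hr 0
    · exact T1.c hr 0
    · exact T1.c hr _
  · rintro (v | v)
    · refine (a3 v).congr' fun x y => ?_
      simp [mulVec, dotProduct]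
    · refine (TN.zero hr hw).congr' fun x y => ?_
      simp [mulVec, dotProduct, Matrix.one_apply]

end OX

section core
variable {W : Type} [Fintype W] [DecidableEq W]
variable {θ : ℝ} {ρ ρ' : E n → ℝ} {G : Option W → CF n d s} {ν : ℕ → E n → Option W → ℝ}

theorem rotO (H : Hs d s) (h : NuOk θ ρ ρ' G ν) : ∃ G' : Option W → CF n d s,
    Tame (G' none) ρ' ∧ (∀ y, ∑ v, (G' v).f y ^ 2 = ∑ v, (G v).f y ^ 2) ∧
    (∀ w, MD θ ρ ρ' (G (some w)) fun w => G' (some w)) ∧ OX ρ' G G' := by
  classical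
  have hs := H.pos
  choose g g1 g2 using h.new_fun H
  obtain ⟨K, hK⟩ := h.sc.exists_K
  have hU : ∀ x y, 0 < ρ' x → ‖y - x‖ ≤ 1 / 20 * ρ' x → Useq ν (K y) y = Useq ν (K x) y := by
    intro x y hx hy
    obtain ⟨h1, h2⟩ := (hK x hx).2 y hy
    have h3 := ((hK y h1).2 y (by simpa using h1.le)).2
    rw [← h.U_stab h2 (le_max_left (K x) (K y)), ← h.U_stab h3 (le_max_right (K x) (K y))]
  have hν : ∀ x y, 0 < ρ' x → ‖y - x‖ ≤ 1 / 20 * ρ' x → ∀ v, ν (K y) y v = ν (K x) y v :=
    fun x y hx hy v => by rw [← h.U_none, hU x y hx hy, h.U_none]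
  have hle : ∀ k x, ρ' x ≤ 1 * sg ρ ρ' k x := fun k x => by
    rw [one_mul]; exact le_max_right _ _
  obtain ⟨m, m1, m2, m3⟩ := mkCF H G h.sc.l' (B := 1)
    (coef := fun v y => if 0 < ρ' y then ν (K y) y v else 0) (fun v y => by
      split_ifs
      · rw [← sq_le_one_iff_abs_le_one, ← h.unit (K y) y, sq]
        exact single_le_sum (f := fun v => ν (K y) y v * ν (K y) y v)
          (fun _ _ => mul_self_nonneg _) (mem_univ v)
      · simp) (by
      have a1 := (TN.comp h.t3 fun x => (K x, x)).mono_r 1 h.sc.l'.1 fun x => hle _ x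
      have a2 := (TN.const (d := d) (x := fun x => x) (c := fun x => if 0 < ρ' x then 1 else 0)
        (w := fun x => if 0 < ρ' x then 1 else 0) h.sc.l'.1
        fun x => by split_ifs <;> simp).mul a1
      refine (a2.mono_w 1 (fun x => ?_) fun x => Real.rpow_nonneg (h.sc.l'.1 x) _).congr
        (η₀ := 1 / 20) (by norm_num) fun x y hy => ?_
      · split_ifs with hx
        · simp [(hK x hx).1]
        · simpa using Real.rpow_nonneg (h.sc.l'.1 x) _
      · by_cases hx : 0 < ρ' x
        · simp [hx, ((hK x hx).2 y hy).1, hν x y hx hy]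
        · have : ρ' x = 0 := le_antisymm (not_lt.1 hx) (h.sc.l'.1 x)
          rw [eq_of_norm_le_zero (by simpa [this] using hy : ‖y - x‖ ≤ 0)]
          simp [hx])
  have hn : ∀ k y (X : Option W → ℝ), (Useq ν k y *ᵥ X) none = ∑ v, ν k y v * X v :=
    fun k y X => by simp only [← h.U_none]; rfl
  have lim : ∀ y v, Tendsto (fun k => (Useq ν k y *ᵥ fun v => (G v).f y) v) atTop
      (𝓝 ((v.elim m g).f y)) := by
    intro y v
    cases v with
    | some w => exact g1 w y
    | none =>
      simp only [Option.elim, m1]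
      by_cases hy : 0 < ρ' y
      · refine tendsto_const_nhds.congr' ?_
        filter_upwards [eventually_ge_atTop (K y)] with k hk
        rw [h.U_stab ((hK y hy).2 y (by simpa using hy.le)).2 hk, hn]
        simp [hy]
      · obtain ⟨C, η, hC, hη, h1⟩ := h.t3.bound
        simp only [hy, if_false, zero_mul, sum_const_zero, hn]
        have h2 : ρ' y = 0 := le_antisymm (not_lt.1 hy) (h.sc.l'.1 y)
        refine squeeze_zero_norm (a := fun k => C * (ρ y * (1 / 2) ^ k) ^ s) (fun k => ?_) ?_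
        · have := h1 (k, y) y (by simpa using mul_nonneg hη.le (h.sc.nonneg k y))
          simp only [CF.center _ hs, sg, h2] at this
          rwa [max_eq_left (div_nonneg (h.sc.l.1 y) (by positivity)), div_eq_mul_one_div,
            ← _root_.one_div_pow] at this
        · have h3 := (tendsto_pow_atTop_nhds_zero_of_lt_one (r := (1 / 2 : ℝ)) (by norm_num)
            (by norm_num)).const_mul (ρ y)
          have := (h3.rpow_const (p := s) (Or.inr hs.le)).const_mul C
          simpa [Real.zero_rpow hs.ne'] using this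
  refine ⟨fun v => v.elim m g, m2, fun y => ?_, fun w => ?_, ?_⟩
  · refine tendsto_nhds_unique (tendsto_finsetSum _ fun v _ => (lim y v).pow 2) ?_
    simp only [orth_sq (h.orth _ y)]
    exact tendsto_const_nhds
  · refine ⟨fun k w' y => Useq ν k y (some w') (some w), fun w' => h.U_TK _ _, fun w' => ?_, ?_,
      fun k w' y hy => by beta_reduce; rw [h.U_stab1 hy]⟩
    · refine (TN.sum univ h.hr (h.t2 none).w_nonneg fun z _ =>
        (h.U_TK (some w') z).mul1 (h.D_TK z (some w))).congr' fun p y => ?_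
      beta_reduce
      rw [NuOk.U_succ]; ring
    · refine ((TN.sum univ h.hr h.t3.w_nonneg fun w' _ => (h.U_TK (some w') (some w)).mul1
        (g2 w')).add ((h.U_TK none (some w)).mul1 h.t3)).congr' fun p y => ?_
      beta_reduce
      rw [orth_inv (h.orth p.1 y) (fun v => (G v).P p.2 y) (some w),
        Fintype.sum_option (fun v' => Useq ν p.1 y v' (some w) * _), hn]
      simp only [mul_sub, sum_sub_distrib, Option.elim]
      ring
  · have hr : ∀ x : {x // 0 < ρ' x}, 0 ≤ ρ' x.1 := fun x => x.2.le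
    have hw : ∀ x : {x // 0 < ρ' x}, 0 ≤ ρ' x.1 ^ s := fun x => Real.rpow_nonneg x.2.le _
    have a1 : ∀ v v', TN d true (fun x : {x // 0 < ρ' x} => x.1) (fun x => ρ' x.1)
        (fun x y => Useq ν (K x) y v v') (fun _ => 1) := fun v v' =>
      (TN.comp (h.U_TK v v') fun x : {x // 0 < ρ' x} => (K x, x.1)).mono_r 1 hr fun x => hle _ _
    have a2 : ∀ v', TN d false (fun x : {x // 0 < ρ' x} => x.1) (fun x => ρ' x.1)
        (fun x y => (Useq ν (K x) y *ᵥ fun v => (G v).P x y) v' - (v'.elim m g).P x y)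
        (fun x => ρ' x.1 ^ s) := by
      intro v'
      cases v' with
      | none =>
        refine (m3.comp Subtype.val).congr (η₀ := 1 / 20) (by norm_num) fun x y hy => ?_
        simp [hn, ((hK x x.2).2 y hy).1, hν x y x.2 hy]
      | some w =>
        have a3 := ((TN.comp (g2 w) fun x : {x // 0 < ρ' x} => (K x, x.1)).mono_r 1 hr
          fun x => hle _ _).mono_w 1 (fun x => by simp [(hK x x.2).1]) hw
        obtain ⟨C, η, hC, hη, h1⟩ := (TN.fin hr (fun _ => zero_le_one) (a1 (some w))).bound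
        obtain ⟨C', hC', hG⟩ := CF.fin G
        obtain ⟨C'', hC'', hg⟩ := (g w).bd
        refine a3.to_false H.1 H.2 (lt_min hη (by norm_num : (0 : ℝ) < 1 / 20)) fun x =>
          ⟨Fintype.card (Option W) * (C * C') + C'', fun y hy => ?_⟩
        have hy1 := hy.trans (mul_le_mul_of_nonneg_right (min_le_left _ _) (hr x))
        have hy2 := hy.trans (mul_le_mul_of_nonneg_right (min_le_right _ _) (hr x))
        have a4 : (g w).f y = (Useq ν (K x) y *ᵥ fun v => (G v).f y) (some w) := by
          refine tendsto_nhds_unique (g1 w y) (tendsto_const_nhds.congr' ?_)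
          filter_upwards [eventually_ge_atTop (K x)] with k hk
          rw [h.U_stab ((hK x x.2).2 y hy2).2 hk]
        have a5 : |(g w).f y - (Useq ν (K x) y *ᵥ fun v => (G v).P x y) (some w)| ≤
            Fintype.card (Option W) * (C * C') * ‖y - x‖ ^ s := by
          rw [a4]
          simp only [mulVec, dotProduct, ← sum_sub_distrib, ← mul_sub]
          refine (abs_sum_le_sum_abs _ _).trans ((sum_le_card_nsmul _ _ (C * (C' * ‖y - x‖ ^ s))
            fun v _ => ?_).trans (le_of_eq (by rw [card_univ, nsmul_eq_mul]; ring)))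
          rw [abs_mul]
          exact mul_le_mul (by simpa using h1 (v, x) y hy1) (hG v x y) (abs_nonneg _) hC.le
        have a6 := abs_sub_le ((Useq ν (K x) y *ᵥ fun v => (G v).P x y) (some w)) ((g w).f y)
          ((g w).P x y)
        rw [abs_sub_comm _ ((g w).f y)] at a6
        have := hg x y
        simp only [Option.elim]
        linarith
    refine ⟨fun y => Useq ν (K y) y, fun y => h.orth _ y, fun v' v => (a1 v' v).congr
      (η₀ := 1 / 20) (by norm_num) fun x y hy => by beta_reduce; rw [hU x y x.2 hy],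
      fun v' => (a2 v').congr (η₀ := 1 / 20) (by norm_num) fun x y hy => ?_⟩
    beta_reduce
    rw [hU x y x.2 hy]

/-- index shuffles for the induction -/
def eqA (W : Type) (m : ℕ) : Option W ⊕ Fin m ≃ W ⊕ Fin (m + 1) where
  toFun := Sum.elim (fun o => o.elim (Sum.inr 0) Sum.inl) fun i => Sum.inr i.succ
  invFun := Sum.elim (fun w => Sum.inl (some w)) (Fin.cases (Sum.inl none) Sum.inr)
  left_inv := by rintro ((_ | w) | i) <;> simp
  right_inv := by
    rintro (w | i)
    · simp
    · refine Fin.cases ?_ (fun i => ?_) i <;> simp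

def eqB (W : Type) (m : ℕ) : (W ⊕ Fin m) ⊕ Unit ≃ Option W ⊕ Fin m where
  toFun := Sum.elim (Sum.elim (fun w => Sum.inl (some w)) Sum.inr) fun _ => Sum.inl none
  invFun := Sum.elim (fun o => o.elim (Sum.inr ()) fun w => Sum.inl (Sum.inl w))
    fun i => Sum.inl (Sum.inr i)
  left_inv := by rintro ((w | i) | _) <;> simp
  right_inv := by rintro ((_ | w) | i) <;> simp

theorem rotallO (H : Hs d s) (h0 : 0 ≤ θ) (h1 : θ < 1) (hs : Sc ρ ρ') (m : ℕ) :
    ∀ (g : W → CF n d s) (h : Fin m → CF n d s), (∀ i, Tame (h i) ρ) → (∀ i, MD θ ρ ρ' (h i) g) →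
    ∃ (g' : W → CF n d s) (h' : Fin m → CF n d s), (∀ i, Tame (h' i) ρ') ∧
      (∀ y, ∑ w, (g' w).f y ^ 2 + ∑ i, (h' i).f y ^ 2 = ∑ w, (g w).f y ^ 2 + ∑ i, (h i).f y ^ 2) ∧
      OX ρ' (Sum.elim g h) (Sum.elim g' h') := by
  induction m with
  | zero => exact fun g h _ _ =>
      ⟨g, h, fun i => i.elim0, fun _ => rfl, OX.reindex _ _ (Equiv.refl _) fun _ => rfl⟩
  | succ m ih =>
    intro g h ht hm
    obtain ⟨ν, hν⟩ := (hm 0).nu H h0 h1 hs (ht 0)
    obtain ⟨G', G1, G2, G3, G4⟩ := rotO H hν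
    obtain ⟨g', h', b1, b2, b3⟩ := ih (fun w => G' (some w)) (fun i => h i.succ) (fun i => ht _)
      fun i => (hm i.succ).trans h0 hs G3
    refine ⟨g', Fin.cons (G' none) h', fun i => Fin.cases G1 b1 i, fun y => ?_, ?_⟩
    · have := G2 y
      have := b2 y
      simp only [Fintype.sum_option, Option.elim, Fin.sum_univ_succ, Fin.cons_zero,
        Fin.cons_succ] at *
      linarith
    · refine (OX.reindex (Sum.elim g h) (Sum.elim (fun v : Option W => v.elim (h 0) g)
        fun i : Fin m => h i.succ) (eqA W m) ?_).trans ((G4.ext _).trans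
        ((OX.reindex _ (Sum.elim (Sum.elim (fun w => G' (some w)) fun i : Fin m => h i.succ)
          fun _ : Unit => G' none) (eqB W m) ?_).trans ((b3.ext _).trans
          (OX.reindex _ _ ((eqB W m).trans (eqA W m)).symm ?_))))
      · rintro ((_ | w) | i) <;> rfl
      · rintro ((w | i) | _) <;> rfl
      · rintro (w | i)
        · rfl
        · refine Fin.cases rfl (fun i => rfl) i

end core

end Pool.Agent.CA9.UB
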