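import Pool.Agent.Lib.MP_ca9be0_an.UB.Defs
import Pool.Agent.Lib.MP_ca9be0_an.UB.Q0

/-! From almost normal vectors at all scales to the state at the lower scale. -/

namespace Pool.Agent.CA9.UB

open Pool.Agent.Lib.MP_ca9be0_an.PyF Finset Filter Topology Matrix

variable {N M m d : ℕ} {s θ : ℝ}

/-- indices `(k, x)` with positive upper scale -/
abbrev PK (ρ : E N → ℝ) := {p : ℕ × E N // 0 < ρ p.2}

/-- tame at all the scales `sg k` on the set where the upper scale is positive -/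
abbrev TP (d : ℕ) (b : Bool) (ρ ρ' : E N → ℝ) (u : ℕ → E N → E N → ℝ) (w : ℕ → E N → ℝ) : Prop :=
  TN d b (fun p : PK ρ => p.1.2) (fun p => sg ρ ρ' p.1.1 p.1.2) (fun p => u p.1.1 p.1.2)
    (fun p => w p.1.1 p.1.2)

variable {ρ ρ' : E N → ℝ}

theorem TP.succ {b : Bool} {u : ℕ → E N → E N → ℝ} (h : Sc ρ ρ')
    (h1 : TP d b ρ ρ' u (fun _ _ => 1)) : TP d b ρ ρ' (fun k => u (k + 1)) (fun _ _ => 1) :=
  (TN.comp h1 fun p : PK ρ => ⟨(p.1.1 + 1, p.1.2), p.2⟩).mono_r 2 (fun _ => h.nonneg _ _)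
    fun _ => h.half _ _

theorem near_pos (h : Sc ρ ρ') {k : ℕ} {x y : E N} (hx : 0 < ρ x)
    (hy : ‖y - x‖ ≤ 1 / 2 * sg ρ ρ' k x) : 0 < ρ y := by
  linarith [h.l.le' x y, h.le_rho k x]

theorem gram_low {A : Type} [Fintype A] [DecidableEq A] {K : Matrix A A ℝ}
    (h : ∑ a, ∑ b, K a b ^ 2 ≤ 1 / 4) (u : A → ℝ) :
    1 / 4 * (u ⬝ᵥ u) ≤ ((1 + K) *ᵥ u) ⬝ᵥ ((1 + K) *ᵥ u) := by
  have h1 : (K *ᵥ u) ⬝ᵥ (K *ᵥ u) ≤ 1 / 4 * (u ⬝ᵥ u) := by
    have h3 : ∑ a, u a ^ 2 = u ⬝ᵥ u := by simp [dotProduct, sq]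
    calc _ ≤ ∑ a, (∑ b, K a b ^ 2) * (u ⬝ᵥ u) := by
          refine sum_le_sum fun a _ => ?_
          rw [← sq, ← h3]
          exact sum_mul_sq_le_sq_mul_sq univ (fun b => K a b) u
      _ ≤ _ := by rw [← sum_mul]; exact mul_le_mul_of_nonneg_right h (dot_nn u)
  have h2 := dot_nn (u + (2 : ℝ) • (K *ᵥ u))
  rw [add_mulVec, one_mulVec]
  simp only [add_dotProduct, dotProduct_add, smul_dotProduct, dotProduct_smul, smul_eq_mul,
    dotProduct_comm (K *ᵥ u) u] at h2 ⊢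
  linarith

theorem inv_gram {A : Type} [Fintype A] [DecidableEq A] {Y : Matrix A A ℝ}
    (h : IsUnit (Yᵀ * Y).det) : IsUnit Y.det ∧ Y⁻¹ = (Yᵀ * Y)⁻¹ * Yᵀ := by
  have h1 : IsUnit Y.det := by
    rw [det_mul] at h; exact isUnit_of_mul_isUnit_right h
  refine ⟨h1, inv_eq_left_inv ?_⟩
  rw [Matrix.mul_assoc, nonsing_inv_mul _ h]

theorem St.of_OX (H : Hs d s) {g : Fin M → CF N d s} {G G' : Am m M → CF N d s}
    {J : E N → Matrix (Am m M) (Fin M) ℝ} (h : St g ρ G J) (hs : Sc ρ ρ') (ho : OX ρ' G G')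
    (hq : ∀ y, ∑ v, (G' v).f y ^ 2 = ∑ v, (G v).f y ^ 2) (ht : ∀ w, Tame (G' (Sum.inr w)) ρ') :
    ∃ J', St g ρ' G' J' := by
  obtain ⟨U, a1, a2, a3⟩ := ho
  have hr : ∀ x : Pos ρ', 0 ≤ ρ' x.1 := fun x => x.2.le
  have hw : ∀ x : Pos ρ', 0 ≤ ρ' x.1 ^ s := fun x => Real.rpow_nonneg x.2.le _
  let f : Pos ρ' → Pos ρ := fun x => ⟨x.1, x.2.trans_le (hs.le _)⟩
  have hle : ∀ x : Pos ρ', ρ' x.1 ≤ 1 * ρ x.1 := fun x => by rw [one_mul]; exact hs.le _
  have b1 : TM d (fun x : Pos ρ' => x.1) (fun x => ρ' x.1) fun _ => J := fun v w =>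
    ((h.tJ v w).comp f).mono_r 1 hr hle
  have b2 := fun v => ((h.rel v).comp f).resc H.pos H.2 1 one_pos hr hle
  refine ⟨fun y => U y * J y, hs.l', fun y => (hq y).trans (h.sq y), ht, fun y hy => ?_,
    TM.mul hr a2 b1, fun v => ?_⟩
  · rw [transpose_mul, Matrix.mul_assoc, ← Matrix.mul_assoc _ (U y), a1, Matrix.one_mul,
      h.orth y (hy.trans_le (hs.le y))]
  · refine ((TN.sum univ hr hw fun v' _ => (a2 v v').mul1 (b2 v')).sub (a3 v)).congr'
      fun x y => ?_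
    simp only [mul_sub, sum_sub_distrib, Matrix.mul_apply, sum_mul, mul_sum, mul_assoc]
    rw [sum_comm (s := (univ : Finset (Fin M)))]
    have e1 : ∀ Z : Am m M → ℝ, (U y *ᵥ Z) v = ∑ v', U y v v' * Z v' := fun _ => rfl
    rw [e1]
    ring

theorem St.md (H : Hs d s) (h0 : 0 ≤ θ) {g : Fin M → CF N d s} {G : Am m M → CF N d s}
    {J : E N → Matrix (Am m M) (Fin M) ℝ} (h : St g ρ G J) (hs : Sc ρ ρ')
    (w : ℕ → E N → Matrix (Fin M) (Fin M) ℝ)
    (w1 : ∀ a b, TP d true ρ ρ' (fun k _ y => w k y a b) fun _ _ => 1)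
    (w2 : ∀ a b, TP d true ρ ρ' (fun k _ y => w (k + 1) y a b - w k y a b) fun k _ => θ ^ k)
    (w3 : ∀ a, TP d true ρ ρ' (fun k x y => ∑ b, w k y a b * (g b).P x y)
      fun k x => sg ρ ρ' k x ^ s)
    (w4 : ∀ k y, 0 < ρ y → ∑ a, ∑ b, (w k y a b - J y (Sum.inr a) b) ^ 2 ≤ 1 / 4)
    (w5 : ∀ k y, 8 * (ρ y / 2 ^ k) < ρ' y → w (k + 1) y = w k y) (a : Fin M) :
    MD θ ρ ρ' (G (Sum.inr a)) fun i => G (Sum.inl i) := by
  classical
  have hr : ∀ p : PK ρ, 0 ≤ sg ρ ρ' p.1.1 p.1.2 := fun p => hs.nonneg _ _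
  have hw : ∀ p : PK ρ, 0 ≤ sg ρ ρ' p.1.1 p.1.2 ^ s := fun p => Real.rpow_nonneg (hr p) _
  have hθ : ∀ p : PK ρ, 0 ≤ θ ^ p.1.1 := fun p => pow_nonneg h0 _
  let f : PK ρ → Pos ρ := fun p => ⟨p.1.2, p.2⟩
  have hle : ∀ p : PK ρ, sg ρ ρ' p.1.1 p.1.2 ≤ 1 * ρ p.1.2 := fun p => by
    rw [one_mul]; exact hs.le_rho _ _
  have b1 : ∀ v b, TP d true ρ ρ' (fun _ _ y => J y v b) fun _ _ => 1 := fun v b =>
    ((h.tJ v b).comp f).mono_r 1 hr hle
  have b2 : ∀ v, TP d false ρ ρ' (fun _ x y => (G v).P x y - ∑ b, J y v b * (g b).P x y)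
      fun k x => sg ρ ρ' k x ^ s := fun v => ((h.rel v).comp f).resc H.pos H.2 1 one_pos hr hle
  -- the matrix `K a v = ∑ b, (w a b - J a b) * J v b`
  obtain ⟨K, hK⟩ : ∃ K : ℕ → E N → Fin M → Am m M → ℝ,
    K = fun k y a v => ∑ b, (w k y a b - J y (Sum.inr a) b) * J y v b := ⟨_, rfl⟩
  have K1 : ∀ a v, TP d true ρ ρ' (fun k _ y => K k y a v) fun _ _ => 1 := fun a v => by
    rw [hK]
    exact TN.sum univ hr (fun _ => zero_le_one) fun b _ => ((w1 a b).sub (b1 _ b)).mul1 (b1 v b)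
  have K2 : ∀ a v, TP d true ρ ρ' (fun k _ y => K (k + 1) y a v - K k y a v) fun k _ => θ ^ k :=
    fun a v => (TN.sum univ hr hθ fun b _ => (w2 a b).mul1' (b1 v b)).congr' fun p y => by
      simp only [hK, ← sum_sub_distrib]; exact sum_congr rfl fun b _ => by ring
  have K3 : ∀ k y, 0 < ρ y → ∀ a b, ∑ v, K k y a v * J y v b = w k y a b - J y (Sum.inr a) b := by
    intro k y hy a b
    simp only [hK, sum_mul, mul_assoc]
    rw [sum_comm]
    have e1 : ∀ b', ∑ v, J y v b' * J y v b = if b' = b then 1 else 0 := fun b' => by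
      have := congrFun (congrFun (h.orth y hy) b') b
      rwa [Matrix.mul_apply, Matrix.one_apply] at this
    simp only [← mul_sum, e1]
    simp
  obtain ⟨Y, hY⟩ : ∃ Y : ℕ → E N → Matrix (Fin M) (Fin M) ℝ,
    Y = fun k y => 1 + of fun a b => K k y a (Sum.inr b) := ⟨_, rfl⟩
  have Y0 : ∀ k y, 0 < ρ y → ∀ u, 1 / 4 * (u ⬝ᵥ u) ≤ (Y k y *ᵥ u) ⬝ᵥ (Y k y *ᵥ u) := by
    intro k y hy
    rw [hY]
    refine gram_low (le_trans (sum_le_sum fun a _ => ?_) (w4 k y hy))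
    have e1 : ∑ v, K k y a v ^ 2 = ∑ b, (w k y a b - J y (Sum.inr a) b) ^ 2 := by
      calc _ = ∑ v, ∑ b, (w k y a b - J y (Sum.inr a) b) * (K k y a v * J y v b) := by
            refine sum_congr rfl fun v _ => ?_
            have e2 : K k y a v = ∑ b, (w k y a b - J y (Sum.inr a) b) * J y v b := by rw [hK]
            rw [pow_two]
            nth_rewrite 2 [e2]
            rw [mul_sum]
            exact sum_congr rfl fun b _ => by ring
        _ = _ := by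
            rw [sum_comm]
            exact sum_congr rfl fun b _ => by rw [← mul_sum, K3 k y hy, pow_two]
    rw [← e1, Fintype.sum_sum_type]
    simp only [of_apply]
    exact le_add_of_nonneg_left (sum_nonneg fun _ _ => sq_nonneg _)
  have Y1 : ∀ k y, 0 < ρ y → IsUnit (Y k y).det ∧ (Y k y)⁻¹ = ((Y k y)ᵀ * Y k y)⁻¹ * (Y k y)ᵀ :=
    fun k y hy => inv_gram (gram_unit (by norm_num) (Y0 k y hy))
  have Y2 : TM d (fun p : PK ρ => p.1.2) (fun p => sg ρ ρ' p.1.1 p.1.2) fun p => Y p.1.1 := by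
    intro a b
    rw [hY]
    exact (T1.c hr ((1 : Matrix (Fin M) (Fin M) ℝ) a b)).add (K1 a (Sum.inr b))
  have Y3 : ∀ a b, TP d true ρ ρ' (fun k _ y => (Y k y)⁻¹ a b) fun _ _ => 1 := fun a b =>
    (TM.mul hr (TM.inv hr (TM.mul hr Y2.tr Y2) (c := (1 / 4) ^ Fintype.card (Fin M))
      (η := 1 / 2) (by positivity) (by norm_num) fun p y hy => det_ge (gram_herm _) (by norm_num)
        fun u => by rw [dot_gram]; exact Y0 _ y (near_pos hs p.2 hy) u) Y2.tr a b).congr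
      (η₀ := 1 / 2) (by norm_num) fun p y hy => by
        beta_reduce; rw [(Y1 _ y (near_pos hs p.2 hy)).2]
  have Y4 : ∀ a b, TP d true ρ ρ' (fun k _ y => (Y (k + 1) y)⁻¹ a b - (Y k y)⁻¹ a b)
      fun k _ => θ ^ k := fun a b => by
    refine (TN.sum univ hr hθ fun b' _ => (TN.sum univ hr hθ fun a' _ =>
      (TP.succ hs (Y3 a a')).mul1 (K2 a' (Sum.inr b'))).mul1' (Y3 b' b)).neg.congr
        (η₀ := 1 / 2) (by norm_num) fun p y hy => ?_
    have hy' := near_pos hs p.2 hy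
    have e1 : (Y (p.1.1 + 1) y)⁻¹ - (Y p.1.1 y)⁻¹ =
        -((Y (p.1.1 + 1) y)⁻¹ * (Y (p.1.1 + 1) y - Y p.1.1 y) * (Y p.1.1 y)⁻¹) := by
      rw [Matrix.mul_sub, nonsing_inv_mul _ (Y1 _ y hy').1, Matrix.sub_mul, Matrix.one_mul,
        Matrix.mul_assoc, mul_nonsing_inv _ (Y1 _ y hy').1, Matrix.mul_one, neg_sub]
    have e2 := congrFun (congrFun e1 a) b
    rw [Matrix.sub_apply] at e2
    beta_reduce
    rw [e2, Matrix.neg_apply, Matrix.mul_apply]
    simp only [Matrix.mul_apply, hY, Matrix.sub_apply, of_apply,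
      add_sub_add_left_eq_sub]
  have out : ∀ p : ℕ × E N, ¬ 0 < ρ p.2 → sg ρ ρ' p.1 p.2 = 0 := fun p hp =>
    le_antisymm ((hs.le_rho _ _).trans (not_lt.1 hp)) (hs.nonneg _ _)
  refine ⟨fun k i y => if 0 < ρ y then -∑ b, (Y k y)⁻¹ a b * K k y b (Sum.inl i) else 0,
    fun i => ?_, fun i => ?_, ?_, fun k i y hy => ?_⟩
  · refine TN.split (fun p => 0 < ρ p.2) ?_ fun p hp => ⟨out p hp, zero_le_one, by simp [hp]⟩
    exact (TN.sum univ hr (fun _ => zero_le_one) fun b _ => (Y3 a b).mul1 (K1 b (Sum.inl i))).neg.congr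
      (η₀ := 1 / 2) (by norm_num) fun p y hy => by simp [near_pos hs p.2 hy]
  · refine TN.split (fun p => 0 < ρ p.2) ?_ fun p hp => ⟨out p hp, pow_nonneg h0 _, by simp [hp]⟩
    refine (TN.sum univ hr hθ fun b _ => ((Y4 a b).mul1' (TP.succ hs (K1 b (Sum.inl i)))).add
      ((Y3 a b).mul1 (K2 b (Sum.inl i)))).neg.congr (η₀ := 1 / 2) (by norm_num) fun p y hy => ?_
    simp only [near_pos hs p.2 hy, if_true]
    rw [neg_sub_neg, ← sum_sub_distrib, ← sum_neg_distrib]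
    exact sum_congr rfl fun b _ => by ring
  · refine TN.split (fun p => 0 < ρ p.2) ?_ fun p hp => ⟨out p hp,
      Real.rpow_nonneg (hs.nonneg _ _) _, ?_⟩
    · refine (TN.sum univ hr hw fun b _ => (Y3 a b).mul1 (((w3 b).add (b2 (Sum.inr b)).weaken).add
        (TN.sum univ hr hw fun v _ => (K1 b v).mul1 (b2 v).weaken))).congr (η₀ := 1 / 2)
          (by norm_num) fun p y hy => ?_
      have hy' := near_pos hs p.2 hy
      simp only [hy', if_true]
      have e1 : ∀ b, ∑ b', w p.1.1 y b b' * (g b').P p.1.2 y + ((G (Sum.inr b)).P p.1.2 y -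
          ∑ b', J y (Sum.inr b) b' * (g b').P p.1.2 y) + ∑ v, K p.1.1 y b v *
            ((G v).P p.1.2 y - ∑ b', J y v b' * (g b').P p.1.2 y) =
          (Y p.1.1 y *ᵥ fun b' => (G (Sum.inr b')).P p.1.2 y) b +
            ∑ i, K p.1.1 y b (Sum.inl i) * (G (Sum.inl i)).P p.1.2 y := by
        intro b
        have e2 : ∑ v, K p.1.1 y b v * ∑ b', J y v b' * (g b').P p.1.2 y =
            ∑ b', (w p.1.1 y b b' - J y (Sum.inr b) b') * (g b').P p.1.2 y := by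
          simp only [mul_sum, ← mul_assoc]
          rw [sum_comm]
          exact sum_congr rfl fun b' _ => by rw [← sum_mul, K3 _ y hy']
        simp only [mul_sub, sum_sub_distrib]
        rw [e2, Fintype.sum_sum_type (fun v => K p.1.1 y b v * (G v).P p.1.2 y), hY]
        simp only [add_mulVec, one_mulVec, Pi.add_apply, sub_mul, sum_sub_distrib]
        simp only [mulVec, dotProduct, of_apply]
        ring
      simp only [e1, mul_add, sum_add_distrib]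
      have e3 : ∑ b, (Y p.1.1 y)⁻¹ a b * (Y p.1.1 y *ᵥ fun b' => (G (Sum.inr b')).P p.1.2 y) b =
          (G (Sum.inr a)).P p.1.2 y := by
        have := congrFun (congrArg (· *ᵥ fun b' => (G (Sum.inr b')).P p.1.2 y)
          (nonsing_inv_mul _ (Y1 p.1.1 y hy').1)) a
        simp only [← mulVec_mulVec, one_mulVec] at this
        exact this
      rw [e3]
      simp only [neg_mul, sum_neg_distrib, sub_neg_eq_add, mul_sum, sum_mul, mul_assoc]
      rw [sum_comm]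
    · simp only [hp, if_false, zero_mul, sum_const_zero, sub_zero]
      rw [CF.center _ H.pos]
      exact (h.tz a).eq_zero H (le_antisymm (not_lt.1 hp) (hs.l.1 _))
  · simp only [hY, hK, w5 k y hy]

/-- the state descends once almost normal vectors exist at all intermediate scales -/
theorem St.descend (H : Hs d s) (h0 : 0 ≤ θ) (h1 : θ < 1) {g : Fin M → CF N d s}
    {G : Am m M → CF N d s} {J : E N → Matrix (Am m M) (Fin M) ℝ} (h : St g ρ G J) (hs : Sc ρ ρ')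
    (w : ℕ → E N → Matrix (Fin M) (Fin M) ℝ)
    (w1 : ∀ a b, TP d true ρ ρ' (fun k _ y => w k y a b) fun _ _ => 1)
    (w2 : ∀ a b, TP d true ρ ρ' (fun k _ y => w (k + 1) y a b - w k y a b) fun k _ => θ ^ k)
    (w3 : ∀ a, TP d true ρ ρ' (fun k x y => ∑ b, w k y a b * (g b).P x y)
      fun k x => sg ρ ρ' k x ^ s)
    (w4 : ∀ k y, 0 < ρ y → ∑ a, ∑ b, (w k y a b - J y (Sum.inr a) b) ^ 2 ≤ 1 / 4)
    (w5 : ∀ k y, 8 * (ρ y / 2 ^ k) < ρ' y → w (k + 1) y = w k y) :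
    ∃ (G' : Am m M → CF N d s) (J' : E N → Matrix (Am m M) (Fin M) ℝ), St g ρ' G' J' := by
  obtain ⟨g', h', a1, a2, a3⟩ := rotallO H h0 h1 hs M (fun i => G (Sum.inl i))
    (fun a => G (Sum.inr a)) h.tz (h.md H h0 hs w w1 w2 w3 w4 w5)
  have e : Sum.elim (fun i => G (Sum.inl i)) (fun a => G (Sum.inr a)) = G := by
    ext1 v; cases v <;> rfl
  rw [e] at a3
  exact ⟨_, h.of_OX H hs a3 (fun y => by simpa [Fintype.sum_sum_type] using a2 y) a1⟩

end Pool.Agent.CA9.UB
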