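import Pool.Agent.Lib.MP_ca9be0_an.UB.IGf
import Pool.Agent.Lib.MP_ca9be0_an.UB.ClT

/-! The projection of a dominant set of columns is tame and kills the jet. -/

namespace Pool.Agent.CA9.UB

open Finset Matrix Pool.Agent.Lib.MP_ca9be0_an.PyF

section diag

variable {W B : Type} [Fintype W] [Fintype B] [DecidableEq W] [DecidableEq B]
  (X : Matrix W B ℝ) (D : B → ℝ) (I : Finset B)

omit [Fintype W] [DecidableEq W] in
lemma q2c_msk : X * diagonal D * msk I =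
    X * msk I * diagonal fun b => if b ∈ I then D b else 1 := by
  rw [Matrix.mul_assoc, Matrix.mul_assoc, msk, diagonal_mul_diagonal, diagonal_mul_diagonal]
  congr 2
  ext b
  split_ifs <;> simp

omit [DecidableEq W] in
lemma q2c_gM : gM (X * diagonal D) I = (diagonal fun b => if b ∈ I then D b else 1) * gM X I *
    diagonal fun b => if b ∈ I then D b else 1 := by
  have h : (diagonal fun b => if b ∈ I then D b else 1) * msk Iᶜ *
      (diagonal fun b => if b ∈ I then D b else 1) = msk Iᶜ := by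
    rw [msk, diagonal_mul_diagonal, diagonal_mul_diagonal]
    congr 1
    ext b
    by_cases hb : b ∈ I <;> simp [hb]
  rw [gM, gM, q2c_msk, Matrix.mul_add, Matrix.add_mul, h, transpose_mul _ (diagonal _),
    diagonal_transpose]
  simp only [Matrix.mul_assoc]

omit [DecidableEq W] in
lemma q2c_gI_diag : gI (X * diagonal D) I = (∏ b ∈ I, D b) ^ 2 * gI X I := by
  rw [gI, gI, q2c_gM, det_mul, det_mul, det_diagonal, prod_ite_mem, univ_inter]
  ring

lemma q2c_aI_diag : aI (X * diagonal D) I = (∏ b ∈ I, D b) ^ 2 • aI X I := by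
  have h : (diagonal fun b => if b ∈ I then D b else 1).det = ∏ b ∈ I, D b := by
    rw [det_diagonal, prod_ite_mem, univ_inter]
  rw [aI, aI, q2c_gI_diag, q2c_gM, q2c_msk, adjugate_mul_distrib, adjugate_mul_distrib,
    transpose_mul _ (diagonal _), diagonal_transpose, smul_sub, smul_smul]
  congr 1
  generalize (diagonal fun b => if b ∈ I then D b else 1) = P at h
  calc X * msk I * P * (P.adjugate * ((gM X I).adjugate * P.adjugate)) * (P * (X * msk I)ᵀ)
      = X * msk I * (P * P.adjugate) * (gM X I).adjugate * (P.adjugate * P) * (X * msk I)ᵀ := by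
        simp only [Matrix.mul_assoc]
    _ = _ := by
        rw [mul_adjugate, adjugate_mul, h]
        simp only [Matrix.mul_smul, Matrix.smul_mul, Matrix.mul_one, smul_smul, sq]

end diag

variable {N j M d : ℕ} {s : ℝ}

lemma q2c_pX (g : Fin M → CF N d s) (ζ : E N) {r : ℝ} (hr : 0 < r) (v : Fin j → E N) (y : E N) :
    pX g ζ r v y = pX g ζ 1 v y * diagonal fun c => r⁻¹ ^ (s - (bs j d).deg c) := by
  ext w c
  have h := (bs j d).rescale (s := s) (fr_comp ((g w).mem ζ) y v) hr (inv_pos.2 hr) 0 c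
  rw [inv_mul_cancel₀ hr.ne'] at h
  rw [mul_diagonal, pX_eq g ζ hr, pX_eq g ζ one_pos, h]

lemma q2c_pj (g : Fin M → CF N d s) (v : Fin j → E N) (I : Finset (BA j d)) (ζ y : E N) {r : ℝ}
    (hr : 0 < r) : (gI (pX g ζ 1 v y) I)⁻¹ • aI (pX g ζ 1 v y) I =
      (gI (pX g ζ r v y) I)⁻¹ • aI (pX g ζ r v y) I := by
  have h : (∏ c ∈ I, r⁻¹ ^ (s - (bs j d).deg c)) ^ 2 ≠ 0 :=
    pow_ne_zero _ (prod_pos fun c _ => Real.rpow_pos_of_pos (inv_pos.2 hr) _).ne'
  rw [q2c_pX g ζ hr, q2c_gI_diag, q2c_aI_diag, smul_smul, mul_inv, mul_right_comm,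
    inv_mul_cancel₀ h, one_mul]

variable {g : Fin M → CF N d s} {v : Fin j → E N} {c η : ℝ} {ι : Type} {x ζ : ι → E N}
  {r : ι → ℝ} {I : ι → Finset (BA j d)}

lemma q2c_sel {b : Bool} {w : ι → ℝ} {u : Finset (BA j d) → ι → E N → ℝ} (hr : ∀ i, 0 ≤ r i)
    (hw : ∀ i, 0 ≤ w i) (h : ∀ I, TN d b x r (u I) w) : TN d b x r (fun i => u (I i) i) w :=
  (TN.fin hr hw h).comp fun i => (I i, i)

lemma q2c_inv {e : ℕ} (hG : IsGauge d e (fG d j : Gg M N j)) (hv : ‖v‖ ≤ 1) (hc : 0 < c)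
    (hη : 0 < η) (hn : Near 1 x r ζ r) (h : ∀ i y, ‖y - x i‖ ≤ η * r i →
      c * fb (fG d j) g (ζ i) (r i) ≤ gI (pX g (ζ i) (r i) v y) (I i)) : T1 d x r fun i y =>
      ((fb (fG d j) g (ζ i) (r i))⁻¹ * gI (pX g (ζ i) (r i) v y) (I i))⁻¹ := by
  have h0 := fun i => (hn.pos i).le
  obtain ⟨C, hC⟩ := hn.gram hG g hv
  have hb := fun i => one_pos.trans_le (one_le_fb hG g (ζ i) (r i))
  have t1 : ∀ I, T1 d x r fun i y =>
      (fb (fG d j) g (ζ i) (r i))⁻¹ * gI (pX g (ζ i) (r i) v y) I := fun I => by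
    have u1 := (pX_UM g ζ hn.pos v).mul (UM.c (msk I))
    refine ((UP.const _).mul ((u1.tr.mul u1).add (UM.c (msk Iᶜ))).det).tame h0
      (fun _ => zero_le_one) (K := C) fun i y hy => ?_
    rw [abs_mul, abs_of_pos (inv_pos.2 (hb i)), inv_mul_le_iff₀ (hb i)]
    have h1 := gI_nonneg (pX g (ζ i) (r i) v y) I
    have h2 := gI_le (pX g (ζ i) (r i) v y) I
    refine (abs_of_nonneg h1).trans_le ?_
    linarith [hC i y hy]
  refine T1.inv (q2c_sel h0 (fun _ => zero_le_one) t1) hc hη fun i y hy => ?_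
  rw [le_inv_mul_iff₀ (hb i), mul_comm]
  exact h i y hy

lemma q2c_cA {e : ℕ} (hG : IsGauge d e (fG d j : Gg M N j)) (g : Fin M → CF N d s)
    (v : Fin j → E N) (I : Finset (BA j d)) (ζ y : E N) {r : ℝ} (hr : 0 < r) :
    (gI (pX g ζ 1 v y) I)⁻¹ • aI (pX g ζ 1 v y) I =
      ((fb (fG d j) g ζ r)⁻¹ * gI (pX g ζ r v y) I)⁻¹ • cA g v I ζ r y := by
  have hb := (one_pos.trans_le (one_le_fb hG g ζ r)).ne'
  rw [q2c_pj g v I ζ y hr, cA, smul_smul, mul_inv, inv_inv, mul_right_comm, mul_inv_cancel₀ hb,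
    one_mul]

theorem q2c_tame (hv : ‖v‖ ≤ 1) (hc : 0 < c) (hη : 0 < η) (hn : Near 1 x r ζ r)
    (h : ∀ i y, ‖y - x i‖ ≤ η * r i →
      c * fb (fG d j) g (ζ i) (r i) ≤ gI (pX g (ζ i) (r i) v y) (I i)) :
    TM d x r fun i y => (gI (pX g (ζ i) 1 v y) (I i))⁻¹ • aI (pX g (ζ i) 1 v y) (I i) := by
  obtain ⟨e, hG⟩ := fG_gauge d j M N
  refine (TM.smul (q2c_inv hG hv hc hη hn h) fun a b => q2c_sel (I := I) (fun i => (hn.pos i).le)
    (fun _ => zero_le_one) fun I => cA_TM hG g hn hv I a b).congr fun i y => ?_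
  exact (q2c_cA hG g v _ _ y (hn.pos i)).symm

theorem q2c_kill (H : Hs d s) (hv : ‖v‖ ≤ 1) (hc : 0 < c) (hη : 0 < η) (hn : Near 1 x r ζ r)
    (h : ∀ i y, ‖y - x i‖ ≤ η * r i →
      c * fb (fG d j) g (ζ i) (r i) ≤ gI (pX g (ζ i) (r i) v y) (I i)) (a : Fin M) :
    TN d true x r (fun i y => ∑ b, ((gI (pX g (ζ i) 1 v y) (I i))⁻¹ •
      aI (pX g (ζ i) 1 v y) (I i)) a b * (g b).P (x i) y) fun i => r i ^ s := by
  obtain ⟨e, hG⟩ := fG_gauge d j M N
  refine ((q2c_inv hG hv hc hη hn h).mul1 (q2c_sel (I := I) (fun i => (hn.pos i).le)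
    (fun i => Real.rpow_nonneg (hn.pos i).le s) fun I => cA_P H hG g hn hv I a)).congr'
    fun i y => ?_
  rw [q2c_cA hG g v _ _ y (hn.pos i)]
  simp only [Matrix.smul_apply, smul_eq_mul, mul_sum, mul_assoc]

end Pool.Agent.CA9.UB
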