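import Pool.Agent.Lib.MP_ca9be0_an.UB.IM
import Pool.Agent.Lib.MP_ca9be0_an.UB.Q2c

/-! Existence of a dominant set of columns. -/

namespace Pool.Agent.CA9.UB

open Finset Matrix Pool.Agent.Lib.MP_ca9be0_an.PyF

variable {N j M d : ℕ} {s : ℝ}

lemma q2e_mem (g : Fin M → CF N d s) (ζ : E N) (r : ℝ) (v : Fin j → E N) (I : Finset (BA j d)) :
    (fun y => gI (pX g ζ r v y) I) ∈ Pd N (Fintype.card (BA j d) * (d + d)) := by
  have h1 : ∀ w c, (fun y => pX g ζ r v y w c) ∈ Pd N d := fun w c => by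
    refine gf_Pd_co _ fun z => ?_
    have := gf_Pd_comp (φ := fun y : E N => fr (r⁻¹ • (y - ζ)) v z) (a := 1) (fun i => ?_)
      (nj_PV g ζ r w)
    · rwa [mul_one] at this
    simp only [gf_fr_apply, PiLp.smul_apply, PiLp.sub_apply, smul_eq_mul]
    exact Pd_add (Pd_smul _ (coord_mem i _)) (const_mem _ _)
  have h2 : ∀ w c, (fun y => (pX g ζ r v y * msk I) w c) ∈ Pd N d := fun w c => by
    simp only [msk, mul_diagonal, mul_comm _ (ite _ _ _)]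
    exact Pd_smul _ (h1 w c)
  refine gf_Pd_det fun a b => ?_
  simp only [gM, Matrix.add_apply]
  refine Pd_add ?_ (const_mem _ _)
  simp only [Matrix.mul_apply (M := (_ : Matrix (Fin M) (BA j d) ℝ)ᵀ), transpose_apply]
  exact Pd_sum _ fun w _ => Pd_mul (h2 w a) (h2 w b)

lemma q2e_mono (g : Fin M → CF N d s) (ζ y : E N) (v : Fin j → E N) (I : Finset (BA j d)) {r : ℝ}
    (hr : 0 < r) : gI (pX g ζ r v y) I =
      gI (pX g ζ 1 v y) I * r ^ (-(2 * ∑ c ∈ I, (s - (bs j d).deg c))) := by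
  rw [q2c_pX g ζ hr, q2c_gI_diag, mul_comm, ← Real.rpow_sum_of_pos (inv_pos.2 hr),
    ← Real.rpow_natCast, ← Real.rpow_mul (inv_pos.2 hr).le, Real.inv_rpow hr.le,
    Real.rpow_neg hr.le, mul_comm (2 : ℝ)]
  norm_num

theorem exists_Gd' (g : Fin M → CF N d s) (j : ℕ) (X : Finset ℝ) (K : ℝ) (hK : 1 ≤ K)
    {ε : ℝ} (hε : 0 < ε) : ∃ A c η : ℝ, 1 ≤ A ∧ 0 < c ∧ 0 < η ∧ η ≤ 1 ∧
      ∀ (v : Fin j → E N) ζ lo r hi, ‖v‖ ≤ 1 → 0 ≤ lo → 0 < r → A * lo ≤ r → A * r ≤ hi →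
        Mono X K (fb (fG d j) g ζ) lo hi → ε ≤ hP g v ζ r → ∃ I : Finset (BA j d),
          ∀ r y, 0 < r → lo < r → r ≤ hi → ‖y - ζ‖ ≤ η * r →
            c * fb (fG d j) g ζ r ≤ gI (pX g ζ r v y) I := by
  classical
  obtain ⟨e, hG⟩ := fG_gauge d j M N
  have hn : (0 : ℝ) < Fintype.card (Finset (BA j d)) := by exact_mod_cast Fintype.card_pos
  obtain ⟨A, c, hA, hc, h⟩ := term_two X (univ.image fun I : Finset (BA j d) =>
    -(2 * ∑ c ∈ I, (s - (bs j d).deg c))) K 1 hK (div_pos hε hn)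
  have hK := Kg_pos N (Fintype.card (BA j d) * (d + d))
  obtain ⟨η, hη⟩ : ∃ η, η = min 1 (c / (2 * Kg N (Fintype.card (BA j d) * (d + d)))) := ⟨_, rfl⟩
  have η1 : η ≤ 1 := hη ▸ min_le_left _ _
  have η2 : 2 * Kg N (Fintype.card (BA j d) * (d + d)) * η ≤ c := by
    rw [← le_div_iff₀' (by positivity), hη]; exact min_le_right _ _
  refine ⟨A, c / 2, η, hA, half_pos hc, by rw [hη]; positivity, η1,
    fun v ζ lo r hi hv h0 hr h1 h2 hm hp => ?_⟩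
  have hb := fun ρ => one_pos.trans_le (one_le_fb hG g ζ ρ)
  have up : ∀ I ρ y, 0 < ρ → ‖y - ζ‖ ≤ ρ → gI (pX g ζ ρ v y) I ≤ fb (fG d j) g ζ ρ :=
    fun I ρ y hρ hy => (gI_le _ I).trans (hG.le_gb (nj_PV g ζ ρ) (by
      rw [norm_smul, norm_inv, Real.norm_of_nonneg hρ.le, inv_mul_le_iff₀ hρ, mul_one]
      exact hy) hv)
  obtain ⟨I, -, hI⟩ := exists_max_image univ (fun I => gI (pX g ζ r v ζ) I) univ_nonempty
  have a1 : ε * fb (fG d j) g ζ r ≤ Fintype.card (Finset (BA j d)) * gI (pX g ζ r v ζ) I := by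
    rw [hP, le_div_iff₀ (hb r)] at hp
    refine hp.trans ?_
    have e1 : fG d j (nj g ζ r) 0 v = ∑ I, gI (pX g ζ r v ζ) I := by
      rw [sum_gI, pX, sub_self, smul_zero]; rfl
    rw [e1, ← card_univ, ← nsmul_eq_mul]
    exact sum_le_card_nsmul _ _ _ hI
  have a2 := h (fb (fG d j) g ζ) lo hi r (gI (pX g ζ 1 v ζ) I) _ (mem_image_of_mem _ (mem_univ I))
    h0 hr h1 h2 (fun ρ _ => hb ρ) hm (fun ρ l1 _ => by
      rw [← q2e_mono g ζ ζ v I (h0.trans_lt l1), one_mul]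
      exact up I ρ ζ (h0.trans_lt l1) (by simpa using (h0.trans_lt l1).le)) (by
      rw [← q2e_mono g ζ ζ v I hr, div_mul_eq_mul_div, div_le_iff₀' hn]; exact a1)
  refine ⟨I, fun ρ y hρ l1 l2 hy => ?_⟩
  have a3 := a2 ρ l1 l2
  rw [← q2e_mono g ζ ζ v I hρ] at a3
  have a4 := PB.lip (u := fun y => gI (pX g ζ ρ v y) I) (fun y hy => by
    rw [abs_of_nonneg (gI_nonneg _ _)]; exact up I ρ y hρ hy) (q2e_mem g ζ ρ v I) hρ y
      (hy.trans (mul_le_of_le_one_left hρ.le η1))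
  have a5 : ‖y - ζ‖ / ρ ≤ η := by rwa [div_le_iff₀ hρ]
  have a6 := (abs_le.1 (a4.trans (mul_le_mul_of_nonneg_left a5 (mul_pos hK (hb ρ)).le))).1
  nlinarith [mul_le_mul_of_nonneg_right η2 (hb ρ).le]

end Pool.Agent.CA9.UB
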