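import Pool.Agent.Lib.MP_ca9be0_an.UB.IM
import Pool.Agent.Lib.MP_ca9be0_an.UB.Q2e
import Pool.Agent.Lib.MP_ca9be0_an.UB.IGf
import Pool.Agent.Lib.MP_ca9be0_an.UB.Cl1
import Pool.Agent.Lib.MP_ca9be0_an.UB.Q2c

/-! Dominant sets of columns and their projections. -/

namespace Pool.Agent.CA9.UB

open Finset Matrix Pool.Agent.Lib.MP_ca9be0_an.PyF

variable {N j M d : ℕ} {s : ℝ}

/-- the projection that kills the columns in `I` of the frame matrix of the jet at `ζ` -/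
noncomputable def pj (g : Fin M → CF N d s) (v : Fin j → E N) (I : Finset (BA j d)) (ζ y : E N) :
    Matrix (Fin M) (Fin M) ℝ := (gI (pX g ζ 1 v y) I)⁻¹ • aI (pX g ζ 1 v y) I

/-- the set `I` is dominant near `ζ` at all scales in `(lo, hi]` -/
def Gd (g : Fin M → CF N d s) (v : Fin j → E N) (c η : ℝ) (I : Finset (BA j d)) (ζ : E N)
    (lo hi : ℝ) : Prop :=
  ∀ r y, 0 < r → lo < r → r ≤ hi → ‖y - ζ‖ ≤ η * r →
    c * fb (fG d j) g ζ r ≤ gI (pX g ζ r v y) I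

/-- a family of dominant sets seen from nearby points `x` at admissible scales `r` -/
def GdF (g : Fin M → CF N d s) (v : Fin j → E N) (c η : ℝ) {ι : Type} (x : ι → E N) (r : ι → ℝ)
    (I : ι → Finset (BA j d)) (ζ : ι → E N) (lo hi : ι → ℝ) : Prop :=
  ∀ i, Gd g v c η (I i) (ζ i) (lo i) (hi i) ∧ 0 < r i ∧ lo i < r i ∧ r i ≤ hi i ∧
    ‖ζ i - x i‖ ≤ η / 2 * r i

theorem exists_Gd (H : Hs d s) (g : Fin M → CF N d s) (j : ℕ) (X : Finset ℝ) (K : ℝ) (hK : 1 ≤ K)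
    {ε : ℝ} (hε : 0 < ε) : ∃ A c η : ℝ, 1 ≤ A ∧ 0 < c ∧ 0 < η ∧ η ≤ 1 ∧
      ∀ (v : Fin j → E N) ζ lo r hi, ‖v‖ ≤ 1 → 0 ≤ lo → 0 < r → A * lo ≤ r → A * r ≤ hi →
        Mono X K (fb (fG d j) g ζ) lo hi → ε ≤ hP g v ζ r → ∃ I, Gd g v c η I ζ lo hi := by
  have _ := H
  exact exists_Gd' g j X K hK hε

variable {g : Fin M → CF N d s} {v : Fin j → E N} {c η : ℝ} {ι : Type} {x ζ ζ' : ι → E N}
  {r lo hi lo' hi' : ι → ℝ} {I I' : ι → Finset (BA j d)}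

lemma GdF.near (hη1 : η ≤ 1) (h : GdF g v c η x r I ζ lo hi) : Near 1 x r ζ r :=
  ⟨le_rfl, fun i => (h i).2.1, fun i => (h i).2.2.2.2.trans
    (mul_le_mul_of_nonneg_right (by linarith) (h i).2.1.le), fun _ => by simp, fun _ => by simp⟩

lemma GdF.low (h : GdF g v c η x r I ζ lo hi) (i : ι) (y : E N) (hy : ‖y - x i‖ ≤ η / 2 * r i) :
    c * fb (fG d j) g (ζ i) (r i) ≤ gI (pX g (ζ i) (r i) v y) (I i) := by
  obtain ⟨h1, h2, h3, h4, h5⟩ := h i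
  have h6 := norm_sub_le_norm_sub_add_norm_sub y (x i) (ζ i)
  rw [norm_sub_rev (x i)] at h6
  exact h1 _ y h2 h3 h4 (by linarith)

theorem GdF.tame (H : Hs d s) (hv : ‖v‖ ≤ 1) (hc : 0 < c) (hη : 0 < η) (hη1 : η ≤ 1)
    (h : GdF g v c η x r I ζ lo hi) : TM d x r fun i => pj g v (I i) (ζ i) := by
  have _ := H
  exact q2c_tame hv hc (half_pos hη) (h.near hη1) h.low

theorem GdF.kill (H : Hs d s) (hv : ‖v‖ ≤ 1) (hc : 0 < c) (hη : 0 < η) (hη1 : η ≤ 1)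
    (h : GdF g v c η x r I ζ lo hi) (a : Fin M) :
    TN d true x r (fun i y => ∑ b, pj g v (I i) (ζ i) y a b * (g b).P (x i) y) fun i => r i ^ s := by
  exact q2c_kill H hv hc (half_pos hη) (h.near hη1) h.low a

end Pool.Agent.CA9.UB
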