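import Pool.Agent.Lib.MP_ca9be0_an.UB.Q2
import Pool.Agent.Lib.MP_ca9be0_an.UB.ClT

/-! Dual vectors of dominant sets of columns. -/

namespace Pool.Agent.CA9.UB

open Finset Matrix Pool.Agent.Lib.MP_ca9be0_an.PyF

section alg

variable {W B : Type} [Fintype W] [DecidableEq W] [Fintype B] [DecidableEq B]

/-- the Gram determinant times the dual vectors of the columns in `I` -/
def qbN (X : Matrix W B ℝ) (I : Finset B) : Matrix W B ℝ := X * msk I * (gM X I).adjugate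

/-- the dual vectors of the columns in `I` -/
noncomputable def qbD (X : Matrix W B ℝ) (I : Finset B) : Matrix W B ℝ := (gI X I)⁻¹ • qbN X I

/-- the projection that kills the columns in `I` -/
noncomputable def qbP (X : Matrix W B ℝ) (I : Finset B) : Matrix W W ℝ := (gI X I)⁻¹ • aI X I

variable (X : Matrix W B ℝ) (I : Finset B)

omit [DecidableEq W] in
lemma qb_adj {c : B} (hc : c ∈ I) : (gM X I).adjugate c c = gI X (I.erase c) := by
  have h1 : rM X (I.erase c) = (rM X I).updateRow c (Pi.single c 1) := by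
    funext a
    by_cases h : a = c
    · subst h
      rw [rM_apply, if_neg (notMem_erase a I), updateRow_self]
    · rw [rM_apply, updateRow_ne h, rM_apply]
      simp [h]
  rw [← det_rM, h1, ← adjugate_apply, adj_rM, Matrix.mul_sub, Matrix.mul_one, Matrix.sub_apply,
    ← Matrix.mul_assoc]
  simp [msk, hc]

omit [DecidableEq W] in
lemma qbN_sq (a : W) (c : B) : qbN X I a c ^ 2 ≤ gI X I * (1 + Xᵀ * X).det := by
  have h1 : (qbN X I)ᵀ * qbN X I = gI X I • (msk I * (gM X I).adjugate) := by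
    rw [qbN, transpose_mul (X * msk I), adjugate_transpose, gM_tr, Matrix.mul_assoc,
      ← Matrix.mul_assoc (X * msk I)ᵀ, ← Matrix.mul_assoc, adj_gram, Matrix.smul_mul]
  have h2 : ∑ w, qbN X I w c * qbN X I w c = gI X I * (msk I * (gM X I).adjugate) c c :=
    congrFun (congrFun h1 c) c
  have h3 : (msk I * (gM X I).adjugate) c c ≤ (1 + Xᵀ * X).det := by
    rw [msk, diagonal_mul]
    split_ifs with hc
    · rw [one_mul, qb_adj X I hc]; exact gI_le X _
    · rw [zero_mul]; exact zero_le_one.trans (one_le_gram X)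
  rw [sq]
  exact (single_le_sum (f := fun w => qbN X I w c * qbN X I w c) (fun w _ => mul_self_nonneg _)
    (mem_univ a)).trans (h2.le.trans (mul_le_mul_of_nonneg_left h3 (gI_nonneg X I)))

omit [DecidableEq W] in
lemma qbD_le {c F : ℝ} (hc : 0 < c) (h1 : c * F ≤ gI X I) (h2 : (1 + Xᵀ * X).det ≤ F) (a : W)
    (b : B) : |qbD X I a b| ≤ 1 + c⁻¹ := by
  have hF : 0 < F := one_pos.trans_le ((one_le_gram X).trans h2)
  have hg : 0 < gI X I := (mul_pos hc hF).trans_le h1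
  have h3 : qbD X I a b ^ 2 ≤ c⁻¹ := by
    rw [qbD, Matrix.smul_apply, smul_eq_mul, mul_pow, inv_pow, inv_mul_le_iff₀ (by positivity)]
    refine (qbN_sq X I a b).trans ?_
    rw [sq, mul_assoc]
    refine mul_le_mul_of_nonneg_left (h2.trans ?_) hg.le
    rw [← div_eq_mul_inv, le_div_iff₀ hc]
    linarith
  nlinarith [sq_abs (qbD X I a b), sq_nonneg (|qbD X I a b| - 1), inv_pos.2 hc]

omit [DecidableEq W] in
lemma qbN_out (a : W) {c : B} (hc : c ∉ I) : qbN X I a c = 0 := by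
  have h : qbN X I * msk Iᶜ = 0 := by
    rw [qbN, Matrix.mul_assoc, adj_compl, Matrix.mul_smul, Matrix.mul_assoc, msk_mul_compl]
    simp
  simpa [msk, hc] using congrFun (congrFun h a) c

lemma qbP_tr : (qbP X I)ᵀ = qbP X I := by rw [qbP, transpose_smul, aI_tr]

lemma qb_one_sub (h : gI X I ≠ 0) : 1 - qbP X I = X * msk I * (qbD X I)ᵀ := by
  have h1 : 1 - qbP X I = qbD X I * (X * msk I)ᵀ := by
    rw [qbP, aI, smul_sub, smul_smul, inv_mul_cancel₀ h, one_smul, sub_sub_cancel, qbD, qbN,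
      Matrix.smul_mul]
  have h2 := congrArg transpose h1
  rwa [transpose_sub, transpose_one, qbP_tr, transpose_mul, transpose_transpose] at h2

/-- the scaling of the columns in `I` -/
def qbS (t : B → ℝ) : Matrix B B ℝ := diagonal fun b => if b ∈ I then t b else 1

variable (t : B → ℝ)

omit [Fintype W] [DecidableEq W] in
lemma qb_msk : X * diagonal t * msk I = X * msk I * qbS I t := by
  rw [Matrix.mul_assoc, Matrix.mul_assoc, msk, qbS, diagonal_mul_diagonal, diagonal_mul_diagonal]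
  refine congrArg (fun u => X * diagonal u) (funext fun b => ?_)
  split_ifs <;> simp

omit [DecidableEq W] in
lemma qb_gM : gM (X * diagonal t) I = qbS I t * gM X I * qbS I t := by
  have h : qbS I t * msk Iᶜ * qbS I t = msk Iᶜ := by
    rw [msk, qbS, diagonal_mul_diagonal, diagonal_mul_diagonal]
    refine congrArg diagonal (funext fun b => ?_)
    by_cases hb : b ∈ I <;> simp [hb]
  rw [gM, gM, qb_msk, Matrix.mul_add, Matrix.add_mul, h, transpose_mul (X * msk I), qbS,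
    diagonal_transpose]
  simp only [Matrix.mul_assoc]

omit [DecidableEq W] in
lemma qb_gI : gI (X * diagonal t) I = (qbS I t).det ^ 2 * gI X I := by
  rw [gI, qb_gM, det_mul, det_mul, gI]; ring

omit [DecidableEq W] in
lemma qb_N : qbN (X * diagonal t) I * qbS I t = (qbS I t).det ^ 2 • qbN X I := by
  rw [qbN, qb_msk, qb_gM, adjugate_mul_distrib, adjugate_mul_distrib, Matrix.mul_assoc,
    Matrix.mul_assoc (qbS I t).adjugate, Matrix.mul_assoc (gM X I).adjugate, adjugate_mul,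
    Matrix.mul_assoc (X * msk I), ← Matrix.mul_assoc (qbS I t), mul_adjugate, qbN]
  simp [smul_smul, sq]

omit [Fintype W] [DecidableEq W] in
lemma qb_det (ht : ∀ b, t b ≠ 0) : (qbS I t).det ≠ 0 := by
  rw [qbS, det_diagonal]
  refine prod_ne_zero_iff.2 fun b _ => ?_
  split_ifs
  · exact ht b
  · exact one_ne_zero

lemma qbP_scale (ht : ∀ b, t b ≠ 0) : qbP (X * diagonal t) I = qbP X I := by
  have h0 := pow_ne_zero 2 (qb_det I t ht)
  have h1 : aI (X * diagonal t) I = (qbS I t).det ^ 2 • aI X I := by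
    have h2 := qb_N X I t
    rw [qbN, qbN] at h2
    have h3 : (X * diagonal t * msk I)ᵀ = qbS I t * (X * msk I)ᵀ := by
      rw [qb_msk, transpose_mul (X * msk I), qbS, diagonal_transpose]
    rw [aI, aI, smul_sub, smul_smul, ← qb_gI, ← Matrix.smul_mul, ← h2, h3]
    simp only [Matrix.mul_assoc]
  rw [qbP, qbP, h1, qb_gI, smul_smul, mul_inv, mul_right_comm, inv_mul_cancel₀ h0, one_mul]

omit [DecidableEq W] in
lemma qbD_scale (ht : ∀ b, t b ≠ 0) (a : W) (c : B) :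
    qbD (X * diagonal t) I a c * t c = qbD X I a c := by
  have h0 := pow_ne_zero 2 (qb_det I t ht)
  simp only [qbD, Matrix.smul_apply, smul_eq_mul]
  by_cases hc : c ∈ I
  · have h1 := congrFun (congrFun (qb_N X I t) a) c
    rw [qbS, mul_diagonal, if_pos hc, Matrix.smul_apply, smul_eq_mul, ← qbS] at h1
    rw [mul_assoc, h1, qb_gI, mul_inv, mul_right_comm, ← mul_assoc, inv_mul_cancel₀ h0, one_mul,
      mul_comm]
  · rw [qbN_out _ _ _ hc, qbN_out _ _ _ hc]; simp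

end alg

variable {N j M d : ℕ} {s : ℝ}

lemma qb_pX (g : Fin M → CF N d s) (ζ : E N) {r R : ℝ} (hr : 0 < r) (hR : 0 < R)
    (v : Fin j → E N) (y : E N) : pX g ζ r v y =
      pX g ζ R v y * diagonal fun c => (R / r) ^ (s - (bs j d).deg c) := by
  ext w c
  have h1 := (bs j d).rescale (s := s) (fr_comp ((g w).mem ζ) y v) hr (div_pos hR hr) 0 c
  rw [div_mul_cancel₀ _ hr.ne'] at h1
  rw [mul_diagonal, pX_eq g _ hr, pX_eq g _ hR, h1]

lemma qb_pj (g : Fin M → CF N d s) (v : Fin j → E N) (I : Finset (BA j d)) (ζ y : E N) {r : ℝ}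
    (hr : 0 < r) : pj g v I ζ y = qbP (pX g ζ r v y) I := by
  rw [← qbP_scale (pX g ζ r v y) I (fun c => (r / 1) ^ (s - (bs j d).deg c))
    fun c => (Real.rpow_pos_of_pos (div_pos hr one_pos) _).ne', ← qb_pX g ζ one_pos hr]
  rfl

lemma qb_gram (g : Fin M → CF N d s) {v : Fin j → E N} (hv : ‖v‖ ≤ 1) {ζ y : E N} {r : ℝ}
    (hr : 0 < r) (hy : ‖y - ζ‖ ≤ r) :
    (1 + (pX g ζ r v y)ᵀ * pX g ζ r v y).det ≤ fb (fG d j) g ζ r := by
  obtain ⟨e, hG⟩ := fG_gauge d j M N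
  refine hG.le_gb (nj_PV g ζ r) ?_ hv
  rw [norm_smul, norm_inv, Real.norm_eq_abs, abs_of_pos hr, inv_mul_le_iff₀ hr, mul_one]
  exact hy

lemma qb_diff (H : Hs d s) (g : Fin M → CF N d s) {v : Fin j → E N} (hv : ‖v‖ ≤ 1) :
    ∃ C, 0 ≤ C ∧ ∀ (x ζ y : E N) (r : ℝ), 0 < r → ‖y - x‖ ≤ r → ‖y - ζ‖ ≤ r → ∀ w c,
      |pX g x r v y w c - pX g ζ r v y w c| ≤ C := by
  obtain ⟨K, hK, hw⟩ := CF.whitney g
  obtain ⟨ρ, L, hρ, hL, h⟩ := gf_co_bd j d
  refine ⟨L * (K * ((j * ρ + 1) ^ s + (j * ρ + 1) ^ s)), by positivity,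
    fun x ζ y r hr hx hζ w c => ?_⟩
  rw [pX_eq g x hr, pX_eq g ζ hr, ← co_scl_sub]
  refine h c _ _ fun z hz => ?_
  have h1 := Real.rpow_pos_of_pos hr s
  have h2 : ‖fr y v (0 + r • z) - y‖ ≤ j * ρ * r := by
    refine (fr_dist hv y hr.le z).trans (mul_le_mul_of_nonneg_right ?_ hr.le)
    simpa using sum_le_card_nsmul univ (fun l => |z l|) ρ
      fun l _ => (PiLp.norm_apply_le z l).trans hz
  have h3 := norm_sub_le_norm_sub_add_norm_sub (fr y v (0 + r • z)) y x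
  have h4 := norm_sub_le_norm_sub_add_norm_sub (fr y v (0 + r • z)) y ζ
  rw [scl, abs_div, abs_of_pos h1, div_le_iff₀ h1, mul_assoc, add_mul,
    ← Real.mul_rpow (by positivity) hr.le]
  refine (hw w _ _ _).trans (mul_le_mul_of_nonneg_left (add_le_add
    (Real.rpow_le_rpow (norm_nonneg _) ?_ H.pos.le)
    (Real.rpow_le_rpow (norm_nonneg _) ?_ H.pos.le)) hK) <;> linarith

variable {g : Fin M → CF N d s} {v : Fin j → E N} {c η : ℝ}

lemma Gd.qb (hv : ‖v‖ ≤ 1) (hc : 0 < c) (hη : 0 < η) (hη1 : η ≤ 1)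
    {I : Finset (BA j d)} {ζ y : E N} {lo hi r : ℝ} (h : Gd g v c η I ζ lo hi) (hl : lo < hi)
    (hr : 0 < r) (hh : r ≤ hi) (hy : ‖y - ζ‖ ≤ η * r) : gI (pX g ζ r v y) I ≠ 0 ∧
      ∀ a b, |qbD (pX g ζ r v y) I a b| ≤ (1 + c⁻¹) * (r / hi) ^ (s - d) := by
  have h0 := hr.trans_le hh
  have h1 := h hi y h0 hl le_rfl (hy.trans (mul_le_mul_of_nonneg_left hh hη.le))
  have h2 := qb_gram g hv h0 (y := y) (ζ := ζ) (by nlinarith)
  have h3 : 0 < gI (pX g ζ hi v y) I :=
    (mul_pos hc (one_pos.trans_le ((one_le_gram _).trans h2))).trans_le h1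
  have ht : ∀ c : BA j d, 0 < (hi / r) ^ (s - (bs j d).deg c) :=
    fun c => Real.rpow_pos_of_pos (div_pos h0 hr) _
  rw [qb_pX g ζ hr h0]
  refine ⟨?_, fun a b => ?_⟩
  · rw [qb_gI]
    exact mul_ne_zero (pow_ne_zero 2 (qb_det I _ fun c => (ht c).ne')) h3.ne'
  have h4 := qbD_le _ I hc h1 h2 a b
  rw [← qbD_scale _ I _ (fun c => (ht c).ne') a b, abs_mul, abs_of_pos (ht b),
    ← le_div_iff₀ (ht b)] at h4
  refine h4.trans ?_
  rw [div_eq_mul_inv, ← Real.inv_rpow (div_pos h0 hr).le, inv_div]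
  refine mul_le_mul_of_nonneg_left (Real.rpow_le_rpow_of_exponent_ge (div_pos hr h0)
    ((div_le_one h0).2 hh) ?_) (by positivity)
  linarith [(Nat.cast_le (α := ℝ)).2 ((bs j d).le b)]

theorem Gd.small' (H : Hs d s) (g : Fin M → CF N d s) (hv : ‖v‖ ≤ 1) (hc : 0 < c) (hη : 0 < η)
    (hη1 : η ≤ 1) : ∃ C, 0 ≤ C ∧ ∀ I ζ lo hi r y (u : Fin M → ℝ) D, Gd g v c η I ζ lo hi →
      lo < hi → 0 < r → r ≤ hi → ‖y - ζ‖ ≤ η * r → (∀ b, |u b| ≤ D) →
      (∀ a, |∑ b, pX g y r v y b a * u b| ≤ D) →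
      ∀ b, |∑ b', u b' * pj g v I ζ y b' b - u b| ≤ C * D * (r / hi) ^ (s - d) := by
  obtain ⟨K, hK, hd⟩ := qb_diff H g hv
  refine ⟨Fintype.card (BA j d) * ((1 + M * K) * (1 + c⁻¹)), by positivity,
    fun I ζ lo hi r y u D h hl hr hh hy hu hX b => ?_⟩
  obtain ⟨h1, h2⟩ := h.qb hv hc hη hη1 hl hr hh hy
  have hD : 0 ≤ D := (abs_nonneg _).trans (hu b)
  set X := pX g ζ r v y
  have h3 : ∀ a, |(u ᵥ* (X * msk I)) a| ≤ (1 + M * K) * D := fun a => by
    have a1 : |(u ᵥ* X) a| ≤ (1 + M * K) * D := by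
      have e1 : (u ᵥ* X) a = ∑ b, pX g y r v y b a * u b +
          ∑ b, (X b a - pX g y r v y b a) * u b := by
        rw [← sum_add_distrib, vecMul, dotProduct]
        exact sum_congr rfl fun _ _ => by ring
      have a2 : ∀ b ∈ (univ : Finset (Fin M)), |(X b a - pX g y r v y b a) * u b| ≤ K * D :=
        fun b _ => by
          rw [abs_mul]
          exact mul_le_mul (hd ζ y y r hr (by nlinarith) (by simpa using hr.le) b a) (hu b)
            (abs_nonneg _) hK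
      have a3 := (abs_sum_le_sum_abs _ _).trans (sum_le_card_nsmul _ _ _ a2)
      rw [card_univ, Fintype.card_fin, nsmul_eq_mul] at a3
      rw [e1]
      refine (abs_add_le _ _).trans ?_
      linarith [hX a]
    rw [← vecMul_vecMul, msk, vecMul_diagonal]
    split_ifs
    · rwa [mul_one]
    · rw [mul_zero, abs_zero]; positivity
  have e2 : ∑ b', u b' * pj g v I ζ y b' b - u b =
      - ∑ a, (u ᵥ* (X * msk I)) a * qbD X I b a := by
    have e3 := congrFun (congrArg (fun Y => u ᵥ* Y) (qb_one_sub X I h1)) b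
    simp only [vecMul_sub, vecMul_one, Pi.sub_apply] at e3
    rw [← vecMul_vecMul] at e3
    rw [qb_pj g v I ζ y hr]
    exact (neg_sub _ _).symm.trans (congrArg Neg.neg e3)
  have a4 : ∀ a ∈ (univ : Finset (BA j d)), |(u ᵥ* (X * msk I)) a * qbD X I b a| ≤
      (1 + M * K) * D * ((1 + c⁻¹) * (r / hi) ^ (s - d)) := fun a _ => by
    rw [abs_mul]
    exact mul_le_mul (h3 a) (h2 b a) (abs_nonneg _) (by positivity)
  have a5 := (abs_sum_le_sum_abs _ _).trans (sum_le_card_nsmul _ _ _ a4)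
  rw [card_univ, nsmul_eq_mul] at a5
  rw [e2, abs_neg]
  exact a5.trans_eq (by ring)

variable {ι : Type} {x ζ ζ' : ι → E N} {r lo hi lo' hi' : ι → ℝ} {I I' : ι → Finset (BA j d)}

lemma GdF.qb_near (h : GdF g v c η x r I ζ lo hi) (i : ι) {y : E N}
    (hy : ‖y - x i‖ ≤ η / 2 * r i) : ‖y - ζ i‖ ≤ η * r i := by
  have h1 := norm_sub_le_norm_sub_add_norm_sub y (x i) (ζ i)
  rw [norm_sub_rev (x i)] at h1
  linarith [(h i).2.2.2.2]

lemma qb_UM {W B : Type} [Fintype W] [DecidableEq W] [Fintype B] [DecidableEq B]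
    {X : ι → E N → Matrix W B ℝ} (h : UM X) (I : ι → Finset B) :
    UP (fun i y => gI (X i y) (I i)) ∧ UM (fun i y => qbN (X i y) (I i)) ∧
      UM fun i y => aI (X i y) (I i) := by
  have h0 : ∀ I : ι → Finset B, UM fun i (_ : E N) => msk (I i) :=
    fun I a b => UP.const fun i => msk (I i) a b
  have h1 := h.mul (h0 I)
  have h2 : UM fun i y => gM (X i y) (I i) := (h1.tr.mul h1).add (h0 fun i => (I i)ᶜ)
  exact ⟨h2.det, h1.mul h2.adj, (UM.smul h2.det (UM.c 1)).sub ((h1.mul h2.adj).mul h1.tr)⟩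

/-- quotients by the Gram determinant of a dominant set are tame -/
lemma GdF.qb_quot (hv : ‖v‖ ≤ 1) (hc : 0 < c) (hη : 0 < η) (hη1 : η ≤ 1)
    (h : GdF g v c η x r I ζ lo hi) {u : ι → E N → ℝ} (hu : UP u) {w : ι → ℝ} (hw : ∀ i, 0 ≤ w i)
    {K : ℝ} (hb : ∀ i y, ‖y - x i‖ ≤ η / 2 * r i →
      |u i y| ≤ K * w i * fb (fG d j) g (ζ i) (r i)) :
    TN d true x r (fun i y => (gI (pX g (ζ i) (r i) v y) (I i))⁻¹ * u i y) w := by
  have hr := fun i => (h i).2.1
  have h0 := fun i => (hr i).le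
  have hF : ∀ i, 0 < fb (fG d j) g (ζ i) (r i) := fun i =>
    one_pos.trans_le ((one_le_gram _).trans (qb_gram g hv (hr i) (y := ζ i) (by simpa using h0 i)))
  have t0 : ∀ {u : ι → E N → ℝ}, UP u → ∀ {w : ι → ℝ}, (∀ i, 0 ≤ w i) → ∀ {K : ℝ},
      (∀ i y, ‖y - x i‖ ≤ η / 2 * r i → |u i y| ≤ K * w i * fb (fG d j) g (ζ i) (r i)) →
      TN d true x r (fun i y => (fb (fG d j) g (ζ i) (r i))⁻¹ * u i y) w := by
    intro u hu w hw K hb
    obtain ⟨e, he⟩ := hu
    refine TN.poly (fun i => Pd_smul _ (he i)) h0 hw (half_pos hη) (C := K) fun i y hy => ?_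
    rw [abs_mul, abs_of_pos (inv_pos.2 (hF i)), inv_mul_le_iff₀ (hF i), mul_comm]
    exact hb i y hy
  have t1 := t0 (qb_UM (pX_UM g ζ hr v) I).1 (w := fun _ => 1) (fun _ => zero_le_one) (K := 1)
    fun i y hy => by
      rw [abs_of_nonneg (gI_nonneg _ _), one_mul, one_mul]
      exact (gI_le _ _).trans (qb_gram g hv (hr i) (by nlinarith [h.qb_near i hy, hr i]))
  have t2 := T1.inv t1 hc (half_pos hη) fun i y hy => by
    rw [le_inv_mul_iff₀ (hF i), mul_comm]
    exact (h i).1 _ y (hr i) (h i).2.2.1 (h i).2.2.2.1 (h.qb_near i hy)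
  refine (t2.mul1 (t0 hu hw hb)).congr' fun i y => ?_
  have := (hF i).ne'
  rw [mul_inv, inv_inv, mul_mul_mul_comm, mul_inv_cancel₀ this, one_mul]

lemma GdF.qb_half (H : Hs d s) (hv : ‖v‖ ≤ 1) (hc : 0 < c) (hη : 0 < η) (hη1 : η ≤ 1)
    (h : GdF g v c η x r I ζ lo hi) (h' : GdF g v c η x r I' ζ' lo' hi') {R : ι → ℝ}
    (h0 : ∀ i, 0 < R i) (h1 : ∀ i, R i ≤ hi i) (a b : Fin M) :
    TN d true x r (fun i y => (pj g v (I' i) (ζ' i) y * (1 - pj g v (I i) (ζ i) y) :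
      Matrix (Fin M) (Fin M) ℝ) a b) fun i => (r i / R i) ^ (s - d) := by
  have hr := fun i => (h i).2.1
  have r0 := fun i => (hr i).le
  have hw : ∀ i, 0 ≤ (r i / R i) ^ (s - d) :=
    fun i => Real.rpow_nonneg (div_pos (hr i) (h0 i)).le _
  have n1 : ∀ i y, ‖y - x i‖ ≤ η / 2 * r i → ‖y - ζ i‖ ≤ r i :=
    fun i y hy => by nlinarith [h.qb_near i hy, hr i]
  have n2 : ∀ i y, ‖y - x i‖ ≤ η / 2 * r i → ‖y - ζ' i‖ ≤ r i :=
    fun i y hy => by nlinarith [h'.qb_near i hy, hr i]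
  have q1 := fun i y hy => (h i).1.qb hv hc hη hη1 ((h i).2.2.1.trans_le (h i).2.2.2.1) (hr i)
    (h i).2.2.2.1 (h.qb_near i (y := y) hy)
  have u1 := pX_UM g ζ hr v
  have u2 := pX_UM g ζ' hr v
  have t1 : ∀ a b, TN d true x r (fun i y => qbD (pX g (ζ i) (r i) v y) (I i) a b)
      fun i => (r i / R i) ^ (s - d) := fun a b =>
    h.qb_quot hv hc hη hη1 ((qb_UM u1 I).2.1 a b) hw (K := 1 + c⁻¹) fun i y hy => by
      obtain ⟨a1, a2⟩ := q1 i y hy
      have a3 := a2 a b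
      have a4 := lt_of_le_of_ne (gI_nonneg _ _) a1.symm
      rw [qbD, Matrix.smul_apply, smul_eq_mul, abs_mul, abs_of_pos (inv_pos.2 a4),
        inv_mul_le_iff₀ a4, mul_comm] at a3
      refine a3.trans (mul_le_mul (mul_le_mul_of_nonneg_left (Real.rpow_le_rpow
        (div_pos (hr i) ((h0 i).trans_le (h1 i))).le
        (div_le_div_of_nonneg_left (r0 i) (h0 i) (h1 i)) (by linarith [H.1])) (by positivity))
        ((gI_le _ _).trans (qb_gram g hv (hr i) (n1 i y hy))) a4.le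
        (mul_nonneg (by positivity) (hw i)))
  have t2 : TM d x r fun i y => qbP (pX g (ζ' i) (r i) v y) (I' i) := fun a b =>
    h'.qb_quot hv hc hη hη1 ((qb_UM u2 I').2.2 a b) (fun _ => zero_le_one) (K := 1)
      fun i y hy => by
        rw [one_mul, one_mul]
        exact (aI_le _ _ a b).trans ((gI_le _ _).trans (qb_gram g hv (hr i) (n2 i y hy)))
  have t3 : TM d x r fun i y => qbP (pX g (ζ' i) (r i) v y) (I' i) * pX g (ζ' i) (r i) v y :=
    fun a b => (h'.qb_quot hv hc hη hη1 ((((qb_UM u2 I').2.2).mul u2) a b) (fun _ => zero_le_one)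
      (K := 1) fun i y hy => by
        rw [one_mul, one_mul]
        exact (aI_col_le _ _ a b).trans (qb_gram g hv (hr i) (n2 i y hy))).congr' fun i y => by
      beta_reduce
      rw [qbP, Matrix.smul_mul, Matrix.smul_apply, smul_eq_mul]
  obtain ⟨K, -, hd⟩ := qb_diff H g hv
  have t4 : TM d x r fun i y => pX g (ζ i) (r i) v y - pX g (ζ' i) (r i) v y := fun a b => by
    obtain ⟨e, he⟩ := u1.sub u2 a b
    refine TN.poly he r0 (fun _ => zero_le_one) (half_pos hη) (C := K) fun i y hy => ?_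
    rw [mul_one]
    exact hd _ _ y _ (hr i) (n1 i y hy) (n2 i y hy) a b
  have t5 : TM d x r fun i (_ : E N) => msk (I i) := TM.const r0 1 fun i a b => by
    rw [msk, diagonal_apply]
    split_ifs <;> simp
  have t6 := (t3.add (t2.mul r0 t4)).mul r0 t5
  refine (TN.sum univ r0 hw fun k _ => (t6 a k).mul1 (t1 b k)).congr (half_pos hη)
    fun i y hy => ?_
  beta_reduce
  rw [qb_pj g v _ _ y (hr i), qb_pj g v _ _ y (hr i), qb_one_sub _ _ (q1 i y hy).1,
    ← Matrix.mul_add, add_sub_cancel, ← Matrix.mul_assoc, ← Matrix.mul_assoc]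
  rfl

theorem GdF.pair' (H : Hs d s) (hv : ‖v‖ ≤ 1) (hc : 0 < c) (hη : 0 < η) (hη1 : η ≤ 1)
    (h : GdF g v c η x r I ζ lo hi) (h' : GdF g v c η x r I' ζ' lo' hi') {R : ι → ℝ}
    (h0 : ∀ i, 0 < R i) (h1 : ∀ i, R i ≤ hi i) (h2 : ∀ i, R i ≤ hi' i) (a b : Fin M) :
    TN d true x r (fun i y => pj g v (I' i) (ζ' i) y a b - pj g v (I i) (ζ i) y a b)
      fun i => (r i / R i) ^ (s - d) := by
  refine ((h.qb_half H hv hc hη hη1 h' h0 h1 a b).sub
    (h'.qb_half H hv hc hη hη1 h h0 h2 b a)).congr' fun i y => ?_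
  have e1 : ∀ (I : Finset (BA j d)) ζ, (pj g v I ζ y)ᵀ = pj g v I ζ y := fun I ζ => qbP_tr _ I
  rw [← transpose_apply (pj g v (I i) (ζ i) y * _), transpose_mul, transpose_sub, transpose_one,
    e1, e1, ← Matrix.sub_apply, ← Matrix.sub_apply, Matrix.mul_sub, Matrix.sub_mul, Matrix.mul_one,
    Matrix.one_mul, sub_sub_sub_cancel_right]

end Pool.Agent.CA9.UB
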