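import Pool.Agent.Lib.MP_ca9be0_an.UB.Q1

/-! Gluing local projections at all intermediate scales. -/

namespace Pool.Agent.CA9.UB

open Pool.Agent.Lib.MP_ca9be0_an.PyF Finset Filter Topology Matrix

variable {N M d : ℕ} {s : ℝ}

theorem TN_cases {b : Bool} {ι : Type} {x : ι → E N} {r w : ι → ℝ} {u : ι → E N → ℝ}
    (p : ι → Prop)
    (h : TN d b (fun i : {i // p i} => x i.1) (fun i => r i.1) (fun i => u i.1) (fun i => w i.1))
    (h' : TN d b (fun i : {i // ¬ p i} => x i.1) (fun i => r i.1) (fun i => u i.1)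
      (fun i => w i.1)) : TN d b x r u w := by
  have a1 := h.w_nonneg
  have a2 := h'.w_nonneg
  obtain ⟨C, η, hC, hη, h⟩ := h
  obtain ⟨C', η', hC', hη', h'⟩ := h'
  have h0 := lt_min hη hη'
  refine ⟨max C C', min η η', by positivity, h0, fun i => ?_⟩
  by_cases hi : p i
  · obtain ⟨h1, h2⟩ := h ⟨i, hi⟩
    exact ⟨h1, h2.mono (mul_nonneg h0.le h1) (mul_le_mul_of_nonneg_right (min_le_left _ _) h1)
      (mul_le_mul_of_nonneg_right (le_max_left _ _) (a1 ⟨i, hi⟩))⟩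
  · obtain ⟨h1, h2⟩ := h' ⟨i, hi⟩
    exact ⟨h1, h2.mono (mul_nonneg h0.le h1) (mul_le_mul_of_nonneg_right (min_le_right _ _) h1)
      (mul_le_mul_of_nonneg_right (le_max_right _ _) (a2 ⟨i, hi⟩))⟩

/-- a level, a point and a good centre near it -/
abbrev Tri (ρ ρ' : E N → ℝ) (γ : ℝ) (Go : E N → Prop) :=
  {q : PK ρ × E N // Go q.2 ∧ ‖q.2 - q.1.1.2‖ ≤ 5 * (γ * sg ρ ρ' q.1.1.1 q.1.1.2)}

/-- a level, a point and two good centres near it -/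
abbrev Qua (ρ ρ' : E N → ℝ) (γ : ℝ) (Go : E N → Prop) :=
  {q : PK ρ × E N × E N // (Go q.2.1 ∧ ‖q.2.1 - q.1.1.2‖ ≤ 5 * (γ * sg ρ ρ' q.1.1.1 q.1.1.2)) ∧
    Go q.2.2 ∧ ‖q.2.2 - q.1.1.2‖ ≤ 5 * (γ * sg ρ ρ' q.1.1.1 q.1.1.2)}

/-- what the descent needs from a sequence of matrix fields, apart from smallness -/
structure WS (g : Fin M → CF N d s) (ρ ρ' : E N → ℝ) (W : ℕ → E N → Matrix (Fin M) (Fin M) ℝ) :
    Prop where
  w1 : ∀ a b, TP d true ρ ρ' (fun k _ y => W k y a b) fun _ _ => 1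
  w2 : ∀ a b, TP d true ρ ρ' (fun k _ y => W (k + 1) y a b - W k y a b)
    fun k _ => ((1 / 2 : ℝ) ^ (s - d)) ^ k
  w3 : ∀ a, TP d true ρ ρ' (fun k x y => ∑ b, W k y a b * (g b).P x y) fun k x => sg ρ ρ' k x ^ s
  w5 : ∀ k y, 8 * (ρ y / 2 ^ k) < ρ' y → W (k + 1) y = W k y

variable {ρ ρ' : E N → ℝ} {g : Fin M → CF N d s}

theorem WS.sum (hs : Sc ρ ρ') {L : Type} [Fintype L] {W : L → ℕ → E N → Matrix (Fin M) (Fin M) ℝ}
    (h : ∀ Φ, WS g ρ ρ' (W Φ)) : WS g ρ ρ' fun k y => ∑ Φ, W Φ k y := by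
  have hr : ∀ p : PK ρ, 0 ≤ sg ρ ρ' p.1.1 p.1.2 := fun p => hs.nonneg _ _
  refine ⟨fun a b => (TN.sum univ hr (fun _ => zero_le_one) fun Φ _ => (h Φ).w1 a b).congr'
    fun p y => by simp only [Matrix.sum_apply], fun a b => (TN.sum univ hr (fun _ => by positivity)
      fun Φ _ => (h Φ).w2 a b).congr' fun p y => by simp only [Matrix.sum_apply, sum_sub_distrib],
    fun a => (TN.sum univ hr (fun p => Real.rpow_nonneg (hr p) _) fun Φ _ => (h Φ).w3 a).congr'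
      fun p y => ?_, fun k y hy => sum_congr rfl fun Φ _ => (h Φ).w5 k y hy⟩
  simp only [Matrix.sum_apply, sum_mul]
  exact sum_comm

theorem assemble (H : Hs d s) (hs : Sc ρ ρ') (w : E N → Matrix (Fin M) (Fin M) ℝ)
    (tw : TM d (fun x : Pos ρ => x.1) (fun x => ρ x.1) fun _ => w)
    (tT : ∀ a, TN d true (fun x : Pos ρ => x.1) (fun x => ρ x.1)
      (fun x y => ∑ b, w y a b * (g b).P x.1 y) fun x => ρ x.1 ^ s)
    (Q : E N → E N → Matrix (Fin M) (Fin M) ℝ) (Go : E N → Prop) {B γ : ℝ} (g0 : 0 < γ)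
    (g1 : γ ≤ 1 / 100) (alt : ∀ ζ, 0 < ρ ζ → ¬ Go ζ → (∀ y, Q ζ y = 1) ∧
      (ρ ζ ≤ B * ρ' ζ ∨ ∀ y, ‖y - ζ‖ ≤ 10 * γ * ρ ζ → w y = 0))
    (G1 : TM d (fun q : Tri ρ ρ' γ Go => q.1.1.1.2) (fun q => sg ρ ρ' q.1.1.1.1 q.1.1.1.2)
      fun q => Q q.1.2)
    (G2 : ∀ a, TN d true (fun q : Tri ρ ρ' γ Go => q.1.1.1.2)
      (fun q => sg ρ ρ' q.1.1.1.1 q.1.1.1.2) (fun q y => ∑ b, Q q.1.2 y a b * (g b).P q.1.1.1.2 y)
      fun q => sg ρ ρ' q.1.1.1.1 q.1.1.1.2 ^ s)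
    (G3 : ∀ a b, TN d true (fun q : Qua ρ ρ' γ Go => q.1.1.1.2)
      (fun q => sg ρ ρ' q.1.1.1.1 q.1.1.1.2) (fun q y => Q q.1.2.2 y a b - Q q.1.2.1 y a b)
      fun q => (sg ρ ρ' q.1.1.1.1 q.1.1.1.2 / ρ q.1.1.1.2) ^ (s - d)) :
    ∃ W, WS g ρ ρ' W ∧ ∀ k y δ a b, 0 < ρ y → 0 ≤ δ →
      (∀ ζ, ‖ζ - y‖ ≤ 5 * (γ * sg ρ ρ' k y) → Go ζ → |(w y * Q ζ y) a b - w y a b| ≤ δ) →
      |W k y a b - w y a b| ≤ δ := by
  classical
  have hβ : 0 < s - d := by linarith [H.1]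
  have aK := fun k => (hs.lip k).adm g0 g1
  obtain ⟨σK, hσK⟩ : ∃ σK : ℕ → E N → ℝ, σK = fun k y => γ * sg ρ ρ' k y := ⟨_, rfl⟩
  have eK : ∀ k y, σK k y = γ * sg ρ ρ' k y := fun k y => by rw [hσK]
  replace aK : ∀ k, Adm (σK k) := by rw [hσK]; exact aK
  have hr : ∀ p : PK ρ, 0 ≤ sg ρ ρ' p.1.1 p.1.2 := fun p => hs.nonneg _ _
  have hw : ∀ p : PK ρ, 0 ≤ sg ρ ρ' p.1.1 p.1.2 ^ s := fun p => Real.rpow_nonneg (hr p) _
  have hω : ∀ p : PK ρ, 0 ≤ (sg ρ ρ' p.1.1 p.1.2 / ρ p.1.2) ^ (s - d) := fun p =>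
    Real.rpow_nonneg (div_nonneg (hr p) p.2.le) _
  have z2 : ∀ e k c x, ‖zeta (σK (k + e)) c x - x‖ ≤ 5 * (γ * sg ρ ρ' k x) := fun e k c x => by
    have := zeta_near (aK (k + e)) c x
    rw [eK] at this
    have := mul_le_mul_of_nonneg_left (hs.anti (Nat.le_add_right k e) x) g0.le
    linarith
  have zp : ∀ k x ζ, 0 < ρ x → ‖ζ - x‖ ≤ 5 * (γ * sg ρ ρ' k x) → 19 / 20 * ρ x ≤ ρ ζ :=
    fun k x ζ hx h => by nlinarith [hs.l.le' x ζ, hs.le_rho k x, hs.nonneg k x]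
  have alt' : ∀ k x ζ, 0 < ρ x → ‖ζ - x‖ ≤ 5 * (γ * sg ρ ρ' k x) → ¬ Go ζ → (∀ y, Q ζ y = 1) ∧
      (ρ x ≤ (2 * |B| + 1) * sg ρ ρ' k x ∨ ∀ y, ‖y - x‖ ≤ γ * sg ρ ρ' k x → w y = 0) := by
    intro k x ζ hx h hg
    have a1 := zp k x ζ hx h
    obtain ⟨a2, a3⟩ := alt ζ (by linarith) hg
    have a4 := hs.nonneg k x
    have a5 : ‖ζ - x‖ ≤ sg ρ ρ' k x := by nlinarith
    refine ⟨a2, a3.imp (fun a3 => ?_) fun a3 y hy => a3 y ?_⟩
    · have a6 : ρ' ζ ≤ 2 * sg ρ ρ' k x := by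
        linarith [hs.l'.2 ζ x, le_max_right (ρ x / 2 ^ k) (ρ' x),
          show sg ρ ρ' k x = max (ρ x / 2 ^ k) (ρ' x) from rfl]
      have a7 : B * ρ' ζ ≤ |B| * (2 * sg ρ ρ' k x) :=
        mul_le_mul (le_abs_self B) a6 (hs.l'.1 ζ) (abs_nonneg B)
      linarith [hs.l.le' x ζ]
    · have a6 := norm_sub_le_norm_sub_add_norm_sub y x ζ
      rw [norm_sub_rev x ζ] at a6
      nlinarith [mul_le_mul_of_nonneg_left (hs.le_rho k x) g0.le]
  let f : PK ρ → Pos ρ := fun p => ⟨p.1.2, p.2⟩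
  have hle : ∀ p : PK ρ, sg ρ ρ' p.1.1 p.1.2 ≤ 1 * ρ p.1.2 := fun p => by
    rw [one_mul]; exact hs.le_rho _ _
  have b1 : TM d (fun p : PK ρ => p.1.2) (fun p => sg ρ ρ' p.1.1 p.1.2) fun _ => w := fun a b =>
    ((tw a b).comp f).mono_r 1 hr hle
  have b2 := fun a => ((tT a).comp f).mono_r 1 hr hle
  have fK : ∀ e ≤ 1, ∀ c, TN d true (fun p : PK ρ => p.1.2) (fun p => sg ρ ρ' p.1.1 p.1.2)
      (fun p y => phi d (σK (p.1.1 + e)) c y ^ 2) (fun _ => 1) := fun e he c =>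
    ((phi_TN (fun p : PK ρ => aK (p.1.1 + e)) (fun p => p.1.2) c).mono_r (2 * γ⁻¹) hr fun p => by
      rw [eK, mul_assoc, inv_mul_cancel_left₀ g0.ne']
      exact (hs.half _ _).trans (mul_le_mul_of_nonneg_left (hs.anti (by omega) _) zero_le_two)).pow 2
  obtain ⟨Z, hZ⟩ : ∃ Z : ℕ → Col N → PK ρ → E N,
    Z = fun e c p => zeta (σK (p.1.1 + e)) c p.1.2 := ⟨_, rfl⟩
  have z3 : ∀ e c p, ‖Z e c p - p.1.2‖ ≤ 5 * (γ * sg ρ ρ' p.1.1 p.1.2) := fun e c p => by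
    rw [hZ]; exact z2 e _ c _
  let f1 : ∀ e c, {p : PK ρ // Go (Z e c p)} → Tri ρ ρ' γ Go := fun e c p =>
    ⟨(p.1, Z e c p.1), p.2, z3 _ _ _⟩
  let f2 : ∀ c c', {p : PK ρ // Go (Z 0 c p) ∧ Go (Z 1 c' p)} → Qua ρ ρ' γ Go := fun c c' p =>
    ⟨(p.1, Z 0 c p.1, Z 1 c' p.1), ⟨p.2.1, z3 _ _ _⟩, p.2.2, z3 _ _ _⟩
  have A1 : ∀ e c, TM d (fun p : PK ρ => p.1.2) (fun p => sg ρ ρ' p.1.1 p.1.2)
      fun p => Q (Z e c p) := fun e c a b => by
    refine TN_cases (fun p => Go (Z e c p)) ((G1 a b).comp (f1 e c))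
      ((T1.c (fun p => hr _) ((1 : Matrix (Fin M) (Fin M) ℝ) a b)).congr' fun p y => ?_)
    beta_reduce
    rw [(alt' _ _ _ p.1.2 (z3 e c p.1) p.2).1]
  have A2 : ∀ c c' a b, TN d true (fun p : PK ρ => p.1.2) (fun p => sg ρ ρ' p.1.1 p.1.2)
      (fun p y => (w y * Q (Z 1 c' p) y) a b - (w y * Q (Z 0 c p) y) a b)
      fun p => (sg ρ ρ' p.1.1 p.1.2 / ρ p.1.2) ^ (s - d) := fun c c' a b => by
    refine TN_cases (fun p => Go (Z 0 c p) ∧ Go (Z 1 c' p)) ?_ ?_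
    · refine (TN.sum univ (fun p => hr _) (fun p => hω _) fun b' _ =>
        ((b1 a b').comp Subtype.val).mul1 ((G3 b' b).comp (f2 c c'))).congr' fun p y => ?_
      simp only [Matrix.mul_apply, mul_sub, sum_sub_distrib, f2]
    · refine (((TM.mul hr b1 (A1 1 c') a b).sub (TM.mul hr b1 (A1 0 c) a b)).comp
        Subtype.val).zero_or g0 ((2 * |B| + 1) ^ (s - d)) (fun p => hω _) fun p => ?_
      have a1 : ρ p.1.1.2 ≤ (2 * |B| + 1) * sg ρ ρ' p.1.1.1 p.1.1.2 ∨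
          ∀ y, ‖y - p.1.1.2‖ ≤ γ * sg ρ ρ' p.1.1.1 p.1.1.2 → w y = 0 :=
        (not_and_or.1 p.2).elim (fun h => (alt' _ _ _ p.1.2 (z3 _ _ _) h).2)
          fun h => (alt' _ _ _ p.1.2 (z3 _ _ _) h).2
      refine a1.imp (fun a1 => ?_) fun a1 y hy => by simp [a1 y hy]
      rw [← Real.mul_rpow (by positivity) (div_nonneg (hr _) p.1.2.le)]
      refine Real.one_le_rpow ?_ hβ.le
      rw [← mul_div_assoc, one_le_div p.1.2]
      exact a1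
  have A3 : ∀ c a, TN d true (fun p : PK ρ => p.1.2) (fun p => sg ρ ρ' p.1.1 p.1.2)
      (fun p y => ∑ b, (w y * Q (Z 0 c p) y) a b * (g b).P p.1.2 y)
      fun p => sg ρ ρ' p.1.1 p.1.2 ^ s := fun c a => by
    refine TN_cases (fun p => Go (Z 0 c p)) ?_ ?_
    · refine (TN.sum univ (fun p => hr _) (fun p => hw _) fun b' _ =>
        ((b1 a b').comp Subtype.val).mul1 ((G2 b').comp (f1 0 c))).congr' fun p y => ?_
      simp only [Matrix.mul_apply, mul_sum, sum_mul, mul_assoc]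
      exact sum_comm
    · refine (((b2 a).comp Subtype.val).zero_or g0 ((2 * |B| + 1) ^ s) (fun p => hw _)
        fun p => ?_).congr' fun p y => ?_
      · refine (alt' _ _ _ p.1.2 (z3 _ _ _) p.2).2.imp (fun a1 => ?_) fun a1 y hy => by
          simp [a1 y hy]
        rw [← Real.mul_rpow (by positivity) (hr _)]
        exact Real.rpow_le_rpow p.1.2.le a1 H.pos.le
      · rw [(alt' _ _ _ p.1.2 (z3 _ _ _) p.2).1, Matrix.mul_one]
  obtain ⟨W, hW⟩ : ∃ W : ℕ → E N → Matrix (Fin M) (Fin M) ℝ, W = fun l y => of fun a b =>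
    ∑ c, phi d (σK l) c y ^ 2 * (w y * Q (zeta (σK l) c y) y) a b := ⟨_, rfl⟩
  have loc : ∀ e ≤ 1, ∀ (p : PK ρ) y a b, ‖y - p.1.2‖ ≤ γ / 20 * sg ρ ρ' p.1.1 p.1.2 →
      W (p.1.1 + e) y a b = ∑ c, phi d (σK (p.1.1 + e)) c y ^ 2 * (w y * Q (Z e c p) y) a b := by
    intro e he p y a b hy
    have a3 := (hs.half p.1.1 p.1.2).trans (mul_le_mul_of_nonneg_left
      (hs.anti (show p.1.1 + e ≤ p.1.1 + 1 by omega) p.1.2) zero_le_two)
    rw [hW, hZ]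
    exact sum_congr rfl fun c _ => phi_sq_loc (aK _) (by rw [eK]; nlinarith)
      fun ζ => (w y * Q ζ y) a b
  have stab : ∀ k y, 8 * (ρ y / 2 ^ k) < ρ' y → W (k + 1) y = W k y := by
    intro k y hy
    have a0 : sg ρ ρ' (k + 1) y = ρ' y := max_eq_right (by
      have := hs.eps_anti (Nat.le_add_right k 1) y
      have : 0 ≤ ρ y / 2 ^ k := div_nonneg (hs.l.1 y) (by positivity)
      linarith)
    have a1 : ∀ y', ‖y' - y‖ ≤ 5 * σK (k + 1) y → sg ρ ρ' (k + 1) y' = sg ρ ρ' k y' := by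
      intro y' hy'
      rw [eK, a0] at hy'
      have a2 : ρ y' / 2 ^ k ≤ ρ' y' := by
        nlinarith [hs.eps_lip k y' y, hs.l'.le' y y', hs.l'.1 y]
      rw [sg, sg, max_eq_right a2, max_eq_right ((hs.eps_anti (Nat.le_succ k) y').trans a2)]
    have a2 := phi_congr (d := d) (aK (k + 1)) (aK k) fun y' hy' => by rw [eK, eK, a1 y' hy']
    simp only [hW, (a2 _).1, (a2 _).2]
  have hγ : 0 < γ / 20 := by positivity
  refine ⟨W, ⟨fun a b => ?_, fun a b => ?_, fun a => ?_, stab⟩, fun k y δ a b hy hδ h => ?_⟩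
  · exact (TN.sum univ hr (fun _ => zero_le_one) fun c _ => (fK 0 zero_le_one c).mul1
      (TM.mul hr b1 (A1 0 c) a b)).congr hγ fun p y hy => (loc 0 zero_le_one p y a b hy).symm
  · have a1 : TN d true (fun p : PK ρ => p.1.2) (fun p => sg ρ ρ' p.1.1 p.1.2)
        (fun p y => W (p.1.1 + 1) y a b - W p.1.1 y a b)
        (fun p => (sg ρ ρ' p.1.1 p.1.2 / ρ p.1.2) ^ (s - d)) := by
      refine (TN.sum univ hr hω fun c' _ => TN.sum univ hr hω fun c _ => (fK 1 le_rfl c').mul1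
        ((fK 0 zero_le_one c).mul1 (A2 c c' a b))).congr hγ fun p y hy => ?_
      have e0 := loc 0 zero_le_one p y a b hy
      rw [add_zero] at e0
      rw [loc 1 le_rfl p y a b hy, e0]
      simp only [mul_sub, sum_sub_distrib, ← mul_sum, ← sum_mul, add_zero, phi_sq (aK _), one_mul]
    refine a1.zero_or (η₀ := 1 / 20) (by norm_num) (16 ^ (s - d)) (fun i => by positivity)
      fun i => ?_
    obtain ⟨⟨k, x⟩, hx⟩ := i
    dsimp only at hx ⊢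
    by_cases h1 : 16 * (ρ x / 2 ^ k) < ρ' x
    · refine Or.inr fun y hy => ?_
      have h2 : 0 ≤ ρ x / 2 ^ k := by positivity
      rw [sg, max_eq_right (by linarith)] at hy
      rw [stab k y (by linarith [hs.eps_lip k y x, hs.l'.le' x y]), sub_self]
    · left
      rw [Real.rpow_pow_comm (by norm_num), ← Real.mul_rpow (by norm_num) (by positivity)]
      refine Real.rpow_le_rpow (div_nonneg (hs.nonneg _ _) hx.le) ?_ hβ.le
      have h2 : 0 ≤ ρ x / 2 ^ k := by positivity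
      rw [div_le_iff₀ hx, _root_.one_div_pow, show 16 * (1 / 2 ^ k) * ρ x = 16 * (ρ x / 2 ^ k) by ring]
      exact max_le (by linarith) (not_lt.1 h1)
  · refine (TN.sum univ hr hw fun c _ => (fK 0 zero_le_one c).mul1 (A3 c a)).congr hγ
      fun p y hy => ?_
    have e0 := fun b => loc 0 zero_le_one p y a b hy
    simp only [add_zero] at e0
    simp only [e0, add_zero, mul_sum, sum_mul, mul_assoc]
    exact sum_comm
  · have e1 : W k y a b - w y a b = ∑ c, phi d (σK k) c y ^ 2 *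
        ((w y * Q (zeta (σK k) c y) y) a b - w y a b) := by
      simp only [hW, of_apply, mul_sub, sum_sub_distrib, ← sum_mul, phi_sq (aK _), one_mul]
    rw [e1, ← one_mul δ, ← phi_sq (d := d) (aK k) y, sum_mul]
    refine (abs_sum_le_sum_abs _ _).trans (sum_le_sum fun c _ => ?_)
    rw [abs_mul, abs_of_nonneg (sq_nonneg _)]
    refine mul_le_mul_of_nonneg_left ?_ (sq_nonneg _)
    by_cases hg : Go (zeta (σK k) c y)
    · exact h _ (z2 0 k c y) hg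
    · rw [(alt' k y (zeta (σK k) c y) hy (z2 0 k c y) hg).1, Matrix.mul_one, sub_self, abs_zero]
      exact hδ

end Pool.Agent.CA9.UB
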