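import Pool.Agent.Lib.MP_ca9be0_an.UB.Q2b
import Pool.Agent.Lib.MP_ca9be0_an.UB.Q3

/-! The cutoff at the upper scale and the descent for one label. -/

namespace Pool.Agent.CA9.UB

open Pool.Agent.Lib.MP_ca9be0_an.PyF Finset Filter Topology Matrix

variable {N M j d : ℕ} {s : ℝ}

theorem q_fb_pos (g : Fin M → CF N d s) (j : ℕ) (x : E N) (ρ : ℝ) : 0 < fb (fG d j) g x ρ := by
  obtain ⟨e, he⟩ := fG_gauge d j M N
  exact one_pos.trans_le ((one_le_fG _ 0 0).trans (he.le_gb (nj_PV g x ρ) (by simp) (by simp)))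

theorem hP_cmp (H : Hs d s) (g : Fin M → CF N d s) (j : ℕ) : ∃ C, 1 ≤ C ∧
    ∀ (v : Fin j → E N) x x' ρ ρ' γ, ‖v‖ ≤ 1 → 0 < ρ → γ ≤ 1 → ‖x - x'‖ ≤ γ * ρ → ρ ≤ 2 * ρ' →
      ρ' ≤ 2 * ρ → hP g v x ρ ≤ C * (hP g v x' ρ' + γ) := by
  obtain ⟨e, he⟩ := fG_gauge d j M N
  obtain ⟨C₁, p1, h1⟩ := he.lipv H g
  obtain ⟨C₂, p2, h2⟩ := he.move H g 2 one_le_two
  obtain ⟨C₃, p3, h3⟩ := he.cb H g 2 one_le_two
  refine ⟨C₁ * (C₂ * C₃) + C₁ + 1, by have : 0 < C₁ * (C₂ * C₃) + C₁ := by positivity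
                                      linarith, fun v x x' ρ ρ' γ hv h0 g1 hx r1 r2 => ?_⟩
  have h0' : 0 < ρ' := by linarith
  have g0 : 0 ≤ γ := nonneg_of_mul_nonneg_left ((norm_nonneg _).trans hx) h0
  have a1 := h1 x x' ρ γ v h0 g1 hx hv
  have a2 := h2 x' x' ρ' ρ x' v h0' (by simp; linarith) r2 r1 (by simp; linarith) (by linarith)
  simp only [sub_self, smul_zero] at a2
  have a3 := h3 x x' ρ ρ' h0 (by nlinarith) r1 r2
  have b1 := q_fb_pos g j x ρ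
  have b2 := q_fb_pos g j x' ρ'
  have a4 : fG d j (nj g x' ρ') 0 v = hP g v x' ρ' * fb (fG d j) g x' ρ' := by
    rw [hP, div_mul_cancel₀ _ b2.ne']
  have a5 : 0 ≤ hP g v x' ρ' := div_nonneg (he.nn _ _ _) b2.le
  rw [hP, div_le_iff₀ b1]
  have a6 : fG d j (nj g x' ρ) 0 v ≤ C₂ * (hP g v x' ρ' * (C₃ * fb (fG d j) g x ρ)) := by
    refine a2.trans ?_
    rw [a4]; gcongr
  generalize fb (fG d j) g x ρ = b at *
  generalize hP g v x' ρ' = t at *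
  have := mul_le_mul_of_nonneg_left a6 p1.le
  have e1 : 0 ≤ C₁ * (C₂ * C₃) * γ * b := by positivity
  have e2 : 0 ≤ (C₁ + 1) * t * b := by positivity
  have e3 : 0 ≤ γ * b := by positivity
  nlinarith

theorem cutoff {ρ h : E N → ℝ} (hρ : Lip1 ρ) {C ε γ : ℝ} (hC : 1 ≤ C) (g0 : 0 < γ)
    (g1 : γ ≤ 1 / 100) (g2 : 16 * C * γ ≤ ε)
    (hc : ∀ x x' t, 0 < ρ x → t ≤ 1 / 2 → ‖x - x'‖ ≤ t * ρ x → h x ≤ C * (h x' + t)) :
    ∃ χ : E N → ℝ, T1 d (fun x : Pos ρ => x.1) (fun x => ρ x.1) (fun _ => χ) ∧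
      (∀ y, 0 ≤ χ y ∧ χ y ≤ 1) ∧ (∀ y, 0 < ρ y → χ y = 1 ∨ h y ≤ 2 * C * ε) ∧
      ∀ ζ y, 0 < ρ ζ → h ζ < ε / (2 * C) → ‖y - ζ‖ ≤ γ * ρ ζ → χ y = 0 := by
  classical
  have aT := hρ.adm g0 g1
  have hr : ∀ x : Pos ρ, 0 ≤ ρ x.1 := fun x => x.2.le
  have zn := fun c y => zeta_near aT c y
  have i0 : ∀ p : Prop, (0 : ℝ) ≤ (if p then 1 else 0) ∧ (if p then (1 : ℝ) else 0) ≤ 1 :=
    fun p => by split_ifs <;> simp
  refine ⟨fun y => ∑ c, phi d (fun y => γ * ρ y) c y ^ 2 *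
    (if ε ≤ h (zeta (fun y => γ * ρ y) c y) then 1 else 0), ?_, fun y => ⟨?_, ?_⟩,
      fun y hy => ?_, fun ζ y hζ h1 hy => ?_⟩
  · refine (T1.sum univ hr fun c _ => (((phi_TN (fun _ : Pos ρ => aT) (fun x => x.1) c).mono_r γ⁻¹
      hr fun x => by rw [inv_mul_cancel_left₀ g0.ne']).pow 2).mul1 (TN.const1 (c := fun x : Pos ρ =>
        if ε ≤ h (zeta (fun y => γ * ρ y) c x.1) then 1 else 0) hr 1 fun x => by
          split_ifs <;> simp)).congr (η₀ := γ / 10) (by positivity) fun x y hy => ?_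
    exact sum_congr rfl fun c _ => (phi_sq_loc aT (by linarith)
      fun ζ => if ε ≤ h ζ then 1 else 0).symm
  · exact sum_nonneg fun c _ => mul_nonneg (sq_nonneg _) (i0 _).1
  · exact (sum_le_sum fun c _ => mul_le_of_le_one_right (sq_nonneg _) (i0 _).2).trans
      (phi_sq (d := d) aT y).le
  · by_cases h1 : ∀ c, ε ≤ h (zeta (fun y => γ * ρ y) c y)
    · left; simp only [h1, if_true, mul_one, phi_sq aT]
    · obtain ⟨c, h2⟩ := not_forall.1 h1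
      have h3 := hc y (zeta (fun y => γ * ρ y) c y) (5 * γ) hy (by linarith) (by
        rw [norm_sub_rev, mul_assoc]; exact zn c y)
      have h4 : 5 * γ ≤ ε := by nlinarith
      exact Or.inr (h3.trans (by nlinarith [not_le.1 h2]))
  · refine sum_eq_zero fun c _ => ?_
    rw [if_neg, mul_zero]
    intro h2
    have a1 := zn c y
    generalize zeta (fun y => γ * ρ y) c y = z at *
    have a2 := norm_sub_le_norm_sub_add_norm_sub z y ζ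
    have a3 := hρ.2 y ζ
    have a4 := hρ.le' ζ z
    have a5 : γ * ρ y ≤ γ * (101 / 100 * ρ ζ) := by gcongr; nlinarith
    have a6 : ‖z - ζ‖ ≤ 7 * (γ * ρ ζ) := by nlinarith
    have a7 : 93 / 100 * ρ ζ ≤ ρ z := by nlinarith
    have h3 := hc z ζ (8 * γ) (by linarith) (by linarith) (by nlinarith)
    rw [lt_div_iff₀ (by positivity)] at h1
    nlinarith

theorem q_jet (g : Fin M → CF N d s) (v : Fin j → E N) (x y : E N) {ρ : ℝ} (h : 0 < ρ)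
    (b : Fin M) : (g b).P x y = ρ ^ s * ∑ a, (bs j d).m a 0 * pX g x ρ v y b a := by
  have h1 := (bs j d).exp _ (gf_fr_mem (ρ⁻¹ • (y - x)) v (nj_PV g x ρ b)) 0
  have h2 := (Real.rpow_pos_of_pos h s).ne'
  have h3 : fr (ρ⁻¹ • (y - x)) v 0 = ρ⁻¹ • (y - x) := by simp [fr]
  simp only [h3] at h1
  rw [nj, scl, smul_inv_smul₀ h.ne', add_sub_cancel, div_eq_iff h2] at h1
  rw [h1, mul_comm]
  congr 1
  exact sum_congr rfl fun a _ => mul_comm _ _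

theorem q_ctr {ι α : Type} [Finite α] {x : ι → E N} {r : ι → ℝ} {u : α → ι → E N → ℝ}
    (hr : ∀ i, 0 ≤ r i) (h : ∀ a, T1 d x r (u a)) : ∃ C, 0 < C ∧ ∀ a i, |u a i (x i)| ≤ C := by
  obtain ⟨C, η, hC, hη, h1⟩ := (TN.fin hr (fun _ => zero_le_one) h).bound
  exact ⟨C, hC, fun a i => by
    simpa using h1 (a, i) (x i) (by simpa using mul_nonneg hη.le (hr i))⟩

theorem q_sc {σ₂ σb : E N → ℝ} (hs : Sc σ₂ σb) {A : ℝ} (hA : 1 ≤ A) :
    Sc (fun x => max (σ₂ x / A) (σb x)) σb := by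
  refine ⟨⟨fun x => le_max_of_le_right (hs.l'.1 x), fun x y => max_le ?_
    ((hs.l'.2 x y).trans (add_le_add_left (le_max_right _ _) _))⟩, hs.l', fun x => le_max_right _ _⟩
  have h2 : ‖x - y‖ / A ≤ ‖x - y‖ := div_le_self (norm_nonneg _) hA
  have h3 : σ₂ x / A ≤ (σ₂ y + ‖x - y‖) / A := by gcongr; exact hs.l.2 x y
  rw [add_div] at h3
  linarith [le_max_left (σ₂ y / A) (σb y)]

theorem one_label (H : Hs d s) {g : Fin M → CF N d s} {σ₂ σb : E N → ℝ} (hs : Sc σ₂ σb)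
    {σ : {A : ℝ // 1 ≤ A} → E N → ℝ} (hσ : ∀ A x, σ A x = max (σ₂ x / A.1) (σb x))
    {v : Fin j → E N} (hv : ‖v‖ ≤ 1) (w : {A : ℝ // 1 ≤ A} → E N → Matrix (Fin M) (Fin M) ℝ)
    (tw : ∀ a b, T1 d (fun p : {p : {A : ℝ // 1 ≤ A} × E N // 0 < σ p.1 p.2} => p.1.2)
      (fun p => σ p.1.1 p.1.2) fun p y => w p.1.1 y a b)
    (tX : ∀ a c, T1 d (fun p : {p : {A : ℝ // 1 ≤ A} × E N // 0 < σ p.1 p.2} => p.1.2)
      (fun p => σ p.1.1 p.1.2) fun p y => ∑ b, pX g p.1.2 (σ p.1.1 p.1.2) v y b c * w p.1.1 y a b)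
    {Cs : ℝ} (sm : ∀ A y a b, 0 < σ A y → |w A y a b| ≤ Cs * hP g v y (σ A y))
    (X : Finset ℝ) (B K : ℝ) (hK : 1 ≤ K)
    (hd : ∀ x, σ₂ x ≤ B * σb x ∨ Mono X K (fb (fG d j) g x) (σb x / 2) (σ₂ x))
    {δ : ℝ} (hδ : 0 < δ) : ∃ A₀ : ℝ, ∀ A : {A : ℝ // 1 ≤ A}, A₀ ≤ A.1 → ∃ W, WS g (σ A) σb W ∧
      ∀ k y a b, 0 < σ A y → |W k y a b - w A y a b| ≤ δ := by
  classical
  have hβ : 0 < s - d := by linarith [H.1]
  obtain ⟨C, hC, cmp⟩ := hP_cmp H g j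
  obtain ⟨ε, hε⟩ : ∃ ε, ε = δ / (4 * C * (|Cs| + 1)) := ⟨_, rfl⟩
  have ε0 : 0 < ε := by rw [hε]; positivity
  obtain ⟨A₁, c, η, hA₁, hc, hη, hη1, hG⟩ := exists_Gd H g j X K hK
    (show 0 < ε / (2 * C) by positivity)
  obtain ⟨D₁, p1, hD₁⟩ := q_ctr (α := Fin M × Fin M) (fun p => p.2.le) fun q => tw q.1 q.2
  obtain ⟨D₂, p2, hD₂⟩ := q_ctr (α := Fin M × BA j d) (fun p => p.2.le) fun q => tX q.1 q.2
  obtain ⟨C₂, p3, hsm⟩ := Gd.small' H g hv hc hη hη1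
  obtain ⟨κ, κ0, κ1, hκ⟩ := small_pow (C₂ * (D₁ + D₂)) (half_pos hδ) hβ
  refine ⟨A₁ + 2 / κ, fun A hA => ?_⟩
  have hA0 : 0 < A.1 := one_pos.trans_le A.2
  have hA2 : 2 ≤ 2 / κ := by rw [le_div_iff₀ κ0]; linarith
  have hA3 : 2 / A.1 ≤ κ := by
    rw [div_le_iff₀ hA0, ← div_le_iff₀' κ0]; linarith
  have sc : Sc (σ A) σb := by rw [show σ A = _ from funext (hσ A)]; exact q_sc hs A.2
  obtain ⟨γ₁, hγ₁⟩ : ∃ γ₁, γ₁ = min (1 / 100) (ε / (16 * C)) := ⟨_, rfl⟩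
  have γ0 : 0 < γ₁ := by rw [hγ₁]; positivity
  have γ1 : γ₁ ≤ 1 / 100 := hγ₁ ▸ min_le_left _ _
  have γ2 : 16 * C * γ₁ ≤ ε := by
    rw [← le_div_iff₀' (by positivity), hγ₁]; exact min_le_right _ _
  obtain ⟨χ, χ1, χ2, χ3, χ4⟩ := cutoff (d := d) (h := fun y => hP g v y (σ A y)) sc.l hC γ0 γ1 γ2
    fun x x' t hx ht hx' => cmp v x x' _ _ t hv hx (by linarith) hx'
      (by nlinarith [sc.l.2 x x']) (by nlinarith [sc.l.le' x' x])
  obtain ⟨Go, hGo⟩ : ∃ Go : E N → Prop, Go = fun ζ => 0 < σ A ζ ∧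
    (A₁ + |B|) * σb ζ < σ A ζ ∧ ε / (2 * C) ≤ hP g v ζ (σ A ζ) := ⟨_, rfl⟩
  have gd : ∀ ζ, Go ζ → σ₂ ζ = A.1 * σ A ζ ∧ ∃ I, Gd g v c η I ζ (σb ζ / 2) (σ₂ ζ) := by
    intro ζ h
    rw [hGo] at h
    obtain ⟨h1, h2, h3⟩ := h
    have a0 := hs.l'.1 ζ
    have a1 : 0 ≤ |B| * σb ζ := by positivity
    have a2 : σ₂ ζ = A.1 * σ A ζ := by
      rcases le_total (σ₂ ζ / A.1) (σb ζ) with h | h
      · rw [hσ, max_eq_right h] at h2; nlinarith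
      · rw [hσ, max_eq_left h, mul_div_cancel₀ _ hA0.ne']
    refine ⟨a2, hG v ζ _ _ _ hv (by linarith) h1 (by nlinarith) (by rw [a2]; gcongr; linarith)
      ((hd ζ).resolve_left (not_le.2 ?_)) h3⟩
    nlinarith [mul_le_mul_of_nonneg_right (le_abs_self B) a0, A.2]
  choose! I hI using fun ζ h => (gd ζ h).2
  obtain ⟨γ, hγ⟩ : ∃ γ, γ = min γ₁ η / 10 := ⟨_, rfl⟩
  have g0 : 0 < γ := by rw [hγ]; positivity
  have g1 : 10 * γ ≤ γ₁ := by rw [hγ]; linarith [min_le_left γ₁ η]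
  have g2 : 10 * γ ≤ η := by rw [hγ]; linarith [min_le_right γ₁ η]
  have near : ∀ k x ζ, 0 < σ A x → Go ζ → ‖ζ - x‖ ≤ 5 * (γ * sg (σ A) σb k x) →
      (0 < sg (σ A) σb k x ∧ σb ζ / 2 < sg (σ A) σb k x ∧ sg (σ A) σb k x ≤ σ₂ ζ ∧
        ‖ζ - x‖ ≤ η / 2 * sg (σ A) σb k x) ∧ A.1 * σ A x ≤ 2 * σ₂ ζ ∧ σ A x ≤ σ₂ ζ := by
    intro k x ζ hx hg h
    have a1 : 0 < sg (σ A) σb k x := lt_max_of_lt_left (by positivity)
    have a2 := sc.le_rho k x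
    have a3 : ‖ζ - x‖ ≤ sg (σ A) σb k x / 20 := by nlinarith
    have a4 : σb x ≤ sg (σ A) σb k x := le_max_right _ _
    have a5 : σ A x ≤ 2 * σ A ζ := by linarith [sc.l.le' x ζ]
    have a6 : A.1 * σ A x ≤ 2 * σ₂ ζ := by rw [(gd ζ hg).1]; nlinarith
    have a7 : σ A x ≤ σ₂ ζ := by nlinarith
    exact ⟨⟨a1, by linarith [hs.l'.2 ζ x], by linarith, by nlinarith⟩, a6, a7⟩
  have F1 : GdF g v c η (fun q : Tri (σ A) σb γ Go => q.1.1.1.2)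
      (fun q => sg (σ A) σb q.1.1.1.1 q.1.1.1.2) (fun q => I q.1.2) (fun q => q.1.2)
      (fun q => σb q.1.2 / 2) fun q => σ₂ q.1.2 :=
    fun q => ⟨hI _ q.2.1, (near _ _ _ q.1.1.2 q.2.1 q.2.2).1⟩
  have F2 : GdF g v c η (fun q : Qua (σ A) σb γ Go => q.1.1.1.2)
      (fun q => sg (σ A) σb q.1.1.1.1 q.1.1.1.2) (fun q => I q.1.2.1) (fun q => q.1.2.1)
      (fun q => σb q.1.2.1 / 2) fun q => σ₂ q.1.2.1 :=
    fun q => ⟨hI _ q.2.1.1, (near _ _ _ q.1.1.2 q.2.1.1 q.2.1.2).1⟩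
  have F3 : GdF g v c η (fun q : Qua (σ A) σb γ Go => q.1.1.1.2)
      (fun q => sg (σ A) σb q.1.1.1.1 q.1.1.1.2) (fun q => I q.1.2.2) (fun q => q.1.2.2)
      (fun q => σb q.1.2.2 / 2) fun q => σ₂ q.1.2.2 :=
    fun q => ⟨hI _ q.2.2.1, (near _ _ _ q.1.1.2 q.2.2.1 q.2.2.2).1⟩
  let f : Pos (σ A) → {p : {A : ℝ // 1 ≤ A} × E N // 0 < σ p.1 p.2} := fun x => ⟨(A, x.1), x.2⟩
  have hr : ∀ x : Pos (σ A), 0 ≤ σ A x.1 := fun x => x.2.le
  have hw : ∀ x : Pos (σ A), 0 ≤ σ A x.1 ^ s := fun x => Real.rpow_nonneg x.2.le _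
  obtain ⟨W, W1, W2⟩ := assemble (g := g) H sc (fun y => χ y • w A y)
    (TM.smul χ1 fun a b => (tw a b).comp f) (fun a => (χ1.mul1 ((TN.const (d := d)
      (c := fun x : Pos (σ A) => σ A x.1 ^ s) hr fun x => (abs_of_nonneg (hw x)).le).mul1'
        (T1.sum univ hr fun c _ => (T1.c hr ((bs j d).m c 0)).mul1 ((tX a c).comp f)))).congr'
          fun x y => by
            simp only [q_jet g v x.1 y x.2, f, Matrix.smul_apply, smul_eq_mul, mul_sum]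
            rw [sum_comm]
            exact sum_congr rfl fun _ _ => sum_congr rfl fun _ _ => by ring)
    (fun ζ y => if Go ζ then pj g v (I ζ) ζ y else 1) Go (B := A₁ + |B|) g0 (by linarith)
    (fun ζ hζ hg => ⟨fun y => if_neg hg, by
      by_cases h1 : σ A ζ ≤ (A₁ + |B|) * σb ζ
      · exact Or.inl h1
      · refine Or.inr fun y hy => ?_
        rw [χ4 ζ y hζ (not_le.1 fun h2 => hg (hGo ▸ ⟨hζ, not_le.1 h1, h2⟩))
          (hy.trans (by gcongr)), zero_smul]⟩)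
    ((F1.tame H hv hc hη hη1).congr fun q y => (if_pos q.2.1).symm)
    (fun a => (F1.kill H hv hc hη hη1 a).congr' fun q y => by simp only [q.2.1, if_true])
    fun a b => (F2.pair' H hv hc hη hη1 F3 (fun q => q.1.1.2)
      (fun q => (near _ _ _ q.1.1.2 q.2.1.1 q.2.1.2).2.2)
      (fun q => (near _ _ _ q.1.1.2 q.2.2.1 q.2.2.2).2.2) a b).congr' fun q y => by
        simp only [q.2.1.1, q.2.2.1, if_true]
  refine ⟨W, W1, fun k y a b hy => ?_⟩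
  obtain ⟨c0, c1⟩ := χ2 y
  have b1 := W2 k y (δ / 2) a b hy (half_pos hδ).le fun ζ h hg => by
    obtain ⟨⟨a1, a2, a3, a4⟩, a5, a6⟩ := near k y ζ hy hg h
    have a7 := hsm (I ζ) ζ _ _ (σ A y) y (fun b => χ y * w A y a b) (D₁ + D₂) (hI ζ hg)
      (by linarith) hy a6 (by rw [norm_sub_rev]; nlinarith [sc.le_rho k y]) (fun b => by
        rw [abs_mul, abs_of_nonneg c0]
        nlinarith [hD₁ (a, b) (f ⟨y, hy⟩), abs_nonneg (w A y a b)]) (fun c => by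
        have e1 : ∑ b, pX g y (σ A y) v y b c * (χ y * w A y a b) =
            χ y * ∑ b, pX g y (σ A y) v y b c * w A y a b := by
          rw [mul_sum]; exact sum_congr rfl fun _ _ => by ring
        rw [e1, abs_mul, abs_of_nonneg c0]
        nlinarith [hD₂ (a, c) (f ⟨y, hy⟩),
          abs_nonneg (∑ b, pX g y (σ A y) v y b c * w A y a b)]) b
    simp only [hg, if_true, Matrix.mul_apply, Matrix.smul_apply, smul_eq_mul]
    refine a7.trans (hκ _ (div_nonneg hy.le (by linarith)) (le_trans ?_ hA3))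
    rw [div_le_div_iff₀ (by linarith) hA0]
    linarith
  have b2 : |(χ y • w A y) a b - w A y a b| ≤ δ / 2 := by
    rw [Matrix.smul_apply, smul_eq_mul]
    rcases χ3 y hy with h | h
    · rw [h, one_mul, sub_self, abs_zero]; positivity
    · have a1 : 0 ≤ hP g v y (σ A y) :=
        div_nonneg (zero_le_one.trans (one_le_fG _ _ _)) (q_fb_pos g j _ _).le
      have a2 : |w A y a b| ≤ (|Cs| + 1) * (2 * C * ε) := (sm A y a b hy).trans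
        (mul_le_mul (by linarith [le_abs_self Cs]) h a1 (by positivity))
      have a3 : (|Cs| + 1) * (2 * C * ε) = δ / 2 := by rw [hε]; field_simp; norm_num
      rw [← sub_one_mul, abs_mul, abs_sub_comm, abs_of_nonneg (sub_nonneg.2 c1)]
      nlinarith [abs_nonneg (w A y a b)]
  linarith [abs_sub_le (W k y a b) ((χ y • w A y) a b) (w A y a b)]

end Pool.Agent.CA9.UB
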