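import Pool.Agent.Lib.MP_ca9be0_an.UB.Defs
import Pool.Agent.Lib.MP_ca9be0_an.FinN

/-! Pencils, polynomial relations and sampled relations between tuples of polynomials. -/

namespace Pool.Agent.CA9.UB

open Finset Matrix Polynomial Pool.Agent.Lib.MP_ca9be0_an.PyF

variable {N : ℕ}

/-- a direction `e` and a linear form `t` with `t e = 1`, both bounded by `L` -/
structure Pen (L : ℝ) (t : E N →ₗ[ℝ] ℝ) (e : E N) : Prop where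
  one : t e = 1
  ne : ‖e‖ ≤ L
  nt : ∀ y, |t y| ≤ L * ‖y‖

/-- polynomial relation between `S` and `T` in the normalised window -/
def PRel (D : ℕ) (C : ℝ) (t : E N →ₗ[ℝ] ℝ) {V W : Type} [Fintype V] [Fintype W]
    (S : V → E N → ℝ) (T : W → E N → ℝ) : Prop :=
  ∃ (δ : ℝ[X]) (U : Matrix V W ℝ[X]), δ.natDegree ≤ D ∧ (∀ v w, (U v w).natDegree ≤ D) ∧
    (∃ τ : ℝ, |τ| ≤ 1 ∧ δ.eval τ = 1) ∧ (∀ τ : ℝ, 0 < δ.eval τ) ∧
    (∀ τ : ℝ, |τ| ≤ 1 → δ.eval τ ≤ 1 ∧ ∀ v w, |(U v w).eval τ| ≤ C) ∧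
    (∀ v, PB (fun y => δ.eval (t y) * S v y - ∑ w, (U v w).eval (t y) * T w y) 0 1 C) ∧
    ∀ w, PB (fun y => δ.eval (t y) * T w y - ∑ v, (U v w).eval (t y) * S v y) 0 1 C

/-- `S = U T` and `T = Uᵀ S` at `y` up to `ε` -/
def At {V W : Type} [Fintype V] [Fintype W] (U : Matrix V W ℝ) (S : V → E N → ℝ)
    (T : W → E N → ℝ) (y : E N) (ε : ℝ) : Prop :=
  (∀ v, |S v y - ∑ w, U v w * T w y| ≤ ε) ∧ ∀ w, |T w y - ∑ v, U v w * S v y| ≤ ε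

/-- relation on `K` separated fibres near `p` at scale `ρ` -/
def Rel (s : ℝ) (K : ℕ) (C : ℝ) (t : E N →ₗ[ℝ] ℝ) {V W : Type} [Fintype V] [Fintype W]
    (S : V → E N → ℝ) (T : W → E N → ℝ) (p : E N) (ρ : ℝ) : Prop :=
  ∃ (G : Finset ℕ) (a : ℕ → ℝ), K ≤ G.card ∧
    (∀ i ∈ G, ∀ j ∈ G, i ≠ j → ρ ≤ C * |a i - a j|) ∧ ∀ i ∈ G, |a i - t p| ≤ C * ρ ∧
      ∃ U : Matrix V W ℝ, (∀ v w, |U v w| ≤ C) ∧
        ∀ y, t y = a i → At U S T y (C * (ρ + ‖y - p‖) ^ s)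

end Pool.Agent.CA9.UB
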