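import Pool.Agent.Lib.MP_ca9be0_an.UB.R0

/-! Growth and interpolation bounds for real polynomials of bounded degree. -/

namespace Pool.Agent.CA9.UB

open Finset Polynomial Pool.Agent.Lib.MP_ca9be0_an.PyF

theorem pcoef (e : ℕ) : ∃ K : ℝ, 1 ≤ K ∧ ∀ (p : ℝ[X]) (m : ℝ), p.natDegree ≤ e →
    (∀ τ : ℝ, |τ| ≤ 1 → |p.eval τ| ≤ m) → ∀ j, |p.coeff j| ≤ K * m := by
  obtain ⟨K, hK, h⟩ := coef_bound e
  refine ⟨K + 1, by linarith, fun p m hp hm j => ?_⟩
  have h0 : 0 ≤ m := (abs_nonneg _).trans (hm 0 (by simp))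
  by_cases hj : j ≤ e
  · refine (h p.coeff m (fun τ a b => ?_) j hj).trans (by nlinarith)
    have := hm τ (by rwa [abs_of_nonneg a])
    rw [eval_eq_sum_range' (Nat.lt_succ_of_le hp)] at this
    simpa only [mul_comm] using this
  · rw [coeff_eq_zero_of_natDegree_lt (by omega), abs_zero]; positivity

theorem pgrow (e : ℕ) : ∃ K : ℝ, 1 ≤ K ∧ ∀ (p : ℝ[X]) (m : ℝ), p.natDegree ≤ e →
    (∀ τ : ℝ, |τ| ≤ 1 → |p.eval τ| ≤ m) → ∀ τ R : ℝ, 1 ≤ R → |τ| ≤ R →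
      |p.eval τ| ≤ K * m * R ^ e := by
  obtain ⟨K, hK, h⟩ := pcoef e
  refine ⟨(e + 1) * K, by nlinarith [Nat.cast_nonneg (α := ℝ) e], fun p m hp hm τ R hR hτ => ?_⟩
  have h0 : 0 ≤ m := (abs_nonneg _).trans (hm 0 (by simp))
  rw [eval_eq_sum_range' (Nat.lt_succ_of_le hp)]
  refine (abs_sum_le_sum_abs _ _).trans ((sum_le_card_nsmul _ _ (K * m * R ^ e)
    fun j hj => ?_).trans (le_of_eq (by simp; ring)))
  rw [abs_mul, abs_pow]
  have h1 : |τ| ^ j ≤ R ^ e := (pow_le_pow_left₀ (abs_nonneg _) hτ j).trans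
    (pow_le_pow_right₀ hR (Nat.lt_succ_iff.1 (mem_range.1 hj)))
  exact mul_le_mul (h p m hp hm j) h1 (by positivity) (by positivity)

theorem lagr (e : ℕ) (C : ℝ) : ∃ K : ℝ, 0 ≤ K ∧ ∀ (G : Finset ℕ) (a : ℕ → ℝ) (p : ℝ[X]) (m : ℝ),
    e + 1 ≤ G.card → (∀ i ∈ G, ∀ j ∈ G, i ≠ j → 1 ≤ C * |a i - a j|) → (∀ i ∈ G, |a i| ≤ C) →
    p.natDegree ≤ e → (∀ i ∈ G, |p.eval (a i)| ≤ m) → ∀ τ : ℝ, |τ| ≤ 1 → |p.eval τ| ≤ K * m := by
  refine ⟨(e + 1) * ((1 + |C|) * |C|) ^ e, by positivity, fun G a p m hG hs hb hp hm τ hτ => ?_⟩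
  obtain ⟨G', h1, h2⟩ := exists_subset_card_eq hG
  have hinj : Set.InjOn a G' := fun i hi j hj hij => by
    by_contra hne
    have := hs i (h1 hi) j (h1 hj) hne
    rw [hij, sub_self, abs_zero, mul_zero] at this
    linarith
  have hdeg : p.degree < G'.card := by
    rw [h2]
    exact lt_of_le_of_lt degree_le_natDegree (by exact_mod_cast Nat.lt_succ_of_le hp)
  obtain ⟨i0, hi0⟩ : G'.Nonempty := card_pos.1 (by omega)
  have h0 : 0 ≤ m := (abs_nonneg _).trans (hm i0 (h1 hi0))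
  rw [Lagrange.eq_interpolate hinj hdeg, Lagrange.interpolate_apply, eval_finsetSum]
  refine (abs_sum_le_sum_abs _ _).trans ((sum_le_card_nsmul _ _ (m * ((1 + |C|) * |C|) ^ e)
    fun i hi => ?_).trans (le_of_eq (by rw [h2]; simp; ring)))
  rw [eval_mul, eval_C, abs_mul]
  refine mul_le_mul (hm i (h1 hi)) ?_ (abs_nonneg _) h0
  rw [Lagrange.basis, eval_prod, abs_prod]
  have h3 : (G'.erase i).card = e := by rw [card_erase_of_mem hi, h2]; rfl
  rw [← h3, ← prod_const]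
  refine prod_le_prod (fun _ _ => abs_nonneg _) fun j hj => ?_
  have hj' := h1 (mem_of_mem_erase hj)
  have h4 := hs i (h1 hi) j hj' (ne_of_mem_erase hj).symm
  have h5 : 0 < |a i - a j| := by
    rcases (abs_nonneg (a i - a j)).eq_or_lt with h | h
    · rw [← h, mul_zero] at h4; linarith
    · exact h
  rw [Lagrange.basisDivisor, eval_mul, eval_C, eval_sub, eval_X, eval_C, abs_mul, abs_inv,
    mul_comm]
  refine mul_le_mul ((abs_sub _ _).trans (add_le_add hτ ((hb j hj').trans (le_abs_self C)))) ?_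
    (by positivity) (by positivity)
  rw [inv_le_iff_one_le_mul₀ h5]
  exact h4.trans (mul_le_mul_of_nonneg_right (le_abs_self C) h5.le)

end Pool.Agent.CA9.UB
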