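import Pool.Agent.Lib.MP_ca9be0_an.UB.RA

/-! Splitting off the small roots of a real polynomial, with a bounded Bezout estimate. -/

namespace Pool.Agent.CA9.UB

open Finset Polynomial

theorem rb_fac (n : ℕ) : ∀ p : ℂ[X], p.natDegree = n →
    ∃ z : Fin n → ℂ, p = C p.leadingCoeff * ∏ i, (X - C (z i)) := by
  induction n with
  | zero =>
    intro p hp
    refine ⟨Fin.elim0, ?_⟩
    rw [Fin.prod_univ_zero, mul_one, leadingCoeff, hp]
    exact eq_C_of_natDegree_eq_zero hp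
  | succ n ih =>
    intro p hp
    have h0 : p.degree ≠ 0 := fun h => by
      rw [natDegree_eq_zero_iff_degree_le_zero.2 h.le] at hp
      omega
    obtain ⟨z0, hz⟩ := IsAlgClosed.exists_root p h0
    have h1 := mul_divByMonic_eq_iff_isRoot.2 hz
    have h2 : (p /ₘ (X - C z0)).natDegree = n := by
      rw [natDegree_divByMonic p (monic_X_sub_C z0), natDegree_X_sub_C, hp]
      rfl
    obtain ⟨z, hz'⟩ := ih _ h2
    have h3 : p.leadingCoeff = (p /ₘ (X - C z0)).leadingCoeff := by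
      conv_lhs => rw [← h1]
      rw [leadingCoeff_mul, (monic_X_sub_C z0).leadingCoeff, one_mul]
    refine ⟨Fin.cons z0 z, ?_⟩
    rw [Fin.prod_univ_succ, h3]
    simp only [Fin.cons_zero, Fin.cons_succ]
    rw [mul_left_comm, ← hz', h1]

theorem rb_ev {e : ℕ} {p : ℂ[X]} {m : ℝ} (hp : p.natDegree ≤ e) (hm : ∀ j, ‖p.coeff j‖ ≤ m)
    {z : ℂ} (hz : ‖z‖ ≤ 1) : ‖p.eval z‖ ≤ (e + 1) * m := by
  rw [eval_eq_sum_range' (Nat.lt_succ_of_le hp)]
  refine (norm_sum_le _ _).trans ((sum_le_card_nsmul _ _ m fun j _ => ?_).trans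
    (le_of_eq (by simp)))
  rw [norm_mul, norm_pow]
  exact (mul_le_of_le_one_right (norm_nonneg _) (pow_le_one₀ (norm_nonneg _) hz)).trans (hm j)

theorem rb_div {e : ℕ} {p : ℂ[X]} {m : ℝ} (hp : p.natDegree ≤ e) (hm : ∀ j, ‖p.coeff j‖ ≤ m)
    {z : ℂ} (hz : ‖z‖ ≤ 1) (j : ℕ) : ‖(p /ₘ (X - C z)).coeff j‖ ≤ (e + 1) * m := by
  have h0 : 0 ≤ m := (norm_nonneg _).trans (hm 0)
  rw [coeff_divByMonic_X_sub_C]
  refine (norm_sum_le _ _).trans ((sum_le_card_nsmul _ _ m fun i _ => ?_).trans ?_)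
  · rw [norm_mul, norm_pow]
    exact (mul_le_of_le_one_left (norm_nonneg _) (pow_le_one₀ (norm_nonneg _) hz)).trans (hm i)
  · rw [Nat.card_Icc, nsmul_eq_mul]
    refine mul_le_mul_of_nonneg_right ?_ h0
    have : p.natDegree + 1 - (j + 1) ≤ e + 1 := by omega
    exact_mod_cast this

theorem rb_bez (e : ℕ) (H c : ℝ) (hH : 0 ≤ H) (hc : 0 < c) (n : ℕ) : ∃ K : ℝ, (e + 1 : ℝ) ≤ K ∧
    ∀ k ≤ n, ∀ (z : Fin k → ℂ) (h A B F : ℂ[X]) (m : ℝ), (∀ i, ‖z i‖ ≤ 1) → h.natDegree ≤ e →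
      (∀ j, ‖h.coeff j‖ ≤ H) → (∀ i, c ≤ ‖h.eval (z i)‖) → A.degree < k → F.natDegree ≤ e →
      h * A + (∏ i, (X - C (z i))) * B = F → (∀ j, ‖F.coeff j‖ ≤ m) →
      ∀ τ : ℂ, ‖τ‖ ≤ 1 → ‖A.eval τ‖ ≤ K * m ∧ ‖B.eval τ‖ ≤ K * m := by
  have base : ∀ K : ℝ, (e + 1 : ℝ) ≤ K → ∀ (z : Fin 0 → ℂ) (h A B F : ℂ[X]) (m : ℝ),
      A.degree < (0 : ℕ) → F.natDegree ≤ e → h * A + (∏ i, (X - C (z i))) * B = F →
      (∀ j, ‖F.coeff j‖ ≤ m) → ∀ τ : ℂ, ‖τ‖ ≤ 1 → ‖A.eval τ‖ ≤ K * m ∧ ‖B.eval τ‖ ≤ K * m := by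
    intro K hK z h A B F m hA hF hE hm τ hτ
    have h0 : 0 ≤ m := (norm_nonneg _).trans (hm 0)
    have hA0 : A = 0 := by
      by_contra hne
      rw [degree_eq_natDegree hne] at hA
      exact absurd (by exact_mod_cast hA) (Nat.not_lt_zero A.natDegree)
    have he : (0 : ℝ) ≤ e + 1 := by positivity
    rw [hA0, mul_zero, zero_add, Fin.prod_univ_zero, one_mul] at hE
    rw [hA0, eval_zero, norm_zero, hE]
    exact ⟨mul_nonneg (he.trans hK) h0,
      (rb_ev hF hm hτ).trans (mul_le_mul_of_nonneg_right hK h0)⟩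
  induction n with
  | zero =>
    refine ⟨e + 1, le_rfl, fun k hk => ?_⟩
    obtain rfl : k = 0 := by omega
    exact fun z h A B F m _ _ _ _ hA hF hE hm => base _ le_rfl z h A B F m hA hF hE hm
  | succ n ih =>
    obtain ⟨K, hK, ih⟩ := ih
    have he : (1 : ℝ) ≤ e + 1 := by linarith [Nat.cast_nonneg (α := ℝ) e]
    set a1 : ℝ := (e + 1) / c with ha1
    have ha0 : 0 ≤ a1 := by positivity
    set K1 : ℝ := (e + 1) * (1 + a1 * H) with hK1
    have hK1' : 1 ≤ K1 := by nlinarith [mul_nonneg ha0 hH]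
    have hK0 : 0 ≤ K := by linarith
    have hKK : K ≤ K * K1 := le_mul_of_one_le_right hK0 hK1'
    refine ⟨a1 + 2 * (K * K1), by linarith, fun k hk => ?_⟩
    cases k with
    | zero =>
      exact fun z h A B F m _ _ _ _ hA hF hE hm => base _ (by linarith) z h A B F m hA hF hE hm
    | succ k =>
      intro z h A B F m hz hh hH' hc' hA hF hE hm τ hτ
      have h0 : 0 ≤ m := (norm_nonneg _).trans (hm 0)
      rw [Fin.prod_univ_succ] at hE
      set a := A.eval (z 0) with ha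
      have e1 : h.eval (z 0) * a = F.eval (z 0) := by
        rw [← hE]
        simp [ha]
      have ha2 : ‖a‖ ≤ a1 * m := by
        have h1 := rb_ev hF hm (hz 0)
        rw [← e1, norm_mul] at h1
        have h2 : c * ‖a‖ ≤ (e + 1) * m :=
          (mul_le_mul_of_nonneg_right (hc' 0) (norm_nonneg _)).trans h1
        rw [ha1, div_mul_eq_mul_div, le_div_iff₀ hc]
        linarith
      have e2 : (X - C (z 0)) * (A /ₘ (X - C (z 0))) = A - C a := by
        rw [X_sub_C_mul_divByMonic_eq_sub_modByMonic, modByMonic_X_sub_C_eq_C_eval]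
      have e3 : h * (A /ₘ (X - C (z 0))) + (∏ i : Fin k, (X - C (z i.succ))) * B =
          (F - C a * h) /ₘ (X - C (z 0)) := by
        rw [← mul_divByMonic_cancel_left (h * (A /ₘ (X - C (z 0))) +
          (∏ i : Fin k, (X - C (z i.succ))) * B) (monic_X_sub_C (z 0))]
        refine congrArg (· /ₘ (X - C (z 0))) ?_
        linear_combination hE + h * e2
      have d1 : (F - C a * h).natDegree ≤ e :=
        (natDegree_sub_le _ _).trans (max_le hF ((natDegree_C_mul_le _ _).trans hh))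
      have c1 : ∀ j, ‖(F - C a * h).coeff j‖ ≤ (1 + a1 * H) * m := fun j => by
        rw [coeff_sub, coeff_C_mul]
        refine (norm_sub_le _ _).trans ?_
        rw [norm_mul]
        have := mul_le_mul ha2 (hH' j) (norm_nonneg _) (mul_nonneg ha0 h0)
        linarith [hm j]
      have d2 : (A /ₘ (X - C (z 0))).degree < k := by
        by_cases hA1 : A /ₘ (X - C (z 0)) = 0
        · rw [hA1, degree_zero]
          exact WithBot.bot_lt_coe k
        · have hA0 : A ≠ 0 := fun h => hA1 (by rw [h, zero_divByMonic])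
          have h5 : A.natDegree ≠ 0 := fun h5 => hA1 (by
            rw [divByMonic_eq_zero_iff (monic_X_sub_C _), degree_X_sub_C,
              degree_eq_natDegree hA0, h5]
            exact zero_lt_one)
          rw [degree_eq_natDegree hA0] at hA
          have h6 : A.natDegree < k + 1 := by exact_mod_cast hA
          rw [degree_eq_natDegree hA1, natDegree_divByMonic _ (monic_X_sub_C _),
            natDegree_X_sub_C]
          exact_mod_cast (by omega : A.natDegree - 1 < k)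
      have d3 : ((F - C a * h) /ₘ (X - C (z 0))).natDegree ≤ e := by
        rw [natDegree_divByMonic _ (monic_X_sub_C _)]
        omega
      obtain ⟨b1, b2⟩ := ih k (by omega) (fun i => z i.succ) h _ B _ (K1 * m) (fun i => hz _) hh hH'
        (fun i => hc' _) d2 d3 e3
        (fun j => (rb_div d1 c1 (hz 0) j).trans (le_of_eq (by rw [hK1]; ring))) τ hτ
      have hKm : 0 ≤ K * (K1 * m) := by positivity
      refine ⟨?_, b2.trans (by nlinarith [mul_nonneg ha0 h0])⟩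
      have e4 : A.eval τ = a + (τ - z 0) * (A /ₘ (X - C (z 0))).eval τ := by
        have := congrArg (eval τ) e2
        simp only [eval_mul, eval_sub, eval_X, eval_C] at this
        linear_combination -this
      have h7 : ‖τ - z 0‖ ≤ 2 := (norm_sub_le _ _).trans (by linarith [hz 0])
      rw [e4]
      refine (norm_add_le _ _).trans ?_
      rw [norm_mul]
      have := mul_le_mul h7 b1 (norm_nonneg _) (by norm_num)
      linarith

theorem rb_sep (r : ℝ) (n : ℕ) : ∀ f : ℝ[X], f ≠ 0 → f.natDegree ≤ n → ∃ q o : ℝ[X], q.Monic ∧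
    f = q * o ∧ (∀ z : ℂ, aeval z q = 0 → ‖z‖ ≤ r) ∧ ∀ z : ℂ, aeval z o = 0 → r < ‖z‖ := by
  induction n with
  | zero =>
    intro f hf hn
    refine ⟨1, f, monic_one, (one_mul f).symm, fun z hz => by simp at hz, fun z hz => ?_⟩
    rw [eq_C_of_natDegree_le_zero hn] at hz hf
    simp at hz hf
    exact absurd hz hf
  | succ n ih =>
    intro f hf hn
    by_cases hx : ∃ z : ℂ, aeval z f = 0 ∧ ‖z‖ ≤ r
    · obtain ⟨z, hz, hr⟩ := hx
      have hi : IsIntegral ℝ z := Algebra.IsIntegral.isIntegral z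
      obtain ⟨g, hg⟩ := minpoly.dvd ℝ z hz
      have hg0 : g ≠ 0 := fun h => hf (by rw [hg, h, mul_zero])
      have hd : g.natDegree ≤ n := by
        have h1 := minpoly.natDegree_pos hi
        rw [hg, natDegree_mul (minpoly.ne_zero hi) hg0] at hn
        omega
      obtain ⟨q, o, h1, h2, h3, h4⟩ := ih g hg0 hd
      refine ⟨minpoly ℝ z * q, o, (minpoly.monic hi).mul h1, by rw [mul_assoc, ← h2, ← hg],
        fun w hw => ?_, h4⟩
      rw [map_mul, mul_eq_zero] at hw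
      rcases hw with hw | hw
      · have key : ∀ u : ℂ, aeval u (X ^ 2 - C (2 * z.re) * X + C (Complex.normSq z) : ℝ[X]) =
            (u - z) * (u - (starRingEnd ℂ) z) := fun u => by
          have a1 := Complex.add_conj z
          have a2 := Complex.mul_conj z
          simp only [map_add, map_sub, map_mul, map_pow, aeval_X, aeval_C,
            Complex.coe_algebraMap]
          push_cast at a1 ⊢
          linear_combination u * a1 - a2
        obtain ⟨t, ht⟩ := minpoly.dvd ℝ z (by rw [key z, sub_self, zero_mul])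
        have h5 := key w
        rw [ht, map_mul, hw, zero_mul] at h5
        rcases mul_eq_zero.1 h5.symm with h | h
        · rw [sub_eq_zero.1 h]; exact hr
        · rw [sub_eq_zero.1 h, Complex.norm_conj]; exact hr
      · exact h3 w hw
    · refine ⟨1, f, monic_one, (one_mul f).symm, fun z hz => by simp at hz, fun z hz => ?_⟩
      by_contra hle
      exact hx ⟨z, hz, not_lt.1 hle⟩

theorem rb_ann (D : ℕ) (t : ℝ) (ht : 0 < t) (f : ℝ[X]) (hf : f ≠ 0) (hD : f.natDegree ≤ D) :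
    ∃ r : ℝ, t / 2 ^ (D + 1) ≤ r ∧ 2 * r ≤ t ∧ ∀ z : ℂ, aeval z f = 0 → r < ‖z‖ → 2 * r < ‖z‖ := by
  classical
  by_contra hne
  push Not at hne
  have h1 : ∀ j : Fin (D + 1), ∃ z : ℂ, aeval z f = 0 ∧ t / 2 ^ (j.1 + 1) < ‖z‖ ∧
      ‖z‖ ≤ t / 2 ^ j.1 := fun j => by
    have e1 : 2 * (t / 2 ^ (j.1 + 1)) = t / 2 ^ j.1 := by rw [pow_succ]; field_simp
    obtain ⟨z, a, b, c⟩ := hne (t / 2 ^ (j.1 + 1))
      (div_le_div_of_nonneg_left ht.le (by positivity)
        (pow_le_pow_right₀ one_le_two (by omega)))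
      (by rw [e1]; exact div_le_self ht.le (one_le_pow₀ one_le_two))
    exact ⟨z, a, b, e1 ▸ c⟩
  choose z h2 h3 h4 using h1
  have h5 : ∀ i j : Fin (D + 1), i < j → z i ≠ z j := fun i j hij h => by
    have a : t / 2 ^ j.1 ≤ t / 2 ^ (i.1 + 1) := div_le_div_of_nonneg_left ht.le (by positivity)
      (pow_le_pow_right₀ one_le_two (Nat.succ_le_of_lt hij))
    have b := h3 i
    rw [h] at b
    linarith [h4 j]
  have hinj : Function.Injective z := fun i j h => by
    rcases lt_trichotomy i j with a | a | a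
    · exact absurd h (h5 i j a)
    · exact a
    · exact absurd h.symm (h5 j i a)
  have h6 : f.map (algebraMap ℝ ℂ) = 0 :=
    eq_zero_of_natDegree_lt_card_of_eval_eq_zero _ hinj
      (fun i => by rw [eval_map_algebraMap]; exact h2 i)
      (by rw [natDegree_map, Fintype.card_fin]; omega)
  exact hf ((Polynomial.map_eq_zero _).1 h6)

theorem rb_evR (p : ℝ[X]) (τ : ℝ) : ‖(p.map (algebraMap ℝ ℂ)).eval (τ : ℂ)‖ = |p.eval τ| := by
  rw [eval_map_algebraMap, ← Complex.coe_algebraMap, aeval_algebraMap_apply, coe_aeval_eq_eval,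
    Complex.coe_algebraMap, Complex.norm_real, Real.norm_eq_abs]

theorem rb_coR (p : ℝ[X]) (j : ℕ) : ‖(p.map (algebraMap ℝ ℂ)).coeff j‖ = |p.coeff j| := by
  rw [coeff_map, Complex.coe_algebraMap, Complex.norm_real, Real.norm_eq_abs]

theorem split (D D' : ℕ) (C η : ℝ) (hη : 0 < η) : ∃ K c : ℝ, 0 ≤ K ∧ 0 < c ∧ ∀ f : ℝ[X],
    f.natDegree ≤ D → (∀ τ : ℝ, |τ| ≤ 1 → |f.eval τ| ≤ C) →
    (∃ τ : ℝ, |τ| ≤ 1 ∧ 1 ≤ |f.eval τ|) →
    ∃ (q o : ℝ[X]) (ζ : Fin q.natDegree → ℝ), q.Monic ∧ f = q * o ∧ IsCoprime q o ∧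
      (∀ j, |ζ j| ≤ η) ∧
      (∀ τ : ℝ, ∏ j, |τ - ζ j| ≤ |q.eval τ| ∧ |q.eval τ| ≤ (|τ| + η) ^ q.natDegree) ∧
      (∀ τ : ℝ, |τ| ≤ c → c ≤ |o.eval τ|) ∧ (∀ τ : ℝ, |τ| ≤ 1 → |o.eval τ| ≤ K) ∧
      ∀ (A B F : ℝ[X]) (m : ℝ), A.degree < q.degree → F.natDegree ≤ D' →
        o ^ 2 * A + q * B = F → (∀ τ : ℝ, |τ| ≤ 1 → |F.eval τ| ≤ m) →
        ∀ τ : ℝ, |τ| ≤ 1 → |A.eval τ| ≤ K * m ∧ |B.eval τ| ≤ K * m := by
  obtain ⟨P1, hP1, p1⟩ := pcoef D
  obtain ⟨P2, hP2, p2⟩ := pcoef (2 * D + D')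
  obtain ⟨K1, hK1, b1⟩ := rb_bez D 1 1 zero_le_one one_pos D
  set t := min η 1 with ht
  have ht0 : 0 < t := lt_min hη one_pos
  have ht1 : t ≤ 1 := min_le_right _ _
  have ht2 : t ≤ η := min_le_left _ _
  set r0 := t / 2 ^ (D + 1) with hr0
  have hr00 : 0 < r0 := by positivity
  set c1 := (r0 / 3) ^ D / 2 ^ D with hc1
  have hc10 : 0 < c1 := by positivity
  set O := K1 * (P1 * |C|) with hO
  have hK10 : 0 ≤ K1 := le_trans (by positivity) hK1
  have hO0 : 0 ≤ O := by positivity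
  obtain ⟨K2, hK2, b2⟩ := rb_bez (2 * D + D') (P2 * O ^ 2) (c1 ^ 2) (by positivity)
    (by positivity) D
  have hK20 : 0 ≤ K2 := le_trans (by positivity) hK2
  refine ⟨O + K2 * P2, min r0 c1, by positivity, lt_min hr00 hc10, fun f hD hC hx => ?_⟩
  obtain ⟨τ0, hτ0, hf1⟩ := hx
  have hf : f ≠ 0 := fun h => by
    rw [h, eval_zero, abs_zero] at hf1
    linarith
  obtain ⟨r, hr1, hr2, hr3⟩ := rb_ann D t ht0 f hf hD
  obtain ⟨q, o, hq, hfe, hzq, hzo⟩ := rb_sep r D f hf hD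
  have ho0 : o ≠ 0 := fun h => hf (by rw [hfe, h, mul_zero])
  have hdeg : q.natDegree + o.natDegree ≤ D := by
    rw [← natDegree_mul hq.ne_zero ho0, ← hfe]
    exact hD
  obtain ⟨z, hz⟩ := rb_fac q.natDegree (q.map (algebraMap ℝ ℂ)) (natDegree_map _)
  rw [(hq.map _).leadingCoeff, C_1, one_mul] at hz
  obtain ⟨w, hw⟩ := rb_fac o.natDegree (o.map (algebraMap ℝ ℂ)) (natDegree_map _)
  have hzr : ∀ i, ‖z i‖ ≤ r := fun i => hzq _ (by
    rw [← eval_map_algebraMap, hz, eval_prod]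
    exact prod_eq_zero (mem_univ i) (by simp))
  have hwr : ∀ i, 2 * r < ‖w i‖ := fun i => by
    have h1 : aeval (w i) o = 0 := by
      rw [← eval_map_algebraMap, hw, eval_mul, eval_prod, prod_eq_zero (mem_univ i) (by simp),
        mul_zero]
    exact hr3 _ (by rw [hfe, map_mul, h1, mul_zero]) (hzo _ h1)
  have hqe : ∀ τ : ℝ, |q.eval τ| = ∏ i, ‖(τ : ℂ) - z i‖ := fun τ => by
    rw [← rb_evR, hz, eval_prod, norm_prod]
    simp
  have hoe : ∀ u : ℂ, ‖(o.map (algebraMap ℝ ℂ)).eval u‖ =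
      ‖(o.map (algebraMap ℝ ℂ)).leadingCoeff‖ * ∏ i, ‖u - w i‖ := fun u => by
    conv_lhs => rw [hw]
    rw [eval_mul, eval_C, eval_prod, norm_mul, norm_prod]
    simp
  have hz1 : ∀ i, ‖z i‖ ≤ 1 := fun i => (hzr i).trans (by linarith)
  have hqu : ∀ τ : ℝ, ∀ s : ℝ, r ≤ s → |q.eval τ| ≤ (|τ| + s) ^ q.natDegree := fun τ s hs => by
    rw [hqe]
    refine (prod_le_prod (fun _ _ => norm_nonneg _) fun i _ => (?_ : _ ≤ |τ| + s)).trans
      (le_of_eq (by simp))
    refine (norm_sub_le _ _).trans ?_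
    rw [Complex.norm_real, Real.norm_eq_abs]
    linarith [hzr i]
  have ho1 : 1 ≤ 2 ^ D * |o.eval τ0| := by
    have h1 : |q.eval τ0| ≤ 2 ^ D :=
      (hqu τ0 1 (by linarith)).trans ((pow_le_pow_left₀ (by positivity) (by linarith) _).trans
        (pow_le_pow_right₀ one_le_two (by omega : q.natDegree ≤ D)))
    rw [hfe, eval_mul, abs_mul] at hf1
    exact hf1.trans (mul_le_mul_of_nonneg_right h1 (abs_nonneg _))
  have hlow : ∀ u : ℂ, ‖u‖ ≤ r → c1 ≤ ‖(o.map (algebraMap ℝ ℂ)).eval u‖ := fun u hu => by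
    have h1 : (r0 / 3) ^ o.natDegree * |o.eval τ0| ≤ ‖(o.map (algebraMap ℝ ℂ)).eval u‖ := by
      rw [← rb_evR, hoe, hoe, mul_left_comm]
      refine mul_le_mul_of_nonneg_left ?_ (norm_nonneg _)
      have h2 : (r0 / 3) ^ o.natDegree * ∏ i, ‖(τ0 : ℂ) - w i‖ =
          ∏ i, (r0 / 3 * ‖(τ0 : ℂ) - w i‖) := by
        rw [prod_mul_distrib, prod_const, card_univ, Fintype.card_fin]
      rw [h2]
      refine prod_le_prod (fun _ _ => by positivity) fun i _ => ?_
      have a1 : ‖(τ0 : ℂ) - w i‖ ≤ 1 + ‖w i‖ := (norm_sub_le _ _).trans (by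
        rw [Complex.norm_real, Real.norm_eq_abs]
        linarith)
      have a2 : ‖w i‖ - ‖u‖ ≤ ‖u - w i‖ := by
        rw [norm_sub_rev]
        exact norm_sub_norm_le _ _
      have a3 := hwr i
      have a4 : r0 * ‖w i‖ ≤ ‖w i‖ := mul_le_of_le_one_left (norm_nonneg _) (by linarith)
      have a5 := mul_le_mul_of_nonneg_left a1 hr00.le
      nlinarith
    have h3 : (r0 / 3) ^ D ≤ (r0 / 3) ^ o.natDegree :=
      pow_le_pow_of_le_one (by positivity) (by linarith) (by omega)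
    refine le_trans ?_ h1
    rw [hc1, div_le_iff₀ (by positivity)]
    have h4 : (0 : ℝ) ≤ (r0 / 3) ^ o.natDegree := by positivity
    nlinarith [mul_le_mul_of_nonneg_left ho1 h4]
  have hup : ∀ τ : ℝ, |τ| ≤ 1 → |o.eval τ| ≤ O := fun τ hτ => by
    rw [← rb_evR]
    refine (b1 q.natDegree (by omega) z 1 0 _ (f.map (algebraMap ℝ ℂ)) (P1 * |C|) hz1 (by simp)
      (fun j => ?_) (by simp) (by rw [degree_zero]; exact WithBot.bot_lt_coe _)
      (by rwa [natDegree_map]) ?_ (fun j => ?_) τ (by simpa using hτ)).2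
    · rw [coeff_one]
      split_ifs <;> simp
    · rw [← hz, mul_zero, zero_add, ← Polynomial.map_mul, ← hfe]
    · rw [rb_coR]
      exact p1 f _ hD (fun s hs => (hC s hs).trans (le_abs_self C)) j
  have hKP : 0 ≤ K2 * P2 := by positivity
  refine ⟨q, o, fun j => (z j).re, hq, hfe, ?_, fun j => ?_, fun τ => ⟨?_, ?_⟩, fun τ hτ => ?_,
    fun τ hτ => (hup τ hτ).trans (by linarith), fun A B F m hA hF hE hm τ hτ => ?_⟩
  · rw [isCoprime_iff_aeval_ne_zero_of_isAlgClosed ℝ ℂ]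
    intro a
    by_contra hne
    push Not at hne
    linarith [hzq a hne.1, hzo a hne.2]
  · exact (Complex.abs_re_le_norm _).trans ((hzr j).trans (by linarith))
  · rw [hqe]
    refine prod_le_prod (fun _ _ => abs_nonneg _) fun i _ => ?_
    simpa using Complex.abs_re_le_norm ((τ : ℂ) - z i)
  · exact hqu τ η (by linarith)
  · rw [← rb_evR]
    refine (min_le_right _ _).trans (hlow _ ?_)
    rw [Complex.norm_real, Real.norm_eq_abs]
    exact hτ.trans ((min_le_left _ _).trans hr1)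
  · have h0 : 0 ≤ m := (abs_nonneg _).trans (hm 0 (by simp))
    have d1 : (o ^ 2).natDegree ≤ 2 * D + D' := natDegree_pow_le.trans (by omega)
    have key := b2 q.natDegree (by omega) z ((o ^ 2).map (algebraMap ℝ ℂ))
      (A.map (algebraMap ℝ ℂ)) (B.map (algebraMap ℝ ℂ)) (F.map (algebraMap ℝ ℂ)) (P2 * m) hz1
      (by rwa [natDegree_map])
      (fun j => by
        rw [rb_coR]
        refine p2 _ _ d1 (fun s hs => ?_) j
        rw [eval_pow, abs_pow]
        exact pow_le_pow_left₀ (abs_nonneg _) (hup s hs) 2)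
      (fun i => by
        rw [Polynomial.map_pow, eval_pow, norm_pow]
        exact pow_le_pow_left₀ hc10.le (hlow _ (hzr i)) 2)
      (by rwa [degree_map, ← degree_eq_natDegree hq.ne_zero])
      (by rw [natDegree_map]; omega)
      (by rw [← hz, ← hE, Polynomial.map_add, Polynomial.map_mul, Polynomial.map_mul])
      (fun j => by
        rw [rb_coR]
        exact p2 F m (by omega) hm j)
      τ (by simpa using hτ)
    rw [rb_evR, rb_evR] at key
    have h1 : K2 * (P2 * m) ≤ (O + K2 * P2) * m := by nlinarith [mul_nonneg hO0 h0]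
    exact ⟨key.1.trans h1, key.2.trans h1⟩

end Pool.Agent.CA9.UB
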