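import Pool.Agent.Lib.MP_ca9be0_an.UB.RA
import Pool.Agent.Lib.MP_ca9be0_an.UB.AlgE

/-! The switch lemma for polynomial matrices, without denominators. -/

namespace Pool.Agent.CA9.UB

open Finset Matrix Polynomial

/-- the switch identities over any commutative ring -/
theorem switch_ring {V R : Type} [Fintype V] [DecidableEq V] [CommRing R] (δ : R)
    (U : Matrix V V R) (s : V → R) (hs : ∀ v, s v * s v = 1) :
    ∃ (f : R) (J M₁ M₂ : Matrix V V R), Jᵀ * J = f ^ 2 • (1 : Matrix V V R) ∧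
      f • (1 : Matrix V V R) = δ • M₁ - M₂ * Uᵀ ∧ J = M₁ * U - δ • M₂ ∧
      ∀ ψ : R →+* ℝ, ψ δ = 1 → 1 ≤ |(1 + diagonal (fun v => ψ (s v)) * U.map ψ).det| →
        1 ≤ |ψ f| := by
  obtain ⟨E, hE⟩ : ∃ E : Matrix V V R, E = diagonal s := ⟨_, rfl⟩
  have e1 : E * E = 1 := by
    rw [hE, diagonal_mul_diagonal, ← diagonal_one]
    exact congrArg diagonal (funext hs)
  have e2 : Eᵀ = E := by rw [hE, diagonal_transpose]
  obtain ⟨Y, hY⟩ : ∃ Y : Matrix V V R, Y = δ • 1 + E * U := ⟨_, rfl⟩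
  obtain ⟨K, hK⟩ : ∃ K : Matrix V V R, K = δ • ((adjugate Y)ᵀ - adjugate Y) := ⟨_, rfl⟩
  have k1 : Kᵀ = -K := by
    rw [hK, transpose_smul, transpose_sub, transpose_transpose, ← smul_neg, neg_sub]
  have a1 : adjugate Y * (E * U) = Y.det • 1 - δ • adjugate Y := by
    rw [← adjugate_mul, eq_sub_iff_add_eq]
    conv_rhs => arg 2; rw [hY]
    rw [Matrix.mul_add, Matrix.mul_smul, Matrix.mul_one, add_comm]
  have a2 : (adjugate Y)ᵀ * Uᵀ = (Y.det • 1 - δ • (adjugate Y)ᵀ) * E := by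
    have h : (adjugate Y)ᵀ * Yᵀ = Y.det • 1 := by
      rw [← transpose_mul, mul_adjugate, transpose_smul, transpose_one]
    have h2 : Yᵀ = δ • 1 + Uᵀ * E := by
      rw [hY, transpose_add, transpose_smul, transpose_one, transpose_mul, e2]
    rw [← h, h2, Matrix.mul_add, Matrix.mul_smul, Matrix.mul_one, add_sub_cancel_left,
      Matrix.mul_assoc, Matrix.mul_assoc, e1, Matrix.mul_one]
  refine ⟨(Y.det • 1 - K).det, E * (adjugate (Y.det • 1 - K) * (Y.det • 1 + K)),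
    E * adjugate (Y.det • 1 - K) * (adjugate Y * E),
    -(E * adjugate (Y.det • 1 - K) * (adjugate Y)ᵀ), ?_, ?_, ?_, fun ψ h1 h2 => ?_⟩
  · rw [transpose_mul, e2, Matrix.mul_assoc, ← Matrix.mul_assoc E, e1, Matrix.one_mul,
      cayley_adj k1]
  · rw [Matrix.neg_mul, sub_neg_eq_add, Matrix.mul_assoc _ _ Uᵀ, a2, ← Matrix.mul_smul,
      ← Matrix.mul_add, ← Matrix.smul_mul, ← Matrix.add_mul,
      show δ • adjugate Y + (Y.det • 1 - δ • (adjugate Y)ᵀ) = Y.det • 1 - K by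
        rw [hK, smul_sub]; abel,
      Matrix.mul_assoc, ← Matrix.mul_assoc (adjugate _), adjugate_mul, Matrix.smul_mul,
      Matrix.mul_smul, Matrix.one_mul, e1]
  · rw [smul_neg, sub_neg_eq_add, Matrix.mul_assoc _ _ U, Matrix.mul_assoc _ E U, a1,
      ← Matrix.mul_smul, ← Matrix.mul_add,
      show Y.det • 1 - δ • adjugate Y + δ • (adjugate Y)ᵀ = Y.det • 1 + K by
        rw [hK, smul_sub]; abel, Matrix.mul_assoc]
  · have b1 : ψ Y.det = (1 + diagonal (fun v => ψ (s v)) * U.map ψ).det := by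
      rw [RingHom.map_det]
      congr 1
      ext v w
      simp [hY, hE, h1, one_apply, apply_ite ψ]
    have b2 : ψ (Y.det • (1 : Matrix V V R) - K).det = (ψ Y.det • 1 - K.map ψ).det := by
      rw [RingHom.map_det]
      congr 1
      ext v w
      simp [one_apply, apply_ite ψ]
    have b3 : (K.map ψ)ᵀ = -K.map ψ := by
      ext v w
      have := congrFun (congrFun k1 v) w
      simp only [transpose_apply, neg_apply] at this
      simp [this]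
    rw [b2]
    exact (one_le_pow₀ (b1 ▸ h2)).trans (smul_le_det_skew b3 _)

/-- families of polynomials with bounded degree and with values bounded in terms of `c` -/
def bddFam {I : Type} (c : I → ℝ) : Subring (I → ℝ[X]) where
  carrier := {p | (∃ D : ℕ, ∀ i, (p i).natDegree ≤ D) ∧ ∀ C : ℝ, ∃ C' : ℝ, 0 ≤ C' ∧
    ∀ i, c i = C → ∀ τ : ℝ, |τ| ≤ 1 → |(p i).eval τ| ≤ C'}
  mul_mem' := by
    rintro p q ⟨⟨D, h1⟩, h2⟩ ⟨⟨D', h3⟩, h4⟩
    refine ⟨⟨D + D', fun i => natDegree_mul_le.trans (add_le_add (h1 i) (h3 i))⟩, fun C => ?_⟩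
    obtain ⟨a, a0, ha⟩ := h2 C
    obtain ⟨b, b0, hb⟩ := h4 C
    refine ⟨a * b, mul_nonneg a0 b0, fun i hi τ hτ => ?_⟩
    rw [Pi.mul_apply, eval_mul, abs_mul]
    exact mul_le_mul (ha i hi τ hτ) (hb i hi τ hτ) (abs_nonneg _) a0
  one_mem' := ⟨⟨0, fun i => by simp⟩, fun C => ⟨1, zero_le_one, fun i _ τ _ => by simp⟩⟩
  add_mem' := by
    rintro p q ⟨⟨D, h1⟩, h2⟩ ⟨⟨D', h3⟩, h4⟩
    refine ⟨⟨max D D', fun i => (natDegree_add_le _ _).trans (max_le_max (h1 i) (h3 i))⟩,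
      fun C => ?_⟩
    obtain ⟨a, a0, ha⟩ := h2 C
    obtain ⟨b, b0, hb⟩ := h4 C
    refine ⟨a + b, add_nonneg a0 b0, fun i hi τ hτ => ?_⟩
    rw [Pi.add_apply, eval_add]
    exact (abs_add_le _ _).trans (add_le_add (ha i hi τ hτ) (hb i hi τ hτ))
  zero_mem' := ⟨⟨0, fun i => by simp⟩, fun C => ⟨0, le_rfl, fun i _ τ _ => by simp⟩⟩
  neg_mem' := by
    rintro p ⟨⟨D, h1⟩, h2⟩
    refine ⟨⟨D, fun i => by simpa using h1 i⟩, fun C => ?_⟩
    obtain ⟨a, a0, ha⟩ := h2 C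
    exact ⟨a, a0, fun i hi τ hτ => by simpa using ha i hi τ hτ⟩

theorem bddFam_fin {I A : Type} [Fintype A] (c : I → ℝ) (g : A → bddFam c) :
    ∃ D : ℕ, (∀ a i, ((g a).1 i).natDegree ≤ D) ∧ ∀ C : ℝ, ∃ C' : ℝ, 0 ≤ C' ∧
      ∀ a i, c i = C → ∀ τ : ℝ, |τ| ≤ 1 → |((g a).1 i).eval τ| ≤ C' := by
  choose D hD using fun a => (g a).2.1
  refine ⟨∑ a, D a, fun a i => (hD a i).trans
    (single_le_sum (fun _ _ => Nat.zero_le _) (mem_univ a)), fun C => ?_⟩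
  choose B h0 hB using fun a => (g a).2.2 C
  exact ⟨∑ a, B a, sum_nonneg fun a _ => h0 a, fun a i hi τ hτ => (hB a i hi τ hτ).trans
    (single_le_sum (fun a _ => h0 a) (mem_univ a))⟩

theorem switchP (V : Type) [Fintype V] [DecidableEq V] (D : ℕ) : ∃ D' : ℕ, ∀ C : ℝ, ∃ C' : ℝ,
    0 ≤ C' ∧ ∀ (δ : ℝ[X]) (U : Matrix V V ℝ[X]) (τ₀ : ℝ), δ.natDegree ≤ D →
      (∀ v w, (U v w).natDegree ≤ D) → δ.eval τ₀ = 1 →
      (∀ τ : ℝ, |τ| ≤ 1 → |δ.eval τ| ≤ C ∧ ∀ v w, |(U v w).eval τ| ≤ C) →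
      ∃ (f : ℝ[X]) (J M₁ M₂ : Matrix V V ℝ[X]), f.natDegree ≤ D' ∧
        (∀ v w, (M₁ v w).natDegree ≤ D' ∧ (M₂ v w).natDegree ≤ D') ∧
        Jᵀ * J = f ^ 2 • (1 : Matrix V V ℝ[X]) ∧ 1 ≤ |f.eval τ₀| ∧
        (∀ τ : ℝ, |τ| ≤ 1 → |f.eval τ| ≤ C' ∧
          ∀ v w, |(M₁ v w).eval τ| ≤ C' ∧ |(M₂ v w).eval τ| ≤ C') ∧
        f • (1 : Matrix V V ℝ[X]) = δ • M₁ - M₂ * Uᵀ ∧ J = M₁ * U - δ • M₂ := by
  let I := {x : ℝ × ℝ[X] × Matrix V V ℝ[X] × ℝ // x.2.1.natDegree ≤ D ∧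
    (∀ v w, (x.2.2.1 v w).natDegree ≤ D) ∧
    ∀ τ : ℝ, |τ| ≤ 1 → |x.2.1.eval τ| ≤ x.1 ∧ ∀ v w, |(x.2.2.1 v w).eval τ| ≤ x.1}
  let c : I → ℝ := fun i => i.1.1
  choose σ hσ hσ' using fun i : I => exists_signE (i.1.2.2.1.map (evalRingHom i.1.2.2.2))
  let δ : bddFam c := ⟨fun i => i.1.2.1, ⟨D, fun i => i.2.1⟩, fun C => ⟨|C|, abs_nonneg C,
    fun i hi τ hτ => (i.2.2.2 τ hτ).1.trans (hi ▸ le_abs_self _)⟩⟩
  let U : Matrix V V (bddFam c) := fun v w => ⟨fun i => i.1.2.2.1 v w, ⟨D, fun i => i.2.2.1 v w⟩,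
    fun C => ⟨|C|, abs_nonneg C, fun i hi τ hτ =>
      ((i.2.2.2 τ hτ).2 v w).trans (hi ▸ le_abs_self _)⟩⟩
  let s : V → bddFam c := fun v => ⟨fun i => Polynomial.C (σ i v), ⟨0, fun i => by simp⟩,
    fun C => ⟨1, zero_le_one, fun i _ τ _ => by rcases hσ i v with h | h <;> simp [h]⟩⟩
  obtain ⟨f, J, M₁, M₂, h1, h2, h3, h4⟩ := switch_ring δ U s fun v => Subtype.ext (funext fun i => by
    change Polynomial.C (σ i v) * Polynomial.C (σ i v) = 1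
    rw [← C_mul, (hσ i).sq, C_1])
  obtain ⟨D', d1, d2⟩ := bddFam_fin c fun a : Option (Bool × V × V) =>
    a.elim f fun b => cond b.1 (M₁ b.2.1 b.2.2) (M₂ b.2.1 b.2.2)
  refine ⟨D', fun C => ?_⟩
  obtain ⟨C', c0, c1⟩ := d2 C
  refine ⟨C', c0, fun δ₀ U₀ τ₀ g1 g2 g3 g4 => ?_⟩
  let i : I := ⟨(C, δ₀, U₀, τ₀), g1, g2, g4⟩
  let φ : bddFam c →+* ℝ[X] := (Pi.evalRingHom _ i).comp (bddFam c).subtype
  have u0 : U.map φ = U₀ := rfl
  have u1 : φ δ = δ₀ := rfl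
  have sm : ∀ (a : bddFam c) (M : Matrix V V (bddFam c)), (a • M).map φ = φ a • M.map φ :=
    fun a M => by ext1 v w; simp
  have on : (1 : Matrix V V (bddFam c)).map φ = 1 := Matrix.map_one _ (map_zero φ) (map_one φ)
  refine ⟨φ f, J.map φ, M₁.map φ, M₂.map φ, d1 none i, fun v w =>
    ⟨d1 (some (true, v, w)) i, d1 (some (false, v, w)) i⟩, ?_, ?_, fun τ hτ =>
    ⟨c1 none i rfl τ hτ, fun v w => ⟨c1 (some (true, v, w)) i rfl τ hτ,
      c1 (some (false, v, w)) i rfl τ hτ⟩⟩, ?_, ?_⟩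
  · rw [← transpose_map, ← Matrix.map_mul, h1, sm, on, map_pow]
  · refine h4 ((evalRingHom τ₀).comp φ) g3 ?_
    have e : (fun v => ((evalRingHom τ₀).comp φ) (s v)) = σ i := funext fun v => eval_C
    rw [e]
    exact hσ' i
  · rw [← on, ← sm, h2, Matrix.map_sub _ (map_sub φ), sm, Matrix.map_mul, transpose_map, u0, u1]
  · rw [h3, Matrix.map_sub _ (map_sub φ), sm, Matrix.map_mul, u0, u1]

end Pool.Agent.CA9.UB
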