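import Pool.Agent.Lib.MP_ca9be0_an.UB.R0
import Pool.Agent.Lib.MP_ca9be0_an.UB.AlgD

/-! The representation at one point. -/

namespace Pool.Agent.CA9.UB

open Finset Matrix Polynomial Pool.Agent.Lib.MP_ca9be0_an.PyF

lemma ol_lin {m : ℕ} (f : E m →ₗ[ℝ] ℝ) : (fun y => f y) ∈ Pd m 1 := by
  have h := Pd_sum (n := m) (a := 1) univ
    (p := fun i y => f (EuclideanSpace.single i 1) * gen m (some i) y)
    fun i _ => Pd_smul _ (gen_mem (some i))
  have e : (fun y => f y) = fun y : E m =>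
      ∑ i, f (EuclideanSpace.single i 1) * gen m (some i) y := by
    funext y
    conv_lhs => rw [← (EuclideanSpace.basisFun (Fin m) ℝ).sum_repr y, map_sum]
    refine sum_congr rfl fun i _ => ?_
    rw [map_smul, EuclideanSpace.basisFun_apply, EuclideanSpace.basisFun_repr, smul_eq_mul,
      mul_comm]
    rfl
  rw [e]; exact h

lemma ol_split {n : ℕ} (t : E (n + 1) →ₗ[ℝ] ℝ) (e : E (n + 1)) (he : t e = 1) :
    ∃ (io : E n →ₗ[ℝ] E (n + 1)) (pr : E (n + 1) →ₗ[ℝ] E n), ∀ y, io (pr y) + t y • e = y := by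
  have hs : LinearMap.range t = ⊤ := by
    rw [LinearMap.range_eq_top]
    exact fun c => ⟨c • e, by rw [map_smul, he, smul_eq_mul, mul_one]⟩
  have h1 := t.finrank_range_add_finrank_ker
  rw [hs, finrank_top, Module.finrank_self, finrank_euclideanSpace_fin] at h1
  have h2 : Module.finrank ℝ (LinearMap.ker t) = Module.finrank ℝ (E n) := by
    rw [finrank_euclideanSpace_fin]; omega
  let φ := LinearEquiv.ofFinrankEq _ _ h2
  let q : E (n + 1) →ₗ[ℝ] LinearMap.ker t :=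
    LinearMap.codRestrict _ (LinearMap.id - t.smulRight e) fun y => by
      simp [LinearMap.mem_ker, he]
  refine ⟨(LinearMap.ker t).subtype ∘ₗ φ.symm.toLinearMap, φ.toLinearMap ∘ₗ q, fun y => ?_⟩
  simp [q]

lemma ol_poly {m : ℕ} {f : E m → ℝ} (hf : f ∈ Pd m 1) (p : ℝ[X]) :
    (fun y => p.eval (f y)) ∈ Pd m p.natDegree := by
  have hp : ∀ j : ℕ, (fun y => f y ^ j) ∈ Pd m j := fun j => by
    induction j with
    | zero => simpa using const_mem 0 1
    | succ j ih => simpa only [pow_succ] using Pd_mul ih hf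
  simp only [eval_eq_sum_range]
  exact Pd_sum _ fun j hj => Pd_smul _ (Pd_mono (Nat.lt_succ_iff.1 (mem_range.1 hj)) (hp j))

lemma ol_deg {N d D : ℕ} {V W : Type} [Fintype V] [Fintype W] {S : V → E N → ℝ}
    {T : W → E N → ℝ} (hS : PV D S) (hT : PV d T) (h : ∀ y, ∑ v, S v y ^ 2 = ∑ w, T w y ^ 2) :
    PV d S := by
  choose H h1 h2 h3 h4 using fun v => hom_dec 0 (hS v)
  have key : ∀ v j y, d < j → j ≤ D → H v j y = 0 := fun v j y hj hD => by
    choose ψ g1 g2 using fun w => Pd_line (hT w) 0 y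
    let φ : V → ℝ[X] := fun v => ∑ i ∈ range (D + 1), monomial i (H v i (0 + y))
    have a1 : ∀ v τ, (φ v).eval τ = S v (0 + τ • y) := fun v τ => by
      simp only [φ, eval_finsetSum, eval_monomial, h4 v (0 + τ • y), h2, mul_comm]
    have a2 : ∑ v, φ v * φ v = ∑ w, ψ w * ψ w := Polynomial.funext fun τ => by
      simp only [eval_finsetSum, eval_mul, a1, g2]
      simpa only [pow_two] using h (0 + τ • y)
    have a3 := natDegree_le_of_sum_sq φ a2 (natDegree_sum_le_of_forall_le _ _ fun w _ =>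
      natDegree_mul_le.trans (add_le_add (g1 w) (g1 w))) v
    have a4 := coeff_eq_zero_of_natDegree_lt (a3.trans_lt hj)
    simp only [φ, finsetSum_coeff, coeff_monomial, sum_ite_eq', mem_range, zero_add] at a4
    rwa [if_pos (by omega)] at a4
  intro v
  rw [funext (h4 v)]
  refine Pd_sum _ fun j hj => ?_
  by_cases hd : j ≤ d
  · exact Pd_mono hd (h1 v j)
  · rw [funext fun y => key v j y (not_le.1 hd) (Nat.lt_succ_iff.1 (mem_range.1 hj))]
    exact const_mem d 0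

lemma ol_ginv {A : Type} [Fintype A] [DecidableEq A] (G : Matrix A A ℝ) :
    ∃ H : Matrix A A ℝ, G * H * G = G := by
  obtain ⟨r, hr⟩ := (Matrix.toLin' G).rangeRestrict.exists_rightInverse_of_surjective
    (LinearMap.range_rangeRestrict _)
  obtain ⟨g, hg⟩ := LinearMap.exists_extend r
  refine ⟨LinearMap.toMatrix' g, Matrix.toLin'.injective ?_⟩
  rw [Matrix.toLin'_mul, Matrix.toLin'_mul, Matrix.toLin'_toMatrix']
  refine LinearMap.ext fun x => ?_
  have h1 := LinearMap.congr_fun hg ⟨Matrix.toLin' G x, x, rfl⟩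
  have h2 := congrArg Subtype.val (LinearMap.congr_fun hr ⟨Matrix.toLin' G x, x, rfl⟩)
  simp only [LinearMap.comp_apply, Submodule.subtype_apply] at h1 ⊢
  rw [h1]
  exact h2

lemma ol_cancel {A V : Type} [Fintype A] [DecidableEq A] [Fintype V] (B : Matrix V A ℝ)
    {H : Matrix A A ℝ} (h : Bᵀ * B * H * (Bᵀ * B) = Bᵀ * B) : B * H * (Bᵀ * B) = B := by
  have h1 : (B * (H * (Bᵀ * B) - 1))ᴴ * (B * (H * (Bᵀ * B) - 1)) = 0 := by
    rw [conjTranspose_eq_transpose_of_trivial, transpose_mul, Matrix.mul_assoc,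
      ← Matrix.mul_assoc Bᵀ, Matrix.mul_sub (Bᵀ * B), ← Matrix.mul_assoc (Bᵀ * B), h,
      Matrix.mul_one, sub_self, Matrix.mul_zero]
  have h2 := conjTranspose_mul_self_eq_zero.1 h1
  rwa [Matrix.mul_sub, Matrix.mul_one, sub_eq_zero, ← Matrix.mul_assoc] at h2

lemma ol_contr {A V W : Type} [Fintype A] [Fintype V] [Fintype W] (B : Matrix V A ℝ)
    (Y : Matrix W A ℝ) (h : Bᵀ * B = Yᵀ * Y) :
    ∃ U : Matrix V W ℝ, (∀ v w, |U v w| ≤ 1) ∧ U * Y = B ∧ Uᵀ * B = Y := by
  classical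
  obtain ⟨H, hH⟩ := ol_ginv (Yᵀ * Y)
  have hH' : Yᵀ * Y * Hᵀ * (Yᵀ * Y) = Yᵀ * Y := by
    have := congrArg transpose hH
    simpa only [transpose_mul, transpose_transpose, Matrix.mul_assoc] using this
  have b1 := ol_cancel B (H := H) (by rwa [h])
  have b2 := ol_cancel Y hH
  have b3 := ol_cancel Y hH'
  have u1 : (B * H * Yᵀ)ᵀ * B = Y := by
    rw [transpose_mul, transpose_mul, transpose_transpose, Matrix.mul_assoc, Matrix.mul_assoc, h,
      ← Matrix.mul_assoc, b3]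
  refine ⟨B * H * Yᵀ, fun v w => ?_, by rw [Matrix.mul_assoc, ← h, b1], u1⟩
  set U := B * H * Yᵀ with hU
  have p1 : Uᵀ * U = Y * H * Yᵀ := by
    conv_lhs => rw [hU, ← Matrix.mul_assoc, ← Matrix.mul_assoc, u1]
  have p2 : (Uᵀ * U)ᵀ * (Uᵀ * U) = Uᵀ * U := by
    rw [transpose_mul, transpose_transpose, p1]
    calc Y * H * Yᵀ * (Y * H * Yᵀ) = Y * H * (Yᵀ * Y) * H * Yᵀ := by
          simp only [Matrix.mul_assoc]
      _ = _ := by rw [b2]
  have q1 : U v w * U v w ≤ (Uᵀ * U) w w :=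
    single_le_sum (f := fun v => U v w * U v w) (fun _ _ => mul_self_nonneg _) (mem_univ v)
  have q2 : (Uᵀ * U) w w * (Uᵀ * U) w w ≤ (Uᵀ * U) w w := by
    conv_rhs => rw [← p2]
    exact single_le_sum (f := fun u => (Uᵀ * U) u w * (Uᵀ * U) u w)
      (fun _ _ => mul_self_nonneg _) (mem_univ w)
  exact abs_le_one_iff_mul_self_le_one.2 (by nlinarith)

theorem one_leaf {n d : ℕ} {V W : Type} [Fintype V] [Fintype W]
    (hm : (n + d).choose d + 1 ≤ Fintype.card V) (t : E (n + 1) →ₗ[ℝ] ℝ) (e : E (n + 1))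
    (he : t e = 1) (T : W → E (n + 1) → ℝ) (hT : PV d T) :
    ∃ S : V → E (n + 1) → ℝ, PV d S ∧ (∀ y, ∑ v, S v y ^ 2 = ∑ w, T w y ^ 2) ∧
      ∀ a : ℝ, ∃ U : Matrix V W ℝ, (∀ v w, |U v w| ≤ 1) ∧ ∀ y, t y = a → At U S T y 0 := by
  obtain ⟨io, pr, hy⟩ := ol_split t e he
  choose φ _ hφ using fun w z => Pd_line (hT w) (io z) e
  let Y : Matrix W (BA n d) ℝ[X] := Matrix.of fun w a =>
    ∑ z ∈ ((bs n d).γ a).support, C ((bs n d).γ a z) * φ w z
  have hY : ∀ w y, T w y = ∑ a, (Y w a).eval (t y) * (bs n d).m a (pr y) := fun w y => by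
    have h1 : (fun z => T w (io z + t y • e)) ∈ Pd n d := Pd_lin (fun i => by
      simpa using Pd_add (ol_lin ((EuclideanSpace.projₗ i).comp io))
        (const_mem 1 (t y * e i))) (hT w)
    have h2 := (bs n d).exp _ h1 (pr y)
    rw [hy] at h2
    rw [h2]
    refine sum_congr rfl fun a _ => ?_
    simp only [Y, of_apply, co, eval_finsetSum, eval_mul, eval_C, hφ]
  obtain ⟨B, hB⟩ := leep' (μ := V) Y ((Nat.succ_le_succ (card_BA n d)).trans hm)
  have hτ : ∀ τ : ℝ, (B.map (eval τ))ᵀ * B.map (eval τ) = (Y.map (eval τ))ᵀ * Y.map (eval τ) :=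
    fun τ => by
      ext a b
      have := congrArg (eval τ) (congrFun (congrFun hB a) b)
      simpa only [mul_apply, transpose_apply, map_apply, eval_finsetSum, eval_mul] using this
  let S : V → E (n + 1) → ℝ := fun v y => ∑ a, (B v a).eval (t y) * (bs n d).m a (pr y)
  have hS : ∀ y, (fun v => S v y) = B.map (eval (t y)) *ᵥ fun a => (bs n d).m a (pr y) :=
    fun y => rfl
  have hT' : ∀ y, (fun w => T w y) = Y.map (eval (t y)) *ᵥ fun a => (bs n d).m a (pr y) :=
    fun y => funext fun w => hY w y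
  have hsq : ∀ y, ∑ v, S v y ^ 2 = ∑ w, T w y ^ 2 := fun y => by
    have h1 : (fun v => S v y) ⬝ᵥ (fun v => S v y) = (fun w => T w y) ⬝ᵥ fun w => T w y := by
      rw [hS, hT', ← dot_gram, ← dot_gram, hτ]
    simpa only [dotProduct, pow_two] using h1
  refine ⟨S, ol_deg (D := (univ.sup fun q : V × BA n d => (B q.1 q.2).natDegree) + d)
    (fun v => Pd_sum _ fun a _ => Pd_mul (Pd_mono (le_sup (f := fun q : V × BA n d =>
      (B q.1 q.2).natDegree) (mem_univ (v, a))) (ol_poly (ol_lin t) _)) (Pd_lin (fun i => ?_)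
      ((bs n d).mem a))) hT hsq, hsq, fun a => ?_⟩
  · exact ol_lin ((EuclideanSpace.projₗ i).comp pr)
  · obtain ⟨U, u1, u2, u3⟩ := ol_contr _ _ (hτ a)
    refine ⟨U, u1, fun y h => ⟨fun v => ?_, fun w => ?_⟩⟩
    · have h1 : U *ᵥ (fun w => T w y) = fun v => S v y := by
        rw [hS, hT', mulVec_mulVec, h, u2]
      exact (abs_eq_zero.2 (sub_eq_zero.2 (congrFun h1 v).symm)).le
    · have h1 : Uᵀ *ᵥ (fun v => S v y) = fun w => T w y := by
        rw [hS, hT', mulVec_mulVec, h, u3]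
      exact (abs_eq_zero.2 (sub_eq_zero.2 (congrFun h1 w).symm)).le

end Pool.Agent.CA9.UB
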