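import Pool.Agent.Lib.MP_ca9be0_an.UB.RA

/-! The reset lemma: a sampled relation gives a polynomial relation of universal degree. -/

namespace Pool.Agent.CA9.UB

open Finset Matrix Polynomial Pool.Agent.Lib.MP_ca9be0_an.PyF

theorem re_det {J : Type} [Fintype J] [DecidableEq J] (A : Matrix J J ℝ[X]) {e : ℕ}
    (h : ∀ i j, (A i j).natDegree ≤ e) : A.det.natDegree ≤ Fintype.card J * e := by
  rw [det_apply]
  refine natDegree_sum_le_of_forall_le _ _ fun σ _ => ?_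
  rw [Units.smul_def]
  refine (natDegree_smul_le _ _).trans ((natDegree_prod_le _ _).trans ?_)
  exact (sum_le_card_nsmul _ _ e fun i _ => h _ _).trans (by simp)

theorem re_orth {I J : Type} [Fintype I] [Fintype J] (Z : Matrix I J ℝ) (y : I → ℝ) (x u : J → ℝ)
    (δ : ℝ) (h : (Zᵀ * Z) *ᵥ x = δ • Zᵀ *ᵥ y) :
    (δ • y - Z *ᵥ x) ⬝ᵥ (δ • y - Z *ᵥ x) ≤ δ ^ 2 * ((y - Z *ᵥ u) ⬝ᵥ (y - Z *ᵥ u)) := by
  have h1 : (δ • y - Z *ᵥ x) ⬝ᵥ Z *ᵥ (x - δ • u) = 0 := by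
    rw [dotProduct_mulVec, ← mulVec_transpose, mulVec_sub, mulVec_smul, mulVec_mulVec, h, sub_self,
      zero_dotProduct]
  have h2 : δ • (y - Z *ᵥ u) = (δ • y - Z *ᵥ x) + Z *ᵥ (x - δ • u) := by
    rw [mulVec_sub, mulVec_smul, smul_sub]
    abel
  have h3 : δ ^ 2 * ((y - Z *ᵥ u) ⬝ᵥ (y - Z *ᵥ u)) =
      (δ • (y - Z *ᵥ u)) ⬝ᵥ (δ • (y - Z *ᵥ u)) := by
    rw [smul_dotProduct, dotProduct_smul, smul_eq_mul, smul_eq_mul]
    ring
  rw [h3, h2]
  generalize δ • y - Z *ᵥ x = r at h1 ⊢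
  generalize Z *ᵥ (x - δ • u) = q at h1 ⊢
  rw [add_dotProduct, dotProduct_add, dotProduct_add, h1, dotProduct_comm q r, h1]
  have : 0 ≤ q ⬝ᵥ q := sum_nonneg fun i _ => mul_self_nonneg _
  linarith

/-- least squares with polynomial coefficients -/
theorem re_ls {I J : Type} [Fintype I] [Fintype J] {d : ℕ} (Z : Matrix I J ℝ[X]) (y : I → ℝ[X])
    (hZ : ∀ i j, (Z i j).natDegree ≤ d) (hy : ∀ i, (y i).natDegree ≤ d)
    (h1 : ∀ j, ∃ i, ∀ (τ : ℝ) (u : J → ℝ), ∑ j', (Z i j').eval τ * u j' = u j)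
    (h2 : ∀ j j' i, (∀ (τ : ℝ) (u : J → ℝ), ∑ l, (Z i l).eval τ * u l = u j) →
      (∀ (τ : ℝ) (u : J → ℝ), ∑ l, (Z i l).eval τ * u l = u j') → j = j') :
    ∃ (δ : ℝ[X]) (x : J → ℝ[X]), δ.natDegree ≤ Fintype.card J * (2 * d) ∧
      (∀ j, (x j).natDegree ≤ Fintype.card J * (2 * d)) ∧ (∀ τ : ℝ, 1 ≤ δ.eval τ) ∧
      ∀ (τ m : ℝ) (u : J → ℝ), (∀ i, |(y i).eval τ - ∑ j, (Z i j).eval τ * u j| ≤ m) →
        ∀ i, |(δ * y i - ∑ j, Z i j * x j).eval τ| ≤ Fintype.card I * m * δ.eval τ := by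
  classical
  have hG : ∀ j j', ((Zᵀ * Z) j j').natDegree ≤ 2 * d := fun j j' =>
    natDegree_sum_le_of_forall_le _ _ fun i _ =>
      natDegree_mul_le.trans ((add_le_add (hZ i j) (hZ i j')).trans (by omega))
  have hb : ∀ j, ((Zᵀ *ᵥ y) j).natDegree ≤ 2 * d := fun j =>
    natDegree_sum_le_of_forall_le _ _ fun i _ =>
      natDegree_mul_le.trans ((add_le_add (hZ i j) (hy i)).trans (by omega))
  have hδ : ∀ τ : ℝ, 1 ≤ (Zᵀ * Z).det.eval τ := fun τ => by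
    have e : (Zᵀ * Z).det.eval τ =
        ((Z.map (evalRingHom τ))ᵀ * Z.map (evalRingHom τ)).det := by
      rw [← coe_evalRingHom, RingHom.map_det, RingHom.mapMatrix_apply, Matrix.map_mul,
        transpose_map]
    rw [e]
    refine (one_pow _).symm.le.trans (det_ge (gram_herm _) zero_le_one fun u => ?_)
    rw [dot_gram, one_mul]
    choose f hf using h1
    have hinj : Function.Injective f := fun j j' h => h2 j j' (f j) (hf j) (h ▸ hf j')
    calc u ⬝ᵥ u = ∑ i ∈ univ.map ⟨f, hinj⟩, (Z.map (evalRingHom τ) *ᵥ u) i *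
          (Z.map (evalRingHom τ) *ᵥ u) i := by
          rw [sum_map]
          refine sum_congr rfl fun j _ => ?_
          rw [← hf j τ u]
          rfl
      _ ≤ _ := sum_le_sum_of_subset_of_nonneg (subset_univ _) fun i _ _ => mul_self_nonneg _
  refine ⟨(Zᵀ * Z).det, cramer (Zᵀ * Z) (Zᵀ *ᵥ y), re_det _ hG, fun j => ?_, hδ,
    fun τ m u hu i => ?_⟩
  · rw [cramer_apply]
    refine re_det _ fun a b => ?_
    rw [updateCol_apply]
    split_ifs
    · exact hb a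
    · exact hG a b
  have h3 := mulVec_cramer (Zᵀ * Z) (Zᵀ *ᵥ y)
  have h4 := hδ τ
  generalize cramer (Zᵀ * Z) (Zᵀ *ᵥ y) = x at h3 ⊢
  generalize (Zᵀ * Z).det = δ at h3 h4 ⊢
  have h5 := re_orth (Z.map (eval τ)) (fun i => (y i).eval τ) (fun j => (x j).eval τ) u (δ.eval τ)
    (funext fun j => by
      simpa [mulVec, dotProduct, mul_apply, eval_finsetSum] using congrArg (eval τ) (congrFun h3 j))
  have h0 : 0 ≤ m := (abs_nonneg _).trans (hu i)
  have h6 : ((fun i => (y i).eval τ) - Z.map (eval τ) *ᵥ u) ⬝ᵥ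
      ((fun i => (y i).eval τ) - Z.map (eval τ) *ᵥ u) ≤ Fintype.card I * m ^ 2 :=
    (sum_le_card_nsmul _ _ (m ^ 2) fun i _ => by
      rw [← sq]
      exact sq_le_sq' (abs_le.1 (hu i)).1 (abs_le.1 (hu i)).2).trans (by simp)
  have h7 : ((δ * y i - ∑ j, Z i j * x j).eval τ) ^ 2 ≤
      (δ.eval τ • (fun i => (y i).eval τ) - Z.map (eval τ) *ᵥ fun j => (x j).eval τ) ⬝ᵥ
      (δ.eval τ • (fun i => (y i).eval τ) - Z.map (eval τ) *ᵥ fun j => (x j).eval τ) := by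
    refine le_trans (le_of_eq ?_) (single_le_sum (fun i _ => mul_self_nonneg _) (mem_univ i))
    simp [mulVec, dotProduct, eval_finsetSum, sq]
  have h8 : (1 : ℝ) ≤ Fintype.card I := by exact_mod_cast Fintype.card_pos_iff.2 ⟨i⟩
  refine abs_le_of_sq_le_sq ((h7.trans h5).trans ?_) (by positivity)
  refine (mul_le_mul_of_nonneg_left h6 (sq_nonneg _)).trans ?_
  have h9 : 0 ≤ (δ.eval τ * m) ^ 2 * ((Fintype.card I : ℝ) * (Fintype.card I - 1)) :=
    mul_nonneg (sq_nonneg _) (mul_nonneg (by linarith) (by linarith))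
  nlinarith

/-- normalisation and interpolation -/
theorem re_nrm (D e : ℕ) (C L : ℝ) : ∃ K : ℝ, 0 ≤ K ∧ ∀ (δ : ℝ[X]), δ.natDegree ≤ D →
    (∀ τ : ℝ, 1 ≤ δ.eval τ) → ∃ c : ℝ, 0 < c ∧ (∃ τ : ℝ, |τ| ≤ 1 ∧ c * δ.eval τ = 1) ∧
      (∀ τ : ℝ, |τ| ≤ 1 → c * δ.eval τ ≤ 1) ∧
      ∀ (G : Finset ℕ) (a : ℕ → ℝ) (r : ℝ[X]) (m : ℝ), 0 ≤ m → e + 1 ≤ G.card →
        (∀ i ∈ G, ∀ j ∈ G, i ≠ j → 1 ≤ C * |a i - a j|) → (∀ i ∈ G, |a i| ≤ C) →
        r.natDegree ≤ e → (∀ i ∈ G, |r.eval (a i)| ≤ m * δ.eval (a i)) →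
        ∀ τ : ℝ, |τ| ≤ max 1 L → |c * r.eval τ| ≤ K * m := by
  obtain ⟨K1, k1, h1⟩ := pgrow D
  obtain ⟨K2, k2, h2⟩ := lagr e C
  obtain ⟨K3, k3, h3⟩ := pgrow e
  refine ⟨K3 * (K2 * (K1 * max 1 C ^ D)) * max 1 L ^ e, by positivity, fun δ hD hδ => ?_⟩
  obtain ⟨τ0, t0, hm⟩ := (isCompact_Icc (a := (-1 : ℝ)) (b := 1)).exists_isMaxOn
    ⟨0, by simp⟩ δ.continuous.continuousOn
  have p0 : 0 < δ.eval τ0 := one_pos.trans_le (hδ τ0)
  have hm' : ∀ τ : ℝ, |τ| ≤ 1 → δ.eval τ ≤ δ.eval τ0 := fun τ h => hm (abs_le.1 h)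
  refine ⟨(δ.eval τ0)⁻¹, inv_pos.2 p0, ⟨τ0, abs_le.2 t0, inv_mul_cancel₀ p0.ne'⟩,
    fun τ h => (inv_mul_le_one₀ p0).2 (hm' τ h), fun G a r m m0 hG hs hb hr hv τ hτ => ?_⟩
  have h4 := h3 r _ hr (h2 G a r (m * (K1 * δ.eval τ0 * max 1 C ^ D)) hG hs hb hr fun i hi =>
    (hv i hi).trans (mul_le_mul_of_nonneg_left ((le_abs_self _).trans
      (h1 δ _ hD (fun τ h => by
        rw [abs_of_pos (one_pos.trans_le (hδ τ))]
        exact hm' τ h) _ _ (le_max_left 1 C) ((hb i hi).trans (le_max_right _ _)))) m0))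
    τ _ (le_max_left 1 L) hτ
  rw [abs_mul, abs_of_pos (inv_pos.2 p0), inv_mul_le_iff₀ p0]
  exact h4.trans (le_of_eq (by ring))

/-- norming points -/
theorem re_pts (N d : ℕ) : ∃ (Zs : Finset (E N)) (K : ℝ), 0 ≤ K ∧ ∀ u ∈ Pd N d, ∀ m : ℝ, 0 ≤ m →
    (∀ z ∈ Zs, |u z| ≤ m) → ∀ y, ‖y‖ ≤ 1 → |u y| ≤ K * m := by
  classical
  have h1 : ∀ a, ∃ M : ℝ, ∀ y : E N, ‖y‖ ≤ 1 → |(bs N d).m a y| ≤ M := fun a => by
    obtain ⟨M, hM⟩ := (isCompact_closedBall (0 : E N) 1).exists_bound_of_continuousOn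
      (Pd_diff ((bs N d).mem a)).continuous.continuousOn
    exact ⟨M, fun y hy => hM y (by simpa using hy)⟩
  choose M hM using h1
  refine ⟨univ.biUnion fun a => ((bs N d).γ a).support,
    ∑ a, (∑ z ∈ ((bs N d).γ a).support, |(bs N d).γ a z|) * |M a|, by positivity,
    fun u hu m m0 hz y hy => ?_⟩
  rw [(bs N d).exp u hu y, sum_mul]
  refine (abs_sum_le_sum_abs _ _).trans (sum_le_sum fun a _ => ?_)
  rw [abs_mul, mul_right_comm]
  refine mul_le_mul ?_ ((hM a y hy).trans (le_abs_self _)) (abs_nonneg _) (by positivity)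
  rw [co, sum_mul]
  refine (abs_sum_le_sum_abs _ _).trans (sum_le_sum fun z h => ?_)
  rw [abs_mul]
  exact mul_le_mul_of_nonneg_left (hz z (mem_biUnion.2 ⟨a, mem_univ _, h⟩)) (abs_nonneg _)

theorem re_lin {N : ℕ} (t : E N →ₗ[ℝ] ℝ) : (fun y => t y) ∈ Pd N 1 := by
  have e : (fun y => t y) = fun y : E N => ∑ i, t (EuclideanSpace.single i 1) * y i := by
    funext y
    conv_lhs => rw [← (EuclideanSpace.basisFun (Fin N) ℝ).sum_repr y]
    simp [mul_comm]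
  rw [e]
  exact Pd_sum _ fun i _ => Pd_smul _ (gen_mem (some i))

theorem re_fib {N d : ℕ} (t : E N →ₗ[ℝ] ℝ) (e : E N) (τ : ℝ) {p : E N → ℝ} (hp : p ∈ Pd N d) :
    (fun y => p (y - t y • e + τ • e)) ∈ Pd N d := by
  refine Pd_lin (T := fun y => y - t y • e + τ • e) (fun i => ?_) hp
  have e1 : (fun y : E N => (y - t y • e + τ • e) i) = fun y => y i - e i * t y + τ * e i := by
    funext y
    simp [mul_comm]
  rw [e1]
  exact Pd_add (Pd_sub (gen_mem (some i)) (Pd_smul _ (re_lin t))) (const_mem _ _)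

theorem reset (N d : ℕ) (V W : Type) [Fintype V] [Fintype W] : ∃ D : ℕ, ∀ s C L : ℝ, 0 ≤ s →
    ∃ C' : ℝ, 0 ≤ C' ∧ ∀ (t : E N →ₗ[ℝ] ℝ) (e : E N) (S : V → E N → ℝ) (T : W → E N → ℝ),
      Pen L t e → PV d S → PV d T → Rel s (D + d + 1) C t S T 0 1 → PRel D C' t S T := by
  classical
  obtain ⟨Zs, K0, k0, hZs⟩ := re_pts N d
  refine ⟨Fintype.card (V × W) * (2 * d), fun s C L hs => ?_⟩
  set D := Fintype.card (V × W) * (2 * d) with hD
  obtain ⟨K1, k1, hK1⟩ := re_nrm D (D + d) C L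
  obtain ⟨R, R0, hR⟩ : ∃ R : ℝ, 0 ≤ R ∧ ∀ z ∈ Zs, ‖z‖ ≤ R :=
    ⟨∑ z ∈ Zs, ‖z‖, by positivity, fun z h =>
      single_le_sum (f := fun z : E N => ‖z‖) (fun _ _ => norm_nonneg _) h⟩
  obtain ⟨m, hm⟩ : ∃ m : ℝ, m = |C| * (1 + (R + |L| * R * |L| + |C| * |L|)) ^ s + |C| := ⟨_, rfl⟩
  have m0 : 0 ≤ m := by rw [hm]; positivity
  obtain ⟨c0, hc0⟩ : ∃ c0 : ℝ, c0 = K1 * (Fintype.card ((V × Zs ⊕ W × Zs) ⊕ V × W) * m) :=
    ⟨_, rfl⟩
  have c00 : 0 ≤ c0 := by rw [hc0]; positivity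
  refine ⟨(K0 + 1) * c0, by positivity, fun t e S T hp hS hT hrel => ?_⟩
  obtain ⟨G, a, hG, hsep, hU⟩ := hrel
  choose B hB hB' using fun (v : V) (z : Zs) => Pd_line (hS v) (z.1 - t z.1 • e) e
  choose X hX hX' using fun (w : W) (z : Zs) => Pd_line (hT w) (z.1 - t z.1 • e) e
  let Z : Matrix ((V × Zs ⊕ W × Zs) ⊕ V × W) (V × W) ℝ[X] := of fun i j =>
    Sum.elim (Sum.elim (fun q : V × Zs => if q.1 = j.1 then X j.2 q.2 else 0)
      fun q : W × Zs => if q.1 = j.2 then B j.1 q.2 else 0) (fun q => if q = j then 1 else 0) i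
  let y : (V × Zs ⊕ W × Zs) ⊕ V × W → ℝ[X] :=
    Sum.elim (Sum.elim (fun q => B q.1 q.2) fun q => X q.1 q.2) fun _ => 0
  have z1 : ∀ v z (τ : ℝ) (u : V × W → ℝ), ∑ j, (Z (.inl (.inl (v, z))) j).eval τ * u j =
      ∑ w, u (v, w) * T w (z.1 - t z.1 • e + τ • e) := fun v z τ u => by
    simp [Z, Fintype.sum_prod_type, apply_ite (eval τ), hX', mul_comm]
  have z2 : ∀ w z (τ : ℝ) (u : V × W → ℝ), ∑ j, (Z (.inl (.inr (w, z))) j).eval τ * u j =
      ∑ v, u (v, w) * S v (z.1 - t z.1 • e + τ • e) := fun w z τ u => by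
    simp [Z, Fintype.sum_prod_type, apply_ite (eval τ), hB', mul_comm]
  have z3 : ∀ q (τ : ℝ) (u : V × W → ℝ), ∑ j, (Z (.inr q) j).eval τ * u j = u q :=
    fun q τ u => by simp [Z, apply_ite (eval τ)]
  have hZ : ∀ i j, (Z i j).natDegree ≤ d := by
    rintro ((q | q) | q) j <;> simp only [Z, of_apply, Sum.elim_inl, Sum.elim_inr] <;>
      split_ifs <;> simp [hX, hB]
  have hy : ∀ i, (y i).natDegree ≤ d := by
    rintro ((q | q) | q) <;> simp [y, hX, hB]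
  obtain ⟨δ, x, d1, d2, d3, d4⟩ := re_ls Z y hZ hy (fun j => ⟨.inr j, z3 j⟩)
    fun j j' i h1 h2 => by
      by_contra h
      have := (h1 0 (Pi.single j 1)).symm.trans (h2 0 (Pi.single j 1))
      simp [Ne.symm h] at this
  obtain ⟨c, c1, c2, c3, c4⟩ := hK1 δ d1 d3
  have key : ∀ i (τ : ℝ), |τ| ≤ max 1 L →
      |c * (δ.eval τ * (y i).eval τ - ∑ j, (Z i j).eval τ * (x j).eval τ)| ≤ c0 := fun i τ hτ => by
    have h1 := c4 G a (δ * y i - ∑ j, Z i j * x j) _ (by positivity :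
      0 ≤ (Fintype.card ((V × Zs ⊕ W × Zs) ⊕ V × W) : ℝ) * m) hG hsep
      (fun k hk => by simpa using (hU k hk).1)
      ((natDegree_sub_le _ _).trans (max_le (natDegree_mul_le.trans (add_le_add d1 (hy i)))
        (natDegree_sum_le_of_forall_le _ _ fun j _ =>
          natDegree_mul_le.trans ((add_le_add (hZ i j) (d2 j)).trans (by omega)))))
      (fun k hk => ?_) τ hτ
    · rw [hc0]
      simpa only [eval_sub, eval_mul, eval_finsetSum] using h1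
    obtain ⟨h2, U, h3, h4⟩ := hU k hk
    have h5 : |a k| ≤ |C| := (by simpa using h2 : |a k| ≤ C).trans (le_abs_self C)
    have h6 : ∀ z : Zs, At U S T (z.1 - t z.1 • e + a k • e) m := fun z => by
      have h7 := h4 (z.1 - t z.1 • e + a k • e) (by simp [hp.one])
      have h8 : ‖z.1 - t z.1 • e + a k • e - 0‖ ≤ R + |L| * R * |L| + |C| * |L| := by
        have he : ‖e‖ ≤ |L| := hp.ne.trans (le_abs_self L)
        have ht : |t z.1| ≤ |L| * R := (hp.nt z.1).trans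
          (mul_le_mul (le_abs_self L) (hR _ z.2) (norm_nonneg _) (abs_nonneg L))
        rw [sub_zero]
        refine (norm_add_le _ _).trans (add_le_add ((norm_sub_le _ _).trans
          (add_le_add (hR _ z.2) ?_)) ?_)
        · rw [norm_smul, Real.norm_eq_abs]
          exact mul_le_mul ht he (norm_nonneg _) (by positivity)
        · rw [norm_smul, Real.norm_eq_abs]
          exact mul_le_mul h5 he (norm_nonneg _) (abs_nonneg _)
      have h9 : C * (1 + ‖z.1 - t z.1 • e + a k • e - 0‖) ^ s ≤ m := by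
        rw [hm]
        exact (mul_le_mul (le_abs_self C) (Real.rpow_le_rpow (by positivity) (by linarith) hs)
          (by positivity) (abs_nonneg C)).trans (le_add_of_nonneg_right (abs_nonneg C))
      exact ⟨fun v => (h7.1 v).trans h9, fun w => (h7.2 w).trans h9⟩
    refine d4 (a k) m (fun j => U j.1 j.2) ?_ i
    rintro ((⟨v, z⟩ | ⟨w, z⟩) | q)
    · rw [z1]
      simpa only [y, Sum.elim_inl, hB'] using (h6 z).1 v
    · rw [z2]
      simpa only [y, Sum.elim_inl, Sum.elim_inr, hX'] using (h6 z).2 w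
    · rw [z3]
      simp only [y, Sum.elim_inr, eval_zero, zero_sub, abs_neg, hm]
      exact ((h3 _ _).trans (le_abs_self C)).trans (le_add_of_nonneg_left (by positivity))
  have hc : K0 * c0 ≤ (K0 + 1) * c0 := by nlinarith
  have hL : ∀ y0 : E N, ‖y0 - 0‖ ≤ 1 → |t y0| ≤ max 1 L := fun y0 h =>
    (hp.nt y0).trans ((mul_le_of_le_one_right ((norm_nonneg e).trans hp.ne)
      (by simpa using h)).trans (le_max_right _ _))
  refine ⟨Polynomial.C c * δ, of fun v w => Polynomial.C c * x (v, w),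
    (natDegree_C_mul_le _ _).trans d1, fun v w => (natDegree_C_mul_le _ _).trans (d2 _),
    by simpa only [eval_mul, eval_C] using c2, fun τ => ?_, fun τ hτ => ⟨?_, fun v w => ?_⟩,
    fun v y0 h0 => ?_, fun w y0 h0 => ?_⟩
  · rw [eval_mul, eval_C]
    exact mul_pos c1 (one_pos.trans_le (d3 τ))
  · rw [eval_mul, eval_C]
    exact c3 τ hτ
  · have h1 := key (.inr (v, w)) τ (hτ.trans (le_max_left _ _))
    rw [z3 (v, w) τ fun j => (x j).eval τ] at h1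
    simp only [y, Sum.elim_inr, eval_zero, mul_zero, zero_sub, mul_neg, abs_neg] at h1
    simp only [of_apply, eval_mul, eval_C]
    nlinarith
  · have h1 := hZs _ (Pd_sub (Pd_smul (c * δ.eval (t y0)) (re_fib t e (t y0) (hS v)))
      (Pd_sum univ fun w _ => Pd_smul (c * (x (v, w)).eval (t y0)) (re_fib t e (t y0) (hT w))))
      c0 c00 (fun z hz => ?_) y0 (by simpa using h0)
    · simp only [sub_add_cancel] at h1
      simpa only [of_apply, eval_mul, eval_C] using h1.trans hc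
    have h2 := key (.inl (.inl (v, ⟨z, hz⟩))) (t y0) (hL y0 h0)
    rw [z1 v ⟨z, hz⟩ (t y0) fun j => (x j).eval (t y0)] at h2
    simpa only [y, Sum.elim_inl, hB', mul_sub, mul_sum, mul_assoc] using h2
  · have h1 := hZs _ (Pd_sub (Pd_smul (c * δ.eval (t y0)) (re_fib t e (t y0) (hT w)))
      (Pd_sum univ fun v _ => Pd_smul (c * (x (v, w)).eval (t y0)) (re_fib t e (t y0) (hS v))))
      c0 c00 (fun z hz => ?_) y0 (by simpa using h0)
    · simp only [sub_add_cancel] at h1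
      simpa only [of_apply, eval_mul, eval_C] using h1.trans hc
    have h2 := key (.inl (.inr (w, ⟨z, hz⟩))) (t y0) (hL y0 h0)
    rw [z2 w ⟨z, hz⟩ (t y0) fun j => (x j).eval (t y0)] at h2
    simpa only [y, Sum.elim_inl, Sum.elim_inr, hX', mul_sub, mul_sum, mul_assoc] using h2

end Pool.Agent.CA9.UB
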