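import Pool.Agent.Lib.MP_ca9be0_an.UB.R0

/-! Polynomial functions along a pencil: division, growth, jets of quotients. -/

namespace Pool.Agent.CA9.UB

open Finset Matrix Polynomial Pool.Agent.Lib.MP_ca9be0_an.PyF

variable {N d : ℕ} {s L : ℝ} {t : E N →ₗ[ℝ] ℝ} {e : E N}

lemma lin_mem (t : E N →ₗ[ℝ] ℝ) : (fun y => t y) ∈ Pd N 1 := by
  have h : ∀ y : E N, t y = ∑ i, t (EuclideanSpace.single i 1) * gen N (some i) y := fun y => by
    have : y = ∑ i, y i • EuclideanSpace.single i (1 : ℝ) := by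
      ext j; simp [Pi.single_apply]
    conv_lhs => rw [this]
    simp only [map_sum, map_smul, smul_eq_mul, gen]
    exact sum_congr rfl fun i _ => mul_comm _ _
  rw [funext h]
  exact Pd_sum _ fun i _ => Pd_smul _ (gen_mem _)

lemma Pd_pol (t : E N →ₗ[ℝ] ℝ) {p : ℝ[X]} {k : ℕ} (hp : p.natDegree ≤ k) :
    (fun y => p.eval (t y)) ∈ Pd N k := by
  have h1 : ∀ j : ℕ, (fun y => t y ^ j) ∈ Pd N j := fun j => by
    induction j with
    | zero => simpa using const_mem 0 1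
    | succ j ih => simpa only [pow_succ] using Pd_mul ih (lin_mem t)
  simp only [eval_eq_sum_range' (Nat.lt_succ_of_le hp)]
  exact Pd_sum _ fun j hj => Pd_smul _ (Pd_mono (Nat.lt_succ_iff.1 (mem_range.1 hj)) (h1 j))

lemma Pd_div (he : t e = 1) {q : ℝ[X]} (hq : q.Monic) {u : E N → ℝ} (hu : u ∈ Pd N d) :
    ∀ (j : ℕ) (b : ℝ[X]), b.natDegree ≤ q.natDegree + j → ∃ S ∈ Pd N (d + j), ∀ z, t z = 0 →
      ∃ r : ℝ[X], r.degree < q.degree ∧ ∀ τ : ℝ,
        q.eval τ * S (z + τ • e) - b.eval τ * u (z + τ • e) = r.eval τ := by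
  have ht : ∀ z (τ : ℝ), t z = 0 → t (z + τ • e) = τ := fun z τ hz => by simp [hz, he]
  refine Pd_ind (C := fun d u => ∀ (j : ℕ) (b : ℝ[X]), b.natDegree ≤ q.natDegree + j →
    ∃ S ∈ Pd N (d + j), ∀ z, t z = 0 → ∃ r : ℝ[X], r.degree < q.degree ∧ ∀ τ : ℝ,
      q.eval τ * S (z + τ • e) - b.eval τ * u (z + τ • e) = r.eval τ) ?_ ?_ ?_ ?_ hu
  · intro k c j b hb
    refine ⟨fun y => c * (b /ₘ q).eval (t y), Pd_smul c (Pd_pol t ?_), fun z hz =>
      ⟨(-c) • (b %ₘ q), (degree_smul_le _ _).trans_lt (degree_modByMonic_lt b hq), fun τ => ?_⟩⟩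
    · rw [natDegree_divByMonic b hq]; omega
    · have := congrArg (eval τ) (modByMonic_add_div b q)
      rw [eval_add, eval_mul] at this
      simp only [ht z τ hz, eval_smul, smul_eq_mul, ← this]; ring
  · intro k p p' h h' j b hb
    obtain ⟨S, a1, a2⟩ := h j b hb
    obtain ⟨S', b1, b2⟩ := h' j b hb
    refine ⟨fun y => S y + S' y, Pd_add a1 b1, fun z hz => ?_⟩
    obtain ⟨r, r1, r2⟩ := a2 z hz
    obtain ⟨r', r3, r4⟩ := b2 z hz
    exact ⟨r + r', (degree_add_le _ _).trans_lt (max_lt r1 r3), fun τ => by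
      rw [eval_add, ← r2, ← r4]; ring⟩
  · intro k c p h j b hb
    obtain ⟨S, a1, a2⟩ := h j b hb
    refine ⟨fun y => c * S y, Pd_smul c (Pd_mono (by omega) a1), fun z hz => ?_⟩
    obtain ⟨r, r1, r2⟩ := a2 z hz
    exact ⟨c • r, (degree_smul_le _ _).trans_lt r1, fun τ => by
      rw [eval_smul, smul_eq_mul, ← r2]; ring⟩
  · intro k c i p h j b hb
    obtain ⟨S, a1, a2⟩ := h j b hb
    obtain ⟨S', b1, b2⟩ := h (j + 1) (X * b) (natDegree_mul_le.trans (by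
      rw [natDegree_X]; omega))
    have m1 : (fun y : E N => y i - e i * t y) ∈ Pd N 1 :=
      Pd_sub (gen_mem (some i)) (Pd_smul _ (lin_mem t))
    refine ⟨fun y => c * ((y i - e i * t y) * S y + e i * S' y), Pd_smul c (Pd_add
      (Pd_mono (by omega) (Pd_mul m1 a1)) (Pd_smul _ (Pd_mono (by omega) b1))), fun z hz => ?_⟩
    obtain ⟨r, r1, r2⟩ := a2 z hz
    obtain ⟨r', r3, r4⟩ := b2 z hz
    refine ⟨c • (z i • r + e i • r'), (degree_smul_le _ _).trans_lt ((degree_add_le _ _).trans_lt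
      (max_lt ((degree_smul_le _ _).trans_lt r1) ((degree_smul_le _ _).trans_lt r3))), fun τ => ?_⟩
    simp only [eval_smul, eval_add, smul_eq_mul, ← r2, ← r4, ht z τ hz, eval_mul, eval_X,
      PiLp.add_apply, PiLp.smul_apply]
    ring

lemma pb_gs (H : Hs d s) {u : E N → ℝ} {x : E N} {r c : ℝ} (h : PB u x r (c * r ^ s))
    (hu : u ∈ Pd N d) (hr : 0 < r) (y : E N) : |u y| ≤ Kg N d * c * (r + ‖y - x‖) ^ s := by
  have h0 := norm_nonneg (y - x)
  have h1 : 0 < r + ‖y - x‖ := by linarith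
  have hc : 0 ≤ c := nonneg_of_mul_nonneg_left (h.nonneg hr.le) (Real.rpow_pos_of_pos hr s)
  refine (h.grow_s hu hr (by linarith) y (by linarith : ‖y - x‖ ≤ r + ‖y - x‖)).trans ?_
  have h2 : (r / (r + ‖y - x‖)) ^ (s - d) ≤ 1 :=
    Real.rpow_le_one (by positivity) ((div_le_one h1).2 (by linarith)) (by linarith [H.1])
  have := Kg_pos N d
  exact mul_le_mul_of_nonneg_right (mul_le_of_le_one_right (by positivity) h2) (by positivity)

lemma Pen.nn (h : Pen L t e) : 0 ≤ L := (norm_nonneg _).trans h.ne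

lemma Pen.one_le (h : Pen L t e) : 1 ≤ L := by
  have h1 := h.nt e
  rw [h.one, abs_one] at h1
  by_contra h2
  nlinarith [h.ne, h.nn, norm_nonneg e]

lemma proj_mem (t : E N →ₗ[ℝ] ℝ) (e : E N) (a : ℝ) {u : E N → ℝ} (hu : u ∈ Pd N d) :
    (fun y => u (y + (a - t y) • e)) ∈ Pd N d := by
  refine Pd_lin (T := fun y => y + (a - t y) • e) (fun i => ?_) hu
  simp only [PiLp.add_apply, PiLp.smul_apply, smul_eq_mul, mul_comm _ (e i)]
  exact Pd_add (gen_mem (some i)) (Pd_smul _ (Pd_sub (const_mem 1 a) (lin_mem t)))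

/-- the radius that controls a whole fibre -/
def rad (L C : ℝ) : ℝ := 1 + L * (C + L)

lemma fib_grow (H : Hs d s) (h : Pen L t e) {u : E N → ℝ} (hu : u ∈ Pd N d) {p : E N}
    {ρ a c C : ℝ} (hρ : 0 < ρ) (ha : |a - t p| ≤ C * ρ)
    (hb : ∀ y, t y = a → ‖y - p‖ ≤ rad L C * ρ → |u y| ≤ c * ρ ^ s) (y : E N) (hy : t y = a) :
    |u y| ≤ Kg N d * c * (ρ + ‖y - p‖) ^ s := by
  have h1 : PB (fun y => u (y + (a - t y) • e)) p ρ (c * ρ ^ s) := fun z hz => by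
    refine hb _ (by simp [h.one]) ?_
    have h2 : |a - t z| ≤ C * ρ + L * ρ := by
      have h3 := h.nt (z - p)
      rw [map_sub] at h3
      have h4 := abs_sub (a - t p) (t z - t p)
      rw [sub_sub_sub_cancel_right] at h4
      nlinarith [h.nn]
    calc _ = ‖(z - p) + (a - t z) • e‖ := by rw [add_sub_right_comm]
      _ ≤ ρ + |a - t z| * ‖e‖ := (norm_add_le _ _).trans (by rw [norm_smul]; exact add_le_add hz le_rfl)
      _ ≤ ρ + (C * ρ + L * ρ) * L :=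
          add_le_add le_rfl (mul_le_mul h2 h.ne (norm_nonneg _) ((abs_nonneg _).trans h2))
      _ = _ := by rw [rad]; ring
  simpa [hy] using pb_gs H h1 (proj_mem t e a hu) hρ y

theorem quot_jet (N d k : ℕ) (c C : ℝ) (hc : 0 < c) : ∃ K η : ℝ, 0 < K ∧ 0 < η ∧ η ≤ 1 ∧
    ∀ (u w : E N → ℝ) (x : E N) (r m : ℝ), u ∈ Pd N k → w ∈ Pd N k → 0 ≤ r → PB u x r m →
      PB w x r C → (∀ y, ‖y - x‖ ≤ r → c ≤ |w y|) →
      J d true (fun y => u y / w y) x (η * r) (K * m) := by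
  let ι := {z : (E N → ℝ) × (E N → ℝ) × E N × ℝ × ℝ // z.1 ∈ Pd N k ∧ z.2.1 ∈ Pd N k ∧
    0 ≤ z.2.2.2.1 ∧ PB z.1 z.2.2.1 z.2.2.2.1 z.2.2.2.2 ∧ PB z.2.1 z.2.2.1 z.2.2.2.1 C ∧
    ∀ y, ‖y - z.2.2.1‖ ≤ z.2.2.2.1 → c ≤ |z.2.1 y|}
  have hr : ∀ i : ι, 0 ≤ i.1.2.2.2.1 := fun i => i.2.2.2.1
  have h1 : TN d true (fun i : ι => i.1.2.2.1) (fun i => i.1.2.2.2.1) (fun i => i.1.1)
      fun i => i.1.2.2.2.2 :=
    TN.poly (fun i => i.2.1) hr (fun i => i.2.2.2.2.1.nonneg (hr i)) one_pos (C := 1)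
      fun i => by simpa using i.2.2.2.2.1
  have h2 : T1 d (fun i : ι => i.1.2.2.1) (fun i => i.1.2.2.2.1) fun i => i.1.2.1 :=
    TN.poly (fun i => i.2.2.1) hr (fun _ => zero_le_one) one_pos (C := C)
      fun i => by simpa using i.2.2.2.2.2.1
  have h3 := T1.inv (h2.mul1 h2) (c := c * c) (by positivity) one_pos fun i y hy => by
    have := i.2.2.2.2.2.2 y (by simpa using hy)
    exact (mul_le_mul this this hc.le (abs_nonneg _)).trans (abs_mul_abs_self _).le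
  obtain ⟨K, η, a1, a2, a3, a4⟩ := ((h2.mul1 h3).mul1 h1).out one_pos
  refine ⟨K, η, a1, a2, a3, fun u w x r m b1 b2 b3 b4 b5 b6 =>
    (a4 ⟨(u, w, x, r, m), b1, b2, b3, b4, b5, b6⟩).congr fun y hy => ?_⟩
  have h4 : w y ≠ 0 := abs_pos.1 (hc.trans_le (b6 y (hy.trans (mul_le_of_le_one_left b3 a3))))
  show w y * (w y * w y)⁻¹ * u y = u y / w y
  field_simp

lemma loc_jet (H : Hs d s) {a : E N → ℝ} {x : E N} {c r K : ℝ} (hc : 0 < c) (hc1 : c ≤ 1)
    (hr : 0 < r) (h : J d true a x (c * r) (K * r ^ s)) : ∃ p ∈ Pd N d,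
      (∀ y, |p y| ≤ Kg N d * (K / c ^ s) * (r + ‖y - x‖) ^ s) ∧
      ∀ y, ‖y - x‖ ≤ c * r → |a y - p y| ≤ K / c ^ s * ‖y - x‖ ^ s := by
  have h1 : 0 < c * r := mul_pos hc hr
  have h2 := Real.rpow_pos_of_pos hc s
  have h3 : K * r ^ s = K / c ^ s * (c * r) ^ s := by
    rw [Real.mul_rpow hc.le hr.le]; field_simp
  have hK : 0 ≤ K / c ^ s := div_nonneg
    (nonneg_of_mul_nonneg_left (h.nonneg h1.le) (Real.rpow_pos_of_pos hr s)) h2.le
  rw [h3] at h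
  obtain ⟨p, hp, h⟩ := h
  refine ⟨p, hp, fun y => (pb_gs H (fun y hy => (h y hy).1) hp h1 y).trans ?_, fun y hy =>
    (h y hy).2.trans ?_⟩
  · have := Kg_pos N d
    refine mul_le_mul_of_nonneg_left (Real.rpow_le_rpow (by positivity) ?_ H.pos.le)
      (by positivity)
    nlinarith
  · rw [mul_assoc]
    exact mul_le_mul_of_nonneg_left (ratio_pow_le H.pos H.2 (norm_nonneg _) hy) hK

end Pool.Agent.CA9.UB
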