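import Pool.Agent.Lib.MP_ca9be0_an.UB.RF

/-! Stability of the sampled relation. -/

namespace Pool.Agent.CA9.UB

open Finset Matrix Polynomial Pool.Agent.Lib.MP_ca9be0_an.PyF

variable {N d : ℕ} {s : ℝ} {V W : Type} [Fintype V] [Fintype W]

lemma mv_le {A : Matrix V W ℝ} {x : W → ℝ} {a b : ℝ} (hA : ∀ v w, |A v w| ≤ a)
    (hx : ∀ w, |x w| ≤ b) (v : V) : |∑ w, A v w * x w| ≤ Fintype.card W * (a * b) := by
  refine (abs_sum_le_sum_abs _ _).trans ((sum_le_card_nsmul _ _ (a * b) fun w _ => ?_).trans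
    (le_of_eq (by simp)))
  rw [abs_mul]
  exact mul_le_mul (hA v w) (hx w) (abs_nonneg _) ((abs_nonneg _).trans (hA v w))

lemma orth_le [DecidableEq V] {R : Matrix V V ℝ} (h : Rᵀ * R = 1) (v w : V) : |R v w| ≤ 1 := by
  have h1 : ∑ u, R u w * R u w = 1 := by simpa [mul_apply] using congrFun (congrFun h w) w
  rw [← sq_le_one_iff_abs_le_one, sq, ← h1]
  exact single_le_sum (f := fun u => R u w * R u w) (fun u _ => mul_self_nonneg _) (mem_univ v)

lemma At.mono {U : Matrix V W ℝ} {S : V → E N → ℝ} {T : W → E N → ℝ} {y : E N} {a b : ℝ}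
    (h : At U S T y a) (hab : a ≤ b) : At U S T y b :=
  ⟨fun v => (h.1 v).trans hab, fun w => (h.2 w).trans hab⟩

lemma rg_mul {V' : Type} {A : Matrix V' V ℝ} {U : Matrix V W ℝ} {a b : ℝ} (hA : ∀ v w, |A v w| ≤ a)
    (hU : ∀ v w, |U v w| ≤ b) (v : V') (w : W) : |(A * U) v w| ≤ Fintype.card V * (a * b) := by
  refine (abs_sum_le_sum_abs _ _).trans ((sum_le_card_nsmul _ _ (a * b) fun u _ => ?_).trans
    (le_of_eq (by simp)))
  rw [abs_mul]
  exact mul_le_mul (hA v u) (hU u w) (abs_nonneg _) ((abs_nonneg _).trans (hA v u))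

lemma rg_abs {x a b c A B C : ℝ} (h : x = a + b + c) (ha : |a| ≤ A) (hb : |b| ≤ B) (hc : |c| ≤ C) :
    |x| ≤ A + B + C := by
  rw [h]
  exact (abs_add_three a b c).trans (add_le_add (add_le_add ha hb) hc)

/-- the constant of a rotation -/
def rgK (V W : Type) [Fintype V] [Fintype W] (C : ℝ) : ℝ :=
  2 + Fintype.card V + Fintype.card W * (Fintype.card V * |C|) +
    Fintype.card V * (|C| * Fintype.card V)

lemma rgK_nn (V W : Type) [Fintype V] [Fintype W] (C : ℝ) : 0 ≤ rgK V W C := by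
  unfold rgK
  positivity

lemma At.rot [DecidableEq V] {R : Matrix V V ℝ} {U : Matrix V W ℝ} {S S' : V → E N → ℝ}
    {T T' : W → E N → ℝ} {y : E N} {C ε : ℝ} (hR : Rᵀ * R = 1) (hU : ∀ v w, |U v w| ≤ |C|)
    (h : At U S T y ε) (hε : 0 ≤ ε) (h1 : ∀ v, |∑ w, R v w * S w y - S' v y| ≤ ε)
    (h2 : ∀ w, |T w y - T' w y| ≤ ε) : At (R * U) S' T' y (rgK V W C * ε) := by
  have hV : (0 : ℝ) ≤ Fintype.card V := Nat.cast_nonneg _
  have hW : (0 : ℝ) ≤ Fintype.card W := Nat.cast_nonneg _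
  have hC := abs_nonneg C
  refine ⟨fun v => ?_, fun w => ?_⟩
  · have e : (fun v => S' v y) - (R * U) *ᵥ (fun w => T' w y) =
        -(R *ᵥ (fun v => S v y) - fun v => S' v y) +
        R *ᵥ ((fun v => S v y) - U *ᵥ fun w => T w y) +
        (R * U) *ᵥ ((fun w => T w y) - fun w => T' w y) := by
      simp only [mulVec_sub, mulVec_mulVec]
      abel
    refine (rg_abs (congrFun e v) ((abs_neg _).trans_le (h1 v)) (mv_le (orth_le hR) h.1 v)
      (mv_le (rg_mul (orth_le hR) hU) h2 v)).trans ?_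
    have : 0 ≤ ε + Fintype.card V * (|C| * Fintype.card V) * ε := by positivity
    unfold rgK
    linarith
  · have e : (fun w => T' w y) - (R * U)ᵀ *ᵥ (fun v => S' v y) =
        -((fun w => T w y) - fun w => T' w y) +
        ((fun w => T w y) - Uᵀ *ᵥ fun v => S v y) +
        Uᵀ *ᵥ Rᵀ *ᵥ (R *ᵥ (fun v => S v y) - fun v => S' v y) := by
      simp only [mulVec_sub, mulVec_mulVec, transpose_mul, hR, Matrix.mul_one]
      abel
    refine (rg_abs (congrFun e w) ((abs_neg _).trans_le (h2 w)) (h.2 w)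
      (mv_le (A := Uᵀ) (fun a b => hU b a)
        (mv_le (A := Rᵀ) (fun a b => orth_le hR b a) h1) w)).trans ?_
    have : 0 ≤ Fintype.card V * ε + Fintype.card W * (Fintype.card V * |C|) * ε := by positivity
    unfold rgK
    linarith

lemma At.fib (H : Hs d s) {L : ℝ} {t : E N →ₗ[ℝ] ℝ} {e : E N} (hp : Pen L t e)
    {U : Matrix V W ℝ} {S : V → E N → ℝ} {T : W → E N → ℝ} (hS : PV d S) (hT : PV d T) {p : E N}
    {ρ a c C : ℝ} (hρ : 0 < ρ) (ha : |a - t p| ≤ C * ρ)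
    (h : ∀ y, t y = a → ‖y - p‖ ≤ rad L C * ρ → At U S T y (c * ρ ^ s)) (y : E N) (hy : t y = a) :
    At U S T y (Kg N d * c * (ρ + ‖y - p‖) ^ s) :=
  ⟨fun v => fib_grow H hp (Pd_sub (hS v) (Pd_sum univ fun w _ => Pd_smul (U v w) (hT w))) hρ ha
    (fun y h1 h2 => (h y h1 h2).1 v) y hy,
   fun w => fib_grow H hp (Pd_sub (hT w) (Pd_sum univ fun v _ => Pd_smul (U v w) (hS v))) hρ ha
    (fun y h1 h2 => (h y h1 h2).2 w) y hy⟩

lemma rg_pow (hs : 0 ≤ s) {C x R ρ : ℝ} (hx : 0 ≤ x) (hρ : 0 < ρ) (h : x ≤ R * ρ) :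
    C * x ^ s ≤ |C| * |R| ^ s * ρ ^ s := by
  rw [mul_assoc, ← Real.mul_rpow (abs_nonneg R) hρ.le]
  exact mul_le_mul (le_abs_self C) (Real.rpow_le_rpow hx
    (h.trans (mul_le_mul_of_nonneg_right (le_abs_self R) hρ.le)) hs) (by positivity) (abs_nonneg C)

theorem Rel.mono {K K' : ℕ} {C C' ρ : ℝ} {t : E N →ₗ[ℝ] ℝ} {S : V → E N → ℝ} {T : W → E N → ℝ}
    {p : E N} (h : Rel s K C t S T p ρ) (hρ : 0 < ρ) (hK : K' ≤ K) (hC : C ≤ C') :
    Rel s K' C' t S T p ρ := by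
  obtain ⟨G, a, h1, h2, h3⟩ := h
  refine ⟨G, a, hK.trans h1, fun i hi j hj hij => (h2 i hi j hj hij).trans
    (mul_le_mul_of_nonneg_right hC (abs_nonneg _)), fun i hi => ?_⟩
  obtain ⟨h4, U, h5, h6⟩ := h3 i hi
  exact ⟨h4.trans (mul_le_mul_of_nonneg_right hC hρ.le), U, fun v w => (h5 v w).trans hC,
    fun y hy => (h6 y hy).mono (mul_le_mul_of_nonneg_right hC (by positivity))⟩

theorem Rel.scale {K : ℕ} {C ρ r : ℝ} {t : E N →ₗ[ℝ] ℝ} {S : V → E N → ℝ} {T : W → E N → ℝ}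
    {p : E N} (h : Rel s K C t S T p ρ) (hρ : 0 < ρ) (hr : 0 < r) (x : E N) :
    Rel s K C t (fun v => scl s r x (S v)) (fun w => scl s r x (T w)) (r⁻¹ • (p - x)) (ρ / r) := by
  obtain ⟨G, a, h1, h2, h3⟩ := h
  refine ⟨G, fun i => (a i - t x) / r, h1, fun i hi j hj hij => ?_, fun i hi => ?_⟩
  · rw [← sub_div, sub_sub_sub_cancel_right, abs_div, abs_of_pos hr, ← mul_div_assoc]
    exact div_le_div_of_nonneg_right (h2 i hi j hj hij) hr.le
  obtain ⟨h4, U, h5, h6⟩ := h3 i hi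
  refine ⟨?_, U, h5, fun y hy => ?_⟩
  · rw [map_smul, map_sub, smul_eq_mul, ← div_eq_inv_mul, ← sub_div, sub_sub_sub_cancel_right,
      abs_div, abs_of_pos hr, ← mul_div_assoc]
    exact div_le_div_of_nonneg_right h4 hr.le
  have h7 := h6 (x + r • y) (by
    rw [map_add, map_smul, smul_eq_mul, hy, mul_div_cancel₀ _ hr.ne', add_sub_cancel])
  have h8 : ρ + ‖x + r • y - p‖ = r * (ρ / r + ‖y - r⁻¹ • (p - x)‖) := by
    rw [mul_add, mul_div_cancel₀ _ hr.ne', ← abs_of_pos hr, ← Real.norm_eq_abs, ← norm_smul,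
      Real.norm_eq_abs, abs_of_pos hr, smul_sub, smul_inv_smul₀ hr.ne']
    congr 2
    abel
  have h9 := Real.rpow_pos_of_pos hr s
  rw [h8, Real.mul_rpow hr.le (by positivity), mul_left_comm] at h7
  refine ⟨fun v => ?_, fun w => ?_⟩
  · simp only [scl, ← mul_div_assoc, ← sum_div, ← sub_div]
    rw [abs_div, abs_of_pos h9, div_le_iff₀' h9]
    exact h7.1 v
  · simp only [scl, ← mul_div_assoc, ← sum_div, ← sub_div]
    rw [abs_div, abs_of_pos h9, div_le_iff₀' h9]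
    exact h7.2 w

theorem rel_one (s : ℝ) (K : ℕ) {t : E N →ₗ[ℝ] ℝ} {S : V → E N → ℝ} {T : W → E N → ℝ}
    (h : ∀ a : ℝ, ∃ U : Matrix V W ℝ, (∀ v w, |U v w| ≤ 1) ∧ ∀ y, t y = a → At U S T y 0)
    (p : E N) {ρ : ℝ} (hρ : 0 < ρ) : Rel s K (K + 1) t S T p ρ := by
  have hK : (0 : ℝ) ≤ K := Nat.cast_nonneg K
  refine ⟨range K, fun i => t p + i * ρ, by simp, fun i _ j _ hij => ?_, fun i hi => ?_⟩
  · have h1 : (1 : ℝ) ≤ |(i : ℝ) - j| := by
      have : (1 : ℤ) ≤ |(i : ℤ) - j| := Int.one_le_abs (by omega)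
      exact_mod_cast this
    rw [add_sub_add_left_eq_sub, ← sub_mul, abs_mul, abs_of_pos hρ]
    have h2 : ρ ≤ |(i : ℝ) - j| * ρ := le_mul_of_one_le_left hρ.le h1
    nlinarith
  obtain ⟨U, h1, h2⟩ := h (t p + i * ρ)
  refine ⟨?_, U, fun v w => (h1 v w).trans (by linarith), fun y hy => (h2 y hy).mono
    (by positivity)⟩
  have h3 : (i : ℝ) ≤ K := by exact_mod_cast (mem_range.1 hi).le
  rw [add_sub_cancel_left, abs_of_nonneg (by positivity)]
  exact mul_le_mul_of_nonneg_right (by linarith) hρ.le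

theorem rel_comp (hs : 0 ≤ s) (N : ℕ) (V W : Type) [Fintype V] [Fintype W] (C Cg L : ℝ) :
    ∃ C' : ℝ, ∀ (K : ℕ) (t : E N →ₗ[ℝ] ℝ) (e : E N) (S₀ S₁ : V → E N → ℝ) (T₀ T₁ : W → E N → ℝ)
      (p : E N), Pen L t e → ‖p‖ = 1 →
      (∀ a : ℝ, ∃ U : Matrix V W ℝ, (∀ v w, |U v w| ≤ 1) ∧ ∀ y, t y = a → At U S₀ T₀ y 0) →
      Rel s K C t S₁ T₁ p 1 → (∀ w y, |T₀ w y - T₁ w y| ≤ Cg * (1 + ‖y‖) ^ s) →
      Rel s K C' t S₀ S₁ 0 1 := by
  obtain ⟨c, hc⟩ : ∃ c : ℝ, c = |C| * |(2 : ℝ)| ^ s + |Cg| := ⟨_, rfl⟩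
  have c0 : 0 ≤ c := by rw [hc]; positivity
  have hW : (0 : ℝ) ≤ Fintype.card W := Nat.cast_nonneg _
  have hC := abs_nonneg C
  have hL := abs_nonneg L
  have h0 : 0 ≤ (1 + 2 * Fintype.card W + Fintype.card W * |C|) * c := by positivity
  have h0' : 0 ≤ Fintype.card W * |C| := by positivity
  refine ⟨|C| + |L| + Fintype.card W * |C| + (1 + 2 * Fintype.card W + Fintype.card W * |C|) * c,
    fun K t e S₀ S₁ T₀ T₁ p hp hn hU ⟨G, a, h1, h2, h3⟩ hT => ⟨G, a, h1, fun i hi j hj hij =>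
      (h2 i hi j hj hij).trans (mul_le_mul_of_nonneg_right (by linarith [le_abs_self C])
        (abs_nonneg _)), fun i hi => ?_⟩⟩
  obtain ⟨h4, U₁, h5, h6⟩ := h3 i hi
  obtain ⟨U₀, h7, h8⟩ := hU (a i)
  have h5' : ∀ v w, |U₁ v w| ≤ |C| := fun v w => (h5 v w).trans (le_abs_self C)
  refine ⟨?_, U₀ * U₁ᵀ, fun v w => (rg_mul h7 (fun a b => h5' b a) v w).trans (by linarith),
    fun y hy => ?_⟩
  · have h9 := hp.nt p
    have h10 := abs_add_le (a i - t p) (t p)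
    rw [hn] at h9
    rw [sub_add_cancel] at h10
    rw [map_zero, sub_zero]
    linarith [le_abs_self C, le_abs_self L]
  rw [sub_zero]
  have p0 : 0 < 1 + ‖y‖ := by positivity
  have p1 := Real.rpow_pos_of_pos p0 s
  have b1 : At U₁ S₁ T₁ y (c * (1 + ‖y‖) ^ s) := (h6 y hy).mono ((rg_pow (R := 2) hs
    (by positivity) p0 (by linarith [norm_sub_le y p, norm_nonneg y])).trans
      (mul_le_mul_of_nonneg_right (by linarith [abs_nonneg Cg]) p1.le))
  have b2 : ∀ w, |T₀ w y - T₁ w y| ≤ c * (1 + ‖y‖) ^ s := fun w => (hT w y).trans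
    (mul_le_mul_of_nonneg_right ((le_abs_self Cg).trans
      (hc ▸ le_add_of_nonneg_left (by positivity))) p1.le)
  have b0 := h8 y hy
  generalize (1 + ‖y‖) ^ s = q at *
  have q1 : 0 ≤ (|C| + |L| + Fintype.card W * |C|) * q := by positivity
  refine ⟨fun v => ?_, fun v => ?_⟩
  · have e : (fun v => S₀ v y) - (U₀ * U₁ᵀ) *ᵥ (fun v => S₁ v y) =
        ((fun v => S₀ v y) - U₀ *ᵥ fun w => T₀ w y) +
        U₀ *ᵥ ((fun w => T₀ w y) - fun w => T₁ w y) +
        U₀ *ᵥ ((fun w => T₁ w y) - U₁ᵀ *ᵥ fun v => S₁ v y) := by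
      simp only [mulVec_sub, mulVec_mulVec]
      abel
    refine (rg_abs (congrFun e v) (b0.1 v) (mv_le h7 b2 v) (mv_le h7 b1.2 v)).trans ?_
    have : 0 ≤ (1 + Fintype.card W * |C|) * c * q := by positivity
    linarith
  · have e : (fun v => S₁ v y) - (U₀ * U₁ᵀ)ᵀ *ᵥ (fun v => S₀ v y) =
        ((fun v => S₁ v y) - U₁ *ᵥ fun w => T₁ w y) +
        -(U₁ *ᵥ ((fun w => T₀ w y) - fun w => T₁ w y)) +
        U₁ *ᵥ ((fun w => T₀ w y) - U₀ᵀ *ᵥ fun v => S₀ v y) := by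
      simp only [mulVec_sub, mulVec_mulVec, transpose_mul, transpose_transpose]
      abel
    refine (rg_abs (congrFun e v) (b1.1 v) ((abs_neg _).trans_le (mv_le h5' b2 v))
      (mv_le h5' b0.2 v)).trans ?_
    have : 0 ≤ 2 * Fintype.card W * c * q := by positivity
    linarith

theorem rel_small (H : Hs d s) (N : ℕ) (V W : Type) [Fintype V] [Fintype W] [DecidableEq V]
    (C B L : ℝ) : ∃ C' : ℝ, ∀ (K : ℕ) (t : E N →ₗ[ℝ] ℝ) (e : E N) (S S' : V → E N → ℝ)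
      (T : W → E N → ℝ) (p : E N) (ρ r : ℝ) (R : ℝ → Matrix V V ℝ), Pen L t e → PV d S' → PV d T →
      0 < ρ → rad L C * ρ ≤ r → Rel s K C t S T p ρ →
      (∀ y, ‖y - p‖ ≤ r → (R (t y))ᵀ * R (t y) = 1 ∧
        ∀ v, |∑ w, R (t y) v w * S w y - S' v y| ≤ B * ‖y - p‖ ^ s) →
      Rel s K C' t S' T p ρ := by
  obtain ⟨c, hc⟩ : ∃ c : ℝ, c = |C| * |1 + rad L C| ^ s + |B| * |rad L C| ^ s := ⟨_, rfl⟩
  have c0 : 0 ≤ c := by rw [hc]; positivity
  have h0 : 0 ≤ Kg N d * (rgK V W C * c) :=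
    mul_nonneg (Kg_pos N d).le (mul_nonneg (rgK_nn V W C) c0)
  have h0' : 0 ≤ Fintype.card V * |C| := by positivity
  have hC := abs_nonneg C
  refine ⟨|C| + Fintype.card V * |C| + Kg N d * (rgK V W C * c),
    fun K t e S S' T p ρ r R hp hS hT hρ hr ⟨G, a, h1, h2, h3⟩ hR => ⟨G, a, h1,
      fun i hi j hj hij => (h2 i hi j hj hij).trans (mul_le_mul_of_nonneg_right
        (by linarith [le_abs_self C]) (abs_nonneg _)), fun i hi => ?_⟩⟩
  obtain ⟨h4, U, h5, h6⟩ := h3 i hi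
  have h5' : ∀ v w, |U v w| ≤ |C| := fun v w => (h5 v w).trans (le_abs_self C)
  have h7 : (R (a i))ᵀ * R (a i) = 1 := by
    have h8 := (hR (p + (a i - t p) • e) (le_trans ?_ hr)).1
    · simpa [hp.one] using h8
    rw [add_sub_cancel_left, norm_smul, Real.norm_eq_abs, rad]
    have h9 := mul_le_mul h4 hp.ne (norm_nonneg _) ((abs_nonneg _).trans h4)
    have h10 : 0 ≤ L * L * ρ := mul_nonneg (mul_self_nonneg L) hρ.le
    linarith
  refine ⟨h4.trans (mul_le_mul_of_nonneg_right (by linarith [le_abs_self C]) hρ.le), R (a i) * U,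
    fun v w => (rg_mul (orth_le h7) h5' v w).trans (by linarith), fun y hy =>
      (At.fib H hp hS hT hρ h4 (c := rgK V W C * c) (fun y hy hb => ?_) y hy).mono
        (mul_le_mul_of_nonneg_right (by linarith) (by positivity))⟩
  have p1 := Real.rpow_pos_of_pos hρ s
  rw [mul_assoc]
  refine At.rot h7 h5' ((h6 y hy).mono ((rg_pow (R := 1 + rad L C) H.pos.le (by positivity) hρ
    (by linarith)).trans (mul_le_mul_of_nonneg_right
      (hc ▸ le_add_of_nonneg_right (by positivity)) p1.le))) (by positivity) (fun v => ?_)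
    fun w => by rw [sub_self, abs_zero]; positivity
  rw [← hy]
  exact ((hR y (hb.trans hr)).2 v).trans ((rg_pow H.pos.le (norm_nonneg _) hρ hb).trans
    (mul_le_mul_of_nonneg_right (hc ▸ le_add_of_nonneg_left (by positivity)) p1.le))

theorem rel_large (H : Hs d s) (N : ℕ) (V W : Type) [Fintype V] [Fintype W] [DecidableEq V]
    (C B B' L : ℝ) : ∃ C' : ℝ, ∀ (K k : ℕ) (t : E N →ₗ[ℝ] ℝ) (e : E N) (S S' : V → E N → ℝ)
      (T T' : W → E N → ℝ) (p p' : E N) (ρ : ℝ) (R : ℝ → Matrix V V ℝ) (ζ : Fin k → ℝ),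
      Pen L t e → PV d S' → PV d T' → 0 < ρ → ‖p' - p‖ ≤ B' * ρ → Rel s (K + k) C t S T p ρ →
      (∀ a : ℝ, (∀ j, a ≠ ζ j) → (R a)ᵀ * R a = 1) →
      (∀ y, ‖y - p'‖ ≤ rad L (C + L * B') * ρ → (∀ j, ρ ≤ 2 * C * |t y - ζ j|) →
        (∀ v, |∑ w, R (t y) v w * S w y - S' v y| ≤ B * ρ ^ s) ∧
          ∀ w, |T w y - T' w y| ≤ B * ρ ^ s) →
      Rel s K C' t S' T' p' ρ := by
  classical
  obtain ⟨c, hc⟩ : ∃ c : ℝ, c = |C| * |1 + rad L (C + L * B') + B'| ^ s + |B| := ⟨_, rfl⟩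
  have c0 : 0 ≤ c := by rw [hc]; positivity
  have h0 : 0 ≤ Kg N d * (rgK V W C * c) :=
    mul_nonneg (Kg_pos N d).le (mul_nonneg (rgK_nn V W C) c0)
  have h0' : 0 ≤ Fintype.card V * |C| := by positivity
  have hC := abs_nonneg C
  have hB := abs_nonneg (L * B')
  refine ⟨|C| + |L * B'| + Fintype.card V * |C| + Kg N d * (rgK V W C * c),
    fun K k t e S S' T T' p p' ρ R ζ hp hS hT hρ hn ⟨G, a, h1, h2, h3⟩ hR hE =>
      ⟨G.filter fun i => ∀ j, ρ ≤ 2 * C * |a i - ζ j|, a, ?_, fun i hi j hj hij =>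
        (h2 i (mem_filter.1 hi).1 j (mem_filter.1 hj).1 hij).trans (mul_le_mul_of_nonneg_right
          (by linarith [le_abs_self C]) (abs_nonneg _)), fun i hi => ?_⟩⟩
  · have h4 := card_filter_add_card_filter_not (s := G) fun i => ∀ j, ρ ≤ 2 * C * |a i - ζ j|
    have h5 : (G.filter fun i => ¬ ∀ j, ρ ≤ 2 * C * |a i - ζ j|).card ≤ k := by
      refine (card_le_card (t := univ.biUnion fun j => G.filter fun i => 2 * C * |a i - ζ j| < ρ)
        fun i hi => ?_).trans ((card_biUnion_le_card_mul _ _ 1 fun j _ => card_le_one.2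
          fun i hi i' hi' => ?_).trans (by simp))
      · obtain ⟨h6, h7⟩ := mem_filter.1 hi
        obtain ⟨j, hj⟩ := not_forall.1 h7
        exact mem_biUnion.2 ⟨j, mem_univ _, mem_filter.2 ⟨h6, not_le.1 hj⟩⟩
      · by_contra hne
        obtain ⟨h6, h7⟩ := mem_filter.1 hi
        obtain ⟨h8, h9⟩ := mem_filter.1 hi'
        have h10 := h2 i h6 i' h8 hne
        have h11 : 0 ≤ C := nonneg_of_mul_nonneg_left (hρ.le.trans h10) (abs_pos.2 fun h => by
          rw [h, abs_zero, mul_zero] at h10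
          linarith)
        have h12 := abs_sub (a i - ζ j) (a i' - ζ j)
        rw [sub_sub_sub_cancel_right] at h12
        have h13 := mul_le_mul_of_nonneg_left h12 h11
        linarith
    omega
  obtain ⟨hi, hζ⟩ := mem_filter.1 hi
  obtain ⟨h4, U, h5, h6⟩ := h3 i hi
  have h5' : ∀ v w, |U v w| ≤ |C| := fun v w => (h5 v w).trans (le_abs_self C)
  have h7 : (R (a i))ᵀ * R (a i) = 1 := hR _ fun j h => by
    have := hζ j
    rw [h, sub_self, abs_zero, mul_zero] at this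
    linarith
  have h8 : |a i - t p'| ≤ (C + L * B') * ρ := by
    have h9 := (hp.nt (p' - p)).trans (mul_le_mul_of_nonneg_left hn hp.nn)
    have h10 := abs_sub (a i - t p) (t p' - t p)
    rw [map_sub] at h9
    rw [sub_sub_sub_cancel_right] at h10
    linarith
  refine ⟨h8.trans (mul_le_mul_of_nonneg_right
    (by linarith [le_abs_self C, le_abs_self (L * B')]) hρ.le), R (a i) * U,
    fun v w => (rg_mul (orth_le h7) h5' v w).trans (by linarith), fun y hy =>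
      (At.fib H hp hS hT hρ h8 (c := rgK V W C * c) (fun y hy hb => ?_) y hy).mono
        (mul_le_mul_of_nonneg_right (by linarith) (by positivity))⟩
  have p1 := Real.rpow_pos_of_pos hρ s
  have h9 := hE y hb (hy ▸ hζ)
  have h10 : B * ρ ^ s ≤ c * ρ ^ s := mul_le_mul_of_nonneg_right
    ((le_abs_self B).trans (hc ▸ le_add_of_nonneg_left (by positivity))) p1.le
  have h11 := norm_add_le (y - p') (p' - p)
  rw [sub_add_sub_cancel] at h11
  rw [hy] at h9
  rw [mul_assoc]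
  exact At.rot h7 h5' ((h6 y hy).mono ((rg_pow (R := 1 + rad L (C + L * B') + B') H.pos.le
    (by positivity) hρ (by linarith)).trans (mul_le_mul_of_nonneg_right
      (hc ▸ le_add_of_nonneg_right (abs_nonneg B)) p1.le))) (by positivity)
    (fun v => (h9.1 v).trans h10) fun w => (h9.2 w).trans h10

end Pool.Agent.CA9.UB
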