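import Pool.Agent.Lib.MP_ca9be0_an.UB.RB
import Pool.Agent.Lib.MP_ca9be0_an.UB.RC
import Pool.Agent.Lib.MP_ca9be0_an.UB.RG
import Pool.Agent.Lib.MP_ca9be0_an.UB.AlgD

/-! Adding a leaf: the polynomial data. -/

namespace Pool.Agent.CA9.UB

open Finset Matrix Polynomial Pool.Agent.Lib.MP_ca9be0_an.PyF

variable {V : Type} [Fintype V] [DecidableEq V]

/-- evaluation of a polynomial matrix -/
noncomputable def ev (a : ℝ) (M : Matrix V V ℝ[X]) : Matrix V V ℝ := (evalRingHom a).mapMatrix M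

lemma ev_apply (a : ℝ) (M : Matrix V V ℝ[X]) (v w : V) : ev a M v w = (M v w).eval a := rfl

lemma ev_mul (a : ℝ) (M M' : Matrix V V ℝ[X]) : ev a (M * M') = ev a M * ev a M' := map_mul _ _ _

lemma ev_sub (a : ℝ) (M M' : Matrix V V ℝ[X]) : ev a (M - M') = ev a M - ev a M' := map_sub _ _ _

lemma ev_one (a : ℝ) : ev a (1 : Matrix V V ℝ[X]) = 1 := map_one _

lemma ev_tr (a : ℝ) (M : Matrix V V ℝ[X]) : ev a Mᵀ = (ev a M)ᵀ := rfl

lemma ev_smul (a : ℝ) (p : ℝ[X]) (M : Matrix V V ℝ[X]) : ev a (p • M) = p.eval a • ev a M := by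
  ext v w; simp [ev_apply]

lemma ev_gram {M : Matrix V V ℝ[X]} {p : ℝ[X]} (h : M * Mᵀ = p ^ 2 • (1 : Matrix V V ℝ[X]))
    (a : ℝ) : ev a M * (ev a M)ᵀ = p.eval a ^ 2 • (1 : Matrix V V ℝ) := by
  rw [← ev_tr, ← ev_mul, h, ev_smul, ev_one, eval_pow]

lemma ev_le {M : Matrix V V ℝ[X]} {p : ℝ[X]} (h : M * Mᵀ = p ^ 2 • (1 : Matrix V V ℝ[X]))
    (a : ℝ) (v w : V) : |(M v w).eval a| ≤ |p.eval a| := by
  have h1 : ∑ u, ev a M v u * ev a M v u = p.eval a ^ 2 := by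
    simpa [mul_apply] using congrFun (congrFun (ev_gram h a) v) v
  rw [← sq_le_sq, ← h1, sq]
  exact single_le_sum (f := fun u => ev a M v u * ev a M v u) (fun u _ => mul_self_nonneg _)
    (mem_univ w)

lemma ev_orth {M : Matrix V V ℝ[X]} {p : ℝ[X]} (h : M * Mᵀ = p ^ 2 • (1 : Matrix V V ℝ[X]))
    {a : ℝ} (ha : p.eval a ≠ 0) :
    ((p.eval a)⁻¹ • (ev a M)ᵀ)ᵀ * ((p.eval a)⁻¹ • (ev a M)ᵀ) = 1 := by
  rw [transpose_smul, transpose_transpose, Matrix.smul_mul, Matrix.mul_smul, ev_gram h, smul_smul,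
    smul_smul, show (p.eval a)⁻¹ * (p.eval a)⁻¹ * p.eval a ^ 2 = 1 by field_simp, one_smul]

lemma glue_id {q o δ : ℝ} {J M₁ M₂ U be rh : Matrix V V ℝ} (h2 : rhᵀ * J = o ^ 2 • beᵀ)
    (h3 : (q * o) • (1 : Matrix V V ℝ) = δ • M₁ - M₂ * Uᵀ) (h4 : J = M₁ * U - δ • M₂)
    (a b u : V → ℝ) : o ^ 2 • (q • u - beᵀ *ᵥ a) + q • (o • (rhᵀ *ᵥ b) - o ^ 2 • u) =
      rhᵀ *ᵥ (M₁ *ᵥ (δ • b - U *ᵥ a) + M₂ *ᵥ (δ • a - Uᵀ *ᵥ b)) := by
  have e1 : M₁ *ᵥ (δ • b - U *ᵥ a) + M₂ *ᵥ (δ • a - Uᵀ *ᵥ b) =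
      (δ • M₁ - M₂ * Uᵀ) *ᵥ b - (M₁ * U - δ • M₂) *ᵥ a := by
    simp only [mulVec_sub, sub_mulVec, mulVec_smul, smul_mulVec, mulVec_mulVec]
    abel
  rw [e1, ← h3, ← h4, mulVec_sub, mulVec_mulVec a, h2, smul_mulVec, smul_mulVec, one_mulVec,
    mulVec_smul]
  module

theorem glue0 (N d : ℕ) (V : Type) [Fintype V] [DecidableEq V] (D : ℕ) : ∃ D' : ℕ,
    ∀ C L η : ℝ, 0 < η → ∃ K c : ℝ, 0 ≤ K ∧ 0 < c ∧ ∀ (t : E N →ₗ[ℝ] ℝ) (e : E N)
      (S₀ S₁ : V → E N → ℝ), Pen L t e → PV d S₀ → PV d S₁ → PRel D C t S₀ S₁ →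
      ∃ (q o : ℝ[X]) (ζ : Fin q.natDegree → ℝ) (be rh : Matrix V V ℝ[X]) (S : V → E N → ℝ),
        q.natDegree ≤ D' ∧ o.natDegree ≤ D' ∧ PV d S ∧
        be * beᵀ = q ^ 2 • (1 : Matrix V V ℝ[X]) ∧ rh * rhᵀ = o ^ 2 • (1 : Matrix V V ℝ[X]) ∧
        (∀ v w, (be v w).natDegree ≤ q.natDegree) ∧ (∀ v w, (rh v w).natDegree ≤ D') ∧
        (∀ j, |ζ j| ≤ η) ∧
        (∀ τ : ℝ, ∏ j, |τ - ζ j| ≤ |q.eval τ| ∧ |q.eval τ| ≤ (|τ| + η) ^ q.natDegree) ∧
        (∀ τ : ℝ, |τ| ≤ c → c ≤ |o.eval τ|) ∧ (∀ τ : ℝ, |τ| ≤ 1 → |o.eval τ| ≤ K) ∧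
        (∀ v, PB (fun y => q.eval (t y) * S v y - ∑ w, (be w v).eval (t y) * S₁ w y) 0 1 K) ∧
        ∀ v, PB (fun y => o.eval (t y) * ∑ w, (rh w v).eval (t y) * S₀ w y -
          o.eval (t y) ^ 2 * S v y) 0 1 K := by
  obtain ⟨D1, hD1⟩ := switchP V D
  refine ⟨D1, fun C L η hη => ?_⟩
  obtain ⟨C1, hC1, hsw⟩ := hD1 (|C| + 1)
  obtain ⟨Ks, c, hKs, hc, hsp⟩ := split D1 (D1 + (D1 + (D + d))) C1 η hη
  obtain ⟨Kp, hKp, hpg⟩ := pgrow (D1 + (D1 + d))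
  set me : ℝ := Kg N (D + d) * |C| * (1 + |L| * |L| + |L|) ^ (D + d) with hme
  set mF : ℝ := Fintype.card V * (Ks * (Fintype.card V * (C1 * me) + Fintype.card V * (C1 * me)))
    with hmF
  have hKg := Kg_pos N (D + d)
  have hmF0 : 0 ≤ mF := by positivity
  refine ⟨Ks + Kp * (Ks * mF) * |L| ^ (D1 + (D1 + d)), c, by positivity, hc, ?_⟩
  rintro t e S₀ S₁ hP h0 h1 ⟨δ, U, d1, d2, ⟨τ₀, t1, t2⟩, d3, d4, d5, d6⟩
  obtain ⟨f, J, M₁, M₂, f1, f2, f3, f4, f5, f6, f7⟩ := hsw δ U τ₀ d1 d2 t2 fun τ hτ =>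
    ⟨by rw [abs_of_pos (d3 τ)]; linarith [(d4 τ hτ).1, abs_nonneg C],
      fun v w => by linarith [(d4 τ hτ).2 v w, le_abs_self C]⟩
  obtain ⟨q, o, ζ, q1, rfl, q3, q4, q5, q6, q7, q8⟩ := hsp f f1 (fun τ hτ => (f5 τ hτ).1)
    ⟨τ₀, t1, f4⟩
  have ho : o ≠ 0 := by rintro rfl; simp at f4; linarith
  rw [natDegree_mul q1.ne_zero ho] at f1
  obtain ⟨be, rh, b1, -, b3, -, -, b6, b7, b8⟩ := birk J q1.ne_zero ho q3 f3
  choose S' s1 s2 using fun v w => Pd_div hP.one q1 (h1 w) 0 (be w v) (b7 w v)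
  have hS : PV d fun v y => ∑ w, S' v w y := fun v => Pd_sum _ fun w _ => s1 v w
  have hL : |L| = L := abs_of_nonneg hP.nn
  have key : ∀ v y, ‖y - 0‖ ≤ 1 →
      |q.eval (t y) * ∑ w, S' v w y - ∑ w, (be w v).eval (t y) * S₁ w y| ≤
        Kp * (Ks * mF) * |L| ^ (D1 + (D1 + d)) ∧
      |o.eval (t y) * ∑ w, (rh w v).eval (t y) * S₀ w y - o.eval (t y) ^ 2 * ∑ w, S' v w y| ≤
        Kp * (Ks * mF) * |L| ^ (D1 + (D1 + d)) := by
    intro v y hy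
    rw [sub_zero] at hy
    have hτ : |t y| ≤ L := (hP.nt y).trans (mul_le_of_le_one_right hP.nn hy)
    set z := y - t y • e with hz
    have z0 : t z = 0 := by simp [hz, hP.one]
    have z1 : ∀ τ : ℝ, t (z + τ • e) = τ := fun τ => by simp [z0, hP.one]
    have z2 : z + t y • e = y := by simp [hz]
    have z3 : ∀ τ : ℝ, |τ| ≤ 1 → max 1 (‖z + τ • e - 0‖ / 1) ≤ 1 + |L| * |L| + |L| := by
      intro τ h
      refine max_le (by nlinarith [abs_nonneg L]) ?_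
      rw [sub_zero, div_one, hL]
      refine (norm_add_le _ _).trans (add_le_add ((norm_sub_le _ _).trans (add_le_add hy ?_)) ?_)
      · rw [norm_smul]; exact mul_le_mul hτ hP.ne (norm_nonneg _) hP.nn
      · rw [norm_smul]; exact (mul_le_of_le_one_left (norm_nonneg _) h).trans hP.ne
    choose r r1 r2 using fun w => s2 v w z z0
    have m1 : ∀ u, (fun y => δ.eval (t y) * S₀ u y - ∑ w, (U u w).eval (t y) * S₁ w y) ∈
        Pd N (D + d) := fun u =>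
      Pd_sub (Pd_mul (Pd_pol t d1) (h0 u)) (Pd_sum _ fun w _ => Pd_mul (Pd_pol t (d2 u w)) (h1 w))
    have m2 : ∀ u, (fun y => δ.eval (t y) * S₁ u y - ∑ w, (U w u).eval (t y) * S₀ w y) ∈
        Pd N (D + d) := fun u =>
      Pd_sub (Pd_mul (Pd_pol t d1) (h1 u)) (Pd_sum _ fun w _ => Pd_mul (Pd_pol t (d2 w u)) (h0 w))
    have r8 : ∀ a b, (rh a b).natDegree ≤ D1 := fun a b => (b8 a b).trans (by omega)
    have ro : o.natDegree ≤ D1 := by omega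
    obtain ⟨F, F1, F2⟩ := Pd_line (Pd_sum univ fun w _ => Pd_mul (Pd_pol t (r8 w v)) (Pd_add
      (Pd_sum univ fun u _ => Pd_mul (Pd_pol t (f2 w u).1) (m1 u))
      (Pd_sum univ fun u _ => Pd_mul (Pd_pol t (f2 w u).2) (m2 u)))) z e
    obtain ⟨B, B1, B2⟩ := Pd_line (Pd_sub (Pd_mul (Pd_pol t ro) (Pd_sum univ fun w _ =>
      Pd_mul (Pd_pol t (r8 w v)) (h0 w))) (Pd_mul (Pd_pol t ro) (Pd_mul (Pd_pol t ro) (hS v)))) z e
    have A1 : (∑ w, r w).degree < q.degree := (degree_sum_le _ _).trans_lt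
      ((Finset.sup_lt_iff (bot_lt_iff_ne_bot.2 (degree_ne_bot.2 q1.ne_zero))).2 fun w _ => r1 w)
    have A2 : ∀ τ : ℝ, (∑ w, r w).eval τ = q.eval τ * ∑ w, S' v w (z + τ • e) -
        ∑ w, (be w v).eval τ * S₁ w (z + τ • e) := fun τ => by
      rw [eval_finsetSum, mul_sum, ← sum_sub_distrib]
      exact sum_congr rfl fun w _ => (r2 w τ).symm
    have hid : o ^ 2 * ∑ w, r w + q * B = F := Polynomial.funext fun τ => by
      have e2 := congrArg (ev τ) b6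
      have e3 := congrArg (ev τ) f6
      have e4 := congrArg (ev τ) f7
      simp only [ev_mul, ev_sub, ev_smul, ev_one, ev_tr, eval_pow, eval_mul] at e2 e3 e4
      have := congrFun (glue_id e2 e3 e4 (fun w => S₁ w (z + τ • e)) (fun w => S₀ w (z + τ • e))
        fun v => ∑ w, S' v w (z + τ • e)) v
      simp only [Pi.add_apply, Pi.smul_apply, Pi.sub_apply, smul_eq_mul, mulVec, dotProduct,
        transpose_apply, ev_apply] at this
      rw [eval_add, eval_mul, eval_mul, eval_pow, A2, B2, F2]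
      simp only [z1]
      rw [← this]; ring
    have hF : ∀ τ : ℝ, |τ| ≤ 1 → |F.eval τ| ≤ mF := by
      intro τ h
      have g : ∀ u : E N → ℝ, u ∈ Pd N (D + d) → PB u 0 1 C → |u (z + τ • e)| ≤ me := by
        intro u hu hb
        refine (hb.grow hu one_pos _).trans ?_
        have := hb.nonneg zero_le_one
        exact mul_le_mul (mul_le_mul_of_nonneg_left (le_abs_self C) hKg.le)
          (pow_le_pow_left₀ (by positivity) (z3 τ h) _) (by positivity) (by positivity)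
      rw [F2]
      simp only [z1]
      refine mv_le (A := fun a b => (rh b a).eval τ) (fun a b => (ev_le b3 τ b a).trans (q7 τ h))
        (fun w => (abs_add_le _ _).trans (add_le_add ?_ ?_)) v
      · refine mv_le (A := fun a b => (M₁ a b).eval τ) (fun a b => ((f5 τ h).2 a b).1)
          (fun u => ?_) w
        simpa only [z1] using g _ (m1 u) (d5 u)
      · refine mv_le (A := fun a b => (M₂ a b).eval τ) (fun a b => ((f5 τ h).2 a b).2)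
          (fun u => ?_) w
        simpa only [z1] using g _ (m2 u) (d6 u)
    have hb := q8 _ B F mF A1 F1 hid hF
    have A3 : (∑ w, r w).natDegree ≤ D1 + (D1 + d) :=
      (natDegree_le_natDegree A1.le).trans (by omega)
    have g1 := hpg _ _ A3 (fun τ h => (hb τ h).1) (t y) L hP.one_le hτ
    have g2 := hpg _ _ B1 (fun τ h => (hb τ h).2) (t y) L hP.one_le hτ
    rw [A2, z2] at g1
    rw [B2, z2, ← mul_assoc (o.eval _), ← sq] at g2
    rw [hL]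
    exact ⟨g1, g2⟩
  refine ⟨q, o, ζ, be, rh, _, by omega, by omega, hS, b1, b3, b7,
    fun a b => (b8 a b).trans (by omega), q4, q5, q6, fun τ h => (q7 τ h).trans
    (le_add_of_nonneg_right (by positivity)), fun v y hy => (key v y hy).1.trans
    (le_add_of_nonneg_left hKs), fun v y hy => (key v y hy).2.trans (le_add_of_nonneg_left hKs)⟩

end Pool.Agent.CA9.UB
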