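import Pool.Agent.Lib.MP_ca9be0_an.UB.RH

/-! Adding a leaf: the inner and the outer rotation. -/

namespace Pool.Agent.CA9.UB

open Finset Matrix Polynomial Pool.Agent.Lib.MP_ca9be0_an.PyF

variable {N d : ℕ} {s : ℝ}

/-- the output of the gluing of a new leaf at the origin to a leaf at distance one -/
structure Glue (d : ℕ) (s : ℝ) (D : ℕ) (K c η B : ℝ) (t : E N →ₗ[ℝ] ℝ) {V : Type} [Fintype V]
    [DecidableEq V] (S₀ S₁ S : V → E N → ℝ) (Ri Ro : ℝ → Matrix V V ℝ) {k : ℕ}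
    (ζ : Fin k → ℝ) : Prop where
  mem : PV d S
  kle : k ≤ D
  oi : ∀ y, ‖y‖ ≤ c → (Ri (t y))ᵀ * Ri (t y) = 1
  ji : ∀ v, J d true (fun y => ∑ w, Ri (t y) v w * S₀ w y - S v y) 0 c K
  oo : ∀ a : ℝ, (∀ j, a ≠ ζ j) → (Ro a)ᵀ * Ro a = 1
  oz : ∀ x y, 1 ≤ ‖x‖ → η * ‖x‖ ≤ |t x| → ‖y - x‖ ≤ c * ‖x‖ → ∀ j, t y ≠ ζ j
  jo : ∀ (x : E N) (S' : V → E N → ℝ), PV d S' → 1 ≤ ‖x‖ → η * ‖x‖ ≤ |t x| →
    (∀ w y, |S' w y - S₁ w y| ≤ B * (2 * ‖x‖ + ‖y - x‖) ^ s) → ∀ v,
      J d true (fun y => ∑ w, Ro (t y) v w * S' w y - S v y) x (c * ‖x‖) (K * ‖x‖ ^ s)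
  far : ∀ (R ρ : ℝ) (y : E N), 1 ≤ R → 1 ≤ R * ρ → ‖y‖ ≤ R * ρ → (∀ j, ρ ≤ R * |t y - ζ j|) →
    ∀ v, |∑ w, Ro (t y) v w * S₁ w y - S v y| ≤ K * R ^ (2 * D + d + 1) * ρ ^ s

lemma Kg_le_sum (N d : ℕ) {k D : ℕ} (h : k ≤ D) :
    Kg N (k + d) ≤ ∑ j ∈ range (D + 1), Kg N (j + d) :=
  single_le_sum (f := fun j => Kg N (j + d)) (fun _ _ => (Kg_pos N _).le)
    (mem_range.2 (Nat.lt_succ_of_le h))

lemma far_le (H : Hs d s) {R ρ : ℝ} {k D : ℕ} (hk : k ≤ D) (hR : 1 ≤ R) (h : 1 ≤ R * ρ) :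
    (R * ρ) ^ (k + d) ≤ R ^ (2 * D + d + 1) * ρ ^ s * (ρ / R) ^ k := by
  have hρ : 0 < ρ := by by_contra h'; nlinarith
  have h1 : (R * ρ) ^ d ≤ R ^ (d + 1) * ρ ^ s := by
    calc (R * ρ) ^ d = (R * ρ) ^ (d : ℝ) := (Real.rpow_natCast _ _).symm
      _ ≤ (R * ρ) ^ s := Real.rpow_le_rpow_of_exponent_le h H.1.le
      _ = R ^ s * ρ ^ s := Real.mul_rpow (by linarith) hρ.le
      _ ≤ R ^ ((d + 1 : ℕ) : ℝ) * ρ ^ s := mul_le_mul_of_nonneg_right
          (Real.rpow_le_rpow_of_exponent_le hR (by push_cast; exact H.2)) (by positivity)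
      _ = _ := by rw [Real.rpow_natCast]
  have h2 : (R * ρ) ^ k = R ^ (2 * k) * (ρ / R) ^ k := by
    rw [pow_mul, ← mul_pow]; congr 1; field_simp
  have h3 : R ^ (2 * k) ≤ R ^ (2 * D) := pow_le_pow_right₀ hR (by omega)
  have h4 : 0 ≤ (ρ / R) ^ k := by positivity
  calc _ = R ^ (2 * k) * (ρ / R) ^ k * (R * ρ) ^ d := by rw [pow_add, h2]
    _ ≤ R ^ (2 * D) * (ρ / R) ^ k * (R ^ (d + 1) * ρ ^ s) := by gcongr
    _ = _ := by ring

theorem ri_glue (H : Hs d s) (N : ℕ) (V : Type) [Fintype V] [DecidableEq V] (D : ℕ) : ∃ D' : ℕ,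
    ∀ C L η B : ℝ, 0 < η → ∃ K c : ℝ, 0 ≤ K ∧ 0 < c ∧ c ≤ 1 ∧ ∀ (t : E N →ₗ[ℝ] ℝ) (e : E N)
      (S₀ S₁ : V → E N → ℝ), Pen L t e → PV d S₀ → PV d S₁ → PRel D C t S₀ S₁ →
      ∃ (S : V → E N → ℝ) (Ri Ro : ℝ → Matrix V V ℝ) (k : ℕ) (ζ : Fin k → ℝ),
        Glue d s D' K c η B t S₀ S₁ S Ri Ro ζ := by
  obtain ⟨D', hD⟩ := glue0 N d V D
  refine ⟨D', fun C L η B hη => ?_⟩
  obtain ⟨K0, c0, hK0, hc0, hg⟩ := hD C L (η / 4) (by positivity)
  obtain ⟨K1, η1, a1, a2, a3, q1⟩ := quot_jet N d (D' + (D' + d)) (c0 * c0) (K0 * K0)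
    (by positivity)
  obtain ⟨K2, η2, b1, b2, b3, q2⟩ := quot_jet N d (D' + d) (min 1 (η / 2) ^ D')
    ((2 * |L| + η + 1) ^ D') (by positivity)
  set Ks := ∑ j ∈ range (D' + 1), Kg N (j + d) with hKs
  have hKs0 : 0 ≤ Ks := sum_nonneg fun j _ => (Kg_pos N _).le
  set r0 := min c0 1 / (|L| + 1) with hr0
  set r1 := min 1 (η / (4 * (|L| + 1))) with hr1
  have hr0p : 0 < r0 := by positivity
  have hr1p : 0 < r1 := by positivity
  set Mu := Fintype.card V * ((2 * |L| + η + 1) ^ D' * (|B| * 3 ^ s)) + Ks * K0 * 2 ^ (D' + d)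
    with hMu
  have hMu0 : 0 ≤ Mu := by positivity
  have hc : 0 < min (η1 * r0) (η2 * r1) := by positivity
  have n1 := mul_nonneg a1.le hK0
  have n2 := mul_nonneg b1.le hMu0
  have n3 := mul_nonneg hKs0 hK0
  have c1 : min (η1 * r0) (η2 * r1) ≤ r0 :=
    (min_le_left _ _).trans (mul_le_of_le_one_left hr0p.le a3)
  have c2 : min (η1 * r0) (η2 * r1) ≤ r1 :=
    (min_le_right _ _).trans (mul_le_of_le_one_left hr1p.le b3)
  refine ⟨K1 * K0 + K2 * Mu + Ks * K0, min (η1 * r0) (η2 * r1), by positivity, hc,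
    c2.trans (min_le_left _ _), fun t e S₀ S₁ hP h0 h1 hR => ?_⟩
  obtain ⟨q, o, ζ, be, rh, S, g1, g2, g3, g4, g5, g6, g7, g8, g9, g10, g11, g12, g13⟩ :=
    hg t e S₀ S₁ hP h0 h1 hR
  have hL : |L| = L := abs_of_nonneg hP.nn
  have hL1 := hP.one_le
  have i1 : ∀ y : E N, ‖y‖ ≤ r0 → |t y| ≤ min c0 1 := fun y hy => by
    refine (hP.nt y).trans ((mul_le_mul_of_nonneg_left hy hP.nn).trans ?_)
    rw [hr0, hL, mul_div_assoc', div_le_iff₀ (by positivity)]
    nlinarith [lt_min hc0 one_pos]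
  have i2 : r0 ≤ 1 := by
    rw [hr0, div_le_one (by positivity)]; linarith [min_le_right c0 1, abs_nonneg L]
  have i3 : ∀ y : E N, ‖y‖ ≤ r0 → o.eval (t y) ≠ 0 := fun y hy =>
    abs_pos.1 (hc0.trans_le (g10 _ ((i1 y hy).trans (min_le_left _ _))))
  have mA : ∀ v, (fun y => q.eval (t y) * S v y - ∑ w, (be w v).eval (t y) * S₁ w y) ∈
      Pd N (q.natDegree + d) := fun v => Pd_sub (Pd_mul (Pd_pol t le_rfl) (g3 v))
    (Pd_sum _ fun w _ => Pd_mul (Pd_pol t (g6 w v)) (h1 w))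
  have gA : ∀ v y (R : ℝ), 1 ≤ R → ‖y‖ ≤ R →
      |q.eval (t y) * S v y - ∑ w, (be w v).eval (t y) * S₁ w y| ≤
        Ks * K0 * R ^ (q.natDegree + d) := fun v y R a b => by
    refine ((g12 v).grow (mA v) one_pos y).trans (mul_le_mul (mul_le_mul_of_nonneg_right
      (Kg_le_sum N d g1) hK0) (pow_le_pow_left₀ (by positivity) ?_ _) (by positivity)
      (by positivity))
    exact max_le a (by simpa using b)
  have qne : ∀ a : ℝ, (∀ j, a ≠ ζ j) → q.eval a ≠ 0 := fun a ha =>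
    abs_pos.1 (lt_of_lt_of_le (prod_pos fun j _ => abs_pos.2 (sub_ne_zero.2 (ha j))) (g9 a).1)
  have o1 : ∀ x y : E N, 1 ≤ ‖x‖ → η * ‖x‖ ≤ |t x| → ‖y - x‖ ≤ r1 * ‖x‖ → ∀ j,
      η / 2 * ‖x‖ ≤ |t y - ζ j| := fun x y a b c j => by
    have e1 := hP.nt (y - x)
    rw [map_sub] at e1
    have e2 : L * r1 ≤ η / 4 := by
      refine (mul_le_mul_of_nonneg_left (min_le_right _ _) hP.nn).trans ?_
      rw [hL, mul_div_assoc', div_le_div_iff₀ (by positivity) (by positivity)]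
      nlinarith
    have e3 : L * ‖y - x‖ ≤ η / 4 * ‖x‖ := (mul_le_mul_of_nonneg_left c hP.nn).trans (by
      rw [← mul_assoc]; exact mul_le_mul_of_nonneg_right e2 (norm_nonneg _))
    have e4 : |t x| ≤ |t y - t x| + |t y - ζ j| + |ζ j| := by
      have := abs_add_three (t x - t y) (t y - ζ j) (ζ j)
      rwa [abs_sub_comm (t x), show t x - t y + (t y - ζ j) + ζ j = t x by ring] at this
    nlinarith [g8 j]
  refine ⟨S, fun a => (o.eval a)⁻¹ • (ev a rh)ᵀ, fun a => (q.eval a)⁻¹ • (ev a be)ᵀ, _, ζ,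
    g3, g1, fun y hy => ev_orth g5 (i3 y (hy.trans c1)), fun v => ?_,
    fun a ha => ev_orth g4 (qne a ha), fun x y a b c j h => ?_, fun x S' hS' a b hb v => ?_,
    fun R ρ y a b c h v => ?_⟩
  · have := q1 _ (fun y => o.eval (t y) * o.eval (t y)) 0 r0 K0
      (Pd_sub (Pd_mul (Pd_pol t g2) (Pd_sum univ fun w _ => Pd_mul (Pd_pol t (g7 w v)) (h0 w)))
        (Pd_mul (Pd_pol t g2) (Pd_mul (Pd_pol t g2) (g3 v))))
      (Pd_mul (Pd_pol t g2) (Pd_pol t (g2.trans (Nat.le_add_right _ _)))) hr0p.le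
      (fun y hy => by simpa only [← mul_assoc, ← sq] using g13 v y (hy.trans i2))
      (fun y hy => by
        have := g11 _ ((i1 y (by simpa using hy)).trans (min_le_right _ _))
        rw [abs_mul]; exact mul_le_mul this this (abs_nonneg _) hK0)
      (fun y hy => by
        have := g10 _ ((i1 y (by simpa using hy)).trans (min_le_left _ _))
        rw [abs_mul]; exact mul_le_mul this this hc0.le (abs_nonneg _))
    refine (this.mono hc.le (min_le_left _ _) (by linarith)).congr fun y hy => ?_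
    have e1 := i3 y (by simpa using hy.trans c1)
    simp only [Matrix.smul_apply, transpose_apply, ev_apply, smul_eq_mul, mul_assoc, ← mul_sum]
    field_simp
  · have := o1 x y a b (c.trans (mul_le_mul_of_nonneg_right c2 (norm_nonneg _))) j
    rw [h, sub_self, abs_zero] at this
    nlinarith
  · have x0 : 0 < ‖x‖ := by linarith
    have l0 : 0 < ‖x‖ ^ q.natDegree := by positivity
    have y1 : ∀ y, ‖y - x‖ ≤ r1 * ‖x‖ → ‖y - x‖ ≤ ‖x‖ := fun y hy =>
      hy.trans (mul_le_of_le_one_left x0.le (min_le_left _ _))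
    have y2 : ∀ y, ‖y - x‖ ≤ r1 * ‖x‖ → ‖y‖ ≤ 2 * ‖x‖ := fun y hy => by
      have := norm_add_le (y - x) x
      rw [sub_add_cancel] at this
      linarith [y1 y hy]
    have y3 : ∀ y, ‖y - x‖ ≤ r1 * ‖x‖ →
        |q.eval (t y)| ≤ (2 * |L| + η + 1) ^ D' * ‖x‖ ^ q.natDegree := fun y hy => by
      refine (g9 _).2.trans ((pow_le_pow_left₀ (by positivity) (b := (2 * |L| + η + 1) * ‖x‖)
        ?_ _).trans ?_)
      · have := (hP.nt y).trans (mul_le_mul_of_nonneg_left (y2 y hy) hP.nn)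
        rw [hL]; nlinarith
      · rw [mul_pow]
        exact mul_le_mul_of_nonneg_right (pow_le_pow_right₀ (by linarith [abs_nonneg L]) g1) l0.le
    have y4 : ∀ y, ‖y - x‖ ≤ r1 * ‖x‖ →
        min 1 (η / 2) ^ D' * ‖x‖ ^ q.natDegree ≤ |q.eval (t y)| := fun y hy => by
      refine le_trans ?_ (g9 _).1
      calc _ ≤ min 1 (η / 2) ^ q.natDegree * ‖x‖ ^ q.natDegree := mul_le_mul_of_nonneg_right
            (pow_le_pow_of_le_one (by positivity) (min_le_left _ _) g1) l0.le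
        _ = ∏ _j : Fin q.natDegree, min 1 (η / 2) * ‖x‖ := by simp [mul_pow]
        _ ≤ _ := prod_le_prod (fun _ _ => by positivity) fun j _ =>
            (mul_le_mul_of_nonneg_right (min_le_right _ _) x0.le).trans (o1 x y a b hy j)
    have xs : ‖x‖ ^ d ≤ ‖x‖ ^ s := by
      rw [← Real.rpow_natCast]; exact Real.rpow_le_rpow_of_exponent_le a H.1.le
    have := q2 (fun y => (‖x‖ ^ q.natDegree)⁻¹ * (∑ w, (be w v).eval (t y) * (S' w y - S₁ w y) -
        (q.eval (t y) * S v y - ∑ w, (be w v).eval (t y) * S₁ w y)))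
      (fun y => (‖x‖ ^ q.natDegree)⁻¹ * q.eval (t y)) x (r1 * ‖x‖) (Mu * ‖x‖ ^ s)
      (Pd_smul _ (Pd_sub (Pd_sum _ fun w _ => Pd_mul (Pd_pol t ((g6 w v).trans g1))
        (Pd_sub (hS' w) (h1 w))) (Pd_mono (by omega) (mA v))))
      (Pd_smul _ (Pd_pol t (g1.trans (Nat.le_add_right _ _)))) (by positivity)
      (fun y hy => by
        rw [abs_mul, abs_inv, abs_of_pos l0, inv_mul_le_iff₀ l0]
        refine (abs_sub _ _).trans ?_
        have e1 := mv_le (A := fun a b => (be b a).eval (t y)) (x := fun w => S' w y - S₁ w y)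
          (b := |B| * (3 ^ s * ‖x‖ ^ s)) (fun a b => (ev_le g4 _ b a).trans (y3 y hy))
          (fun w => (hb w y).trans (mul_le_mul (le_abs_self B) (by
            rw [← Real.mul_rpow (by norm_num) x0.le]
            exact Real.rpow_le_rpow (by positivity) (by linarith [y1 y hy]) H.pos.le)
            (by positivity) (abs_nonneg B))) v
        have e2 := gA v y (2 * ‖x‖) (by linarith) (y2 y hy)
        have e3 : (2 * ‖x‖) ^ (q.natDegree + d) ≤ 2 ^ (D' + d) * (‖x‖ ^ q.natDegree * ‖x‖ ^ s) := by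
          rw [mul_pow, pow_add ‖x‖]
          exact mul_le_mul (pow_le_pow_right₀ one_le_two (by omega))
            (mul_le_mul_of_nonneg_left xs l0.le) (by positivity) (by positivity)
        refine (add_le_add e1 (e2.trans (mul_le_mul_of_nonneg_left e3 (by positivity)))).trans
          (le_of_eq ?_)
        rw [hMu]; ring)
      (fun y hy => by
        rw [abs_mul, abs_inv, abs_of_pos l0, inv_mul_le_iff₀ l0, mul_comm]
        exact y3 y hy)
      (fun y hy => by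
        rw [abs_mul, abs_inv, abs_of_pos l0, le_inv_mul_iff₀ l0, mul_comm]
        exact y4 y hy)
    refine (this.mono (by positivity) ?_ ?_).congr fun y hy => ?_
    · rw [← mul_assoc]; exact mul_le_mul_of_nonneg_right (min_le_right _ _) x0.le
    · rw [← mul_assoc]
      exact mul_le_mul_of_nonneg_right (by linarith) (by positivity)
    have e1 : q.eval (t y) ≠ 0 := abs_pos.1 (lt_of_lt_of_le (by positivity)
      (y4 y (hy.trans (mul_le_mul_of_nonneg_right c2 x0.le))))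
    simp only [Matrix.smul_apply, transpose_apply, ev_apply, smul_eq_mul, mul_assoc, ← mul_sum,
      mul_sub (eval _ _), sum_sub_distrib]
    field_simp
    ring
  · have hρ : 0 < ρ := by by_contra h'; nlinarith
    have e0 : 0 < (ρ / R) ^ q.natDegree := by positivity
    have e1 : (ρ / R) ^ q.natDegree ≤ |q.eval (t y)| := by
      refine le_trans ?_ (g9 _).1
      calc _ = ∏ _j : Fin q.natDegree, ρ / R := by rw [prod_const, card_univ, Fintype.card_fin]
        _ ≤ _ := prod_le_prod (fun _ _ => by positivity) fun j _ => by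
            rw [div_le_iff₀' (by linarith)]; exact h j
    have e2 := abs_pos.1 (e0.trans_le e1)
    have e3 : ∑ w, ((q.eval (t y))⁻¹ • (ev (t y) be)ᵀ) v w * S₁ w y - S v y =
        -(q.eval (t y) * S v y - ∑ w, (be w v).eval (t y) * S₁ w y) / q.eval (t y) := by
      simp only [Matrix.smul_apply, transpose_apply, ev_apply, smul_eq_mul, mul_assoc, ← mul_sum]
      field_simp
      ring
    rw [e3, abs_div, abs_neg, div_le_iff₀ (e0.trans_le e1)]
    refine (gA v y _ b c).trans ((mul_le_mul_of_nonneg_left (far_le H g1 a b)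
      (by positivity)).trans ?_)
    rw [← mul_assoc, ← mul_assoc]
    gcongr
    linarith

end Pool.Agent.CA9.UB
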