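import Pool.Agent.Lib.MP_ca9be0_an.UB.RI
import Pool.Agent.Lib.MP_ca9be0_an.UB.RD
import Pool.Agent.Lib.MP_ca9be0_an.UB.RE

/-! Adding a leaf in normalised position. -/

namespace Pool.Agent.CA9.UB

open Finset Matrix Polynomial Pool.Agent.Lib.MP_ca9be0_an.PyF

variable {N d : ℕ} {s : ℝ}

/-- a separated configuration of points with compatible jets -/
structure Cfg (d : ℕ) (s η B : ℝ) (t : E N →ₗ[ℝ] ℝ) {κ W : Type} (I : Finset κ) (p : κ → E N)
    (T : κ → W → E N → ℝ) : Prop where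
  mem : ∀ i, PV d (T i)
  inj : ∀ i ∈ I, ∀ j ∈ I, p i = p j → i = j
  sep : ∀ i ∈ I, ∀ j ∈ I, η * ‖p i - p j‖ ≤ |t (p i - p j)|
  wh : ∀ i ∈ I, ∀ j ∈ I, ∀ w y, |T i w y - T j w y| ≤ B * (‖p i - p j‖ + ‖y - p i‖) ^ s

/-- a representation of the jets of a configuration -/
structure RepAt (d : ℕ) (s : ℝ) (K : ℕ) (C : ℝ) (t : E N →ₗ[ℝ] ℝ) {κ V W : Type} [Fintype V]
    [Fintype W] (I : Finset κ) (p : κ → E N) (T : κ → W → E N → ℝ) (S : κ → V → E N → ℝ) :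
    Prop where
  mem : ∀ i, PV d (S i)
  wh : ∀ i ∈ I, ∀ j ∈ I, ∀ v y, |S i v y - S j v y| ≤ C * (‖p i - p j‖ + ‖y - p i‖) ^ s
  val : ∀ i ∈ I, ∑ v, S i v (p i) ^ 2 = ∑ w, T i w (p i) ^ 2
  rel : ∀ i ∈ I, ∀ ρ : ℝ, 0 < ρ → Rel s K C t (S i) (T i) (p i) ρ

lemma rp_le (hs : 0 ≤ s) {a R ρ : ℝ} (ha : 0 ≤ a) (hR : 0 ≤ R) (hρ : 0 ≤ ρ) (h : a ≤ R * ρ) :
    a ^ s ≤ R ^ s * ρ ^ s := by
  rw [← Real.mul_rpow hR hρ]; exact Real.rpow_le_rpow ha h hs

lemma one_le_rad {L C : ℝ} (hL : 0 ≤ L) (hC : 0 ≤ C) : 1 ≤ rad L C :=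
  le_add_of_nonneg_right (by positivity)

theorem add_leaf (H : Hs d s) (n : ℕ) (V W : Type) [Fintype V] [Fintype W]
    (hm : (n + d).choose d + 1 ≤ Fintype.card V) : ∃ K₀ : ℕ, ∀ (C L η B : ℝ) (K : ℕ), 0 < η →
      0 ≤ C → 0 ≤ L → ∃ C' : ℝ, 0 ≤ C' ∧ ∀ (t : E (n + 1) →ₗ[ℝ] ℝ) (e : E (n + 1)) (κ : Type)
      [DecidableEq κ] (I : Finset κ) (i₀ i₁ : κ) (p : κ → E (n + 1))
      (T : κ → W → E (n + 1) → ℝ) (S : κ → V → E (n + 1) → ℝ), Pen L t e → i₀ ∉ I → i₁ ∈ I →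
      Cfg d s η B t (insert i₀ I) p T → p i₀ = 0 → ‖p i₁‖ = 1 → (∀ i ∈ I, 1 ≤ ‖p i‖) →
      RepAt d s (K + K₀) C t I p T S →
      ∃ S' : κ → V → E (n + 1) → ℝ, RepAt d s K C' t (insert i₀ I) p T S' := by
  classical
  have hs := H.pos.le
  obtain ⟨D, hD⟩ := reset (n + 1) d V V
  obtain ⟨D', hD'⟩ := ri_glue H (n + 1) V D
  refine ⟨D + d + 1 + D', fun C L η B K hη hC hL => ?_⟩
  set C1 : ℝ := C + ((K + (D + d + 1 + D') : ℕ) + 1) with hC1
  have c1 : C ≤ C1 := le_add_of_nonneg_right (by positivity)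
  have c2 : 0 ≤ C1 := hC.trans c1
  obtain ⟨C2, h2⟩ := rel_comp hs (n + 1) V W C1 B L
  obtain ⟨C3, -, h3⟩ := hD s C2 L hs
  obtain ⟨Kq, c, q1, q2, q3, h4⟩ := hD' C3 L η C hη
  have hKg := Kg_pos (n + 1) d
  set K1 := Kg (n + 1) d * (Kq / c ^ s) with hK1
  have k1 : 0 ≤ K1 := by positivity
  obtain ⟨C4, h5⟩ := rel_small H (n + 1) V W C1 K1 L
  have r1 := one_le_rad hL c2
  set B' := 2 * rad L C1 / c with hB'
  have b1 : 0 ≤ B' := by positivity
  have r2 := one_le_rad hL (add_nonneg c2 (mul_nonneg hL b1))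
  set R := 2 * C1 + rad L (C1 + L * B') + B' with hR
  have r3 : 1 ≤ R := by linarith
  obtain ⟨C5, h6⟩ := rel_large H (n + 1) V W C1
    (Kq * R ^ (2 * D' + d + 1) + (K1 + |B|) * R ^ s) B' L
  set cw := K1 + Fintype.card V * (1 * (C * 2 ^ s)) + K1 * 2 ^ s + 2 * K1 * (2 / c + 3) ^ s
    with hcw
  have w0 : 0 ≤ Kg (n + 1) d * cw := by positivity
  refine ⟨|C4| + |C5| + Kg (n + 1) d * cw, by positivity, ?_⟩
  intro t e κ _ I i₀ i₁ p T S hP hi₀ hi₁ hT p0 p1 pl hS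
  have m0 := mem_insert_self i₀ I
  have m1 : i₁ ∈ insert i₀ I := mem_insert_of_mem hi₁
  obtain ⟨S₀, a1, a2, a3⟩ := one_leaf hm t e hP.one (T i₀) (hT.mem i₀)
  obtain ⟨Sg, Ri, Ro, k, ζ, hG⟩ := h4 t e S₀ (S i₁) hP a1 (hS.mem i₁)
    (h3 t e _ _ hP a1 (hS.mem i₁) (h2 _ t e S₀ (S i₁) (T i₀) (T i₁) (p i₁) hP p1 a3
      ((hS.rel i₁ hi₁ 1 one_pos).mono one_pos (by omega) c1) fun w y => by
        simpa [p0, p1] using hT.wh i₀ m0 i₁ m1 w y))
  have ne : ∀ i ∈ I, i ≠ i₀ := fun i hi h => hi₀ (h ▸ hi)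
  obtain ⟨S1, e0, e1⟩ : ∃ S1 : κ → V → E (n + 1) → ℝ, S1 i₀ = S₀ ∧ ∀ i ∈ I, S1 i = S i :=
    ⟨fun i => if i = i₀ then S₀ else S i, if_pos rfl, fun i hi => if_neg (ne i hi)⟩
  obtain ⟨Rm, f0, f1⟩ : ∃ Rm : κ → ℝ → Matrix V V ℝ, Rm i₀ = Ri ∧ ∀ i ∈ I, Rm i = Ro :=
    ⟨fun i => if i = i₀ then Ri else Ro, if_pos rfl, fun i hi => if_neg (ne i hi)⟩
  obtain ⟨Dd, g0, g1⟩ : ∃ Dd : κ → ℝ, Dd i₀ = 1 ∧ ∀ i ∈ I, Dd i = ‖p i‖ :=
    ⟨fun i => if i = i₀ then 1 else ‖p i‖, if_pos rfl, fun i hi => if_neg (ne i hi)⟩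
  have d1 : ∀ i ∈ insert i₀ I, 1 ≤ Dd i ∧ ‖p i‖ ≤ Dd i := fun i hi => by
    rcases mem_insert.1 hi with rfl | hi
    · simp [g0, p0]
    · rw [g1 i hi]; exact ⟨pl i hi, le_rfl⟩
  have d2 : ∀ i ∈ insert i₀ I, ‖p i - p i₁‖ ≤ 2 * Dd i := fun i hi => by
    linarith [norm_sub_le (p i) (p i₁), d1 i hi]
  have loc : ∀ i ∈ insert i₀ I,
      (∀ y, ‖y - p i‖ ≤ c * Dd i → (Rm i (t y))ᵀ * Rm i (t y) = 1) ∧ ∀ v, J d true
        (fun y => ∑ w, Rm i (t y) v w * S1 i w y - Sg v y) (p i) (c * Dd i) (Kq * Dd i ^ s) := by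
    intro i hi
    rcases mem_insert.1 hi with rfl | hi'
    · rw [g0, f0, e0, p0, Real.one_rpow, mul_one, mul_one]
      exact ⟨fun y hy => hG.oi y (by simpa using hy), hG.ji⟩
    · have sp : η * ‖p i‖ ≤ |t (p i)| := by simpa [p0] using hT.sep i hi i₀ m0
      rw [g1 i hi', f1 i hi', e1 i hi']
      refine ⟨fun y hy => hG.oo _ (hG.oz _ y (pl i hi') sp hy),
        hG.jo _ _ (hS.mem i) (pl i hi') sp fun w y => (hS.wh i hi' i₁ hi₁ w y).trans ?_⟩
      have := d2 i hi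
      rw [g1 i hi'] at this
      gcongr
  have ex : ∀ i v, ∃ u ∈ Pd (n + 1) d, i ∈ insert i₀ I →
      (∀ y, |u y - Sg v y| ≤ K1 * (Dd i + ‖y - p i‖) ^ s) ∧ ∀ y, ‖y - p i‖ ≤ c * Dd i →
        |∑ w, Rm i (t y) v w * S1 i w y - u y| ≤ K1 * ‖y - p i‖ ^ s := by
    intro i v
    by_cases hi : i ∈ insert i₀ I
    · obtain ⟨u, u1, u2, u3⟩ := loc_jet H q2 q3 (by linarith [(d1 i hi).1]) ((loc i hi).2 v)
      refine ⟨fun y => Sg v y + u y, Pd_add (hG.mem v) u1, fun _ => ⟨fun y => by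
        simpa only [add_sub_cancel_left] using u2 y, fun y hy => ?_⟩⟩
      rw [← sub_sub]
      exact (u3 y hy).trans (mul_le_mul_of_nonneg_right
        (le_mul_of_one_le_left (by positivity) (one_le_Kg _ _)) (by positivity))
    · exact ⟨_, const_mem d 0, fun h => absurd h hi⟩
  choose S' s1 s2 using ex
  have old : ∀ i ∈ insert i₀ I, ∀ ρ : ℝ, 0 < ρ →
      Rel s (K + (D + d + 1 + D')) C1 t (S1 i) (T i) (p i) ρ := fun i hi ρ hρ => by
    rcases mem_insert.1 hi with rfl | hi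
    · rw [e0]; exact (rel_one s _ a3 _ hρ).mono hρ le_rfl (le_add_of_nonneg_left hC)
    · rw [e1 i hi]; exact (hS.rel i hi ρ hρ).mono hρ le_rfl c1
  refine ⟨S', s1, fun i hi j hj v y => ?_, fun i hi => ?_, fun i hi ρ hρ => ?_⟩
  · by_cases hij : i = j
    · rw [hij, sub_self, abs_zero]; positivity
    have hr : 0 < ‖p i - p j‖ := norm_pos_iff.2 (sub_ne_zero.2 fun h => hij (hT.inj i hi j hj h))
    refine (pb_gs H (c := cw) (fun z hz => ?_) (Pd_sub (s1 i v) (s1 j v)) hr y).trans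
      (mul_le_mul_of_nonneg_right (le_add_of_nonneg_left (by positivity)) (by positivity))
    set r := ‖p i - p j‖ with hr'
    have z1 : ‖z - p j‖ ≤ 2 * r := by linarith [norm_sub_le_norm_sub_add_norm_sub z (p i) (p j)]
    have rs := Real.rpow_pos_of_pos hr s
    by_cases hc : i ∈ I ∧ j ∈ I ∧ r ≤ c * Dd i ∧ 2 * r ≤ c * Dd j
    · obtain ⟨x1, x2, x3, x4⟩ := hc
      have y1 := (s2 i v hi).2 z (hz.trans x3)
      have y2 := (s2 j v hj).2 z (z1.trans x4)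
      have y3 := (loc i hi).1 z (hz.trans x3)
      rw [f1 i x1] at y1 y3
      rw [e1 i x1] at y1
      rw [f1 j x2, e1 j x2] at y2
      have y4 := mv_le (x := fun w => S i w z - S j w z) (b := C * (2 ^ s * r ^ s)) (orth_le y3)
        (fun w => (hS.wh i x1 j x2 w z).trans (mul_le_mul_of_nonneg_left
          (rp_le hs (by positivity) zero_le_two hr.le (by linarith)) hC)) v
      simp only [mul_sub, sum_sub_distrib] at y4
      have y5 := mul_le_mul_of_nonneg_left (Real.rpow_le_rpow (norm_nonneg _) hz hs) k1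
      have y6 := mul_le_mul_of_nonneg_left (rp_le hs (norm_nonneg _) zero_le_two hr.le z1) k1
      have y7 : 0 ≤ 2 * K1 * (2 / c + 3) ^ s * r ^ s := by positivity
      rw [abs_le] at y1 y2 y4 ⊢
      rw [hcw]
      constructor <;> linarith
    · have x0 : 0 ≤ 2 / c * r := by positivity
      have x1 : Dd i ≤ (2 / c + 1) * r ∧ Dd j ≤ (2 / c + 1) * r := by
        rcases mem_insert.1 hi with rfl | hi'
        · have hj' := (mem_insert.1 hj).resolve_left (Ne.symm hij)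
          have : r = ‖p j‖ := by rw [hr', p0, zero_sub, norm_neg]
          rw [g0, g1 j hj']
          constructor <;> linarith [pl j hj']
        rcases mem_insert.1 hj with rfl | hj'
        · have : r = ‖p i‖ := by rw [hr', p0, sub_zero]
          rw [g0, g1 i hi']
          constructor <;> linarith [pl i hi']
        have u1 := abs_le.1 (abs_norm_sub_norm_le (p i) (p j))
        rw [← g1 i hi', ← g1 j hj'] at u1
        by_cases u2 : r ≤ c * Dd i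
        · have u3 : c * Dd j < 2 * r := not_le.1 fun h => hc ⟨hi', hj', u2, h⟩
          have u4 : Dd j ≤ 2 / c * r := by
            rw [div_mul_eq_mul_div, le_div_iff₀' q2]; exact u3.le
          constructor <;> linarith
        · have u4 : Dd i ≤ 2 / c * r := by
            rw [div_mul_eq_mul_div, le_div_iff₀' q2]; linarith
          constructor <;> linarith
      have x2 : (0 : ℝ) ≤ 2 / c + 3 := by positivity
      have y1 := ((s2 i v hi).1 z).trans (mul_le_mul_of_nonneg_left (rp_le hs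
        (by linarith [(d1 i hi).1, norm_nonneg (z - p i)]) x2 hr.le (by linarith)) k1)
      have y2 := ((s2 j v hj).1 z).trans (mul_le_mul_of_nonneg_left (rp_le hs
        (by linarith [(d1 j hj).1, norm_nonneg (z - p j)]) x2 hr.le (by linarith)) k1)
      have y7 : 0 ≤ (K1 + Fintype.card V * (1 * (C * 2 ^ s)) + K1 * 2 ^ s) * r ^ s := by positivity
      rw [abs_le] at y1 y2 ⊢
      rw [hcw]
      constructor <;> linarith
  · have x0 : ‖p i - p i‖ ≤ c * Dd i := by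
      rw [sub_self, norm_zero]; exact mul_nonneg q2.le (by linarith [(d1 i hi).1])
    have x1 : ∀ v, S' i v (p i) = (Rm i (t (p i)) *ᵥ fun w => S1 i w (p i)) v := fun v => by
      have := (s2 i v hi).2 _ x0
      rw [sub_self, norm_zero, Real.zero_rpow H.pos.ne', mul_zero, abs_nonpos_iff,
        sub_eq_zero] at this
      exact this.symm
    simp only [x1]
    rw [orth_sq ((loc i hi).1 _ x0)]
    rcases mem_insert.1 hi with rfl | hi
    · rw [e0]; exact a2 _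
    · rw [e1 i hi]; exact hS.val i hi
  · by_cases hc : rad L C1 * ρ ≤ c * Dd i
    · exact (h5 _ t e (S1 i) (S' i) (T i) (p i) ρ _ (Rm i) hP (s1 i) (hT.mem i) hρ hc
        (old i hi ρ hρ) fun y hy => ⟨(loc i hi).1 y hy, fun v => (s2 i v hi).2 y hy⟩).mono hρ
        (by omega) (by linarith [le_abs_self C4, abs_nonneg C5])
    have x1 : 2 * Dd i ≤ B' * ρ := by
      rw [hB', div_mul_eq_mul_div, le_div_iff₀' q2]; linarith
    have x2 := d1 i hi
    have x3 : 0 ≤ C1 * ρ := by positivity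
    have x4 : 0 ≤ rad L (C1 + L * B') * ρ := by positivity
    refine (h6 K k t e (S i₁) (S' i) (T i₁) (T i) (p i₁) (p i) ρ Ro ζ hP (s1 i) (hT.mem i) hρ
      ((d2 i hi).trans x1) ((hS.rel i₁ hi₁ ρ hρ).mono hρ (by have := hG.kle; omega) c1) hG.oo
      fun y hy hz => ⟨fun v => ?_, fun w => ?_⟩).mono hρ le_rfl
      (by linarith [le_abs_self C5, abs_nonneg C4])
    · have y0 := norm_add_le (y - p i) (p i)
      rw [sub_add_cancel] at y0
      have y1 := hG.far R ρ y r3 (by rw [hR]; linarith) (by rw [hR]; linarith)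
        (fun j => (hz j).trans (mul_le_mul_of_nonneg_right (by linarith) (abs_nonneg _))) v
      have y2 := ((s2 i v hi).1 y).trans (mul_le_mul_of_nonneg_left (rp_le hs (R := R) (ρ := ρ)
        (by linarith [norm_nonneg (y - p i)]) (by linarith) hρ.le (by rw [hR]; linarith)) k1)
      have y3 : 0 ≤ |B| * R ^ s * ρ ^ s := by positivity
      rw [abs_le] at y1 y2 ⊢
      constructor <;> linarith
    · rw [abs_sub_comm]
      have y2 := (hT.wh i hi i₁ m1 w y).trans (mul_le_mul (le_abs_self B) (rp_le hs (R := R)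
        (ρ := ρ) (by positivity) (by linarith) hρ.le (by rw [hR]; linarith [d2 i hi]))
        (by positivity) (abs_nonneg B))
      have y3 : 0 ≤ (Kq * R ^ (2 * D' + d + 1) + K1 * R ^ s) * ρ ^ s := by positivity
      linarith

end Pool.Agent.CA9.UB
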