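import Pool.Agent.Lib.MP_ca9be0_an.UB.Defs
import Pool.Agent.Lib.MP_ca9be0_an.UB.LG1
import Pool.Agent.Lib.MP_ca9be0_an.UB.La0

/-! Forms, bounded membership in a module, the module gauge. -/

namespace Pool.Agent.CA9.UB

open Finset Matrix Pool.Agent.Lib.MP_ca9be0_an.PyF

variable {σ ι r r' : Type} [Fintype σ] [Fintype r] [Fintype r'] [DecidableEq r] {k : ℕ}

/-- monomials -/
def mo {D : ℕ} (f : Fin D → σ) (x : σ → ℝ) : ℝ := ∏ j, x (f j)

/-- forms of degree `D` -/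
def Hd (D : ℕ) (F : (σ → ℝ) → ℝ) : Prop :=
  ∃ c : (Fin D → σ) → ℝ, ∀ x, F x = ∑ f, c f * mo f x

/-- bounded families of forms of degree `D` -/
def HK {K : Type} [RCLike K] (D : ℕ) (F : ι → (σ → ℝ) → K) : Prop :=
  ∃ (c : ι → (Fin D → σ) → K) (C : ℝ), (∀ t f, ‖c t f‖ ≤ C) ∧
    ∀ t x, F t x = ∑ f, c t f * (mo f x : K)

/-- the point of a frame with coordinates `z` -/
noncomputable def frm (ξ : σ → ℝ) (v : Fin k → σ → ℝ) (z : E k) : σ → ℝ := ξ + ∑ j, z j • v j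

/-- bounded membership, on the sets `A t`, in the module generated by `Φ` and the unit vectors -/
def Mem (d D : ℕ) (Φ : ι → r → r' → (σ → ℝ) → ℝ) (A : ι → Set (σ → ℝ))
    (f : ι → r → (σ → ℝ) → ℝ) : Prop :=
  ∃ (w : r' → ι → (σ → ℝ) → ℝ) (e : r → ι → (σ → ℝ) → ℝ), (∀ j, HK D (w j)) ∧
    (∀ i, HK (D + d) (e i)) ∧ ∀ t, ∀ x ∈ A t, ∀ i, f t i x = ∑ j, Φ t i j x * w j t x + e i t x

/-- index set of the columns -/
abbrev Col (σ r r' : Type) (d D : ℕ) := (r' × (Fin D → σ)) ⊕ (r × (Fin (D + d) → σ))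

/-- the columns -/
def col {d D : ℕ} (Φ : r → r' → (σ → ℝ) → ℝ) : Col σ r r' d D → r → (σ → ℝ) → ℝ
  | Sum.inl p, i, x => Φ i p.1 x * mo p.2 x
  | Sum.inr p, i, x => if i = p.1 then mo p.2 x else 0

/-- coefficients of the restriction of a vector of functions to a frame -/
noncomputable def rv (D : ℕ) (ξ : σ → ℝ) (v : Fin k → σ → ℝ) (f : r → (σ → ℝ) → ℝ) :
    r × BA k D → ℝ := fun p => co ((bs k D).γ p.2) fun z => f p.1 (frm ξ v z)

/-- the matrix of the module on a frame -/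
noncomputable def Mx (d D : ℕ) (Φ : r → r' → (σ → ℝ) → ℝ) (ξ : σ → ℝ) (v : Fin k → σ → ℝ) :
    Matrix (r × BA k (D + d)) (Col σ r r' d D) ℝ := of fun p c => rv (D + d) ξ v (col Φ c) p

/-- the module gauge -/
noncomputable def Pt (d D : ℕ) (Φ : r → r' → (σ → ℝ) → ℝ) (ξ : σ → ℝ) (v : Fin k → σ → ℝ) : ℝ :=
  (Mx d D Φ ξ v * (Mx d D Φ ξ v)ᵀ).det

/-- a bound for the degree of the module gauge -/
noncomputable def eP (r : Type) [Fintype r] (k D : ℕ) : ℕ :=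
  Fintype.card (r × BA k D) * (2 * (D + 1))

/-- a bound for the degree of the canonical preimage -/
noncomputable def eO (r : Type) [Fintype r] (k D : ℕ) : ℕ := eP r k D + 2 * (D + 1)

/-- the degree of homogeneity of the module gauge in the base point -/
noncomputable def ex (r : Type) [Fintype r] (k D : ℕ) : ℕ :=
  2 * (Fintype.card r * ∑ a : BA k D, (D - (bs k D).deg a))

/-- the module gauge along a pencil -/
noncomputable def npo (d D : ℕ) (Φ : r → r' → (σ → ℝ) → ℝ) (ξ u : σ → ℝ) (w : Fin k → σ → ℝ) :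
    Polynomial ℝ :=
  ∑ l ∈ range (eP r k (D + d) + 1), Polynomial.C (Pt d D Φ
    (ξ + ((l : ℝ) / ((eP r k (D + d) : ℕ) + 1)) • u) w) * lg (eP r k (D + d)) l

/-- the node polynomials -/
noncomputable def nP (d : ℕ) (D : ℕ → ℕ) (Φ : r → r' → (σ → ℝ) → ℝ) : NP σ :=
  fun k ξ v i => npo d (D k) Φ ξ (v i) (i.removeNth v)

/-- the degrees of the levels -/
noncomputable def DD (r : Type) [Fintype r] (d a D₀ : ℕ) : ℕ → ℕ
  | 0 => D₀
  | k + 1 => DD r d a D₀ k + eO r k (DD r d a D₀ k + d) +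
      a * ex r k (DD r d a D₀ k + d) ^ (k + 1)

/-- graded classes of functions -/
structure Gr {Θ : Type} (Q : ℕ → (Θ → ℝ) → Prop) : Prop where
  const : ∀ c, Q 0 fun _ => c
  add : ∀ {e f g}, Q e f → Q e g → Q e fun x => f x + g x
  mul : ∀ {e e' f g}, Q e f → Q e' g → Q (e + e') fun x => f x * g x
  mono : ∀ {e e' f}, Q e f → e ≤ e' → Q e' f

/-- homogeneous coordinates -/
def hv {N : ℕ} (t : ℝ) (y : E N) : Fin (N + 1) → ℝ := Fin.cons t fun i => y i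

theorem exists_hM {N d : ℕ} {p : E N → ℝ} (hp : p ∈ Pd N d) :
    ∃ c : (Fin d → Fin (N + 1)) → ℝ, ∀ y, p y = ∑ f, c f * mo f (hv 1 y) := by
  have key : ∀ (e : ℕ) (a : ℝ) (s : Fin (N + 1)) (c : (Fin e → Fin (N + 1)) → ℝ),
      ∃ c' : (Fin (e + 1) → Fin (N + 1)) → ℝ, ∀ x : Fin (N + 1) → ℝ,
        a * x s * ∑ f, c f * mo f x = ∑ f, c' f * mo f x := fun e a s c => by
    refine ⟨fun f => if f 0 = s then a * c (Fin.tail f) else 0, fun x => ?_⟩
    rw [← (Fin.consEquiv fun _ => Fin (N + 1)).sum_comp, Fintype.sum_prod_type,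
      sum_eq_single s (fun s' _ h => by simp [Fin.consEquiv, h]) (by simp), mul_sum]
    exact sum_congr rfl fun f _ => by simp [Fin.consEquiv, mo, Fin.prod_univ_succ]; ring
  refine Pd_ind (C := fun e p => ∃ c : (Fin e → Fin (N + 1)) → ℝ,
    ∀ y, p y = ∑ f, c f * mo f (hv 1 y)) (fun e c => ⟨Pi.single (fun _ => 0) c, fun y => ?_⟩)
    (fun e p q ⟨c, hc⟩ ⟨c', hc'⟩ => ⟨c + c', fun y => ?_⟩) (fun e a p ⟨c, hc⟩ => ?_)
    (fun e a i p ⟨c, hc⟩ => ?_) hp
  · rw [sum_eq_single (fun _ => 0) (fun f _ h => by simp [h]) (by simp)]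
    simp [mo, hv]
  · simp only [hc, hc', Pi.add_apply, add_mul, sum_add_distrib]
  · obtain ⟨c', h⟩ := key e a 0 c
    exact ⟨c', fun y => by rw [← h, ← hc]; simp [hv]⟩
  · obtain ⟨c', h⟩ := key e a i.succ c
    exact ⟨c', fun y => by rw [← h, ← hc]; simp [hv]⟩

/-- coefficients of the homogenised basis -/
noncomputable def hM (N d : ℕ) (a : BA N d) : (Fin d → Fin (N + 1)) → ℝ :=
  (exists_hM ((bs N d).mem a)).choose

/-- the homogenised module of a tuple -/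
noncomputable def hF {M N : ℕ} (φ : r → r' → Fin M → ℝ) (d : ℕ) (T : Fin M → E N → ℝ) (i : r)
    (j : r') (x : Fin (N + 1) → ℝ) : ℝ :=
  ∑ f, (∑ m, φ i j m * ∑ a, co ((bs N d).γ a) (T m) * hM N d a f) * mo f x

/-- the module gauge of a tuple -/
noncomputable def mG {M N : ℕ} (φ : r → r' → Fin M → ℝ) (d D k : ℕ) : Gg M N k :=
  fun T u v => Pt d D (hF φ d T) (hv 1 u) fun l => hv 0 (v l)

end Pool.Agent.CA9.UB
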