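import Pool.Agent.Lib.MP_ca9be0_an.UB.S0

/-! Algebra of bounded families of forms. -/

namespace Pool.Agent.CA9.UB

open Finset Matrix Pool.Agent.Lib.MP_ca9be0_an.PyF

variable {σ ι : Type} [Fintype σ] {K : Type} [RCLike K] {D D' k : ℕ}
  {F F' : ι → (σ → ℝ) → K}

theorem HK.congr (h : HK D F) (e : ∀ t x, F t x = F' t x) : HK D F' := by
  rwa [show F' = F from funext fun t => funext fun x => (e t x).symm]

theorem HK.cast (h : HK D F) (e : D = D') : HK D' F := e ▸ h

theorem HK.comp {κ : Type} (h : HK D F) (g : κ → ι) : HK D fun t => F (g t) := by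
  obtain ⟨c, C, hc, e⟩ := h
  exact ⟨fun t => c (g t), C, fun t => hc _, fun t => e _⟩

theorem HK.zero (D : ℕ) : HK D fun (_ : ι) (_ : σ → ℝ) => (0 : K) := by
  exact ⟨0, 0, fun _ _ => by simp, fun _ _ => by simp⟩

theorem HK.const {c : ι → K} {C : ℝ} (h : ∀ t, ‖c t‖ ≤ C) : HK 0 fun t (_ : σ → ℝ) => c t := by
  exact ⟨fun t _ => c t, C, fun t _ => h t, fun t x => by simp [UB.mo]⟩

theorem HK.mo (f : Fin D → σ) : HK D fun (_ : ι) x => (mo f x : K) := by
  classical
  refine ⟨fun _ g => if g = f then 1 else 0, 1, fun _ g => ?_, fun _ x => by simp⟩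
  beta_reduce
  split_ifs <;> simp

theorem HK.add (h : HK D F) (h' : HK D F') : HK D fun t x => F t x + F' t x := by
  obtain ⟨c, C, hc, e⟩ := h
  obtain ⟨c', C', hc', e'⟩ := h'
  exact ⟨fun t f => c t f + c' t f, C + C',
    fun t f => (norm_add_le _ _).trans (add_le_add (hc t f) (hc' t f)),
    fun t x => by simp only [e, e', add_mul, sum_add_distrib]⟩

theorem HK.mul (h : HK D F) (h' : HK D' F') : HK (D + D') fun t x => F t x * F' t x := by
  obtain ⟨c, C, hc, e⟩ := h
  obtain ⟨c', C', hc', e'⟩ := h'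
  refine ⟨fun t f => c t (fun i => f (Fin.castAdd D' i)) * c' t fun i => f (Fin.natAdd D i),
    C * C', fun t f => ?_, fun t x => ?_⟩
  · rw [norm_mul]
    exact mul_le_mul (hc _ _) (hc' _ _) (norm_nonneg _) ((norm_nonneg _).trans (hc t fun i =>
      f (Fin.castAdd D' i)))
  · beta_reduce
    rw [e, e', sum_mul_sum, ← (Fin.appendEquiv D D').sum_comp, Fintype.sum_prod_type]
    refine sum_congr rfl fun f _ => sum_congr rfl fun g _ => ?_
    simp only [Fin.appendEquiv_apply, Fin.append_left, Fin.append_right, UB.mo, Fin.prod_univ_add,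
      RCLike.ofReal_mul]
    ring

theorem HK.smul {c : ι → K} {C : ℝ} (hc : ∀ t, ‖c t‖ ≤ C) (h : HK D F) :
    HK D fun t x => c t * F t x := by
  exact ((HK.const hc).mul h).cast (zero_add D)

theorem HK.sub (h : HK D F) (h' : HK D F') : HK D fun t x => F t x - F' t x := by
  exact (h.add (h'.smul (c := fun _ => -1) (C := 1) fun _ => by simp)).congr fun t x => by ring

theorem HK.sum {α : Type} (s : Finset α) {G : α → ι → (σ → ℝ) → K} (h : ∀ a ∈ s, HK D (G a)) :
    HK D fun t x => ∑ a ∈ s, G a t x := by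
  classical
  induction s using Finset.induction_on with
  | empty => simpa using HK.zero D
  | insert a s ha ih =>
    exact ((h a (mem_insert_self _ _)).add (ih fun b hb => h b (mem_insert_of_mem hb))).congr
      fun t x => by rw [sum_insert ha]

theorem HK.prod {α : Type} (s : Finset α) {G : α → ι → (σ → ℝ) → K} {e : α → ℕ}
    (h : ∀ a ∈ s, HK (e a) (G a)) : HK (∑ a ∈ s, e a) fun t x => ∏ a ∈ s, G a t x := by
  classical
  induction s using Finset.induction_on with
  | empty => simpa using HK.const (σ := σ) (c := fun _ : ι => (1 : K)) (C := 1) fun _ => by simp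
  | insert a s ha ih =>
    exact (((h a (mem_insert_self _ _)).mul (ih fun b hb => h b (mem_insert_of_mem hb))).cast
      (sum_insert ha).symm).congr fun t x => by rw [prod_insert ha]

theorem HK.pow (h : HK D F) (j : ℕ) : HK (j * D) fun t x => F t x ^ j := by
  exact ((HK.prod (range j) (G := fun _ => F) (e := fun _ => D) fun _ _ => h).cast
    (by simp)).congr fun t x => by simp

theorem HK.lin {l : ι → σ → K} {C : ℝ} (h : ∀ t s, ‖l t s‖ ≤ C) :
    HK 1 fun t x => ∑ s, l t s * (x s : K) := by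
  refine ⟨fun t f => l t (f 0), C, fun t f => h _ _, fun t x => ?_⟩
  rw [← (Equiv.funUnique (Fin 1) σ).symm.sum_comp]
  simp [UB.mo]

theorem HK.dot {l : ι → σ → ℝ} {C : ℝ} (h : ∀ t s, |l t s| ≤ C) :
    HK 1 fun t x => l t ⬝ᵥ x := by
  exact HK.lin (K := ℝ) h

theorem HK.ite (h : HK D F) (h' : HK D F') (p : ι → Prop) [DecidablePred p] :
    HK D fun t x => if p t then F t x else F' t x := by
  obtain ⟨c, C, hc, e⟩ := h
  obtain ⟨c', C', hc', e'⟩ := h'
  refine ⟨fun t f => if p t then c t f else c' t f, max C C', fun t f => ?_, fun t x => ?_⟩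
  · beta_reduce
    split_ifs
    exacts [(hc t f).trans (le_max_left _ _), (hc' t f).trans (le_max_right _ _)]
  · beta_reduce
    split_ifs
    exacts [e t x, e' t x]

theorem HK.re {F : ι → (σ → ℝ) → ℂ} (h : HK D F) : HK D fun t x => (F t x).re := by
  obtain ⟨c, C, hc, e⟩ := h
  exact ⟨fun t f => (c t f).re, C, fun t f => (Complex.abs_re_le_norm _).trans (hc t f),
    fun t x => by simp [e]⟩

theorem HK.im {F : ι → (σ → ℝ) → ℂ} (h : HK D F) : HK D fun t x => (F t x).im := by
  obtain ⟨c, C, hc, e⟩ := h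
  exact ⟨fun t f => (c t f).im, C, fun t f => (Complex.abs_im_le_norm _).trans (hc t f),
    fun t x => by simp [e]⟩

theorem HK.ofReal {F : ι → (σ → ℝ) → ℝ} (h : HK D F) : HK D fun t x => (F t x : ℂ) := by
  obtain ⟨c, C, hc, e⟩ := h
  exact ⟨fun t f => (c t f : ℂ), C, fun t f => by simpa using hc t f, fun t x => by simp [e]⟩

theorem HK.hd {F : ι → (σ → ℝ) → ℝ} (h : HK D F) (t : ι) : Hd D (F t) := by
  obtain ⟨c, C, -, e⟩ := h
  exact ⟨c t, e t⟩

theorem Hd.hk {F : (σ → ℝ) → ℝ} (h : Hd D F) : HK D fun _ : ι => F := by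
  obtain ⟨c, e⟩ := h
  exact ⟨fun _ => c, ‖c‖, fun _ f => norm_le_pi_norm c f, fun _ => e⟩

/-- substitution of a bounded family of linear maps -/
theorem HK.linmap (h : HK D F) {γ : ι → Matrix σ σ ℝ} {C : ℝ} (hγ : ∀ t a b, |γ t a b| ≤ C) :
    HK D fun t x => F t (γ t *ᵥ x) := by
  obtain ⟨c, C', hc, e⟩ := h
  refine (HK.sum univ (G := fun f t x => c t f * ∏ j, ∑ s, (γ t (f j) s : K) * (x s : K))
    fun f _ => HK.smul (fun t => hc t f) ?_).congr fun t x => ?_
  · exact (HK.prod univ (e := fun _ => 1) fun j _ => HK.lin (l := fun t s => (γ t (f j) s : K))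
      (C := C) fun t s => by simpa using hγ t _ s).cast (by simp)
  · simp [e, UB.mo, mulVec, dotProduct]

theorem HK.bdd (h : HK D F) (R : ℝ) : ∃ C, ∀ t x, ‖x‖ ≤ R → ‖F t x‖ ≤ C := by
  obtain ⟨c, C, hc, e⟩ := h
  refine ⟨∑ _f : Fin D → σ, C * R ^ D, fun t x hx => ?_⟩
  rw [e]
  refine (norm_sum_le _ _).trans (sum_le_sum fun f _ => ?_)
  rw [norm_mul]
  refine mul_le_mul (hc t f) ?_ (norm_nonneg _) ((norm_nonneg _).trans (hc t f))
  rw [RCLike.norm_ofReal, UB.mo, abs_prod]
  refine (prod_le_prod (fun j _ => abs_nonneg _) fun j _ =>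
    (norm_le_pi_norm x (f j)).trans hx).trans_eq (by simp)

/-- homogeneous evaluation of a bounded family of polynomials in one variable -/
theorem HK.hev {e : ℕ} {q : ι → Polynomial ℝ} {C : ℝ} (hq : ∀ t, (q t).natDegree ≤ e)
    (hC : ∀ t l, |(q t).coeff l| ≤ C) {a b : ι → (σ → ℝ) → ℝ} (ha : HK 1 a) (hb : HK 1 b) :
    ∃ G : ι → (σ → ℝ) → ℝ, HK e G ∧ (∀ t x, b t x = 1 → G t x = (q t).eval (a t x)) := by
  refine ⟨fun t x => ∑ l ∈ range (e + 1), (q t).coeff l * (a t x ^ l * b t x ^ (e - l)),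
    HK.sum _ fun l hl => HK.smul (fun t => hC t l) (((ha.pow l).mul (hb.pow (e - l))).cast ?_),
    fun t x h => ?_⟩
  · have := mem_range.1 hl
    omega
  · simp [h, Polynomial.eval_eq_sum_range' (Nat.lt_succ_of_le (hq t))]

end Pool.Agent.CA9.UB
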