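import Pool.Agent.Lib.MP_ca9be0_an.UB.Defs
import Pool.Agent.Lib.MP_ca9be0_an.UB.AlgE

/-! Step 1, tools: calculus of tame vectors and of the relation through a tame matrix. -/

namespace Pool.Agent.CA9.UB

open Finset Matrix Pool.Agent.Lib.MP_ca9be0_an.PyF

variable {N M m d : ℕ} {s : ℝ} {ι : Type} {x : ι → E N} {r : ι → ℝ}

lemma tn_cases {b : Bool} {u : ι → E N → ℝ} {w : ι → ℝ} (p : ι → Prop)
    (h1 : TN d b (fun i : {i // p i} => x i.1) (fun i => r i.1) (fun i => u i.1) fun i => w i.1)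
    (h2 : TN d b (fun i : {i // ¬ p i} => x i.1) (fun i => r i.1) (fun i => u i.1)
      fun i => w i.1) : TN d b x r u w := by
  obtain ⟨C', η', hC', hη', k2⟩ := id h2
  obtain ⟨C, η, hC, hη, hle, k1⟩ := h1.out hη'
  refine ⟨max C C', η, by positivity, hη, fun i => ?_⟩
  by_cases hi : p i
  · have a := h1.r_nonneg ⟨i, hi⟩
    exact ⟨a, (k1 ⟨i, hi⟩).mono (mul_nonneg hη.le a) le_rfl
      (mul_le_mul_of_nonneg_right (le_max_left _ _) (h1.w_nonneg ⟨i, hi⟩))⟩
  · have a := h2.r_nonneg ⟨i, hi⟩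
    exact ⟨a, (k2 ⟨i, hi⟩).2.mono (mul_nonneg hη.le a) (mul_le_mul_of_nonneg_right hle a)
      (mul_le_mul_of_nonneg_right (le_max_right _ _) (h2.w_nonneg ⟨i, hi⟩))⟩

/-- tame vector fields of size `r ^ s` -/
def TW (d : ℕ) (s : ℝ) {ι A : Type} (x : ι → E N) (r : ι → ℝ) (e : ι → E N → A → ℝ) : Prop :=
  ∀ a, TN d true x r (fun i y => e i y a) fun i => r i ^ s

variable {A B : Type}

lemma TW.add {e e' : ι → E N → A → ℝ} (h : TW d s x r e) (h' : TW d s x r e') :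
    TW d s x r fun i y => e i y + e' i y := fun a => (h a).add (h' a)

lemma TW.sub {e e' : ι → E N → A → ℝ} (h : TW d s x r e) (h' : TW d s x r e') :
    TW d s x r fun i y => e i y - e' i y := fun a => (h a).sub (h' a)

lemma TW.congr {e e' : ι → E N → A → ℝ} (h : TW d s x r e) {η : ℝ} (hη : 0 < η)
    (he : ∀ i y, ‖y - x i‖ ≤ η * r i → e i y = e' i y) : TW d s x r e' :=
  fun a => (h a).congr hη fun i y hy => by rw [he i y hy]

lemma TW.congr' {e e' : ι → E N → A → ℝ} (h : TW d s x r e) (he : ∀ i y, e i y = e' i y) :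
    TW d s x r e' := h.congr one_pos fun i y _ => he i y

lemma TW.mul [Fintype A] {e : ι → E N → A → ℝ} {U : ι → E N → Matrix B A ℝ} (hr : ∀ i, 0 ≤ r i)
    (hU : TM d x r U) (h : TW d s x r e) : TW d s x r fun i y => U i y *ᵥ e i y := fun b =>
  TN.sum univ hr (fun i => Real.rpow_nonneg (hr i) s) fun a _ => (hU b a).mul1 (h a)

lemma TW.comp {e : ι → E N → A → ℝ} (h : TW d s x r e) {κ : Type} (f : κ → ι) :
    TW d s (fun k => x (f k)) (fun k => r (f k)) fun k => e (f k) := fun a => (h a).comp f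

lemma rpow_le_mul (hs : 0 < s) {a b L : ℝ} (ha : 0 ≤ a) (hb : 0 ≤ b) (hL : 0 ≤ L)
    (h : a ≤ L * b) : a ^ s ≤ L ^ s * b ^ s := by
  rw [← Real.mul_rpow hL hb]
  exact Real.rpow_le_rpow ha h hs.le

lemma TW.mono (hs : 0 < s) {e : ι → E N → A → ℝ} (h : TW d s x r e) {r' : ι → ℝ} {L : ℝ}
    (hL : 0 ≤ L) (h0 : ∀ i, 0 ≤ r' i) (h1 : ∀ i, r' i ≤ L * r i) (h2 : ∀ i, r i ≤ L * r' i) :
    TW d s x r' e := fun a =>
  ((h a).mono_r L h0 h1).mono_w (L ^ s)
    (fun i => rpow_le_mul hs ((h a).r_nonneg i) (h0 i) hL (h2 i))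
    fun i => Real.rpow_nonneg (h0 i) s

lemma tm_comp {U : ι → E N → Matrix A B ℝ} (h : TM d x r U) {κ : Type} (f : κ → ι) :
    TM d (fun k => x (f k)) (fun k => r (f k)) fun k => U (f k) := fun a b => (h a b).comp f

lemma tm_mono {U : ι → E N → Matrix A B ℝ} (h : TM d x r U) {r' : ι → ℝ} (L : ℝ)
    (h0 : ∀ i, 0 ≤ r' i) (h1 : ∀ i, r' i ≤ L * r i) : TM d x r' U :=
  fun a b => (h a b).mono_r L h0 h1

/-- the values of a tuple of functions -/
def evv (a : A → E N → ℝ) (y : E N) : A → ℝ := fun w => a w y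

lemma relU_iff [Fintype A] [Fintype B] {a : ι → A → E N → ℝ} {b : ι → B → E N → ℝ}
    {U : ι → E N → Matrix B A ℝ} : RelU d s x r a b U ↔ TM d x r U ∧
      TW d s x r (fun i y => U i y *ᵥ evv (a i) y - evv (b i) y) ∧
      TW d s x r fun i y => (U i y)ᵀ *ᵥ evv (b i) y - evv (a i) y :=
  ⟨fun h => ⟨h.tU, h.l, h.r⟩, fun h => ⟨h.1, h.2.1, h.2.2⟩⟩

section rel
variable [Fintype A] [Fintype B] {a a' : ι → A → E N → ℝ} {b b' : ι → B → E N → ℝ}
  {U : ι → E N → Matrix B A ℝ}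

lemma relU_comp (h : RelU d s x r a b U) {κ : Type} (f : κ → ι) :
    RelU d s (fun k => x (f k)) (fun k => r (f k)) (fun k => a (f k)) (fun k => b (f k))
      fun k => U (f k) :=
  ⟨tm_comp h.tU f, fun v => (h.l v).comp f, fun w => (h.r w).comp f⟩

lemma relU_mono (hs : 0 < s) (h : RelU d s x r a b U) {r' : ι → ℝ} {L : ℝ} (hL : 0 ≤ L)
    (h0 : ∀ i, 0 ≤ r' i) (h1 : ∀ i, r' i ≤ L * r i) (h2 : ∀ i, r i ≤ L * r' i) :
    RelU d s x r' a b U := by
  rw [relU_iff] at h ⊢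
  exact ⟨tm_mono h.1 L h0 h1, h.2.1.mono hs hL h0 h1 h2, h.2.2.mono hs hL h0 h1 h2⟩

lemma relU_change (hr : ∀ i, 0 ≤ r i) (h : RelU d s x r a b U)
    (ha : TW d s x r fun i y => evv (a' i) y - evv (a i) y)
    (hb : TW d s x r fun i y => evv (b' i) y - evv (b i) y) : RelU d s x r a' b' U := by
  rw [relU_iff] at h ⊢
  refine ⟨h.1, ((h.2.1.add (ha.mul hr h.1)).sub hb).congr' fun i y => ?_,
    ((h.2.2.add (hb.mul hr h.1.tr)).sub ha).congr' fun i y => ?_⟩
  · rw [mulVec_sub]; abel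
  · rw [mulVec_sub]; abel

lemma relU_rot [DecidableEq B] (hr : ∀ i, 0 ≤ r i) (h : RelU d s x r a b U)
    {R : ι → E N → Matrix B B ℝ} (hR : TM d x r R) (ho : ∀ i y, (R i y)ᵀ * R i y = 1)
    (hb : TW d s x r fun i y => R i y *ᵥ evv (b i) y - evv (b' i) y) :
    RelU d s x r a b' fun i y => R i y * U i y := by
  rw [relU_iff] at h ⊢
  refine ⟨TM.mul hr hR h.1, ((h.2.1.mul hr hR).add hb).congr' fun i y => ?_,
    (h.2.2.sub ((hb.mul hr hR.tr).mul hr h.1.tr)).congr' fun i y => ?_⟩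
  · rw [mulVec_sub, mulVec_mulVec]; abel
  · rw [mulVec_sub, mulVec_mulVec (evv (b i) y), ho, one_mulVec, mulVec_sub, transpose_mul,
      ← mulVec_mulVec]
    abel

lemma relU_cases (p : ι → Prop)
    (h1 : RelU d s (fun i : {i // p i} => x i.1) (fun i => r i.1) (fun i => a i.1)
      (fun i => b i.1) fun i => U i.1)
    (h2 : RelU d s (fun i : {i // ¬ p i} => x i.1) (fun i => r i.1) (fun i => a i.1)
      (fun i => b i.1) fun i => U i.1) : RelU d s x r a b U :=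
  ⟨fun v w => tn_cases p (h1.tU v w) (h2.tU v w), fun v => tn_cases p (h1.l v) (h2.l v),
    fun w => tn_cases p (h1.r w) (h2.r w)⟩

end rel

/-- jets of a function of the class at two nearby points -/
lemma jet_diff (H : Hs d s) [Finite A] (g : A → CF N d s) (hr : ∀ i, 0 ≤ r i) {p p' : ι → E N}
    {L : ℝ} (hp : ∀ i, ‖x i - p i‖ ≤ L * r i) (hp' : ∀ i, ‖x i - p' i‖ ≤ L * r i) :
    TW d s x r fun i y => evv (fun w => (g w).P (p i)) y - evv (fun w => (g w).P (p' i)) y := by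
  intro w
  obtain ⟨C, hC, h⟩ := CF.whitney g
  refine TN.poly (e := d) (η := 1) (C := C * (2 * (1 + |L|) ^ s))
    (fun i => Pd_sub ((g w).mem _) ((g w).mem _)) hr (fun i => Real.rpow_nonneg (hr i) s)
    one_pos fun i y hy => (h w (p i) (p' i) y).trans ?_
  have key : ∀ q : E N, ‖x i - q‖ ≤ L * r i → ‖y - q‖ ^ s ≤ (1 + |L|) ^ s * r i ^ s := by
    intro q hq
    refine rpow_le_mul H.pos (norm_nonneg _) (hr i) (by positivity) ?_
    have := norm_sub_le_norm_sub_add_norm_sub y (x i) q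
    have := mul_le_mul_of_nonneg_right (le_abs_self L) (hr i)
    linarith
  rw [mul_assoc]
  refine mul_le_mul_of_nonneg_left ?_ hC
  linarith [key _ (hp i), key _ (hp' i)]

section inv
variable [Fintype A] [DecidableEq A]

omit [Fintype A] in
lemma tm_one (hr : ∀ i, 0 ≤ r i) : TM d x r fun _ _ => (1 : Matrix A A ℝ) :=
  fun _ _ => T1.c hr _

lemma tm_inv_abs {Y : ι → E N → Matrix A A ℝ} (hr : ∀ i, 0 ≤ r i) (h : TM d x r Y) {c η : ℝ}
    (hc : 0 < c) (h0 : 0 < η) (hu : ∀ i y, ‖y - x i‖ ≤ η * r i → c ≤ |(Y i y).det|) :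
    TM d x r fun i y => (Y i y)⁻¹ := by
  have h1 := TM.mul hr (TM.inv hr (TM.mul hr h.tr h) (c := c * c) (by positivity) h0
    fun i y hy => by
      rw [det_mul, det_transpose, ← abs_mul_abs_self (Y i y).det]
      exact mul_self_le_mul_self hc.le (hu i y hy)) h.tr
  refine fun a b => (h1 a b).congr h0 fun i y hy => ?_
  have u : IsUnit (Y i y).det := isUnit_iff_ne_zero.2 fun e => by
    have := hu i y hy
    rw [e, abs_zero] at this
    linarith
  have u' : IsUnit (Y i y)ᵀ.det := by rwa [det_transpose]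
  have e : ((Y i y)ᵀ * Y i y)⁻¹ * (Y i y)ᵀ = (Y i y)⁻¹ := by
    rw [Matrix.mul_inv_rev, Matrix.mul_assoc, nonsing_inv_mul _ u', Matrix.mul_one]
  exact congrFun (congrFun e a) b

lemma tm_skew_inv {K : ι → E N → Matrix A A ℝ} (hr : ∀ i, 0 ≤ r i) (h : TM d x r K)
    (hK : ∀ i y, (K i y)ᵀ = -K i y) : TM d x r fun i y => (1 - K i y)⁻¹ :=
  tm_inv_abs hr ((tm_one hr).sub h) one_pos one_pos fun i y _ => one_le_det_skew (hK i y)

/-- the tame switch lemma -/
lemma tm_switch (hr : ∀ i, 0 ≤ r i) {V : ι → E N → Matrix A A ℝ} (hV : TM d x r V)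
    {σ : ι → A → ℝ} (hσ : ∀ i, IsSign (σ i)) {c η : ℝ} (hc : 0 < c) (h0 : 0 < η)
    (hu : ∀ i y, ‖y - x i‖ ≤ η * r i → c ≤ |(1 + diagonal (σ i) * V i y).det|)
    {a b : ι → E N → A → ℝ} (h1 : TW d s x r fun i y => V i y *ᵥ a i y - b i y)
    (h2 : TW d s x r fun i y => (V i y)ᵀ *ᵥ b i y - a i y) :
    TM d x r (fun i y => diagonal (σ i) * cayE (swK (1 + diagonal (σ i) * V i y))) ∧
      TW d s x r fun i y =>
        (diagonal (σ i) * cayE (swK (1 + diagonal (σ i) * V i y))) *ᵥ a i y - b i y := by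
  have hD : TM d x r fun i _ => diagonal (σ i) := TM.const hr 1 fun i a b => by
    rw [diagonal_apply]
    split_ifs
    · rcases hσ i a with e | e <;> simp [e]
    · simp
  have hY := (tm_one hr).add (TM.mul hr hD hV)
  have i1 := tm_inv_abs hr hY hc h0 hu
  have i2 := tm_inv_abs hr hY.tr hc h0 fun i y hy => by rw [det_transpose]; exact hu i y hy
  have hK : TM d x r fun i y => swK (1 + diagonal (σ i) * V i y) := i2.sub i1
  have i3 := tm_skew_inv hr hK fun i y => swK_skew _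
  refine ⟨TM.mul hr hD (TM.mul hr i3 ((tm_one hr).add hK)), ?_⟩
  refine (((((h1.mul hr hD).mul hr i1).sub (h2.mul hr i2)).mul hr i3).mul hr hD).congr h0
    fun i y hy => (switch_sub _ (hσ i) _ (isUnit_iff_ne_zero.2 fun e => ?_) _ _).symm
  have := hu i y hy
  rw [e, abs_zero] at this
  linarith

end inv

/-- the main block of the isometry -/
def blk (J : E N → Matrix (Am m M) (Fin M) ℝ) (y : E N) : Matrix (Fin m) (Fin M) ℝ :=
  fun i w => J y (Sum.inl i) w

lemma St.relU0 {g : Fin M → CF N d s} {σ : E N → ℝ} {G : Am m M → CF N d s}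
    {J : E N → Matrix (Am m M) (Fin M) ℝ} (h : St g σ G J) :
    RelU d s (fun x : Pos σ => x.1) (fun x => σ x.1) (fun x w => (g w).P x.1)
      (fun x i => (G (Sum.inl i)).P x.1) fun _ => blk J := by
  have hr : ∀ x : Pos σ, 0 ≤ σ x.1 := fun x => x.2.le
  have e1 : TW d s (fun x : Pos σ => x.1) (fun x => σ x.1) fun x y =>
      evv (fun v => (G v).P x.1) y - J y *ᵥ evv (fun w => (g w).P x.1) y :=
    fun v => (h.rel v).weaken
  have e2 : TW d s (fun x : Pos σ => x.1) (fun x => σ x.1) fun x y =>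
      evv (fun w => (G (Sum.inr w)).P x.1) y := fun w => TN.comp (h.tz w) fun x : Pos σ => x.1
  have tz : TM d (fun x : Pos σ => x.1) (fun x => σ x.1) fun _ y =>
      (Matrix.of fun w w' => J y (Sum.inr w') w : Matrix (Fin M) (Fin M) ℝ) :=
    fun w w' => h.tJ (Sum.inr w') w
  refine relU_iff.2 ⟨fun i w => h.tJ (Sum.inl i) w, fun i => (e1 (Sum.inl i)).neg.congr'
    fun x y => ?_, ((e1.mul hr h.tJ.tr).sub (e2.mul hr tz)).congr one_half_pos fun x y hy => ?_⟩
  · simp [evv, blk, mulVec, dotProduct]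
  · have hy0 : 0 < σ y := by
      have := h.lip.le' x.1 y
      have := x.2
      linarith
    rw [mulVec_sub, mulVec_mulVec, h.orth y hy0, one_mulVec]
    ext w
    simp only [Pi.sub_apply, mulVec, dotProduct, transpose_apply, Fintype.sum_sum_type, evv, blk,
      of_apply]
    ring

lemma St.relU (H : Hs d s) {g : Fin M → CF N d s} {σ : E N → ℝ} {G : Am m M → CF N d s}
    {J : E N → Matrix (Am m M) (Fin M) ℝ} (h : St g σ G J) (hr : ∀ i, 0 < r i) {L : ℝ}
    (hL : 0 ≤ L) (h1 : ∀ i, r i ≤ L * σ (x i)) (h2 : ∀ i, σ (x i) ≤ L * r i) {p p' : ι → E N}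
    (hp : ∀ i, ‖x i - p i‖ ≤ L * r i) (hp' : ∀ i, ‖x i - p' i‖ ≤ L * r i) :
    RelU d s x r (fun i w => (g w).P (p i)) (fun i v => (G (Sum.inl v)).P (p' i))
      fun _ => blk J := by
  have hx : ∀ i, 0 < σ (x i) := fun i => by
    by_contra hn
    have := mul_nonpos_of_nonneg_of_nonpos hL (not_lt.1 hn)
    linarith [h1 i, hr i]
  have hr' : ∀ i, 0 ≤ r i := fun i => (hr i).le
  have h0 : ∀ i, ‖x i - x i‖ ≤ L * r i := fun i => by
    simpa using mul_nonneg hL (hr' i)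
  exact relU_change hr' (relU_mono H.pos (relU_comp h.relU0 fun i => ⟨x i, hx i⟩) hL hr' h1 h2)
    (jet_diff H g hr' hp h0) (jet_diff H (fun v => G (Sum.inl v)) hr' hp' h0)

end Pool.Agent.CA9.UB
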