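import Pool.Agent.Lib.MP_ca9be0_an.UB.S1a

/-! Step 1: the switch on one class and the jets of the rotated leaves. -/

namespace Pool.Agent.CA9.UB

open Finset Matrix Pool.Agent.Lib.MP_ca9be0_an.PyF

variable {N M m d : ℕ} {s : ℝ} {κ : Type}

/-- inclusion of a smaller family of balls -/
def nbm {z : κ → E N} {ρ : κ → ℝ} {η η' : ℝ} (h : η ≤ η') (hρ : ∀ k, 0 ≤ ρ k) (q : Nb z ρ η) :
    Nb z ρ η' := ⟨q.1, q.2.trans (mul_le_mul_of_nonneg_right h (hρ _))⟩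

theorem switch_cls (H : Hs d s) {g : Fin M → CF N d s} {σ : E N → ℝ} {G : Am m M → CF N d s}
    {J : E N → Matrix (Am m M) (Fin M) ℝ} (h : St g σ G J) {z p : κ → E N}
    (hz : ∀ k, 0 < σ (z k)) (hp : ∀ k, ‖z k - p k‖ ≤ σ (z k)) {S : κ → Fin m → E N → ℝ}
    {U : κ → E N → Matrix (Fin m) (Fin M) ℝ}
    (hU : RelB d s z (fun k => σ (z k)) (fun k w => (g w).P (p k)) S U) :
    ∃ (R : κ → E N → Matrix (Fin m) (Fin m) ℝ) (η : ℝ), 0 < η ∧ η ≤ 1 / 2 ∧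
      (∀ k y, (R k y)ᵀ * R k y = 1) ∧
      TM d (fun q : Nb z (fun k => σ (z k)) η => q.1.2) (fun q => σ (z q.1.1))
        (fun q => R q.1.1) ∧
      TW d s (fun q : Nb z (fun k => σ (z k)) η => q.1.2) (fun q => σ (z q.1.1)) fun q y =>
        R q.1.1 y *ᵥ evv (S q.1.1) y - evv (fun v => (G (Sum.inl v)).P (z q.1.1)) y := by
  obtain ⟨η₁, h1, hU⟩ := hU
  have hρ : ∀ k, 0 ≤ σ (z k) := fun k => (hz k).le
  set η₂ := min η₁ (1 / 2) with hη₂
  have h2 : 0 < η₂ := lt_min h1 one_half_pos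
  have hn : ∀ q : Nb z (fun k => σ (z k)) η₂, ‖q.1.2 - z q.1.1‖ ≤ 1 / 2 * σ (z q.1.1) :=
    fun q => q.2.trans (mul_le_mul_of_nonneg_right (min_le_right _ _) (hρ _))
  have hr : ∀ q : Nb z (fun k => σ (z k)) η₂, 0 ≤ σ (z q.1.1) := fun q => hρ _
  have new := relU_iff.1 (relU_comp hU (nbm (min_le_left η₁ (1 / 2)) hρ))
  have old := relU_iff.1 (h.relU H (x := fun q : Nb z (fun k => σ (z k)) η₂ => q.1.2)
    (r := fun q => σ (z q.1.1)) (fun q => hz _) (L := 2) zero_le_two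
    (fun q => by linarith [h.lip.le' (z q.1.1) q.1.2, hn q])
    (fun q => by linarith [h.lip.2 q.1.2 (z q.1.1), hn q, hρ q.1.1])
    (p := fun q => p q.1.1) (p' := fun q => z q.1.1)
    (fun q => by
      linarith [norm_sub_le_norm_sub_add_norm_sub q.1.2 (z q.1.1) (p q.1.1), hn q, hp q.1.1,
        hρ q.1.1])
    (fun q => by linarith [hn q, hρ q.1.1]))
  set V : κ → E N → Matrix (Fin m) (Fin m) ℝ := fun k y => blk J y * (U k y)ᵀ with hV
  have tV : TM d (fun q : Nb z (fun k => σ (z k)) η₂ => q.1.2) (fun q => σ (z q.1.1))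
      fun q => V q.1.1 := TM.mul hr old.1 new.1.tr
  have e1 : TW d s (fun q : Nb z (fun k => σ (z k)) η₂ => q.1.2) (fun q => σ (z q.1.1))
      fun q y => V q.1.1 y *ᵥ evv (S q.1.1) y - evv (fun v => (G (Sum.inl v)).P (z q.1.1)) y :=
    ((new.2.2.mul hr old.1).add old.2.1).congr' fun q y => by
      simp only [hV, nbm]
      rw [mulVec_sub, mulVec_mulVec]; abel
  have e2 : TW d s (fun q : Nb z (fun k => σ (z k)) η₂ => q.1.2) (fun q => σ (z q.1.1))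
      fun q y => (V q.1.1 y)ᵀ *ᵥ evv (fun v => (G (Sum.inl v)).P (z q.1.1)) y - evv (S q.1.1) y :=
    ((old.2.2.mul hr new.1).add new.2.1).congr' fun q y => by
      simp only [hV, nbm]
      rw [mulVec_sub, mulVec_mulVec, transpose_mul, transpose_transpose]; abel
  choose D hD hD1 using fun k => exists_signE (V k (z k))
  have tD : TM d (fun q : Nb z (fun k => σ (z k)) η₂ => q.1.2) (fun q => σ (z q.1.1))
      fun q _ => diagonal (D q.1.1) := TM.const hr 1 fun q a b => by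
    rw [diagonal_apply]
    split_ifs
    · rcases hD q.1.1 a with e | e <;> simp [e]
    · simp
  obtain ⟨C, η₃, hC, h3, hJ⟩ := TM.det hr ((tm_one hr).add (TM.mul hr tD tV))
  have hK := Kg_pos N d
  set τ := min 1 (1 / (2 * ((Kg N d + 1) * C))) with hτ
  have hτ0 : 0 < τ := lt_min one_pos (by positivity)
  have low : ∀ k y, ‖y - z k‖ ≤ τ * (η₃ * σ (z k)) →
      1 / 2 ≤ |(1 + diagonal (D k) * V k y).det| := fun k y hy => by
    have a0 : 0 < η₃ * σ (z k) := mul_pos h3 (hz k)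
    have a1 := (hJ ⟨(k, z k), by simpa using mul_nonneg h2.le (hρ k)⟩).2.lip (y := y)
      (hy.trans (mul_le_of_le_one_left a0.le (min_le_left _ _)))
    simp only [mul_one] at a1
    have a2 : ‖y - z k‖ / (η₃ * σ (z k)) ≤ 1 / (2 * ((Kg N d + 1) * C)) :=
      ((div_le_iff₀ a0).2 hy).trans (min_le_right _ _)
    have a3 : (Kg N d + 1) * C * (‖y - z k‖ / (η₃ * σ (z k))) ≤ 1 / 2 := by
      refine (mul_le_mul_of_nonneg_left a2 (by positivity)).trans (le_of_eq ?_)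
      field_simp
    have a4 := abs_sub_abs_le_abs_sub (1 + diagonal (D k) * V k (z k)).det
      (1 + diagonal (D k) * V k y).det
    rw [abs_sub_comm] at a4
    linarith [hD1 k]
  set η := min η₂ (τ * η₃ / 2) with hη
  obtain ⟨r1, r2⟩ := tm_switch (d := d) (s := s)
    (x := fun q : Nb z (fun k => σ (z k)) η => q.1.2)
    (r := fun q => σ (z q.1.1)) (fun q => hρ _) (tm_comp tV (nbm (min_le_left _ _) hρ))
    (σ := fun q => D q.1.1) (fun q => hD _) one_half_pos (η := τ * η₃ / 2) (by positivity)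
    (fun q y hy => low _ y (by
      have a1 := q.2.trans (mul_le_mul_of_nonneg_right (min_le_right _ _) (hρ _))
      have a2 := norm_sub_le_norm_sub_add_norm_sub y q.1.2 (z q.1.1)
      simp only [nbm] at *
      linarith))
    (e1.comp (nbm (min_le_left _ _) hρ)) (e2.comp (nbm (min_le_left _ _) hρ))
  exact ⟨fun k y => diagonal (D k) * cayE (swK (1 + diagonal (D k) * V k y)), η,
    lt_min h2 (by positivity), (min_le_left _ _).trans (min_le_right _ _),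
    fun k y => switch_orth _ (hD k) _, r1, r2⟩

lemma pb_all (H : Hs d s) {u : E N → ℝ} (hu : u ∈ Pd N d) {x : E N} {t C : ℝ} (ht : 0 < t)
    (hC : 0 ≤ C) (h : PB u x t (C * t ^ s)) (y : E N) :
    |u y| ≤ Kg N d * C * (t + ‖y - x‖) ^ s := by
  refine (h.grow hu ht y).trans ?_
  have h1 := pow_ratio_le H ht (le_add_of_nonneg_right (norm_nonneg (y - x)))
  have h2 : max 1 (‖y - x‖ / t) ≤ (t + ‖y - x‖) / t := by
    rw [add_div, div_self ht.ne']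
    have := div_nonneg (norm_nonneg (y - x)) ht.le
    exact max_le (by linarith) (by linarith)
  have h3 : t ^ s * max 1 (‖y - x‖ / t) ^ d ≤ t ^ s * ((t + ‖y - x‖) / t) ^ d := by gcongr
  have := Kg_pos N d
  calc Kg N d * (C * t ^ s) * max 1 (‖y - x‖ / t) ^ d
      = Kg N d * C * (t ^ s * max 1 (‖y - x‖ / t) ^ d) := by ring
    _ ≤ _ := mul_le_mul_of_nonneg_left (h3.trans h1) (by positivity)

lemma jet_field {A : Type} [Finite A] {z : κ → E N} {ρ : κ → ℝ} (hρ : ∀ k, 0 ≤ ρ k) {η : ℝ}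
    (hη : 0 < η) {W : κ → E N → A → ℝ}
    (h : TW d s (fun q : Nb z ρ η => q.1.2) (fun q => ρ q.1.1) fun q => W q.1.1) :
    ∃ (jt : κ → E N → A → E N → ℝ) (C η' : ℝ), 0 < C ∧ 0 < η' ∧ η' ≤ η ∧
      (∀ k x, PV d (jt k x)) ∧ ∀ k x, ‖x - z k‖ ≤ η * ρ k → ∀ a,
        J d false (fun y => W k y a - jt k x a y) x (η' * ρ k) (C * ρ k ^ s) ∧
        PB (jt k x a) x (η' * ρ k) (C * ρ k ^ s) := by
  obtain ⟨C, η', hC, h0, hle, h1⟩ := (TN.fin (fun q : Nb z ρ η => hρ q.1.1)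
    (fun q => Real.rpow_nonneg (hρ _) s) h).out hη
  have key : ∀ k x a, ∃ p ∈ Pd N d, ‖x - z k‖ ≤ η * ρ k →
      J d false (fun y => W k y a - p y) x (η' * ρ k) (C * ρ k ^ s) ∧
        PB p x (η' * ρ k) (C * ρ k ^ s) := fun k x a => by
    by_cases hx : ‖x - z k‖ ≤ η * ρ k
    · obtain ⟨p, hp, h2⟩ := h1 (a, ⟨(k, x), hx⟩)
      exact ⟨p, hp, fun _ => ⟨(J.false_iff (mul_nonneg h0.le (hρ k))).2
        ⟨mul_nonneg hC.le (Real.rpow_nonneg (hρ k) s), fun y hy => (h2 y hy).2⟩,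
        fun y hy => (h2 y hy).1⟩⟩
    · exact ⟨0, zero_mem _, fun h => absurd h hx⟩
  choose jt h2 h3 using key
  exact ⟨jt, C, η', hC, h0, hle, fun k x a => h2 k x a, fun k x hx a => h3 k x a hx⟩

/-- a finite set of leaves, one leaf and a centre -/
abbrev Tri1 (σ : E N → ℝ) (Q : ℕ) := {t : Finset (E N) × E N × E N //
  t.1.card ≤ Q ∧ t.2.1 ∈ t.1 ∧ 0 < σ t.2.2 ∧ ‖t.2.2 - t.2.1‖ ≤ σ t.2.2}

/-- the rotations and the jets of the rotated leaves of all possible classes -/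
structure Cls (d : ℕ) (s : ℝ) (σ : E N → ℝ) (Q : ℕ) (h : Fin m → CF N d s)
    (S : Finset (E N) → E N → Fin m → E N → ℝ) (R : Tri1 σ Q → E N → Matrix (Fin m) (Fin m) ℝ)
    (F : Tri1 σ Q → E N → E N → Fin m → E N → ℝ) (η C : ℝ) : Prop where
  η0 : 0 < η
  η1 : η ≤ 1
  C0 : 0 < C
  orth : ∀ t y, (R t y)ᵀ * R t y = 1
  tR : TM d (fun q : Nb (fun t : Tri1 σ Q => t.1.2.2) (fun t => σ t.1.2.2) η => q.1.2)
    (fun q => σ q.1.1.1.2.2) fun q => R q.1.1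
  pv : ∀ t p x, PV d (F t p x)
  jet : ∀ t, ∀ p ∈ t.1.1, ‖t.1.2.2 - p‖ ≤ σ t.1.2.2 → ∀ x, ‖x - t.1.2.2‖ ≤ η * σ t.1.2.2 → ∀ i,
    J d false (fun y => (R t y *ᵥ evv (S t.1.1 p) y) i - F t p x i y) x (η * σ t.1.2.2)
      (C * σ t.1.2.2 ^ s) ∧
    PB (fun y => F t p x i y - (h i).P t.1.2.2 y) x (η * σ t.1.2.2) (C * σ t.1.2.2 ^ s)

theorem exists_cls (H : Hs d s) {g : Fin M → CF N d s} {σ : E N → ℝ} {G : Am m M → CF N d s}
    {J : E N → Matrix (Am m M) (Fin M) ℝ} (h : St g σ G J) {Q : ℕ}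
    {S : Finset (E N) → E N → Fin m → E N → ℝ} (hS : ∀ P p, PV d (S P p)) {c : ℝ} (hc : 0 ≤ c)
    (hW : ∀ P : Finset (E N), P.card ≤ Q → ∀ p ∈ P, ∀ p' ∈ P, ∀ i y,
      |S P p i y - S P p' i y| ≤ c * (‖p - p'‖ + ‖y - p‖) ^ s)
    {U : Tri1 σ Q → E N → Matrix (Fin m) (Fin M) ℝ}
    (hU : RelB d s (fun t : Tri1 σ Q => t.1.2.2) (fun t => σ t.1.2.2)
      (fun t w => (g w).P t.1.2.1) (fun t => S t.1.1 t.1.2.1) U) :
    ∃ R F η C, Cls d s σ Q (fun v => G (Sum.inl v)) S R F η C := by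
  classical
  obtain ⟨R, η, h0, h1, ho, tR, tW⟩ := switch_cls H h (fun t : Tri1 σ Q => t.2.2.2.1)
    (fun t => t.2.2.2.2) hU
  let K := {u : Tri1 σ Q × E N // u.2 ∈ u.1.1.1 ∧ ‖u.1.1.2.2 - u.2‖ ≤ σ u.1.1.2.2}
  have hρ : ∀ u : K, 0 ≤ σ u.1.1.1.2.2 := fun u => u.1.1.2.2.2.1.le
  let f : Nb (fun u : K => u.1.1.1.2.2) (fun u => σ u.1.1.1.2.2) η →
      Nb (fun t : Tri1 σ Q => t.1.2.2) (fun t => σ t.1.2.2) η := fun q => ⟨(q.1.1.1.1, q.1.2), q.2⟩
  have dS : TW d s (fun q : Nb (fun u : K => u.1.1.1.2.2) (fun u => σ u.1.1.1.2.2) η => q.1.2)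
      (fun q => σ q.1.1.1.1.1.2.2) fun q y => evv (S q.1.1.1.1.1.1 q.1.1.1.2) y
        - evv (S q.1.1.1.1.1.1 q.1.1.1.1.1.2.1) y := fun i => by
    refine TN.poly (e := d) (η := 1) (C := c * 5 ^ s) (fun q => Pd_sub (hS _ _ i) (hS _ _ i))
      (fun q => hρ _) (fun q => Real.rpow_nonneg (hρ _) s) one_pos fun q y hy => ?_
    obtain ⟨⟨⟨⟨⟨⟨P, p0, z⟩, a1, a2, a3, a4⟩, p⟩, b1, b2⟩, x⟩, hx⟩ := q
    simp only at a1 a2 a3 a4 b1 b2 hx hy ⊢
    refine (hW P a1 p b1 p0 a2 i y).trans ?_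
    rw [mul_assoc]
    refine mul_le_mul_of_nonneg_left (rpow_le_mul H.pos (by positivity) a3.le (by norm_num) ?_) hc
    have c1 := norm_sub_le_norm_sub_add_norm_sub p z p0
    have c2 := norm_sub_le_norm_sub_add_norm_sub y x p
    have c3 := norm_sub_le_norm_sub_add_norm_sub x z p
    have c4 := mul_le_mul_of_nonneg_right h1 a3.le
    rw [norm_sub_rev p z] at c1
    linarith
  have tW' : TW d s (fun q : Nb (fun u : K => u.1.1.1.2.2) (fun u => σ u.1.1.1.2.2) η => q.1.2)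
      (fun q => σ q.1.1.1.1.1.2.2) fun q y => R q.1.1.1.1 y *ᵥ evv (S q.1.1.1.1.1.1 q.1.1.1.2) y
        - evv (fun v => (G (Sum.inl v)).P q.1.1.1.1.1.2.2) y :=
    ((tW.comp f).add (dS.mul (fun q => hρ _) (tm_comp tR f))).congr' fun q y => by
      simp only [f]
      rw [mulVec_sub]; abel
  obtain ⟨jt, C, η', hC, k0, k1, k2, k3⟩ := jet_field (z := fun u : K => u.1.1.1.2.2)
    (ρ := fun u => σ u.1.1.1.2.2) hρ h0
    (W := fun u y => R u.1.1 y *ᵥ evv (S u.1.1.1.1 u.1.2) y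
      - evv (fun v => (G (Sum.inl v)).P u.1.1.1.2.2) y) tW'
  refine ⟨R, fun t p x i y => (G (Sum.inl i)).P t.1.2.2 y +
    if hp : p ∈ t.1.1 ∧ ‖t.1.2.2 - p‖ ≤ σ t.1.2.2 then jt ⟨(t, p), hp⟩ x i y else 0, η', C,
    k0, by linarith, hC, ho, tm_comp tR (nbm k1 fun t => t.2.2.2.1.le), fun t p x i => ?_,
    fun t p b1 b2 x hx i => ?_⟩
  · refine Pd_add ((G _).mem _) ?_
    by_cases hp : p ∈ t.1.1 ∧ ‖t.1.2.2 - p‖ ≤ σ t.1.2.2
    · simp only [dif_pos hp]; exact k2 _ _ i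
    · simp only [dif_neg hp]; exact const_mem d 0
  · obtain ⟨m1, m2⟩ := k3 ⟨(t, p), b1, b2⟩ x
      (hx.trans (mul_le_mul_of_nonneg_right k1 t.2.2.2.1.le)) i
    simp only [dif_pos (And.intro b1 b2), add_sub_cancel_left]
    refine ⟨m1.congr fun y _ => ?_, m2⟩
    simp only [Pi.sub_apply, evv]
    ring

end Pool.Agent.CA9.UB
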