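import Mathlib

/-! Trees of special points: statements. -/

set_option autoImplicit false

namespace Pool.Agent.CA9.UB

variable {X : Type} [NormedAddCommGroup X]

/-- The facts on the margin `mg x ρ = a (x, ρ) / b (x, ρ)` that the trees use. -/
structure Mg (mg : X → ℝ → ℝ) : Prop where
  m2 : ∀ R : ℝ, ∃ C : ℝ, 1 ≤ C ∧ ∀ x ρ ρ', 0 < ρ → 0 < ρ' → ρ ≤ R * ρ' → ρ' ≤ R * ρ →
    mg x ρ' ≤ C * mg x ρ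
  f2 : ∃ e : ℕ, ∀ R : ℝ, ∃ ε : ℝ, 0 < ε ∧ ∀ (x : X) (ρ : ℝ), 0 < ρ → ∀ y : Fin (e + 1) → X,
    (∀ i, ‖y i - x‖ ≤ R * ρ) → (∀ i j, i ≠ j → ρ ≤ ‖y i - y j‖) → ∃ i, ε < mg (y i) ρ
  ic : ∀ R : ℝ, ∃ (ε B : ℝ) (q : ℕ), 0 < ε ∧ 1 ≤ B ∧ ∀ p : X, ∃ Cr : Finset ℝ, Cr.card ≤ q ∧
    ∀ ρ, 0 < ρ → (∀ c ∈ Cr, B * c < ρ ∨ B * ρ < c) → ∀ y, ‖y - p‖ ≤ R * ρ → mg y ρ ≤ ε →
      ‖y - p‖ < ρ / 4

/-- The output of Step 1 at the slowly varying scale `r`: the new scale `sg`, the set `Nr` of the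
points near a class, the centre `ct x` of that class, the leaves `P z` of the class with centre
`z` and a leaf `lf x` close to `x`. -/
structure Trees (mg : X → ℝ → ℝ) (Q : ℕ) (C ε : ℝ) (r : X → ℝ) where
  sg : X → ℝ
  Nr : Set X
  ct : X → X
  P : X → Finset X
  lf : X → X
  nonneg : ∀ x, 0 ≤ sg x
  lip : ∀ x y, sg x ≤ sg y + ‖x - y‖
  le : ∀ x, sg x ≤ r x
  margin : ∀ x, 0 < sg x → ε ≤ mg x (sg x)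
  far : ∀ x, x ∉ Nr → sg x = r x
  card : ∀ z, (P z).card ≤ Q
  pos : ∀ x ∈ Nr, 0 < r (ct x)
  cmp : ∀ x ∈ Nr, r x ≤ 2 * r (ct x) ∧ r (ct x) ≤ 2 * r x
  near : ∀ x ∈ Nr, ‖x - ct x‖ ≤ C * r (ct x)
  leaf : ∀ x ∈ Nr, ∀ p ∈ P (ct x), ‖p - ct x‖ ≤ C * r (ct x)
  lf_mem : ∀ x ∈ Nr, lf x ∈ P (ct x)
  lf_le : ∀ x ∈ Nr, ‖x - lf x‖ ≤ C * sg x
  sep : ∀ x ∈ Nr, ∀ x' ∈ Nr, ct x ≠ ct x' → r x ≤ ‖x - x'‖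

end Pool.Agent.CA9.UB
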