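import Pool.Agent.Lib.MP_ca9be0_an.UB.S1b
import Pool.Agent.Lib.MP_ca9be0_an.UB.TrD

/-! Step 1: the field of jets attached to the trees. -/

namespace Pool.Agent.CA9.UB

open Finset Matrix Pool.Agent.Lib.MP_ca9be0_an.PyF

variable {N M m d : ℕ} {s : ℝ}

lemma s1_orth_abs {R : Matrix (Fin m) (Fin m) ℝ} (h : Rᵀ * R = 1) (e : Fin m → ℝ) {b : ℝ}
    (he : ∀ j, |e j| ≤ b) (i : Fin m) : |(R *ᵥ e) i| ≤ m * b := by
  have h1 : ∀ j, |R i j| ≤ 1 := fun j => by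
    have a : ∑ k, R k j * R k j = 1 := by
      have := congrFun (congrFun h j) j
      simpa [mul_apply] using this
    have b := single_le_sum (f := fun k => R k j * R k j) (fun k _ => mul_self_nonneg _)
      (mem_univ i)
    exact abs_le_one_iff_mul_self_le_one.2 (a ▸ b)
  refine (abs_sum_le_sum_abs (fun j => R i j * e j) univ).trans ?_
  have : ∀ j ∈ (univ : Finset (Fin m)), |R i j * e j| ≤ b := fun j _ => by
    rw [abs_mul]
    exact (mul_le_of_le_one_left (abs_nonneg _) (h1 j)).trans (he j)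
  simpa using sum_le_card_nsmul univ (fun j => |R i j * e j|) b this

/-- the geometric data of the field: trees at the scale `σ / A` and the classes -/
structure Geo (σ : E N → ℝ) {mg : E N → ℝ → ℝ} {Q : ℕ} {C ε A : ℝ}
    (T : Trees mg Q C ε fun x => σ x / A) (η : ℝ) (tri : T.Nr → Tri1 σ Q) : Prop where
  lip : Lip1 σ
  C1 : 1 ≤ C
  A1 : 1 ≤ A
  big : 4 * C + 8 ≤ η * A
  z : ∀ x, (tri x).1.2.2 = T.ct x.1
  P : ∀ x, (tri x).1.1 = T.P (T.ct x.1)
  same : ∀ x x', T.ct x.1 = T.ct x'.1 → tri x = tri x'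

section geo
variable {σ : E N → ℝ} {mg : E N → ℝ → ℝ} {Q : ℕ} {C ε A : ℝ}
  {T : Trees mg Q C ε fun x => σ x / A} {η c : ℝ} {tri : T.Nr → Tri1 σ Q}
  {h : Fin m → CF N d s} {S : Finset (E N) → E N → Fin m → E N → ℝ}
  {R : Tri1 σ Q → E N → Matrix (Fin m) (Fin m) ℝ} {F : Tri1 σ Q → E N → E N → Fin m → E N → ℝ}

lemma Geo.sig (g : Geo σ T η tri) (x : E N) : σ x = A * (σ x / A) := by
  have := g.A1
  field_simp

lemma Geo.room (g : Geo σ T η tri) (x : T.Nr) :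
    (4 * C + 8) * (σ (T.ct x.1) / A) ≤ η * σ (T.ct x.1) := by
  have := mul_le_mul_of_nonneg_right g.big (T.pos x.1 x.2).le
  rwa [mul_assoc, ← g.sig] at this

lemma Geo.r_le (g : Geo σ T η tri) (x : E N) : σ x / A ≤ σ x :=
  div_le_self (g.lip.1 x) g.A1

lemma Geo.r_lip (g : Geo σ T η tri) (x y : E N) : σ x / A ≤ σ y / A + ‖x - y‖ := by
  have h0 : 0 < A := lt_of_lt_of_le one_pos g.A1
  have h1 := div_le_div_of_nonneg_right (g.lip.2 x y) h0.le
  rw [add_div] at h1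
  linarith [div_le_self (norm_nonneg (x - y)) g.A1]

lemma Geo.jet (g : Geo σ T η tri) (k : Cls d s σ Q h S R F η c) (x : T.Nr) {p : E N}
    (hp : p ∈ T.P (T.ct x.1)) {y : E N}
    (hy : ‖y - T.ct x.1‖ ≤ (C + 2) * (σ (T.ct x.1) / A)) (i : Fin m) :
    J d false (fun u => (R (tri x) u *ᵥ evv (S (T.P (T.ct x.1)) p) u) i - F (tri x) p y i u) y
      (η * σ (T.ct x.1)) (c * σ (T.ct x.1) ^ s) ∧
    PB (fun u => F (tri x) p y i u - (h i).P (T.ct x.1) u) y (η * σ (T.ct x.1))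
      (c * σ (T.ct x.1) ^ s) := by
  have a0 := T.pos x.1 x.2
  have a1 := g.room x
  have a2 := T.leaf x.1 x.2 p hp
  have a3 := mul_le_of_le_one_left (g.lip.1 (T.ct x.1)) k.η1
  have a4 := mul_le_mul_of_nonneg_right g.C1 a0.le
  have := k.jet (tri x) p (by rwa [g.P]) (by rw [g.z, norm_sub_rev]; linarith) y
    (by rw [g.z]; linarith) i
  rwa [g.z, g.P] at this

lemma Geo.near (_g : Geo σ T η tri) (x : T.Nr) :
    ‖x.1 - T.ct x.1‖ ≤ (C + 2) * (σ (T.ct x.1) / A) := by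
  linarith [T.near x.1 x.2, T.pos x.1 x.2]

lemma Geo.rem (H : Hs d s) (g : Geo σ T η tri) (k : Cls d s σ Q h S R F η c) (x : T.Nr)
    {p : E N} (hp : p ∈ T.P (T.ct x.1)) {y : E N}
    (hy : ‖y - T.ct x.1‖ ≤ (C + 2) * (σ (T.ct x.1) / A)) (i : Fin m) {u : E N} {t : ℝ}
    (hu : ‖u - y‖ ≤ t) (ht : t ≤ (4 * C + 8) * (σ (T.ct x.1) / A)) :
    |(R (tri x) u *ᵥ evv (S (T.P (T.ct x.1)) p) u) i - F (tri x) p y i u|
      ≤ c / η ^ (d + 1) * t ^ s := by
  refine (J.false_le H k.η0 k.η1 k.C0.le (g.jet k x hp hy i).1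
    (hu.trans (ht.trans (g.room x)))).trans ?_
  have := k.η0
  have := k.C0
  have := H.pos
  gcongr

open Classical in
/-- the field of jets -/
noncomputable def fld (T : Trees mg Q C ε fun x => σ x / A) (tri : T.Nr → Tri1 σ Q)
    (h : Fin m → CF N d s) (F : Tri1 σ Q → E N → E N → Fin m → E N → ℝ) (x : E N) :
    Fin m → E N → ℝ :=
  if hx : x ∈ T.Nr then F (tri ⟨x, hx⟩) (T.lf x) x else fun i => (h i).P x

lemma fld_pos {x : E N} (hx : x ∈ T.Nr) : fld T tri h F x = F (tri ⟨x, hx⟩) (T.lf x) x :=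
  dif_pos hx

lemma fld_neg {x : E N} (hx : x ∉ T.Nr) : fld T tri h F x = fun i => (h i).P x := dif_neg hx

lemma fld_pv (k : Cls d s σ Q h S R F η c) (x : E N) : PV d (fld T tri h F x) := by
  by_cases hx : x ∈ T.Nr
  · rw [fld_pos hx]; exact k.pv _ _ _
  · rw [fld_neg hx]; exact fun i => (h i).mem x

lemma fld_old (H : Hs d s) (g : Geo σ T η tri) (k : Cls d s σ Q h S R F η c) :
    ∃ C₁, 0 ≤ C₁ ∧ ∀ x ∈ T.Nr, ∀ i y,
      |fld T tri h F x i y - (h i).P x y| ≤ C₁ * (σ x / A + ‖y - x‖) ^ s := by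
  obtain ⟨Cg, hCg, hw⟩ := CF.whitney h
  have hA : 0 < A := lt_of_lt_of_le one_pos g.A1
  have hC : 0 < C := lt_of_lt_of_le one_pos g.C1
  have hc := k.C0
  have hK := Kg_pos N d
  refine ⟨Kg N d * (c * (2 * A) ^ s + Cg * ((1 + 2 * C) ^ s + 1)), by positivity,
    fun x hx i y => ?_⟩
  have a0 := T.pos x hx
  obtain ⟨a1, a2⟩ := T.cmp x hx
  have a3 : 0 < σ x / A := by linarith
  refine pb_all H (Pd_sub (fld_pv k x i) ((h i).mem x)) a3 (by positivity) (fun u hu => ?_) y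
  have a4 := g.room ⟨x, hx⟩
  have a5 := mul_le_mul_of_nonneg_right g.C1 a0.le
  have b1 := (g.jet k ⟨x, hx⟩ (T.lf_mem x hx) (g.near ⟨x, hx⟩) i).2 u (by
    simp only at a4 ⊢; linarith)
  have b2 := hw i (T.ct x) x u
  have b3 : σ (T.ct x) ^ s ≤ (2 * A) ^ s * (σ x / A) ^ s := by
    refine rpow_le_mul H.pos (g.lip.1 _) a3.le (by positivity) ?_
    rw [g.sig (T.ct x)]
    nlinarith
  have b4 : ‖u - T.ct x‖ ^ s ≤ (1 + 2 * C) ^ s * (σ x / A) ^ s := by
    refine rpow_le_mul H.pos (norm_nonneg _) a3.le (by positivity) ?_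
    have := norm_sub_le_norm_sub_add_norm_sub u x (T.ct x)
    have := T.near x hx
    nlinarith
  have b5 : ‖u - x‖ ^ s ≤ (σ x / A) ^ s := Real.rpow_le_rpow (norm_nonneg _) hu H.pos.le
  rw [fld_pos hx]
  simp only at b1
  have b6 := abs_sub_le (F (tri ⟨x, hx⟩) (T.lf x) x i u) ((h i).P (T.ct x) u) ((h i).P x u)
  have b7 := mul_le_mul_of_nonneg_left b3 hc.le
  have b8 := mul_le_mul_of_nonneg_left (add_le_add b4 b5) hCg
  linarith

lemma fld_same (H : Hs d s) (g : Geo σ T η tri) (k : Cls d s σ Q h S R F η c)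
    {c' : ℝ} (hc' : 0 ≤ c')
    (hW : ∀ P : Finset (E N), P.card ≤ Q → ∀ p ∈ P, ∀ p' ∈ P, ∀ i y,
      |S P p i y - S P p' i y| ≤ c' * (‖p - p'‖ + ‖y - p‖) ^ s) :
    ∃ C₂, 0 ≤ C₂ ∧ ∀ x ∈ T.Nr, ∀ x' ∈ T.Nr, T.ct x = T.ct x' → ∀ i y,
      |fld T tri h F x i y - fld T tri h F x' i y|
        ≤ C₂ * (T.sg x + T.sg x' + ‖x - x'‖ + ‖y - x‖) ^ s := by
  have hC : 0 < C := lt_of_lt_of_le one_pos g.C1
  have hc := k.C0
  have hη := k.η0
  have hK := Kg_pos N d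
  refine ⟨Kg N d * (c / η ^ (d + 1) * (1 + 2 ^ s) + m * (c' * (1 + 2 * C) ^ s)), by positivity,
    fun x hx x' hx' e i y => ?_⟩
  have n1 := T.nonneg x
  have n2 := T.nonneg x'
  have n3 := norm_nonneg (x - x')
  rcases (add_nonneg (add_nonneg n1 n2) n3).eq_or_lt with t0 | t0
  · have : x = x' := eq_of_norm_le_zero (by linarith)
    subst this
    rw [sub_self, abs_zero]
    positivity
  set t := T.sg x + T.sg x' + ‖x - x'‖ with ht
  refine pb_all H (Pd_sub (fld_pv k x i) (fld_pv k x' i)) t0 (by positivity) (fun u hu => ?_) y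
  have a0 := T.pos x hx
  have a1 : t ≤ (2 * C + 4) * (σ (T.ct x) / A) := by
    have b1 := norm_sub_le_norm_sub_add_norm_sub x (T.ct x) x'
    have b2 := T.near x' hx'
    have b3 := (T.cmp x' hx').1
    rw [← e] at b2 b3
    rw [norm_sub_rev (T.ct x)] at b1
    linarith [T.near x hx, (T.cmp x hx).1, T.le x, T.le x']
  have a2 := mul_pos hC a0
  have u' : ‖u - x'‖ ≤ 2 * t := by linarith [norm_sub_le_norm_sub_add_norm_sub u x x']
  have r1 := g.rem H k ⟨x, hx⟩ (T.lf_mem x hx) (g.near ⟨x, hx⟩) i hu (by simp only; linarith)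
  have r2 := g.rem H k ⟨x', hx'⟩ (T.lf_mem x' hx') (g.near ⟨x', hx'⟩) i u'
    (by simp only [← e]; linarith)
  rw [fld_pos hx, fld_pos hx']
  simp only [← e, ← g.same ⟨x, hx⟩ ⟨x', hx'⟩ e] at r1 r2 ⊢
  rw [Real.mul_rpow zero_le_two t0.le] at r2
  have r3 := s1_orth_abs (k.orth (tri ⟨x, hx⟩) u)
    (evv (S (T.P (T.ct x)) (T.lf x)) u - evv (S (T.P (T.ct x)) (T.lf x')) u)
    (b := c' * ((1 + 2 * C) ^ s * t ^ s)) (fun j => by
      refine (hW _ (T.card _) _ (T.lf_mem x hx) _ (e ▸ T.lf_mem x' hx') j u).trans ?_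
      refine mul_le_mul_of_nonneg_left
        (rpow_le_mul H.pos (by positivity) t0.le (by positivity) ?_) hc'
      have b1 := norm_sub_le_norm_sub_add_norm_sub (T.lf x) x (T.lf x')
      have b2 := norm_sub_le_norm_sub_add_norm_sub x x' (T.lf x')
      have b3 := norm_sub_le_norm_sub_add_norm_sub u x (T.lf x)
      have b4 := T.lf_le x hx
      have b5 := T.lf_le x' hx'
      have b6 := mul_le_mul_of_nonneg_right g.C1 n3
      have b7 : C * T.sg x ≤ C * t := mul_le_mul_of_nonneg_left (by linarith) hC.le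
      have b8 : C * t = C * T.sg x + C * T.sg x' + C * ‖x - x'‖ := by rw [ht]; ring
      rw [norm_sub_rev (T.lf x) x] at b1
      linarith) i
  rw [mulVec_sub, Pi.sub_apply] at r3
  rw [abs_le] at r1 r2 r3 ⊢
  constructor <;> linarith [r1.1, r1.2, r2.1, r2.2, r3.1, r3.2]

lemma fld_whit (H : Hs d s) (g : Geo σ T η tri) (k : Cls d s σ Q h S R F η c)
    {c' : ℝ} (hc' : 0 ≤ c')
    (hW : ∀ P : Finset (E N), P.card ≤ Q → ∀ p ∈ P, ∀ p' ∈ P, ∀ i y,
      |S P p i y - S P p' i y| ≤ c' * (‖p - p'‖ + ‖y - p‖) ^ s) :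
    ∃ C₃, ∀ x x' y i, |fld T tri h F x i y - fld T tri h F x' i y|
        ≤ C₃ * (T.sg x + T.sg x' + ‖x - x'‖ + ‖y - x‖) ^ s := by
  obtain ⟨C₁, h1, k1⟩ := fld_old H g k
  obtain ⟨C₂, h2, k2⟩ := fld_same H g k hc' hW
  obtain ⟨Cg, hCg, hw⟩ := CF.whitney h
  refine ⟨C₂ + (C₁ * 2 ^ s + Cg + Cg + C₁ * 2 ^ s), fun x x' y i => ?_⟩
  have n1 := T.nonneg x
  have n2 := T.nonneg x'
  have n3 := norm_nonneg (x - x')
  have n4 := norm_nonneg (y - x)
  set t := T.sg x + T.sg x' + ‖x - x'‖ + ‖y - x‖ with ht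
  have t0 : 0 ≤ t := by linarith
  have ts : 0 ≤ t ^ s := Real.rpow_nonneg t0 s
  have p1 : 0 ≤ C₁ * 2 ^ s * t ^ s := by positivity
  have p2 := mul_nonneg hCg ts
  have p3 := mul_nonneg h2 ts
  by_cases hs : x ∈ T.Nr ∧ x' ∈ T.Nr ∧ T.ct x = T.ct x'
  · linarith [k2 x hs.1 x' hs.2.1 hs.2.2 i y]
  have y' : ‖y - x'‖ ≤ t := by linarith [norm_sub_le_norm_sub_add_norm_sub y x x']
  have one : ∀ a b : E N, ¬ (a ∈ T.Nr ∧ b ∈ T.Nr ∧ T.ct a = T.ct b) → T.sg b + ‖a - b‖ ≤ t →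
      ‖y - a‖ ≤ t → |fld T tri h F a i y - (h i).P a y| ≤ C₁ * 2 ^ s * t ^ s := by
    intro a b hab b1 b2
    by_cases ha : a ∈ T.Nr
    · refine (k1 a ha i y).trans ?_
      rw [mul_assoc]
      have b3 : σ a / A ≤ t := by
        by_cases hb : b ∈ T.Nr
        · linarith [T.sep a ha b hb fun e => hab ⟨ha, hb, e⟩, T.nonneg b]
        · linarith [T.far b hb, g.r_lip a b]
      have b4 : 0 ≤ σ a / A := (T.nonneg a).trans (T.le a)
      exact mul_le_mul_of_nonneg_left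
        (rpow_le_mul H.pos (by positivity) t0 zero_le_two (by linarith)) h1
    · rw [fld_neg ha, sub_self, abs_zero]
      exact p1
  have o1 := one x x' hs (by linarith) (by linarith)
  have o2 := one x' x (fun e => hs ⟨e.2.1, e.1, e.2.2.symm⟩)
    (by rw [norm_sub_rev]; linarith) y'
  have o3 := hw i x x' y
  have o4 : ‖y - x‖ ^ s ≤ t ^ s := Real.rpow_le_rpow n4 (by linarith) H.pos.le
  have o5 : ‖y - x'‖ ^ s ≤ t ^ s := Real.rpow_le_rpow (norm_nonneg _) y' H.pos.le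
  have o6 := mul_le_mul_of_nonneg_left (add_le_add o4 o5) hCg
  rw [abs_le] at o1 o2 o3 ⊢
  constructor <;> linarith [o1.1, o1.2, o2.1, o2.2, o3.1, o3.2]

lemma fld_val (H : Hs d s) (g : Geo σ T η tri) (k : Cls d s σ Q h S R F η c) {x : E N}
    (hx : x ∈ T.Nr) (h0 : T.sg x = 0) :
    ∑ i, fld T tri h F x i x ^ 2 = ∑ i, S (T.P (T.ct x)) x i x ^ 2 ∧ x ∈ T.P (T.ct x) := by
  have e : x = T.lf x := eq_of_norm_le_zero (by simpa [h0] using T.lf_le x hx)
  have hm := T.lf_mem x hx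
  have a0 := T.pos x hx
  have hC := g.C1
  refine ⟨?_, by rwa [← e] at hm⟩
  rw [fld_pos hx, ← e]
  rw [← e] at hm
  refine Eq.trans (sum_congr rfl fun i _ => ?_)
    (orth_sq (k.orth (tri ⟨x, hx⟩) x) (evv (S (T.P (T.ct x)) x) x))
  have := g.rem H k ⟨x, hx⟩ hm (g.near ⟨x, hx⟩) i (u := x) (t := 0) (by simp) (by positivity)
  rw [Real.zero_rpow H.pos.ne', mul_zero, abs_nonpos_iff, sub_eq_zero] at this
  rw [this]

lemma fld_rot (H : Hs d s) (g : Geo σ T η tri) (k : Cls d s σ Q h S R F η c) {ι : Type}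
    (x : ι → T.Nr) (y : ι → E N) (h0 : ∀ i, 0 < T.sg (x i).1)
    (hy : ∀ i, ‖y i - (x i).1‖ ≤ T.sg (x i).1) :
    TM d y (fun i => T.sg (x i).1) (fun i => R (tri (x i))) ∧
      TW d s y (fun i => T.sg (x i).1) fun i u =>
        R (tri (x i)) u *ᵥ evv (S (T.P (T.ct (x i).1)) (T.lf (x i).1)) u
          - evv (fld T tri h F (x i).1) u := by
  have a1 : ∀ i, T.sg (x i).1 ≤ 2 * (σ (T.ct (x i).1) / A) := fun i =>
    (T.le _).trans (T.cmp _ (x i).2).1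
  have a2 : ∀ i, T.sg (x i).1 ≤ 2 * σ (T.ct (x i).1) := fun i => by
    linarith [a1 i, g.r_le (T.ct (x i).1)]
  have a3 : ∀ i, ‖y i - T.ct (x i).1‖ ≤ (C + 2) * (σ (T.ct (x i).1) / A) := fun i => by
    linarith [norm_sub_le_norm_sub_add_norm_sub (y i) (x i).1 (T.ct (x i).1), hy i, a1 i,
      T.near _ (x i).2]
  have a4 : ∀ i, 0 < C * (σ (T.ct (x i).1) / A) := fun i =>
    mul_pos (lt_of_lt_of_le one_pos g.C1) (T.pos _ (x i).2)
  have hr : ∀ i, 0 ≤ T.sg (x i).1 := fun i => (h0 i).le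
  refine ⟨tm_mono (tm_comp k.tR fun i => ⟨(tri (x i), y i), ?_⟩) 2 hr fun i => ?_, fun j => ?_⟩
  · simp only [g.z]
    linarith [a3 i, g.room (x i), a4 i, T.pos _ (x i).2]
  · simp only [g.z]; exact a2 i
  have t1 : TN d false y (fun i => σ (T.ct (x i).1)) (fun i u =>
      (R (tri (x i)) u *ᵥ evv (S (T.P (T.ct (x i).1)) (T.lf (x i).1)) u) j
        - F (tri (x i)) (T.lf (x i).1) (y i) j u) fun i => σ (T.ct (x i).1) ^ s :=
    ⟨c, η, k.C0, k.η0, fun i => ⟨g.lip.1 _, (g.jet k (x i) (T.lf_mem _ (x i).2) (a3 i) j).1⟩⟩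
  have t2 : TN d true y (fun i => T.sg (x i).1) (fun i u =>
      F (tri (x i)) (T.lf (x i).1) (y i) j u - F (tri (x i)) (T.lf (x i).1) (x i).1 j u)
      fun i => T.sg (x i).1 ^ s := by
    refine TN.poly (e := d) (η := 1) (C := c / η ^ (d + 1) * (1 + 2 ^ s))
      (fun i => Pd_sub (k.pv _ _ _ j) (k.pv _ _ _ j)) hr (fun i => Real.rpow_nonneg (hr i) s)
      one_pos fun i u hu => ?_
    rw [one_mul] at hu
    have p0 := T.pos _ (x i).2
    have r1 := g.rem H k (x i) (T.lf_mem _ (x i).2) (a3 i) j hu (by linarith [a1 i, a4 i])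
    have r2 := g.rem H k (x i) (T.lf_mem _ (x i).2) (g.near (x i)) j (u := u)
      (t := 2 * T.sg (x i).1)
      (by linarith [norm_sub_le_norm_sub_add_norm_sub u (y i) (x i).1, hy i])
      (by linarith [a1 i, a4 i])
    rw [Real.mul_rpow zero_le_two (hr i)] at r2
    rw [abs_le] at r1 r2 ⊢
    constructor <;> linarith [r1.1, r1.2, r2.1, r2.2]
  refine (((t1.resc H.pos H.2 2 two_pos hr a2).weaken (b := true)).add t2).congr' fun i u => ?_
  simp only [Pi.sub_apply, evv, fld_pos (x i).2]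
  ring

end geo

end Pool.Agent.CA9.UB
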