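import Pool.Agent.Lib.MP_ca9be0_an.UB.S1

/-! Forms and frames. -/

namespace Pool.Agent.CA9.UB

open Finset Matrix Pool.Agent.Lib.MP_ca9be0_an.PyF

variable {σ ι : Type} [Fintype σ] {D D' k m N : ℕ} {F F' : (σ → ℝ) → ℝ}

theorem Hd.mul (h : Hd D F) (h' : Hd D' F') : Hd (D + D') fun x => F x * F' x :=
  ((h.hk (ι := Unit)).mul h'.hk).hd ()

theorem Hd.hom (h : Hd D F) (t : ℝ) (x : σ → ℝ) : F (t • x) = t ^ D * F x := by
  obtain ⟨c, h⟩ := h
  rw [h, h, mul_sum]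
  refine sum_congr rfl fun f _ => ?_
  simp only [mo, Pi.smul_apply, smul_eq_mul, prod_mul_distrib, prod_const, card_univ,
    Fintype.card_fin]
  ring

theorem Hd.lp (h : Hd D F) : LP D F := by
  obtain ⟨c, h⟩ := h
  refine (LP.sum univ fun f _ => LP.smul (c f) ?_).congr fun x => (h x).symm
  have h1 := LP.prod (X := σ → ℝ) univ (F := fun j x => x (f j)) (e := 1)
    fun j _ => LP.linear (LinearMap.proj (R := ℝ) (φ := fun _ => ℝ) (f j))
  rw [card_univ, Fintype.card_fin, mul_one] at h1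
  exact h1

theorem frm_zero (ξ : σ → ℝ) (v : Fin k → σ → ℝ) : frm ξ v 0 = ξ := by
  simp [frm]

/-- the affine span of a child lies in the affine span of the parent -/
theorem frm_child (ξ : σ → ℝ) (v : Fin (k + 1) → σ → ℝ) (i : Fin (k + 1)) (z : E (k + 1)) :
    frm ξ v z = frm (ξ + z i • v i) (i.removeNth v) (WithLp.toLp 2 fun j => z (i.succAbove j)) := by
  rw [frm, frm, Fin.sum_univ_succAbove _ i, add_assoc]
  rfl

theorem frm_child' (ξ : σ → ℝ) (v : Fin (k + 1) → σ → ℝ) (i : Fin (k + 1)) (b : ℝ) (z : E k) :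
    ∃ z' : E (k + 1), z' i = b ∧ frm (ξ + b • v i) (i.removeNth v) z = frm ξ v z' := by
  refine ⟨WithLp.toLp 2 (i.insertNth b fun j => z j), by simp, ?_⟩
  rw [frm_child ξ v i]
  simp

theorem Hd.frm_mem (h : Hd m F) (hm : m ≤ D) (ξ : σ → ℝ) (v : Fin k → σ → ℝ) :
    (fun z => F (frm ξ v z)) ∈ Pd k D := by
  obtain ⟨c, h⟩ := h
  simp only [h]
  refine Pd_mono hm (Pd_sum _ fun f _ => Pd_smul _ ?_)
  have h1 : ∀ s, (fun z => frm ξ v z s) ∈ Pd k 1 := fun s => by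
    simp only [frm, Pi.add_apply, Finset.sum_apply, Pi.smul_apply, smul_eq_mul, mul_comm _ (v _ s)]
    exact Pd_add (const_mem _ _) (Pd_sum _ fun l _ => Pd_smul _ (gen_mem (some l)))
  have h2 : ∀ t : Finset (Fin m), (fun z => ∏ j ∈ t, frm ξ v z (f j)) ∈ Pd k t.card := fun t => by
    induction t using Finset.induction_on with
    | empty => simpa using const_mem (n := k) 0 1
    | insert i t hi ih =>
      simp only [prod_insert hi, card_insert_of_notMem hi]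
      rw [add_comm]
      exact Pd_mul (h1 _) ih
  simpa [mo] using h2 univ

/-- expansion of a form on the linear span of a frame -/
theorem Hd.expand (h : Hd D F) (ξ : σ → ℝ) (v : Fin k → σ → ℝ) (l : ℝ) (ζ : E k) :
    F (l • ξ + ∑ j, ζ j • v j) = ∑ a, (co ((bs k D).γ a) fun z => F (frm ξ v z)) *
      (l ^ (D - (bs k D).deg a) * (bs k D).m a ζ) := by
  have h1 : Continuous fun l : ℝ => F (l • ξ + ∑ j, ζ j • v j) := by
    obtain ⟨c, h⟩ := h
    simp only [h, mo]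
    fun_prop
  have h2 : Continuous fun l : ℝ => ∑ a, (co ((bs k D).γ a) fun z => F (frm ξ v z)) *
      (l ^ (D - (bs k D).deg a) * (bs k D).m a ζ) := by fun_prop
  refine congrFun (Continuous.ext_on (dense_compl_singleton 0) h1 h2 fun l hl => ?_) l
  have hl' : l ≠ 0 := hl
  have e1 : l • ξ + ∑ j, ζ j • v j = l • frm ξ v (l⁻¹ • ζ) := by
    simp only [frm, smul_add, smul_sum, PiLp.smul_apply, smul_eq_mul, smul_smul,
      mul_inv_cancel_left₀ hl']
  beta_reduce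
  rw [e1, h.hom, (bs k D).exp _ (h.frm_mem le_rfl ξ v) (l⁻¹ • ζ), mul_sum]
  refine sum_congr rfl fun a _ => ?_
  rw [(bs k D).hom, pow_sub₀ l hl' ((bs k D).le a), inv_pow]
  ring

/-- two forms that agree on the affine span of a frame agree on its linear span -/
theorem Hd.ext_frm (h : Hd D F) (h' : Hd D F') (ξ : σ → ℝ) (v : Fin k → σ → ℝ)
    (e : ∀ z, F (frm ξ v z) = F' (frm ξ v z)) (l : ℝ) (ζ : E k) :
    F (l • ξ + ∑ j, ζ j • v j) = F' (l • ξ + ∑ j, ζ j • v j) := by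
  rw [h.expand, h'.expand, funext e]

theorem Hd.ext_hv {F F' : (Fin (N + 1) → ℝ) → ℝ} (h : Hd D F) (h' : Hd D F')
    (e : ∀ y : E N, F (hv 1 y) = F' (hv 1 y)) (x : Fin (N + 1) → ℝ) : F x = F' x := by
  have e1 : ∀ (l : ℝ) (z : E N), l • hv 1 (0 : E N) +
      ∑ j, z j • hv 0 (EuclideanSpace.single j (1 : ℝ)) = hv l z := fun l z => by
    funext s
    refine Fin.cases ?_ (fun i => ?_) s <;> simp [hv]
  have e2 := h.ext_frm h' (hv 1 0) (fun j => hv 0 (EuclideanSpace.single j (1 : ℝ)))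
    (fun z => by rw [frm, ← one_smul ℝ (hv 1 (0 : E N)), e1, e]) (x 0)
    (WithLp.toLp 2 fun i => x i.succ)
  rw [e1] at e2
  have e3 : hv (x 0) (WithLp.toLp 2 fun i => x i.succ : E N) = x := by
    funext s
    refine Fin.cases ?_ (fun i => ?_) s <;> simp [hv]
  rwa [e3] at e2

theorem s2_dot (l ξ : σ → ℝ) (v : Fin k → σ → ℝ) (a : ℝ) (z : Fin k → ℝ) :
    l ⬝ᵥ (a • ξ + ∑ j, z j • v j) = a * l ⬝ᵥ ξ + ∑ j, z j * l ⬝ᵥ v j := by
  simp only [dotProduct_add, dotProduct_sum, dotProduct_smul, smul_eq_mul]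

/-- the dual forms of a family of frames -/
theorem Fr.dual {R : ℝ} {ξ : ι → σ → ℝ} {v : ι → Fin k → σ → ℝ} (h : ∀ t, Fr R (ξ t) (v t)) :
    ∃ (l₀ : ι → (σ → ℝ) → ℝ) (l : Fin k → ι → (σ → ℝ) → ℝ), HK 1 l₀ ∧ (∀ i, HK 1 (l i)) ∧
      (∀ t z, l₀ t (frm (ξ t) (v t) z) = 1) ∧ ∀ t z i, l i t (frm (ξ t) (v t) z) = z i := by
  choose l₀ l h1 h2 h3 h4 h5 h6 using fun t => (h t).2
  have e : ∀ t z, frm (ξ t) (v t) z = (1 : ℝ) • ξ t + ∑ j, z j • v t j := fun t z => by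
    rw [one_smul, frm]
  refine ⟨fun t x => l₀ t ⬝ᵥ x, fun i t x => l t i ⬝ᵥ x, HK.dot (C := R) fun t s =>
    (single_le_sum (f := fun s => |l₀ t s|) (fun _ _ => abs_nonneg _) (mem_univ s)).trans (h1 t),
    fun i => HK.dot (C := R) fun t s => (single_le_sum (f := fun s => |l t i s|)
      (fun _ _ => abs_nonneg _) (mem_univ s)).trans (h2 t i), fun t z => ?_, fun t z i => ?_⟩
  · simp only [e, s2_dot, h3, h4, mul_zero, sum_const_zero, add_zero, mul_one]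
  · simp only [e, s2_dot, h5, h6, mul_zero, zero_add, mul_ite, mul_one, sum_ite_eq, mem_univ,
      if_true]

theorem Fr.span {R : ℝ} {ξ : σ → ℝ} {v : Fin k → σ → ℝ} (h : Fr R ξ v)
    (hk : Fintype.card σ = k + 1) (x : σ → ℝ) : ∃ (l : ℝ) (ζ : E k), x = l • ξ + ∑ j, ζ j • v j := by
  obtain ⟨-, l₀, l, -, -, h3, h4, h5, h6⟩ := h
  have h1 : LinearIndependent ℝ (Fin.cons ξ v : Fin (k + 1) → σ → ℝ) := by
    refine Fintype.linearIndependent_iff.2 fun g hg i => ?_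
    simp only [Fin.sum_univ_succ, Fin.cons_zero, Fin.cons_succ] at hg
    refine Fin.cases ?_ (fun i => ?_) i
    · simpa [dotProduct_sum, h3, h4] using congrArg (l₀ ⬝ᵥ ·) hg
    · simpa [dotProduct_sum, h5, h6] using congrArg (l i ⬝ᵥ ·) hg
  have h2 := h1.span_eq_top_of_card_eq_finrank' (by simp [hk])
  obtain ⟨c, hc⟩ := (Submodule.mem_span_range_iff_exists_fun ℝ).1
    (h2 ▸ Submodule.mem_top (x := x))
  refine ⟨c 0, WithLp.toLp 2 fun j => c j.succ, ?_⟩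
  simpa only [Fin.sum_univ_succ, Fin.cons_zero, Fin.cons_succ] using hc.symm

theorem s2_hM (a : BA N D) (y : E N) : (bs N D).m a y = ∑ f, hM N D a f * mo f (hv 1 y) :=
  (exists_hM ((bs N D).mem a)).choose_spec y

/-- a bounded family of polynomials on the coordinate space lifts to forms -/
theorem lift_forms {p : ι → E k → ℝ} {C : ℝ} (hp : ∀ t, p t ∈ Pd k D) (hC : ∀ t, PB (p t) 0 1 C)
    {l₀ : ι → (σ → ℝ) → ℝ} {l : Fin k → ι → (σ → ℝ) → ℝ} (h₀ : HK 1 l₀) (h₁ : ∀ i, HK 1 (l i)) :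
    ∃ G : ι → (σ → ℝ) → ℝ, HK D G ∧
      ∀ t x (z : E k), l₀ t x = 1 → (∀ i, l i t x = z i) → G t x = p t z := by
  let L : Fin (k + 1) → ι → (σ → ℝ) → ℝ := Fin.cons l₀ l
  have hL : ∀ s, HK 1 (L s) := fun s => Fin.cases h₀ h₁ s
  refine ⟨fun t x => ∑ a, co ((bs k D).γ a) (p t) * ∑ f, hM k D a f * ∏ j, L (f j) t x,
    HK.sum _ fun a _ => HK.smul (C := ∑ z ∈ ((bs k D).γ a).support,
      |(bs k D).γ a z| * (Kg k D * C * max 1 (‖z - 0‖ / 1) ^ D)) (fun t => ?_)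
      (HK.sum _ fun f _ => HK.smul (fun _ => le_rfl)
        ((HK.prod univ (e := fun _ => 1) fun j _ => hL (f j)).cast (by simp))),
    fun t x z e₀ e₁ => ?_⟩
  · refine (abs_sum_le_sum_abs _ _).trans (sum_le_sum fun z _ => ?_)
    rw [abs_mul]
    exact mul_le_mul_of_nonneg_left ((hC t).grow (hp t) one_pos z) (abs_nonneg _)
  · have e : ∀ s, L s t x = hv 1 z s := fun s => Fin.cases e₀ e₁ s
    simp only [e]
    rw [(bs k D).exp _ (hp t) z]
    exact sum_congr rfl fun a _ => by rw [s2_hM]; rfl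

theorem lift_hv {p : ι → E N → ℝ} {C : ℝ} (hp : ∀ t, p t ∈ Pd N D) (hC : ∀ t, PB (p t) 0 1 C) :
    ∃ G : ι → (Fin (N + 1) → ℝ) → ℝ, HK D G ∧ ∀ t y, G t (hv 1 y) = p t y := by
  have h1 : ∀ s : Fin (N + 1), HK 1 fun (_ : ι) (x : Fin (N + 1) → ℝ) => x s := fun s =>
    (HK.mo (K := ℝ) fun _ : Fin 1 => s).congr fun t x => by simp [mo]
  obtain ⟨G, hG, h⟩ := lift_forms hp hC (h1 0) fun i => h1 i.succ
  exact ⟨G, hG, fun t y => h t _ y (by simp [hv]) fun i => by simp [hv]⟩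

theorem lift_hd {p : E N → ℝ} (hp : p ∈ Pd N D) :
    ∃ G : (Fin (N + 1) → ℝ) → ℝ, Hd D G ∧ ∀ y, G (hv 1 y) = p y := by
  obtain ⟨c, hc⟩ := exists_hM hp
  exact ⟨fun x => ∑ f, c f * mo f x, ⟨c, fun _ => rfl⟩, fun y => (hc y).symm⟩

theorem Hd.hv_mem {F : (Fin (N + 1) → ℝ) → ℝ} (h : Hd m F) (hm : m ≤ D) :
    (fun y : E N => F (hv 1 y)) ∈ Pd N D := by
  have e1 : ∀ z : E N, frm (hv 1 (0 : E N)) (fun j => hv 0 (EuclideanSpace.single j (1 : ℝ))) z =
      hv 1 z := fun z => by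
    funext s
    refine Fin.cases ?_ (fun i => ?_) s <;> simp [frm, hv]
  simpa only [e1] using h.frm_mem hm (hv 1 (0 : E N))
    fun j => hv 0 (EuclideanSpace.single j (1 : ℝ))

theorem norm_hv (t : ℝ) (y : E N) : ‖hv t y‖ ≤ max |t| ‖y‖ := by
  refine (pi_norm_le_iff_of_nonneg (le_max_of_le_left (abs_nonneg t))).2 fun s => ?_
  refine Fin.cases ?_ (fun i => ?_) s
  · exact le_max_left _ _
  · exact (PiLp.norm_apply_le y i).trans (le_max_right _ _)

theorem HK.hv_bdd {G : ι → (Fin (N + 1) → ℝ) → ℝ} (h : HK D G) :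
    ∃ C, ∀ t, PB (fun y : E N => G t (hv 1 y)) 0 1 C := by
  obtain ⟨C, hC⟩ := h.bdd 1
  refine ⟨C, fun t y hy => hC t _ ((norm_hv 1 y).trans (max_le (by simp) ?_))⟩
  simpa using hy

variable {r r' : Type} [Fintype r] [Fintype r'] {M d : ℕ}

theorem hF_hd (φ : r → r' → Fin M → ℝ) (d : ℕ) (T : Fin M → E N → ℝ) (i : r) (j : r') :
    Hd d (hF φ d T i j) := ⟨_, fun _ => rfl⟩

theorem hF_hv (φ : r → r' → Fin M → ℝ) {T : Fin M → E N → ℝ} (hT : PV d T) (i : r) (j : r')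
    (y : E N) : hF φ d T i j (hv 1 y) = ∑ m, φ i j m * T m y := by
  have h1 : ∀ a, (bs N d).m a y = ∑ f, hM N d a f * mo f (hv 1 y) :=
    fun a => (exists_hM ((bs N d).mem a)).choose_spec y
  simp only [hF, sum_mul]
  rw [sum_comm]
  refine sum_congr rfl fun m _ => ?_
  rw [(bs N d).exp _ (hT m) y]
  simp only [h1, mul_sum, sum_mul]
  rw [sum_comm]
  exact sum_congr rfl fun _ _ => sum_congr rfl fun _ _ => by ring

section gr
variable {Θ : Type} {Q : ℕ → (Θ → ℝ) → Prop} {e : ℕ}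

theorem gr_Pd (p : ℕ) : Gr fun e (f : E p → ℝ) => f ∈ Pd p e :=
  ⟨const_mem 0, Pd_add, Pd_mul, fun h he => Pd_mono he h⟩

theorem gr_LP (X : Type) [AddCommGroup X] [Module ℝ X] : Gr fun e (f : X → ℝ) => LP e f :=
  ⟨LP.const 0, LP.add, LP.mul, LP.mono⟩

theorem Gr.sum (h : Gr Q) {α : Type} (s : Finset α) {f : α → Θ → ℝ} (hf : ∀ a ∈ s, Q e (f a)) :
    Q e fun x => ∑ a ∈ s, f a x := by
  induction s using Finset.cons_induction with
  | empty => simpa using h.mono (h.const 0) (Nat.zero_le e)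
  | cons a s ha ih =>
    simp only [sum_cons]
    exact h.add (hf a (mem_cons_self a s)) (ih fun b hb => hf b (mem_cons_of_mem hb))

theorem Gr.prod (h : Gr Q) {α : Type} (s : Finset α) {f : α → Θ → ℝ} (hf : ∀ a ∈ s, Q e (f a)) :
    Q (s.card * e) fun x => ∏ a ∈ s, f a x := by
  induction s using Finset.cons_induction with
  | empty => simpa using h.const 1
  | cons a s ha ih =>
    simp only [prod_cons, card_cons]
    exact h.mono (h.mul (hf a (mem_cons_self a s)) (ih fun b hb => hf b (mem_cons_of_mem hb)))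
      (le_of_eq (by ring))

theorem Gr.det (h : Gr Q) {A : Type} [Fintype A] [DecidableEq A] {X : Θ → Matrix A A ℝ}
    (hX : ∀ a b, Q e fun x => X x a b) : Q (Fintype.card A * e) fun x => (X x).det := by
  simp only [det_apply']
  exact h.sum _ fun τ _ => h.mono (h.mul (h.const _) (h.prod univ fun i _ => hX (τ i) i))
    (le_of_eq (by rw [zero_add, card_univ]))

theorem Gr.co (h : Gr Q) (γ : E k →₀ ℝ) {f : Θ → E k → ℝ} (hf : ∀ z, Q e fun θ => f θ z) :
    Q e fun θ => co γ (f θ) :=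
  h.sum _ fun z _ => h.mono (h.mul (h.const (γ z)) (hf z)) (zero_add e).le

/-- a form with graded coefficients on a graded frame -/
theorem Gr.form (h : Gr Q) {a : ℕ} {c : Θ → (Fin D → σ) → ℝ} {ξ : Θ → σ → ℝ}
    {v : Θ → Fin k → σ → ℝ} (hc : ∀ f, Q a fun θ => c θ f) (hξ : ∀ s, Q a fun θ => ξ θ s)
    (hv : ∀ l s, Q a fun θ => v θ l s) (z : E k) :
    Q ((D + 1) * a) fun θ => ∑ f, c θ f * mo f (frm (ξ θ) (v θ) z) := by
  have h1 : ∀ s, Q a fun θ => frm (ξ θ) (v θ) z s := fun s => by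
    simp only [frm, Pi.add_apply, Finset.sum_apply, Pi.smul_apply, smul_eq_mul]
    exact h.add (hξ s) (h.sum _ fun j _ => h.mono (h.mul (h.const (z j)) (hv j s)) (zero_add a).le)
  exact h.sum _ fun f _ => h.mono (h.mul (hc f) (h.prod univ fun j _ => h1 (f j)))
    (le_of_eq (by rw [card_univ, Fintype.card_fin]; ring))

end gr

end Pool.Agent.CA9.UB
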