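import Pool.Agent.Lib.MP_ca9be0_an.UB.S0
import Pool.Agent.Lib.MP_ca9be0_an.UB.La1

/-! Roots of real polynomials. -/

namespace Pool.Agent.CA9.UB

open Finset Matrix Pool.Agent.Lib.MP_ca9be0_an.PyF

open Polynomial

lemma sm_fact (P : ℝ[X]) : P.map (algebraMap ℝ ℂ) =
    C (P.leadingCoeff : ℂ) * ((P.aroots ℂ).map fun z => X - C z).prod := by
  have := C_leadingCoeff_mul_prod_multiset_X_sub_C (p := P.map (algebraMap ℝ ℂ))
    (IsAlgClosed.card_roots_eq_natDegree)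
  rw [leadingCoeff_map] at this
  exact this.symm

lemma sm_ev (P : ℝ[X]) (b : ℝ) : ((P.eval b : ℝ) : ℂ) = (P.map (algebraMap ℝ ℂ)).eval (b : ℂ) :=
  (eval_map_algebraMap P (algebraMap ℝ ℂ b)).trans (aeval_algebraMap_apply_eq_algebraMap_eval b P)
    |>.symm

lemma sm_ev_prod (s : Multiset ℂ) (b : ℂ) :
    (s.map fun z => X - C z).prod.eval b = (s.map fun z => b - z).prod := by
  simp [eval_multiset_prod]

lemma sm_enum (a : ℕ) : ∀ s : Multiset ℂ, s.card ≤ a → ∃ zs : Fin a → Option ℂ,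
    (∀ j z, zs j = some z → z ∈ s) ∧ (∀ f : ℂ → ℂ, ∏ j, (zs j).elim 1 f = (s.map f).prod) ∧
      (univ.filter fun j => (zs j).isSome).card = s.card := by
  induction a with
  | zero => exact fun s hs => ⟨Fin.elim0, by simp, by simp_all, by simp_all⟩
  | succ a ih =>
    intro s hs
    induction s using Multiset.induction_on with
    | empty => exact ⟨fun _ => none, by simp, by simp, by simp⟩
    | cons z s _ =>
      obtain ⟨zs, h1, h2, h3⟩ := ih s (by simpa using hs)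
      refine ⟨Fin.cons (some z) zs, fun j => Fin.cases (by simp +contextual)
        (fun j w h => Multiset.mem_cons_of_mem (h1 j w h)) j, fun f => by
        simp [Fin.prod_univ_succ, h2], ?_⟩
      rw [Multiset.card_cons, ← h3, card_filter, card_filter, Fin.sum_univ_succ, add_comm]
      simp

theorem sm_roots (e : ℕ) {c : ℝ} (hc : 0 < c) : ∃ R : ℝ, ∀ P : ℝ[X], Top c e P →
    ∃ β : Fin e → ℂ, (∀ m, ‖β m‖ ≤ R ∧ aeval (β m) P = 0) ∧
      ∀ b : ℝ, ((P.eval b / P.coeff e : ℝ) : ℂ) = ∏ m, ((b : ℂ) - β m) := by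
  obtain ⟨R, -, h⟩ := root_near e hc
  obtain ⟨δ, δ0, h⟩ := h 1 one_pos
  refine ⟨R, fun P hP => ?_⟩
  have dP : P.natDegree = e := le_antisymm hP.1 (le_natDegree_of_ne_zero hP.2.1.ne')
  have cd : (P.aroots ℂ).card = e := IsAlgClosed.card_aroots_eq_natDegree.trans dP
  obtain ⟨zs, h1, h2, h3⟩ := sm_enum e _ cd.le
  have h4 : ∀ j, (zs j).isSome := fun j => by
    have := (card_filter_eq_iff.1 (h3.trans (cd.trans (by simp)))) j (mem_univ j)
    exact this
  choose β hβ using fun j => Option.isSome_iff_exists.1 (h4 j)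
  have h5 : ∀ m, aeval (β m) P = 0 := fun m => (mem_aroots.1 (h1 m _ (hβ m))).2
  refine ⟨β, fun m => ⟨(h P P hP hP.1 (by rw [sub_self, map_zero, norm_zero]; positivity) _
    (h5 m)).1, h5 m⟩, fun b => ?_⟩
  have := h2 fun z => (b : ℂ) - z
  simp only [hβ, Option.elim_some] at this
  rw [this, Complex.ofReal_div, sm_ev, sm_fact, eval_mul, eval_C, sm_ev_prod, leadingCoeff, dP,
    mul_div_cancel_left₀ _ (Complex.ofReal_ne_zero.2 hP.2.1.ne')]

/-- the factor that belongs to a set of roots defined by the absolute value is real -/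
lemma sm_real (P : ℝ[X]) (p : ℝ → Prop) [DecidablePred p] : ∃ Q : ℝ[X], Q.Monic ∧
    Q.map (algebraMap ℝ ℂ) = (((P.aroots ℂ).filter fun z => p ‖z‖).map fun z => X - C z).prod := by
  have h1 : (P.aroots ℂ).map (starRingEnd ℂ) = P.aroots ℂ := by
    have := roots_map_of_injective_of_card_eq_natDegree (p := P.map (algebraMap ℝ ℂ))
      (starRingEnd ℂ).injective IsAlgClosed.card_roots_eq_natDegree
    rw [Polynomial.map_map, show (starRingEnd ℂ).comp (algebraMap ℝ ℂ) = algebraMap ℝ ℂ from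
      RingHom.ext fun x => Complex.conj_ofReal x] at this
    exact this
  have h2 : ((P.aroots ℂ).filter fun z => p ‖z‖).map (starRingEnd ℂ) =
      (P.aroots ℂ).filter fun z => p ‖z‖ := by
    conv_rhs => rw [← h1, Multiset.filter_map]
    simp only [Function.comp_def, Complex.norm_conj]
  generalize (P.aroots ℂ).filter (fun z => p ‖z‖) = s at h2
  have h3 : (s.map fun z => X - C z).prod.map (starRingEnd ℂ) = (s.map fun z => X - C z).prod := by
    conv_rhs => rw [← h2]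
    simp [Polynomial.map_multiset_prod]
  obtain ⟨Q, a, -, b⟩ := lifts_and_natDegree_eq_and_monic (f := algebraMap ℝ ℂ)
    ((lifts_iff_coeff_lifts _).2 fun n => ⟨((s.map fun z => X - C z).prod.coeff n).re,
      Complex.conj_eq_iff_re.1 (by rw [← coeff_map, h3])⟩) (monic_multisetProd_X_sub_C s)
  exact ⟨Q, b, a⟩

lemma sm_prod_le {s : Multiset ℂ} {f g : ℂ → ℂ} {L : ℝ} (h : ∀ z ∈ s, ‖f z‖ ≤ L * ‖g z‖) :
    ‖(s.map f).prod‖ ≤ L ^ s.card * ‖(s.map g).prod‖ := by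
  induction s using Multiset.induction_on with
  | empty => simp
  | cons z s ih =>
    simp only [Multiset.map_cons, Multiset.prod_cons, norm_mul, Multiset.card_cons]
    have h1 := h z (Multiset.mem_cons_self _ _)
    refine (mul_le_mul h1 (ih fun w hw => h w (Multiset.mem_cons_of_mem hw)) (norm_nonneg _)
      ((norm_nonneg _).trans h1)).trans (le_of_eq (by ring))

theorem sm_split (a : ℕ) {R ε : ℝ} (C : ℝ) (hR : 1 ≤ R) (hε : 0 < ε) : ∃ K c : ℝ, 0 < c ∧
    ∀ Δ : ℝ[X], Δ.natDegree ≤ a → (∀ τ, |τ| ≤ 1 → |Δ.eval τ| ≤ C) →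
      (∃ τ, |τ| ≤ 1 ∧ ε ≤ |Δ.eval τ|) → ∃ (Δn Δf : ℝ[X]) (zs : Fin a → Option ℂ), Δ = Δn * Δf ∧
        (∀ j z, zs j = some z → ‖z‖ ≤ 2 * R) ∧
        (∀ τ : ℝ, ((Δn.eval τ : ℝ) : ℂ) = ∏ j, (zs j).elim 1 fun z => (τ : ℂ) - z) ∧
        (univ.filter fun j => (zs j).isSome).card + Δf.natDegree ≤ a ∧
        (∀ l, |Δf.coeff l| ≤ K) ∧ ∀ τ, |τ| ≤ R → c ≤ |Δf.eval τ| := by
  obtain ⟨K, K1, hK⟩ := coeff_bd a
  have cb : ∀ q : ℝ[X], q.natDegree ≤ a → ∀ B : ℝ, (∀ t, 0 ≤ t → t ≤ 1 → |q.eval t| ≤ B) →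
      ∀ l, |q.coeff l| ≤ K * B := fun q hq B h l => by
    by_cases hl : l ≤ a
    · exact (single_le_sum (f := fun m => |q.coeff m|) (fun _ _ => abs_nonneg _)
        (mem_range.2 (Nat.lt_succ_of_le hl))).trans (hK q hq B h)
    · rw [coeff_eq_zero_of_natDegree_lt (by omega), abs_zero]
      exact (sum_nonneg fun _ _ => abs_nonneg _).trans (hK q hq B h)
  refine ⟨K * (K * (3 ^ a * C)), ε / ((3 * R) ^ a * 3 ^ a), by positivity,
    fun Δ hd hC ⟨τ₀, t0, t1⟩ => ?_⟩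
  obtain ⟨Δn, mn, en⟩ := sm_real Δ (· ≤ 2 * R)
  have f1 := sm_fact Δ
  have cd : (Δ.aroots ℂ).card = Δ.natDegree := IsAlgClosed.card_aroots_eq_natDegree
  have sp := Multiset.filter_add_not (fun z : ℂ => ‖z‖ ≤ 2 * R) (Δ.aroots ℂ)
  have hs : ∀ z ∈ (Δ.aroots ℂ).filter (fun z : ℂ => ‖z‖ ≤ 2 * R), ‖z‖ ≤ 2 * R :=
    fun z hz => (Multiset.mem_filter.1 hz).2
  have ht : ∀ z ∈ (Δ.aroots ℂ).filter (fun z : ℂ => ¬ ‖z‖ ≤ 2 * R), 2 * R < ‖z‖ :=
    fun z hz => not_le.1 (Multiset.mem_filter.1 hz).2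
  generalize (Δ.aroots ℂ).filter (fun z : ℂ => ‖z‖ ≤ 2 * R) = s at *
  generalize (Δ.aroots ℂ).filter (fun z : ℂ => ¬ ‖z‖ ≤ 2 * R) = t at *
  rw [← sp, Multiset.card_add] at cd
  rw [← sp, Multiset.map_add, Multiset.prod_add, ← en, mul_left_comm] at f1
  obtain ⟨Δf, e⟩ := (map_dvd_map' (algebraMap ℝ ℂ)).1 ⟨_, f1⟩
  have ef : Δf.map (algebraMap ℝ ℂ) =
      Polynomial.C (Δ.leadingCoeff : ℂ) * (t.map fun z => X - Polynomial.C z).prod :=
    mul_left_cancel₀ (mn.map _).ne_zero (by rw [← f1, ← Polynomial.map_mul, ← e])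
  have dn : Δn.natDegree = s.card := by
    rw [← natDegree_map (algebraMap ℝ ℂ), en, natDegree_multiset_prod_X_sub_C_eq_card]
  have df : Δf.natDegree ≤ t.card := by
    rw [← natDegree_map (algebraMap ℝ ℂ), ef]
    exact (natDegree_C_mul_le _ _).trans (natDegree_multiset_prod_X_sub_C_eq_card _).le
  obtain ⟨zs, h1, h2, h3⟩ := sm_enum a s (by omega)
  have nr : ∀ (q : ℝ[X]) (τ : ℝ), |q.eval τ| = ‖(q.map (algebraMap ℝ ℂ)).eval (τ : ℂ)‖ :=
    fun q τ => by rw [← sm_ev, Complex.norm_real, Real.norm_eq_abs]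
  have cmp : ∀ τ τ' : ℝ, |τ| ≤ R → |τ'| ≤ R → |Δf.eval τ| ≤ 3 ^ a * |Δf.eval τ'| :=
    fun τ τ' h h' => by
      rw [nr, nr, ef, eval_mul, eval_mul, eval_C, eval_C, norm_mul, norm_mul, sm_ev_prod,
        sm_ev_prod, mul_left_comm]
      refine mul_le_mul_of_nonneg_left ((sm_prod_le (L := 3) fun z hz => ?_).trans
        (mul_le_mul_of_nonneg_right (pow_le_pow_right₀ (by norm_num) (by omega)) (norm_nonneg _)))
        (norm_nonneg _)
      have b1 := norm_sub_le (τ : ℂ) z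
      have b2 := norm_sub_norm_le z (τ' : ℂ)
      rw [norm_sub_rev] at b2
      rw [Complex.norm_real, Real.norm_eq_abs] at b1 b2
      linarith [ht z hz]
  have up : |Δn.eval τ₀| ≤ (3 * R) ^ a := by
    rw [nr, en, sm_ev_prod]
    refine (sm_prod_le (L := 3 * R) (g := fun _ => 1) fun z hz => ?_).trans ?_
    · have b1 := norm_sub_le (τ₀ : ℂ) z
      rw [Complex.norm_real, Real.norm_eq_abs] at b1
      rw [norm_one]
      linarith [hs z hz]
    · simpa using pow_le_pow_right₀ (by linarith : 1 ≤ 3 * R) (by omega : s.card ≤ a)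
  refine ⟨Δn, Δf, zs, e, fun j z h => hs z (h1 j z h), fun τ => by
    rw [h2, sm_ev, en, sm_ev_prod], by omega, cb Δf (by omega) _ fun τ a0 a1 => ?_,
    fun τ hτ => ?_⟩
  · have := cb (Polynomial.C (Δf.eval τ) * Δn) ((natDegree_C_mul_le _ _).trans (by omega))
      (3 ^ a * C) (fun τ' b0 b1 => ?_) Δn.natDegree
    · rwa [coeff_C_mul, mn.coeff_natDegree, mul_one] at this
    have b2 : |τ'| ≤ 1 := abs_le.2 ⟨by linarith, b1⟩
    have b3 := hC τ' b2
    rw [e, eval_mul, abs_mul] at b3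
    rw [eval_mul, eval_C, abs_mul]
    refine (mul_le_mul_of_nonneg_right (cmp τ τ' (abs_le.2 ⟨by linarith, by linarith⟩)
      (b2.trans hR)) (abs_nonneg _)).trans ?_
    rw [mul_assoc, mul_comm |_|]
    exact mul_le_mul_of_nonneg_left b3 (by positivity)
  · rw [div_le_iff₀ (by positivity), mul_comm, mul_assoc]
    rw [e, eval_mul, abs_mul] at t1
    exact t1.trans (mul_le_mul up (cmp τ₀ τ (t0.trans hR) hτ) (abs_nonneg _) (by positivity))

end Pool.Agent.CA9.UB
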