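import Pool.Agent.Lib.MP_ca9be0_an.UB.S3m
import Pool.Agent.Lib.MP_ca9be0_an.UB.S2
import Pool.Agent.Lib.MP_ca9be0_an.UB.S3r
import Pool.Agent.Lib.MP_ca9be0_an.UB.La5

/-! Bounded membership and matrices. -/

namespace Pool.Agent.CA9.UB

open Finset Matrix Pool.Agent.Lib.MP_ca9be0_an.PyF

variable {σ ι r r' : Type} [Fintype σ] [Fintype r] [Fintype r'] [DecidableEq r] {k d D e : ℕ}

section mem
variable {Φ : ι → r → r' → (σ → ℝ) → ℝ} {A A' : ι → Set (σ → ℝ)} {f f' : ι → r → (σ → ℝ) → ℝ}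

theorem Mem.congr (h : Mem d D Φ A f) (hA : ∀ t, A' t ⊆ A t)
    (he : ∀ t, ∀ x ∈ A' t, ∀ i, f' t i x = f t i x) : Mem d D Φ A' f' := by
  obtain ⟨w, e, h1, h2, h3⟩ := h
  exact ⟨w, e, h1, h2, fun t x hx i => (he t x hx i).trans (h3 t x (hA t hx) i)⟩

theorem Mem.comp {κ : Type} (h : Mem d D Φ A f) (g : κ → ι) :
    Mem d D (fun t => Φ (g t)) (fun t => A (g t)) fun t => f (g t) := by
  obtain ⟨w, e, h1, h2, h3⟩ := h
  exact ⟨fun j t => w j (g t), fun i t => e i (g t), fun j => (h1 j).comp g,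
    fun i => (h2 i).comp g, fun t => h3 (g t)⟩

theorem Mem.mul (h : Mem d D Φ A f) {H : ι → (σ → ℝ) → ℝ} (hH : HK e H) :
    Mem d (D + e) Φ A fun t i x => H t x * f t i x := by
  obtain ⟨w, u, h1, h2, h3⟩ := h
  refine ⟨fun j t x => w j t x * H t x, fun i t x => u i t x * H t x, fun j => (h1 j).mul hH,
    fun i => ((h2 i).mul hH).cast (by ring), fun t x hx i => ?_⟩
  beta_reduce
  rw [h3 t x hx i, mul_add, mul_sum, mul_comm (H t x)]
  exact congrArg (· + u i t x * H t x) (sum_congr rfl fun _ _ => by ring)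

theorem Mem.add (h : Mem d D Φ A f) (h' : Mem d D Φ A f') :
    Mem d D Φ A fun t i x => f t i x + f' t i x := by
  obtain ⟨w, u, h1, h2, h3⟩ := h
  obtain ⟨w', u', h1', h2', h3'⟩ := h'
  refine ⟨fun j t x => w j t x + w' j t x, fun i t x => u i t x + u' i t x,
    fun j => (h1 j).add (h1' j), fun i => (h2 i).add (h2' i), fun t x hx i => ?_⟩
  simp only [h3 t x hx i, h3' t x hx i, mul_add, sum_add_distrib]
  ring

theorem Mem.sum {α : Type} (s : Finset α) {g : α → ι → r → (σ → ℝ) → ℝ}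
    (h : ∀ a ∈ s, Mem d D Φ A (g a)) : Mem d D Φ A fun t i x => ∑ a ∈ s, g a t i x := by
  classical
  induction s using Finset.induction_on with
  | empty =>
    exact ⟨fun _ _ _ => 0, fun _ _ _ => 0, fun _ => HK.zero _, fun _ => HK.zero _,
      fun t x _ i => by simp⟩
  | insert a s ha ih =>
    exact ((h a (mem_insert_self _ _)).add (ih fun b hb => h b (mem_insert_of_mem hb))).congr
      (fun _ => subset_rfl) fun t x _ i => sum_insert ha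

/-- raising the degree on an affine hyperplane -/
theorem Mem.raise (h : Mem d D Φ A f) {l₀ : ι → (σ → ℝ) → ℝ} (h₀ : HK 1 l₀)
    (h₁ : ∀ t, ∀ x ∈ A t, l₀ t x = 1) {D' : ℕ} (hD : D ≤ D') : Mem d D' Φ A f := by
  obtain ⟨a, rfl⟩ := Nat.exists_eq_add_of_le hD
  exact (h.mul ((h₀.pow a).cast (mul_one a))).congr (fun _ => subset_rfl)
    fun t x hx i => by rw [h₁ t x hx, one_pow, one_mul]

theorem Mem.col (c : Col σ r r' d D) : Mem d D Φ A fun t => col (Φ t) c := by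
  classical
  rcases c with ⟨j, μ⟩ | ⟨l, μ⟩
  · refine ⟨fun j' _ x => if j' = j then mo μ x else 0, fun _ _ _ => 0, fun j' => ?_,
      fun _ => HK.zero _, fun t x _ i => by simp [Pool.Agent.CA9.UB.col]⟩
    by_cases h : j' = j
    · exact (HK.mo μ).congr fun _ _ => (if_pos h).symm
    · exact (HK.zero _).congr fun _ _ => (if_neg h).symm
  · refine ⟨fun _ _ _ => 0, fun i _ x => if i = l then mo μ x else 0, fun _ => HK.zero _,
      fun i => ?_, fun t x _ i => by simp [Pool.Agent.CA9.UB.col]⟩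
    by_cases h : i = l
    · exact (HK.mo μ).congr fun _ _ => (if_pos h).symm
    · exact (HK.zero _).congr fun _ _ => (if_neg h).symm

theorem Mem.cols (h : Mem d D Φ A f) : ∃ (ω : ι → Col σ r r' d D → ℝ) (C : ℝ),
    (∀ t c, |ω t c| ≤ C) ∧
      ∀ t, ∀ x ∈ A t, ∀ i, f t i x = ∑ c, ω t c * Pool.Agent.CA9.UB.col (Φ t) c i x := by
  obtain ⟨w, u, h1, h2, h3⟩ := h
  choose c C hc hw using h1
  choose c' C' hc' hu using h2
  refine ⟨fun t => Sum.elim (fun p => c p.1 t p.2) fun p => c' p.1 t p.2,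
    ∑ j, |C j| + ∑ i, |C' i|, fun t q => ?_, fun t x hx i => ?_⟩
  · have a1 : 0 ≤ ∑ j, |C j| := by positivity
    have a2 : 0 ≤ ∑ i, |C' i| := by positivity
    rcases q with ⟨j, μ⟩ | ⟨l, μ⟩
    · exact (hc j t μ).trans ((le_abs_self _).trans ((single_le_sum (f := fun j => |C j|)
        (fun _ _ => abs_nonneg _) (mem_univ j)).trans (le_add_of_nonneg_right a2)))
    · exact (hc' l t μ).trans ((le_abs_self _).trans ((single_le_sum (f := fun j => |C' j|)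
        (fun _ _ => abs_nonneg _) (mem_univ l)).trans (le_add_of_nonneg_left a1)))
  · rw [h3 t x hx i, Fintype.sum_sum_type, Fintype.sum_prod_type, Fintype.sum_prod_type, hu,
      sum_eq_single i (fun l _ hl => by simp [Pool.Agent.CA9.UB.col, hl.symm]) (by simp)]
    simp only [Pool.Agent.CA9.UB.col, Sum.elim_inl, Sum.elim_inr, if_true, hw, mul_sum]
    exact congrArg₂ (· + ·)
      (sum_congr rfl fun _ _ => sum_congr rfl fun _ _ => mul_left_comm _ _ _) rfl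

/-- a bounded preimage under the matrix of the module -/
theorem Mem.pre {ξ : ι → σ → ℝ} {v : ι → Fin k → σ → ℝ}
    (h : Mem d D Φ (fun t => Set.range (frm (ξ t) (v t))) f) :
    ∃ (ω : ι → Col σ r r' d D → ℝ) (C : ℝ), (∀ t c, |ω t c| ≤ C) ∧
      ∀ t, Mx d D (Φ t) (ξ t) (v t) *ᵥ ω t = rv (D + d) (ξ t) (v t) (f t) := by
  obtain ⟨ω, C, h1, h2⟩ := h.cols
  refine ⟨ω, C, h1, fun t => funext fun p => ?_⟩
  simp only [rv, h2 t _ (Set.mem_range_self _), co_sum, mulVec, dotProduct, Mx, of_apply]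
  exact sum_congr rfl fun _ _ => mul_comm _ _

theorem col_hd {Φ : r → r' → (σ → ℝ) → ℝ} (hΦ : ∀ i j, Hd d (Φ i j)) (c : Col σ r r' d D) (i : r) :
    Hd (D + d) (col Φ c i) := by
  have h1 : ∀ {D : ℕ} (μ : Fin D → σ), Hd D (mo μ) :=
    fun μ => (HK.mo (K := ℝ) (ι := Unit) μ).hd ()
  rcases c with ⟨j, μ⟩ | ⟨l, μ⟩
  · obtain ⟨c, hc⟩ := (h1 μ).mul (hΦ i j)
    exact ⟨c, fun x => (mul_comm _ _).trans (hc x)⟩
  · by_cases h : i = l
    · obtain ⟨c, hc⟩ := h1 μ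
      exact ⟨c, fun x => (if_pos h).trans (hc x)⟩
    · exact ⟨0, fun x => by simp [col, h]⟩

/-- the converse, on the frame -/
theorem Mx_eval {Φ : r → r' → (σ → ℝ) → ℝ} (hΦ : ∀ i j, Hd d (Φ i j)) {ξ : σ → ℝ}
    {v : Fin k → σ → ℝ} {ψ : r → (σ → ℝ) → ℝ} (hψ : ∀ i, ∃ m ≤ D + d, Hd m (ψ i))
    {ω : Col σ r r' d D → ℝ} {P : ℝ} (h : Mx d D Φ ξ v *ᵥ ω = P • rv (D + d) ξ v ψ) (z : E k)
    (i : r) : P * ψ i (frm ξ v z) = ∑ c, ω c * col Φ c i (frm ξ v z) := by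
  obtain ⟨m, hm, hψ⟩ := hψ i
  have h1 : ∀ a, ∑ c, ω c * co ((bs k (D + d)).γ a) (fun z => col Φ c i (frm ξ v z)) =
      P * co ((bs k (D + d)).γ a) fun z => ψ i (frm ξ v z) := fun a =>
    (sum_congr rfl fun _ _ => mul_comm _ _).trans (congrFun h (i, a))
  have h2 := fun c => (bs k (D + d)).exp _ ((col_hd (D := D) hΦ c i).frm_mem le_rfl ξ v) z
  rw [(bs k (D + d)).exp _ (hψ.frm_mem hm ξ v) z, mul_sum]
  simp only [← mul_assoc, ← h1, sum_mul]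
  rw [sum_comm]
  refine sum_congr rfl fun c _ => ?_
  rw [h2 c, mul_sum]
  exact sum_congr rfl fun _ _ => mul_assoc _ _ _

end mem

section mat
variable {A B : Type} [Fintype A] [Fintype B] [DecidableEq A]

theorem gram_nonneg (X : Matrix A B ℝ) : 0 ≤ (X * Xᵀ).det :=
  s3m_nonneg X

theorem gram_pos {X : Matrix A B ℝ} (h : ∀ y : A → ℝ, y ᵥ* X = 0 → y = 0) :
    0 < (X * Xᵀ).det :=
  s3m_pos h

theorem canon_pre (X : Matrix A B ℝ) (ψ : A → ℝ) :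
    X *ᵥ (Xᵀ *ᵥ ((X * Xᵀ).adjugate *ᵥ ψ)) = (X * Xᵀ).det • ψ :=
  s3m_pre X ψ

/-- the canonical preimage is the orthogonal projection of any preimage -/
theorem canon_bd (X : Matrix A B ℝ) (ω : B → ℝ) {C : ℝ} (h : ∀ b, |ω b| ≤ C) (b : B) :
    |(Xᵀ *ᵥ ((X * Xᵀ).adjugate *ᵥ (X *ᵥ ω))) b| ≤ Fintype.card B * C * (X * Xᵀ).det :=
  s3m_bd X ω h b

variable (A B) in
theorem gram_right (C : ℝ) : ∃ K : ℝ, 0 < K ∧ ∀ (X : Matrix A B ℝ) (Y : Matrix B B ℝ),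
    (∀ a b, |Y a b| ≤ C) → (X * Y * (X * Y)ᵀ).det ≤ K * (X * Xᵀ).det :=
  s3m_right A B C

variable (A B) in
theorem gram_left (C : ℝ) : ∃ K : ℝ, 0 < K ∧ ∀ (X : Matrix A B ℝ) (S : Matrix A A ℝ),
    (∀ a b, |S a b| ≤ C) → (S * X * (S * X)ᵀ).det ≤ K * (X * Xᵀ).det :=
  s3m_left A B C

end mat

open Polynomial in
/-- enumeration of the roots -/
theorem roots_enum (e : ℕ) {c : ℝ} (hc : 0 < c) : ∃ R : ℝ, ∀ P : ℝ[X], Top c e P →
    ∃ β : Fin e → ℂ, (∀ m, ‖β m‖ ≤ R ∧ aeval (β m) P = 0) ∧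
      ∀ b : ℝ, ((P.eval b / P.coeff e : ℝ) : ℂ) = ∏ m, ((b : ℂ) - β m) := by
  exact sm_roots e hc

open Polynomial in
/-- near and far roots -/
theorem split_roots (a : ℕ) {R ε : ℝ} (C : ℝ) (hR : 1 ≤ R) (hε : 0 < ε) : ∃ K c : ℝ, 0 < c ∧
    ∀ Δ : ℝ[X], Δ.natDegree ≤ a → (∀ τ, |τ| ≤ 1 → |Δ.eval τ| ≤ C) →
      (∃ τ, |τ| ≤ 1 ∧ ε ≤ |Δ.eval τ|) → ∃ (Δn Δf : ℝ[X]) (zs : Fin a → Option ℂ), Δ = Δn * Δf ∧
        (∀ j z, zs j = some z → ‖z‖ ≤ 2 * R) ∧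
        (∀ τ : ℝ, ((Δn.eval τ : ℝ) : ℂ) = ∏ j, (zs j).elim 1 fun z => (τ : ℂ) - z) ∧
        (univ.filter fun j => (zs j).isSome).card + Δf.natDegree ≤ a ∧
        (∀ l, |Δf.coeff l| ≤ K) ∧ ∀ τ, |τ| ≤ R → c ≤ |Δf.eval τ| := by
  exact sm_split a C hR hε

/-- a finite set that contains a common good point for boundedly many polynomials -/
theorem common_net (X : Type) [NormedAddCommGroup X] [NormedSpace ℝ X] [FiniteDimensional ℝ X]
    (I : Type) [Fintype I] (e : ℕ) (R : ℝ) : ∃ (U : Finset X) (K : ℝ), 0 < K ∧ ∀ f : I → X → ℝ,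
      (∀ i, LP e (f i)) → ∃ x ∈ U, ∀ i y, ‖y‖ ≤ R → |f i y| ≤ K * |f i x| :=
  (la_net X I e).imp fun _ h => h R

/-- products of two interpolation polynomials along the curve of scales -/
theorem exp_lg (s : ℝ) (e : ℕ) : ∃ (Ex : Finset ℝ) (α : ℕ → ℕ → ℝ → ℝ), ∀ i j, i ≤ e → j ≤ e →
    ∀ ρ : ℝ, 0 < ρ → (lg e i).eval (ρ ^ s)⁻¹ * (lg e j).eval ρ = ∑ x ∈ Ex, ρ ^ x * α i j x :=
  s3m_lg s e

end Pool.Agent.CA9.UB
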