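import Pool.Agent.Lib.MP_ca9be0_an.UB.Gf1
import Pool.Agent.Lib.MP_ca9be0_an.UB.LG1

/-! Gram determinants of rows and the canonical preimage. -/

namespace Pool.Agent.CA9.UB

open Finset Matrix

section mat
variable {A B : Type} [Fintype A] [Fintype B] [DecidableEq A]

theorem s3m_nonneg (X : Matrix A B ℝ) : 0 ≤ (X * Xᵀ).det := by
  have := gram_det_nonneg Xᵀ
  rwa [transpose_transpose] at this

theorem s3m_pos {X : Matrix A B ℝ} (h : ∀ y : A → ℝ, y ᵥ* X = 0 → y = 0) :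
    0 < (X * Xᵀ).det := by
  refine (s3m_nonneg X).lt_of_ne fun h0 => ?_
  obtain ⟨w, h1, h2⟩ := exists_mulVec_eq_zero_iff.2 h0.symm
  have h3 := conjTranspose_mul_self_mulVec_eq_zero Xᵀ w
  rw [conjTranspose_eq_transpose_of_trivial, transpose_transpose, mulVec_transpose] at h3
  exact h1 (h w (h3.1 h2))

theorem s3m_pre (X : Matrix A B ℝ) (ψ : A → ℝ) :
    X *ᵥ (Xᵀ *ᵥ ((X * Xᵀ).adjugate *ᵥ ψ)) = (X * Xᵀ).det • ψ := by
  rw [mulVec_mulVec, mulVec_mulVec, mul_adjugate, smul_mulVec, one_mulVec]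

theorem s3m_bd (X : Matrix A B ℝ) (ω : B → ℝ) {C : ℝ} (h : ∀ b, |ω b| ≤ C) (b : B) :
    |(Xᵀ *ᵥ ((X * Xᵀ).adjugate *ᵥ (X *ᵥ ω))) b| ≤ Fintype.card B * C * (X * Xᵀ).det := by
  set y := (X * Xᵀ).adjugate *ᵥ (X *ᵥ ω) with hy
  set P := (X * Xᵀ).det with hP
  set o := Xᵀ *ᵥ y with ho
  have hP0 : 0 ≤ P := s3m_nonneg X
  have hC : 0 ≤ C := (abs_nonneg _).trans (h b)
  have e1 : ∀ z : B → ℝ, o ⬝ᵥ z = y ⬝ᵥ (X *ᵥ z) := fun z => by
    rw [ho, mulVec_transpose, dotProduct_mulVec]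
  have e2 : o ⬝ᵥ o = P * (o ⬝ᵥ ω) := by
    rw [e1 o, e1 ω, ho, hy, s3m_pre, dotProduct_smul, smul_eq_mul]
  obtain ⟨m, -, hm⟩ := exists_max_image univ (fun c => |o c|) ⟨b, mem_univ b⟩
  have h1 : |o m| * |o m| ≤ o ⬝ᵥ o := by
    rw [abs_mul_abs_self]
    exact single_le_sum (f := fun c => o c * o c) (fun c _ => mul_self_nonneg _) (mem_univ m)
  have h2 : o ⬝ᵥ ω ≤ Fintype.card B * (|o m| * C) := by
    refine (sum_le_card_nsmul _ _ (|o m| * C) fun c _ => ?_).trans_eq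
      (by rw [nsmul_eq_mul, card_univ])
    refine (le_abs_self _).trans ?_
    rw [abs_mul]
    exact mul_le_mul (hm c (mem_univ c)) (h c) (abs_nonneg _) (abs_nonneg _)
  refine (hm b (mem_univ b)).trans ?_
  rcases (abs_nonneg (o m)).eq_or_lt with h0 | h0
  · rw [← h0]
    positivity
  · refine le_of_mul_le_mul_left ?_ h0
    calc |o m| * |o m| ≤ P * (Fintype.card B * (|o m| * C)) :=
          h1.trans (e2.trans_le (mul_le_mul_of_nonneg_left h2 hP0))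
      _ = _ := by ring

variable (A B) in
theorem s3m_right (C : ℝ) : ∃ K : ℝ, 0 < K ∧ ∀ (X : Matrix A B ℝ) (Y : Matrix B B ℝ),
    (∀ a b, |Y a b| ≤ C) → (X * Y * (X * Y)ᵀ).det ≤ K * (X * Xᵀ).det := by
  obtain ⟨K, h0, hK⟩ := gram_mul_le A B B C
  refine ⟨K, h0, fun X Y hY => ?_⟩
  have := hK Yᵀ Xᵀ fun i j => hY j i
  rwa [← transpose_mul, transpose_transpose, transpose_transpose] at this

variable (A B) in
theorem s3m_left (C : ℝ) : ∃ K : ℝ, 0 < K ∧ ∀ (X : Matrix A B ℝ) (S : Matrix A A ℝ),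
    (∀ a b, |S a b| ≤ C) → (S * X * (S * X)ᵀ).det ≤ K * (X * Xᵀ).det := by
  let c : ℝ := (Fintype.card A).factorial • C ^ Fintype.card A
  refine ⟨c * c + 1, by linarith [mul_self_nonneg c], fun X S hS => ?_⟩
  have h1 : |S.det| ≤ c := det_le (abv := AbsoluteValue.abs) hS
  have h2 : S.det * S.det ≤ c * c + 1 := by
    rw [← abs_mul_abs_self]
    exact (mul_self_le_mul_self (abs_nonneg _) h1).trans (by linarith)
  have e : S * X * (S * X)ᵀ = S * (X * Xᵀ) * Sᵀ := by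
    simp only [transpose_mul, Matrix.mul_assoc]
  rw [e, det_mul, det_mul, det_transpose, mul_right_comm]
  exact mul_le_mul_of_nonneg_right h2 (s3m_nonneg X)

end mat

theorem s3m_lg (s : ℝ) (e : ℕ) : ∃ (Ex : Finset ℝ) (α : ℕ → ℕ → ℝ → ℝ), ∀ i j, i ≤ e → j ≤ e →
    ∀ ρ : ℝ, 0 < ρ → (lg e i).eval (ρ ^ s)⁻¹ * (lg e j).eval ρ = ∑ x ∈ Ex, ρ ^ x * α i j x := by
  classical
  let T := range (e + 1) ×ˢ range (e + 1)
  let φ : ℕ × ℕ → ℝ := fun p => (p.2 : ℝ) - s * p.1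
  refine ⟨T.image φ, fun i j x => ∑ p ∈ T with φ p = x, (lg e i).coeff p.1 * (lg e j).coeff p.2,
    fun i j hi hj ρ hρ => ?_⟩
  rw [Polynomial.eval_eq_sum_range' (Nat.lt_succ_of_le (lg_deg (mem_range.2 (Nat.lt_succ_of_le hi)))),
    Polynomial.eval_eq_sum_range' (Nat.lt_succ_of_le (lg_deg (mem_range.2 (Nat.lt_succ_of_le hj)))),
    sum_mul_sum, ← sum_product',
    ← sum_fiberwise_of_maps_to (s := T) (t := T.image φ) (g := φ) fun p hp => mem_image_of_mem φ hp]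
  refine sum_congr rfl fun x _ => ?_
  rw [mul_sum]
  refine sum_congr rfl fun p hp => ?_
  rw [← (mem_filter.1 hp).2]
  simp only [φ]
  rw [Real.rpow_sub hρ, Real.rpow_natCast, Real.rpow_mul hρ.le, Real.rpow_natCast, inv_pow]
  ring

end Pool.Agent.CA9.UB
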