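import Pool.Agent.Lib.MP_ca9be0_an.UB.S3

/-! Degrees of the module gauge. -/

namespace Pool.Agent.CA9.UB

open Finset Matrix Pool.Agent.Lib.MP_ca9be0_an.PyF

variable {σ ι r r' : Type} [Fintype σ] [Fintype r] [Fintype r'] [DecidableEq r] {k d D : ℕ}

section gr
variable {Θ : Type} {Q : ℕ → (Θ → ℝ) → Prop} {a : ℕ} {Φ : Θ → r → r' → (σ → ℝ) → ℝ}
  {c : Θ → r → r' → (Fin d → σ) → ℝ} {ξ : Θ → σ → ℝ} {v : Θ → Fin k → σ → ℝ}

omit [Fintype σ] in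
theorem s4g_mo (h : Gr Q) (hξ : ∀ s, Q a fun θ => ξ θ s) (hv : ∀ l s, Q a fun θ => v θ l s)
    (f : Fin D → σ) (z : E k) : Q (D * a) fun θ => mo f (frm (ξ θ) (v θ) z) := by
  have h1 : ∀ s, Q a fun θ => frm (ξ θ) (v θ) z s := fun s => by
    simp only [frm, Pi.add_apply, Finset.sum_apply, Pi.smul_apply, smul_eq_mul]
    exact h.add (hξ s) (h.sum _ fun l _ => h.mono (h.mul (h.const (z l)) (hv l s)) (by omega))
  simpa [mo] using h.prod (univ : Finset (Fin D)) fun j _ => h1 (f j)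

theorem Mx_gr' (h : Gr Q) (hΦ : ∀ θ i j x, Φ θ i j x = ∑ f, c θ i j f * mo f x)
    (hc : ∀ i j f, Q a fun θ => c θ i j f) (hξ : ∀ s, Q a fun θ => ξ θ s)
    (hv : ∀ l s, Q a fun θ => v θ l s) (p : r × BA k (D + d)) (q : Col σ r r' d D) :
    Q ((D + d + 1) * a) fun θ => Mx d D (Φ θ) (ξ θ) (v θ) p q := by
  simp only [Mx, rv, of_apply]
  refine h.co _ fun z => ?_
  rcases q with q | q
  · simp only [col, hΦ]
    exact h.mono (h.mul (h.form (hc p.1 q.1) hξ hv z) (s4g_mo h hξ hv q.2 z)) (le_of_eq (by ring))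
  · simp only [col]
    split_ifs
    · exact h.mono (s4g_mo h hξ hv q.2 z) (Nat.mul_le_mul_right a (Nat.le_succ _))
    · exact h.mono (h.const 0) (Nat.zero_le _)

theorem s4g_gram (h : Gr Q) (hΦ : ∀ θ i j x, Φ θ i j x = ∑ f, c θ i j f * mo f x)
    (hc : ∀ i j f, Q a fun θ => c θ i j f) (hξ : ∀ s, Q a fun θ => ξ θ s)
    (hv : ∀ l s, Q a fun θ => v θ l s) (p q : r × BA k (D + d)) :
    Q (2 * (D + d + 1) * a) fun θ =>
      (Mx d D (Φ θ) (ξ θ) (v θ) * (Mx d D (Φ θ) (ξ θ) (v θ))ᵀ) p q := by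
  simp only [Matrix.mul_apply, transpose_apply]
  exact h.sum _ fun x _ => h.mono (h.mul (Mx_gr' h hΦ hc hξ hv p x) (Mx_gr' h hΦ hc hξ hv q x))
    (le_of_eq (by ring))

theorem Pt_gr' (h : Gr Q) (hΦ : ∀ θ i j x, Φ θ i j x = ∑ f, c θ i j f * mo f x)
    (hc : ∀ i j f, Q a fun θ => c θ i j f) (hξ : ∀ s, Q a fun θ => ξ θ s)
    (hv : ∀ l s, Q a fun θ => v θ l s) :
    Q (eP r k (D + d) * a) fun θ => Pt d D (Φ θ) (ξ θ) (v θ) :=
  h.mono (h.det (s4g_gram h hΦ hc hξ hv)) (le_of_eq (by rw [eP]; ring))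

end gr

variable {Φ : r → r' → (σ → ℝ) → ℝ}

theorem Pt_lp' (hΦ : ∀ i j, Hd d (Φ i j)) :
    LP (eP r k (D + d)) fun p : (σ → ℝ) × (Fin k → σ → ℝ) => Pt d D Φ p.1 p.2 := by
  choose c hc using hΦ
  have := Pt_gr' (D := D) (gr_LP ((σ → ℝ) × (Fin k → σ → ℝ))) (a := 1) (Φ := fun _ => Φ)
    (c := fun _ => c) (ξ := fun p => p.1) (v := fun p => p.2) (fun _ => hc)
    (fun _ _ _ => LP.const _ _)
    (fun s => (LP.linear ((LinearMap.proj (φ := fun _ : σ => ℝ) s).comp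
      (LinearMap.fst ℝ (σ → ℝ) (Fin k → σ → ℝ)))).congr fun _ => rfl)
    fun l s => (LP.linear ((LinearMap.proj (φ := fun _ : σ => ℝ) s).comp
      ((LinearMap.proj (φ := fun _ : Fin k => σ → ℝ) l).comp
        (LinearMap.snd ℝ (σ → ℝ) _)))).congr fun _ => rfl
  rwa [mul_one] at this

theorem npo_deg' (Φ : r → r' → (σ → ℝ) → ℝ) (ξ u : σ → ℝ) (w : Fin k → σ → ℝ) :
    (npo d D Φ ξ u w).natDegree ≤ eP r k (D + d) :=
  Polynomial.natDegree_sum_le_of_forall_le _ _ fun _ hl =>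
    (Polynomial.natDegree_C_mul_le _ _).trans (lg_deg hl)

theorem npo_eval' (hΦ : ∀ i j, Hd d (Φ i j)) (ξ u : σ → ℝ) (w : Fin k → σ → ℝ) (b : ℝ) :
    (npo d D Φ ξ u w).eval b = Pt d D Φ (ξ + b • u) w := by
  rw [((Pt_lp' (D := D) hΦ).left w).interp ξ u b]
  simp [npo, Polynomial.eval_finsetSum]

theorem canon_poly' (hΦ : ∀ i j, Hd d (Φ i j)) {ψ : r → (σ → ℝ) → ℝ}
    (hψ : ∀ i, ∃ m ≤ D + d, Hd m (ψ i)) (ξ u : σ → ℝ) (w : Fin k → σ → ℝ) (c : Col σ r r' d D) :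
    ∃ q : Polynomial ℝ, q.natDegree ≤ eO r k (D + d) ∧ ∀ b : ℝ, q.eval b =
      ((Mx d D Φ (ξ + b • u) w)ᵀ *ᵥ ((Mx d D Φ (ξ + b • u) w *
        (Mx d D Φ (ξ + b • u) w)ᵀ).adjugate *ᵥ rv (D + d) (ξ + b • u) w ψ)) c := by
  choose c' hc using hΦ
  have g := gr_LP (σ → ℝ)
  have hξ : ∀ s, LP 1 fun x : σ → ℝ => x s := fun s =>
    (LP.linear (LinearMap.proj (R := ℝ) (φ := fun _ : σ => ℝ) s)).congr fun _ => rfl
  have hv : ∀ l s, LP 1 fun _ : σ → ℝ => w l s := fun _ _ => LP.const _ _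
  have h1 := Mx_gr' (D := D) g (a := 1) (Φ := fun _ => Φ) (c := fun _ => c') (ξ := fun x => x)
    (v := fun _ => w) (fun _ => hc) (fun _ _ _ => LP.const _ _) hξ hv
  have h2 := LP.adjugate (s4g_gram (D := D) g (a := 1) (Φ := fun _ => Φ) (c := fun _ => c')
    (ξ := fun x => x) (v := fun _ => w) (fun _ => hc) (fun _ _ _ => LP.const _ _) hξ hv)
  have h3 : ∀ p, LP (D + d + 1) fun x : σ → ℝ => rv (D + d) x w ψ p := fun p => by
    obtain ⟨m, hm, e, he⟩ := hψ p.1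
    simp only [rv, he]
    exact g.co _ fun z => (g.form (c := fun _ => e) (ξ := fun x => x) (v := fun _ => w)
      (fun _ => LP.const _ _) hξ hv z).mono (by omega)
  have h4 : LP (eO r k (D + d)) fun x : σ → ℝ => ((Mx d D Φ x w)ᵀ *ᵥ ((Mx d D Φ x w *
      (Mx d D Φ x w)ᵀ).adjugate *ᵥ rv (D + d) x w ψ)) c := by
    simp only [mulVec, dotProduct, transpose_apply]
    exact LP.sum _ fun p _ => ((h1 p c).mul (LP.sum _ fun q _ => (h2 p q).mul (h3 q))).mono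
      (le_of_eq (by rw [eO, eP]; ring))
  obtain ⟨q, a1, a2⟩ := h4 ξ u
  exact ⟨q, a1, fun b => (a2 b).symm⟩

end Pool.Agent.CA9.UB
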