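import Pool.Agent.Lib.MP_ca9be0_an.UB.S0
import Pool.Agent.Lib.MP_ca9be0_an.UB.IGf

/-! The module gauge is a gauge. -/

namespace Pool.Agent.CA9.UB

open Finset Matrix Pool.Agent.Lib.MP_ca9be0_an.PyF

section det

variable {A B B' : Type} [Fintype A] [DecidableEq A] [Fintype B] [Fintype B']

lemma sg_det_nonneg (X : Matrix A B ℝ) : 0 ≤ (X * Xᵀ).det := by
  have h : (X * Xᵀ).PosSemidef := by simpa using posSemidef_self_mul_conjTranspose X
  exact h.det_nonneg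

lemma sg_det_cmp (X : Matrix A B ℝ) (Y : Matrix B B' ℝ) {l : ℝ} (hl : 0 < l)
    (hY : ∀ t : B → ℝ, (Yᵀ *ᵥ t) ⬝ᵥ (Yᵀ *ᵥ t) ≤ l * (t ⬝ᵥ t)) :
    ((X * Y) * (X * Y)ᵀ).det ≤ l ^ Fintype.card A * (X * Xᵀ).det := by
  classical
  obtain ⟨S, hS⟩ := exists_root (X * Y)ᵀ
  rw [transpose_transpose] at hS
  by_cases h0 : S.det = 0
  · rw [← hS, det_mul, h0, mul_zero]
    exact mul_nonneg (by positivity) (sg_det_nonneg X)
  have hu : IsUnit S.det := isUnit_iff_ne_zero.2 h0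
  have h1 := det_ge (gram_herm (Xᵀ * S⁻¹)) (c := l⁻¹) (by positivity) fun u => by
    rw [dot_gram, inv_mul_le_iff₀ hl, ← mulVec_mulVec]
    refine le_trans (le_of_eq ?_) (hY _)
    rw [mulVec_mulVec, ← transpose_mul, ← dot_gram, transpose_transpose, ← hS, dot_gram,
      mulVec_mulVec, mul_nonsing_inv _ hu, one_mulVec]
  have h2 : (Xᵀ * S⁻¹)ᵀ * (Xᵀ * S⁻¹) = S⁻¹ᵀ * (X * Xᵀ) * S⁻¹ := by
    rw [transpose_mul, transpose_transpose]; simp only [Matrix.mul_assoc]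
  rw [h2, det_mul, det_mul, det_transpose, det_nonsing_inv, Ring.inverse_eq_inv', inv_pow,
    inv_le_iff_one_le_mul₀' (by positivity)] at h1
  rw [← hS, det_mul, det_transpose]
  have h3 := mul_le_mul_of_nonneg_right h1 (mul_self_nonneg S.det)
  refine le_trans (by rw [one_mul]) (h3.trans (le_of_eq ?_))
  field_simp

variable (A B B') in
/-- comparison of Gram determinants of rows -/
lemma sg_gram_cmp (R : ℝ) : ∃ C, 0 < C ∧ ∀ (S : Matrix A A ℝ) (X : Matrix A B ℝ)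
    (Y : Matrix B B' ℝ), (∀ a b, |S a b| ≤ R) → (∀ a b, |Y a b| ≤ R) →
      ((S * X * Y) * (S * X * Y)ᵀ).det ≤ C * (X * Xᵀ).det := by
  set l : ℝ := Fintype.card B' * (Fintype.card B * R ^ 2) + 1
  set c : ℝ := (Fintype.card A).factorial • R ^ Fintype.card A
  have hl : 0 < l := by positivity
  refine ⟨(c ^ 2 + 1) * l ^ Fintype.card A, by positivity, fun S X Y hS hY => ?_⟩
  have h1 := sg_det_cmp X Y hl fun t => (mulVec_sq_le (B := Yᵀ) (fun a b => hY b a) t).trans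
    (mul_le_mul_of_nonneg_right (by simp [l]) (dot_nn t))
  have h2 : (S * X * Y) * (S * X * Y)ᵀ = S * ((X * Y) * (X * Y)ᵀ) * Sᵀ := by
    simp only [transpose_mul, Matrix.mul_assoc]
  have h3 := det_le (abv := AbsoluteValue.abs) hS
  rw [AbsoluteValue.abs_apply] at h3
  have h4 : S.det * S.det ≤ c ^ 2 + 1 := by
    have := sq_le_sq' (abs_le.1 h3).1 (abs_le.1 h3).2
    nlinarith
  rw [h2, det_mul, det_mul, det_transpose, mul_right_comm, mul_assoc (c ^ 2 + 1)]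
  exact mul_le_mul h4 h1 (sg_det_nonneg _) (by positivity)

end det

section gen

variable {σ r r' : Type} [Fintype σ] [Fintype r] [Fintype r'] [DecidableEq r] {k d D : ℕ}

lemma sg_Pt_nonneg (Φ : r → r' → (σ → ℝ) → ℝ) (ξ : σ → ℝ) (v : Fin k → σ → ℝ) :
    0 ≤ Pt d D Φ ξ v := sg_det_nonneg _

omit [Fintype σ] in
lemma sg_mo_frm (f : Fin D → σ) (ξ : σ → ℝ) (v : Fin k → σ → ℝ) :
    (fun z => mo f (frm ξ v z)) ∈ Pd k D := by
  have := gf_Pd_prod (a := 1) (univ : Finset (Fin D)) (q := fun j z => frm ξ v z (f j))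
    fun j _ => by
      simp only [frm, Pi.add_apply, Finset.sum_apply, Pi.smul_apply, smul_eq_mul]
      refine Pd_add (const_mem _ _) (Pd_sum _ fun l _ => ?_)
      simp only [mul_comm _ (v l (f j))]
      exact Pd_smul _ (gen_mem (some l))
  simpa [mo] using this

omit [Fintype r] [Fintype r'] in
lemma sg_col_frm {Φ : r → r' → (σ → ℝ) → ℝ} (hΦ : ∀ i j, Hd d (Φ i j)) (c : Col σ r r' d D)
    (i : r) (ξ : σ → ℝ) (v : Fin k → σ → ℝ) :
    (fun z => col Φ c i (frm ξ v z)) ∈ Pd k (D + d) := by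
  rcases c with p | p
  · obtain ⟨c, hc⟩ := hΦ i p.1
    simp only [col, hc]
    rw [add_comm]
    exact Pd_mul (Pd_sum _ fun f _ => Pd_smul _ (sg_mo_frm f ξ v)) (sg_mo_frm _ ξ v)
  · simp only [col]
    split_ifs
    · exact sg_mo_frm _ ξ v
    · exact const_mem _ _

/-- combinations of columns -/
lemma sg_col_comb (Φ : r → r' → (σ → ℝ) → ℝ) (w : r' → (Fin D → σ) → ℝ)
    (e : r → (Fin (D + d) → σ) → ℝ) (i : r) (x : σ → ℝ) :
    ∑ c : Col σ r r' d D, Sum.elim (fun p => w p.1 p.2) (fun p => e p.1 p.2) c * col Φ c i x =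
      ∑ j, Φ i j x * ∑ f, w j f * mo f x + ∑ f, e i f * mo f x := by
  simp only [Fintype.sum_sum_type, Fintype.sum_prod_type, Sum.elim_inl, Sum.elim_inr, col,
    mul_sum, mul_ite, mul_zero]
  congr 1
  · exact sum_congr rfl fun j _ => sum_congr rfl fun f _ => by ring
  · rw [sum_comm]
    simp

/-- the matrix of the substitution `z ↦ c + t • z` on vectors of polynomials -/
noncomputable def sgS (r : Type) [DecidableEq r] (k D : ℕ) (κ t : ℝ) (c : E k) :
    Matrix (r × BA k D) (r × BA k D) ℝ :=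
  of fun p q => if p.1 = q.1 then gfS k D κ t c q.2 p.2 else 0

/-- change of the module and affine change of the frame -/
lemma sg_Mx_eq {r'' : Type} {Φ : r → r' → (σ → ℝ) → ℝ}
    (hΦ : ∀ i j, Hd d (Φ i j)) {ξ : σ → ℝ} {v : Fin k → σ → ℝ} {F : r'' → r → E k → ℝ}
    (κ t : ℝ) (c : E k) (Y : Matrix (Col σ r r' d D) r'' ℝ)
    (hF : ∀ c' i z, F c' i z = ∑ c₀, Y c₀ c' * (κ * col Φ c₀ i (frm ξ v (c + t • z)))) :
    (of fun (p : r × BA k (D + d)) c' => co ((bs k (D + d)).γ p.2) (F c' p.1)) =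
      sgS r k (D + d) κ t c * Mx d D Φ ξ v * Y := by
  ext ⟨i, a⟩ c'
  rw [of_apply, (funext (hF c' i) : F c' i = _), co_sum, mul_apply]
  refine sum_congr rfl fun c₀ _ => ?_
  rw [mul_comm, gf_co_sub (sg_col_frm hΦ c₀ i ξ v), mul_apply, Fintype.sum_prod_type,
    sum_eq_single i (fun i' _ hi => by simp [sgS, hi.symm]) (by simp)]
  congr 1
  exact sum_congr rfl fun b _ => by simp [sgS, Mx, rv, mul_comm]

end gen

end Pool.Agent.CA9.UB
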