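import Pool.Agent.Lib.MP_ca9be0_an.UB.S3
import Pool.Agent.Lib.MP_ca9be0_an.UB.SG1

/-! The module gauge: change of frame and of module. -/

namespace Pool.Agent.CA9.UB

open Finset Matrix Pool.Agent.Lib.MP_ca9be0_an.PyF

variable {σ ι r r' : Type} [Fintype σ] [Fintype r] [Fintype r'] [DecidableEq r] {k d D : ℕ}
  {Φ : r → r' → (σ → ℝ) → ℝ}

theorem sg_Pt_pos (Φ : r → r' → (σ → ℝ) → ℝ) {R : ℝ} {ξ : σ → ℝ} {v : Fin k → σ → ℝ}
    (h : Fr R ξ v) : 0 < Pt d D Φ ξ v := by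
  classical
  obtain ⟨l₀, l, h0, h1, h2, h3⟩ :=
    Fr.dual (ι := BA k (D + d)) (ξ := fun _ => ξ) (v := fun _ => v) fun _ => h
  obtain ⟨c, -, hc⟩ := gf_m_bd k (D + d) 1
  obtain ⟨G, ⟨β, -, -, G1⟩, G2⟩ := lift_forms (bs k (D + d)).mem (C := c)
    (fun a y hy => hc a y (by simpa using hy)) h0 h1
  let Y : Matrix (Col σ r r' d D) (r × BA k (D + d)) ℝ := of fun c₀ q =>
    Sum.elim (fun _ => 0) (fun p => if p.1 = q.1 then β q.2 p.2 else 0) c₀
  have e1 : Mx d D Φ ξ v * Y = 1 := by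
    ext ⟨i, a⟩ ⟨i', a'⟩
    rw [mul_apply]
    simp only [Mx, rv, of_apply, mul_comm (co _ _), ← co_sum]
    have : (fun z => ∑ c₀, Y c₀ (i', a') * col Φ c₀ i (frm ξ v z)) =
        fun z => ∑ _b : Unit, (if i = i' then 1 else 0) * (bs k (D + d)).m a' z := by
      funext z
      refine (sg_col_comb Φ (fun _ _ => 0) (fun i f => if i = i' then β a' f else 0) i _).trans ?_
      split_ifs
      · have := G1 a' (frm ξ v z)
        rw [G2 a' _ z (h2 a' z) (h3 a' z)] at this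
        simpa using this.symm
      · simp
    rw [this, co_sum, (bs k (D + d)).dl, one_apply]
    by_cases h1 : i = i' <;> by_cases h2 : a = a' <;> simp [h1, h2, eq_comm (a := a')]
  obtain ⟨C, hC, h4⟩ := sg_gram_cmp (r × BA k (D + d)) (Col σ r r' d D)
    (r × BA k (D + d)) (1 + ∑ a, ∑ b, |Y a b|)
  have h5 := h4 1 (Mx d D Φ ξ v) Y (fun a b => by
      refine le_trans ?_ (le_add_of_nonneg_right (by positivity))
      rw [one_apply]; split_ifs <;> simp) fun a b =>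
    ((single_le_sum (f := fun b => |Y a b|) (fun _ _ => abs_nonneg _) (mem_univ b)).trans
      (single_le_sum (f := fun a => ∑ b, |Y a b|) (fun _ _ => by positivity)
        (mem_univ a))).trans (le_add_of_nonneg_left zero_le_one)
  rw [Matrix.one_mul, e1, transpose_one, Matrix.mul_one, det_one] at h5
  exact (mul_pos_iff_of_pos_left hC).1 (one_pos.trans_le h5)

/-- the matrix of a change of frame -/
noncomputable def sgT (r : Type) [DecidableEq r] (k D : ℕ) (l : E k → ℝ) (ζ : E k → E k) :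
    Matrix (r × BA k D) (r × BA k D) ℝ := of fun p q => if p.1 = q.1 then
      co ((bs k D).γ p.2) fun z => l z ^ (D - (bs k D).deg q.2) * (bs k D).m q.2 (ζ z) else 0

omit [Fintype r'] in
lemma sg_Mx_frame (hΦ : ∀ i j, Hd d (Φ i j)) {ξ ξ' : σ → ℝ} {v v' : Fin k → σ → ℝ} {l : E k → ℝ}
    {ζ : E k → E k} (h : ∀ z, frm ξ' v' z = l z • ξ + ∑ j, ζ z j • v j) [Fintype r'] :
    Mx d D Φ ξ' v' = sgT r k (D + d) l ζ * Mx d D Φ ξ v := by
  ext ⟨i, a⟩ c
  simp only [Mx, rv, of_apply, h, (col_hd hΦ c i).expand ξ v, co_sum]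
  rw [mul_apply, Fintype.sum_prod_type,
    sum_eq_single i (fun i' _ hi => by simp [sgT, hi.symm]) (by simp)]
  exact sum_congr rfl fun b _ => by simp [sgT, mul_comm]

theorem sg_Pt_smul (hΦ : ∀ i j, Hd d (Φ i j)) (t : ℝ) (ξ : σ → ℝ) (v : Fin k → σ → ℝ) :
    Pt d D Φ (t • ξ) v = t ^ ex r k (D + d) * Pt d D Φ ξ v := by
  have h1 := sg_Mx_frame (D := D) hΦ (ξ := ξ) (ξ' := t • ξ) (v := v) (v' := v) (l := fun _ => t)
    (ζ := fun z => z) fun z => rfl
  have h2 : sgT r k (D + d) (fun _ => t) (fun z => z) =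
      diagonal fun p => t ^ (D + d - (bs k (D + d)).deg p.2) := by
    ext ⟨i, a⟩ ⟨i', a'⟩
    have := co_sum (univ : Finset Unit) ((bs k (D + d)).γ a)
      (fun _ => t ^ (D + d - (bs k (D + d)).deg a')) fun _ => (bs k (D + d)).m a'
    simp only [univ_unique, sum_singleton] at this
    rw [sgT, of_apply, this, (bs k (D + d)).dl, diagonal_apply]
    by_cases h1 : i = i' <;> by_cases h2 : a = a' <;> simp [h1, h2, eq_comm (a := a')]
  rw [Pt, Pt, h1, h2, transpose_mul, Matrix.mul_assoc, ← Matrix.mul_assoc (Mx d D Φ ξ v),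
    det_mul, det_mul, det_transpose, det_diagonal, prod_pow_eq_pow_sum, Fintype.sum_prod_type, ex]
  simp only [sum_const, card_univ, smul_eq_mul]
  ring

variable (σ r r' k d D) in
theorem sg_Pt_frame (R : ℝ) : ∃ K : ℝ, 0 < K ∧ ∀ Φ : r → r' → (σ → ℝ) → ℝ,
    (∀ i j, Hd d (Φ i j)) →
    ∀ (ξ : σ → ℝ) (v : Fin k → σ → ℝ) (l : ℝ) (c c' : Fin k → ℝ) (g : Fin k → Fin k → ℝ),
      |l| ≤ R → (∀ i, |c i| ≤ R) → (∀ i, |c' i| ≤ R) → (∀ i j, |g i j| ≤ R) →
      Pt d D Φ (l • ξ + ∑ j, c' j • v j) (fun i => c i • ξ + ∑ j, g i j • v j) ≤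
        K * Pt d D Φ ξ v := by
  classical
  obtain ⟨ρ, K, hρ, hK, h1⟩ := gf_co_bd k (D + d)
  set L : ℝ := max 1 (R + k * (ρ * R)) with hL
  obtain ⟨c0, hc0, h2⟩ := gf_m_bd k (D + d) (k * L)
  obtain ⟨C, hC, h3⟩ := sg_gram_cmp (r × BA k (D + d)) (Col σ r r' d D) (Col σ r r' d D)
    (max (K * (L ^ (D + d) * c0)) 1)
  refine ⟨C, hC, fun Φ hΦ ξ v l c c' g hl hc hc' hg => ?_⟩
  have h4 := sg_Mx_frame (D := D) hΦ (ξ := ξ) (ξ' := l • ξ + ∑ j, c' j • v j) (v := v)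
    (v' := fun i => c i • ξ + ∑ j, g i j • v j) (l := fun z => l + ∑ i, z i * c i)
    (ζ := fun z => WithLp.toLp 2 fun j => c' j + ∑ i, z i * g i j) fun z => by
      simp only [frm, smul_add, sum_add_distrib, add_smul, sum_smul, smul_sum, smul_smul]
      rw [sum_comm (f := fun i j => (z i * g i j) • v j)]
      abel
  have b1 : ∀ (z : E k) (a : ℝ) (b : Fin k → ℝ), ‖z‖ ≤ ρ → |a| ≤ R → (∀ i, |b i| ≤ R) →
      |a + ∑ i, z i * b i| ≤ L := fun z a b hz ha hb => by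
    refine le_max_of_le_right ((abs_add_le _ _).trans (add_le_add ha
      ((abs_sum_le_sum_abs _ _).trans ((sum_le_card_nsmul _ _ (ρ * R) fun i _ => ?_).trans
        (by simp)))))
    rw [abs_mul]
    exact mul_le_mul ((PiLp.norm_apply_le z i).trans hz) (hb i) (abs_nonneg _) hρ
  rw [Pt, Pt, h4, ← Matrix.mul_one (sgT _ _ _ _ _ * _)]
  refine h3 _ _ _ (fun p q => ?_) fun a b => le_max_of_le_right ?_
  · rw [sgT, of_apply]
    split_ifs
    · refine le_max_of_le_left (h1 _ _ _ fun z hz => ?_)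
      rw [abs_mul, abs_pow]
      refine mul_le_mul ((pow_le_pow_left₀ (abs_nonneg _) (b1 z l c hz hl hc) _).trans
        (pow_le_pow_right₀ (le_max_left _ _) (Nat.sub_le _ _))) (h2 _ _ ?_) (abs_nonneg _)
        (by positivity)
      rw [← (EuclideanSpace.basisFun (Fin k) ℝ).sum_repr (WithLp.toLp 2 _)]
      refine (norm_sum_le _ _).trans ((sum_le_card_nsmul _ _ L fun j _ => ?_).trans (by simp))
      rw [norm_smul, (EuclideanSpace.basisFun (Fin k) ℝ).orthonormal.1 j, mul_one]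
      exact b1 z _ _ hz (hc' j) fun i => hg i j
    · simp
  · rw [one_apply]
    split_ifs <;> simp

variable (k D) in
theorem sg_Pt_cmp [DecidableEq σ] {Φ Φ' : ι → r → r' → (σ → ℝ) → ℝ} {κ : ι → ℝ}
    {γ γ' : ι → Matrix σ σ ℝ} {Z : r → r' → ι → (σ → ℝ) → ℝ} {C : ℝ} (hκ : ∀ t, |κ t| ≤ C)
    (hγ : ∀ t, γ' t * γ t = 1) (hγ' : ∀ t a b, |γ' t a b| ≤ C) (hZ : ∀ i j, HK d (Z i j))
    (h : ∀ t i j x, Φ' t i j x = κ t * Φ t i j (γ t *ᵥ x) + Z i j t x) :
    ∃ K : ℝ, 0 < K ∧ ∀ t (ξ : σ → ℝ) (v : Fin k → σ → ℝ),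
      Pt d D (Φ' t) ξ v ≤ K * Pt d D (Φ t) (γ t *ᵥ ξ) fun l => γ t *ᵥ v l := by
  classical
  have m1 : ∀ {D : ℕ} (f : Fin D → σ), HK D fun t x => mo f (γ' t *ᵥ x) := fun f =>
    (HK.mo (K := ℝ) (ι := ι) f).linmap hγ'
  have g1 : ∀ t x, γ' t *ᵥ (γ t *ᵥ x) = x := fun t x => by rw [mulVec_mulVec, hγ, one_mulVec]
  have key : ∀ c' : Col σ r r' d D, ∃ (ω : ι → Col σ r r' d D → ℝ) (B : ℝ), (∀ t c, |ω t c| ≤ B) ∧
      ∀ t i x, col (Φ' t) c' i x = ∑ c, ω t c * col (Φ t) c i (γ t *ᵥ x) := by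
    rintro (⟨j, f⟩ | ⟨i₀, f⟩)
    · obtain ⟨ω, B, h1, h2⟩ := Mem.cols (d := d) (D := D) (Φ := Φ) (A := fun _ => Set.univ)
        ⟨fun j' t x => if j' = j then κ t * mo f (γ' t *ᵥ x) else 0,
          fun i t x => mo f (γ' t *ᵥ x) * Z i j t (γ' t *ᵥ x),
          fun j' => ((m1 f).smul hκ).ite (HK.zero D) fun _ => j' = j,
          fun i => (m1 f).mul ((hZ i j).linmap hγ'), fun _ _ _ _ => rfl⟩
      refine ⟨ω, B, h1, fun t i x => ?_⟩
      rw [← h2 t _ trivial i]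
      simp only [col, g1, h, mul_ite, mul_zero, sum_ite_eq', mem_univ, if_true]
      ring
    · obtain ⟨ω, B, h1, h2⟩ := Mem.cols (d := d) (D := D) (Φ := Φ) (A := fun _ => Set.univ)
        ⟨fun _ _ _ => 0, fun i t x => if i = i₀ then mo f (γ' t *ᵥ x) else 0,
          fun _ => HK.zero D, fun i => (m1 f).ite (HK.zero _) fun _ => i = i₀,
          fun _ _ _ _ => rfl⟩
      refine ⟨ω, B, h1, fun t i x => ?_⟩
      rw [← h2 t _ trivial i]
      simp [col, g1]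
  choose ω B h1 h2 using key
  obtain ⟨K, hK, h3⟩ := sg_gram_cmp (r × BA k (D + d)) (Col σ r r' d D) (Col σ r r' d D)
    (1 + ∑ c, |B c|)
  refine ⟨K, hK, fun t ξ v => ?_⟩
  have e1 : Mx d D (Φ' t) ξ v = (1 : Matrix (r × BA k (D + d)) (r × BA k (D + d)) ℝ) *
      Mx d D (Φ t) (γ t *ᵥ ξ) (fun l => γ t *ᵥ v l) * of fun c c' => ω c' t c := by
    ext p c'
    have : ∀ z, γ t *ᵥ frm ξ v z = frm (γ t *ᵥ ξ) (fun l => γ t *ᵥ v l) z := fun z => by
      simp only [frm, mulVec_add, mulVec_sum, mulVec_smul]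
    simp only [Matrix.one_mul, mul_apply, Mx, rv, of_apply, h2, this, co_sum, mul_comm]
  rw [Pt, Pt, e1]
  refine h3 _ _ _ (fun a b => ?_) fun a b => ((h1 b t a).trans ((le_abs_self _).trans
    (single_le_sum (f := fun c => |B c|) (fun _ _ => abs_nonneg _) (mem_univ b)))).trans
      (le_add_of_nonneg_left zero_le_one)
  refine le_trans ?_ (le_add_of_nonneg_right (by positivity))
  rw [one_apply]
  split_ifs <;> simp

open Polynomial in
lemma sg_top {P Q : ℝ[X]} {n e : ℕ} (hQ : Q.natDegree ≤ n)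
    (h : ∀ b : ℝ, b ≠ 0 → P.eval b = b ^ e * Q.eval b⁻¹) :
    P.natDegree ≤ e ∧ P.coeff e = Q.eval 0 := by
  have h1 : X ^ n * P = X ^ e * reflect n Q := by
    refine eq_of_infinite_eval_eq _ _ (Set.Infinite.mono (s := {0}ᶜ) (fun b hb => ?_)
      (Set.finite_singleton (0 : ℝ)).infinite_compl)
    have hb' : b ≠ 0 := hb
    have := invertibleOfNonzero (inv_ne_zero hb')
    have h2 := eval₂_reflect_mul_pow (RingHom.id ℝ) b⁻¹ n Q hQ
    simp only [eval₂_id, invOf_eq_inv, inv_inv] at h2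
    simp only [Set.mem_ofPred_eq, eval_mul, eval_pow, eval_X, h b hb', ← h2, inv_pow]
    field_simp
  have h2 : ∀ m, P.coeff (m + e) = (reflect n Q).coeff (m + n) := fun m => by
    rw [← coeff_X_pow_mul P n, h1, add_right_comm, coeff_X_pow_mul]
  refine ⟨natDegree_le_iff_coeff_eq_zero.2 fun m hm => ?_, ?_⟩
  · obtain ⟨m, rfl⟩ := Nat.exists_eq_add_of_le' hm.le
    rw [h2]
    exact coeff_eq_zero_of_natDegree_lt
      (natDegree_reflect_le.trans_lt (max_lt (by omega) (by omega)))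
  · have := h2 0
    rw [zero_add, zero_add, coeff_reflect, revAt_le le_rfl, Nat.sub_self] at this
    rw [this, coeff_zero_eq_eval_zero]

end Pool.Agent.CA9.UB
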