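import Pool.Agent.Lib.MP_ca9be0_an.UB.S3
import Pool.Agent.Lib.MP_ca9be0_an.UB.S4g
import Pool.Agent.Lib.MP_ca9be0_an.UB.SG3

/-! The module gauge. -/

namespace Pool.Agent.CA9.UB

open Finset Matrix Pool.Agent.Lib.MP_ca9be0_an.PyF

variable {σ ι r r' : Type} [Fintype σ] [Fintype r] [Fintype r'] [DecidableEq r] {k d D : ℕ}

section gr
variable {Θ : Type} {Q : ℕ → (Θ → ℝ) → Prop} {a : ℕ} {Φ : Θ → r → r' → (σ → ℝ) → ℝ}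
  {c : Θ → r → r' → (Fin d → σ) → ℝ} {ξ : Θ → σ → ℝ} {v : Θ → Fin k → σ → ℝ}

theorem Mx_gr (h : Gr Q) (hΦ : ∀ θ i j x, Φ θ i j x = ∑ f, c θ i j f * mo f x)
    (hc : ∀ i j f, Q a fun θ => c θ i j f) (hξ : ∀ s, Q a fun θ => ξ θ s)
    (hv : ∀ l s, Q a fun θ => v θ l s) (p : r × BA k (D + d)) (q : Col σ r r' d D) :
    Q ((D + d + 1) * a) fun θ => Mx d D (Φ θ) (ξ θ) (v θ) p q :=
  Mx_gr' h hΦ hc hξ hv p q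

theorem Pt_gr (h : Gr Q) (hΦ : ∀ θ i j x, Φ θ i j x = ∑ f, c θ i j f * mo f x)
    (hc : ∀ i j f, Q a fun θ => c θ i j f) (hξ : ∀ s, Q a fun θ => ξ θ s)
    (hv : ∀ l s, Q a fun θ => v θ l s) :
    Q (eP r k (D + d) * a) fun θ => Pt d D (Φ θ) (ξ θ) (v θ) :=
  Pt_gr' h hΦ hc hξ hv

end gr

variable {Φ : r → r' → (σ → ℝ) → ℝ}

theorem Pt_nonneg (Φ : r → r' → (σ → ℝ) → ℝ) (ξ : σ → ℝ) (v : Fin k → σ → ℝ) :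
    0 ≤ Pt d D Φ ξ v := gram_nonneg _

theorem Pt_pos (Φ : r → r' → (σ → ℝ) → ℝ) {R : ℝ} {ξ : σ → ℝ} {v : Fin k → σ → ℝ}
    (h : Fr R ξ v) : 0 < Pt d D Φ ξ v :=
  sg_Pt_pos Φ h

theorem Pt_lp (hΦ : ∀ i j, Hd d (Φ i j)) :
    LP (eP r k (D + d)) fun p : (σ → ℝ) × (Fin k → σ → ℝ) => Pt d D Φ p.1 p.2 :=
  Pt_lp' hΦ

theorem Pt_smul (hΦ : ∀ i j, Hd d (Φ i j)) (t : ℝ) (ξ : σ → ℝ) (v : Fin k → σ → ℝ) :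
    Pt d D Φ (t • ξ) v = t ^ ex r k (D + d) * Pt d D Φ ξ v :=
  sg_Pt_smul hΦ t ξ v

variable (σ r r' k d D) in
/-- bounded change of the frame -/
theorem Pt_frame (R : ℝ) : ∃ K : ℝ, 0 < K ∧ ∀ Φ : r → r' → (σ → ℝ) → ℝ, (∀ i j, Hd d (Φ i j)) →
    ∀ (ξ : σ → ℝ) (v : Fin k → σ → ℝ) (l : ℝ) (c c' : Fin k → ℝ) (g : Fin k → Fin k → ℝ),
      |l| ≤ R → (∀ i, |c i| ≤ R) → (∀ i, |c' i| ≤ R) → (∀ i j, |g i j| ≤ R) →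
      Pt d D Φ (l • ξ + ∑ j, c' j • v j) (fun i => c i • ξ + ∑ j, g i j • v j) ≤
        K * Pt d D Φ ξ v :=
  sg_Pt_frame σ r r' k d D R

variable (k D) in
/-- bounded change of the module -/
theorem Pt_cmp [DecidableEq σ] {Φ Φ' : ι → r → r' → (σ → ℝ) → ℝ} {κ : ι → ℝ}
    {γ γ' : ι → Matrix σ σ ℝ} {Z : r → r' → ι → (σ → ℝ) → ℝ} {C : ℝ} (hκ : ∀ t, |κ t| ≤ C)
    (hγ : ∀ t, γ' t * γ t = 1) (hγ' : ∀ t a b, |γ' t a b| ≤ C) (hZ : ∀ i j, HK d (Z i j))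
    (h : ∀ t i j x, Φ' t i j x = κ t * Φ t i j (γ t *ᵥ x) + Z i j t x) :
    ∃ K : ℝ, 0 < K ∧ ∀ t (ξ : σ → ℝ) (v : Fin k → σ → ℝ),
      Pt d D (Φ' t) ξ v ≤ K * Pt d D (Φ t) (γ t *ᵥ ξ) fun l => γ t *ᵥ v l :=
  sg_Pt_cmp k D hκ hγ hγ' hZ h

theorem npo_deg (Φ : r → r' → (σ → ℝ) → ℝ) (ξ u : σ → ℝ) (w : Fin k → σ → ℝ) :
    (npo d D Φ ξ u w).natDegree ≤ eP r k (D + d) :=
  npo_deg' Φ ξ u w

theorem npo_eval (hΦ : ∀ i j, Hd d (Φ i j)) (ξ u : σ → ℝ) (w : Fin k → σ → ℝ) (b : ℝ) :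
    (npo d D Φ ξ u w).eval b = Pt d D Φ (ξ + b • u) w :=
  npo_eval' hΦ ξ u w b

theorem npo_top (hΦ : ∀ i j, Hd d (Φ i j)) (ξ u : σ → ℝ) (w : Fin k → σ → ℝ) :
    (npo d D Φ ξ u w).natDegree ≤ ex r k (D + d) ∧
      (npo d D Φ ξ u w).coeff (ex r k (D + d)) = Pt d D Φ u w := by
  have := sg_top (P := npo d D Φ ξ u w) (e := ex r k (D + d)) (npo_deg (d := d) (D := D) Φ u ξ w)
    fun b hb => by
      rw [npo_eval hΦ, npo_eval hΦ, ← Pt_smul hΦ, smul_add, smul_smul, mul_inv_cancel₀ hb,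
        one_smul, add_comm]
  rwa [npo_eval hΦ, zero_smul, add_zero] at this

/-- the canonical preimage along a pencil -/
theorem canon_poly (hΦ : ∀ i j, Hd d (Φ i j)) {ψ : r → (σ → ℝ) → ℝ}
    (hψ : ∀ i, ∃ m ≤ D + d, Hd m (ψ i)) (ξ u : σ → ℝ) (w : Fin k → σ → ℝ) (c : Col σ r r' d D) :
    ∃ q : Polynomial ℝ, q.natDegree ≤ eO r k (D + d) ∧ ∀ b : ℝ, q.eval b =
      ((Mx d D Φ (ξ + b • u) w)ᵀ *ᵥ ((Mx d D Φ (ξ + b • u) w *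
        (Mx d D Φ (ξ + b • u) w)ᵀ).adjugate *ᵥ rv (D + d) (ξ + b • u) w ψ)) c :=
  canon_poly' hΦ hψ ξ u w c

end Pool.Agent.CA9.UB
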