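import Pool.Agent.Lib.MP_ca9be0_an.UB.S4
import Pool.Agent.Lib.MP_ca9be0_an.UB.La4

/-! Saturation on good nodes. -/

namespace Pool.Agent.CA9.UB

open Finset Matrix Pool.Agent.Lib.MP_ca9be0_an.PyF

variable {σ ι r r' : Type} [Fintype σ] [Fintype r] [Fintype r'] [DecidableEq r] {k d D : ℕ}

/-- interpolation along a pencil -/
theorem pencil {Φ : ι → r → r' → (σ → ℝ) → ℝ} {ψ f : ι → r → (σ → ℝ) → ℝ} {ξ : ι → σ → ℝ}
    {v : ι → Fin (k + 1) → σ → ℝ} {R K : ℝ} {G : ℕ} (i : Fin (k + 1))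
    (hΦ : ∀ t i j, Hd d (Φ t i j)) (hψ : ∀ t i, ∃ m ≤ D + d, Hd m (ψ t i))
    (hF : ∀ t, Fr R (ξ t) (v t)) (S : ι → Finset (Fin (G + 1)))
    (hS : ∀ t, eO r k (D + d) < (S t).card) {τ : ι → ℝ} (hτ : ∀ t, 0 < τ t)
    (hK : ∀ t, ∀ b ∈ S t, Pt d D (Φ t) (ξ t + gv G b • v t i) (i.removeNth (v t)) ≤ K * τ t)
    (hM : Mem d D (fun p : {p : ι × Fin (G + 1) // p.2 ∈ S p.1} => Φ p.1.1)
      (fun p => Set.range (frm (ξ p.1.1 + gv G p.1.2 • v p.1.1 i) (i.removeNth (v p.1.1))))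
      fun p => ψ p.1.1)
    (hf : ∀ t z j, f t j (frm (ξ t) (v t) z) =
      Pt d D (Φ t) (ξ t + z i • v t i) (i.removeNth (v t)) / τ t * ψ t j (frm (ξ t) (v t) z)) :
    Mem d (D + eO r k (D + d)) Φ (fun t => Set.range (frm (ξ t) (v t))) f := by
  obtain ⟨l₀, l, h₀, h₁, e₀, e₁⟩ := Fr.dual hF
  obtain ⟨ω, C, hC, hω⟩ := hM.pre
  choose q hq hq' using fun t c => canon_poly (D := D) (hΦ t) (hψ t) (ξ t) (v t i)
    (i.removeNth (v t)) c
  obtain ⟨Kc, K0, hKc⟩ := grid_coef ℝ (eO r k (D + d)) G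
  have hd : ∀ t c, (Polynomial.C (τ t)⁻¹ * q t c).natDegree ≤ eO r k (D + d) := fun t c =>
    (Polynomial.natDegree_C_mul_le _ _).trans (hq t c)
  have hb : ∀ c t m, |(Polynomial.C (τ t)⁻¹ * q t c).coeff m| ≤
      Kc * (Fintype.card (Col σ r r' d D) * |C| * |K|) := fun c t m => by
    refine hKc (S t) (hS t) _ _ (hd t c) (by positivity) (fun b hb => ?_) m
    have h1 := canon_bd (Mx d D (Φ t) (ξ t + gv G b • v t i) (i.removeNth (v t))) (ω ⟨(t, b), hb⟩)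
      (fun c => (hC _ c).trans (le_abs_self C)) c
    rw [hω ⟨(t, b), hb⟩] at h1
    have h2 := (hK t b hb).trans (mul_le_mul_of_nonneg_right (le_abs_self K) (hτ t).le)
    have h3 := hτ t
    simp only [RCLike.ofReal_real_eq_id, id, Polynomial.eval_mul, Polynomial.eval_C, hq',
      Real.norm_eq_abs, abs_mul, abs_of_pos (inv_pos.2 h3)]
    rw [inv_mul_le_iff₀ h3]
    refine h1.trans ?_
    calc _ ≤ Fintype.card (Col σ r r' d D) * |C| * (|K| * τ t) :=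
          mul_le_mul_of_nonneg_left h2 (by positivity)
      _ = _ := by ring
  choose H hH hH' using fun c => HK.hev (q := fun t => Polynomial.C (τ t)⁻¹ * q t c)
    (fun t => hd t c) (hb c) (h₁ i) h₀
  refine (Mem.sum univ fun c _ => (Mem.col (Φ := Φ)
    (A := fun t => Set.range (frm (ξ t) (v t))) c).mul (hH c)).congr (fun _ => subset_rfl) ?_
  rintro t _ ⟨z, rfl⟩ j
  have h := Mx_eval (hΦ t) (hψ t) (ω := fun c => (q t c).eval (z i))
    (P := Pt d D (Φ t) (ξ t + z i • v t i) (i.removeNth (v t)))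
    (by simp only [hq']; exact canon_pre _ _) (WithLp.toLp 2 fun j => z (i.succAbove j)) j
  rw [← frm_child] at h
  simp only [hf, hH' _ _ _ (e₀ t z), e₁, Polynomial.eval_mul, Polynomial.eval_C, mul_assoc]
  rw [← mul_sum, ← h]
  ring

theorem s5_bez (o : σ) {a e : ℕ} {c η R : ℝ} (hc : 0 < c) (hη : 0 < η) {ξ : ι → σ → ℝ}
    {v : ι → Fin (k + 1) → σ → ℝ} {tt : ι → σ → ℝ} {zs : ι → Fin a → Option ℂ} {Z : ι → Finset ℂ}
    {Λ : ι → (σ → ℝ) → ℝ} {P : ι → Fin (k + 1) → Polynomial ℝ} (hF : ∀ t, Fr R (ξ t) (v t))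
    (ht : ∀ t s, |tt t s| ≤ R) (hz : ∀ t j z, zs t j = some z → z ∈ Z t ∧ ‖z‖ ≤ R)
    (hΛ : ∀ t x, (Λ t x : ℂ) = ∏ j, (zs t j).elim 1 fun z => lf o (tt t) z fun s => x s)
    (hT : ∀ t i, Top c e (P t i))
    (hU : ∀ t (β : Fin (k + 1) → ℂ), (∀ i, Polynomial.aeval (β i) (P t i) = 0) → ∀ z ∈ Z t,
      η ≤ ‖lf o (tt t) z (cpt (ξ t) (v t) β)‖) :
    ∃ H : Option (Fin (k + 1)) → ι → (σ → ℝ) → ℝ, (∀ i, HK (a * e ^ (k + 1)) (H i)) ∧
      ∀ t z, 1 = H none t (frm (ξ t) (v t) z) * Λ t (frm (ξ t) (v t) z) +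
        ∑ i, H (some i) t (frm (ξ t) (v t) z) * ((P t i).eval (z i) / (P t i).coeff e) :=
  bezoutR o hc hη hF hT ht (fun t j z h => (hz t j z h).2)
    (fun t β h j z h' => hU t β h z (hz t j z h').1) hΛ

theorem DD_le (r : Type) [Fintype r] (d a D₀ k : ℕ) : D₀ ≤ DD r d a D₀ k := by
  induction k with
  | zero => exact le_rfl
  | succ k ih => rw [DD]; omega

theorem sat_k (o : σ) (d a D₀ G : ℕ) {c η : ℝ} (hc : 0 < c) (hη : 0 < η) (k : ℕ) :
    ∀ {ι : Type} (Φ : ι → r → r' → (σ → ℝ) → ℝ) (ψ : ι → r → (σ → ℝ) → ℝ) (ξ : ι → σ → ℝ)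
      (v : ι → Fin k → σ → ℝ) (tt : ι → σ → ℝ) (zs : ι → Fin a → Option ℂ) (Z : ι → Finset ℂ)
      (Λ : ι → (σ → ℝ) → ℝ) (R : ℝ), (∀ t i j, Hd d (Φ t i j)) →
      (∀ t i, ∃ m ≤ D₀ + d, Hd m (ψ t i)) → (∀ t, Fr R (ξ t) (v t)) → (∀ t s, |tt t s| ≤ R) →
      (∀ t j z, zs t j = some z → z ∈ Z t ∧ ‖z‖ ≤ R) →
      (∀ t x, (Λ t x : ℂ) = ∏ j, (zs t j).elim 1 fun z => lf o (tt t) z fun s => x s) →
      Mem d D₀ Φ (fun _ => Set.univ) (fun t i x => Λ t x * ψ t i x) →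
      (∀ t, Good (nP d (DD r d a D₀) (Φ t)) (lf o (tt t)) (Z t) η c G
        (fun j => ex r j (DD r d a D₀ j + d)) (fun j => eO r j (DD r d a D₀ j + d)) k (ξ t) (v t)) →
      Mem d (DD r d a D₀ k) Φ (fun t => Set.range (frm (ξ t) (v t))) ψ := by
  classical
  induction k with
  | zero =>
    intro ι Φ ψ ξ v tt zs Z Λ R hΦ hψ hF ht hz hΛ hM hG
    have h0 : 0 < min η 1 ^ a := by positivity
    have h1 : ∀ t, min η 1 ^ a ≤ |Λ t (ξ t)| := fun t => by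
      rw [← Real.norm_eq_abs, ← Complex.norm_real, hΛ, norm_prod]
      refine le_trans (le_of_eq ?_) (prod_le_prod (f := fun _ => min η 1)
        (fun _ _ => by positivity) fun j _ => ?_)
      · simp
      · cases h : zs t j with
        | none => simp
        | some z => exact (min_le_left _ _).trans (hG t z (hz t j z h).1)
    refine (hM.mul (HK.const (c := fun t => (Λ t (ξ t))⁻¹) (C := (min η 1 ^ a)⁻¹)
      fun t => ?_)).congr (fun _ => Set.subset_univ _) ?_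
    · rw [norm_inv]
      exact inv_anti₀ h0 (h1 t)
    · rintro t _ ⟨z, rfl⟩ i
      have h2 : Λ t (ξ t) ≠ 0 := abs_pos.1 (h0.trans_le (h1 t))
      rw [Subsingleton.elim z 0, frm_zero, inv_mul_cancel_left₀ h2]
  | succ k ih =>
    intro ι Φ ψ ξ v tt zs Z Λ R hΦ hψ hF ht hz hΛ hM hG
    obtain ⟨l₀, l, h₀, h₁, e₀, e₁⟩ := Fr.dual hF
    obtain ⟨H, hH, hH'⟩ := s5_bez o hc hη hF ht hz hΛ (fun t => (hG t).1) fun t => (hG t).2.1
    have hD := DD_le r d a D₀ k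
    set D := DD r d a D₀ k with hDe
    have top : ∀ t i, (nP d (DD r d a D₀) (Φ t) k (ξ t) (v t) i).coeff (ex r k (D + d)) =
        Pt d D (Φ t) (v t i) (i.removeNth (v t)) := fun t i => (npo_top (hΦ t) _ _ _).2
    have ev : ∀ t i b, (nP d (DD r d a D₀) (Φ t) k (ξ t) (v t) i).eval b =
        Pt d D (Φ t) (ξ t + b • v t i) (i.removeNth (v t)) := fun t i b => npo_eval (hΦ t) _ _ _ b
    have hp : ∀ i, Mem d (D + eO r k (D + d)) Φ (fun t => Set.range (frm (ξ t) (v t)))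
        fun t j x => (nP d (DD r d a D₀) (Φ t) k (ξ t) (v t) i).eval (l i t x) /
          (nP d (DD r d a D₀) (Φ t) k (ξ t) (v t) i).coeff (ex r k (D + d)) * ψ t j x := fun i => by
      refine pencil (K := c⁻¹) (G := G) i hΦ (fun t j => (hψ t j).imp fun m hm =>
        ⟨hm.1.trans (by omega), hm.2⟩) hF _ (fun t => (hG t).2.2 i)
        (τ := fun t => Pt d D (Φ t) (v t i) (i.removeNth (v t)))
        (fun t => top t i ▸ ((hG t).1 i).2.1) (fun t b _ => ?_) ?_ fun t z j => ?_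
      · have h := ((hG t).1 i).2.2 _ (gv_nonneg G b) (gv_le G b)
        rw [top, ev, abs_of_nonneg (Pt_nonneg _ _ _)] at h
        rwa [le_inv_mul_iff₀ hc]
      · exact ih _ _ _ _ (fun p => tt p.1.1) (fun p => zs p.1.1) (fun p => Z p.1.1)
          (fun p => Λ p.1.1) R (fun p => hΦ _) (fun p => hψ _)
          (fun p => (hF _).child i (gv_nonneg G _) (gv_le G _)) (fun p => ht _) (fun p => hz _)
          (fun p => hΛ _) (hM.comp fun p : {p : ι × Fin (G + 1) // _} => p.1.1)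
          fun p => (mem_filter.1 p.2).2
      · rw [e₁, ev, top]
    have hq := ((hM.congr (A' := fun t => Set.range (frm (ξ t) (v t))) (fun _ => Set.subset_univ _)
      fun _ _ _ _ => rfl).raise h₀ (by rintro t _ ⟨z, rfl⟩; exact e₀ t z)
      (D' := D + eO r k (D + d)) (by omega)).mul (hH none)
    refine (hq.add (Mem.sum univ fun i _ => (hp i).mul (hH (some i)))).congr
      (fun _ => subset_rfl) ?_
    rintro t _ ⟨z, rfl⟩ j
    simp only [e₁, ← mul_assoc]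
    rw [← sum_mul, ← add_mul, ← hH', one_mul]

end Pool.Agent.CA9.UB
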