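import Pool.Agent.Lib.MP_ca9be0_an.UB.SG1

/-! The module gauge of a tuple is a gauge. -/

namespace Pool.Agent.CA9.UB

open Finset Matrix Pool.Agent.Lib.MP_ca9be0_an.PyF

variable {r r' : Type} [Fintype r] [Fintype r'] [DecidableEq r] {N M k d D : ℕ}

lemma sg_frm_hv (u : E N) (v : Fin k → E N) (z : E k) :
    frm (hv 1 u) (fun l => hv 0 (v l)) z = hv 1 (fr u v z) := by
  funext s
  refine Fin.cases ?_ (fun i => ?_) s <;> simp [frm, hv, gf_fr_apply]

lemma sg_hv_mem {p a : ℕ} {φ : E p → E N} (hφ : ∀ i, (fun θ => φ θ i) ∈ Pd p a)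
    (s : Fin (N + 1)) : (fun θ => hv 1 (φ θ) s) ∈ Pd p a := by
  refine Fin.cases ?_ (fun i => ?_) s
  · exact const_mem a 1
  · exact hφ i

lemma sg_mo_mem {p a : ℕ} {φ : E p → E N} (hφ : ∀ i, (fun θ => φ θ i) ∈ Pd p a)
    (f : Fin D → Fin (N + 1)) : (fun θ => mo f (hv 1 (φ θ))) ∈ Pd p (D * a) := by
  simpa [mo] using gf_Pd_prod (univ : Finset (Fin D)) fun j _ => sg_hv_mem hφ (f j)

lemma sg_mo_hv (f : Fin D → Fin (N + 1)) : (fun y : E N => mo f (hv 1 y)) ∈ Pd N D := by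
  simpa using sg_mo_mem (φ := fun y : E N => y) (fun i => gen_mem (some i)) f

lemma sg_mo_le (f : Fin D → Fin (N + 1)) {y : E N} {R : ℝ} (hR : 1 ≤ R) (hy : ‖y‖ ≤ R) :
    |mo f (hv 1 y)| ≤ R ^ D := by
  rw [mo, abs_prod]
  refine (prod_le_prod (g := fun _ => R) (fun _ _ => abs_nonneg _) fun j _ => ?_).trans (by simp)
  refine Fin.cases ?_ (fun i => ?_) (f j)
  · simpa [hv] using hR
  · exact (PiLp.norm_apply_le y i).trans hy

lemma sg_hM_spec (a : BA N d) (y : E N) : (bs N d).m a y = ∑ f, hM N d a f * mo f (hv 1 y) :=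
  (exists_hM ((bs N d).mem a)).choose_spec y

lemma sg_exp {p : E N → ℝ} (hp : p ∈ Pd N d) (y : E N) :
    p y = ∑ f, (∑ a, co ((bs N d).γ a) p * hM N d a f) * mo f (hv 1 y) := by
  rw [(bs N d).exp p hp y]
  simp only [sg_hM_spec, mul_sum, sum_mul, mul_assoc]
  exact sum_comm

/-- bounded polynomials have bounded homogeneous coefficients -/
lemma sg_coef (N D : ℕ) : ∃ K : ℝ, 0 ≤ K ∧ ∀ p ∈ Pd N D, ∀ c : ℝ, PB p 0 1 c →
    ∀ f, |∑ a, co ((bs N D).γ a) p * hM N D a f| ≤ K * c := by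
  obtain ⟨ρ, K, hρ, hK, h⟩ := gf_co_bd N D
  have hg := (Kg_pos N D).le
  refine ⟨K * (Kg N D * max 1 ρ ^ D) * ∑ f, ∑ a, |hM N D a f|, by positivity,
    fun p hp c hc f => ?_⟩
  have h0 := hc.nonneg zero_le_one
  have h1 : ∀ a, |co ((bs N D).γ a) p| ≤ K * (Kg N D * c * max 1 ρ ^ D) := fun a =>
    h a p _ fun z hz => (hc.grow hp one_pos z).trans (by rw [sub_zero, div_one]; gcongr)
  calc _ ≤ ∑ a, K * (Kg N D * c * max 1 ρ ^ D) * |hM N D a f| :=
        (abs_sum_le_sum_abs _ _).trans (sum_le_sum fun a _ => by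
          rw [abs_mul]; exact mul_le_mul_of_nonneg_right (h1 a) (abs_nonneg _))
    _ ≤ K * (Kg N D * c * max 1 ρ ^ D) * ∑ f, ∑ a, |hM N D a f| := by
        rw [← mul_sum]
        exact mul_le_mul_of_nonneg_left (single_le_sum (f := fun f => ∑ a, |hM N D a f|)
          (fun _ _ => by positivity) (mem_univ f)) (by positivity)
    _ = _ := by ring

omit [Fintype r] [Fintype r'] [DecidableEq r] in
lemma sg_hF_Hd (φ : r → r' → Fin M → ℝ) (T : Fin M → E N → ℝ) (i : r) (j : r') :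
    Hd d (hF φ d T i j) := ⟨_, fun _ => rfl⟩

omit [Fintype r] [Fintype r'] [DecidableEq r] in
lemma sg_hF_hv (φ : r → r' → Fin M → ℝ) {T : Fin M → E N → ℝ} (hT : PV d T) (i : r) (j : r')
    (y : E N) : hF φ d T i j (hv 1 y) = ∑ m, φ i j m * T m y := by
  simp only [hF, fun m => sg_exp (hT m) y, sum_mul, mul_sum, mul_assoc]
  exact sum_comm

omit [Fintype r] [Fintype r'] in
lemma sg_Mx_hv (Φ : r → r' → (Fin (N + 1) → ℝ) → ℝ) (u : E N) (v : Fin k → E N) :
    Mx d D Φ (hv 1 u) (fun l => hv 0 (v l)) = of fun p c =>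
      co ((bs k (D + d)).γ p.2) fun z => col Φ c p.1 (hv 1 (fr u v z)) := by
  ext p c
  simp only [Mx, rv, of_apply, sg_frm_hv]

/-- bounded members of the module are bounded combinations of the columns -/
lemma sg_rep (N d D : ℕ) : ∃ K : ℝ, 0 ≤ K ∧ ∀ (Φ : r → r' → (Fin (N + 1) → ℝ) → ℝ)
    (w : r' → E N → ℝ) (e : r → E N → ℝ) (c : ℝ), PV D w → PV (D + d) e → (∀ j, PB (w j) 0 1 c) →
    (∀ i, PB (e i) 0 1 c) → ∃ β : Col (Fin (N + 1)) r r' d D → ℝ, (∀ c₀, |β c₀| ≤ K * |c|) ∧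
      ∀ i y, ∑ j, Φ i j (hv 1 y) * w j y + e i y = ∑ c₀, β c₀ * col Φ c₀ i (hv 1 y) := by
  obtain ⟨K, hK, h⟩ := sg_coef N D
  obtain ⟨K', hK', h'⟩ := sg_coef N (D + d)
  refine ⟨K + K', by positivity, fun Φ w e c hw he bw be => ⟨Sum.elim
    (fun p => ∑ a, co ((bs N D).γ a) (w p.1) * hM N D a p.2)
    fun p => ∑ a, co ((bs N (D + d)).γ a) (e p.1) * hM N (D + d) a p.2, ?_, fun i y => ?_⟩⟩
  swap
  · rw [sg_exp (he i) y]
    simp only [fun j => sg_exp (hw j) y]
    exact (sg_col_comb Φ (fun j f => ∑ a, co ((bs N D).γ a) (w j) * hM N D a f) (fun i f => ∑ a, co ((bs N (D + d)).γ a) (e i) * hM N (D + d) a f)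
      i _).symm
  · have := abs_nonneg c
    have := le_abs_self c
    rintro (p | p)
    · exact (h _ (hw _) c (bw _) _).trans (by nlinarith)
    · exact (h' _ (he _) c (be _) _).trans (by nlinarith)

omit [Fintype r] [Fintype r'] in
lemma sgS_bd (k D : ℕ) (R : ℝ) : ∃ C : ℝ, ∀ (κ t : ℝ) (c : E k), |κ| ≤ R → |t| ≤ R → ‖c‖ ≤ R →
    ∀ p q, |sgS r k D κ t c p q| ≤ C := by
  obtain ⟨C, h⟩ := gfS_bd k D R
  refine ⟨max C 0, fun κ t c h1 h2 h3 p q => ?_⟩
  rw [sgS, of_apply]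
  split_ifs
  · exact (h κ t c h1 h2 h3 _ _).trans (le_max_left _ _)
  · simp

lemma sg_mG_poly (φ : r → r' → Fin M → ℝ) (p a : ℕ) (T : E p → Fin M → E N → ℝ) (u : E p → E N)
    (v : E p → Fin k → E N) (hT : ∀ θ, PV d (T θ)) (h : ∀ w y, (fun θ => T θ w y) ∈ Pd p a)
    (hu : ∀ i, (fun θ => u θ i) ∈ Pd p a) (hv' : ∀ l i, (fun θ => v θ l i) ∈ Pd p a) :
    (fun θ => mG φ d D k (T θ) (u θ) (v θ)) ∈ Pd p (eP r k (D + d) * a) := by
  have h1 : ∀ z i, (fun θ => fr (u θ) (v θ) z i) ∈ Pd p a := fun z i => by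
    simp only [gf_fr_apply]
    exact Pd_add (hu i) (Pd_sum _ fun l _ => Pd_smul _ (hv' l i))
  have hX : ∀ q c, (fun θ => Mx d D (hF φ d (T θ)) (hv 1 (u θ)) (fun l => hv 0 (v θ l)) q c) ∈
      Pd p ((D + d + 1) * a) := fun q c => by
    simp only [sg_Mx_hv, of_apply]
    refine gf_Pd_co _ fun z => ?_
    rcases c with c | c
    · simp only [col, fun θ => sg_hF_hv φ (hT θ)]
      rw [show (D + d + 1) * a = (d + 1) * a + D * a by ring]
      exact Pd_mul (Pd_sum _ fun m _ => Pd_smul _ (gf_Pd_eval (fun θ => hT θ m) (h m) (h1 z)))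
        (sg_mo_mem (h1 z) _)
    · simp only [col]
      split_ifs
      · exact Pd_mono (Nat.mul_le_mul_right a (Nat.le_succ _)) (sg_mo_mem (h1 z) _)
      · exact const_mem _ _
  rw [eP, mul_assoc]
  refine gf_Pd_det fun b b' => ?_
  simp only [mul_apply, transpose_apply]
  rw [mul_assoc, two_mul]
  exact Pd_sum _ fun c _ => Pd_mul (hX b c) (hX b' c)

lemma sg_mG_trans (φ : r → r' → Fin M → ℝ) (R : ℝ) : ∃ C, 0 < C ∧ ∀ (T : Fin M → E N → ℝ) (u : E N)
    (v : Fin k → E N) (c : E k), ‖c‖ ≤ R → mG φ d D k T (fr u v c) v ≤ C * mG φ d D k T u v := by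
  classical
  obtain ⟨C1, h1⟩ := sgS_bd (r := r) k (D + d) (max R 1)
  obtain ⟨C, hC, h2⟩ := sg_gram_cmp (r × BA k (D + d)) (Col (Fin (N + 1)) r r' d D)
    (Col (Fin (N + 1)) r r' d D) (max C1 1)
  refine ⟨C, hC, fun T u v c hc => ?_⟩
  have e1 := sg_Mx_eq (D := D) (sg_hF_Hd (d := d) φ T) (ξ := hv 1 u) (v := fun l => hv 0 (v l))
    (F := fun (c' : Col (Fin (N + 1)) r r' d D) i z =>
      col (hF φ d T) c' i (hv 1 (fr (fr u v c) v z))) 1 1 c 1 fun c' i z => by
      simp only [one_apply, sg_frm_hv, gf_fr_fr, ite_mul, one_mul, zero_mul, sum_ite_eq', mem_univ,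
        if_true]
  rw [mG, mG, Pt, Pt, sg_Mx_hv, e1]
  refine h2 _ _ _ (fun a b => (h1 1 1 c (by simp) (by simp) (hc.trans (le_max_left _ _)) a b).trans
    (le_max_left _ _)) fun a b => le_max_of_le_right ?_
  rw [one_apply]
  split_ifs <;> simp

lemma sg_mG_cmp (φ : r → r' → Fin M → ℝ) (R : ℝ) (hR : 1 ≤ R) : ∃ C, 0 < C ∧
    ∀ (T T' : Fin M → E N → ℝ) (κ t : ℝ) (c u : E N) (v : Fin k → E N), PV d T → PV d T' →
    |κ| ≤ R → ‖c‖ ≤ R → R⁻¹ ≤ t → t ≤ R →
    (∀ w, PB (fun y => T' w y - κ * T w (c + t • y)) 0 1 R) →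
    mG φ d D k T' u v ≤ C * mG φ d D k T (c + t • u) v := by
  classical
  obtain ⟨C1, h1⟩ := sgS_bd (r := r) k (D + d) R
  obtain ⟨K, hK, h3⟩ := sg_rep (r := r) (r' := r') N d D
  have hg := (Kg_pos N d).le
  set R2 : ℝ := R * (R + 1) with hR2
  have hR2' : 1 ≤ R2 := by nlinarith
  set L : ℝ := ∑ i, ∑ j, ∑ m, |φ i j m| with hL
  set B : ℝ := R * R2 ^ D + L * (Kg N d * R * R2 ^ d) * R2 ^ D + R2 ^ (D + d) with hB
  have b1 : 0 ≤ R * R2 ^ D := by positivity
  have b2 : 0 ≤ L * (Kg N d * R * R2 ^ d) * R2 ^ D := by positivity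
  have b3 : 0 ≤ R2 ^ (D + d) := by positivity
  obtain ⟨C, hC, h2⟩ := sg_gram_cmp (r × BA k (D + d)) (Col (Fin (N + 1)) r r' d D)
    (Col (Fin (N + 1)) r r' d D) (max C1 (K * |B|))
  refine ⟨C, hC, fun T T' κ t c u v hT hT' hκ hc ht1 ht2 hZ => ?_⟩
  have ht0 : 0 < t := (inv_pos.2 (one_pos.trans_le hR)).trans_le ht1
  let θ : E N → E N := fun y => -(t⁻¹ • c) + t⁻¹ • y
  have θ1 : ∀ y, θ (c + t • y) = y := fun y => by
    simp [θ, smul_smul, inv_mul_cancel₀ ht0.ne']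
  have θ2 : ∀ y, c + t • θ y = y := fun y => by
    simp [θ, smul_smul, mul_inv_cancel₀ ht0.ne']
  have θ3 : ∀ y, ‖y - 0‖ ≤ 1 → ‖θ y‖ ≤ R2 := fun y hy => by
    rw [sub_zero] at hy
    have a1 : t⁻¹ ≤ R := inv_le_of_inv_le₀ (one_pos.trans_le hR) ht1
    have a2 : ‖-c + y‖ ≤ R + 1 := (norm_add_le _ _).trans (by rw [norm_neg]; linarith)
    rw [show θ y = t⁻¹ • (-c + y) by simp [θ], norm_smul, Real.norm_of_nonneg (by positivity)]
    exact mul_le_mul a1 a2 (norm_nonneg _) (by linarith)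
  have m1 : ∀ {D : ℕ} (f : Fin D → Fin (N + 1)), (fun y => mo f (hv 1 (θ y))) ∈ Pd N D :=
    fun f => Pd_affine (sg_mo_hv f) _ _
  have z1 : ∀ m, (fun y => T' m y - κ * T m (c + t • y)) ∈ Pd N d := fun m =>
    Pd_sub (hT' m) (Pd_smul κ (Pd_affine (hT m) c t))
  have key : ∀ c' : Col (Fin (N + 1)) r r' d D, ∃ β : Col (Fin (N + 1)) r r' d D → ℝ,
      (∀ c₀, |β c₀| ≤ K * |B|) ∧ ∀ i y, col (hF φ d T') c' i (hv 1 (θ y)) =
        ∑ c₀, β c₀ * col (hF φ d T) c₀ i (hv 1 y) := by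
    rintro (⟨j, f⟩ | ⟨i₀, f⟩)
    · obtain ⟨β, β1, β2⟩ := h3 (hF φ d T)
        (fun j' y => if j' = j then κ * mo f (hv 1 (θ y)) else 0)
        (fun i y => (∑ m, φ i j m * (T' m (θ y) - κ * T m (c + t • θ y))) * mo f (hv 1 (θ y))) B
        (fun j' => by
          by_cases h : j' = j <;> simp only [h, if_true, if_false]
          · exact Pd_smul κ (m1 f)
          · exact const_mem _ _)
        (fun i => add_comm d D ▸ Pd_mul (Pd_sum _ fun m _ => Pd_smul _ (Pd_affine (z1 m) _ _))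
          (m1 f))
        (fun j' y hy => by
          have := mul_le_mul hκ (sg_mo_le f hR2' (θ3 y hy)) (abs_nonneg _) (by linarith)
          dsimp only
          split_ifs
          · rw [abs_mul]; linarith
          · rw [abs_zero]; linarith)
        fun i y hy => by
          have a1 : ∀ m, |T' m (θ y) - κ * T m (c + t • θ y)| ≤ Kg N d * R * R2 ^ d := fun m => by
            refine ((hZ m).grow (z1 m) one_pos (θ y)).trans ?_
            rw [sub_zero, div_one]
            have := max_le hR2' (θ3 y hy)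
            gcongr
          have a2 : ∑ m, |φ i j m| ≤ L :=
            (single_le_sum (f := fun j => ∑ m, |φ i j m|) (fun _ _ => by positivity)
              (mem_univ j)).trans (single_le_sum (f := fun i => ∑ j, ∑ m, |φ i j m|)
                (fun _ _ => by positivity) (mem_univ i))
          have a3 : |∑ m, φ i j m * (T' m (θ y) - κ * T m (c + t • θ y))| ≤
              L * (Kg N d * R * R2 ^ d) := by
            refine (abs_sum_le_sum_abs _ _).trans (le_trans ?_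
              (mul_le_mul_of_nonneg_right a2 (by positivity)))
            rw [sum_mul]
            exact sum_le_sum fun m _ => by
              rw [abs_mul]; exact mul_le_mul_of_nonneg_left (a1 m) (abs_nonneg _)
          have := mul_le_mul a3 (sg_mo_le f hR2' (θ3 y hy)) (abs_nonneg _) (by positivity)
          dsimp only
          rw [abs_mul]; linarith
      refine ⟨β, β1, fun i y => ?_⟩
      rw [← β2]
      simp only [col, mul_ite, mul_zero, sum_ite_eq', mem_univ, if_true, sg_hF_hv φ hT, sg_hF_hv φ hT',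
        θ2, sum_mul, ← sum_add_distrib]
      exact sum_congr rfl fun m _ => by ring
    · obtain ⟨β, β1, β2⟩ := h3 (hF φ d T) (fun _ _ => 0)
        (fun i y => if i = i₀ then mo f (hv 1 (θ y)) else 0) B (fun _ => const_mem _ _)
        (fun i => by
          by_cases h : i = i₀ <;> simp only [h, if_true, if_false]
          · exact m1 f
          · exact const_mem _ _)
        (fun j' y hy => by rw [abs_zero]; linarith)
        fun i y hy => by
          have := sg_mo_le f hR2' (θ3 y hy)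
          dsimp only
          split_ifs
          · linarith
          · rw [abs_zero]; linarith
      exact ⟨β, β1, fun i y => by rw [← β2]; simp [col]⟩
  choose β β1 β2 using key
  have e1 := sg_Mx_eq (D := D) (sg_hF_Hd (d := d) φ T) (ξ := hv 1 (c + t • u))
    (v := fun l => hv 0 (v l)) (F := fun c' i z => col (hF φ d T') c' i (hv 1 (fr u v z))) 1 t 0
    (of fun c₀ c' => β c' c₀) fun c' i z => by
      simp only [sg_frm_hv, ← gf_fr_aff, one_mul, of_apply, ← β2, θ1]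
  rw [mG, mG, Pt, Pt, sg_Mx_hv, e1]
  exact h2 _ _ _ (fun a b => (h1 1 t 0 (by simpa using hR) (by rwa [abs_of_pos ht0])
    (by rw [norm_zero]; linarith) a b).trans (le_max_left _ _))
    fun a b => (β1 b a).trans (le_max_right _ _)

lemma sg_mG_pos (φ : r → r' → Fin M → ℝ) (hk : k ≤ N) (T : Fin M → E N → ℝ) :
    0 < mG φ d D k T 0 fun l => EuclideanSpace.single (Fin.castLE hk l) 1 := by
  classical
  let π : E N → E k := fun y => WithLp.toLp 2 fun l => y (Fin.castLE hk l)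
  have π1 : ∀ z, π (fr 0 (fun l => EuclideanSpace.single (Fin.castLE hk l) 1) z) = z := fun z => by
    ext l
    simp [π, gf_fr_apply]
  have π2 : ∀ a : BA k (D + d), (fun y => (bs k (D + d)).m a (π y)) ∈ Pd N (D + d) := fun a => by
    simpa using gf_Pd_comp (φ := π) (a := 1) (fun i => gen_mem (some _)) ((bs k (D + d)).mem a)
  let Y : Matrix (Col (Fin (N + 1)) r r' d D) (r × BA k (D + d)) ℝ := of fun c₀ q =>
    Sum.elim (fun _ => 0) (fun p => if p.1 = q.1 then ∑ a, co ((bs N (D + d)).γ a)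
      (fun y => (bs k (D + d)).m q.2 (π y)) * hM N (D + d) a p.2 else 0) c₀
  have e1 : Mx d D (hF φ d T) (hv 1 0)
      (fun l => hv 0 (EuclideanSpace.single (Fin.castLE hk l) 1)) * Y = 1 := by
    ext ⟨i, a⟩ ⟨i', a'⟩
    rw [sg_Mx_hv, mul_apply]
    simp only [of_apply, mul_comm (co _ _), ← co_sum]
    have : (fun z => ∑ c₀, Y c₀ (i', a') * col (hF φ d T) c₀ i
        (hv 1 (fr 0 (fun l => EuclideanSpace.single (Fin.castLE hk l) 1) z))) =
        fun z => ∑ _b : Unit, (if i = i' then 1 else 0) * (bs k (D + d)).m a' z := by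
      funext z
      refine (sg_col_comb (hF φ d T) (fun _ _ => 0) (fun i f => if i = i' then
        ∑ a, co ((bs N (D + d)).γ a) (fun y => (bs k (D + d)).m a' (π y)) * hM N (D + d) a f
        else 0) i _).trans ?_
      split_ifs
      · rw [← sg_exp (π2 a'), π1]; simp
      · simp
    rw [this, co_sum, (bs k (D + d)).dl, one_apply]
    by_cases h1 : i = i' <;> by_cases h2 : a = a' <;> simp [h1, h2, eq_comm (a := a')]
  obtain ⟨C, hC, h2⟩ := sg_gram_cmp (r × BA k (D + d)) (Col (Fin (N + 1)) r r' d D)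
    (r × BA k (D + d)) (1 + ∑ a, ∑ b, |Y a b|)
  have h3 := h2 1 (Mx d D (hF φ d T) (hv 1 0)
    (fun l => hv 0 (EuclideanSpace.single (Fin.castLE hk l) 1))) Y (fun a b => by
      refine le_trans ?_ (le_add_of_nonneg_right (by positivity))
      rw [one_apply]; split_ifs <;> simp) fun a b =>
    ((single_le_sum (f := fun b => |Y a b|) (fun _ _ => abs_nonneg _) (mem_univ b)).trans
      (single_le_sum (f := fun a => ∑ b, |Y a b|) (fun _ _ => by positivity)
        (mem_univ a))).trans (le_add_of_nonneg_left zero_le_one)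
  rw [Matrix.one_mul, e1, transpose_one, Matrix.mul_one, det_one] at h3
  exact (mul_pos_iff_of_pos_left hC).1 (one_pos.trans_le h3)

theorem sg_mG_gauge (φ : r → r' → Fin M → ℝ) (d D : ℕ) (hk : k ≤ N) :
    IsGauge d (eP r k (D + d)) (mG φ d D k : Gg M N k) := by
  refine ⟨fun T u v => sg_Pt_nonneg _ _ _, sg_mG_poly φ, fun R hR => ?_, fun R => ?_,
    _, ?_, sg_mG_pos φ hk _⟩
  · obtain ⟨C, hC, h⟩ := sg_mG_cmp (N := N) (k := k) (d := d) (D := D) φ R hR
    exact ⟨C, hC, fun T T' κ t c u v a1 a2 a3 a4 _ _ => h T T' κ t c u v a1 a2 a3 a4⟩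
  · obtain ⟨C, hC, h⟩ := sg_mG_trans (N := N) (k := k) (d := d) (D := D) φ R
    exact ⟨C, hC, fun T u v c _ => h T u v c⟩
  · exact (pi_norm_le_iff_of_nonneg zero_le_one).2 fun l => by simp

end Pool.Agent.CA9.UB
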