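import Pool.Agent.Lib.MP_ca9be0_an.UB.S4
import Pool.Agent.Lib.MP_ca9be0_an.UB.IM
import Pool.Agent.Lib.MP_ca9be0_an.UB.SG2

/-! The module gauge of a tuple is a gauge. -/

namespace Pool.Agent.CA9.UB

open Finset Matrix Pool.Agent.Lib.MP_ca9be0_an.PyF

variable {r r' : Type} [Fintype r] [Fintype r'] [DecidableEq r] {k M N : ℕ}

theorem exists_Fr (h : k ≤ N) : ∃ (v : Fin k → E N) (R : ℝ), ‖v‖ ≤ 1 ∧
    Fr R (hv 1 (0 : E N)) fun l => hv 0 (v l) := by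
  refine ⟨fun l => EuclideanSpace.single (Fin.castLE h l) 1, max (‖hv 1 (0 : E N)‖ +
    ∑ l, ‖hv 0 (EuclideanSpace.single (Fin.castLE h l) (1 : ℝ))‖) 1,
    (pi_norm_le_iff_of_nonneg zero_le_one).2 fun l => by simp, le_max_left _ _, Pi.single 0 1,
    fun l => Pi.single (Fin.castLE h l).succ 1, le_max_of_le_right ?_,
    fun l => le_max_of_le_right ?_, by simp [hv], fun j => by simp [hv], fun i => by simp [hv],
    fun i j => by simp [hv]⟩
  · rw [sum_eq_single 0 (fun b _ hb => by simp [hb]) (by simp)]; simp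
  · rw [sum_eq_single (Fin.castLE h l).succ (fun b _ hb => by simp [hb]) (by simp)]; simp

theorem mG_cmp (φ : r → r' → Fin M → ℝ) (d D k : ℕ) (R : ℝ) (hR : 1 ≤ R) : ∃ C, 0 < C ∧
    ∀ (T T' : Fin M → E N → ℝ) (κ t : ℝ) (c u : E N) (v : Fin k → E N), PV d T → PV d T' →
      |κ| ≤ R → ‖c‖ ≤ R → R⁻¹ ≤ t → t ≤ R →
      (∀ w, PB (fun y => T' w y - κ * T w (c + t • y)) 0 1 R) →
      mG φ d D k T' u v ≤ C * mG φ d D k T (c + t • u) v :=
  sg_mG_cmp φ R hR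

theorem mG_gauge (φ : r → r' → Fin M → ℝ) (d D : ℕ) (h : k ≤ N) :
    IsGauge d (eP r k (D + d)) (mG (N := N) φ d D k) :=
  sg_mG_gauge φ d D h

theorem s6_small (φ : r → r' → Fin M → ℝ) (d D : ℕ) (h : k ≤ N) : ∃ K : ℝ, 0 < K ∧
    ∀ T : Fin M → E N → ℝ, PV d T → ∀ (y : Fin (N + 1) → ℝ) (w : Fin k → Fin (N + 1) → ℝ),
      ‖y‖ ≤ 1 → ‖w‖ ≤ 1 →
      Pt d D (hF φ d T) (hv 1 (0 : E N) + (1 / 2 : ℝ) • y) w ≤ K * gb (mG φ d D k) T := by
  classical
  obtain ⟨K, hK, h1⟩ := Pt_frame (Fin (N + 1)) r r' k d D 2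
  let A := (EuclideanSpace.equiv (Fin N) ℝ).symm.toContinuousLinearMap
  have hA : ∀ z : Fin N → ℝ, (∀ i, |z i| ≤ 2) → ‖A z‖ ≤ ‖A‖ * 2 := fun z hz =>
    A.le_opNorm_of_le ((pi_norm_le_iff_of_nonneg two_pos.le).2 hz)
  obtain ⟨C, hC, h2⟩ := (mG_gauge φ d D h).grow (‖A‖ * 2)
  refine ⟨K * C, mul_pos hK hC, fun T hT y w hy hw => ?_⟩
  have hy' : ∀ i, |y i| ≤ 1 := fun i => (norm_le_pi_norm y i).trans hy
  have hw' : ∀ j i, |w j i| ≤ 1 := fun j i =>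
    (norm_le_pi_norm (w j) i).trans ((norm_le_pi_norm w j).trans hw)
  obtain ⟨a1, a2⟩ := abs_le.1 (hy' 0)
  have l0 : (0 : ℝ) < 1 + y 0 / 2 := by linarith
  let u : Fin N → ℝ := fun i => y i.succ / 2 / (1 + y 0 / 2)
  have hu : ∀ i, |u i| ≤ 1 := fun i => by
    have := hy' i.succ
    rw [abs_div, abs_div, abs_of_pos l0, abs_two, div_le_one l0]
    linarith
  let v : Fin k → Fin N → ℝ := fun j i => w j i.succ - w j 0 * u i
  have hv' : ∀ j i, |v j i| ≤ 2 := fun j i => by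
    have h3 := mul_le_one₀ (hw' j 0) (abs_nonneg _) (hu i)
    have h4 := hw' j i.succ
    have h5 := abs_sub (w j i.succ) (w j 0 * u i)
    rw [abs_mul] at h5
    exact h5.trans (by linarith)
  have h3 := h1 _ (hF_hd φ d T) (hv 1 (A u)) (fun j => hv 0 (A (v j))) (1 + y 0 / 2)
    (fun j => w j 0) 0 (fun i j => if i = j then 1 else 0) (abs_le.2 ⟨by linarith, by linarith⟩)
    (fun j => (hw' j 0).trans one_le_two) (fun _ => by simp) (fun i j => by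
      split_ifs <;> simp)
  have e1 : (1 + y 0 / 2) • hv 1 (A u) + ∑ j, (0 : Fin k → ℝ) j • hv 0 (A (v j)) =
      hv 1 (0 : E N) + (1 / 2 : ℝ) • y := by
    funext i
    refine Fin.cases ?_ (fun i => ?_) i
    · simp [hv]; ring
    · have := mul_div_cancel₀ (y i.succ / 2) l0.ne'
      simp [hv, A, u]; linarith
  have e2 : (fun i => w i 0 • hv 1 (A u) +
      ∑ j, (if i = j then (1 : ℝ) else 0) • hv 0 (A (v j))) = w := by
    funext j i
    refine Fin.cases ?_ (fun i => ?_) i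
    · simp [hv]
    · simp [hv, A, v]
  rw [e1, e2] at h3
  rw [mul_assoc]
  exact h3.trans (mul_le_mul_of_nonneg_left ((h2 T hT (A u) (fun j => A (v j))
    ((pi_norm_le_iff_of_nonneg (by positivity)).2 fun j => hA _ (hv' j))).2
    (hA _ fun i => (hu i).trans one_le_two)) hK.le)

/-- all bounded frames are controlled by the affine ones -/
theorem Pt_le_gb (φ : r → r' → Fin M → ℝ) (d D : ℕ) (h : k ≤ N) (R : ℝ) : ∃ K : ℝ, 0 < K ∧
    ∀ T : Fin M → E N → ℝ, PV d T → ∀ (y : Fin (N + 1) → ℝ) (w : Fin k → Fin (N + 1) → ℝ),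
      ‖y‖ ≤ R → ‖w‖ ≤ R → Pt d D (hF φ d T) y w ≤ K * gb (mG φ d D k) T := by
  obtain ⟨K, hK, h1⟩ := s6_small φ d D h
  have hL := KL_pos (eP r k (D + d))
  refine ⟨KL (eP r k (D + d)) * K * (1 + 2 * (|R| + ‖hv 1 (0 : E N)‖)) ^ eP r k (D + d),
    by positivity, fun T hT y w hy hw => ?_⟩
  have h2 := (Pt_lp (k := k) (D := D) (hF_hd φ d T)).aff
    (T := fun x : (Fin (N + 1) → ℝ) × (Fin k → Fin (N + 1) → ℝ) =>
      (hv 1 (0 : E N) + (1 / 2 : ℝ) • x.1, x.2)) fun x z => ⟨((1 / 2 : ℝ) • z.1, z.2), fun t => by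
        simp only [Prod.fst_add, Prod.snd_add, Prod.smul_fst, Prod.smul_snd, Prod.smul_mk,
          Prod.mk_add_mk, smul_add, smul_comm t, add_assoc]⟩
  have h0 : 0 ≤ K * gb (mG φ d D k) T := (Pt_nonneg _ _ _).trans (h1 T hT 0 0 (by simp) (by simp))
  have h3 := h2.grow (B := K * gb (mG φ d D k) T) (fun x hx => by
    rw [abs_of_nonneg (Pt_nonneg _ _ _)]
    exact h1 T hT _ _ ((norm_fst_le x).trans hx) ((norm_snd_le x).trans hx))
    ((2 : ℝ) • (y - hv 1 (0 : E N)), w)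
  simp only [smul_smul, one_div, inv_mul_cancel₀ (two_ne_zero' ℝ), one_smul, add_sub_cancel] at h3
  refine (le_abs_self _).trans (h3.trans ?_)
  rw [mul_right_comm _ _ (gb _ T), mul_assoc (KL _) K]
  have h4 := le_abs_self R
  have h5 := norm_nonneg (hv 1 (0 : E N))
  have h6 := norm_sub_le y (hv 1 (0 : E N))
  have h7 := abs_nonneg R
  gcongr
  rw [Prod.norm_mk, norm_smul, Real.norm_two]
  exact max_le (by linarith) (by linarith)

theorem s6_lp (φ : r → r' → Fin M → ℝ) (d D : ℕ) {a : ℕ} {T : ℝ → Fin M → E N → ℝ}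
    (h : ∀ m z, LP a fun θ => T θ m z) (ξ : Fin (N + 1) → ℝ) (w : Fin k → Fin (N + 1) → ℝ) :
    LP (eP r k (D + d) * a) fun θ => Pt d D (hF φ d (T θ)) ξ w :=
  Pt_gr (gr_LP ℝ) (Φ := fun θ => hF φ d (T θ)) (ξ := fun _ => ξ) (v := fun _ => w)
    (fun _ _ _ _ => rfl) (fun _ _ _ => LP.sum _ fun m _ => LP.smul _ (LP.sum _ fun _ _ =>
      (LP.sum _ fun z _ => (h m z).smul _).mul (LP.const 0 _)))
    (fun _ => LP.const _ _) fun _ _ => LP.const _ _

theorem s6_interp {e : ℕ} {f : ℝ → ℝ} (h : LP e f) (t : ℝ) :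
    f t = ∑ k ∈ range (e + 1), f ((k : ℝ) / (e + 1)) * (lg e k).eval t := by
  simpa using h.interp 0 1 t

/-- the node polynomials as sums of powers of the scale -/
theorem exp_nP (φ : r → r' → Fin M → ℝ) (d n : ℕ) (D : ℕ → ℕ) (s : ℝ) : ∃ Ex : Finset ℝ,
    ∀ (T : Fin M → E N → ℝ) (p : E N), PV d T → ∃ pp : ℝ → NP (Fin (N + 1)),
      (∀ x j ξ v i, (pp x j ξ v i).natDegree ≤ ex r j (D j + d)) ∧ ∀ ρ : ℝ, 0 < ρ → ∀ j ≤ n,
        ∀ ξ v i, nP d D (hF φ d fun m => scl s ρ p (T m)) j ξ v i =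
          ∑ x ∈ Ex, ρ ^ x • pp x j ξ v i := by
  obtain ⟨e, he⟩ : ∃ e, ∀ j ≤ n, eP r j (D j + d) * (d + 1) ≤ e :=
    ⟨(range (n + 1)).sup fun j => eP r j (D j + d) * (d + 1), fun j hj =>
      le_sup (f := fun j => eP r j (D j + d) * (d + 1)) (mem_range.2 (Nat.lt_succ_of_le hj))⟩
  obtain ⟨Ex, α, hα⟩ := exp_lg s e
  refine ⟨Ex, fun T p hT => ?_⟩
  let S : ℝ → ℝ → Fin M → E N → ℝ := fun τ t m y => τ * T m (p + t • y)
  refine ⟨fun x j ξ v i => ∑ a ∈ range (e + 1), ∑ b ∈ range (e + 1),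
    α a b x • nP d D (hF φ d (S ((a : ℝ) / (e + 1)) ((b : ℝ) / (e + 1)))) j ξ v i,
    fun x j ξ v i => Polynomial.natDegree_sum_le_of_forall_le _ _ fun a _ =>
      Polynomial.natDegree_sum_le_of_forall_le _ _ fun b _ =>
        (Polynomial.natDegree_smul_le _ _).trans (npo_top (hF_hd φ d _) _ _ _).1,
    fun ρ hρ j hj ξ v i => Polynomial.funext fun c => ?_⟩
  have h1 : ∀ t, LP e fun τ => Pt d (D j) (hF φ d (S τ t)) (ξ + c • v i) (i.removeNth v) :=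
    fun t => (s6_lp φ d (D j) (a := d + 1) (fun m z =>
      ((LP.linear LinearMap.id).mul (LP.const 0 _)).mono (by omega)) _ _).mono (he j hj)
  have h2 : ∀ τ, LP e fun t => Pt d (D j) (hF φ d (S τ t)) (ξ + c • v i) (i.removeNth v) :=
    fun τ => (s6_lp φ d (D j) (a := d + 1) (fun m z =>
      ((((Pd_LP (hT m)).lin p (LinearMap.toSpanSingleton ℝ _ z)).smul τ)).mono (by omega))
      _ _).mono (he j hj)
  have h3 : (fun m => scl s ρ p (T m)) = S (ρ ^ s)⁻¹ ρ := by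
    funext m y; exact div_eq_inv_mul _ _
  simp only [nP, Polynomial.eval_finsetSum, Polynomial.eval_smul, smul_eq_mul,
    npo_eval (hF_hd φ d _), mul_sum]
  rw [h3, s6_interp (h1 ρ), sum_comm]
  refine sum_congr rfl fun a ha => ?_
  rw [s6_interp (h2 _) ρ, sum_mul, sum_comm]
  refine sum_congr rfl fun b hb => ?_
  rw [mul_assoc, mul_comm (Polynomial.eval ρ _), hα a b (Nat.lt_succ_iff.1 (mem_range.1 ha))
    (Nat.lt_succ_iff.1 (mem_range.1 hb)) ρ hρ, mul_sum]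
  exact sum_congr rfl fun x _ => by ring

end Pool.Agent.CA9.UB
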