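import Pool.Agent.Lib.MP_ca9be0_an.UB.S6
import Pool.Agent.Lib.MP_ca9be0_an.UB.La2
import Pool.Agent.Lib.MP_ca9be0_an.UB.La5

/-! A finite set of root frames. -/

namespace Pool.Agent.CA9.UB

open Finset Matrix Pool.Agent.Lib.MP_ca9be0_an.PyF

variable {n : ℕ}

theorem Fr_of_det {ξ : Fin (n + 1) → ℝ} {v : Fin n → Fin (n + 1) → ℝ}
    (h : (Matrix.of (Fin.cons ξ v : Fin (n + 1) → Fin (n + 1) → ℝ)).det ≠ 0) : ∃ R, Fr R ξ v := by
  set A := Matrix.of (Fin.cons ξ v : Fin (n + 1) → Fin (n + 1) → ℝ)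
  have e : ∀ a b, (fun s => A⁻¹ s b) ⬝ᵥ A a = (1 : Matrix _ _ ℝ) a b := fun a b => by
    rw [← A.mul_nonsing_inv h.isUnit, dotProduct_comm]
    rfl
  have p : ∀ b, 0 ≤ ∑ s, |A⁻¹ s b| := fun b => by positivity
  have q : ∀ b, ∑ s, |A⁻¹ s b| ≤ ‖ξ‖ + ∑ i, ‖v i‖ + ∑ b, ∑ s, |A⁻¹ s b| := fun b =>
    le_add_of_nonneg_of_le (by positivity) (single_le_sum (fun b _ => p b) (mem_univ b))
  refine ⟨_, le_add_of_nonneg_right (sum_nonneg fun b _ => p b), fun s => A⁻¹ s 0,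
    fun i s => A⁻¹ s i.succ, q 0, fun i => q _, (e 0 0).trans (one_apply_eq _),
    fun j => (e j.succ 0).trans (one_apply_ne (Fin.succ_ne_zero j)),
    fun i => (e 0 i.succ).trans (one_apply_ne (Fin.succ_ne_zero i).symm),
    fun i j => (e j.succ i.succ).trans ?_⟩
  simp [one_apply, eq_comm]

theorem Fr.mono {σ : Type} [Fintype σ] {R R' : ℝ} {ξ : σ → ℝ} {v : Fin n → σ → ℝ} (h : Fr R ξ v)
    (hR : R ≤ R') : Fr R' ξ v := by
  obtain ⟨h0, l₀, l, h1, h2, h3⟩ := h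
  exact ⟨h0.trans hR, l₀, l, h1.trans hR, fun i => (h2 i).trans hR, h3⟩

/-- coordinates of a point in a root frame -/
theorem Fr.coord {R : ℝ} {ξ : Fin (n + 1) → ℝ} {v : Fin n → Fin (n + 1) → ℝ} (h : Fr R ξ v)
    (x : Fin (n + 1) → ℝ) (hx : ‖x‖ ≤ 1) : ∃ (l : ℝ) (ζ : E n), x = l • ξ + ∑ j, ζ j • v j ∧
      |l| ≤ R ∧ (∀ j, |ζ j| ≤ R) ∧
      (Matrix.of (Fin.cons x v : Fin (n + 1) → Fin (n + 1) → ℝ)).det =
        l * (Matrix.of (Fin.cons ξ v : Fin (n + 1) → Fin (n + 1) → ℝ)).det := by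
  obtain ⟨-, l₀, l, a1, a2, a3, a4, a5, a6⟩ := h
  set A := Matrix.of (Fin.cons ξ v : Fin (n + 1) → Fin (n + 1) → ℝ) with hA
  let B := Matrix.of (Fin.cons l₀ l : Fin (n + 1) → Fin (n + 1) → ℝ)
  have e : B * Aᵀ = 1 := by
    ext a b
    refine Fin.cases (Fin.cases a3 (fun j => (a4 j).trans ?_) b)
      (fun i => Fin.cases ((a5 i).trans ?_) (fun j => (a6 i j).trans ?_) b) a
    · exact (one_apply_ne (Fin.succ_ne_zero j).symm).symm
    · exact (one_apply_ne (Fin.succ_ne_zero i)).symm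
    · simp [one_apply]
  have e1 : x = ∑ a, (B *ᵥ x) a • A a := by
    rw [← vecMul_eq_sum, ← mulVec_transpose, mulVec_mulVec, mul_eq_one_comm.1 e, one_mulVec]
  have bd : ∀ l : Fin (n + 1) → ℝ, ∑ s, |l s| ≤ R → |l ⬝ᵥ x| ≤ R := fun l hl =>
    (abs_sum_le_sum_abs _ _).trans ((sum_le_sum fun s _ => by
      rw [abs_mul]
      exact mul_le_of_le_one_right (abs_nonneg _) ((norm_le_pi_norm x s).trans hx)).trans hl)
  refine ⟨l₀ ⬝ᵥ x, WithLp.toLp 2 fun j => l j ⬝ᵥ x, e1.trans (Fin.sum_univ_succ _), bd _ a1,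
    fun j => bd _ (a2 j), ?_⟩
  have e2 : Matrix.of (Fin.cons x v : Fin (n + 1) → Fin (n + 1) → ℝ) =
      A.updateRow 0 (∑ a, (B *ᵥ x) a • A a) := by
    rw [← e1]
    ext a b
    refine Fin.cases (by simp) (fun i => ?_) a
    simp [hA]
  rw [e2, det_updateRow_sum]
  rfl

theorem select (r r' : Type) [Fintype r] [Fintype r'] [DecidableEq r] (n d G : ℕ) (D : ℕ → ℕ) :
    ∃ (Un : Finset ((Fin (n + 2) → ℝ) × (Fin (n + 1) → Fin (n + 2) → ℝ))) (R c K : ℝ), 0 < c ∧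
      1 ≤ K ∧ (∀ Ξ ∈ Un, Fr R Ξ.1 Ξ.2) ∧ ∀ Φ : r → r' → (Fin (n + 2) → ℝ) → ℝ,
        (∀ i j, Hd d (Φ i j)) → ∀ x : Fin (n + 2) → ℝ, x 0 = 1 → ‖x‖ ≤ 1 → ∃ Ξ ∈ Un,
          (∀ b, AllN G (fun j ξ v => ∀ i, Top c (ex r j (D j + d)) (nP d D Φ j ξ v i)) n
            (Ξ.1 + gv G b • Ξ.2 0) (Fin.removeNth 0 Ξ.2)) ∧
          (∀ w : Fin n → Fin (n + 2) → ℝ, ‖w‖ ≤ 1 →
            Pt d (D n) Φ x w ≤ K * Pt d (D n) Φ x (Fin.removeNth 0 Ξ.2)) ∧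
          ∃ (l : ℝ) (z : E (n + 1)), x = l • frm Ξ.1 Ξ.2 z ∧ K⁻¹ ≤ |l| ∧ |l| ≤ K ∧
            ∀ j, |z j| ≤ K := by
  classical
  let X := (Fin (n + 2) → ℝ) × (Fin (n + 1) → Fin (n + 2) → ℝ)
  let dt : (Fin (n + 2) → ℝ) → (Fin (n + 1) → Fin (n + 2) → ℝ) → ℝ := fun ξ v =>
    (Matrix.of (Fin.cons ξ v : Fin (n + 2) → Fin (n + 2) → ℝ)).det
  let I := Fin 3 ⊕ Σ j : Fin n, (Fin (j + 1) → Fin (n + 1)) × Fin (j + 1)
  obtain ⟨U, hU⟩ := la_net X I (n + 2 + ∑ j ∈ range (n + 1), eP r j (D j + d))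
  choose! R₁ hR₁ using fun (Ξ : X) (h : dt Ξ.1 Ξ.2 ≠ 0) => Fr_of_det h
  set R := 1 + ∑ Ξ ∈ U, (|R₁ Ξ| + |dt Ξ.1 Ξ.2|) with hR
  have p0 : ∀ Ξ ∈ U, 0 ≤ |R₁ Ξ| + |dt Ξ.1 Ξ.2| := fun _ _ => by positivity
  have R1 : 1 ≤ R := le_add_of_nonneg_right (sum_nonneg p0)
  have R2 : ∀ Ξ ∈ U, R₁ Ξ ≤ R ∧ |dt Ξ.1 Ξ.2| ≤ R := fun Ξ h => by
    have := single_le_sum p0 h
    constructor <;> linarith [le_abs_self (R₁ Ξ), abs_nonneg (R₁ Ξ), abs_nonneg (dt Ξ.1 Ξ.2)]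
  obtain ⟨K, K0, hK⟩ := hU R
  have hF : ∀ Ξ ∈ U.filter fun Ξ => dt Ξ.1 Ξ.2 ≠ 0, Fr R Ξ.1 Ξ.2 := fun Ξ h =>
    (hR₁ Ξ (mem_filter.1 h).2).mono (R2 Ξ (mem_filter.1 h).1).1
  have q1 : 1 ≤ (K + 1) * R := one_le_mul_of_one_le_of_one_le (by linarith) R1
  have q2 : (K + 1) * R ≤ (K + 1) * R * R := le_mul_of_one_le_right (by positivity) R1
  have q3 : K + 1 ≤ (K + 1) * R := le_mul_of_one_le_right (by positivity) R1
  have q4 : R ≤ (K + 1) * R := le_mul_of_one_le_left (by positivity) (by linarith)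
  refine ⟨_, R, K⁻¹, (K + 1) * R * R, by positivity, by linarith, hF, fun Φ hΦ x x0 x1 => ?_⟩
  let f : I → X → ℝ := Sum.elim
    ![fun Ξ => dt Ξ.1 Ξ.2, fun Ξ => dt x Ξ.2, fun Ξ => Pt d (D n) Φ x (Fin.removeNth 0 Ξ.2)]
    fun p Ξ => Pt d (D p.1) Φ (Ξ.2 (p.2.1 p.2.2)) fun l => Ξ.2 (p.2.1 (p.2.2.succAbove l))
  have l2 : ∀ a b, LP 1 fun Ξ : X => Ξ.2 a b := fun a b =>
    LP.linear ⟨⟨fun Ξ : X => Ξ.2 a b, fun _ _ => rfl⟩, fun _ _ => rfl⟩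
  have l1 : ∀ b, LP 1 fun Ξ : X => Ξ.1 b := fun b =>
    LP.linear ⟨⟨fun Ξ : X => Ξ.1 b, fun _ _ => rfl⟩, fun _ _ => rfl⟩
  have le : ∀ j ≤ n, eP r j (D j + d) ≤ n + 2 + ∑ j ∈ range (n + 1), eP r j (D j + d) :=
    fun j hj => le_add_left (single_le_sum (f := fun j => eP r j (D j + d))
      (fun _ _ => Nat.zero_le _) (mem_range.2 (Nat.lt_succ_of_le hj)))
  obtain ⟨Ξ, hΞ, h⟩ := hK f (by
    rintro (i | p)
    · fin_cases i
      · exact (LP.det fun a b => Fin.cases (l1 b) (fun a => l2 a b) a).mono (by simp)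
      · exact (LP.det fun a b => Fin.cases (LP.const 1 (x b)) (fun a => l2 a b) a).mono (by simp)
      · exact ((Pt_lp hΦ).aff (T := fun Ξ : X => (x, Fin.removeNth 0 Ξ.2)) fun u w =>
          ⟨(0, Fin.removeNth 0 w.2), fun t => Prod.ext (by simp) rfl⟩).mono (le n le_rfl)
    · exact ((Pt_lp hΦ).aff (T := fun Ξ : X => (Ξ.2 (p.2.1 p.2.2),
        fun l => Ξ.2 (p.2.1 (p.2.2.succAbove l)))) fun u w => ⟨(w.2 (p.2.1 p.2.2),
          fun l => w.2 (p.2.1 (p.2.2.succAbove l))), fun t => rfl⟩).mono (le _ p.1.2.le))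
  let v₀ : Fin (n + 1) → Fin (n + 2) → ℝ := fun i => Pi.single i.succ 1
  have v1 : ‖v₀‖ ≤ 1 := (pi_norm_le_iff_of_nonneg zero_le_one).2 fun i => by
    simp [v₀, Pi.norm_single]
  have d0 : dt x v₀ = 1 := by
    simp only [dt]
    rw [det_of_isUpperTriangular, Fin.prod_univ_succ]
    · simp [v₀, x0]
    · intro a b hab
      obtain ⟨a, rfl⟩ := Fin.exists_succ_eq.2 (Fin.ne_zero_of_lt hab)
      exact Pi.single_eq_of_ne (ne_of_lt hab) _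
  have n0 : ‖((x, v₀) : X)‖ ≤ R := (max_le x1 v1).trans R1
  have h0 : |dt x v₀| ≤ K * |dt Ξ.1 Ξ.2| := h (.inl 0) (x, v₀) n0
  have h1 : |dt x v₀| ≤ K * |dt x Ξ.2| := h (.inl 1) (x, v₀) n0
  rw [d0, abs_one] at h0 h1
  have m : Ξ ∈ U.filter fun Ξ => dt Ξ.1 Ξ.2 ≠ 0 := mem_filter.2 ⟨hΞ, fun k => by
    rw [k, abs_zero, mul_zero] at h0
    linarith⟩
  have key : ∀ j ≤ n, ∀ (ξ : Fin (n + 2) → ℝ) (g : Fin j → Fin (n + 1)), Function.Injective g →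
      Fr R ξ (fun l => Ξ.2 (g l)) → AllN G (fun j ξ v => ∀ i, Top K⁻¹ (ex r j (D j + d))
        (nP d D Φ j ξ v i)) j ξ fun l => Ξ.2 (g l) := by
    intro j
    induction j with
    | zero => exact fun _ _ _ _ _ => trivial
    | succ j ih =>
      intro hj ξ g hg hf
      refine ⟨fun i => ?_, fun i b => ih (Nat.le_of_succ_le hj) _ (fun l => g (i.succAbove l))
        (hg.comp Fin.succAbove_right_injective) (hf.child i (gv_nonneg G b) (gv_le G b))⟩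
      have k1 : ∀ b : ℝ, 0 ≤ b → b ≤ 1 → |Pt d (D j) Φ (ξ + b • Ξ.2 (g i))
          fun l => Ξ.2 (g (i.succAbove l))| ≤ K * Pt d (D j) Φ (Ξ.2 (g i))
            fun l => Ξ.2 (g (i.succAbove l)) := fun b b0 b1 => by
        have k2 := h (.inr ⟨⟨j, hj⟩, g, i⟩) (0, Function.update Ξ.2 (g i) (ξ + b • Ξ.2 (g i)))
          (max_le (by rw [norm_zero]; linarith) ((pi_norm_le_iff_of_nonneg (by linarith)).2
            fun a => ?_))
        · have k3 : ∀ l, g (i.succAbove l) ≠ g i := fun l => hg.ne (i.succAbove_ne l)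
          simp only [f, Sum.elim_inr, Function.update_self, Function.update_of_ne (k3 _)] at k2
          rwa [abs_of_nonneg (Pt_nonneg Φ (Ξ.2 (g i)) _)] at k2
        · dsimp only
          by_cases k3 : a = g i
          · rw [k3, Function.update_self]
            exact le_trans (le_add_of_nonneg_right (by positivity)) (hf.child i b0 b1).1
          · rw [Function.update_of_ne k3]
            exact (single_le_sum (fun a _ => norm_nonneg (Ξ.2 a)) (mem_univ a)).trans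
              (le_trans (le_add_of_nonneg_left (norm_nonneg _)) (hF Ξ m).1)
      refine ⟨(npo_top hΦ _ _ _).1, ?_, fun b b0 b1 => ?_⟩
      · refine lt_of_lt_of_eq ?_ (npo_top hΦ _ _ _).2.symm
        exact (mul_pos_iff_of_pos_left K0).1 ((Pt_pos Φ (hf.child i le_rfl zero_le_one)).trans_le
          ((le_abs_self _).trans (k1 0 le_rfl zero_le_one)))
      · refine le_of_le_of_eq ?_ (npo_top hΦ _ _ _).2.symm
        rw [inv_mul_le_iff₀ K0, nP, npo_eval hΦ]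
        exact k1 b b0 b1
  refine ⟨Ξ, m, fun b => key n le_rfl _ _ Fin.succAbove_right_injective
    ((hF Ξ m).child 0 (gv_nonneg G b) (gv_le G b)), fun w hw => ?_, ?_⟩
  · have k2 : |Pt d (D n) Φ x (Fin.removeNth 0 (Fin.cons 0 w : Fin (n + 1) → Fin (n + 2) → ℝ))| ≤
        K * |Pt d (D n) Φ x (Fin.removeNth 0 Ξ.2)| := h (.inl 2) (0, Fin.cons 0 w)
      (max_le (by rw [norm_zero]; linarith) ((pi_norm_le_iff_of_nonneg (by linarith)).2
        (Fin.cases (by simpa using zero_le_one.trans R1) fun a =>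
          ((norm_le_pi_norm w a).trans hw).trans R1)))
    rw [abs_of_nonneg (Pt_nonneg _ _ _), abs_of_nonneg (Pt_nonneg _ _ _)] at k2
    exact k2.trans (mul_le_mul_of_nonneg_right (by linarith) (Pt_nonneg _ _ _))
  · obtain ⟨l, ζ, c1, c2, c3, c4⟩ := (hF Ξ m).coord x x1
    have k1 : 1 ≤ (K + 1) * R * |l| := by
      have k0 : dt x Ξ.2 = l * dt Ξ.1 Ξ.2 := c4
      rw [k0, abs_mul] at h1
      calc 1 ≤ K * (|l| * |dt Ξ.1 Ξ.2|) := h1
        _ ≤ (K + 1) * (|l| * R) := by have := (R2 Ξ hΞ).2; gcongr; linarith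
        _ = _ := by ring
    have l0 : 0 < |l| := (mul_pos_iff_of_pos_left (by positivity)).1 (one_pos.trans_le k1)
    refine ⟨l, l⁻¹ • ζ, ?_, ?_, by linarith, fun j => ?_⟩
    · rw [frm, smul_add, smul_sum, c1]
      simp only [PiLp.smul_apply, smul_eq_mul, smul_smul, mul_inv_cancel_left₀ (abs_pos.1 l0)]
    · rw [inv_le_iff_one_le_mul₀' (by positivity)]
      exact k1.trans (by gcongr)
    · rw [PiLp.smul_apply, smul_eq_mul, abs_mul, abs_inv]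
      exact mul_le_mul ((inv_le_iff_one_le_mul₀ l0).2 k1) (c3 j) (abs_nonneg _) (by positivity)

end Pool.Agent.CA9.UB
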