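import Pool.Agent.Lib.MP_ca9be0_an.UB.S5

/-! Saturation at a root frame. -/

namespace Pool.Agent.CA9.UB

open Finset Matrix Pool.Agent.Lib.MP_ca9be0_an.PyF

variable {σ ι r r' : Type} [Fintype σ] [Fintype r] [Fintype r'] [DecidableEq r]

theorem s8_hd {d D : ℕ} {Φ : r' → (σ → ℝ) → ℝ} {w : r' → (σ → ℝ) → ℝ} {e : (σ → ℝ) → ℝ}
    (hΦ : ∀ j, Hd d (Φ j)) (hw : ∀ j, Hd D (w j)) (he : Hd (D + d) e) :
    Hd (D + d) fun x => ∑ j, Φ j x * w j x + e x :=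
  ((HK.sum univ fun j _ => ((hΦ j).hk.mul (hw j).hk).cast (add_comm _ _)).add
    (he.hk (ι := Unit))).hd ()

open Classical in
theorem sat_root (o : σ) (d a D₀ G n : ℕ) {c η R K : ℝ} (hc : 0 < c) (hη : 0 < η)
    (hσ : Fintype.card σ = n + 1 + 1) {Φ : ι → r → r' → (σ → ℝ) → ℝ} {ψ : ι → r → (σ → ℝ) → ℝ}
    {ξ : ι → σ → ℝ} {v : ι → Fin (n + 1) → σ → ℝ} {tt : ι → σ → ℝ} {zs : ι → Fin a → Option ℂ}
    {Z : ι → Finset ℂ} {Λ : ι → (σ → ℝ) → ℝ} {m : ι → ℕ} {τ : ι → ℝ}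
    (hΦ : ∀ t i j, Hd d (Φ t i j)) (hm : ∀ t, m t ≤ D₀ + d) (hψ : ∀ t i, Hd (m t) (ψ t i))
    (hF : ∀ t, Fr R (ξ t) (v t)) (ht : ∀ t s, |tt t s| ≤ R)
    (hz : ∀ t j z, zs t j = some z → z ∈ Z t ∧ ‖z‖ ≤ R)
    (hΛ : ∀ t x, (Λ t x : ℂ) = ∏ j, (zs t j).elim 1 fun z => lf o (tt t) z fun s => x s)
    (hM : Mem d D₀ Φ (fun _ => Set.univ) fun t i x => Λ t x * ψ t i x)
    (hG : ∀ t, eO r n (DD r d a D₀ n + d) < (univ.filter fun b : Fin (G + 1) =>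
      Good (nP d (DD r d a D₀) (Φ t)) (lf o (tt t)) (Z t) η c G
        (fun j => ex r j (DD r d a D₀ j + d)) (fun j => eO r j (DD r d a D₀ j + d)) n
        (ξ t + gv G b • v t 0) (Fin.removeNth 0 (v t))).card) (hτ : ∀ t, 0 < τ t)
    (hK : ∀ t (b : ℝ), 0 ≤ b → b ≤ 1 →
      Pt d (DD r d a D₀ n) (Φ t) (ξ t + b • v t 0) (Fin.removeNth 0 (v t)) ≤ K * τ t) :
    ∃ (μ l₀ : ι → (σ → ℝ) → ℝ) (j : ι → ℕ), HK (eP r n (DD r d a D₀ n + d)) μ ∧ HK 1 l₀ ∧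
      (∀ t, j t ≤ DD r d a D₀ n + eO r n (DD r d a D₀ n + d) + d) ∧
      (∀ t z, l₀ t (frm (ξ t) (v t) z) = 1 ∧ μ t (frm (ξ t) (v t) z) =
        Pt d (DD r d a D₀ n) (Φ t) (ξ t + z 0 • v t 0) (Fin.removeNth 0 (v t)) / τ t) ∧
      Mem d (DD r d a D₀ n + eO r n (DD r d a D₀ n + d)) Φ (fun _ => Set.univ)
        fun t i x => μ t x * l₀ t x ^ j t * ψ t i x := by
  obtain ⟨l₀, l, h₀, h₁, e₀, e₁⟩ := Fr.dual hF
  have hD := DD_le r d a D₀ n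
  have hs := @sat_k σ r r' _ _ _ _ o d a D₀ G c η hc hη n
  set D := DD r d a D₀ n with hDe
  obtain ⟨Kc, K1, hKc⟩ := coeff_bd (eP r n (D + d))
  have hd : ∀ t, (Polynomial.C (τ t)⁻¹ * npo d D (Φ t) (ξ t) (v t 0)
      (Fin.removeNth 0 (v t))).natDegree ≤ eP r n (D + d) := fun t =>
    (Polynomial.natDegree_C_mul_le _ _).trans (npo_deg _ _ _ _)
  obtain ⟨μ, hμ, hμ'⟩ := HK.hev hd (C := Kc * |K|) (fun t m => by
    rcases le_or_gt m (eP r n (D + d)) with h | h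
    · refine (single_le_sum (f := fun m => |Polynomial.coeff _ m|) (fun _ _ => abs_nonneg _)
        (mem_range.2 (Nat.lt_succ_of_le h))).trans (hKc _ (hd t) _ fun b h0 h1 => ?_)
      have h3 := hτ t
      rw [Polynomial.eval_mul, Polynomial.eval_C, npo_eval (hΦ t), abs_mul,
        abs_of_pos (inv_pos.2 h3), abs_of_nonneg (Pt_nonneg _ _ _), inv_mul_le_iff₀ h3, mul_comm]
      exact (hK t b h0 h1).trans (mul_le_mul_of_nonneg_right (le_abs_self K) h3.le)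
    · rw [Polynomial.coeff_eq_zero_of_natDegree_lt ((hd t).trans_lt h), abs_zero]
      positivity) (h₁ 0) h₀
  have hv : ∀ t z, μ t (frm (ξ t) (v t) z) =
      Pt d D (Φ t) (ξ t + z 0 • v t 0) (Fin.removeNth 0 (v t)) / τ t := fun t z => by
    rw [hμ' t _ (e₀ t z), e₁, Polynomial.eval_mul, Polynomial.eval_C, npo_eval (hΦ t),
      div_eq_inv_mul]
  have he : eP r n (D + d) ≤ eO r n (D + d) := Nat.le_add_right _ _
  refine ⟨μ, l₀, fun t => D + eO r n (D + d) + d - eP r n (D + d) - m t, hμ, h₀,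
    fun t => (Nat.sub_le _ _).trans (Nat.sub_le _ _), fun t z => ⟨e₀ t z, hv t z⟩, ?_⟩
  obtain ⟨w, e, hw, he', h⟩ := pencil (K := K) (G := G) (f := fun t i x => μ t x *
      l₀ t x ^ (D + eO r n (D + d) + d - eP r n (D + d) - m t) * ψ t i x) 0 hΦ
    (fun t i => ⟨m t, (hm t).trans (by omega), hψ t i⟩) hF _ hG hτ
    (fun t b _ => hK t _ (gv_nonneg G b) (gv_le G b))
    (hs _ _ _ _ (fun p => tt p.1.1) (fun p => zs p.1.1) (fun p => Z p.1.1)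
      (fun p => Λ p.1.1) R (fun p => hΦ _) (fun p i => ⟨_, hm _, hψ _ i⟩)
      (fun p => (hF _).child 0 (gv_nonneg G _) (gv_le G _)) (fun p => ht _) (fun p => hz _)
      (fun p => hΛ _) (hM.comp fun p : {p : ι × Fin (G + 1) // _} => p.1.1)
      fun p => (mem_filter.1 p.2).2)
    fun t z j => by rw [hv, e₀, one_pow, mul_one]
  refine ⟨w, e, hw, he', fun t x _ i => ?_⟩
  obtain ⟨l, ζ, rfl⟩ := (hF t).span hσ x
  have h1 := ((hμ.hd t).mul ((h₀.pow (D + eO r n (D + d) + d - eP r n (D + d) - m t)).hd t)).mul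
    (hψ t i)
  have h2 := hm t
  rw [show eP r n (D + d) + (D + eO r n (D + d) + d - eP r n (D + d) - m t) * 1 + m t =
    D + eO r n (D + d) + d by omega] at h1
  exact h1.ext_frm (s8_hd (hΦ t i) (fun j => (hw j).hd t) ((he' i).hd t)) (ξ t) (v t)
    (fun z => h t _ ⟨z, rfl⟩ i) l ζ

end Pool.Agent.CA9.UB
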