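import Pool.Agent.Lib.MP_ca9be0_an.UB.S8
import Pool.Agent.Lib.MP_ca9be0_an.UB.S7
import Pool.Agent.Lib.MP_ca9be0_an.UB.Gf1

/-! Saturation in affine coordinates. -/

namespace Pool.Agent.CA9.UB

open Finset Matrix Pool.Agent.Lib.MP_ca9be0_an.PyF

variable {σ ι r r' : Type} [Fintype σ] [Fintype r] [Fintype r'] [DecidableEq r] {N : ℕ}

theorem s8_pow {p : E N → ℝ} {a : ℕ} (hp : p ∈ Pd N a) (j : ℕ) :
    (fun y => p y ^ j) ∈ Pd N (j * a) := by
  simpa using Pd_prod (range j) (p := fun _ => p) fun _ _ => hp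

theorem s8_lin (t : Fin N → ℝ) : (fun y : E N => ∑ l, t l * y l) ∈ Pd N 1 :=
  Pd_sum _ fun l _ => Pd_smul _ (gen_mem (some l))

theorem s8_poly (q : Polynomial ℝ) (t : Fin N → ℝ) :
    (fun y : E N => q.eval (∑ l, t l * y l)) ∈ Pd N q.natDegree := by
  simp only [Polynomial.eval_eq_sum_range]
  exact Pd_sum _ fun i hi => Pd_smul _ (Pd_mono (by simpa [Nat.lt_succ_iff] using hi)
    (s8_pow (s8_lin t) i))

theorem s8_lin_bd {t : Fin N → ℝ} (ht : ∀ l, |t l| ≤ 1) {y : E N} (hy : ‖y‖ ≤ 1) :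
    |∑ l, t l * y l| ≤ N := by
  refine (abs_sum_le_sum_abs _ _).trans ((sum_le_card_nsmul _ _ 1 fun l _ => ?_).trans (by simp))
  rw [abs_mul]
  exact mul_le_one₀ (ht l) (abs_nonneg _) ((PiLp.norm_apply_le y l).trans hy)

theorem s8_lf (o : σ) (t : σ → ℝ) (z : ℂ) : HK 1 fun (_ : Unit) x => lf o t z fun s => x s :=
  ((HK.lin (l := fun _ s => (t s : ℂ)) (C := ‖t‖) fun _ s => by
    simpa using norm_le_pi_norm t s).sub (HK.smul (c := fun _ => z) (fun _ => le_rfl)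
      (HK.mo fun _ : Fin 1 => o))).congr fun _ x => by simp [lf, mo]

theorem s8_lf_hv (t : Fin N → ℝ) (z : ℂ) (y : E N) :
    (lf 0 (Fin.cons 0 t) z fun s => hv 1 y s) = ((∑ l, t l * y l : ℝ) : ℂ) - z := by
  simp [lf, hv, Fin.sum_univ_succ]

/-- the product of the near factors is a real form -/
theorem s8_near {a : ℕ} (zs : Fin a → Option ℂ) (t : Fin N → ℝ) {q : Polynomial ℝ}
    (h : ∀ τ : ℝ, ((q.eval τ : ℝ) : ℂ) = ∏ j, (zs j).elim 1 fun z => (τ : ℂ) - z) :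
    ∃ Λ : (Fin (N + 1) → ℝ) → ℝ, Hd (univ.filter fun j => (zs j).isSome).card Λ ∧
      (∀ x, (Λ x : ℂ) = ∏ j, (zs j).elim 1 fun z => lf 0 (Fin.cons 0 t) z fun s => x s) ∧
      ∀ y : E N, Λ (hv 1 y) = q.eval (∑ l, t l * y l) := by
  have h1 : HK (univ.filter fun j => (zs j).isSome).card fun (_ : Unit) (x : Fin (N + 1) → ℝ) =>
      ∏ j, (zs j).elim 1 fun z => lf 0 (Fin.cons 0 t) z fun s => x s := by
    refine (HK.prod univ (e := fun j => if (zs j).isSome then 1 else 0) fun j _ => ?_).cast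
      (card_filter _ _).symm
    cases zs j with
    | none => exact HK.const (c := fun _ => 1) fun _ => le_rfl
    | some z => exact s8_lf _ _ _
  have h2 : ∀ y : E N, (∏ j, (zs j).elim 1 fun z => lf 0 (Fin.cons 0 t) z fun s => hv 1 y s) =
      ((q.eval (∑ l, t l * y l) : ℝ) : ℂ) := fun y => by simp only [s8_lf_hv, h]
  refine ⟨_, h1.re.hd (), fun x => Complex.ext (by simp) ?_, fun y => by
    simp only [h2, Complex.ofReal_re]⟩
  rw [Complex.ofReal_im]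
  exact ((HK.zero (ι := Unit) _).hd ()).ext_hv (h1.im.hd ())
    (fun y => by simp only [h2, Complex.ofReal_im]) x

theorem s8_norms {R : ℝ} {k : ℕ} {ξ : σ → ℝ} {v : Fin k → σ → ℝ} (h : Fr R ξ v) :
    ‖ξ‖ ≤ R ∧ ‖v‖ ≤ R := by
  have h1 := h.1
  have h2 : 0 ≤ ∑ i, ‖v i‖ := by positivity
  have h3 := norm_nonneg ξ
  refine ⟨by linarith, (pi_norm_le_iff_of_nonneg (by linarith)).2 fun i => ?_⟩
  have := single_le_sum (f := fun i => ‖v i‖) (fun _ _ => norm_nonneg _) (mem_univ i)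
  linarith

open Classical in
theorem sat_aff (n d M a G : ℕ) (φ : r → r' → Fin M → ℝ) {c η R K ε C : ℝ} (hc : 0 < c)
    (hη : 0 < η) (hK : 1 ≤ K) (hε : 0 < ε) {T : ι → Fin M → E (n + 1) → ℝ} {q : ι → E (n + 1)}
    {t : ι → Fin (n + 1) → ℝ} {Δ : ι → Polynomial ℝ} {ψ e₀ : ι → r → E (n + 1) → ℝ}
    {w : ι → r' → E (n + 1) → ℝ} {ξ : ι → Fin (n + 2) → ℝ}
    {v : ι → Fin (n + 1) → Fin (n + 2) → ℝ} (hT : ∀ i, PV d (T i)) (ht : ∀ i l, |t i l| ≤ 1)
    (hq : ∀ i, ‖q i‖ ≤ 1) (hR : ∀ i, Fr R (ξ i) (v i))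
    (hm : ∀ i, ε * gb (mG φ d (DD r d a (a + a) n) n) (T i) ≤
      K * Pt d (DD r d a (a + a) n) (hF φ d (T i)) (hv 1 (q i)) (Fin.removeNth 0 (v i)))
    (hl : ∀ i, ∃ (l : ℝ) (z : E (n + 1)), hv 1 (q i) = l • frm (ξ i) (v i) z ∧ K⁻¹ ≤ |l| ∧
      |l| ≤ K ∧ ∀ j, |z j| ≤ K)
    (hG : ∀ i (Z : Finset ℂ), Z.card ≤ a → (∀ z ∈ Z, ‖z‖ ≤ 2 * (n + 1)) →
      eO r n (DD r d a (a + a) n + d) < (univ.filter fun b : Fin (G + 1) =>
      Good (nP d (DD r d a (a + a)) (hF φ d (T i))) (lf 0 (Fin.cons 0 (t i))) Z η c G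
        (fun j => ex r j (DD r d a (a + a) j + d)) (fun j => eO r j (DD r d a (a + a) j + d)) n
        (ξ i + gv G b • v i 0) (Fin.removeNth 0 (v i))).card)
    (hΔ : ∀ i, (Δ i).natDegree ≤ a) (hΔ1 : ∀ i τ, |τ| ≤ 1 → |(Δ i).eval τ| ≤ C)
    (hΔ2 : ∀ i, ∃ τ, |τ| ≤ 1 ∧ ε ≤ |(Δ i).eval τ|) (hψ : ∀ i, PV a (ψ i)) (hw : ∀ i, PV a (w i))
    (he : ∀ i, PV a (e₀ i)) (hw' : ∀ i j, PB (w i j) 0 1 C) (he' : ∀ i j, PB (e₀ i j) 0 1 C)
    (h : ∀ i y j, (Δ i).eval (∑ l, t i l * y l) * ψ i j y =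
      ∑ j', (∑ m, φ j j' m * T i m y) * w i j' y + e₀ i j y) (Do : ℕ)
    (hDo : eP r n (DD r d a (a + a) n + d) + (DD r d a (a + a) n +
      eO r n (DD r d a (a + a) n + d) + d) + a ≤ Do) :
    ∃ C' c' : ℝ, 0 < c' ∧ ∀ i, ∃ (μ : E (n + 1) → ℝ) (e' : r → E (n + 1) → ℝ)
      (w' : r' → E (n + 1) → ℝ), μ ∈ Pd (n + 1) Do ∧ PV Do w' ∧ PV Do e' ∧ PB μ 0 1 C' ∧
        (∀ j, PB (w' j) 0 1 C') ∧ (∀ j, PB (e' j) 0 1 C') ∧ c' ≤ |μ (q i)| ∧
        ∀ y j, μ y * ψ i j y = ∑ j', (∑ m, φ j j' m * T i m y) * w' j' y + e' j y := by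
  have hn : (1 : ℝ) ≤ n + 1 := by simp
  obtain ⟨K₁, c₁, hc₁, hs⟩ := split_roots a C hn hε
  choose Δn Δf zs s1 s2 s3 s4 s5 s6 using fun i => hs (Δ i) (hΔ i) (hΔ1 i) (hΔ2 i)
  choose Λ l1 l2 l3 using fun i => s8_near (zs i) (t i) (s3 i)
  have hp : ∀ i j, (fun y : E (n + 1) => (Δf i).eval (∑ l, t i l * y l) * ψ i j y) ∈
      Pd (n + 1) (a + a + d - (univ.filter fun j => (zs i j).isSome).card) := fun i j =>
    Pd_mono (by have := s4 i; omega) (Pd_mul (s8_poly (Δf i) (t i)) (hψ i j))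
  choose ψ' p1 p2 using fun i j => lift_hd (hp i j)
  choose W w1 w2 using fun j => lift_hv (D := a + a) (p := fun i => w i j)
    (fun i => Pd_mono (by omega) (hw i j)) fun i => hw' i j
  choose F f1 f2 using fun j => lift_hv (D := a + a + d) (p := fun i => e₀ i j)
    (fun i => Pd_mono (by omega) (he i j)) fun i => he' i j
  have hΦ : ∀ i j j', Hd d (hF φ d (T i) j j') := fun i => hF_hd φ d (T i)
  have hM : Mem d (a + a) (fun i => hF φ d (T i)) (fun _ => Set.univ)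
      fun i j x => Λ i x * ψ' i j x := ⟨W, F, w1, f1, fun i x _ j => by
    have h1 := (l1 i).mul (p1 i j)
    rw [Nat.add_sub_cancel' (by have := s4 i; omega)] at h1
    refine h1.ext_hv (s8_hd (hΦ i j) (fun j => (w1 j).hd i) ((f1 j).hd i)) (fun y => ?_) x
    simp only [l3, p2, w2, f2, hF_hv φ (hT i)]
    rw [← h, s1, Polynomial.eval_mul, mul_assoc]⟩
  obtain ⟨K₂, hK₂, hg⟩ := Pt_le_gb (N := n + 1) φ d (DD r d a (a + a) n) (Nat.le_succ n) R
  have hg' : ∀ i (b : ℝ), 0 ≤ b → b ≤ 1 → Pt d (DD r d a (a + a) n) (hF φ d (T i))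
      (ξ i + b • v i 0) (Fin.removeNth 0 (v i)) ≤ K₂ * gb (mG φ d (DD r d a (a + a) n) n) (T i) :=
    fun i b h0 h1 => hg _ (hT i) _ _ (s8_norms ((hR i).child 0 h0 h1)).1
      (s8_norms ((hR i).child 0 h0 h1)).2
  have hτ : ∀ i, 0 < gb (mG φ d (DD r d a (a + a) n) n) (T i) := fun i =>
    (mul_pos_iff_of_pos_left hK₂).1 ((Pt_pos _ ((hR i).child 0 le_rfl zero_le_one)).trans_le
      (hg' i 0 le_rfl zero_le_one))
  have hZ : ∀ i j z, zs i j = some z → z ∈ univ.biUnion fun j => (zs i j).toFinset :=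
    fun i j z h => mem_biUnion.2 ⟨j, mem_univ _, by simp [h]⟩
  obtain ⟨μ, l₀, j, m1, m2, m3, m4, w', e', m5, m6, m7⟩ := sat_root (0 : Fin (n + 2)) d a (a + a)
    G n (R := max R (2 * (n + 1))) hc hη (Fintype.card_fin _) (tt := fun i => Fin.cons 0 (t i))
    (Z := fun i => univ.biUnion fun j => (zs i j).toFinset) hΦ (fun _ => Nat.sub_le _ _) p1
    (fun i => (hR i).mono (le_max_left _ _))
    (fun i s => le_max_of_le_right (by
      refine Fin.cases (by simp; positivity) (fun l => ?_) s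
      have := ht i l
      simp only [Fin.cons_succ]
      linarith))
    (fun i j z h => ⟨hZ i j z h, le_max_of_le_right (s2 i j z h)⟩) l2 hM
    (fun i => hG i _ (card_biUnion_le.trans ((sum_le_card_nsmul _ _ 1 fun j _ => by
      cases zs i j <;> simp).trans (by simp))) fun z hz => by
        obtain ⟨j, -, hj⟩ := mem_biUnion.1 hz
        exact s2 i j z (by simpa using hj)) hτ hg'
  set D := DD r d a (a + a) n
  set D₁ := D + eO r n (D + d)
  obtain ⟨C₁, b1⟩ := m1.hv_bdd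
  obtain ⟨C₂, b2⟩ := m2.hv_bdd
  choose C₃ b3 using fun j => (m5 j).hv_bdd
  choose C₄ b4 using fun j => (m6 j).hv_bdd
  obtain ⟨K₃, hK₃, hf⟩ := Pt_frame (Fin (n + 2)) r r' n d D (K * K)
  have K0 : 0 < K := by linarith
  have n3 : 0 ≤ ∑ j, |C₃ j| := by positivity
  have n4 : 0 ≤ ∑ j, |C₄ j| := by positivity
  have n5 : 0 ≤ |C₁| * max 1 C₂ ^ (D₁ + d) * ((a + 1) * |K₁| * (n + 1) ^ a) := by positivity
  refine ⟨|C₁| * max 1 C₂ ^ (D₁ + d) * ((a + 1) * |K₁| * (n + 1) ^ a) + ∑ j, |C₃ j| + ∑ j, |C₄ j|,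
    K⁻¹ ^ eP r n (D + d) * (ε / (K * K₃)) * K⁻¹ ^ (D₁ + d) * c₁, by positivity, fun i =>
    ⟨fun y => μ i (hv 1 y) * l₀ i (hv 1 y) ^ j i * (Δf i).eval (∑ l, t i l * y l),
      fun j y => e' j i (hv 1 y), fun j y => w' j i (hv 1 y), ?_,
      fun j => ((m5 j).hd i).hv_mem (by omega), fun j => ((m6 j).hd i).hv_mem (by omega),
      fun y hy => ?_, fun j y hy => ?_, fun j y hy => ?_, ?_, fun y k => ?_⟩⟩
  · refine Pd_mono ?_ (Pd_mul (Pd_mul ((m1.hd i).hv_mem le_rfl)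
      (((m2.pow (j i)).hd i).hv_mem le_rfl)) (s8_poly _ _))
    have := m3 i
    have := s4 i
    omega
  · have h1 := (b1 i y hy).trans (le_abs_self _)
    have h2 : |l₀ i (hv 1 y)| ^ j i ≤ max 1 C₂ ^ (D₁ + d) :=
      (pow_le_pow_left₀ (abs_nonneg _) ((b2 i y hy).trans (le_max_right 1 C₂)) _).trans
        (pow_le_pow_right₀ (le_max_left _ _) (m3 i))
    have h3 := eval_bd (q := Δf i) (e := a) (by have := s4 i; omega) hn
      (by simpa using s8_lin_bd (ht i) (y := y) (by simpa using hy))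
    have h4 : ∑ m ∈ range (a + 1), |(Δf i).coeff m| ≤ (a + 1) * |K₁| :=
      (sum_le_card_nsmul _ _ |K₁| fun m _ => (s5 i m).trans (le_abs_self _)).trans (by simp)
    have h5 := h3.trans (mul_le_mul_of_nonneg_right h4 (by positivity))
    simp only [abs_mul, abs_pow]
    refine le_trans ?_ ((le_add_of_nonneg_right n3).trans (le_add_of_nonneg_right n4))
    gcongr
  · have := single_le_sum (f := fun j => |C₃ j|) (fun _ _ => abs_nonneg _) (mem_univ j)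
    linarith [b3 j i y hy, le_abs_self (C₃ j)]
  · have := single_le_sum (f := fun j => |C₄ j|) (fun _ _ => abs_nonneg _) (mem_univ j)
    linarith [b4 j i y hy, le_abs_self (C₄ j)]
  · obtain ⟨l, z, z1, z2, z3, z4⟩ := hl i
    have KK : K ≤ K * K := le_mul_of_one_le_left K0.le hK
    have h1 := hf _ (hΦ i) (ξ i + z 0 • v i 0) (Fin.removeNth 0 (v i)) l (fun _ => 0)
      (fun j => l * z j.succ) (fun a b => if a = b then 1 else 0) (z3.trans KK)
      (fun _ => by simp; positivity)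
      (fun j => by rw [abs_mul]; exact mul_le_mul z3 (z4 _) (abs_nonneg _) K0.le)
      fun a b => by split_ifs <;> simp <;> nlinarith
    have h2 : l • (ξ i + z 0 • v i 0) + ∑ j, (l * z j.succ) • Fin.removeNth 0 (v i) j =
        hv 1 (q i) := by
      simp [z1, frm, Fin.sum_univ_succ, smul_add, smul_sum, smul_smul, add_assoc, Fin.removeNth]
    simp only [h2, zero_smul, zero_add, ite_smul, one_smul, sum_ite_eq, mem_univ, if_true] at h1
    have h3 : ε / (K * K₃) ≤ Pt d D (hF φ d (T i)) (ξ i + z 0 • v i 0) (Fin.removeNth 0 (v i)) /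
        gb (mG φ d D n) (T i) := by
      rw [div_le_div_iff₀ (by positivity) (hτ i)]
      nlinarith [hm i, mul_le_mul_of_nonneg_left h1 K0.le]
    have h4 := s6 i _ (by simpa using s8_lin_bd (ht i) (hq i))
    have h5 : K⁻¹ ^ (D₁ + d) ≤ |l| ^ j i :=
      (pow_le_pow_of_le_one (by positivity) (inv_le_one_of_one_le₀ hK) (m3 i)).trans
        (pow_le_pow_left₀ (by positivity) z2 _)
    simp only [z1, (m1.hd i).hom, (m2.hd i).hom, (m4 i z).1, (m4 i z).2, pow_one, mul_one, abs_mul,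
      abs_pow]
    have h6 := h3.trans (le_abs_self _)
    gcongr
  · have h1 := m7 i (hv 1 y) trivial k
    simp only [p2, hF_hv φ (hT i)] at h1
    rw [← h1]
    ring

end Pool.Agent.CA9.UB
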