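import Mathlib

/-! Trees, part one: families of balls whose centres see boundedly many distance classes are
close to boundedly many points. -/

set_option autoImplicit false

open Metric

namespace Pool.Agent.CA9.UB

variable {E : Type} [NormedAddCommGroup E] [NormedSpace ℝ E] [FiniteDimensional ℝ E]

theorem tr_cover {δ : ℝ} (hδ : 0 < δ) : ∃ N : ℕ, ∀ (a : E) (D : ℝ), 0 < D →
    ∃ T : Finset E, T.card ≤ N ∧ ∀ x, dist x a ≤ D → ∃ t ∈ T, dist x t < δ * D := by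
  classical
  have := FiniteDimensional.proper_real E
  obtain ⟨t, -, h1, h2⟩ := finite_cover_balls_of_compact (isCompact_closedBall (0 : E) 1) hδ
  refine ⟨h1.toFinset.card, fun a D hD => ⟨h1.toFinset.image fun u => a + D • u,
    Finset.card_image_le, fun x hx => ?_⟩⟩
  have h3 : D⁻¹ • (x - a) ∈ closedBall (0 : E) 1 := by
    rw [mem_closedBall_zero_iff, norm_smul, norm_inv, Real.norm_of_nonneg hD.le, ← dist_eq_norm,
      inv_mul_le_iff₀ hD, mul_one]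
    exact hx
  obtain ⟨u, hu, h4⟩ := Set.mem_iUnion₂.1 (h2 h3)
  refine ⟨_, Finset.mem_image_of_mem _ (h1.mem_toFinset.2 hu), ?_⟩
  have e : x - (a + D • u) = D • (D⁻¹ • (x - a) - u) := by
    rw [smul_sub, smul_smul, mul_inv_cancel₀ hD.ne', one_smul, sub_sub]
  rw [mem_ball, dist_eq_norm] at h4
  rw [dist_eq_norm, e, norm_smul, Real.norm_of_nonneg hD.le, mul_comm]
  exact mul_lt_mul_of_pos_right h4 hD

omit [NormedSpace ℝ E] [FiniteDimensional ℝ E] in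
theorem tr_leaf0 {F : Set E} (hF : IsCompact F) (h0 : F.Nonempty) {N : Set (E × ℝ)}
    (h1 : ∀ i ∈ N, i.1 ∈ F)
    (h2 : ∀ i ∈ N, ∀ j ∈ N, dist i.1 j.1 ≤ 16 * i.2 ∨ dist i.1 j.1 ≤ 16 * j.2) :
    ∃ p ∈ F, ∀ i ∈ N, dist i.1 p ≤ 16 * i.2 := by
  obtain ⟨p, hp, h⟩ := hF.inter_iInter_nonempty (fun i : N => closedBall i.1.1 (16 * i.1.2))
    (fun _ => isClosed_closedBall) fun u => by
      rcases u.eq_empty_or_nonempty with rfl | hu
      · simpa using h0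
      · obtain ⟨j, hj, hm⟩ := u.exists_min_image (fun i => i.1.2) hu
        refine ⟨j.1.1, h1 _ j.2, Set.mem_iInter₂.2 fun i hi => ?_⟩
        have := hm i hi
        rcases h2 _ j.2 _ i.2 with h | h
        · exact mem_closedBall.2 (by linarith)
        · exact mem_closedBall.2 h
  exact ⟨p, hp, fun i hi => mem_closedBall'.1 (Set.mem_iInter.1 h ⟨i, hi⟩)⟩

theorem tr_leaf {L : ℝ} (hL : 1 ≤ L) (m : ℕ) : ∃ Q : ℕ, ∀ F : Set E, IsCompact F → F.Nonempty →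
    ∀ (N : Set (E × ℝ)) (Cr : E × ℝ → Finset ℝ),
      (∀ i ∈ N, i.1 ∈ F ∧ 0 < i.2 ∧ (Cr i).card ≤ m) →
      (∀ i ∈ N, ∀ j ∈ N, 8 * i.2 < dist i.1 j.1 → 8 * j.2 < dist i.1 j.1 →
        ∃ c ∈ Cr i, c ≤ dist i.1 j.1 ∧ dist i.1 j.1 ≤ L * c) →
      ∃ P : Finset E, P.card ≤ Q ∧ (∀ p ∈ P, p ∈ F) ∧ P.Nonempty ∧
        ∀ i ∈ N, ∃ p ∈ P, dist i.1 p ≤ 32 * i.2 := by
  classical
  have base : ∀ F : Set E, IsCompact F → F.Nonempty → ∀ N : Set (E × ℝ),
      (∀ i ∈ N, i.1 ∈ F ∧ 0 < i.2) →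
      (∀ i ∈ N, ∀ j ∈ N, dist i.1 j.1 ≤ 16 * i.2 ∨ dist i.1 j.1 ≤ 16 * j.2) →
      ∃ P : Finset E, P.card ≤ 1 ∧ (∀ p ∈ P, p ∈ F) ∧ P.Nonempty ∧
        ∀ i ∈ N, ∃ p ∈ P, dist i.1 p ≤ 32 * i.2 := fun F hF h0 N h1 h2 => by
    obtain ⟨p, hp, h⟩ := tr_leaf0 hF h0 (fun i hi => (h1 i hi).1) h2
    refine ⟨{p}, by simp, by simpa using hp, by simp, fun i hi => ⟨p, by simp, ?_⟩⟩
    linarith [h i hi, (h1 i hi).2]
  induction m with
  | zero =>
    refine ⟨1, fun F hF h0 N Cr h1 h2 => base F hF h0 N (fun i hi => ⟨(h1 i hi).1, (h1 i hi).2.1⟩)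
      fun i hi j hj => ?_⟩
    by_contra! h
    obtain ⟨c, hc, -⟩ := h2 i hi j hj (by linarith [h.1, (h1 i hi).2.1])
      (by linarith [h.2, (h1 j hj).2.1])
    have := (h1 i hi).2.2
    rw [Nat.le_zero, Finset.card_eq_zero] at this
    simp [this] at hc
  | succ m ih =>
    obtain ⟨Q, ih⟩ := ih
    have L0 : 0 < L := by linarith
    obtain ⟨M, hM⟩ := tr_cover (E := E) (δ := 1 / (8 * L)) (by positivity)
    refine ⟨M * Q + 1, fun F hF h0 N Cr h1 h2 => ?_⟩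
    by_cases hb : ∀ i ∈ N, ∀ j ∈ N, dist i.1 j.1 ≤ 16 * i.2 ∨ dist i.1 j.1 ≤ 16 * j.2
    · obtain ⟨P, p1, p2⟩ := base F hF h0 N (fun i hi => ⟨(h1 i hi).1, (h1 i hi).2.1⟩) hb
      exact ⟨P, by omega, p2⟩
    let S : Set ℝ := {d | ∃ i ∈ N, ∃ j ∈ N, d = dist i.1 j.1 ∧ 16 * i.2 < d ∧ 16 * j.2 < d}
    have hS : BddAbove S := ⟨diam F, by
      rintro _ ⟨i, hi, j, hj, rfl, -⟩
      exact dist_le_diam_of_mem hF.isBounded (h1 i hi).1 (h1 j hj).1⟩
    push Not at hb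
    obtain ⟨i0, hi0, j0, hj0, k1, k2⟩ := hb
    have m0 : dist i0.1 j0.1 ∈ S := ⟨i0, hi0, j0, hj0, rfl, k1, k2⟩
    set D := sSup S with hD
    have hle : ∀ i ∈ N, ∀ j ∈ N,
        dist i.1 j.1 ≤ D ∨ dist i.1 j.1 ≤ 16 * i.2 ∨ dist i.1 j.1 ≤ 16 * j.2 := fun i hi j hj => by
      by_contra! h
      exact absurd (le_csSup hS ⟨i, hi, j, hj, rfl, h.2.1, h.2.2⟩) (not_le.2 h.1)
    have D0 : 0 < D := by linarith [le_csSup hS m0, (h1 i0 hi0).2.1]
    obtain ⟨_, ⟨a, ha, b, hb, rfl, a1, b1⟩, hab⟩ :=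
      exists_lt_of_lt_csSup ⟨_, m0⟩ (show D / 2 < sSup S by linarith)
    have hab' : dist a.1 b.1 ≤ D := le_csSup hS ⟨a, ha, b, hb, rfl, a1, b1⟩
    have hc : ∀ i : E × ℝ, ∃ c : ℝ, i ∈ N → i.2 ≤ D / 32 → c ∈ Cr i ∧ D / 4 < L * c := fun i => by
      by_cases hi : i ∈ N ∧ i.2 ≤ D / 32
      · have t := dist_triangle_left a.1 b.1 i.1
        have := hi.2
        rcases le_total (dist i.1 a.1) (dist i.1 b.1) with e | e
        · obtain ⟨c, c1, -, c2⟩ := h2 i hi.1 b hb (by linarith) (by linarith)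
          exact ⟨c, fun _ _ => ⟨c1, by linarith⟩⟩
        · obtain ⟨c, c1, -, c2⟩ := h2 i hi.1 a ha (by linarith) (by linarith)
          exact ⟨c, fun _ _ => ⟨c1, by linarith⟩⟩
      · exact ⟨0, fun e1 e2 => absurd ⟨e1, e2⟩ hi⟩
    choose cc hcc using hc
    obtain ⟨T, hT1, hT2⟩ := hM a.1 D D0
    have hP := fun t : E => ih F hF h0 {i ∈ N | i.2 ≤ D / 32 ∧ dist i.1 t < 1 / (8 * L) * D}
      (fun i => (Cr i).erase (cc i))
      (fun i hi => ⟨(h1 i hi.1).1, (h1 i hi.1).2.1, by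
        rw [Finset.card_erase_of_mem (hcc i hi.1 hi.2.1).1]
        have := (h1 i hi.1).2.2
        omega⟩)
      (fun i hi j hj e1 e2 => by
        obtain ⟨c, c1, c2, c3⟩ := h2 i hi.1 j hj.1 e1 e2
        refine ⟨c, Finset.mem_erase.2 ⟨?_, c1⟩, c2, c3⟩
        rintro rfl
        have t1 := dist_triangle_right i.1 j.1 t
        have t2 : L * cc i ≤ L * (2 * (1 / (8 * L) * D)) :=
          mul_le_mul_of_nonneg_left (by linarith [hi.2.2, hj.2.2]) L0.le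
        have t3 : L * (2 * (1 / (8 * L) * D)) = D / 4 := by field_simp; norm_num
        linarith [(hcc i hi.1 hi.2.1).2])
    choose P p1 p2 _ p4 using hP
    refine ⟨insert a.1 (T.biUnion P), ?_, fun p hp => ?_, Finset.insert_nonempty _ _,
      fun i hi => ?_⟩
    · exact (Finset.card_insert_le _ _).trans (Nat.succ_le_succ
        ((Finset.card_biUnion_le_card_mul _ _ _ fun t _ => p1 t).trans
          (Nat.mul_le_mul_right _ hT1)))
    · rcases Finset.mem_insert.1 hp with rfl | hp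
      · exact (h1 a ha).1
      · obtain ⟨t, -, hp⟩ := Finset.mem_biUnion.1 hp
        exact p2 t p hp
    · have t1 := hle i hi a ha
      have t2 := (h1 i hi).2.1
      by_cases hs : i.2 ≤ D / 32
      · obtain ⟨t, ht, e⟩ := hT2 i.1 (by rcases t1 with e | e | e <;> linarith)
        obtain ⟨p, q1, q2⟩ := p4 t i ⟨hi, hs, e⟩
        exact ⟨p, Finset.mem_insert_of_mem (Finset.mem_biUnion.2 ⟨t, ht, q1⟩), q2⟩
      · refine ⟨a.1, Finset.mem_insert_self _ _, ?_⟩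
        rw [not_le] at hs
        rcases t1 with e | e | e <;> linarith

end Pool.Agent.CA9.UB
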