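import Mathlib

/-! Trees of special points: packing, greedy choice, pigeonhole. -/

set_option autoImplicit false

namespace Pool.Agent.CA9.UB

open Finset

variable {X : Type} [NormedAddCommGroup X]

theorem tr_dy {a b : ℝ} (hb : 0 < b) (h : b < 2 * a) :
    ∃ j : ℕ, a / 2 ^ j ≤ b ∧ b < 2 * (a / 2 ^ j) := by
  classical
  have h1 : ∃ j : ℕ, a / 2 ^ j ≤ b := by
    obtain ⟨j, hj⟩ := pow_unbounded_of_one_lt (a / b) (one_lt_two (α := ℝ))
    refine ⟨j, ?_⟩
    rw [div_lt_iff₀ hb] at hj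
    rw [div_le_iff₀ (by positivity)]
    linarith
  refine ⟨Nat.find h1, Nat.find_spec h1, ?_⟩
  rcases e : Nat.find h1 with _ | m
  · simpa using h
  · have := Nat.find_min h1 (m := m) (by omega)
    rw [pow_succ, ← div_div]
    linarith [not_le.1 this]

theorem tr_off {B M ρ : ℝ} {q : ℕ} {Cr : Finset ℝ} (hB : 1 ≤ B) (hM : B ^ 2 < M) (hρ : 0 < ρ)
    (hq : Cr.card ≤ q) : ∃ i ≤ q, ∀ c ∈ Cr, B * c < ρ * M ^ i ∨ B * (ρ * M ^ i) < c := by
  by_contra h
  push Not at h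
  choose! c h1 h2 h3 using h
  have hM1 : 1 ≤ M := by nlinarith
  have key : ∀ i j, i ≤ q → j ≤ q → i < j → c i ≠ c j := fun i j hi hj hij e => by
    have a1 := h2 j hj
    have a2 := h3 i hi
    have a3 : M ^ (i + 1) ≤ M ^ j := pow_le_pow_right₀ hM1 hij
    have a4 : 0 < ρ * M ^ i := by positivity
    rw [← e] at a1
    have a5 : B * c i ≤ B * (B * (ρ * M ^ i)) := mul_le_mul_of_nonneg_left a2 (by linarith)
    have a6 : ρ * M ^ (i + 1) ≤ ρ * M ^ j := mul_le_mul_of_nonneg_left a3 hρ.le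
    rw [pow_succ] at a6
    nlinarith
  have := card_le_card_of_injOn (s := range (q + 1)) (t := Cr) c
    (fun i hi => h1 i (Nat.lt_succ_iff.1 (mem_range.1 hi))) fun i hi j hj e => by
      have hi' := Nat.lt_succ_iff.1 (mem_range.1 hi)
      have hj' := Nat.lt_succ_iff.1 (mem_range.1 hj)
      rcases lt_trichotomy i j with a | a | a
      · exact absurd e (key i j hi' hj' a)
      · exact a
      · exact absurd e.symm (key j i hj' hi' a)
  rw [card_range] at this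
  omega

theorem tr_greedy {ι : Type} (y : ι → X) (t : ι → ℝ) (ht : ∀ i, 0 ≤ t i) (F : Finset ι) :
    ∃ G : Finset ι, G ⊆ F ∧ (∀ i ∈ G, ∀ j ∈ G, i ≠ j → 8 * t i < ‖y i - y j‖) ∧
      ∀ i ∈ F, ∃ j ∈ G, ‖y i - y j‖ ≤ 8 * t i := by
  classical
  induction F using Finset.induction_on_max_value t with
  | empty => exact ⟨∅, Subset.rfl, by simp, by simp⟩
  | insert a s _ ha ih =>
    obtain ⟨G, h1, h2, h3⟩ := ih
    by_cases h : ∃ j ∈ G, ‖y a - y j‖ ≤ 8 * t a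
    · refine ⟨G, h1.trans (subset_insert _ _), h2, fun i hi => ?_⟩
      rcases mem_insert.1 hi with rfl | hi
      exacts [h, h3 i hi]
    · push Not at h
      refine ⟨insert a G, insert_subset_insert _ h1, fun i hi j hj hij => ?_, fun i hi => ?_⟩
      · rcases mem_insert.1 hi with rfl | hi' <;> rcases mem_insert.1 hj with rfl | hj'
        · exact absurd rfl hij
        · exact h j hj'
        · rw [norm_sub_rev]
          linarith [h i hi', ha i (h1 hi')]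
        · exact h2 i hi' j hj' hij
      · rcases mem_insert.1 hi with rfl | hi
        · exact ⟨i, mem_insert_self _ _, by rw [sub_self, norm_zero]; linarith [ht i]⟩
        · obtain ⟨j, hj, h4⟩ := h3 i hi
          exact ⟨j, mem_insert_of_mem hj, h4⟩

variable [ProperSpace X]

theorem tr_hit {ι : Type} (y : ι → X) (t : ι → ℝ) (ht : ∀ i, 0 ≤ t i) (z : X) {R : ℝ} (hR : 0 ≤ R)
    (hy : ∀ i, ‖y i - z‖ ≤ R) {Q : ℕ}
    (hQ : ∀ G : Finset ι, (∀ i ∈ G, ∀ j ∈ G, i ≠ j → 8 * t i < ‖y i - y j‖) → G.card ≤ Q) :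
    ∃ P : Finset X, P.card ≤ Q ∧ (∀ p ∈ P, ‖p - z‖ ≤ R) ∧ ∀ i, ∃ p ∈ P, ‖y i - p‖ ≤ 8 * t i := by
  classical
  have hK : IsCompact (Set.univ.pi fun _ : Fin Q => Metric.closedBall z R) :=
    isCompact_univ_pi fun _ => isCompact_closedBall z R
  obtain ⟨p, hp1, hp2⟩ := hK.inter_iInter_nonempty
    (fun i => ⋃ k : Fin Q, {p : Fin Q → X | ‖y i - p k‖ ≤ 8 * t i})
    (fun i => isClosed_iUnion_of_finite fun k => isClosed_le (by fun_prop) continuous_const)
    fun u => by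
      obtain ⟨G, -, h2, h3⟩ := tr_greedy y t ht u
      have h4 := hQ G h2
      refine ⟨fun k => if h : (k : ℕ) < G.card then y (G.equivFin.symm ⟨k, h⟩) else z,
        fun k _ => ?_, ?_⟩
      · rw [mem_closedBall_iff_norm]
        beta_reduce
        split_ifs
        · exact hy _
        · rwa [sub_self, norm_zero]
      · simp only [Set.mem_iInter, Set.mem_iUnion, Set.mem_ofPred_eq]
        intro i hi
        obtain ⟨j, hj, h5⟩ := h3 i hi
        refine ⟨⟨G.equivFin ⟨j, hj⟩, (G.equivFin ⟨j, hj⟩).2.trans_le h4⟩, ?_⟩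
        rw [dif_pos (G.equivFin ⟨j, hj⟩).2]
        simpa using h5
  refine ⟨univ.image p, card_image_le.trans (by simp), fun x hx => ?_, fun i => ?_⟩
  · obtain ⟨k, -, rfl⟩ := mem_image.1 hx
    exact mem_closedBall_iff_norm.1 (hp1 k trivial)
  · obtain ⟨k, hk⟩ := Set.mem_iUnion.1 (Set.mem_iInter.1 hp2 i)
    exact ⟨p k, mem_image_of_mem _ (mem_univ _), hk⟩

variable [NormedSpace ℝ X]

theorem tra_cover {δ : ℝ} (hδ : 0 < δ) : ∃ N : ℕ, ∀ (x : X) (D : ℝ), 0 < D → ∃ T : Finset X,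
    T.card ≤ N ∧ ∀ y, ‖y - x‖ ≤ D → ∃ z ∈ T, ‖y - z‖ < δ * D := by
  classical
  obtain ⟨t, -, h1, h2⟩ := finite_cover_balls_of_compact (isCompact_closedBall (0 : X) 1) hδ
  refine ⟨h1.toFinset.card, fun x D hD => ⟨h1.toFinset.image fun z => x + D • z, card_image_le,
    fun y hy => ?_⟩⟩
  have h3 : D⁻¹ • (y - x) ∈ Metric.closedBall (0 : X) 1 := by
    rw [mem_closedBall_zero_iff, norm_smul, norm_inv, Real.norm_of_nonneg hD.le,
      inv_mul_le_one₀ hD]
    exact hy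
  obtain ⟨z, hz, h4⟩ := Set.mem_iUnion₂.1 (h2 h3)
  refine ⟨_, mem_image_of_mem _ (h1.mem_toFinset.2 hz), ?_⟩
  have h5 : y - (x + D • z) = D • (D⁻¹ • (y - x) - z) := by
    rw [smul_sub, smul_inv_smul₀ hD.ne', sub_sub]
  rw [h5, norm_smul, Real.norm_of_nonneg hD.le, mul_comm]
  exact mul_lt_mul_of_pos_right (mem_ball_iff_norm.1 h4) hD

theorem tr_pack {B : ℝ} (hB : 1 ≤ B) (q : ℕ) : ∃ Q : ℕ, ∀ (F : Finset X) (Cr : X → Finset ℝ),
    (∀ y ∈ F, (Cr y).card ≤ q) →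
    (∀ y ∈ F, ∀ y' ∈ F, y ≠ y' → ∃ c ∈ Cr y, ‖y - y'‖ ≤ B * c ∧ c ≤ B * ‖y - y'‖) →
    F.card ≤ Q := by
  classical
  have hB0 : 0 < B := by linarith
  induction q with
  | zero =>
    refine ⟨1, fun F Cr h1 h2 => card_le_one.2 fun a ha b hb => by_contra fun e => ?_⟩
    obtain ⟨c, hc, -⟩ := h2 a ha b hb e
    rw [card_eq_zero.1 (Nat.le_zero.1 (h1 a ha))] at hc
    exact notMem_empty _ hc
  | succ q ih =>
    obtain ⟨Q, hQ⟩ := ih
    obtain ⟨N, hN⟩ := tra_cover (X := X) (δ := 1 / (4 * B ^ 2)) (by positivity)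
    refine ⟨N * Q + 1, fun F Cr h1 h2 => ?_⟩
    by_cases h0 : F.card ≤ 1
    · omega
    obtain ⟨a₀, ha₀, b₀, hb₀, hab⟩ := one_lt_card.1 (not_le.1 h0)
    obtain ⟨⟨a, b⟩, hm, hD⟩ := exists_max_image (F ×ˢ F) (fun p => ‖p.1 - p.2‖)
      ⟨(a₀, b₀), mem_product.2 ⟨ha₀, hb₀⟩⟩
    obtain ⟨ha, hb⟩ := mem_product.1 hm
    have hD0 : 0 < ‖a - b‖ :=
      (norm_pos_iff.2 (sub_ne_zero.2 hab)).trans_le (hD _ (mem_product.2 ⟨ha₀, hb₀⟩ : (a₀, b₀) ∈ _))
    have h3 : ∀ y ∈ F, ∃ c ∈ Cr y, ‖a - b‖ ≤ 2 * (B * c) := fun y hy => by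
      have h4 : ∃ w ∈ F, ‖a - b‖ ≤ 2 * ‖y - w‖ := by
        by_contra h
        push Not at h
        have := norm_sub_le_norm_sub_add_norm_sub a y b
        rw [norm_sub_rev a y] at this
        linarith [h a ha, h b hb]
      obtain ⟨w, hw, h5⟩ := h4
      obtain ⟨c, hc, h6, -⟩ := h2 y hy w hw fun e => by
        rw [e, sub_self, norm_zero] at h5
        linarith
      exact ⟨c, hc, by linarith⟩
    choose! c hc1 hc2 using h3
    obtain ⟨T, hT1, hT2⟩ := hN b _ hD0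
    have h4 : F ⊆ T.biUnion fun z => F.filter fun y => ‖y - z‖ < 1 / (4 * B ^ 2) * ‖a - b‖ :=
      fun y hy => by
        obtain ⟨z, hz, h5⟩ := hT2 y (hD (y, b) (mem_product.2 ⟨hy, hb⟩))
        exact mem_biUnion.2 ⟨z, hz, mem_filter.2 ⟨hy, h5⟩⟩
    refine (card_le_card h4).trans ((card_biUnion_le_card_mul _ _ Q fun z _ => ?_).trans ?_)
    · refine hQ _ (fun y => (Cr y).erase (c y)) (fun y hy => ?_) fun y hy y' hy' e => ?_
      · have := h1 y (mem_filter.1 hy).1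
        rw [card_erase_of_mem (hc1 y (mem_filter.1 hy).1)]
        omega
      · obtain ⟨hy1, hy2⟩ := mem_filter.1 hy
        obtain ⟨hy1', hy2'⟩ := mem_filter.1 hy'
        obtain ⟨d, hd, h5, h6⟩ := h2 y hy1 y' hy1' e
        refine ⟨d, mem_erase.2 ⟨fun e' => ?_, hd⟩, h5, h6⟩
        have h7 := norm_sub_le_norm_sub_add_norm_sub y z y'
        rw [norm_sub_rev z y'] at h7
        have h8 := hc2 y hy1
        rw [← e'] at h8
        have h9 : B * d ≤ B * (B * ‖y - y'‖) := mul_le_mul_of_nonneg_left h6 hB0.le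
        have h10 : B ^ 2 * ‖y - y'‖ < B ^ 2 * (2 * (1 / (4 * B ^ 2) * ‖a - b‖)) :=
          mul_lt_mul_of_pos_left (by linarith) (by positivity)
        have h11 : B ^ 2 * (2 * (1 / (4 * B ^ 2) * ‖a - b‖)) = ‖a - b‖ / 2 := by
          field_simp
          ring
        nlinarith
    · exact (Nat.mul_le_mul_right Q hT1).trans (Nat.le_succ _)

end Pool.Agent.CA9.UB
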