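import Pool.Agent.Lib.MP_ca9be0_an.UB.TrA

/-! Trees of special points: classes and levels. -/

set_option autoImplicit false

namespace Pool.Agent.CA9.UB.Tr

variable {X : Type} [NormedAddCommGroup X] (mg : X → ℝ → ℝ) (r : X → ℝ) (ε : ℝ)

/-- special points at the top scale -/
def Sp (x : X) : Prop := 0 < r x ∧ mg x (r x) ≤ ε

/-- a step of a chain -/
def Stp (x y : X) : Prop := Sp mg r ε x ∧ Sp mg r ε y ∧ ‖x - y‖ ≤ 20 * r x ∧ ‖x - y‖ ≤ 20 * r y

theorem stp_symm {x y : X} (h : Relation.ReflTransGen (Stp mg r ε) x y) :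
    Relation.ReflTransGen (Stp mg r ε) y x := by
  induction h with
  | refl => exact .refl
  | tail _ h ih =>
    exact .head ⟨h.2.1, h.1, (norm_sub_rev _ _).trans_le h.2.2.2,
      (norm_sub_rev _ _).trans_le h.2.2.1⟩ ih

/-- chain equivalence -/
def st : Setoid X where
  r := Relation.ReflTransGen (Stp mg r ε)
  iseqv := ⟨fun _ => .refl, stp_symm mg r ε, fun h h' => h.trans h'⟩

/-- the centre of the class -/
noncomputable def rep (x : X) : X := (Quotient.mk (st mg r ε) x).out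

/-- the levels of the tree with centre `z` -/
def T (z : X) : ℕ → Set X
  | 0 => {y | st mg r ε z y}
  | k + 1 => {y | mg y (r z / 2 ^ (k + 1)) ≤ ε ∧ ∃ y' ∈ T z k, ‖y - y'‖ ≤ r z / 2 ^ k}

/-- centres -/
def Ce (z : X) : Prop := Sp mg r ε z ∧ rep mg r ε z = z

/-- the numbers whose infimum is the new scale -/
def S (x : X) : Set ℝ :=
  {t | t = r x ∨ ∃ z k y, Ce mg r ε z ∧ y ∈ T mg r ε z k ∧ t = ‖x - y‖ + r z / 2 ^ k}

/-- the new scale -/
noncomputable def sg (x : X) : ℝ := sInf (S mg r ε x)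

variable {mg r ε}

theorem rep_st (x : X) : st mg r ε (rep mg r ε x) x := Quotient.mk_out (s := st mg r ε) x

theorem rep_eq {x y : X} (h : st mg r ε x y) : rep mg r ε x = rep mg r ε y :=
  congrArg Quotient.out (Quotient.sound h)

theorem Sp.of_st {x y : X} (hx : Sp mg r ε x) (h : st mg r ε x y) : Sp mg r ε y := by
  induction h with
  | refl => exact hx
  | tail _ h _ => exact h.2.1

theorem Sp.ce {x : X} (hx : Sp mg r ε x) : Ce mg r ε (rep mg r ε x) :=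
  ⟨hx.of_st ((st mg r ε).symm (rep_st x)), rep_eq (rep_st x)⟩

theorem lv_anti {a : ℝ} (ha : 0 ≤ a) {j k : ℕ} (h : j ≤ k) : a / 2 ^ k ≤ a / 2 ^ j :=
  div_le_div_of_nonneg_left ha (by positivity) (pow_le_pow_right₀ one_le_two h)

theorem lv_succ (a : ℝ) (k : ℕ) : a / 2 ^ (k + 1) = a / 2 ^ k / 2 := by rw [pow_succ, div_div]

theorem anc {z y : X} {j k : ℕ} (hz : 0 ≤ r z) (h : j ≤ k) (hy : y ∈ T mg r ε z k) :
    ∃ y' ∈ T mg r ε z j, ‖y - y'‖ ≤ 2 * (r z / 2 ^ j) := by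
  suffices ∃ y' ∈ T mg r ε z j, ‖y - y'‖ ≤ 2 * (r z / 2 ^ j) - 2 * (r z / 2 ^ k) by
    obtain ⟨y', h1, h2⟩ := this
    have : 0 ≤ r z / 2 ^ k := by positivity
    exact ⟨y', h1, by linarith⟩
  induction k, h using Nat.le_induction generalizing y with
  | base => exact ⟨y, hy, by simp⟩
  | succ k _ ih =>
    obtain ⟨-, w, h1, h2⟩ := hy
    obtain ⟨y', h3, h4⟩ := ih h1
    refine ⟨y', h3, ?_⟩
    rw [lv_succ]
    linarith [norm_sub_le_norm_sub_add_norm_sub y w y']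

/-- The constants and the facts on them. -/
structure Cx (mg : X → ℝ → ℝ) (r : X → ℝ) (ε ε' W : ℝ) : Prop where
  nn : ∀ x, 0 ≤ r x
  W0 : 0 ≤ W
  slow : ∀ x y a, ‖x - y‖ ≤ (W + 20) * a → r x ≤ r y + a / 100
  le : ε ≤ ε'
  top : ∀ x ρ, Sp mg r ε x → 0 < ρ → r x ≤ 2 * ρ → ρ ≤ 2 * r x → mg x ρ ≤ ε'
  gap : ∀ z, Sp mg r ε z → ∃ a, 0 < a ∧ a + 21 ≤ W ∧ ∀ y, Sp mg r ε y →
    ‖y - z‖ < (a + 21) * r z → ‖y - z‖ < a * r z

namespace Cx

variable {ε' W : ℝ} (h : Cx mg r ε ε' W)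
include h

theorem slow' {x y : X} {a b : ℝ} (ha : 0 ≤ a) (hb : b ≤ 20) (k : ‖x - y‖ ≤ W * a + b * a) :
    r x ≤ r y + a / 100 ∧ r y ≤ r x + a / 100 := by
  have : ‖x - y‖ ≤ (W + 20) * a := by nlinarith
  exact ⟨h.slow _ _ _ this, h.slow _ _ _ (norm_sub_rev x y ▸ this)⟩

theorem slow'' {x y : X} {a b : ℝ} (ha : 0 ≤ a) (hb : b ≤ 20) (k : ‖x - y‖ ≤ b * a) :
    r x ≤ r y + a / 100 ∧ r y ≤ r x + a / 100 :=
  h.slow' ha hb (by nlinarith [h.W0])

theorem cls {z y : X} (hz : Sp mg r ε z) (k : st mg r ε z y) : ‖y - z‖ ≤ W * r z := by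
  obtain ⟨a, a0, a1, a2⟩ := h.gap z hz
  have h1 : a * r z ≤ W * r z := mul_le_mul_of_nonneg_right (by linarith) hz.1.le
  suffices ‖y - z‖ < a * r z from this.le.trans h1
  induction k with
  | refl => rw [sub_self, norm_zero]; exact mul_pos a0 hz.1
  | @tail y y' _ k ih =>
    refine a2 y' k.2.1 ?_
    have h2 := (h.slow' (x := y) (y := z) (b := 0) hz.1.le (by norm_num) (by linarith)).1
    have h3 := norm_sub_le_norm_sub_add_norm_sub y' y z
    rw [norm_sub_rev y' y] at h3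
    linarith [k.2.2.1, hz.1]

theorem spec {z y : X} {k : ℕ} (hz : Sp mg r ε z) (hy : y ∈ T mg r ε z k) :
    mg y (r z / 2 ^ k) ≤ ε' := by
  cases k with
  | succ k => exact hy.1.trans h.le
  | zero =>
    have h2 := h.slow' (b := 0) hz.1.le (by norm_num) (by linarith [h.cls hz hy])
    rw [pow_zero, div_one]
    exact h.top y _ (hz.of_st hy) hz.1 (by linarith [hz.1, h2.1]) (by linarith [hz.1, h2.2])

theorem node {z y : X} {k : ℕ} (hz : Sp mg r ε z) (hy : y ∈ T mg r ε z k) :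
    ‖y - z‖ ≤ W * r z + 2 * r z := by
  obtain ⟨y', h1, h2⟩ := anc hz.1.le (Nat.zero_le k) hy
  rw [pow_zero, div_one] at h2
  linarith [norm_sub_le_norm_sub_add_norm_sub y y' z, h.cls hz h1]

theorem uniq {x y y' : X} (hy : Sp mg r ε y) (hy' : Sp mg r ε y') (k : ‖x - y‖ ≤ 8 * r x)
    (k' : ‖x - y'‖ ≤ 10 * r x) : rep mg r ε y = rep mg r ε y' := by
  have h1 := (h.slow'' (h.nn x) (by norm_num) k).1
  have h2 := (h.slow'' (h.nn x) (by norm_num) k').1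
  have h3 := norm_sub_le_norm_sub_add_norm_sub y x y'
  rw [norm_sub_rev y x] at h3
  exact rep_eq (Relation.ReflTransGen.single
    ⟨hy, hy', by linarith [h.nn x], by linarith [h.nn x]⟩)

/-- a point close to a node is near its class -/
theorem close {x z y : X} {k : ℕ} (hz : Sp mg r ε z) (hy : y ∈ T mg r ε z k) (hx : ‖x - y‖ ≤ r x) :
    (∃ y₀, st mg r ε z y₀ ∧ ‖x - y₀‖ ≤ 8 * r x) ∧ r x ≤ 2 * r z := by
  obtain ⟨y', h1, h2⟩ := anc hz.1.le (Nat.zero_le k) hy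
  rw [pow_zero, div_one] at h2
  have h3 := h.slow'' (h.nn x) (b := 1) (by norm_num) (by rwa [one_mul])
  have h4 := h.slow' hz.1.le (b := 2) (by norm_num) (h.node hz hy)
  refine ⟨⟨y', h1, ?_⟩, by linarith [h3.1, h4.1, hz.1]⟩
  linarith [norm_sub_le_norm_sub_add_norm_sub x y y', h3.2, h4.2, h.nn x]

theorem bdd (x : X) : ∀ t ∈ S mg r ε x, 0 ≤ t := by
  rintro _ (rfl | ⟨z, k, y, hz, -, rfl⟩)
  · exact h.nn x
  · have := h.nn z
    positivity

theorem sg_le {x : X} {t : ℝ} (ht : t ∈ S mg r ε x) : sg mg r ε x ≤ t :=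
  csInf_le ⟨0, h.bdd x⟩ ht

omit h in
theorem le_sg {x : X} {a : ℝ} (k : ∀ t ∈ S mg r ε x, a ≤ t) : a ≤ sg mg r ε x :=
  le_csInf ⟨r x, .inl rfl⟩ k

theorem sg_lip (hr : ∀ x y, r x ≤ r y + ‖x - y‖) (x y : X) :
    sg mg r ε x ≤ sg mg r ε y + ‖x - y‖ := by
  rw [← sub_le_iff_le_add]
  refine le_sg ?_
  rintro _ (rfl | ⟨z, k, w, hz, hw, rfl⟩)
  · linarith [h.sg_le (x := x) (.inl rfl), hr x y]
  · linarith [h.sg_le (x := x) (.inr ⟨z, k, w, hz, hw, rfl⟩),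
      norm_sub_le_norm_sub_add_norm_sub x y w]

/-- going down the tree until the point is not special -/
theorem desc {x z : X} {j : ℕ} (hz : Ce mg r ε z) (h0 : 0 < sg mg r ε x)
    (hx : ∃ y ∈ T mg r ε z j, ‖x - y‖ ≤ r z / 2 ^ j) (h1 : sg mg r ε x ≤ 2 * (r z / 2 ^ j)) :
    ∃ ρ, ρ ≤ r z / 2 ^ j ∧ sg mg r ε x ≤ 4 * ρ ∧ ε < mg x ρ := by
  classical
  have h2 : ∀ k, x ∈ T mg r ε z k → sg mg r ε x ≤ r z / 2 ^ k := fun k hk => by
    simpa using h.sg_le (x := x) (.inr ⟨z, k, x, hz, hk, rfl⟩)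
  have h3 : ∃ m, x ∉ T mg r ε z (j + m + 1) := by
    by_contra k
    push Not at k
    obtain ⟨m, hm⟩ := pow_unbounded_of_one_lt (r z / sg mg r ε x) (one_lt_two (α := ℝ))
    have := (h2 _ (k m)).trans (lv_anti (h.nn z) (j := m) (by omega))
    rw [le_div_iff₀ (by positivity)] at this
    rw [div_lt_iff₀ h0] at hm
    linarith
  have h4 := Nat.find_spec h3
  refine ⟨r z / 2 ^ (j + Nat.find h3 + 1), lv_anti (h.nn z) (by omega), ?_⟩
  rcases e : Nat.find h3 with _ | m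
  · rw [e] at h4
    refine ⟨by rw [add_zero, lv_succ]; linarith, lt_of_not_ge fun k => h4 ⟨k, hx⟩⟩
  · rw [e] at h4
    have h5 : x ∈ T mg r ε z (j + (m + 1)) := not_not.1 (Nat.find_min h3 (m := m) (by omega))
    have h6 : 0 ≤ r z / 2 ^ (j + (m + 1)) := by
      have := h.nn z
      positivity
    refine ⟨by rw [lv_succ]; linarith [h2 _ h5], lt_of_not_ge fun k => h4 ⟨k, x, h5, ?_⟩⟩
    rwa [sub_self, norm_zero]

end Cx

/-- the gap in the set of the special points -/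
theorem gap {e : ℕ} {ε' : ℝ} {z : X} (hz : Sp mg r ε z)
    (top : ∀ y, Sp mg r ε y → ‖y - z‖ ≤ (22 * e + 22) * r z → mg y (r z) ≤ ε')
    (hF : ∀ y : Fin (e + 1) → X, (∀ i, ‖y i - z‖ ≤ (22 * e + 22) * r z) →
      (∀ i j, i ≠ j → r z ≤ ‖y i - y j‖) → ∃ i, ε' < mg (y i) (r z)) :
    ∃ a : ℝ, 0 < a ∧ a + 21 ≤ 22 * e + 22 ∧ ∀ y, Sp mg r ε y →
      ‖y - z‖ < (a + 21) * r z → ‖y - z‖ < a * r z := by
  by_contra k
  push Not at k
  have h1 : ∀ i : Fin (e + 1), ((i : ℕ) : ℝ) ≤ e := fun i => by exact_mod_cast Nat.lt_succ_iff.1 i.2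
  choose y y1 y2 y3 using fun i : Fin (e + 1) =>
    k (22 * (i : ℕ) + 1) (by positivity) (by linarith [h1 i])
  have h2 : ∀ i, ‖y i - z‖ ≤ (22 * e + 22) * r z := fun i =>
    (y2 i).le.trans (mul_le_mul_of_nonneg_right (by linarith [h1 i]) hz.1.le)
  have h3 : ∀ i j, i < j → r z ≤ ‖y j - y i‖ := fun i j hij => by
    have a1 : ((i : ℕ) : ℝ) + 1 ≤ (j : ℕ) := by exact_mod_cast hij
    have a2 := mul_le_mul_of_nonneg_right a1 hz.1.le
    linarith [norm_sub_le_norm_sub_add_norm_sub (y j) (y i) z, y2 i, y3 j]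
  obtain ⟨i, hi⟩ := hF y h2 fun i j hij => by
    rcases lt_or_gt_of_ne hij with a | a
    · rw [norm_sub_rev]; exact h3 i j a
    · exact h3 j i a
  exact hi.not_ge (top _ (y1 i) (h2 i))

end Pool.Agent.CA9.UB.Tr
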